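import Pool.Agent.LSB.Defs

/-!
# Part A1: calibration of the billiard by an integrable rational caustic
-/

namespace LSB

open Real

/-- The calibrated action. -/
noncomputable def Gcal (h P : ℝ → ℝ) (x y : ℝ) : ℝ := (∫ t in x..y, P t) - genS h x y

namespace Cal

variable {h P f : ℝ → ℝ} {p q : ℕ}

lemma h_diff (hs : IsSupp h) (x : ℝ) : HasDerivAt h (deriv h x) x :=
  ((hs.smooth.differentiable (by norm_num)) x).hasDerivAt

lemma h'_contDiff (hs : IsSupp h) : ContDiff ℝ 1 (deriv h) := by
  have := hs.smooth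
  have h2 : ContDiff ℝ (1 + 1) h := by
    have e : (1 + 1 : WithTop ℕ∞) = 2 := by norm_num
    rw [e]; exact this
  exact (contDiff_succ_iff_deriv.1 h2).2.2

lemma h'_diff (hs : IsSupp h) (x : ℝ) : HasDerivAt (deriv h) (deriv (deriv h) x) x :=
  (((h'_contDiff hs).differentiable (by norm_num)) x).hasDerivAt

lemma h_cont (hs : IsSupp h) : Continuous h := hs.smooth.continuous

lemma h'_cont (hs : IsSupp h) : Continuous (deriv h) := (h'_contDiff hs).continuous

lemma h''_cont (hs : IsSupp h) : Continuous (deriv (deriv h)) := by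
  have h2 : ContDiff ℝ (0 + 1) (deriv h) := by
    have e : (0 + 1 : WithTop ℕ∞) = 1 := by norm_num
    rw [e]; exact h'_contDiff hs
  exact ((contDiff_succ_iff_deriv.1 h2).2.2).continuous

lemma h'_per (hs : IsSupp h) (x : ℝ) : deriv h (x + 2 * π) = deriv h x := by
  have h1 : (fun y => h (y + 2 * π)) = h := by
    funext y
    exact hs.periodic y
  have h2 := deriv_comp_add_const (f := h) (a := 2 * π) (x := x)
  rw [← h2]
  congr 1

lemma hasDerivAt_genS_left (hs : IsSupp h) (x y : ℝ) :
    HasDerivAt (fun x => genS h x y) (-(lineIn h x y)) x := by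
  unfold genS lineIn
  have h1 : HasDerivAt (fun x : ℝ => (x + y) / 2) (1 / 2) x :=
    ((hasDerivAt_id x).add_const y).div_const 2
  have h2 : HasDerivAt (fun x : ℝ => (y - x) / 2) (-1 / 2) x :=
    ((hasDerivAt_id x).const_sub y).div_const 2
  have h3 := ((h_diff hs ((x + y) / 2)).comp x h1).const_mul 2
  have h4 := (Real.hasDerivAt_sin ((y - x) / 2)).comp x h2
  have h5 := h3.mul h4
  refine h5.congr_deriv ?_
  simp only [Function.comp]
  ring

lemma hasDerivAt_genS_right (hs : IsSupp h) (x y : ℝ) :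
    HasDerivAt (fun y => genS h x y) (lineOut h x y) y := by
  unfold genS lineOut
  have h1 : HasDerivAt (fun y : ℝ => (x + y) / 2) (1 / 2) y :=
    ((hasDerivAt_id y).const_add x).div_const 2
  have h2 : HasDerivAt (fun y : ℝ => (y - x) / 2) (1 / 2) y :=
    ((hasDerivAt_id y).sub_const x).div_const 2
  have h3 := ((h_diff hs ((x + y) / 2)).comp y h1).const_mul 2
  have h4 := (Real.hasDerivAt_sin ((y - x) / 2)).comp y h2
  have h5 := h3.mul h4
  refine h5.congr_deriv ?_
  simp only [Function.comp]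
  ring

lemma hasDerivAt_lineIn_right (hs : IsSupp h) (x y : ℝ) :
    HasDerivAt (fun y => lineIn h x y)
      (-(1 / 2 * (h ((x + y) / 2) + deriv (deriv h) ((x + y) / 2)) * Real.sin ((y - x) / 2))) y := by
  unfold lineIn
  have h1 : HasDerivAt (fun y : ℝ => (x + y) / 2) (1 / 2) y :=
    ((hasDerivAt_id y).const_add x).div_const 2
  have h2 : HasDerivAt (fun y : ℝ => (y - x) / 2) (1 / 2) y :=
    ((hasDerivAt_id y).sub_const x).div_const 2
  have h3 := (h_diff hs ((x + y) / 2)).comp y h1
  have h3' := (h'_diff hs ((x + y) / 2)).comp y h1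
  have h4 := (Real.hasDerivAt_sin ((y - x) / 2)).comp y h2
  have h5 := (Real.hasDerivAt_cos ((y - x) / 2)).comp y h2
  have h6 := (h3.mul h5).sub (h3'.mul h4)
  refine h6.congr_deriv ?_
  simp only [Function.comp]
  ring

lemma hasDerivAt_lineOut_left (hs : IsSupp h) (x y : ℝ) :
    HasDerivAt (fun x => lineOut h x y)
      (1 / 2 * (h ((x + y) / 2) + deriv (deriv h) ((x + y) / 2)) * Real.sin ((y - x) / 2)) x := by
  unfold lineOut
  have h1 : HasDerivAt (fun x : ℝ => (x + y) / 2) (1 / 2) x :=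
    ((hasDerivAt_id x).add_const y).div_const 2
  have h2 : HasDerivAt (fun x : ℝ => (y - x) / 2) (-1 / 2) x :=
    ((hasDerivAt_id x).const_sub y).div_const 2
  have h3 := (h_diff hs ((x + y) / 2)).comp x h1
  have h3' := (h'_diff hs ((x + y) / 2)).comp x h1
  have h4 := (Real.hasDerivAt_sin ((y - x) / 2)).comp x h2
  have h5 := (Real.hasDerivAt_cos ((y - x) / 2)).comp x h2
  have h6 := (h3.mul h5).add (h3'.mul h4)
  refine h6.congr_deriv ?_
  simp only [Function.comp]
  ring

lemma lineIn_cont (hs : IsSupp h) : Continuous (fun z : ℝ × ℝ => lineIn h z.1 z.2) := by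
  unfold lineIn
  have h1 := h_cont hs
  have h2 := h'_cont hs
  fun_prop

lemma lineOut_cont (hs : IsSupp h) : Continuous (fun z : ℝ × ℝ => lineOut h z.1 z.2) := by
  unfold lineOut
  have h1 := h_cont hs
  have h2 := h'_cont hs
  fun_prop

lemma sin_half_pos {x y : ℝ} (h1 : x < y) (h2 : y < x + 2 * π) : 0 < Real.sin ((y - x) / 2) := by
  apply Real.sin_pos_of_pos_of_lt_pi
  · linarith
  · linarith

/-- `lineIn h x` is strictly decreasing on `[x, x + 2π]`. -/
lemma lineIn_anti (hs : IsSupp h) (x : ℝ) :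
    StrictAntiOn (fun y => lineIn h x y) (Set.Icc x (x + 2 * π)) := by
  apply strictAntiOn_of_hasDerivWithinAt_neg (convex_Icc _ _)
    (f' := fun y => -(1 / 2 * (h ((x + y) / 2) + deriv (deriv h) ((x + y) / 2)) *
      Real.sin ((y - x) / 2)))
  · intro y _
    exact (hasDerivAt_lineIn_right hs x y).continuousAt.continuousWithinAt
  · intro y _
    exact (hasDerivAt_lineIn_right hs x y).hasDerivWithinAt
  · intro y hy
    rw [interior_Icc] at hy
    have h1 := sin_half_pos hy.1 hy.2
    have h2 := hs.pos ((x + y) / 2)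
    have h3 := mul_pos h2 h1
    nlinarith

/-- `lineOut h · y` is strictly increasing on `[y - 2π, y]`. -/
lemma lineOut_mono (hs : IsSupp h) (y : ℝ) :
    StrictMonoOn (fun x => lineOut h x y) (Set.Icc (y - 2 * π) y) := by
  apply strictMonoOn_of_hasDerivWithinAt_pos (convex_Icc _ _)
    (f' := fun x => 1 / 2 * (h ((x + y) / 2) + deriv (deriv h) ((x + y) / 2)) *
      Real.sin ((y - x) / 2))
  · intro x _
    exact (hasDerivAt_lineOut_left hs x y).continuousAt.continuousWithinAt
  · intro x _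
    exact (hasDerivAt_lineOut_left hs x y).hasDerivWithinAt
  · intro x hx
    rw [interior_Icc] at hx
    have h1 := sin_half_pos hx.2 (by linarith [hx.1])
    have h2 := hs.pos ((x + y) / 2)
    have h3 := mul_pos h2 h1
    nlinarith

lemma map_unique (hs : IsSupp h) (hc : PCaustic h P f p q) {x y : ℝ} (h1 : x < y)
    (h2 : y < x + 2 * π) (h3 : lineIn h x y = P x) : y = f x := by
  have h4 := hc.lineIn_eq x
  have h5 := (lineIn_anti hs x).injOn
  apply h5 ⟨h1.le, h2.le⟩ ⟨(hc.lt_map x).le, (hc.map_lt x).le⟩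
  simp only
  rw [h3, h4]

lemma map_cont (hs : IsSupp h) (hc : PCaustic h P f p q) : Continuous f := by
  rw [continuous_iff_continuousAt]
  intro x₀
  rw [Metric.continuousAt_iff']
  intro ε hε
  have ha := hc.lt_map x₀
  have hb := hc.map_lt x₀
  obtain ⟨η, hη0, hηε, hη1, hη2⟩ : ∃ η > 0, η ≤ ε ∧ x₀ < f x₀ - η ∧ f x₀ + η < x₀ + 2 * π := by
    refine ⟨min ε (min ((f x₀ - x₀) / 2) ((x₀ + 2 * π - f x₀) / 2)), ?_, ?_, ?_, ?_⟩
    · apply lt_min hε (lt_min _ _) <;> linarith
    · exact min_le_left _ _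
    · have : min ε (min ((f x₀ - x₀) / 2) ((x₀ + 2 * π - f x₀) / 2)) ≤ (f x₀ - x₀) / 2 :=
        (min_le_right _ _).trans (min_le_left _ _)
      linarith
    · have : min ε (min ((f x₀ - x₀) / 2) ((x₀ + 2 * π - f x₀) / 2)) ≤ (x₀ + 2 * π - f x₀) / 2 :=
        (min_le_right _ _).trans (min_le_right _ _)
      linarith
  have hanti := lineIn_anti hs x₀
  have e0 := hc.lineIn_eq x₀
  have h1 : P x₀ < lineIn h x₀ (f x₀ - η) := by
    rw [← e0]
    exact hanti ⟨by linarith, by linarith⟩ ⟨by linarith, by linarith⟩ (by linarith)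
  have h2 : lineIn h x₀ (f x₀ + η) < P x₀ := by
    rw [← e0]
    exact hanti ⟨by linarith, by linarith⟩ ⟨by linarith, by linarith⟩ (by linarith)
  have hl := lineIn_cont hs
  have c1 : Continuous (fun x => lineIn h x (f x₀ - η)) :=
    hl.comp (continuous_id.prodMk continuous_const)
  have c2 : Continuous (fun x => lineIn h x (f x₀ + η)) :=
    hl.comp (continuous_id.prodMk continuous_const)
  have e1 : ∀ᶠ x in nhds x₀, P x < lineIn h x (f x₀ - η) :=
    (hc.cont.continuousAt).eventually_lt c1.continuousAt h1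
  have e2 : ∀ᶠ x in nhds x₀, lineIn h x (f x₀ + η) < P x :=
    (c2.continuousAt).eventually_lt hc.cont.continuousAt h2
  have e3 : ∀ᶠ x in nhds x₀, x < f x₀ - η := eventually_lt_nhds hη1
  have e4 : ∀ᶠ x in nhds x₀, f x₀ + η - 2 * π < x := eventually_gt_nhds (by linarith)
  filter_upwards [e1, e2, e3, e4] with x h1 h2 h3 h4
  have hax := lineIn_anti hs x
  have f1 := hc.lt_map x
  have f2 := hc.map_lt x
  have f3 := hc.lineIn_eq x
  have g1 : f x₀ - η < f x := by
    by_contra hh
    push Not at hh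
    have := hax.antitoneOn ⟨f1.le, f2.le⟩ ⟨by linarith, by linarith⟩ hh
    rw [f3] at this
    linarith
  have g2 : f x < f x₀ + η := by
    by_contra hh
    push Not at hh
    have := hax.antitoneOn ⟨by linarith, by linarith⟩ ⟨f1.le, f2.le⟩ hh
    rw [f3] at this
    linarith
  rw [Real.dist_eq, abs_lt]
  constructor <;> linarith

lemma iter_inj (hq : 0 < q) (hc : PCaustic h P f p q) : Function.Injective f := by
  intro x y hxy
  have h1 : f^[q] x = f^[q] y := by
    obtain ⟨n, rfl⟩ : ∃ n, q = n + 1 := ⟨q - 1, by omega⟩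
    rw [Function.iterate_succ_apply, Function.iterate_succ_apply, hxy]
  rw [hc.iter, hc.iter] at h1
  linarith

lemma iter_surj (hq : 0 < q) (hc : PCaustic h P f p q) : Function.Surjective f := by
  intro y
  obtain ⟨n, rfl⟩ : ∃ n, q = n + 1 := ⟨q - 1, by omega⟩
  refine ⟨f^[n] (y - 2 * π * p), ?_⟩
  have := hc.iter (y - 2 * π * p)
  rw [Function.iterate_succ_apply'] at this
  rw [this]
  ring

lemma lineIn_shift (hs : IsSupp h) (x y : ℝ) :
    lineIn h (x + 2 * π) (y + 2 * π) = lineIn h x y := by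
  unfold lineIn
  have h1 : (x + 2 * π + (y + 2 * π)) / 2 = (x + y) / 2 + 2 * π := by ring
  have h2 : (y + 2 * π - (x + 2 * π)) / 2 = (y - x) / 2 := by ring
  rw [h1, h2, hs.periodic, h'_per hs]

lemma map_add (hs : IsSupp h) (hc : PCaustic h P f p q) (x : ℝ) :
    f (x + 2 * π) = f x + 2 * π := by
  symm
  have h1 := hc.lt_map x
  have h2 := hc.map_lt x
  apply map_unique hs hc (by linarith) (by linarith)
  rw [lineIn_shift hs, hc.lineIn_eq, hc.periodic]

lemma map_strictMono (hs : IsSupp h) (hq : 0 < q) (hc : PCaustic h P f p q) : StrictMono f := by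
  rcases (map_cont hs hc).strictMono_of_inj (iter_inj hq hc) with h1 | h1
  · exact h1
  · exfalso
    have hpi := Real.pi_pos
    have h2 := h1 (show (0 : ℝ) < 0 + 2 * π by positivity)
    rw [map_add hs hc] at h2
    linarith

lemma hasDerivAt_G_right (hs : IsSupp h) (hP : Continuous P) (x y : ℝ) :
    HasDerivAt (fun y => Gcal h P x y) (P y - lineOut h x y) y := by
  unfold Gcal
  have h1 := intervalIntegral.integral_hasDerivAt_right (hP.intervalIntegrable x y)
    (hP.stronglyMeasurableAtFilter _ _) hP.continuousAt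
  exact h1.sub (hasDerivAt_genS_right hs x y)

lemma hasDerivAt_G_left (hs : IsSupp h) (hP : Continuous P) (x y : ℝ) :
    HasDerivAt (fun x => Gcal h P x y) (lineIn h x y - P x) x := by
  unfold Gcal
  have h1 := intervalIntegral.integral_hasDerivAt_left (hP.intervalIntegrable x y)
    (hP.stronglyMeasurableAtFilter _ _) hP.continuousAt
  have h2 := h1.sub (hasDerivAt_genS_left hs x y)
  refine h2.congr_deriv ?_
  ring

/-- the derivative of the calibrated action in terms of the preimage -/
lemma P_eq_lineOut (hc : PCaustic h P f p q) {x y : ℝ} (hxy : f x = y) :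
    P y = lineOut h x y := by
  rw [← hxy, hc.lineOut_eq]

lemma G_mono_right (hs : IsSupp h) (hq : 0 < q) (hc : PCaustic h P f p q) (x : ℝ) :
    StrictMonoOn (fun y => Gcal h P x y) (Set.Icc (f x) (x + 2 * π)) := by
  apply strictMonoOn_of_hasDerivWithinAt_pos (convex_Icc _ _)
    (f' := fun y => P y - lineOut h x y)
  · intro y _
    exact (hasDerivAt_G_right hs hc.cont x y).continuousAt.continuousWithinAt
  · intro y _
    exact (hasDerivAt_G_right hs hc.cont x y).hasDerivWithinAt
  · intro y hy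
    rw [interior_Icc] at hy
    obtain ⟨z, hz⟩ := iter_surj hq hc y
    have h0 := map_strictMono hs hq hc
    have h1 : x < z := by
      rw [← h0.lt_iff_lt, hz]
      exact hy.1
    have h2 := hc.lt_map z
    rw [hz] at h2
    have h3 := lineOut_mono hs y (a := x) (b := z) ⟨by linarith [hy.2], by linarith⟩
      ⟨by linarith [hy.2], by linarith⟩ h1
    simp only at h3
    rw [P_eq_lineOut hc hz]
    linarith

lemma G_anti_left (hs : IsSupp h) (hq : 0 < q) (hc : PCaustic h P f p q) (x : ℝ) :
    StrictAntiOn (fun y => Gcal h P x y) (Set.Icc x (f x)) := by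
  apply strictAntiOn_of_hasDerivWithinAt_neg (convex_Icc _ _)
    (f' := fun y => P y - lineOut h x y)
  · intro y _
    exact (hasDerivAt_G_right hs hc.cont x y).continuousAt.continuousWithinAt
  · intro y _
    exact (hasDerivAt_G_right hs hc.cont x y).hasDerivWithinAt
  · intro y hy
    rw [interior_Icc] at hy
    obtain ⟨z, hz⟩ := iter_surj hq hc y
    have h0 := map_strictMono hs hq hc
    have h1 : z < x := by
      rw [← h0.lt_iff_lt, hz]
      exact hy.2
    have h2 := hc.map_lt z
    rw [hz] at h2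
    have h3 := lineOut_mono hs y (a := z) (b := x) ⟨by linarith [hy.1], by linarith [hy.1]⟩
      ⟨by linarith [hy.1], by linarith [hy.1]⟩ h1
    simp only at h3
    rw [P_eq_lineOut hc hz]
    linarith

lemma G_min (hs : IsSupp h) (hq : 0 < q) (hc : PCaustic h P f p q) {x y : ℝ} (h1 : x < y)
    (h2 : y < x + 2 * π) : Gcal h P x (f x) ≤ Gcal h P x y := by
  have h3 := hc.lt_map x
  have h4 := hc.map_lt x
  rcases le_total y (f x) with h5 | h5
  · exact (G_anti_left hs hq hc x).antitoneOn ⟨h1.le, h5⟩ ⟨h3.le, le_rfl⟩ h5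
  · exact (G_mono_right hs hq hc x).monotoneOn ⟨le_rfl, h4.le⟩ ⟨h5, h2.le⟩ h5

lemma min_deriv (hs : IsSupp h) (hq : 0 < q) (hc : PCaustic h P f p q) (x : ℝ) :
    HasDerivAt (fun x => Gcal h P x (f x)) 0 x := by
  rw [hasDerivAt_iff_isLittleO]
  rw [Asymptotics.isLittleO_iff]
  intro ε hε
  have hK : Continuous (fun z : ℝ × ℝ => lineIn h z.1 z.2 - P z.1) :=
    (lineIn_cont hs).sub (hc.cont.comp continuous_fst)
  have hK0 : (fun z : ℝ × ℝ => lineIn h z.1 z.2 - P z.1) (x, f x) = 0 := by
    simp only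
    rw [hc.lineIn_eq, sub_self]
  have hKe : ∀ᶠ z in nhds (x, f x), ‖(fun z : ℝ × ℝ => lineIn h z.1 z.2 - P z.1) z‖ < ε := by
    have := hK.norm.continuousAt (x := (x, f x))
    apply this.eventually_lt continuousAt_const
    simp only at hK0
    simp only [hK0, norm_zero]
    exact hε
  rw [nhds_prod_eq, Filter.eventually_prod_iff] at hKe
  obtain ⟨pa, hpa, pb, hpb, hab⟩ := hKe
  rw [Metric.eventually_nhds_iff] at hpa
  obtain ⟨δ, hδ, hpa⟩ := hpa
  have hfc := (map_cont hs hc).continuousAt (x := x)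
  have e1 : ∀ᶠ x' in nhds x, pb (f x') := hfc.eventually hpb
  have e2 : ∀ᶠ x' in nhds x, dist x' x < δ := Metric.ball_mem_nhds x hδ
  have e3 : ∀ᶠ x' in nhds x, x' < f x := eventually_lt_nhds (hc.lt_map x)
  have e4 : ∀ᶠ x' in nhds x, f x - 2 * π < x' :=
    eventually_gt_nhds (by linarith [hc.map_lt x])
  have e5 : ∀ᶠ x' in nhds x, x < f x' := by
    have := hfc.eventually (eventually_gt_nhds (hc.lt_map x))
    exact this
  have e6 : ∀ᶠ x' in nhds x, f x' < x + 2 * π := by
    have := hfc.eventually (eventually_lt_nhds (hc.map_lt x))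
    exact this
  have hpb0 : pb (f x) := hpb.self_of_nhds
  filter_upwards [e1, e2, e3, e4, e5, e6] with x' h1 h2 h3 h4 h5 h6
  -- mean value inequality in the first variable
  have key : ∀ y, pb y → |Gcal h P x' y - Gcal h P x y| ≤ ε * |x' - x| := by
    intro y hy
    have := (convex_uIcc x x').norm_image_sub_le_of_norm_hasDerivWithin_le
      (f := fun ξ => Gcal h P ξ y) (f' := fun ξ => lineIn h ξ y - P ξ) (C := ε)
      (fun ξ _ => (hasDerivAt_G_left hs hc.cont ξ y).hasDerivWithinAt) (by
        intro ξ hξ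
        have h7 : dist ξ x < δ := by
          have := Set.abs_sub_left_of_mem_uIcc hξ
          rw [Real.dist_eq] at h2 ⊢
          rw [abs_sub_comm] at h2
          rw [abs_sub_comm x' x] at this
          exact lt_of_le_of_lt this h2
        exact (hab (hpa h7) hy).le) Set.left_mem_uIcc Set.right_mem_uIcc
    simpa [Real.norm_eq_abs] using this
  have k1 := key (f x) hpb0
  have k2 := key (f x') h1
  have k3 := G_min hs hq hc h3 (by linarith)
  have k4 := G_min hs hq hc h5 h6
  rw [smul_zero, sub_zero, Real.norm_eq_abs, Real.norm_eq_abs]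
  rw [abs_le] at k1 k2 ⊢
  constructor
  · linarith [k2.1]
  · linarith [k1.2]

end Cal

open Cal in
/-- **Calibration.** -/
theorem calib {h P f : ℝ → ℝ} {p q : ℕ} (hs : IsSupp h) (hq : 0 < q) (hc : PCaustic h P f p q) :
    ∃ m : ℝ, (∀ x, Gcal h P x (f x) = m) ∧
      ∀ x y, x < y → y < x + 2 * π → m ≤ Gcal h P x y := by
  have h1 : ∀ x y, Gcal h P x (f x) = Gcal h P y (f y) := by
    apply is_const_of_deriv_eq_zero (f := fun x => Gcal h P x (f x))
    · intro x
      exact (min_deriv hs hq hc x).differentiableAt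
    · intro x
      exact (min_deriv hs hq hc x).deriv
  refine ⟨Gcal h P 0 (f 0), fun x => h1 x 0, fun x y hx hy => ?_⟩
  rw [h1 0 x]
  exact G_min hs hq hc hx hy

/-- The action of a `(p,q)`-sequence. -/
theorem sum_genS {h P : ℝ → ℝ} (hP : Continuous P) (hper : ∀ x, P (x + 2 * π) = P x)
    {p q : ℕ} (x : ℕ → ℝ) (hx : x q = x 0 + 2 * π * p) :
    ∑ j ∈ Finset.range q, genS h (x j) (x (j + 1)) =
      p * (∫ t in (0 : ℝ)..(2 * π), P t) - ∑ j ∈ Finset.range q, Gcal h P (x j) (x (j + 1)) := by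
  have h1 : ∑ j ∈ Finset.range q, (∫ t in (x j)..(x (j + 1)), P t) =
      ∫ t in (x 0)..(x q), P t :=
    intervalIntegral.sum_integral_adjacent_intervals fun j _ => hP.intervalIntegrable _ _
  have h2 : ∫ t in (x 0)..(x q), P t = p * ∫ t in (0 : ℝ)..(2 * π), P t := by
    have hp : Function.Periodic P (2 * π) := hper
    rw [hx]
    have h3 := hp.intervalIntegral_add_zsmul_eq (p : ℤ) (x 0) (fun _ _ => hP.intervalIntegrable _ _)
    have h4 : x 0 + (p : ℤ) • (2 * π) = x 0 + 2 * π * p := by
      simp; ring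
    rw [h4] at h3
    rw [h3]
    have h5 := hp.intervalIntegral_add_eq (x 0) 0
    rw [zero_add] at h5
    rw [h5]
    simp
  unfold Gcal
  rw [Finset.sum_sub_distrib, h1, h2]
  ring

end LSB
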