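import Pool.Agent.LSB.Ell

/-!
# The ellipse: support function, curvature, and the bounds used in steps A3, A4
-/

namespace LSB

open Real

namespace AEll

open El

variable {a b l : ℝ}

theorem hasDerivAt_hE' (hb : 0 < b) (hab : b < a) (ψ : ℝ) :
    HasDerivAt (hE' a b) (a ^ 2 * b ^ 2 / hE a b ψ ^ 3 - hE a b ψ) ψ := by
  have h0 := hE_pos hb hab ψ
  have h1 := hasDerivAt_hE hb hab ψ
  have hs := Real.hasDerivAt_sin ψ
  have hc := Real.hasDerivAt_cos ψ
  have h2 := ((hs.const_mul (a ^ 2 - b ^ 2)).mul hc).neg.div h1 h0.ne'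
  have h3 : HasDerivAt (hE' a b) ((-((a ^ 2 - b ^ 2) * Real.cos ψ * Real.cos ψ +
      (a ^ 2 - b ^ 2) * Real.sin ψ * -Real.sin ψ) * hE a b ψ -
      -((a ^ 2 - b ^ 2) * Real.sin ψ * Real.cos ψ) * hE' a b ψ) / hE a b ψ ^ 2) ψ := by
    refine (h2.congr_of_eventuallyEq ?_).congr_deriv ?_
    · filter_upwards with x
      rfl
    · rfl
  refine h3.congr_deriv ?_
  have e1 := hE_sq a b ψ
  have e2 := Real.sin_sq_add_cos_sq ψ
  have e3 : Real.cos ψ ^ 2 = 1 - Real.sin ψ ^ 2 := by linarith
  unfold hE'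
  rw [div_sub' (by positivity), div_eq_div_iff (by positivity) (by positivity)]
  field_simp
  have e4 : hE a b ψ ^ 4 = (a ^ 2 * Real.cos ψ ^ 2 + b ^ 2 * Real.sin ψ ^ 2) ^ 2 := by
    rw [← e1]; ring
  rw [e1, e4, e3]
  ring

theorem deriv_deriv_hE (hb : 0 < b) (hab : b < a) (ψ : ℝ) :
    deriv (deriv (hE a b)) ψ = a ^ 2 * b ^ 2 / hE a b ψ ^ 3 - hE a b ψ := by
  have h1 : deriv (hE a b) = hE' a b := funext fun x => deriv_hE hb hab x
  rw [h1]
  exact (hasDerivAt_hE' hb hab ψ).deriv

theorem rho_ge (hb : 0 < b) (hab : b < a) (ψ : ℝ) :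
    b ^ 2 / a ≤ hE a b ψ + deriv (deriv (hE a b)) ψ := by
  rw [deriv_deriv_hE hb hab, add_sub_cancel]
  have h0 := hE_pos hb hab ψ
  have h1 := hE_le hb hab ψ
  have ha := hb.trans hab
  rw [div_le_div_iff₀ ha (by positivity)]
  have h2 : hE a b ψ ^ 3 ≤ a ^ 3 := pow_le_pow_left₀ h0.le h1 3
  calc b ^ 2 * hE a b ψ ^ 3 ≤ b ^ 2 * a ^ 3 := mul_le_mul_of_nonneg_left h2 (by positivity)
    _ = a ^ 2 * b ^ 2 * a := by ring

theorem isSupp_hE (hb : 0 < b) (hab : b < a) : IsSupp (hE a b) where
  smooth := by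
    unfold hE
    apply ContDiff.sqrt
    · have h1 : ContDiff ℝ 2 Real.cos := Real.contDiff_cos
      have h2 : ContDiff ℝ 2 Real.sin := Real.contDiff_sin
      fun_prop
    · intro ψ
      have h1 := hE_sq a b ψ
      have h2 := hE_pos hb hab ψ
      rw [← h1]
      positivity
  periodic := hE_add_two_pi a b
  pos := fun ψ => by
    have h1 := rho_ge hb hab ψ
    have ha := hb.trans hab
    have h2 : 0 < b ^ 2 / a := by positivity
    linarith

theorem PE_le (H : EH a b l) (x : ℝ) : PE a b l x ≤ a := by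
  unfold PE
  have h1 := hE_le H.hb H.hab x
  have h2 := hE_pos H.hb H.hab x
  apply Real.sqrt_le_iff.2
  refine ⟨H.ha.le, ?_⟩
  have := H.hl
  nlinarith

theorem PE_ge (H : EH a b l) (hl : l ≤ b / 2) (x : ℝ) : b / 2 ≤ PE a b l x := by
  unfold PE
  have h1 := hE_ge H.hb H.hab x
  have h0 := H.hb
  have h2 := H.hl
  apply Real.le_sqrt_of_sq_le
  have h3 : b ^ 2 ≤ hE a b x ^ 2 := pow_le_pow_left₀ h0.le h1 2
  nlinarith

theorem TE_low (H : EH a b l) {x y : ℝ} (hxy : x ≤ y) :
    cE a b l / a * (y - x) ≤ TE a b l y - TE a b l x := by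
  have hm : Monotone (fun x => TE a b l x - cE a b l / a * x) := by
    apply monotone_of_hasDerivAt_nonneg (f' := fun x => cE a b l * (1 / PE a b l x) -
      cE a b l / a * 1)
    · intro x
      exact (hasDerivAt_TE H x).sub ((hasDerivAt_id x).const_mul _)
    · intro x
      have h1 := PE_le H x
      have h2 := PE_pos H x
      have h3 := cE_pos H
      have h4 : 1 / a ≤ 1 / PE a b l x := one_div_le_one_div_of_le h2 h1
      have h5 : cE a b l * (1 / a) ≤ cE a b l * (1 / PE a b l x) :=
        mul_le_mul_of_nonneg_left h4 h3.le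
      have h6 : cE a b l / a * 1 = cE a b l * (1 / a) := by ring
      simp only [Pi.zero_apply]
      rw [h6]
      linarith
  have := hm hxy
  simp only at this
  linarith

theorem TE_up (H : EH a b l) (hl : l ≤ b / 2) {x y : ℝ} (hxy : x ≤ y) :
    TE a b l y - TE a b l x ≤ 2 * cE a b l / b * (y - x) := by
  have hm : Monotone (fun x => 2 * cE a b l / b * x - TE a b l x) := by
    apply monotone_of_hasDerivAt_nonneg (f' := fun x => 2 * cE a b l / b * 1 -
      cE a b l * (1 / PE a b l x))
    · intro x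
      exact ((hasDerivAt_id x).const_mul _).sub (hasDerivAt_TE H x)
    · intro x
      have h1 := PE_ge H hl x
      have h2 := PE_pos H x
      have h3 := cE_pos H
      have hb := H.hb
      have h4 : 1 / PE a b l x ≤ 1 / (b / 2) := one_div_le_one_div_of_le (by positivity) h1
      have h5 : cE a b l * (1 / PE a b l x) ≤ cE a b l * (1 / (b / 2)) :=
        mul_le_mul_of_nonneg_left h4 h3.le
      have h6 : 2 * cE a b l / b * 1 = cE a b l * (1 / (b / 2)) := by
        field_simp
      simp only [Pi.zero_apply]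
      rw [h6]
      linarith
  have := hm hxy
  simp only at this
  linarith

theorem TE_low_abs (H : EH a b l) (x y : ℝ) :
    cE a b l / a * |x - y| ≤ |TE a b l x - TE a b l y| := by
  have h3 := cE_pos H
  have ha := H.ha
  have hc : 0 ≤ cE a b l / a := by positivity
  rcases le_total x y with h | h
  · have h1 := TE_low H h
    have h2 : 0 ≤ cE a b l / a * (y - x) := mul_nonneg hc (by linarith)
    rw [abs_sub_comm, abs_sub_comm (TE a b l x), abs_of_nonneg (by linarith),
      abs_of_nonneg (by linarith)]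
    exact h1
  · have h1 := TE_low H h
    have h2 : 0 ≤ cE a b l / a * (x - y) := mul_nonneg hc (by linarith)
    rw [abs_of_nonneg (by linarith), abs_of_nonneg (by linarith)]
    exact h1

theorem TE_up_abs (H : EH a b l) (hl : l ≤ b / 2) (x y : ℝ) :
    |TE a b l x - TE a b l y| ≤ 2 * cE a b l / b * |x - y| := by
  have hm := (strictMono_TE H).monotone
  rcases le_total x y with h | h
  · have h1 := TE_up H hl h
    have h2 := hm h
    rw [abs_sub_comm, abs_sub_comm x, abs_of_nonneg (by linarith),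
      abs_of_nonneg (by linarith)]
    exact h1
  · have h1 := TE_up H hl h
    have h2 := hm h
    rw [abs_of_nonneg (by linarith), abs_of_nonneg (by linarith)]
    exact h1

theorem fE_lip (H : EH a b l) (hl : l ≤ b / 2) (s t : ℝ) :
    |fE a b l s - fE a b l t| ≤ 2 * a / b * |s - t| := by
  have h1 := TE_low_abs H (fE a b l s) (fE a b l t)
  have h2 := TE_up_abs H hl s t
  rw [TE_fE H, TE_fE H] at h1
  have h3 := cE_pos H
  have ha := H.ha
  have hb := H.hb
  have e : TE a b l s + 2 * π * omE a b l - (TE a b l t + 2 * π * omE a b l) =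
      TE a b l s - TE a b l t := by ring
  rw [e] at h1
  have h4 := h1.trans h2
  have h5 : cE a b l * (|fE a b l s - fE a b l t| / a) ≤ cE a b l * (2 / b * |s - t|) := by
    have e1 : cE a b l * (|fE a b l s - fE a b l t| / a) =
        cE a b l / a * |fE a b l s - fE a b l t| := by ring
    have e2 : cE a b l * (2 / b * |s - t|) = 2 * cE a b l / b * |s - t| := by ring
    rw [e1, e2]
    exact h4
  have h6 := le_of_mul_le_mul_left h5 h3
  rw [div_le_iff₀ ha] at h6
  calc |fE a b l s - fE a b l t| ≤ 2 / b * |s - t| * a := h6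
    _ = 2 * a / b * |s - t| := by ring

theorem DE_ge (H : EH a b l) (ψ : ℝ) : l / a ≤ DE a b l ψ := by
  have h1 := Real.sin_le (DE_pos H ψ).le
  rw [sin_DE H] at h1
  refine le_trans ?_ h1
  have ha := H.ha
  have hb := H.hb
  have hl := H.hl
  have h2 := hE_ge H.hb H.hab ψ
  rw [div_le_div_iff₀ ha (by positivity)]
  have h3 : l * a * b ≤ l * a * hE a b ψ := mul_le_mul_of_nonneg_left h2 (by positivity)
  linarith

theorem DE_le (H : EH a b l) (ψ : ℝ) : DE a b l ψ ≤ π / 2 * (l / b) := by
  have hpi := Real.pi_pos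
  have h1 := Real.mul_le_sin (DE_pos H ψ).le (DE_lt H ψ).le
  rw [sin_DE H] at h1
  have ha := H.ha
  have hb := H.hb
  have hl := H.hl
  have h2 := hE_le H.hb H.hab ψ
  have h3 : l * hE a b ψ / (a * b) ≤ l / b := by
    rw [div_le_div_iff₀ (by positivity) hb]
    have : l * b * hE a b ψ ≤ l * b * a := mul_le_mul_of_nonneg_left h2 (by positivity)
    linarith
  have h4 : 2 / π * DE a b l ψ ≤ l / b := h1.trans h3
  have h5 : DE a b l ψ = π / 2 * (2 / π * DE a b l ψ) := by
    field_simp
  rw [h5]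
  exact mul_le_mul_of_nonneg_left h4 (by positivity)

theorem fE_sub (H : EH a b l) (x : ℝ) : fE a b l x - x = 2 * DE a b l (rhoE a b l x) := by
  have h1 := rhoE_sub H x
  unfold fE
  linarith

theorem fE_lo (H : EH a b l) (x : ℝ) : 2 * (l / a) ≤ fE a b l x - x := by
  rw [fE_sub H]
  have := DE_ge H (rhoE a b l x)
  linarith

theorem fE_hi (H : EH a b l) (hl : l ≤ b / 2) (x : ℝ) : fE a b l x - x ≤ π - l / a := by
  rw [fE_sub H]
  have h1 := DE_le H (rhoE a b l x)
  have hb := H.hb
  have ha := H.ha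
  have hab := H.hab
  have h2 : l / b ≤ 1 / 2 := by
    rw [div_le_div_iff₀ hb (by norm_num)]
    linarith
  have h3 : l / a ≤ 1 / 2 := by
    rw [div_le_div_iff₀ ha (by norm_num)]
    linarith
  have hpi := Real.pi_gt_three
  have h4 : π / 2 * (l / b) ≤ π / 2 * (1 / 2) := mul_le_mul_of_nonneg_left h2 (by positivity)
  linarith

/-- The rotation number is at most a multiple of the parameter. -/
theorem om_le (H : EH a b l) (hl : l ≤ b / 2) : omE a b l ≤ a * l / b ^ 2 := by
  have hpi := Real.pi_pos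
  have h1 := TE_DE_zero H
  have h2 := TE_up H hl (DE_pos H 0).le
  rw [TE_zero, sub_zero, sub_zero, h1] at h2
  have h3 := DE_le H 0
  have h4 := cE_le H
  have h5 := cE_pos H
  have hb := H.hb
  have ha := H.ha
  have h0 := H.hl
  have h6 : π * omE a b l ≤ π * (a * l / b ^ 2) := by
    calc π * omE a b l ≤ 2 * cE a b l / b * DE a b l 0 := h2
      _ ≤ 2 * cE a b l / b * (π / 2 * (l / b)) := mul_le_mul_of_nonneg_left h3 (by positivity)
      _ = cE a b l * (π * (l / b ^ 2)) := by field_simp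
      _ ≤ a * (π * (l / b ^ 2)) := mul_le_mul_of_nonneg_right h4 (by positivity)
      _ = π * (a * l / b ^ 2) := by ring
  exact le_of_mul_le_mul_left h6 hpi

end AEll

end LSB
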