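import Pool.Agent.LSB.Defs

/-!
# Part A5: Fourier coefficients in the bounce angle from sums over periodic orbits
-/

namespace LSB

open Real Complex MeasureTheory

namespace Four

variable {a b l : ℝ}

lemma hE_sq_bounds (hb : 0 < b) (hab : b < a) (ψ : ℝ) :
    b ^ 2 ≤ a ^ 2 * Real.cos ψ ^ 2 + b ^ 2 * Real.sin ψ ^ 2 ∧
      a ^ 2 * Real.cos ψ ^ 2 + b ^ 2 * Real.sin ψ ^ 2 ≤ a ^ 2 := by
  have h1 := Real.sin_sq_add_cos_sq ψ
  have h2 : 0 ≤ Real.cos ψ ^ 2 := sq_nonneg _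
  have h3 : 0 ≤ Real.sin ψ ^ 2 := sq_nonneg _
  have h4 : b ^ 2 ≤ a ^ 2 := by nlinarith
  constructor
  · nlinarith
  · nlinarith

lemma hE_sq' (hb : 0 < b) (hab : b < a) (ψ : ℝ) :
    hE a b ψ ^ 2 = a ^ 2 * Real.cos ψ ^ 2 + b ^ 2 * Real.sin ψ ^ 2 := by
  unfold hE
  rw [Real.sq_sqrt]
  have := (hE_sq_bounds hb hab ψ).1
  nlinarith

lemma hE_pos' (hb : 0 < b) (hab : b < a) (ψ : ℝ) : 0 < hE a b ψ := by
  unfold hE
  apply Real.sqrt_pos.2
  have := (hE_sq_bounds hb hab ψ).1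
  nlinarith

lemma hE_cont' : Continuous (hE a b) := by
  unfold hE
  fun_prop

lemma hE_per' (ψ : ℝ) : hE a b (ψ + 2 * π) = hE a b ψ := by
  unfold hE
  rw [Real.cos_add_two_pi, Real.sin_add_two_pi]

lemma rad_pos (hb : 0 < b) (hab : b < a) (hl : 0 < l) (hlb : l < b) (ψ : ℝ) :
    0 < 1 - l ^ 2 * hE a b ψ ^ 2 / (a ^ 2 * b ^ 2) := by
  have ha : 0 < a := hb.trans hab
  rw [sub_pos, div_lt_one (by positivity), hE_sq' hb hab]
  have h1 := (hE_sq_bounds hb hab ψ).2
  have h2 : l ^ 2 < b ^ 2 := by nlinarith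
  have h3 : 0 < a ^ 2 := by positivity
  have h4 : 0 ≤ l ^ 2 := by positivity
  calc l ^ 2 * (a ^ 2 * Real.cos ψ ^ 2 + b ^ 2 * Real.sin ψ ^ 2) ≤ l ^ 2 * a ^ 2 := by
        exact mul_le_mul_of_nonneg_left h1 h4
    _ < b ^ 2 * a ^ 2 := by exact mul_lt_mul_of_pos_right h2 h3
    _ = a ^ 2 * b ^ 2 := by ring

lemma wE_pos' (hb : 0 < b) (hab : b < a) (hl : 0 < l) (hlb : l < b) (ψ : ℝ) :
    0 < wE a b l ψ := by
  unfold wE
  have h1 := hE_pos' hb hab ψ
  have h2 := Real.sqrt_pos.2 (rad_pos hb hab hl hlb ψ)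
  positivity

lemma wE_cont' (hb : 0 < b) (hab : b < a) (hl : 0 < l) (hlb : l < b) :
    Continuous (wE a b l) := by
  have h0 : wE a b l = fun ψ => 1 / (hE a b ψ * √(1 - l ^ 2 * hE a b ψ ^ 2 / (a ^ 2 * b ^ 2))) := by
    funext ψ; rfl
  rw [h0]
  have hc := hE_cont' (a := a) (b := b)
  refine Continuous.div continuous_const ?_ ?_
  · refine hc.mul (Continuous.sqrt ?_)
    fun_prop
  · intro ψ
    have h1 := hE_pos' hb hab ψ
    have h2 := Real.sqrt_pos.2 (rad_pos hb hab hl hlb ψ)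
    exact (mul_pos h1 h2).ne'

lemma wE_per' (ψ : ℝ) : wE a b l (ψ + 2 * π) = wE a b l ψ := by
  unfold wE
  rw [hE_per']

lemma int_wE_pos' (hb : 0 < b) (hab : b < a) (hl : 0 < l) (hlb : l < b) :
    0 < ∫ t in (0 : ℝ)..(2 * π), wE a b l t := by
  apply intervalIntegral.intervalIntegral_pos_of_pos
  · exact (wE_cont' hb hab hl hlb).intervalIntegrable _ _
  · exact wE_pos' hb hab hl hlb
  · positivity

lemma cE_pos' (hb : 0 < b) (hab : b < a) (hl : 0 < l) (hlb : l < b) :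
    0 < cE a b l := by
  unfold cE
  have := int_wE_pos' hb hab hl hlb
  positivity

lemma BE_hasDeriv' (hb : 0 < b) (hab : b < a) (hl : 0 < l) (hlb : l < b) (ψ : ℝ) :
    HasDerivAt (BE a b l) (cE a b l * wE a b l ψ) ψ := by
  have hc := wE_cont' hb hab hl hlb
  have h := intervalIntegral.integral_hasDerivAt_right (hc.intervalIntegrable 0 ψ)
    (hc.stronglyMeasurableAtFilter _ _) hc.continuousAt
  exact h.const_mul (cE a b l)

lemma BE_cont' (hb : 0 < b) (hab : b < a) (hl : 0 < l) (hlb : l < b) :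
    Continuous (BE a b l) :=
  continuous_iff_continuousAt.2 fun ψ => (BE_hasDeriv' hb hab hl hlb ψ).continuousAt

lemma BE_zero' : BE a b l 0 = 0 := by
  unfold BE
  simp

lemma BE_twopi' (hb : 0 < b) (hab : b < a) (hl : 0 < l) (hlb : l < b) :
    BE a b l (2 * π) = 2 * π := by
  unfold BE cE
  have := int_wE_pos' hb hab hl hlb
  field_simp

lemma BE_add' (hb : 0 < b) (hab : b < a) (hl : 0 < l) (hlb : l < b) (ψ : ℝ) :
    BE a b l (ψ + 2 * π) = BE a b l ψ + 2 * π := by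
  have hc := wE_cont' hb hab hl hlb
  have hp : Function.Periodic (wE a b l) (2 * π) := fun x => wE_per' x
  have h1 := hp.intervalIntegral_add_eq ψ 0
  rw [zero_add] at h1
  have h2 := intervalIntegral.integral_add_adjacent_intervals
    (hc.intervalIntegrable (μ := volume) 0 ψ) (hc.intervalIntegrable ψ (ψ + 2 * π))
  have h3 := BE_twopi' hb hab hl hlb
  unfold BE at h3 ⊢
  rw [← h2, mul_add, h1, h3]

lemma BE_strictMono' (hb : 0 < b) (hab : b < a) (hl : 0 < l) (hlb : l < b) :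
    StrictMono (BE a b l) := by
  apply strictMono_of_hasDerivAt_pos (f' := fun ψ => cE a b l * wE a b l ψ)
  · exact BE_hasDeriv' hb hab hl hlb
  · intro ψ
    exact mul_pos (cE_pos' hb hab hl hlb) (wE_pos' hb hab hl hlb ψ)

lemma BE_add_nat' (hb : 0 < b) (hab : b < a) (hl : 0 < l) (hlb : l < b) (ψ : ℝ) (n : ℕ) :
    BE a b l (ψ + 2 * π * n) = BE a b l ψ + 2 * π * n := by
  induction n with
  | zero => simp
  | succ n ih =>
    have : ψ + 2 * π * ((n + 1 : ℕ) : ℝ) = (ψ + 2 * π * n) + 2 * π := by push_cast; ring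
    rw [this, BE_add' hb hab hl hlb, ih]
    push_cast
    ring

lemma BE_surj' (hb : 0 < b) (hab : b < a) (hl : 0 < l) (hlb : l < b) :
    Function.Surjective (BE a b l) := by
  have hpi := Real.pi_pos
  have hc := BE_cont' hb hab hl hlb
  intro y
  obtain ⟨n, hn⟩ := exists_nat_gt (|y| / (2 * π))
  have hn' : |y| < 2 * π * n := by
    rw [div_lt_iff₀ (by positivity)] at hn
    linarith
  have h1 : BE a b l (2 * π * n) = 2 * π * n := by
    have := BE_add_nat' hb hab hl hlb 0 n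
    rw [zero_add, BE_zero', zero_add] at this
    exact this
  have h2 : BE a b l (-(2 * π * n)) = -(2 * π * n) := by
    have := BE_add_nat' hb hab hl hlb (-(2 * π * n)) n
    rw [neg_add_cancel, BE_zero'] at this
    linarith
  have h3 : y ∈ Set.Icc (BE a b l (-(2 * π * n))) (BE a b l (2 * π * n)) := by
    rw [h1, h2]
    exact ⟨by linarith [neg_abs_le y], by linarith [le_abs_self y]⟩
  have h4 : -(2 * π * (n : ℝ)) ≤ 2 * π * n := by
    have : 0 ≤ 2 * π * (n : ℝ) := by positivity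
    linarith
  obtain ⟨x, _, hx⟩ := intermediate_value_Icc h4 hc.continuousOn h3
  exact ⟨x, hx⟩

/-- the bounce angle as an order isomorphism of the line -/
noncomputable def isoB (hb : 0 < b) (hab : b < a) (hl : 0 < l) (hlb : l < b) : ℝ ≃o ℝ :=
  (BE_strictMono' hb hab hl hlb).orderIsoOfSurjective _ (BE_surj' hb hab hl hlb)

lemma isoB_apply (hb : 0 < b) (hab : b < a) (hl : 0 < l) (hlb : l < b) (ψ : ℝ) :
    isoB hb hab hl hlb ψ = BE a b l ψ := rfl

lemma BE_symm (hb : 0 < b) (hab : b < a) (hl : 0 < l) (hlb : l < b) (θ : ℝ) :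
    BE a b l ((isoB hb hab hl hlb).symm θ) = θ :=
  (isoB hb hab hl hlb).apply_symm_apply θ

lemma symm_BE (hb : 0 < b) (hab : b < a) (hl : 0 < l) (hlb : l < b) (ψ : ℝ) :
    (isoB hb hab hl hlb).symm (BE a b l ψ) = ψ :=
  (isoB hb hab hl hlb).symm_apply_apply ψ

lemma symm_cont (hb : 0 < b) (hab : b < a) (hl : 0 < l) (hlb : l < b) :
    Continuous (isoB hb hab hl hlb).symm :=
  (isoB hb hab hl hlb).symm.continuous

lemma symm_add (hb : 0 < b) (hab : b < a) (hl : 0 < l) (hlb : l < b) (θ : ℝ) :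
    (isoB hb hab hl hlb).symm (θ + 2 * π) = (isoB hb hab hl hlb).symm θ + 2 * π := by
  apply (BE_strictMono' hb hab hl hlb).injective
  rw [BE_symm, BE_add' hb hab hl hlb, BE_symm]

/-- The Fourier coefficient as an integral in the bounce angle. -/
lemma efun_subst (hb : 0 < b) (hab : b < a) (hl : 0 < l) (hlb : l < b) (m : ℤ) (u : ℝ → ℂ)
    (hu : Continuous u) :
    Efun a b l m u = (1 / (2 * π) : ℂ) * ∫ θ in (0 : ℝ)..(2 * π),
      u ((isoB hb hab hl hlb).symm θ) * Complex.exp (-(m * θ : ℝ) * I) := by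
  have hg : Continuous (fun θ : ℝ => u ((isoB hb hab hl hlb).symm θ) *
      Complex.exp (-(m * θ : ℝ) * I)) := by
    have := symm_cont hb hab hl hlb
    fun_prop
  have hd := fun x (_ : x ∈ Set.uIcc (0 : ℝ) (2 * π)) => BE_hasDeriv' hb hab hl hlb x
  have hc : ContinuousOn (fun ψ => cE a b l * wE a b l ψ) (Set.uIcc (0 : ℝ) (2 * π)) := by
    have := wE_cont' hb hab hl hlb
    fun_prop
  have h := intervalIntegral.integral_deriv_smul_comp hd hc hg
  rw [BE_zero', BE_twopi' hb hab hl hlb] at h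
  unfold Efun
  rw [← h]
  congr 1
  apply intervalIntegral.integral_congr
  intro ψ _
  simp only [Function.comp]
  rw [symm_BE, Complex.real_smul]
  ring

/-- shift by a fraction of the period does not change the coefficient of order `k q` -/
lemma shift_int {q : ℕ} (hq : 0 < q) (p : ℕ) (k : ℤ) (v : ℝ → ℂ)
    (hper : ∀ θ, v (θ + 2 * π) = v θ) (j : ℕ) :
    ∫ θ in (0 : ℝ)..(2 * π), v (θ + 2 * π * (p / q) * j) *
        Complex.exp (-(((k * q : ℤ) : ℝ) * θ : ℝ) * I) =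
      ∫ θ in (0 : ℝ)..(2 * π), v θ * Complex.exp (-(((k * q : ℤ) : ℝ) * θ : ℝ) * I) := by
  have hq' : (q : ℝ) ≠ 0 := by exact_mod_cast hq.ne'
  set s : ℝ := 2 * π * (p / q) * j with hs
  set g : ℝ → ℂ := fun θ => v θ * Complex.exp (-(((k * q : ℤ) : ℝ) * θ : ℝ) * I) with hg
  have h1 : ∀ θ, v (θ + s) * Complex.exp (-(((k * q : ℤ) : ℝ) * θ : ℝ) * I) = g (θ + s) := by
    intro θ
    simp only [hg]
    congr 1
    rw [Complex.exp_eq_exp_iff_exists_int]
    refine ⟨k * p * j, ?_⟩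
    have : ((((k * q : ℤ) : ℝ) * (θ + s) : ℝ) : ℂ) =
        ((((k * q : ℤ) : ℝ) * θ : ℝ) : ℂ) + ((k * p * j : ℤ) : ℂ) * (2 * π) := by
      have h2 : (((k * q : ℤ) : ℝ) * (θ + s) : ℝ) =
          (((k * q : ℤ) : ℝ) * θ : ℝ) + ((k * p * j : ℤ) : ℝ) * (2 * π) := by
        rw [hs]
        push_cast
        field_simp
      rw [h2]
      push_cast
      ring
    rw [this]
    ring
  have h2 : Function.Periodic g (2 * π) := by
    intro θ
    simp only [hg]
    rw [hper]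
    congr 1
    rw [Complex.exp_eq_exp_iff_exists_int]
    refine ⟨-(k * q), ?_⟩
    push_cast
    ring
  calc ∫ θ in (0 : ℝ)..(2 * π), v (θ + s) * Complex.exp (-(((k * q : ℤ) : ℝ) * θ : ℝ) * I)
      = ∫ θ in (0 : ℝ)..(2 * π), g (θ + s) := by
        apply intervalIntegral.integral_congr
        intro θ _
        exact h1 θ
    _ = ∫ θ in (0 + s)..(2 * π + s), g θ := by
        rw [intervalIntegral.integral_comp_add_right]
    _ = ∫ θ in s..(s + 2 * π), g θ := by
        rw [zero_add, add_comm (2 * π) s]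
    _ = ∫ θ in (0 : ℝ)..(0 + 2 * π), g θ := h2.intervalIntegral_add_eq s 0
    _ = ∫ θ in (0 : ℝ)..(2 * π), g θ := by rw [zero_add]

lemma exp_int_zero {m : ℤ} (hm : m ≠ 0) :
    ∫ θ in (0 : ℝ)..(2 * π), Complex.exp (-((m : ℝ) * θ : ℝ) * I) = 0 := by
  have hc : (-(m : ℂ) * I) ≠ 0 := by
    simp [hm, Complex.I_ne_zero]
  have h1 : ∀ θ : ℝ, Complex.exp (-((m : ℝ) * θ : ℝ) * I) = Complex.exp ((-(m : ℂ) * I) * θ) := by
    intro θ
    congr 1
    push_cast
    ring
  simp_rw [h1]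
  rw [integral_exp_mul_complex hc]
  have h2 : Complex.exp (-(m : ℂ) * I * ((2 * π : ℝ) : ℂ)) = 1 := by
    rw [Complex.exp_eq_one_iff]
    refine ⟨-m, ?_⟩
    push_cast
    ring
  rw [h2]
  simp

end Four

open Four in
/-- If the sums of `u` over the orbits of the rotation by `2π p/q` in the bounce angle are
constant up to `ε`, then the bounce coefficient of order `k q` of `u` is at most `ε / q`. -/
theorem efun_le_of_orbit_sums {a b l : ℝ} (hb : 0 < b) (hab : b < a) (hl : 0 < l) (hlb : l < b)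
    {p q : ℕ} (hq : 0 < q) {k : ℤ} (hk : k ≠ 0) (u : ℝ → ℂ) (hu : Continuous u)
    (hper : ∀ ψ, u (ψ + 2 * π) = u ψ) (Λ : ℂ) (ε : ℝ)
    (hΦ : ∀ ψ : ℕ → ℝ, (∀ j, BE a b l (ψ j) = BE a b l (ψ 0) + 2 * π * (p / q) * j) →
      ‖∑ j ∈ Finset.range q, u (ψ j) - Λ‖ ≤ ε) :
    ‖Efun a b l (k * q) u‖ ≤ ε / q := by
  have hpi := Real.pi_pos
  have hq' : (0 : ℝ) < q := by exact_mod_cast hq
  set β := (isoB hb hab hl hlb).symm with hβ
  set v : ℝ → ℂ := fun θ => u (β θ) with hv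
  have hvc : Continuous v := hu.comp (symm_cont hb hab hl hlb)
  have hvp : ∀ θ, v (θ + 2 * π) = v θ := by
    intro θ
    simp only [hv, hβ]
    rw [symm_add, hper]
  set E : ℝ → ℂ := fun θ => Complex.exp (-(((k * q : ℤ) : ℝ) * θ : ℝ) * I) with hE
  have hEc : Continuous E := by
    simp only [hE]
    fun_prop
  have hEn : ∀ θ, ‖E θ‖ = 1 := by
    intro θ
    simp only [hE]
    rw [← Complex.ofReal_neg, Complex.norm_exp_ofReal_mul_I]
  have hsum : ∀ θ, ‖∑ j ∈ Finset.range q, v (θ + 2 * π * (p / q) * j) - Λ‖ ≤ ε := by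
    intro θ
    have := hΦ (fun j => β (θ + 2 * π * (p / q) * j)) (by
      intro j
      simp only [hβ]
      rw [BE_symm, BE_symm]
      simp)
    exact this
  have hkq : (k * q : ℤ) ≠ 0 := by
    apply mul_ne_zero hk
    exact_mod_cast hq.ne'
  have h1 : (q : ℂ) * ∫ θ in (0 : ℝ)..(2 * π), v θ * E θ =
      ∫ θ in (0 : ℝ)..(2 * π), (∑ j ∈ Finset.range q, v (θ + 2 * π * (p / q) * j) - Λ) * E θ := by
    have h2 : ∀ θ, (∑ j ∈ Finset.range q, v (θ + 2 * π * (p / q) * j) - Λ) * E θ =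
        ∑ j ∈ Finset.range q, v (θ + 2 * π * (p / q) * j) * E θ - Λ * E θ := by
      intro θ
      rw [sub_mul, Finset.sum_mul]
    simp_rw [h2]
    rw [intervalIntegral.integral_sub, intervalIntegral.integral_finsetSum,
      intervalIntegral.integral_const_mul]
    · have h3 : ∫ θ in (0 : ℝ)..(2 * π), E θ = 0 := exp_int_zero hkq
      rw [h3, mul_zero, sub_zero]
      have h4 : ∀ j ∈ Finset.range q,
          ∫ θ in (0 : ℝ)..(2 * π), v (θ + 2 * π * (p / q) * j) * E θ =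
            ∫ θ in (0 : ℝ)..(2 * π), v θ * E θ := by
        intro j _
        exact shift_int hq p k v hvp j
      rw [Finset.sum_congr rfl h4, Finset.sum_const, Finset.card_range, nsmul_eq_mul]
    · intro j _
      apply Continuous.intervalIntegrable
      fun_prop
    · apply Continuous.intervalIntegrable
      refine continuous_finsetSum _ ?_
      intro j _
      fun_prop
    · apply Continuous.intervalIntegrable
      fun_prop
  have h5 : ‖∫ θ in (0 : ℝ)..(2 * π),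
      (∑ j ∈ Finset.range q, v (θ + 2 * π * (p / q) * j) - Λ) * E θ‖ ≤ ε * |2 * π - 0| := by
    apply intervalIntegral.norm_integral_le_of_norm_le_const
    intro θ _
    rw [norm_mul, hEn, mul_one]
    exact hsum θ
  rw [sub_zero, abs_of_pos (by positivity : (0 : ℝ) < 2 * π), ← h1, norm_mul,
    Complex.norm_natCast] at h5
  rw [efun_subst hb hab hl hlb _ u hu, norm_mul]
  have h6 : ‖(1 / (2 * π) : ℂ)‖ = 1 / (2 * π) := by
    have : (1 / (2 * π) : ℂ) = ((1 / (2 * π) : ℝ) : ℂ) := by push_cast; ring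
    rw [this, Complex.norm_real, Real.norm_eq_abs, abs_of_pos (by positivity)]
  rw [h6]
  have h7 : ∫ θ in (0 : ℝ)..(2 * π), u (β θ) * Complex.exp (-(((k * q : ℤ) : ℝ) * θ : ℝ) * I) =
      ∫ θ in (0 : ℝ)..(2 * π), v θ * E θ := rfl
  rw [h7, le_div_iff₀ hq', one_div]
  rw [mul_assoc, mul_comm ‖_‖ (q : ℝ)]
  rw [inv_mul_le_iff₀ (by positivity)]
  linarith

end LSB
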