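import Pool.Agent.LSB.ACal

/-!
# Part A3: quadratic growth of the calibrated action
-/

namespace LSB

open Real

namespace Grow

variable {h P f : ℝ → ℝ} {p q : ℕ}

/-- lower bound for the increment of `lineOut` in its first variable -/
lemma lineOut_incr (hs : IsSupp h) {ρ₀ η : ℝ} (hρ₀ : 0 < ρ₀) (hη : 0 < η)
    (hρ : ∀ ψ, ρ₀ ≤ h ψ + deriv (deriv h) ψ) {s z t : ℝ} (hsz : s ≤ z)
    (h1 : z ≤ t - η) (h2 : t - π ≤ s) :
    ρ₀ * η / (2 * π) * (z - s) ≤ lineOut h z t - lineOut h s t := by
  have hpi := Real.pi_pos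
  have hmono : MonotoneOn (fun ξ => lineOut h ξ t - ρ₀ * η / (2 * π) * ξ) (Set.Icc s z) := by
    apply monotoneOn_of_hasDerivWithinAt_nonneg (convex_Icc _ _)
      (f' := fun ξ => 1 / 2 * (h ((ξ + t) / 2) + deriv (deriv h) ((ξ + t) / 2)) *
        Real.sin ((t - ξ) / 2) - ρ₀ * η / (2 * π) * 1)
    · intro ξ _
      exact ((Cal.hasDerivAt_lineOut_left hs ξ t).sub
        ((hasDerivAt_id ξ).const_mul _)).continuousAt.continuousWithinAt
    · intro ξ _
      exact ((Cal.hasDerivAt_lineOut_left hs ξ t).sub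
        ((hasDerivAt_id ξ).const_mul _)).hasDerivWithinAt
    · intro ξ hξ
      rw [interior_Icc] at hξ
      have h3 : 2 / π * ((t - ξ) / 2) ≤ Real.sin ((t - ξ) / 2) :=
        Real.mul_le_sin (by linarith [hξ.2]) (by linarith [hξ.1])
      have h4 : η / π ≤ Real.sin ((t - ξ) / 2) := by
        refine le_trans ?_ h3
        rw [div_mul_div_comm, div_le_div_iff₀ hpi (by positivity)]
        have : η ≤ t - ξ := by linarith [hξ.2]
        nlinarith
      have h5 := hρ ((ξ + t) / 2)
      have h6 : ρ₀ * (η / π) ≤ (h ((ξ + t) / 2) + deriv (deriv h) ((ξ + t) / 2)) *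
          Real.sin ((t - ξ) / 2) := by
        apply mul_le_mul h5 h4 (by positivity)
        linarith
      have h7 : ρ₀ * η / (2 * π) * 1 = 1 / 2 * (ρ₀ * (η / π)) := by
        field_simp
      rw [h7]
      linarith
  have := hmono ⟨le_rfl, hsz⟩ ⟨hsz, le_rfl⟩ hsz
  simp only at this
  linarith

end Grow

open Grow in
/-- **Quadratic growth.** -/
theorem growth {h P f : ℝ → ℝ} {p q : ℕ} (hs : IsSupp h) (hq : 0 < q) (hc : PCaustic h P f p q)
    {ρ₀ η Lf : ℝ} (hρ₀ : 0 < ρ₀) (hη : 0 < η) (hLf : 0 < Lf)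
    (hρ : ∀ ψ, ρ₀ ≤ h ψ + deriv (deriv h) ψ) (hlip : ∀ s t, |f s - f t| ≤ Lf * |s - t|)
    (hlo : ∀ x, 2 * η ≤ f x - x) (hhi : ∀ x, f x - x ≤ π - η) :
    ∀ x y, x < y → y < x + 2 * π →
      ρ₀ * η ^ 3 / (16 * π ^ 3 * Lf) * (y - f x) ^ 2 ≤ Gcal h P x y - Gcal h P x (f x) := by
  have hpi := Real.pi_pos
  set κ : ℝ := ρ₀ * η / (2 * π) with hκ
  have hκ0 : 0 < κ := by positivity
  have hmono := Cal.map_strictMono hs hq hc
  -- the derivative bound to the right
  have hright : ∀ x y, f x ≤ y → y ≤ f x + η →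
      κ / (2 * Lf) * (y - f x) ^ 2 ≤ Gcal h P x y - Gcal h P x (f x) := by
    intro x y hy1 hy2
    have hm : MonotoneOn (fun y => Gcal h P x y - κ / (2 * Lf) * (y - f x) ^ 2)
        (Set.Icc (f x) y) := by
      apply monotoneOn_of_hasDerivWithinAt_nonneg (convex_Icc _ _)
        (f' := fun t => P t - lineOut h x t - κ / (2 * Lf) * (2 * (t - f x) ^ 1 * 1))
      · intro t _
        exact ((Cal.hasDerivAt_G_right hs hc.cont x t).sub
          ((((hasDerivAt_id t).sub_const (f x)).pow 2).const_mul _)).continuousAt.continuousWithinAt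
      · intro t _
        exact ((Cal.hasDerivAt_G_right hs hc.cont x t).sub
          ((((hasDerivAt_id t).sub_const (f x)).pow 2).const_mul _)).hasDerivWithinAt
      · intro t ht
        rw [interior_Icc] at ht
        obtain ⟨z, hz⟩ := Cal.iter_surj hq hc t
        have hxz : x < z := by
          rw [← hmono.lt_iff_lt, hz]
          exact ht.1
        have e1 := hlo z
        have e2 := hhi x
        have h1 := lineOut_incr hs hρ₀ hη hρ hxz.le (t := t) (by rw [← hz]; linarith)
          (by linarith [ht.2])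
        have h2 := hlip z x
        rw [hz, abs_of_pos (by linarith [ht.1]), abs_of_pos (by linarith)] at h2
        rw [Cal.P_eq_lineOut hc hz]
        have h3 : κ / (2 * Lf) * (2 * (t - f x) ^ 1 * 1) ≤ κ * (z - x) := by
          have : κ / (2 * Lf) * (2 * (t - f x) ^ 1 * 1) = κ * ((t - f x) / Lf) := by
            field_simp
          rw [this]
          apply mul_le_mul_of_nonneg_left _ hκ0.le
          rw [div_le_iff₀ hLf]
          linarith
        linarith
    have := hm ⟨le_rfl, hy1⟩ ⟨hy1, le_rfl⟩ hy1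
    simp only [sub_self] at this
    nlinarith
  have hleft : ∀ x y, y ≤ f x → f x - η ≤ y →
      κ / (2 * Lf) * (y - f x) ^ 2 ≤ Gcal h P x y - Gcal h P x (f x) := by
    intro x y hy1 hy2
    have hm : AntitoneOn (fun y => Gcal h P x y - κ / (2 * Lf) * (y - f x) ^ 2)
        (Set.Icc y (f x)) := by
      apply antitoneOn_of_hasDerivWithinAt_nonpos (convex_Icc _ _)
        (f' := fun t => P t - lineOut h x t - κ / (2 * Lf) * (2 * (t - f x) ^ 1 * 1))
      · intro t _
        exact ((Cal.hasDerivAt_G_right hs hc.cont x t).sub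
          ((((hasDerivAt_id t).sub_const (f x)).pow 2).const_mul _)).continuousAt.continuousWithinAt
      · intro t _
        exact ((Cal.hasDerivAt_G_right hs hc.cont x t).sub
          ((((hasDerivAt_id t).sub_const (f x)).pow 2).const_mul _)).hasDerivWithinAt
      · intro t ht
        rw [interior_Icc] at ht
        obtain ⟨z, hz⟩ := Cal.iter_surj hq hc t
        have hxz : z < x := by
          rw [← hmono.lt_iff_lt, hz]
          exact ht.2
        have e1 := hlo x
        have e2 := hhi z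
        have h1 := lineOut_incr hs hρ₀ hη hρ hxz.le (t := t) (by linarith [ht.1])
          (by rw [← hz]; linarith)
        have h2 := hlip x z
        rw [hz, abs_of_pos (by linarith [ht.2]), abs_of_pos (by linarith)] at h2
        rw [Cal.P_eq_lineOut hc hz]
        have h3 : κ * (z - x) ≤ κ / (2 * Lf) * (2 * (t - f x) ^ 1 * 1) := by
          have : κ / (2 * Lf) * (2 * (t - f x) ^ 1 * 1) = κ * ((t - f x) / Lf) := by
            field_simp
          rw [this]
          apply mul_le_mul_of_nonneg_left _ hκ0.le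
          rw [le_div_iff₀ hLf]
          linarith
        linarith
    have := hm ⟨le_rfl, hy1⟩ ⟨hy1, le_rfl⟩ hy1
    simp only [sub_self] at this
    nlinarith
  intro x y hx hy
  have e1 := hlo x
  have e2 := hhi x
  have hfar : (ρ₀ * η ^ 3 / (16 * π ^ 3 * Lf)) * (y - f x) ^ 2 ≤ κ / (2 * Lf) * η ^ 2 := by
    have h1 : (y - f x) ^ 2 ≤ (2 * π) ^ 2 := by
      apply sq_le_sq'
      · linarith [hc.lt_map x, hc.map_lt x]
      · linarith [hc.lt_map x, hc.map_lt x]
    calc (ρ₀ * η ^ 3 / (16 * π ^ 3 * Lf)) * (y - f x) ^ 2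
        ≤ (ρ₀ * η ^ 3 / (16 * π ^ 3 * Lf)) * (2 * π) ^ 2 :=
          mul_le_mul_of_nonneg_left h1 (by positivity)
      _ = κ / (2 * Lf) * η ^ 2 := by
          rw [hκ]
          field_simp
          ring
  have hnear : ∀ w : ℝ, 0 ≤ w → (ρ₀ * η ^ 3 / (16 * π ^ 3 * Lf)) * w ≤ κ / (2 * Lf) * w := by
    intro w hw
    apply mul_le_mul_of_nonneg_right _ hw
    have h3 : η ^ 2 ≤ (2 * π) ^ 2 := by
      apply pow_le_pow_left₀ hη.le
      have := hlo x
      linarith
    rw [hκ, div_div, div_le_div_iff₀ (by positivity) (by positivity)]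
    have h4 : 0 < ρ₀ * η * Lf * π := by positivity
    have h5 : ρ₀ * η ^ 3 * (2 * π * (2 * Lf)) = (ρ₀ * η * Lf * π) * (4 * η ^ 2) := by ring
    have h6 : ρ₀ * η * (16 * π ^ 3 * Lf) = (ρ₀ * η * Lf * π) * (16 * π ^ 2) := by ring
    rw [h5, h6]
    apply mul_le_mul_of_nonneg_left _ h4.le
    nlinarith
  rcases le_total (f x) y with h1 | h1
  · rcases le_total y (f x + η) with h2 | h2
    · exact (hnear _ (sq_nonneg _)).trans (hright x y h1 h2)
    · have h3 := hright x (f x + η) (by linarith) le_rfl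
      have h4 := (Cal.G_mono_right hs hq hc x).monotoneOn (a := f x + η) (b := y)
        ⟨by linarith, by linarith⟩ ⟨h1, hy.le⟩ h2
      have h5 : (f x + η - f x) ^ 2 = η ^ 2 := by ring
      rw [h5] at h3
      linarith
  · rcases le_total (f x - η) y with h2 | h2
    · exact (hnear _ (sq_nonneg _)).trans (hleft x y h1 h2)
    · have h3 := hleft x (f x - η) (by linarith) le_rfl
      have h4 := (Cal.G_anti_left hs hq hc x).antitoneOn (a := y) (b := f x - η)
        ⟨hx.le, h1⟩ ⟨by linarith, by linarith⟩ h2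
      have h5 : (f x - η - f x) ^ 2 = η ^ 2 := by ring
      rw [h5] at h3
      linarith

end LSB
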