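import Pool.Agent.LSB.ACal

/-!
# Part A4: the sandwich
-/

namespace LSB

open Real

namespace Sand

variable {h g P PE f fE Θ : ℝ → ℝ} {p q : ℕ}

lemma genS_sub (x y : ℝ) : genS (fun ψ => h ψ - g ψ) x y = genS h x y - genS g x y := by
  unfold genS
  ring

lemma abs_genS_le {M : ℝ} (h0 : ∀ ψ, |h ψ - g ψ| ≤ M) (x y : ℝ) :
    |genS (fun ψ => h ψ - g ψ) x y| ≤ 2 * M := by
  unfold genS
  rw [abs_mul, abs_mul, abs_two]
  have h1 := h0 ((x + y) / 2)
  have h2 := Real.abs_sin_le_one ((y - x) / 2)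
  have h3 := abs_nonneg (h ((x + y) / 2) - g ((x + y) / 2))
  have h4 := abs_nonneg (Real.sin ((y - x) / 2))
  nlinarith

lemma line_le {M : ℝ} (h0 : ∀ ψ, |h ψ - g ψ| ≤ M) (h1 : ∀ ψ, |deriv h ψ - deriv g ψ| ≤ M)
    (x y : ℝ) : |lineIn h x y - lineIn g x y| ≤ 2 * M ∧
      |lineOut h x y - lineOut g x y| ≤ 2 * M := by
  have a1 := h0 ((x + y) / 2)
  have a2 := h1 ((x + y) / 2)
  have a3 := Real.abs_sin_le_one ((y - x) / 2)
  have a4 := Real.abs_cos_le_one ((y - x) / 2)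
  have n1 := abs_nonneg (h ((x + y) / 2) - g ((x + y) / 2))
  have n2 := abs_nonneg (deriv h ((x + y) / 2) - deriv g ((x + y) / 2))
  have n3 := abs_nonneg (Real.sin ((y - x) / 2))
  have n4 := abs_nonneg (Real.cos ((y - x) / 2))
  have b1 : |(h ((x + y) / 2) - g ((x + y) / 2)) * Real.cos ((y - x) / 2)| ≤ M := by
    rw [abs_mul]; nlinarith
  have b2 : |(deriv h ((x + y) / 2) - deriv g ((x + y) / 2)) * Real.sin ((y - x) / 2)| ≤ M := by
    rw [abs_mul]; nlinarith
  unfold lineIn lineOut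
  constructor
  · have e : h ((x + y) / 2) * Real.cos ((y - x) / 2) -
        deriv h ((x + y) / 2) * Real.sin ((y - x) / 2) -
        (g ((x + y) / 2) * Real.cos ((y - x) / 2) -
          deriv g ((x + y) / 2) * Real.sin ((y - x) / 2)) =
        (h ((x + y) / 2) - g ((x + y) / 2)) * Real.cos ((y - x) / 2) -
        (deriv h ((x + y) / 2) - deriv g ((x + y) / 2)) * Real.sin ((y - x) / 2) := by ring
    rw [e]
    refine (abs_sub _ _).trans ?_
    linarith
  · have e : h ((x + y) / 2) * Real.cos ((y - x) / 2) +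
        deriv h ((x + y) / 2) * Real.sin ((y - x) / 2) -
        (g ((x + y) / 2) * Real.cos ((y - x) / 2) +
          deriv g ((x + y) / 2) * Real.sin ((y - x) / 2)) =
        (h ((x + y) / 2) - g ((x + y) / 2)) * Real.cos ((y - x) / 2) +
        (deriv h ((x + y) / 2) - deriv g ((x + y) / 2)) * Real.sin ((y - x) / 2) := by ring
    rw [e]
    refine (abs_add_le _ _).trans ?_
    linarith

lemma genS_lip (hs : IsSupp h) (hg : IsSupp g) {M : ℝ} (h0 : ∀ ψ, |h ψ - g ψ| ≤ M)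
    (h1 : ∀ ψ, |deriv h ψ - deriv g ψ| ≤ M) (x y x' y' : ℝ) :
    |genS (fun ψ => h ψ - g ψ) x y - genS (fun ψ => h ψ - g ψ) x' y'| ≤
      2 * M * (|x - x'| + |y - y'|) := by
  have k1 : |genS (fun ψ => h ψ - g ψ) x y - genS (fun ψ => h ψ - g ψ) x' y| ≤
      2 * M * |x - x'| := by
    have := (convex_univ (𝕜 := ℝ) (E := ℝ)).norm_image_sub_le_of_norm_hasDerivWithin_le
      (f := fun ξ => genS (fun ψ => h ψ - g ψ) ξ y)
      (f' := fun ξ => -(lineIn h ξ y) - -(lineIn g ξ y)) (C := 2 * M) (x := x') (y := x) (by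
        intro ξ _
        have := (Cal.hasDerivAt_genS_left hs ξ y).sub (Cal.hasDerivAt_genS_left hg ξ y)
        refine HasDerivAt.hasDerivWithinAt ?_
        refine this.congr_of_eventuallyEq ?_
        filter_upwards with z
        exact genS_sub z y) (by
        intro ξ _
        have := (line_le h0 h1 ξ y).1
        rw [Real.norm_eq_abs]
        rw [show -(lineIn h ξ y) - -(lineIn g ξ y) = -(lineIn h ξ y - lineIn g ξ y) by ring,
          abs_neg]
        exact this) (Set.mem_univ _) (Set.mem_univ _)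
    simpa [Real.norm_eq_abs] using this
  have k2 : |genS (fun ψ => h ψ - g ψ) x' y - genS (fun ψ => h ψ - g ψ) x' y'| ≤
      2 * M * |y - y'| := by
    have := (convex_univ (𝕜 := ℝ) (E := ℝ)).norm_image_sub_le_of_norm_hasDerivWithin_le
      (f := fun ξ => genS (fun ψ => h ψ - g ψ) x' ξ)
      (f' := fun ξ => lineOut h x' ξ - lineOut g x' ξ) (C := 2 * M) (x := y') (y := y) (by
        intro ξ _
        have := (Cal.hasDerivAt_genS_right hs x' ξ).sub (Cal.hasDerivAt_genS_right hg x' ξ)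
        refine HasDerivAt.hasDerivWithinAt ?_
        refine this.congr_of_eventuallyEq ?_
        filter_upwards with z
        exact genS_sub x' z) (by
        intro ξ _
        rw [Real.norm_eq_abs]
        exact (line_le h0 h1 x' ξ).2) (Set.mem_univ _) (Set.mem_univ _)
    simpa [Real.norm_eq_abs] using this
  have k3 := abs_sub_le (genS (fun ψ => h ψ - g ψ) x y) (genS (fun ψ => h ψ - g ψ) x' y)
    (genS (fun ψ => h ψ - g ψ) x' y')
  linarith

lemma orbit_step (hc : PCaustic h P f p q) (x₀ : ℝ) (j : ℕ) :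
    f^[j] x₀ < f^[j + 1] x₀ ∧ f^[j + 1] x₀ < f^[j] x₀ + 2 * π := by
  rw [Function.iterate_succ_apply']
  exact ⟨hc.lt_map _, hc.map_lt _⟩

/-- Orbits maximise the action. -/
lemma action_orbit (hs : IsSupp h) (hq : 0 < q) (hc : PCaustic h P f p q) :
    ∃ L : ℝ, (∀ x₀, ∑ j ∈ Finset.range q, genS h (f^[j] x₀) (f^[j + 1] x₀) = L) ∧
      (∀ x : ℕ → ℝ, x q = x 0 + 2 * π * p → (∀ j, x j < x (j + 1) ∧ x (j + 1) < x j + 2 * π) →
        ∑ j ∈ Finset.range q, genS h (x j) (x (j + 1)) =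
          L - ∑ j ∈ Finset.range q, (Gcal h P (x j) (x (j + 1)) - Gcal h P (x j) (f (x j)))) := by
  obtain ⟨m, hm1, hm2⟩ := calib hs hq hc
  refine ⟨p * (∫ t in (0 : ℝ)..(2 * π), P t) - q * m, ?_, ?_⟩
  · intro x₀
    have h1 := sum_genS (h := h) hc.cont hc.periodic (p := p) (q := q) (fun j => f^[j] x₀) (by
      simp only [Function.iterate_zero, id]
      exact hc.iter x₀)
    rw [h1]
    have h2 : ∑ j ∈ Finset.range q, Gcal h P (f^[j] x₀) (f^[j + 1] x₀) = q * m := by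
      have : ∀ j ∈ Finset.range q, Gcal h P (f^[j] x₀) (f^[j + 1] x₀) = m := by
        intro j _
        rw [Function.iterate_succ_apply']
        exact hm1 _
      rw [Finset.sum_congr rfl this, Finset.sum_const, Finset.card_range, nsmul_eq_mul]
    rw [h2]
  · intro x hx _
    rw [sum_genS (h := h) hc.cont hc.periodic (p := p) (q := q) x hx, Finset.sum_sub_distrib]
    have h2 : ∑ j ∈ Finset.range q, Gcal h P (x j) (f (x j)) = q * m := by
      rw [Finset.sum_congr rfl (fun j _ => hm1 (x j)), Finset.sum_const, Finset.card_range,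
        nsmul_eq_mul]
    rw [h2]
    ring

end Sand

open Sand in
/-- **The sandwich.** -/
theorem sandwich {h g P PE f fE Θ : ℝ → ℝ} {p q : ℕ} (hs : IsSupp h) (hg : IsSupp g) (hq : 0 < q)
    (hc : PCaustic h P f p q) (hcE : PCaustic g PE fE p q)
    {M c Λ₁ Λ₂ τ : ℝ} (hM : 0 ≤ M) (h0 : ∀ ψ, |h ψ - g ψ| ≤ M)
    (h1 : ∀ ψ, |deriv h ψ - deriv g ψ| ≤ M) (hc0 : 0 < c)
    (hgrow : ∀ x y, x < y → y < x + 2 * π →
      c * (y - fE x) ^ 2 ≤ Gcal g PE x y - Gcal g PE x (fE x))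
    (hΘ : ∀ x, Θ (fE x) = Θ x + τ) (hΛ₁ : 0 < Λ₁) (hΛ₂ : 0 ≤ Λ₂)
    (hlow : ∀ x y, Λ₁ * |x - y| ≤ |Θ x - Θ y|) (hup : ∀ x y, |Θ x - Θ y| ≤ Λ₂ * |x - y|) :
    ∃ Λ : ℝ, ∀ x₀ : ℝ,
      |∑ j ∈ Finset.range q, genS (fun ψ => h ψ - g ψ) (fE^[j] x₀) (fE^[j + 1] x₀) - Λ| ≤
      4 * q ^ 2 * M * (Λ₂ / Λ₁) * √(4 * q * M / c) := by
  obtain ⟨L, hL1, hL2⟩ := action_orbit hs hq hc
  obtain ⟨LE, hLE1, hLE2⟩ := action_orbit hg hq hcE
  have hq' : (0 : ℝ) < q := by exact_mod_cast hq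
  refine ⟨L - LE, fun x₀ => ?_⟩
  set xE : ℕ → ℝ := fun j => fE^[j] x₀ with hxE
  set xh : ℕ → ℝ := fun j => f^[j] x₀ with hxh
  set ε : ℝ := √(4 * q * M / c) with hε
  have hε0 : 0 ≤ ε := Real.sqrt_nonneg _
  have stepE : ∀ j, xE j < xE (j + 1) ∧ xE (j + 1) < xE j + 2 * π := orbit_step hcE x₀
  have steph : ∀ j, xh j < xh (j + 1) ∧ xh (j + 1) < xh j + 2 * π := orbit_step hc x₀
  have endE : xE q = xE 0 + 2 * π * p := by
    simp only [hxE, Function.iterate_zero, id]
    exact hcE.iter x₀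
  have endh : xh q = xh 0 + 2 * π * p := by
    simp only [hxh, Function.iterate_zero, id]
    exact hc.iter x₀
  -- the four actions
  have a1 := hL1 x₀
  have a2 := hLE1 x₀
  have a3 := hL2 xE endE stepE
  have a4 := hLE2 xh endh steph
  have p1 : 0 ≤ ∑ j ∈ Finset.range q, (Gcal h P (xE j) (xE (j + 1)) -
      Gcal h P (xE j) (f (xE j))) := by
    apply Finset.sum_nonneg
    intro j _
    have := Cal.G_min hs hq hc (stepE j).1 (stepE j).2
    linarith
  have p2 : ∀ j ∈ Finset.range q, 0 ≤ Gcal g PE (xh j) (xh (j + 1)) -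
      Gcal g PE (xh j) (fE (xh j)) := by
    intro j _
    have := Cal.G_min hg hq hcE (steph j).1 (steph j).2
    linarith
  have FE : ∑ j ∈ Finset.range q, genS (fun ψ => h ψ - g ψ) (xE j) (xE (j + 1)) =
      ∑ j ∈ Finset.range q, genS h (xE j) (xE (j + 1)) -
        ∑ j ∈ Finset.range q, genS g (xE j) (xE (j + 1)) := by
    rw [← Finset.sum_sub_distrib]
    exact Finset.sum_congr rfl fun j _ => genS_sub _ _
  have Fh : ∑ j ∈ Finset.range q, genS (fun ψ => h ψ - g ψ) (xh j) (xh (j + 1)) =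
      ∑ j ∈ Finset.range q, genS h (xh j) (xh (j + 1)) -
        ∑ j ∈ Finset.range q, genS g (xh j) (xh (j + 1)) := by
    rw [← Finset.sum_sub_distrib]
    exact Finset.sum_congr rfl fun j _ => genS_sub _ _
  have bE : |∑ j ∈ Finset.range q, genS (fun ψ => h ψ - g ψ) (xE j) (xE (j + 1))| ≤
      q * (2 * M) := by
    refine (Finset.abs_sum_le_sum_abs _ _).trans ?_
    refine (Finset.sum_le_sum fun j _ => abs_genS_le h0 _ _).trans ?_
    rw [Finset.sum_const, Finset.card_range, nsmul_eq_mul]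
  have bh : |∑ j ∈ Finset.range q, genS (fun ψ => h ψ - g ψ) (xh j) (xh (j + 1))| ≤
      q * (2 * M) := by
    refine (Finset.abs_sum_le_sum_abs _ _).trans ?_
    refine (Finset.sum_le_sum fun j _ => abs_genS_le h0 _ _).trans ?_
    rw [Finset.sum_const, Finset.card_range, nsmul_eq_mul]
  have a1' : ∑ j ∈ Finset.range q, genS h (xh j) (xh (j + 1)) = L := a1
  have a2' : ∑ j ∈ Finset.range q, genS g (xE j) (xE (j + 1)) = LE := a2
  have p2s := Finset.sum_nonneg p2
  have tot : ∑ j ∈ Finset.range q, (Gcal g PE (xh j) (xh (j + 1)) -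
      Gcal g PE (xh j) (fE (xh j))) ≤ 4 * q * M := by
    have := (abs_le.1 bE).1
    have := (abs_le.1 bh).2
    linarith
  -- each step of the h-orbit is close to the E-map
  have each : ∀ j ∈ Finset.range q, |xh (j + 1) - fE (xh j)| ≤ ε := by
    intro j hj
    have h2 := Finset.single_le_sum p2 hj
    have h3 := hgrow (xh j) (xh (j + 1)) (steph j).1 (steph j).2
    rw [hε]
    apply Real.abs_le_sqrt
    rw [le_div_iff₀ hc0]
    linarith
  have drift : ∀ j, j ≤ q → |Θ (xh j) - Θ (xE j)| ≤ j * (Λ₂ * ε) := by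
    intro j
    induction j with
    | zero => simp [hxh, hxE]
    | succ n ih =>
      intro hn
      have h2 := ih (by omega)
      have h3 := each n (Finset.mem_range.2 (by omega))
      have h4 := hup (xh (n + 1)) (fE (xh n))
      have h5 : Λ₂ * |xh (n + 1) - fE (xh n)| ≤ Λ₂ * ε := mul_le_mul_of_nonneg_left h3 hΛ₂
      have h6 : xE (n + 1) = fE (xE n) := by
        simp only [hxE]
        rw [Function.iterate_succ_apply']
      have h7 : Θ (xh (n + 1)) - Θ (xE (n + 1)) =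
          (Θ (xh (n + 1)) - Θ (fE (xh n))) + (Θ (xh n) - Θ (xE n)) := by
        rw [h6, hΘ, hΘ]
        ring
      rw [h7]
      refine (abs_add_le _ _).trans ?_
      push_cast
      linarith
  have close : ∀ j, j ≤ q → |xh j - xE j| ≤ q * (Λ₂ / Λ₁) * ε := by
    intro j hj
    have h2 := drift j hj
    have h3 := hlow (xh j) (xE j)
    have h4 : (j : ℝ) * (Λ₂ * ε) ≤ q * (Λ₂ * ε) := by
      apply mul_le_mul_of_nonneg_right
      · exact_mod_cast hj
      · positivity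
    have h5 : q * (Λ₂ / Λ₁) * ε = (q * (Λ₂ * ε)) / Λ₁ := by
      field_simp
    rw [h5, le_div_iff₀ hΛ₁]
    linarith
  have diff : ∑ j ∈ Finset.range q, genS (fun ψ => h ψ - g ψ) (xh j) (xh (j + 1)) -
      ∑ j ∈ Finset.range q, genS (fun ψ => h ψ - g ψ) (xE j) (xE (j + 1)) ≤
      q * (4 * M * (q * (Λ₂ / Λ₁) * ε)) := by
    rw [← Finset.sum_sub_distrib]
    have : ∀ j ∈ Finset.range q, genS (fun ψ => h ψ - g ψ) (xh j) (xh (j + 1)) -
        genS (fun ψ => h ψ - g ψ) (xE j) (xE (j + 1)) ≤ 4 * M * (q * (Λ₂ / Λ₁) * ε) := by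
      intro j hj
      have hj' := Finset.mem_range.1 hj
      have h2 := (abs_le.1 (genS_lip hs hg h0 h1 (xh j) (xh (j + 1)) (xE j) (xE (j + 1)))).2
      have h3 := close j (by omega)
      have h4 := close (j + 1) (by omega)
      have h5 : 2 * M * (|xh j - xE j| + |xh (j + 1) - xE (j + 1)|) ≤
          2 * M * (q * (Λ₂ / Λ₁) * ε + q * (Λ₂ / Λ₁) * ε) := by
        apply mul_le_mul_of_nonneg_left _ (by positivity)
        linarith
      linarith
    refine (Finset.sum_le_sum this).trans ?_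
    rw [Finset.sum_const, Finset.card_range, nsmul_eq_mul]
  have goal : |∑ j ∈ Finset.range q, genS (fun ψ => h ψ - g ψ) (xE j) (xE (j + 1)) - (L - LE)| ≤
      4 * q ^ 2 * M * (Λ₂ / Λ₁) * ε := by
    have hnn : 0 ≤ 4 * q ^ 2 * M * (Λ₂ / Λ₁) * ε := by positivity
    rw [abs_le]
    constructor
    · have e : 4 * (q : ℝ) ^ 2 * M * (Λ₂ / Λ₁) * ε = q * (4 * M * (q * (Λ₂ / Λ₁) * ε)) := by ring
      rw [e]
      linarith
    · linarith
  exact goal

end LSB
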