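import Pool.Agent.LSB.AEll
import Pool.Agent.LSB.AFour
import Pool.Agent.LSB.AGrow
import Pool.Agent.LSB.ASand

/-!
# Assembly of the basic estimate
-/

namespace LSB

open Real

namespace AMain

open El AEll

variable {a b l : ℝ}

/-- the orbit of the confocal caustic with given bounce angles -/
theorem orbit_eq (H : EH a b l) {p q : ℕ} (hom : omE a b l = p / q) (ψ : ℕ → ℝ)
    (hψ : ∀ j, BE a b l (ψ j) = BE a b l (ψ 0) + 2 * π * (p / q) * j) (j : ℕ) :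
    (fE a b l)^[j] (ψ 0 - DE a b l (ψ 0)) = ψ j - DE a b l (ψ j) := by
  apply (strictMono_TE H).injective
  rw [TE_iterate H, TE_sub H, TE_sub H, hψ j, hom]
  ring

theorem fE_of (H : EH a b l) (ψ : ℝ) : fE a b l (ψ - DE a b l ψ) = ψ + DE a b l ψ := by
  have h1 := rhoE_unique H (x := ψ - DE a b l ψ) (ψ := ψ) rfl
  unfold fE
  rw [h1]

theorem genS_orbit (H : EH a b l) {p q : ℕ} (hom : omE a b l = p / q) (ψ : ℕ → ℝ)
    (hψ : ∀ j, BE a b l (ψ j) = BE a b l (ψ 0) + 2 * π * (p / q) * j) (d : ℝ → ℝ) (j : ℕ) :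
    genS d ((fE a b l)^[j] (ψ 0 - DE a b l (ψ 0))) ((fE a b l)^[j + 1] (ψ 0 - DE a b l (ψ 0))) =
      2 * l / (a * b) * (hE a b (ψ j) * d (ψ j)) := by
  rw [Function.iterate_succ_apply', orbit_eq H hom ψ hψ, fE_of H]
  unfold genS
  have h1 : (ψ j - DE a b l (ψ j) + (ψ j + DE a b l (ψ j))) / 2 = ψ j := by ring
  have h2 : (ψ j + DE a b l (ψ j) - (ψ j - DE a b l (ψ j))) / 2 = DE a b l (ψ j) := by ring
  rw [h1, h2, sin_DE H]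
  ring

/-- the sandwich for the ellipse -/
theorem sums (H : EH a b l) (hl : l ≤ b / 2) {p q : ℕ} (hq : 0 < q) (hom : omE a b l = p / q)
    {h P f : ℝ → ℝ} (hs : IsSupp h) (hc : PCaustic h P f p q) {M : ℝ} (hM : 0 ≤ M)
    (h0 : ∀ ψ, |h ψ - hE a b ψ| ≤ M) (h1 : ∀ ψ, |deriv h ψ - deriv (hE a b) ψ| ≤ M) :
    ∃ Λ : ℝ, ∀ ψ : ℕ → ℝ,
      (∀ j, BE a b l (ψ j) = BE a b l (ψ 0) + 2 * π * (p / q) * j) →
      |∑ j ∈ Finset.range q, hE a b (ψ j) * (h (ψ j) - hE a b (ψ j)) - Λ| ≤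
        a * b / (2 * l) * (4 * q ^ 2 * M * (2 * a / b) *
          √(4 * q * M / (b ^ 3 * l ^ 3 / (32 * π ^ 3 * a ^ 5)))) := by
  have hpi := Real.pi_pos
  have ha := H.ha
  have hb := H.hb
  have hl0 := H.hl
  have hcE := pCaustic H hq hom
  have hsE := isSupp_hE hb H.hab
  have hg := growth hsE hq hcE (ρ₀ := b ^ 2 / a) (η := l / a) (Lf := 2 * a / b) (by positivity)
    (by positivity) (by positivity) (rho_ge hb H.hab) (fE_lip H hl) (fE_lo H) (fE_hi H hl)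
  have ec : b ^ 2 / a * (l / a) ^ 3 / (16 * π ^ 3 * (2 * a / b)) =
      b ^ 3 * l ^ 3 / (32 * π ^ 3 * a ^ 5) := by
    field_simp
    ring
  rw [ec] at hg
  have hc3 := cE_pos H
  obtain ⟨Λ, hΛ⟩ := sandwich hs hsE hq hc hcE hM h0 h1 (c := b ^ 3 * l ^ 3 / (32 * π ^ 3 * a ^ 5))
    (by positivity) hg (Θ := TE a b l) (TE_fE H) (Λ₁ := cE a b l / a)
    (Λ₂ := 2 * cE a b l / b) (by positivity) (by positivity) (TE_low_abs H) (TE_up_abs H hl)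
  have er : 2 * cE a b l / b / (cE a b l / a) = 2 * a / b := by
    field_simp
  rw [er] at hΛ
  refine ⟨a * b / (2 * l) * Λ, fun ψ hψ => ?_⟩
  have h2 := hΛ (ψ 0 - DE a b l (ψ 0))
  have h3 : ∑ j ∈ Finset.range q, genS (fun ψ => h ψ - hE a b ψ)
      ((fE a b l)^[j] (ψ 0 - DE a b l (ψ 0))) ((fE a b l)^[j + 1] (ψ 0 - DE a b l (ψ 0))) =
      2 * l / (a * b) * ∑ j ∈ Finset.range q, hE a b (ψ j) * (h (ψ j) - hE a b (ψ j)) := by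
    rw [Finset.mul_sum]
    exact Finset.sum_congr rfl fun j _ => genS_orbit H hom ψ hψ _ j
  rw [h3] at h2
  have h4 : ∑ j ∈ Finset.range q, hE a b (ψ j) * (h (ψ j) - hE a b (ψ j)) -
      a * b / (2 * l) * Λ = a * b / (2 * l) * (2 * l / (a * b) *
        ∑ j ∈ Finset.range q, hE a b (ψ j) * (h (ψ j) - hE a b (ψ j)) - Λ) := by
    field_simp
  rw [h4, abs_mul, abs_of_pos (by positivity : 0 < a * b / (2 * l))]
  exact mul_le_mul_of_nonneg_left h2 (by positivity)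

/-- the constants -/
theorem const_bound {b₁ a₁ : ℝ} (hb₁ : 0 < b₁) (H : EH a b l) (hbb : b₁ ≤ b) (haa : a ≤ a₁)
    {q M : ℝ} (hq : 0 < q) (hM : 0 ≤ M) (hlq : b₁ ^ 2 / a₁ / q ≤ l) :
    a * b / (2 * l) * (4 * q ^ 2 * M * (2 * a / b) *
          √(4 * q * M / (b ^ 3 * l ^ 3 / (32 * π ^ 3 * a ^ 5)))) ≤
      4 * a₁ ^ 3 / b₁ ^ 2 * √(128 * π ^ 3 * a₁ ^ 8 / b₁ ^ 9) * q ^ 5 * M ^ (3 / 2 : ℝ) := by
  have hpi := Real.pi_pos
  have ha := H.ha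
  have hb := H.hb
  have hl0 := H.hl
  have ha₁ : 0 < a₁ := ha.trans_le haa
  have hl1 : 0 < b₁ ^ 2 / a₁ / q := by positivity
  have e1 : a * b / (2 * l) * (4 * q ^ 2 * M * (2 * a / b) *
          √(4 * q * M / (b ^ 3 * l ^ 3 / (32 * π ^ 3 * a ^ 5)))) =
      4 * a ^ 2 * q ^ 2 * M / l * √(4 * q * M / (b ^ 3 * l ^ 3 / (32 * π ^ 3 * a ^ 5))) := by
    field_simp
  rw [e1]
  have h1 : 4 * a ^ 2 * q ^ 2 * M / l ≤ 4 * a₁ ^ 3 / b₁ ^ 2 * q ^ 3 * M := by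
    have i1 : 1 / l ≤ 1 / (b₁ ^ 2 / a₁ / q) := one_div_le_one_div_of_le hl1 hlq
    have i2 : a ^ 2 ≤ a₁ ^ 2 := pow_le_pow_left₀ ha.le haa 2
    calc 4 * a ^ 2 * q ^ 2 * M / l = (4 * a ^ 2 * q ^ 2 * M) * (1 / l) := by ring
      _ ≤ (4 * a ^ 2 * q ^ 2 * M) * (1 / (b₁ ^ 2 / a₁ / q)) :=
        mul_le_mul_of_nonneg_left i1 (by positivity)
      _ = a ^ 2 * (4 * q ^ 2 * M * (1 / (b₁ ^ 2 / a₁ / q))) := by ring
      _ ≤ a₁ ^ 2 * (4 * q ^ 2 * M * (1 / (b₁ ^ 2 / a₁ / q))) :=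
        mul_le_mul_of_nonneg_right i2 (by positivity)
      _ = 4 * a₁ ^ 3 / b₁ ^ 2 * q ^ 3 * M := by
        field_simp
  have h2 : √(4 * q * M / (b ^ 3 * l ^ 3 / (32 * π ^ 3 * a ^ 5))) ≤
      √(128 * π ^ 3 * a₁ ^ 8 / b₁ ^ 9) * q ^ 2 * √M := by
    have e2 : √(128 * π ^ 3 * a₁ ^ 8 / b₁ ^ 9) * q ^ 2 * √M =
        √(128 * π ^ 3 * a₁ ^ 8 / b₁ ^ 9 * (q ^ 2) ^ 2 * M) := by
      rw [Real.sqrt_mul (by positivity), Real.sqrt_mul (by positivity),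
        Real.sqrt_sq (by positivity)]
    rw [e2]
    apply Real.sqrt_le_sqrt
    have e3 : 4 * q * M / (b ^ 3 * l ^ 3 / (32 * π ^ 3 * a ^ 5)) =
        128 * π ^ 3 * q * M * (a ^ 5 * (1 / b ^ 3) * (1 / l ^ 3)) := by
      field_simp
      ring
    rw [e3]
    have j1 : a ^ 5 ≤ a₁ ^ 5 := pow_le_pow_left₀ ha.le haa 5
    have j2 : 1 / b ^ 3 ≤ 1 / b₁ ^ 3 :=
      one_div_le_one_div_of_le (by positivity) (pow_le_pow_left₀ hb₁.le hbb 3)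
    have j3 : 1 / l ^ 3 ≤ 1 / (b₁ ^ 2 / a₁ / q) ^ 3 :=
      one_div_le_one_div_of_le (by positivity) (pow_le_pow_left₀ hl1.le hlq 3)
    have j4 : a ^ 5 * (1 / b ^ 3) * (1 / l ^ 3) ≤
        a₁ ^ 5 * (1 / b₁ ^ 3) * (1 / (b₁ ^ 2 / a₁ / q) ^ 3) := by
      apply mul_le_mul _ j3 (by positivity) (by positivity)
      exact mul_le_mul j1 j2 (by positivity) (by positivity)
    calc 128 * π ^ 3 * q * M * (a ^ 5 * (1 / b ^ 3) * (1 / l ^ 3))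
        ≤ 128 * π ^ 3 * q * M * (a₁ ^ 5 * (1 / b₁ ^ 3) * (1 / (b₁ ^ 2 / a₁ / q) ^ 3)) :=
          mul_le_mul_of_nonneg_left j4 (by positivity)
      _ = 128 * π ^ 3 * a₁ ^ 8 / b₁ ^ 9 * (q ^ 2) ^ 2 * M := by
        field_simp
  have h3 : M ^ (3 / 2 : ℝ) = M * √M := by
    rw [Real.sqrt_eq_rpow]
    rcases eq_or_lt_of_le hM with h | h
    · rw [← h]
      rw [Real.zero_rpow (by norm_num), zero_mul]
    · nth_rewrite 2 [← Real.rpow_one M]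
      rw [← Real.rpow_add h]
      norm_num
  rw [h3]
  calc 4 * a ^ 2 * q ^ 2 * M / l * √(4 * q * M / (b ^ 3 * l ^ 3 / (32 * π ^ 3 * a ^ 5)))
      ≤ (4 * a₁ ^ 3 / b₁ ^ 2 * q ^ 3 * M) * (√(128 * π ^ 3 * a₁ ^ 8 / b₁ ^ 9) * q ^ 2 * √M) :=
        mul_le_mul h1 h2 (Real.sqrt_nonneg _) (by positivity)
    _ = 4 * a₁ ^ 3 / b₁ ^ 2 * √(128 * π ^ 3 * a₁ ^ 8 / b₁ ^ 9) * q ^ 5 * (M * √M) := by ring

end AMain

open AMain El AEll in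
/-- The basic estimate. -/
theorem main_estimate_aux {b₁ a₁ : ℝ} (hb₁ : 0 < b₁) : ∃ C > 0, ∀ a b : ℝ, b₁ ≤ b → b < a →
    a ≤ a₁ →
    ∀ l : ℝ, 0 < l → l ≤ b / 2 → ∀ p q : ℕ, 0 < p → 0 < q → omE a b l = p / q →
    ∀ h P f : ℝ → ℝ, IsSupp h → PCaustic h P f p q → ∀ M : ℝ, 0 ≤ M → M ≤ 1 →
    (∀ ψ, |h ψ - hE a b ψ| ≤ M) → (∀ ψ, |deriv h ψ - deriv (hE a b) ψ| ≤ M) →
    ∀ k : ℤ, k ≠ 0 →
      ‖Efun a b l (k * q) (fun ψ => ((hE a b ψ * (h ψ - hE a b ψ) : ℝ) : ℂ))‖ ≤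
        C * (q : ℝ) ^ 5 * M ^ (3 / 2 : ℝ) := by
  have hpi := Real.pi_pos
  have hK : 0 ≤ 4 * |a₁| ^ 3 / b₁ ^ 2 * √(128 * π ^ 3 * a₁ ^ 8 / b₁ ^ 9) := by positivity
  refine ⟨4 * |a₁| ^ 3 / b₁ ^ 2 * √(128 * π ^ 3 * a₁ ^ 8 / b₁ ^ 9) + 1, by linarith, ?_⟩
  intro a b hb1 hab ha1 l hl0 hl2 p q hp hq hom h P f hs hc M hM _ h0 h1 k hk
  have hb : 0 < b := hb₁.trans_le hb1
  have hlb : l < b := by linarith
  have H : EH a b l := ⟨hb, hab, hl0, hlb⟩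
  have ha := H.ha
  have ha₁ : 0 < a₁ := ha.trans_le ha1
  have hq' : (0 : ℝ) < q := by exact_mod_cast hq
  have hq1 : (1 : ℝ) ≤ q := by exact_mod_cast hq
  have hp1 : (1 : ℝ) ≤ p := by exact_mod_cast hp
  obtain ⟨Λ, hΛ⟩ := sums H hl2 hq hom hs hc hM h0 h1
  -- lower bound for l
  have hlq : b₁ ^ 2 / a₁ / q ≤ l := by
    have i1 := om_le H hl2
    rw [hom, div_le_div_iff₀ hq' (by positivity)] at i1
    rw [div_div, div_le_iff₀ (by positivity)]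
    have i2 : b₁ ^ 2 ≤ b ^ 2 := pow_le_pow_left₀ hb₁.le hb1 2
    have i3 : b ^ 2 ≤ p * b ^ 2 := le_mul_of_one_le_left (by positivity) hp1
    have i4 : a * l * q ≤ a₁ * l * q := by
      apply mul_le_mul_of_nonneg_right _ hq'.le
      exact mul_le_mul_of_nonneg_right ha1 hl0.le
    calc b₁ ^ 2 ≤ a₁ * l * q := by linarith
      _ = l * (a₁ * q) := by ring
  have hcb := const_bound hb₁ H hb1 ha1 hq' hM hlq
  set ε : ℝ := 4 * a₁ ^ 3 / b₁ ^ 2 * √(128 * π ^ 3 * a₁ ^ 8 / b₁ ^ 9) * (q : ℝ) ^ 5 *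
    M ^ (3 / 2 : ℝ) with hε
  have hMr : 0 ≤ M ^ (3 / 2 : ℝ) := Real.rpow_nonneg hM _
  have hε0 : 0 ≤ ε := by positivity
  have key := efun_le_of_orbit_sums hb hab hl0 hlb (p := p) hq hk
    (fun ψ => ((hE a b ψ * (h ψ - hE a b ψ) : ℝ) : ℂ)) (by
      have c1 := continuous_hE a b
      have c2 := hs.smooth.continuous
      exact Complex.continuous_ofReal.comp (c1.mul (c2.sub c1))) (by
      intro ψ
      rw [hE_add_two_pi, hs.periodic]) (Λ : ℂ) ε (by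
      intro ψ hψ
      have i1 := (hΛ ψ hψ).trans hcb
      have i2 : (∑ j ∈ Finset.range q, ((hE a b (ψ j) * (h (ψ j) - hE a b (ψ j)) : ℝ) : ℂ) -
          (Λ : ℂ)) = ((∑ j ∈ Finset.range q, hE a b (ψ j) * (h (ψ j) - hE a b (ψ j)) - Λ : ℝ) :
            ℂ) := by
        push_cast
        ring
      rw [i2, Complex.norm_real, Real.norm_eq_abs]
      exact i1)
  refine key.trans ?_
  have i1 : ε / q ≤ ε := div_le_self hε0 hq1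
  refine i1.trans ?_
  rw [hε, abs_of_pos ha₁]
  have i2 : 0 ≤ (q : ℝ) ^ 5 * M ^ (3 / 2 : ℝ) := by positivity
  nlinarith

end LSB
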