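import Pool.Agent.LSB.Defs

/-!
# Part C, module CStrip: Fourier coefficients of periodic functions on horizontal lines

Paper proof.  `lineCoef_eq`: the integrand `F(z)e^{-inz}` is `2π`-periodic and differentiable on the strip; Cauchy's theorem for
the rectangle `[0,2π]×[y,y']` (`Complex.integral_boundary_rect_eq_zero_of_differentiableOn`), the vertical sides cancel.
`norm_lineCoef_le`: `|e^{-in(x+iy)}|=e^{ny}`.  `hasSum_lineCoef`: the function `x↦F(x+iy)` is smooth periodic, and its Fourier
coefficients `e^{-ny}·lineCoef F n y` are `O(e^{-ε|n|})` (use `lineCoef_eq` to move to the lines `y±ε`), so its Fourier series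
converges absolutely to it (`has_pointwise_sum_fourier_series_of_summable` on `AddCircle (2π)`, or uniqueness);
for `z=x+iy` this is the claim with that `y`; `lineCoef` does not depend on `y`.
`lineCoef_tsum`: interchange sum and integral (`hasSum_integral...` or `integral_tsum`), orthogonality of exponentials.
`differentiableOn_lineCoef`: differentiation under the integral sign over the compact interval
(`hasDerivAt_integral_of_dominated_loc_of_deriv_le`), local bound of the derivative by continuity on compact sets.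
-/

namespace LSB

open Complex MeasureTheory

/-- Open horizontal strip. -/
def hstrip (a b : ℝ) : Set ℂ := {z | a < z.im ∧ z.im < b}

/-- `n`-th Fourier coefficient along the line `Im z = y`, normalised by `exp (i n z)`. -/
noncomputable def lineCoef (F : ℂ → ℂ) (n : ℤ) (y : ℝ) : ℂ :=
  (1 / (2 * Real.pi) : ℂ) * ∫ x in (0 : ℝ)..(2 * Real.pi),
    F (x + y * I) * exp (-(n * I * (x + y * I)))

lemma cstrip_isOpen_hstrip (a b : ℝ) : IsOpen (hstrip a b) :=
  (isOpen_lt continuous_const Complex.continuous_im).inter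
    (isOpen_lt Complex.continuous_im continuous_const)

lemma cstrip_line_mem_hstrip {a b y : ℝ} (hy : a < y ∧ y < b) (x : ℂ) (hx : x.im = 0) :
    x + y * I ∈ hstrip a b := by
  have : (x + y * I).im = y := by simp [hx]
  exact ⟨by rw [this]; exact hy.1, by rw [this]; exact hy.2⟩

lemma cstrip_exp_shift (n : ℤ) (z : ℂ) :
    exp (-(n * I * (z + 2 * Real.pi))) = exp (-(n * I * z)) := by
  have h : -(n * I * (z + 2 * Real.pi)) = -(n * I * z) + ((-n : ℤ) : ℂ) * (2 * Real.pi * I) := by
    push_cast; ring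
  rw [h, Complex.exp_add, Complex.exp_int_mul_two_pi_mul_I, mul_one]

theorem lineCoef_eq {F : ℂ → ℂ} {a b : ℝ} (hF : DifferentiableOn ℂ F (hstrip a b))
    (hper : ∀ z ∈ hstrip a b, F (z + 2 * Real.pi) = F z) (n : ℤ) {y y' : ℝ}
    (hy : a < y ∧ y < b) (hy' : a < y' ∧ y' < b) : lineCoef F n y = lineCoef F n y' := by
  unfold lineCoef
  congr 1
  let G : ℂ → ℂ := fun z => F z * exp (-(n * I * z))
  have hGd : DifferentiableOn ℂ G (hstrip a b) := by
    apply hF.mul
    apply Differentiable.differentiableOn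
    fun_prop
  have hGp : ∀ z ∈ hstrip a b, G (z + 2 * Real.pi) = G z := by
    intro z hz
    simp only [G]
    rw [hper z hz, cstrip_exp_shift]
  have hsub : Set.uIcc y y' ⊆ Set.Ioo a b := Set.ordConnected_Ioo.uIcc_subset hy hy'
  have hrect := Complex.integral_boundary_rect_eq_zero_of_differentiableOn G
    (⟨0, y⟩ : ℂ) (⟨2 * Real.pi, y'⟩ : ℂ) (hGd.mono (by
      intro z hz
      rw [Complex.mem_reProdIm] at hz
      exact hsub hz.2))
  have hvert : (∫ t in y..y', G (((2 * Real.pi : ℝ) : ℂ) + t * I)) =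
      ∫ t in y..y', G (((0 : ℝ) : ℂ) + t * I) := by
    apply intervalIntegral.integral_congr
    intro t ht
    have h1 := hGp (((0 : ℝ) : ℂ) + t * I) (cstrip_line_mem_hstrip (hsub ht) _ (by simp))
    simp only
    rw [← h1]
    congr 1
    push_cast
    ring
  simp only at hrect
  rw [hvert, add_sub_cancel_right, sub_eq_zero] at hrect
  exact hrect

theorem norm_lineCoef_le {F : ℂ → ℂ} {y M : ℝ} (hM : ∀ x : ℝ, ‖F (x + y * I)‖ ≤ M) (n : ℤ) :
    ‖lineCoef F n y‖ ≤ M * Real.exp (n * y) := by
  unfold lineCoef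
  have hpi := Real.pi_pos
  have h1 : ‖∫ x in (0 : ℝ)..(2 * Real.pi), F (x + y * I) * exp (-(n * I * (x + y * I)))‖ ≤
      (M * Real.exp (n * y)) * |2 * Real.pi - 0| := by
    apply intervalIntegral.norm_integral_le_of_norm_le_const
    intro x _
    rw [norm_mul, Complex.norm_exp]
    have h2 : (-((n : ℂ) * I * (x + y * I))).re = n * y := by
      simp
    rw [h2]
    exact mul_le_mul_of_nonneg_right (hM x) (Real.exp_pos _).le
  rw [sub_zero, abs_of_pos (by positivity)] at h1
  rw [norm_mul]
  have h3 : ‖(1 / (2 * Real.pi) : ℂ)‖ = 1 / (2 * Real.pi) := by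
    rw [norm_div, norm_one, norm_mul, Complex.norm_real, Real.norm_of_nonneg hpi.le]
    simp
  rw [h3]
  calc 1 / (2 * Real.pi) * _ ≤ 1 / (2 * Real.pi) * ((M * Real.exp (n * y)) * (2 * Real.pi)) :=
        mul_le_mul_of_nonneg_left h1 (by positivity)
    _ = M * Real.exp (n * y) := by field_simp

lemma cstrip_bdd_line {F : ℂ → ℂ} {a b : ℝ} (hF : ContinuousOn F (hstrip a b))
    (hper : ∀ z ∈ hstrip a b, F (z + 2 * Real.pi) = F z) {y : ℝ} (hy : a < y ∧ y < b) :
    ∃ M, ∀ x : ℝ, ‖F (x + y * I)‖ ≤ M := by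
  have hc : Continuous fun x : ℝ => F (x + y * I) := by
    refine hF.comp_continuous (by fun_prop) ?_
    intro x
    exact cstrip_line_mem_hstrip hy _ (by simp)
  have hp : Function.Periodic (fun x : ℝ => F (x + y * I)) (2 * Real.pi) := by
    intro x
    have := hper (x + y * I) (cstrip_line_mem_hstrip hy _ (by simp))
    simp only
    rw [← this]
    congr 1
    push_cast
    ring
  obtain ⟨M, hM⟩ := (isCompact_Icc (a := (0 : ℝ)) (b := 0 + 2 * Real.pi)).exists_bound_of_continuousOn
    hc.continuousOn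
  refine ⟨M, fun x => ?_⟩
  obtain ⟨x', hx', he⟩ := hp.exists_mem_Ico₀ (by positivity) x
  have he' : F (x + y * I) = F (x' + y * I) := he
  rw [he']
  exact hM x' ⟨hx'.1, by linarith [hx'.2]⟩

lemma cstrip_summable_exp_abs {ε : ℝ} (hε : 0 < ε) : Summable fun n : ℤ => Real.exp (-(ε * |(n : ℝ)|)) := by
  have h1 : Summable fun n : ℕ => Real.exp (-(ε * n)) := by
    have := Real.summable_exp_nat_mul_iff.mpr (neg_neg_of_pos hε)
    refine this.congr fun n => ?_
    congr 1
    ring
  apply Summable.of_nat_of_neg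
  · refine h1.congr fun n => ?_
    simp
  · refine h1.congr fun n => ?_
    simp

theorem hasSum_lineCoef {F : ℂ → ℂ} {a b : ℝ} (hF : DifferentiableOn ℂ F (hstrip a b))
    (hper : ∀ z ∈ hstrip a b, F (z + 2 * Real.pi) = F z) {y : ℝ} (hy : a < y ∧ y < b)
    {z : ℂ} (hz : z ∈ hstrip a b) :
    HasSum (fun n : ℤ => lineCoef F n y * exp (n * I * z)) (F z) := by
  have hzy : a < z.im ∧ z.im < b := hz
  have heq : ∀ n : ℤ, lineCoef F n y = lineCoef F n z.im := fun n => lineCoef_eq hF hper n hy hzy
  simp only [heq]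
  have hpi := Real.pi_pos
  set v := z.im with hv
  have : Fact (0 < 2 * Real.pi) := ⟨by positivity⟩
  have hc : Continuous fun x : ℝ => F (x + v * I) := by
    refine hF.continuousOn.comp_continuous (by fun_prop) ?_
    intro x
    exact cstrip_line_mem_hstrip hzy _ (by simp)
  have hp : Function.Periodic (fun x : ℝ => F (x + v * I)) (2 * Real.pi) := by
    intro x
    have := hper (x + v * I) (cstrip_line_mem_hstrip hzy _ (by simp))
    simp only
    rw [← this]
    congr 1
    push_cast
    ring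
  let f : C(AddCircle (2 * Real.pi), ℂ) := ⟨hp.lift, continuous_coinduced_dom.mpr hc⟩
  have hf : ∀ x : ℝ, f (x : AddCircle (2 * Real.pi)) = F (x + v * I) := fun x => rfl
  have hcoef : ∀ n : ℤ, lineCoef F n v = Real.exp (n * v) * fourierCoeff f n := by
    intro n
    rw [fourierCoeff_eq_intervalIntegral f n 0, zero_add, lineCoef]
    simp only [hf, fourier_coe_apply]
    have hint : (∫ x in (0 : ℝ)..(2 * Real.pi), F (x + v * I) * exp (-(n * I * (x + v * I)))) =
        ((Real.exp (n * v) : ℝ) : ℂ) * ∫ x in (0 : ℝ)..(2 * Real.pi),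
          exp (2 * Real.pi * I * ((-n : ℤ) : ℂ) * x / ((2 * Real.pi : ℝ) : ℂ)) • F (x + v * I) := by
      rw [← intervalIntegral.integral_const_mul]
      apply intervalIntegral.integral_congr
      intro x _
      simp only [smul_eq_mul]
      have h1 : exp (-((n : ℂ) * I * (x + v * I))) = ((Real.exp (n * v) : ℝ) : ℂ) *
          exp (2 * Real.pi * I * ((-n : ℤ) : ℂ) * x / ((2 * Real.pi : ℝ) : ℂ)) := by
        rw [Complex.ofReal_exp, ← Complex.exp_add]
        congr 1
        push_cast
        have : (Real.pi : ℂ) ≠ 0 := by exact_mod_cast hpi.ne'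
        field_simp
        ring_nf
        rw [Complex.I_sq]
        ring
      rw [h1]
      ring
    rw [hint, Complex.real_smul]
    push_cast
    ring
  obtain ⟨ε, hε, h1, h2⟩ : ∃ ε > 0, a < v - ε ∧ v + ε < b := by
    refine ⟨min (v - a) (b - v) / 2, ?_, ?_, ?_⟩
    · have := lt_min (sub_pos.mpr hzy.1) (sub_pos.mpr hzy.2)
      positivity
    · have := min_le_left (v - a) (b - v)
      linarith [lt_min (sub_pos.mpr hzy.1) (sub_pos.mpr hzy.2)]
    · have := min_le_right (v - a) (b - v)
      linarith [lt_min (sub_pos.mpr hzy.1) (sub_pos.mpr hzy.2)]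
  obtain ⟨M₁, hM₁⟩ := cstrip_bdd_line hF.continuousOn hper (y := v - ε) ⟨h1, by linarith⟩
  obtain ⟨M₂, hM₂⟩ := cstrip_bdd_line hF.continuousOn hper (y := v + ε) ⟨by linarith, h2⟩
  have hM₁0 : 0 ≤ M₁ := (norm_nonneg _).trans (hM₁ 0)
  have hM₂0 : 0 ≤ M₂ := (norm_nonneg _).trans (hM₂ 0)
  have hbd : ∀ n : ℤ, ‖fourierCoeff f n‖ ≤ (M₁ + M₂) * Real.exp (-(ε * |(n : ℝ)|)) := by
    intro n
    have h3 : ‖lineCoef F n v‖ = Real.exp (n * v) * ‖fourierCoeff f n‖ := by
      rw [hcoef n, norm_mul, Complex.norm_real, Real.norm_of_nonneg (Real.exp_pos _).le]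
    have h4 : ‖fourierCoeff f n‖ = Real.exp (-(n * v)) * ‖lineCoef F n v‖ := by
      rw [h3, ← mul_assoc, ← Real.exp_add]
      simp
    rw [h4]
    rcases le_or_gt 0 n with hn | hn
    · have hn' : (0 : ℝ) ≤ n := by exact_mod_cast hn
      rw [lineCoef_eq hF hper n hzy (y' := v - ε) ⟨h1, by linarith⟩]
      have h5 := norm_lineCoef_le hM₁ n
      calc Real.exp (-(n * v)) * _ ≤ Real.exp (-(n * v)) * (M₁ * Real.exp (n * (v - ε))) := by
            gcongr
        _ = M₁ * Real.exp (-(ε * |(n : ℝ)|)) := by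
            rw [abs_of_nonneg hn', mul_left_comm, ← Real.exp_add]
            congr 2
            ring
        _ ≤ _ := by
            gcongr
            linarith
    · have hn' : (n : ℝ) < 0 := by exact_mod_cast hn
      rw [lineCoef_eq hF hper n hzy (y' := v + ε) ⟨by linarith, h2⟩]
      have h5 := norm_lineCoef_le hM₂ n
      calc Real.exp (-(n * v)) * _ ≤ Real.exp (-(n * v)) * (M₂ * Real.exp (n * (v + ε))) := by
            gcongr
        _ = M₂ * Real.exp (-(ε * |(n : ℝ)|)) := by
            rw [abs_of_neg hn', mul_left_comm, ← Real.exp_add]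
            congr 2
            ring
        _ ≤ _ := by
            gcongr
            linarith
  have hsum : Summable (fourierCoeff f) :=
    Summable.of_norm_bounded ((cstrip_summable_exp_abs hε).mul_left _) hbd
  have hmain := has_pointwise_sum_fourier_series_of_summable hsum
    ((z.re : ℝ) : AddCircle (2 * Real.pi))
  rw [hf] at hmain
  have hzz : ((z.re : ℝ) : ℂ) + (v : ℂ) * I = z := by rw [hv]; exact Complex.re_add_im z
  rw [hzz] at hmain
  have hfun : (fun n : ℤ => lineCoef F n v * exp (n * I * z)) = fun n : ℤ =>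
      fourierCoeff f n • fourier n ((z.re : ℝ) : AddCircle (2 * Real.pi)) := by
    funext n
    rw [hcoef n, fourier_coe_apply, smul_eq_mul]
    have h1 : exp (2 * Real.pi * I * (n : ℂ) * (z.re : ℂ) / ((2 * Real.pi : ℝ) : ℂ)) =
        ((Real.exp (n * v) : ℝ) : ℂ) * exp (n * I * z) := by
      rw [Complex.ofReal_exp, ← Complex.exp_add]
      congr 1
      have : (Real.pi : ℂ) ≠ 0 := by exact_mod_cast hpi.ne'
      rw [show (n : ℂ) * I * z = n * I * (((z.re : ℝ) : ℂ) + (v : ℂ) * I) by rw [hzz]]
      push_cast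
      field_simp
      ring_nf
      rw [Complex.I_sq]
      ring
    rw [h1]
    ring
  rw [hfun]
  exact hmain

lemma cstrip_integral_exp_int (k : ℤ) (hk : k ≠ 0) :
    (∫ x in (0 : ℝ)..(2 * Real.pi), exp (k * I * (x : ℂ))) = 0 := by
  have hk' : (k : ℂ) * I ≠ 0 := mul_ne_zero (by exact_mod_cast hk) I_ne_zero
  rw [integral_exp_mul_complex hk']
  have h1 : (k : ℂ) * I * ((2 * Real.pi : ℝ) : ℂ) = k * (2 * Real.pi * I) := by
    push_cast; ring
  rw [h1, Complex.exp_int_mul_two_pi_mul_I]
  simp

theorem lineCoef_tsum {a : ℤ → ℂ} {y : ℝ} (ha : Summable fun m : ℤ => ‖a m‖ * Real.exp (-(m * y)))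
    (n : ℤ) : lineCoef (fun z => ∑' m : ℤ, a m * exp (m * I * z)) n y = a n := by
  have hpi := Real.pi_pos
  let f : ℤ → C(ℝ, ℂ) := fun m =>
    ⟨fun x => a m * exp (m * I * (x + y * I)) * exp (-(n * I * (x + y * I))), by fun_prop⟩
  have hnorm : ∀ m (x : ℝ), ‖f m x‖ = ‖a m‖ * Real.exp (-(m * y)) * Real.exp (n * y) := by
    intro m x
    change ‖a m * exp (m * I * (x + y * I)) * exp (-(n * I * (x + y * I)))‖ = _
    rw [norm_mul, norm_mul, Complex.norm_exp, Complex.norm_exp]
    have h1 : ((m : ℂ) * I * (x + y * I)).re = -(m * y) := by simp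
    have h2 : (-((n : ℂ) * I * (x + y * I))).re = n * y := by simp
    rw [h1, h2]
  have hs : Summable fun m : ℤ =>
      ‖(f m).restrict (⟨Set.uIcc 0 (2 * Real.pi), isCompact_uIcc⟩ : TopologicalSpace.Compacts ℝ)‖ := by
    refine Summable.of_nonneg_of_le (fun _ => norm_nonneg _) (fun m => ?_)
      (ha.mul_right (Real.exp (n * y)))
    rw [ContinuousMap.norm_le _ (by positivity)]
    intro x
    exact (hnorm m x).le
  have h1 := intervalIntegral.hasSum_intervalIntegral_of_summable_norm hs
  have h2 : ∀ m, (∫ x in (0 : ℝ)..(2 * Real.pi), f m x) = if m = n then 2 * Real.pi * a n else 0 := by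
    intro m
    have h3 : ∀ x : ℝ, f m x = (a m * exp (-(((m - n : ℤ) : ℂ) * y))) *
        exp (((m - n : ℤ) : ℂ) * I * (x : ℂ)) := by
      intro x
      change a m * exp (m * I * (x + y * I)) * exp (-(n * I * (x + y * I))) = _
      rw [mul_assoc (a m), mul_assoc (a m), ← Complex.exp_add, ← Complex.exp_add]
      congr 2
      push_cast
      ring_nf
      rw [Complex.I_sq]
      ring
    simp only [h3]
    rw [intervalIntegral.integral_const_mul]
    by_cases hmn : m = n
    · subst hmn
      simp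
      ring
    · rw [cstrip_integral_exp_int _ (sub_ne_zero.mpr hmn), if_neg hmn, mul_zero]
  have h4 := h1.unique (by
    simp only [h2]
    exact hasSum_ite_eq n (2 * Real.pi * a n))
  rw [lineCoef]
  have h5 : (∫ x in (0 : ℝ)..(2 * Real.pi), (∑' m : ℤ, a m * exp (m * I * (x + y * I))) *
      exp (-(n * I * (x + y * I)))) = ∫ x in (0 : ℝ)..(2 * Real.pi), ∑' m : ℤ, f m x := by
    apply intervalIntegral.integral_congr
    intro x _
    simp only
    rw [← tsum_mul_right]
    rfl
  rw [h5, h4]
  have : (Real.pi : ℂ) ≠ 0 := by exact_mod_cast hpi.ne'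
  field_simp

/-- Holomorphic dependence on a parameter of an integral over a compact interval. -/
lemma cstrip_differentiableAt_param {Φ : ℂ → ℝ → ℂ} {U : Set ℂ} (hU : IsOpen U)
    (hc : ∀ w ∈ U, ∀ x : ℝ, ContinuousAt (fun p : ℂ × ℝ => Φ p.1 p.2) (w, x))
    (hd : ∀ w ∈ U, ∀ x : ℝ, DifferentiableAt ℂ (fun v => Φ v x) w) {A B : ℝ} {w₀ : ℂ}
    (hw₀ : w₀ ∈ U) : DifferentiableAt ℂ (fun w => ∫ x in A..B, Φ w x) w₀ := by
  obtain ⟨R, hR, hball⟩ := Metric.isOpen_iff.mp hU w₀ hw₀
  set r := R / 3 with hr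
  have hr0 : 0 < r := by positivity
  have hcl : Metric.closedBall w₀ (2 * r) ⊆ U :=
    (Metric.closedBall_subset_ball (by rw [hr]; linarith)).trans hball
  have hK : IsCompact (Metric.closedBall w₀ (2 * r) ×ˢ Set.uIcc A B) :=
    (isCompact_closedBall _ _).prod isCompact_uIcc
  obtain ⟨M, hM⟩ := hK.exists_bound_of_continuousOn (f := fun p : ℂ × ℝ => Φ p.1 p.2)
    (fun p hp => (hc p.1 (hcl hp.1) p.2).continuousWithinAt)
  have hcx : ∀ w ∈ U, Continuous (Φ w) := by
    intro w hw
    rw [continuous_iff_continuousAt]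
    intro x
    exact ContinuousAt.comp (f := fun x : ℝ => (w, x)) (hc w hw x) (by fun_prop)
  have hsub : ∀ w ∈ Metric.ball w₀ r, Metric.closedBall w r ⊆ Metric.closedBall w₀ (2 * r) := by
    intro w hw z hz
    rw [Metric.mem_closedBall] at hz ⊢
    rw [Metric.mem_ball] at hw
    linarith [dist_triangle z w w₀]
  have hself : ∀ w ∈ Metric.ball w₀ r, w ∈ U := fun w hw =>
    hcl (hsub w hw (Metric.mem_closedBall_self hr0.le))
  refine (intervalIntegral.hasDerivAt_integral_of_dominated_loc_of_deriv_le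
    (F' := fun w x => deriv (fun v => Φ v x) w) (bound := fun _ => M / r)
    (Metric.ball_mem_nhds w₀ hr0) ?_ ?_ ?_ ?_ ?_ ?_).2.differentiableAt
  · filter_upwards [hU.mem_nhds hw₀] with w hw
    exact (hcx w hw).aestronglyMeasurable
  · exact (hcx w₀ hw₀).intervalIntegrable _ _
  · -- measurability of the derivative: limit of difference quotients
    let h : ℕ → ℂ := fun k => ((r / (k + 2) : ℝ) : ℂ)
    have hpos : ∀ k : ℕ, 0 < r / ((k : ℝ) + 2) := fun k => by positivity
    have hlt : ∀ k : ℕ, r / ((k : ℝ) + 2) < r := by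
      intro k
      rw [div_lt_iff₀ (by positivity)]
      nlinarith [(Nat.cast_nonneg k : (0 : ℝ) ≤ k)]
    have hmem : ∀ k, w₀ + h k ∈ U := by
      intro k
      apply hself
      rw [Metric.mem_ball, dist_self_add_left, Complex.norm_real, Real.norm_of_nonneg (hpos k).le]
      exact hlt k
    have hlim : Filter.Tendsto h Filter.atTop (nhdsWithin 0 {0}ᶜ) := by
      rw [tendsto_nhdsWithin_iff]
      constructor
      · have : Filter.Tendsto (fun k : ℕ => r / ((k : ℝ) + 2)) Filter.atTop (nhds 0) := by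
          apply Filter.Tendsto.div_atTop tendsto_const_nhds
          exact Filter.tendsto_atTop_add_const_right _ _ tendsto_natCast_atTop_atTop
        have h2 := (Complex.continuous_ofReal.tendsto 0).comp this
        rw [Complex.ofReal_zero] at h2
        exact h2
      · exact Filter.Eventually.of_forall fun k => by
          simp only [Set.mem_compl_iff, Set.mem_singleton_iff, h]
          exact_mod_cast (hpos k).ne'
    refine aestronglyMeasurable_of_tendsto_ae (Filter.atTop : Filter ℕ)
      (f := fun k x => (h k)⁻¹ • (Φ (w₀ + h k) x - Φ w₀ x)) ?_ ?_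
    · intro k
      have hcc : Continuous fun x : ℝ => (h k)⁻¹ • (Φ (w₀ + h k) x - Φ w₀ x) :=
        ((hcx _ (hmem k)).sub (hcx _ hw₀)).const_smul (h k)⁻¹
      exact hcc.aestronglyMeasurable
    · refine Filter.Eventually.of_forall fun x => ?_
      have h1 := (hd w₀ hw₀ x).hasDerivAt
      rw [hasDerivAt_iff_tendsto_slope_zero] at h1
      exact h1.comp hlim
  · refine Filter.Eventually.of_forall fun x hx w hw => ?_
    apply Complex.norm_deriv_le_of_forall_mem_sphere_norm_le hr0
    · apply DifferentiableOn.diffContOnCl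
      rw [closure_ball _ hr0.ne']
      intro z hz
      exact (hd z (hcl (hsub w hw hz)) x).differentiableWithinAt
    · intro z hz
      exact hM (z, x) ⟨hsub w hw (Metric.sphere_subset_closedBall hz), Set.uIoc_subset_uIcc hx⟩
  · exact intervalIntegrable_const
  · refine Filter.Eventually.of_forall fun x _ w hw => ?_
    exact (hd w (hself w hw) x).hasDerivAt

theorem differentiableOn_lineCoef {F : ℂ → ℂ → ℂ} {U : Set ℂ} (hU : IsOpen U) {y : ℝ} (n : ℤ)
    (hF : ∀ ϖ ∈ U, ∀ x : ℝ, DifferentiableAt ℂ (fun p : ℂ × ℂ => F p.1 p.2) (ϖ, x + y * I)) :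
    DifferentiableOn ℂ (fun ϖ => lineCoef (F ϖ) n y) U := by
  intro w hw
  apply DifferentiableAt.differentiableWithinAt
  unfold lineCoef
  apply DifferentiableAt.const_mul
  apply cstrip_differentiableAt_param hU ?_ ?_ hw
  · intro v hv x
    apply ContinuousAt.mul
    · exact ContinuousAt.comp (f := fun p : ℂ × ℝ => (p.1, (p.2 : ℂ) + y * I)) (x := (v, x))
        (hF v hv x).continuousAt (by fun_prop)
    · fun_prop
  · intro v hv x
    apply DifferentiableAt.mul_const
    exact DifferentiableAt.comp (f := fun u : ℂ => (u, (x : ℂ) + y * I)) v (hF v hv x)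
      (by fun_prop)

end LSB
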