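import Pool.Agent.LSB.CJou
import Pool.Agent.LSB.CStrip

/-!
# Part C: the abstract data

`c ϖ α` is `cos α₀` as a function of the bounce angle `α` (shifted by an imaginary constant) and of `ϖ=π·(rotation number)`,
where `α₀` is the shifted Lazutkin coordinate.
-/

namespace LSB

open Complex

/-- Abstract data of an elliptic billiard near rotation number zero. -/
structure CData where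
  Y : ℝ
  Y₁ : ℝ
  Y₂ : ℝ
  r₀ : ℝ
  C₀ : ℝ
  c : ℂ → ℂ → ℂ
  Y_pos : 0 < Y
  Y_lt : Y < Y₁
  Y₁_lt : Y₁ < Y₂
  Y₂_lt : Y₂ < 2 * Y
  r₀_pos : 0 < r₀
  r₀_le : r₀ ≤ 1 / 4
  r₀_le' : 4 * r₀ ≤ Y
  C₀_nonneg : 0 ≤ C₀
  diff : DifferentiableOn ℂ (fun p : ℂ × ℂ => c p.1 p.2) {p : ℂ × ℂ | ‖p.1‖ < r₀ ∧ |p.2.im| < Y₁}
  zero : ∀ α : ℂ, |α.im| < Y₁ → c 0 α = cos α
  even₁ : ∀ ϖ α : ℂ, ‖ϖ‖ < r₀ → |α.im| < Y₁ → c (-ϖ) α = c ϖ α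
  even₂ : ∀ ϖ α : ℂ, ‖ϖ‖ < r₀ → |α.im| < Y₁ → c ϖ (-α) = c ϖ α
  shift : ∀ ϖ α : ℂ, ‖ϖ‖ < r₀ → |α.im| < Y₁ → c ϖ (α + Real.pi) = -c ϖ α
  conj : ∀ ϖ α : ℂ, ‖ϖ‖ < r₀ → |α.im| < Y₁ →
    c (starRingEnd ℂ ϖ) (starRingEnd ℂ α) = starRingEnd ℂ (c ϖ α)
  diag : ∀ ϖ : ℂ, ‖ϖ‖ < r₀ → c ϖ ϖ = 1
  quad : ∀ ϖ α : ℂ, ‖ϖ‖ < r₀ → |α.im| < Y₁ → ‖c ϖ α - cos α‖ ≤ C₀ * ‖ϖ‖ ^ 2
  im_le : ∀ ϖ α : ℂ, ‖ϖ‖ < r₀ → |α.im| < Y₁ → c ϖ α ∈ segm 1 → |α.im| ≤ 9 / 8 * |ϖ.im|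
  loc : ∀ ϖ α : ℂ, ‖ϖ‖ < r₀ → ‖α‖ < r₀ → 0 < ϖ.im → 3 / 4 * ϖ.im ≤ α.im → α.re < 0 →
    3 / 2 * (-ϖ.re * ϖ.im) ≤ -α.re * α.im → c ϖ α ∉ segm 1
  range : ∀ ϖ α : ℂ, ‖ϖ‖ < r₀ → |α.im| < Y₁ → c ϖ α ∈ Ell Y₂

namespace CData

variable (D : CData)

/-- `X D n m ϖ y`: the `n`-th coefficient (in `α`, on the line `Im α = y`) of the `m`-th
exponential in `α₀`. -/
noncomputable def X (n m : ℤ) (ϖ : ℂ) (y : ℝ) : ℂ :=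
  lineCoef (fun α => Jou (D.c ϖ α) ^ m) n y

/-- Sequences `s m` (the Fourier coefficients in `α₀`) annihilated at all `ϖ = π p / n`. -/
def Vanish (η : ℝ) (s : ℤ → ℂ) : Prop :=
  ∀ n p : ℕ, 0 < p → (p : ℝ) ≤ η * n →
    ∑' m : ℤ, s m * D.X n m (Real.pi * p / n) D.Y = 0

end CData

end LSB
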