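import Pool.Agent.LSB.Defs

/-!
# Part C, module CZeros: a Schwarz lemma with many symmetric real zeros

Paper proof.  Induction on `m`, for all `f`.  `m=0`: maximum principle (`Complex.norm_le_of_forall_mem_frontier_norm_le`).
Step: `f(w)=(w²-z_0²)g(w)` with `g` differentiable on the same open ball `|w|<R'` (divide by `w-z_0` and by `w+z_0` with
`dslope`, or removable singularities).  On `|w|=R`: `|w²-z_0²|≥R²-z_0²≥(3/4)R²`, so `|g|≤M/((3/4)R²)`.  For `i≥1`
`g(±z_i)=0` as `z_i²≠z_0²`.  Induction for `g` and the shifted family: `|f 0|=z_0²|g 0|≤(R²/4)·M/((3/4)R²)·3^{-(m-1)}`.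
-/

namespace LSB

open Metric

theorem norm_le_of_symmetric_zeros {f : ℂ → ℂ} {R R' M : ℝ} (hR : 0 < R) (hRR' : R < R')
    (hf : DifferentiableOn ℂ f (ball 0 R')) (hM : ∀ z : ℂ, ‖z‖ = R → ‖f z‖ ≤ M)
    (m : ℕ) (z : ℕ → ℝ) (hz : Set.InjOn z (Set.Iio m)) (hz0 : ∀ i < m, 0 < z i)
    (hz1 : ∀ i < m, z i ≤ R / 2) (hf0 : ∀ i < m, f (z i) = 0) (hf1 : ∀ i < m, f (-(z i)) = 0) :
    ‖f 0‖ ≤ M * (1 / 3) ^ m := by
  induction m generalizing f M with
  | zero =>
    have h1 : DiffContOnCl ℂ f (ball 0 R) :=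
      hf.diffContOnCl_ball (closedBall_subset_ball hRR')
    rw [pow_zero, mul_one]
    refine Complex.norm_le_of_forall_mem_frontier_norm_le isBounded_ball h1 (fun w hw => ?_)
      (subset_closure (mem_ball_self hR))
    rw [frontier_ball _ hR.ne', mem_sphere_zero_iff_norm] at hw
    exact hM w hw
  | succ m ih =>
    set a : ℂ := (z m : ℂ) with ha
    have hzm := hz0 m (Nat.lt_succ_self m)
    have hzm1 := hz1 m (Nat.lt_succ_self m)
    have ha0 : a ≠ 0 := by
      rw [ha, Ne, Complex.ofReal_eq_zero]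
      exact hzm.ne'
    have hna : ‖a‖ = z m := by rw [ha, Complex.norm_real, Real.norm_of_nonneg hzm.le]
    have haR : a ∈ ball (0 : ℂ) R' := by
      rw [mem_ball_zero_iff, hna]
      linarith
    have haR2 : -a ∈ ball (0 : ℂ) R' := by
      rw [mem_ball_zero_iff, norm_neg, hna]
      linarith
    have hfa : f a = 0 := hf0 m (Nat.lt_succ_self m)
    have hfa' : f (-a) = 0 := hf1 m (Nat.lt_succ_self m)
    have hd1 : DifferentiableOn ℂ (dslope f a) (ball 0 R') :=
      (Complex.differentiableOn_dslope (isOpen_ball.mem_nhds haR)).2 hf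
    have hd2 : DifferentiableOn ℂ (dslope (dslope f a) (-a)) (ball 0 R') :=
      (Complex.differentiableOn_dslope (isOpen_ball.mem_nhds haR2)).2 hd1
    have e1 : ∀ w, f w = (w - a) * dslope f a w := by
      intro w
      have h := sub_smul_dslope f a w
      rw [hfa, sub_zero, smul_eq_mul] at h
      exact h.symm
    have e0 : dslope f a (-a) = 0 := by
      have h := e1 (-a)
      rw [hfa'] at h
      have h2 : -a - a ≠ 0 := by
        rw [show -a - a = -(2 * a) by ring]
        exact neg_ne_zero.2 (mul_ne_zero two_ne_zero ha0)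
      exact (mul_eq_zero.1 h.symm).resolve_left h2
    have e2 : ∀ w, f w = (w ^ 2 - a ^ 2) * dslope (dslope f a) (-a) w := by
      intro w
      have h := sub_smul_dslope (dslope f a) (-a) w
      rw [e0, sub_zero, smul_eq_mul] at h
      rw [e1 w, ← h]
      ring
    set g := dslope (dslope f a) (-a) with hg
    have hM0 : 0 ≤ M := by
      refine (norm_nonneg _).trans (hM (R : ℂ) ?_)
      rw [Complex.norm_real, Real.norm_of_nonneg hR.le]
    have hzsq : z m ^ 2 ≤ R ^ 2 / 4 := by
      calc z m ^ 2 ≤ (R / 2) ^ 2 := by gcongr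
        _ = R ^ 2 / 4 := by ring
    have hgM : ∀ w : ℂ, ‖w‖ = R → ‖g w‖ ≤ M / (3 / 4 * R ^ 2) := by
      intro w hw
      have h1 := hM w hw
      rw [e2 w, norm_mul] at h1
      have h2 : 3 / 4 * R ^ 2 ≤ ‖w ^ 2 - a ^ 2‖ := by
        have h3 := norm_sub_norm_le (w ^ 2) (a ^ 2)
        rw [norm_pow, norm_pow, hw, hna] at h3
        linarith
      rw [le_div_iff₀ (by positivity)]
      calc ‖g w‖ * (3 / 4 * R ^ 2) ≤ ‖g w‖ * ‖w ^ 2 - a ^ 2‖ := by gcongr
        _ = ‖w ^ 2 - a ^ 2‖ * ‖g w‖ := mul_comm _ _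
        _ ≤ M := h1
    have hne : ∀ i < m, (z i : ℂ) ^ 2 - a ^ 2 ≠ 0 := by
      intro i hi h
      have h1 : (z i : ℂ) ^ 2 - a ^ 2 = ((z i ^ 2 - z m ^ 2 : ℝ) : ℂ) := by
        rw [ha]
        push_cast
        ring
      rw [h1, Complex.ofReal_eq_zero] at h
      have h2 : z i = z m := by
        have h3 : (z i - z m) * (z i + z m) = 0 := by linarith
        rcases mul_eq_zero.1 h3 with h4 | h4
        · linarith
        · have := hz0 i (by omega)
          linarith
      have h5 := hz (show i ∈ Set.Iio (m + 1) from (by simp only [Set.mem_Iio]; omega))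
        (show m ∈ Set.Iio (m + 1) from (by simp only [Set.mem_Iio]; omega)) h2
      omega
    have hih := ih (f := g) (M := M / (3 / 4 * R ^ 2)) hd2 hgM
      (hz.mono (Set.Iio_subset_Iio (Nat.le_succ m))) (fun i hi => hz0 i (by omega))
      (fun i hi => hz1 i (by omega))
      (fun i hi => by
        have h := e2 (z i)
        rw [hf0 i (by omega)] at h
        exact (mul_eq_zero.1 h.symm).resolve_left (hne i hi))
      (fun i hi => by
        have h := e2 (-(z i))
        rw [hf1 i (by omega), neg_sq] at h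
        exact (mul_eq_zero.1 h.symm).resolve_left (hne i hi))
    rw [e2 0, norm_mul]
    have h0 : ‖(0 : ℂ) ^ 2 - a ^ 2‖ = z m ^ 2 := by
      rw [zero_pow two_ne_zero, zero_sub, norm_neg, norm_pow, hna]
    rw [h0]
    calc z m ^ 2 * ‖g 0‖ ≤ (R ^ 2 / 4) * (M / (3 / 4 * R ^ 2) * (1 / 3) ^ m) := by gcongr
      _ = M * (1 / 3) ^ (m + 1) := by
        have h3 : R ^ 2 / 4 * (M / (3 / 4 * R ^ 2)) = M * (1 / 3) := by
          field_simp
        rw [← mul_assoc, h3]
        ring

end LSB
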