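import Pool.Agent.LSB.CTwist
import Pool.Agent.LSB.CZeros

/-!
# Part C, module CDecay: without poles the coefficients decay exponentially

Paper proof.  Let `gh=gfun s` on `Ell(2Y)∖segm 1`, `=g₁` on `ball 1 ρ`, `=g₂` on `ball(-1)ρ` (`ρ<1`): well defined and differentiable on
`Ell(2Y)∖segm(1-ρ/2)` (`Ell(2Y)∩ball ⊂`; shrink `ρ` so the balls are inside `Ell(2Y)`).  (a) There are `C₁,r` with: `‖ϖ‖<r`, `|Im α|<Y₁`,
`c ϖ α∈segm(1-ρ/2)` imply `|Im α|≤C₁‖ϖ‖²`: by `quad`, `cos α=w+O(‖ϖ‖²)` with `w` real, `|w|≤1-ρ/2`; `|cos α|²=cos²x+sinh²y≤(1-ρ/4)²`, so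
`|sin x|≥c`, and `|sin x sinh y|=|Im cos α|≤C₀‖ϖ‖²`.  (b) For `‖ϖ‖≤R` (small) shift the line in `St` from `Y` down to `y=2C₁R²` (`lineCoef_eq`
for the function `gh∘c ϖ`, differentiable on `C₁R²<Im α<Y₁`; on `Im α=Y` it is `gfun s∘c ϖ`): with
`M=sup{|gh(c ϖ α)| : ‖ϖ‖≤R, Im α=2C₁R²}<∞` (compactness), `‖St n ϖ‖≤M e^{2C₁R²n}`.  (c) `norm_le_of_symmetric_zeros` with the zeros
`πp/n`, `p≤⌊nR/(2π)⌋` (`St_vanish`, `R≤2πη'`): `‖s n‖=‖St n 0‖≤3M exp(n(2C₁R²-R log 3/(2π)))`; take `R` small.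
-/

namespace LSB

open Complex Metric

variable {D : CData} {η : ℝ} {s : ℤ → ℂ}

/-- step (a): the shifted segment is only reached close to the real axis -/
theorem cdecay_a (D : CData) {δ : ℝ} (hδ : 0 < δ) (hδ1 : δ ≤ 1) {ϖ α : ℂ} (hϖ : ‖ϖ‖ < D.r₀)
    (hα : |α.im| < D.Y₁) (hsmall : D.C₀ * ‖ϖ‖ ^ 2 ≤ δ / 2) (hc : D.c ϖ α ∈ segm (1 - δ)) :
    |α.im| ≤ 2 * D.C₀ / δ * ‖ϖ‖ ^ 2 := by
  have hq := D.quad ϖ α hϖ hα
  obtain ⟨h1, h2⟩ := hc
  set w := D.c ϖ α with hw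
  have hre : |(cos α).re| ≤ 1 - δ / 2 := by
    have h3 : |(w - cos α).re| ≤ ‖w - cos α‖ := Complex.abs_re_le_norm _
    rw [Complex.sub_re] at h3
    have h4 : |(cos α).re| ≤ |w.re| + |w.re - (cos α).re| := by
      have := abs_sub_abs_le_abs_sub (cos α).re w.re
      rw [abs_sub_comm] at this
      linarith
    linarith
  have him : |(cos α).im| ≤ D.C₀ * ‖ϖ‖ ^ 2 := by
    have h3 : |(w - cos α).im| ≤ ‖w - cos α‖ := Complex.abs_im_le_norm _
    rw [Complex.sub_im, h1, zero_sub, abs_neg] at h3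
    exact h3.trans hq
  rw [cos_re', abs_mul, abs_of_pos (Real.cosh_pos _)] at hre
  rw [cos_im', abs_neg, abs_mul] at him
  have hcos : |Real.cos α.re| ≤ 1 - δ / 2 := by
    refine le_trans ?_ hre
    exact le_mul_of_one_le_right (abs_nonneg _) (Real.one_le_cosh _)
  have hcos2 : Real.cos α.re ^ 2 ≤ (1 - δ / 2) ^ 2 := by
    rw [← sq_abs]
    exact pow_le_pow_left₀ (abs_nonneg _) hcos 2
  have hsin : δ / 2 ≤ |Real.sin α.re| := by
    have h5 := Real.sin_sq_add_cos_sq α.re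
    have h6 := Real.abs_sin_le_one α.re
    have h7 : Real.sin α.re ^ 2 ≤ |Real.sin α.re| := by
      rw [← sq_abs]
      nlinarith [abs_nonneg (Real.sin α.re)]
    nlinarith
  have hsinh : |α.im| ≤ |Real.sinh α.im| := by
    rw [Real.abs_sinh]
    exact Real.self_le_sinh_iff.2 (abs_nonneg _)
  have h8 : δ / 2 * |α.im| ≤ D.C₀ * ‖ϖ‖ ^ 2 := by
    refine le_trans ?_ him
    exact mul_le_mul hsin hsinh (abs_nonneg _) (abs_nonneg _)
  rw [div_mul_eq_mul_div, le_div_iff₀ hδ]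
  linarith

theorem cdecay_Ell_mono {a b : ℝ} (ha : 0 < a) (hab : a ≤ b) : Ell a ⊆ Ell b := by
  intro w hw
  have h1 : Real.cosh a ≤ Real.cosh b := by
    rw [Real.cosh_le_cosh, abs_of_pos ha, abs_of_pos (ha.trans_le hab)]
    exact hab
  have h2 : ‖w - 1‖ + ‖w + 1‖ < 2 * Real.cosh a := hw
  show ‖w - 1‖ + ‖w + 1‖ < 2 * Real.cosh b
  linarith

theorem exp_decay (hη : 0 < η) (hs : InV D η s) {ρ : ℝ} (hρ : 0 < ρ) {g₁ g₂ : ℂ → ℂ}
    (hg₁ : DifferentiableOn ℂ g₁ (ball 1 ρ)) (hg₂ : DifferentiableOn ℂ g₂ (ball (-1) ρ))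
    (h₁ : ∀ w ∈ ball (1 : ℂ) ρ \ segm 1, gfun s w = g₁ w)
    (h₂ : ∀ w ∈ ball (-1 : ℂ) ρ \ segm 1, gfun s w = g₂ w) :
    ∃ κ > 0, ∃ A : ℝ, ∀ m : ℕ, ‖s m‖ ≤ A * Real.exp (-(κ * m)) := by
  classical
  have hY := D.Y_pos
  have hY2 : (0 : ℝ) < 2 * D.Y := by linarith
  -- shrink `ρ`
  obtain ⟨ρ₁, hρ₁, hρ₁ρ, hρ₁1⟩ : ∃ ρ₁ : ℝ, 0 < ρ₁ ∧ ρ₁ ≤ ρ ∧ ρ₁ ≤ 1 :=
    ⟨min ρ 1, lt_min hρ one_pos, min_le_left _ _, min_le_right _ _⟩
  set gh : ℂ → ℂ := fun w => if w ∈ ball (1 : ℂ) ρ₁ then g₁ w else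
    if w ∈ ball (-1 : ℂ) ρ₁ then g₂ w else gfun s w with hgh
  have hdisj : ∀ w : ℂ, w ∈ ball (-1 : ℂ) ρ₁ → w ∉ ball (1 : ℂ) ρ₁ := by
    intro w hw hw'
    rw [mem_ball, dist_eq_norm] at hw hw'
    have h3 : ‖(2 : ℂ)‖ ≤ ‖w - -1‖ + ‖w - 1‖ := by
      have : (2 : ℂ) = (w - -1) - (w - 1) := by ring
      rw [this]
      exact norm_sub_le _ _
    rw [Complex.norm_two] at h3
    linarith
  have hgh1 : ∀ w ∈ ball (1 : ℂ) ρ₁, gh w = g₁ w := fun w hw => by simp only [hgh]; rw [if_pos hw]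
  have hgh2 : ∀ w ∈ ball (-1 : ℂ) ρ₁, gh w = g₂ w := fun w hw => by
    simp only [hgh]
    rw [if_neg (hdisj w hw), if_pos hw]
  have hgh3 : ∀ w : ℂ, w ∉ segm 1 → gh w = gfun s w := by
    intro w hw
    simp only [hgh]
    split_ifs with h3 h4
    · exact (h₁ w ⟨ball_subset_ball hρ₁ρ h3, hw⟩).symm
    · exact (h₂ w ⟨ball_subset_ball hρ₁ρ h4, hw⟩).symm
    · rfl
  set δ := ρ₁ / 2 with hδ
  have hδ0 : 0 < δ := half_pos hρ₁
  have hδ1 : δ ≤ 1 := by linarith
  have hghd : ∀ w ∈ Ell (2 * D.Y), w ∉ segm (1 - δ) → DifferentiableAt ℂ gh w := by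
    intro w hw hw'
    by_cases hw1 : w ∈ segm 1
    · obtain ⟨h3, h4⟩ := hw1
      have h5 : 1 - δ < |w.re| := by
        by_contra hcon
        exact hw' ⟨h3, not_lt.1 hcon⟩
      rcases le_total 0 w.re with h6 | h6
      · have hb : w ∈ ball (1 : ℂ) ρ₁ := by
          rw [mem_ball, dist_eq_norm]
          have : w - 1 = ((w.re - 1 : ℝ) : ℂ) := Complex.ext (by simp) (by simp [h3])
          rw [this, Complex.norm_real, Real.norm_eq_abs, abs_lt]
          rw [abs_of_nonneg h6] at h4 h5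
          constructor <;> linarith
        have h7 : gh =ᶠ[nhds w] g₁ :=
          Filter.eventuallyEq_of_mem (isOpen_ball.mem_nhds hb) hgh1
        exact h7.symm.differentiableAt_iff.1 (hg₁.differentiableAt
          (isOpen_ball.mem_nhds (ball_subset_ball hρ₁ρ hb)))
      · have hb : w ∈ ball (-1 : ℂ) ρ₁ := by
          rw [mem_ball, dist_eq_norm]
          have : w - -1 = ((w.re + 1 : ℝ) : ℂ) := Complex.ext (by simp) (by simp [h3])
          rw [this, Complex.norm_real, Real.norm_eq_abs, abs_lt]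
          rw [abs_of_nonpos h6] at h4 h5
          constructor <;> linarith
        have h7 : gh =ᶠ[nhds w] g₂ :=
          Filter.eventuallyEq_of_mem (isOpen_ball.mem_nhds hb) hgh2
        exact h7.symm.differentiableAt_iff.1 (hg₂.differentiableAt
          (isOpen_ball.mem_nhds (ball_subset_ball hρ₁ρ hb)))
    · have hopen : IsOpen (Ell (2 * D.Y) \ segm 1) := (isOpen_Ell _).sdiff (isClosed_segm 1)
      have h7 : gh =ᶠ[nhds w] gfun s :=
        Filter.eventuallyEq_of_mem (hopen.mem_nhds ⟨hw, hw1⟩) fun v hv => hgh3 v hv.2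
      exact h7.symm.differentiableAt_iff.1
        ((gfun_differentiableOn hs).differentiableAt (hopen.mem_nhds ⟨hw, hw1⟩))
  -- constants
  obtain ⟨η', hη', hvan⟩ := St_vanish hη hs
  have hC₀ := D.C₀_nonneg
  set C₁ := 2 * D.C₀ / δ + 1 with hC₁
  have hC₁pos : 1 ≤ C₁ := by
    have : 0 ≤ 2 * D.C₀ / δ := by positivity
    linarith
  have hpi := Real.pi_pos
  obtain ⟨R, hR0, hR1, hR2, hR3, hR4, hR5⟩ : ∃ R : ℝ, 0 < R ∧ R ≤ D.r₀ / 2 ∧
      D.C₀ * R ^ 2 ≤ δ / 2 ∧ 2 * C₁ * R ^ 2 < D.Y ∧ R ≤ 2 * Real.pi * η' ∧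
      8 * Real.pi * C₁ * R ≤ 1 := by
    have hr₀ := D.r₀_pos
    have hden : 0 < 8 * Real.pi * C₁ := by positivity
    set R := min (min (D.r₀ / 2) (1 / (8 * Real.pi * C₁)))
      (min (2 * Real.pi * η') (min (δ / (2 * (D.C₀ + 1))) (D.Y / (4 * C₁)))) with hRdef
    have e0 : 0 < R := by
      rw [hRdef]
      refine lt_min (lt_min (by linarith) (by positivity))
        (lt_min (by positivity) (lt_min (by positivity) (by positivity)))
    have e1 : R ≤ D.r₀ / 2 := (min_le_left _ _).trans (min_le_left _ _)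
    have e2 : R ≤ 1 / (8 * Real.pi * C₁) := (min_le_left _ _).trans (min_le_right _ _)
    have e3 : R ≤ 2 * Real.pi * η' := (min_le_right _ _).trans (min_le_left _ _)
    have e4 : R ≤ δ / (2 * (D.C₀ + 1)) :=
      (min_le_right _ _).trans ((min_le_right _ _).trans (min_le_left _ _))
    have e5 : R ≤ D.Y / (4 * C₁) :=
      (min_le_right _ _).trans ((min_le_right _ _).trans (min_le_right _ _))
    have e6 : R ≤ 1 := by linarith [D.r₀_le]
    refine ⟨R, e0, e1, ?_, ?_, e3, ?_⟩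
    · have h3 : R ^ 2 ≤ R := by nlinarith
      rw [le_div_iff₀ (by positivity)] at e4
      nlinarith
    · have h3 : R ^ 2 ≤ R := by nlinarith
      rw [le_div_iff₀ (by positivity)] at e5
      nlinarith
    · rw [le_div_iff₀ hden] at e2
      linarith
  set y₀ := 2 * C₁ * R ^ 2 with hy₀
  have hy₀pos : 0 < y₀ := by positivity
  have hRr₀ : R < D.r₀ := by linarith [D.r₀_pos]
  -- the values of `c` avoid the shifted segment
  have hav : ∀ ϖ α : ℂ, ‖ϖ‖ ≤ R → C₁ * R ^ 2 < α.im → α.im < D.Y₁ →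
      D.c ϖ α ∈ Ell (2 * D.Y) ∧ D.c ϖ α ∉ segm (1 - δ) := by
    intro ϖ α hϖ h3 h4
    have h5 : 0 < C₁ * R ^ 2 := by positivity
    have hab : |α.im| < D.Y₁ := by rw [abs_of_pos (h5.trans h3)]; exact h4
    have hϖ' : ‖ϖ‖ < D.r₀ := lt_of_le_of_lt hϖ hRr₀
    have hsq : ‖ϖ‖ ^ 2 ≤ R ^ 2 := pow_le_pow_left₀ (norm_nonneg _) hϖ 2
    refine ⟨cdecay_Ell_mono (by linarith [D.Y_lt, D.Y₁_lt]) D.Y₂_lt.le (D.range ϖ α hϖ' hab), ?_⟩
    intro hc
    have h6 := cdecay_a D hδ0 hδ1 hϖ' hab (le_trans (by gcongr) hR2) hc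
    rw [abs_of_pos (h5.trans h3)] at h6
    have h7 : 2 * D.C₀ / δ * ‖ϖ‖ ^ 2 ≤ C₁ * R ^ 2 := by
      have h8 : 2 * D.C₀ / δ ≤ C₁ := by rw [hC₁]; linarith
      have h9 : 0 ≤ 2 * D.C₀ / δ := by positivity
      exact mul_le_mul h8 hsq (sq_nonneg _) (by linarith)
    linarith
  have hopenU : IsOpen {p : ℂ × ℂ | ‖p.1‖ < D.r₀ ∧ |p.2.im| < D.Y₁} :=
    (isOpen_lt continuous_fst.norm continuous_const).inter
      (isOpen_lt (Complex.continuous_im.comp continuous_snd).abs continuous_const)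
  have hcd : ∀ ϖ α : ℂ, ‖ϖ‖ < D.r₀ → |α.im| < D.Y₁ →
      DifferentiableAt ℂ (fun p : ℂ × ℂ => D.c p.1 p.2) (ϖ, α) := fun ϖ α h3 h4 =>
    D.diff.differentiableAt (hopenU.mem_nhds ⟨h3, h4⟩)
  have hY₁ : y₀ < D.Y₁ := hR3.trans D.Y_lt
  have hCR : C₁ * R ^ 2 < y₀ := by
    have : 0 < C₁ * R ^ 2 := by positivity
    rw [hy₀]; linarith
  -- `St` on the low line
  have hSt : ∀ (n : ℤ) (ϖ : ℂ), ‖ϖ‖ ≤ R →
      St D s n ϖ = lineCoef (fun α => gh (D.c ϖ α)) n y₀ := by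
    intro n ϖ hϖ
    have hϖ' : ‖ϖ‖ < D.r₀ := lt_of_le_of_lt hϖ hRr₀
    have e1 : St D s n ϖ = lineCoef (fun α => gh (D.c ϖ α)) n D.Y := by
      unfold St lineCoef
      congr 2
      funext x
      have h3 : D.c ϖ (x + D.Y * I) ∉ segm 1 := by
        apply D.c_notMem hϖ'
        · have h4 : |ϖ.im| ≤ ‖ϖ‖ := Complex.abs_im_le_norm _
          have h5 : ((x : ℂ) + D.Y * I).im = D.Y := by simp
          rw [h5]
          linarith [D.r₀_le']
        · simpa using D.Y_lt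
      show gfun s (D.c ϖ (x + D.Y * I)) * _ = gh (D.c ϖ (x + D.Y * I)) * _
      rw [hgh3 _ h3]
    rw [e1]
    apply lineCoef_eq (a := C₁ * R ^ 2) (b := D.Y₁)
    · intro α hα
      have hα0 : 0 < α.im := lt_trans (by positivity) hα.1
      obtain ⟨h3, h4⟩ := hav ϖ α hϖ hα.1 hα.2
      have h5 : DifferentiableAt ℂ (D.c ϖ) α := by
        have h6 := hcd ϖ α hϖ' (by rw [abs_of_pos hα0]; exact hα.2)
        exact h6.comp α ((differentiableAt_const ϖ).prodMk differentiableAt_id)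
      exact ((hghd _ h3 h4).comp α h5).differentiableWithinAt
    · intro α hα
      have hα0 : 0 < α.im := lt_trans (by positivity) hα.1
      show gh (D.c ϖ (α + 2 * Real.pi)) = gh (D.c ϖ α)
      rw [D.c_periodic hϖ' (by rw [abs_of_pos hα0]; exact hα.2)]
    · exact ⟨by linarith, D.Y_lt⟩
    · exact ⟨hCR, hY₁⟩
  -- a uniform bound
  obtain ⟨M, hM⟩ : ∃ M : ℝ, ∀ ϖ : ℂ, ‖ϖ‖ ≤ R → ∀ x : ℝ, ‖gh (D.c ϖ (x + y₀ * I))‖ ≤ M := by
    have hcomp : IsCompact (closedBall (0 : ℂ) R ×ˢ Set.Icc (0 : ℝ) (2 * Real.pi)) :=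
      (isCompact_closedBall _ _).prod isCompact_Icc
    have hcont : ContinuousOn (fun p : ℂ × ℝ => gh (D.c p.1 (p.2 + y₀ * I)))
        (closedBall (0 : ℂ) R ×ˢ Set.Icc (0 : ℝ) (2 * Real.pi)) := by
      rintro ⟨ϖ, x⟩ ⟨hϖ, -⟩
      rw [mem_closedBall_zero_iff] at hϖ
      have him : ((x : ℂ) + y₀ * I).im = y₀ := by simp
      obtain ⟨h3, h4⟩ := hav ϖ (x + y₀ * I) hϖ (by rw [him]; exact hCR) (by rw [him]; exact hY₁)
      have h5 := (hcd ϖ (x + y₀ * I) (lt_of_le_of_lt hϖ hRr₀)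
        (by rw [him, abs_of_pos hy₀pos]; exact hY₁)).continuousAt
      have h6 : ContinuousAt (fun p : ℂ × ℝ => ((p.1, (p.2 : ℂ) + y₀ * I) : ℂ × ℂ)) (ϖ, x) := by
        apply Continuous.continuousAt
        fun_prop
      have h7 : ContinuousAt (fun p : ℂ × ℝ => D.c p.1 (p.2 + y₀ * I)) (ϖ, x) :=
        ContinuousAt.comp (f := fun p : ℂ × ℝ => ((p.1, (p.2 : ℂ) + y₀ * I) : ℂ × ℂ))
          (g := fun p : ℂ × ℂ => D.c p.1 p.2) h5 h6
      exact (ContinuousAt.comp (f := fun p : ℂ × ℝ => D.c p.1 (p.2 + y₀ * I)) (g := gh)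
        (hghd _ h3 h4).continuousAt h7).continuousWithinAt
    obtain ⟨M, hM⟩ := hcomp.exists_bound_of_continuousOn hcont
    refine ⟨M, fun ϖ hϖ x => ?_⟩
    have hper : Function.Periodic (fun x : ℝ => gh (D.c ϖ (x + y₀ * I))) (2 * Real.pi) := by
      intro x
      have him : ((x : ℂ) + y₀ * I).im = y₀ := by simp
      have h3 := D.c_periodic (lt_of_le_of_lt hϖ hRr₀) (α := (x : ℂ) + y₀ * I)
        (by rw [him, abs_of_pos hy₀pos]; exact hY₁)
      simp only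
      rw [← h3]
      congr 2
      push_cast
      ring
    obtain ⟨x', hx', hxx'⟩ := hper.exists_mem_Ico₀ (by positivity) x
    have h4 := hM (ϖ, x') ⟨by rw [mem_closedBall_zero_iff]; exact hϖ, Set.Ico_subset_Icc_self hx'⟩
    simp only at hxx' h4
    rw [hxx']
    exact h4
  have hM0 : 0 ≤ M := (norm_nonneg _).trans (hM 0 (by rw [norm_zero]; exact hR0.le) 0)
  have hlog3 : 1 < Real.log 3 := by
    rw [Real.lt_log_iff_exp_lt (by norm_num)]
    exact Real.exp_one_lt_three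
  refine ⟨R * Real.log 3 / (2 * Real.pi) - y₀, ?_, 3 * M + ‖s 0‖, ?_⟩
  · have h3 : y₀ ≤ R / (4 * Real.pi) := by
      rw [le_div_iff₀ (by positivity), hy₀]
      nlinarith
    have h4 : R / (2 * Real.pi) < R * Real.log 3 / (2 * Real.pi) := by
      apply div_lt_div_of_pos_right _ (by positivity)
      nlinarith
    have h5 : R / (4 * Real.pi) < R / (2 * Real.pi) := by
      apply div_lt_div_of_pos_left hR0 (by positivity)
      linarith
    linarith
  · intro n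
    rcases Nat.eq_zero_or_pos n with rfl | hn
    · simp only [Nat.cast_zero, mul_zero, neg_zero, Real.exp_zero, mul_one]
      linarith
    have hn0 : (0 : ℝ) < n := by exact_mod_cast hn
    set m := ⌊(n : ℝ) * R / (2 * Real.pi)⌋₊ with hm
    have hmle : (m : ℝ) ≤ (n : ℝ) * R / (2 * Real.pi) := Nat.floor_le (by positivity)
    have hmgt : (n : ℝ) * R / (2 * Real.pi) < m + 1 := Nat.lt_floor_add_one _
    have hz := norm_le_of_symmetric_zeros (f := St D s n) (R := R) (R' := D.r₀)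
      (M := M * Real.exp (n * y₀)) hR0 hRr₀ (St_differentiableOn hs n)
      (fun z hz => by
        rw [hSt n z hz.le]
        have := norm_lineCoef_le (F := fun α => gh (D.c z α)) (y := y₀) (M := M)
          (fun x => hM z hz.le x) n
        simpa using this)
      m (fun i => Real.pi * ((i + 1 : ℕ) : ℝ) / n)
      (by
        intro i _ j _ hij
        simp only at hij
        rw [div_left_inj' hn0.ne'] at hij
        have := mul_left_cancel₀ hpi.ne' hij
        have h3 : i + 1 = j + 1 := by exact_mod_cast this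
        omega)
      (fun i _ => by positivity)
      (fun i hi => by
        have h3 : ((i + 1 : ℕ) : ℝ) ≤ m := by exact_mod_cast hi
        rw [div_le_iff₀ hn0]
        have h4 : ((i + 1 : ℕ) : ℝ) * (2 * Real.pi) ≤ n * R := by
          rw [← le_div_iff₀ (by positivity)]
          exact h3.trans hmle
        nlinarith)
      (fun i hi => by
        have h3 : ((i + 1 : ℕ) : ℝ) ≤ m := by exact_mod_cast hi
        have h5 : ((i + 1 : ℕ) : ℝ) ≤ η' * n := by
          refine (h3.trans hmle).trans ?_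
          rw [div_le_iff₀ (by positivity)]
          nlinarith
        have := (hvan n (i + 1) (by omega) h5).1
        rw [← this]
        congr 1
        push_cast
        ring)
      (fun i hi => by
        have h3 : ((i + 1 : ℕ) : ℝ) ≤ m := by exact_mod_cast hi
        have h5 : ((i + 1 : ℕ) : ℝ) ≤ η' * n := by
          refine (h3.trans hmle).trans ?_
          rw [div_le_iff₀ (by positivity)]
          nlinarith
        have := (hvan n (i + 1) (by omega) h5).2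
        rw [← this]
        congr 1
        push_cast
        ring)
    rw [St_zero hs] at hz
    have h3 : ((1 : ℝ) / 3) ^ m ≤ 3 * Real.exp (-(R * Real.log 3 / (2 * Real.pi) * n)) := by
      have h4 : ((1 : ℝ) / 3) ^ m = Real.exp (-(Real.log 3 * m)) := by
        rw [Real.exp_neg, mul_comm, Real.exp_nat_mul, Real.exp_log (by norm_num), one_div, inv_pow]
      have h5 : (3 : ℝ) = Real.exp (Real.log 3) := (Real.exp_log (by norm_num)).symm
      have h6 : 3 * Real.exp (-(R * Real.log 3 / (2 * Real.pi) * n)) =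
          Real.exp (Real.log 3 + -(R * Real.log 3 / (2 * Real.pi) * n)) := by
        rw [Real.exp_add, ← h5]
      rw [h4, h6, Real.exp_le_exp]
      have h7 : R * Real.log 3 / (2 * Real.pi) * n = Real.log 3 * (n * R / (2 * Real.pi)) := by
        ring
      rw [h7]
      nlinarith
    calc ‖s n‖ ≤ M * Real.exp (n * y₀) * (1 / 3) ^ m := hz
      _ ≤ M * Real.exp (n * y₀) * (3 * Real.exp (-(R * Real.log 3 / (2 * Real.pi) * n))) := by
          gcongr
      _ = 3 * M * (Real.exp (n * y₀) * Real.exp (-(R * Real.log 3 / (2 * Real.pi) * n))) := by ring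
      _ = 3 * M * Real.exp (-((R * Real.log 3 / (2 * Real.pi) - y₀) * n)) := by
          rw [← Real.exp_add]
          congr 2
          ring
      _ ≤ _ := by
          apply mul_le_mul_of_nonneg_right _ (Real.exp_pos _).le
          linarith [norm_nonneg (s 0)]

end LSB
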