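import Pool.Agent.LSB.CDecay

/-!
# Part C, module CEven: symmetry of the coefficients

Paper proof.  `u(z)=∑ s m e^{imz}` converges absolutely and is differentiable on `-κ<Im z<2Y` (positive part by decay, negative
part by `neg`).  For `Im z>0` small, `z` near `0`: `u(z)=gfun s(cos z)=g₁(cos z)`.  Both sides are differentiable near `0`, so
`u(z)=g₁(cos z)` near `0`, hence `u(-z)=u(z)` near `0`, hence on the strip `|Im z|<min(κ,2Y)` (connected).  Uniqueness of Fourier
coefficients on the real line (`lineCoef_tsum` with `y=0` for `u(z)` and `u(-z)`): `s(-m)=s m`.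
-/

namespace LSB

open Complex Metric

variable {D : CData} {η : ℝ} {s : ℤ → ℂ}

namespace CEv

lemma norm_exp_line (m : ℤ) (z : ℂ) : ‖exp (m * I * z)‖ = Real.exp (-(m * z.im)) := by
  rw [Complex.norm_exp]
  congr 1
  simp [Complex.mul_re, Complex.mul_im]

lemma summable_maj {s : ℤ → ℂ} {κ κ' κ₂ A A' : ℝ} (h1 : κ₂ < κ) (h2 : κ₂ < κ')
    (hA : ∀ m : ℕ, ‖s m‖ ≤ A * Real.exp (-(κ * m)))
    (hA' : ∀ m : ℕ, ‖s (-m)‖ ≤ A' * Real.exp (-(m * κ'))) :
    Summable fun m : ℤ => ‖s m‖ * Real.exp (|(m : ℝ)| * κ₂) := by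
  refine Summable.of_nat_of_neg ?_ ?_
  · have hr : Summable fun n : ℕ => A * (Real.exp (κ₂ - κ)) ^ n :=
      (summable_geometric_of_lt_one (Real.exp_pos _).le
        (by rw [Real.exp_lt_one_iff]; linarith)).mul_left A
    refine Summable.of_nonneg_of_le (fun n => by positivity) (fun n => ?_) hr
    calc ‖s (n : ℤ)‖ * Real.exp (|((n : ℤ) : ℝ)| * κ₂)
        ≤ A * Real.exp (-(κ * n)) * Real.exp (|((n : ℤ) : ℝ)| * κ₂) := by
          gcongr
          exact hA n
      _ = A * (Real.exp (κ₂ - κ)) ^ n := by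
          rw [← Real.exp_nat_mul, mul_assoc, ← Real.exp_add]
          congr 2
          push_cast
          rw [abs_of_nonneg (by positivity)]
          ring
  · have hr : Summable fun n : ℕ => A' * (Real.exp (κ₂ - κ')) ^ n :=
      (summable_geometric_of_lt_one (Real.exp_pos _).le
        (by rw [Real.exp_lt_one_iff]; linarith)).mul_left A'
    refine Summable.of_nonneg_of_le (fun n => by positivity) (fun n => ?_) hr
    calc ‖s (-(n : ℤ))‖ * Real.exp (|((-(n : ℤ) : ℤ) : ℝ)| * κ₂)
        ≤ A' * Real.exp (-(n * κ')) * Real.exp (|((-(n : ℤ) : ℤ) : ℝ)| * κ₂) := by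
          gcongr
          exact hA' n
      _ = A' * (Real.exp (κ₂ - κ')) ^ n := by
          rw [← Real.exp_nat_mul, mul_assoc, ← Real.exp_add]
          congr 2
          push_cast
          rw [abs_neg, abs_of_nonneg (by positivity)]
          ring

lemma isOpen_hstrip (a b : ℝ) : IsOpen (hstrip a b) :=
  (isOpen_lt continuous_const Complex.continuous_im).inter
    (isOpen_lt Complex.continuous_im continuous_const)

lemma convex_hstrip (a b : ℝ) : Convex ℝ (hstrip a b) := by
  have h1 : Convex ℝ {z : ℂ | a < z.im} := convex_halfSpace_im_gt a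
  have h2 : Convex ℝ {z : ℂ | z.im < b} := convex_halfSpace_im_lt b
  exact h1.inter h2

end CEv

open CEv in
theorem coeff_even (hη : 0 < η) (hs : InV D η s) {ρ : ℝ} (hρ : 0 < ρ) {g₁ g₂ : ℂ → ℂ}
    (hg₁ : DifferentiableOn ℂ g₁ (ball 1 ρ)) (hg₂ : DifferentiableOn ℂ g₂ (ball (-1) ρ))
    (h₁ : ∀ w ∈ ball (1 : ℂ) ρ \ segm 1, gfun s w = g₁ w)
    (h₂ : ∀ w ∈ ball (-1 : ℂ) ρ \ segm 1, gfun s w = g₂ w) (m : ℤ) : s (-m) = s m := by
  obtain ⟨κ, hκ, A, hA⟩ := exp_decay hη hs hρ hg₁ hg₂ h₁ h₂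
  have hY := D.Y_pos
  obtain ⟨A', hA'⟩ := hs.neg D.Y (by linarith)
  have hmin : 0 < min κ D.Y := lt_min hκ hY
  obtain ⟨κ₂, hκ₂, hκ₂1, hκ₂2⟩ : ∃ κ₂ > 0, κ₂ < κ ∧ κ₂ < D.Y := by
    refine ⟨min κ D.Y / 2, by linarith, ?_, ?_⟩
    · linarith [min_le_left κ D.Y]
    · linarith [min_le_right κ D.Y]
  have hv := summable_maj hκ₂1 hκ₂2 hA hA'
  set u : ℂ → ℂ := fun z => ∑' m : ℤ, s m * exp (m * I * z) with hu
  set S := hstrip (-κ₂) κ₂ with hS
  have hSo : IsOpen S := isOpen_hstrip _ _
  have hd : DifferentiableOn ℂ u S := by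
    apply differentiableOn_tsum_of_summable_norm hv _ hSo
    · intro m z hz
      rw [norm_mul, norm_exp_line]
      apply mul_le_mul_of_nonneg_left _ (norm_nonneg _)
      apply Real.exp_le_exp.2
      have h3 : |z.im| ≤ κ₂ := by
        rw [abs_le]
        exact ⟨hz.1.le, hz.2.le⟩
      calc -((m : ℝ) * z.im) ≤ |(m : ℝ) * z.im| := neg_le_abs _
        _ = |(m : ℝ)| * |z.im| := abs_mul _ _
        _ ≤ |(m : ℝ)| * κ₂ := mul_le_mul_of_nonneg_left h3 (abs_nonneg _)
    · intro m
      fun_prop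
  have hneg : ∀ z ∈ S, -z ∈ S := by
    intro z hz
    constructor
    · rw [Complex.neg_im]; linarith [hz.2]
    · rw [Complex.neg_im]; linarith [hz.1]
  have hd' : DifferentiableOn ℂ (fun z => u (-z)) S :=
    hd.comp (differentiable_neg.differentiableOn) hneg
  -- near zero
  have hcos : ContinuousAt Complex.cos 0 := Complex.continuous_cos.continuousAt
  have hnear : ∀ᶠ z in nhds (0 : ℂ), cos z ∈ ball (1 : ℂ) ρ := by
    have := hcos.tendsto
    rw [Complex.cos_zero] at this
    exact this.eventually (ball_mem_nhds 1 hρ)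
  have h0S : (0 : ℂ) ∈ S := ⟨by simpa using hκ₂, by simpa using hκ₂⟩
  have hnear2 : ∀ᶠ z in nhds (0 : ℂ), z ∈ S := hSo.mem_nhds h0S
  obtain ⟨r, hr, hball⟩ := Metric.eventually_nhds_iff_ball.1 (hnear.and hnear2)
  have hg : DifferentiableOn ℂ (fun z => g₁ (cos z)) (ball 0 r) :=
    hg₁.comp Complex.differentiable_cos.differentiableOn (fun z hz => (hball z hz).1)
  have hd0 : DifferentiableOn ℂ u (ball 0 r) := hd.mono fun z hz => (hball z hz).2
  have hup : ∀ z ∈ ball (0 : ℂ) r, 0 < z.im → u z = g₁ (cos z) := by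
    intro z hz hz0
    have h3 := (hball z hz).2
    have h4 := gfun_hasSum_cos hs hz0 (by linarith [h3.2])
    have h5 := h₁ (cos z) ⟨(hball z hz).1, cos_notMem_segm hz0⟩
    rw [← h5]
    exact h4.tsum_eq
  have hz₀ : ((r / 2 : ℝ) : ℂ) * I ∈ ball (0 : ℂ) r := by
    rw [mem_ball_zero_iff, norm_mul, Complex.norm_I, mul_one, Complex.norm_real,
      Real.norm_of_nonneg (by positivity)]
    linarith
  have heq : Set.EqOn u (fun z => g₁ (cos z)) (ball 0 r) := by
    apply (hd0.analyticOnNhd isOpen_ball).eqOn_of_preconnected_of_eventuallyEq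
      (hg.analyticOnNhd isOpen_ball) (convex_ball _ _).isPreconnected hz₀
    have h3 : ∀ᶠ z in nhds (((r / 2 : ℝ) : ℂ) * I), 0 < z.im := by
      apply (isOpen_lt continuous_const Complex.continuous_im).mem_nhds
      simp
      positivity
    filter_upwards [h3, isOpen_ball.mem_nhds hz₀] with z hz hz'
    exact hup z hz' hz
  have hsym0 : ∀ z ∈ ball (0 : ℂ) r, u (-z) = u z := by
    intro z hz
    have hz' : -z ∈ ball (0 : ℂ) r := by
      rw [mem_ball_zero_iff, norm_neg]
      rwa [mem_ball_zero_iff] at hz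
    rw [heq hz', heq hz]
    simp only [Complex.cos_neg]
  have hsym : Set.EqOn (fun z => u (-z)) u S := by
    apply (hd'.analyticOnNhd hSo).eqOn_of_preconnected_of_eventuallyEq
      (hd.analyticOnNhd hSo) (convex_hstrip _ _).isPreconnected h0S
    filter_upwards [isOpen_ball.mem_nhds (mem_ball_self hr : (0 : ℂ) ∈ ball 0 r)] with z hz
    exact hsym0 z hz
  -- Fourier coefficients on the real line
  have hsum0 : Summable fun m : ℤ => ‖s m‖ * Real.exp (-(m * 0)) := by
    refine Summable.of_nonneg_of_le (fun n => by positivity) (fun n => ?_) hv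
    apply mul_le_mul_of_nonneg_left _ (norm_nonneg _)
    apply Real.exp_le_exp.2
    rw [mul_zero, neg_zero]
    positivity
  have hsum1 : Summable fun m : ℤ => ‖s (-m)‖ * Real.exp (-(m * 0)) := by
    have h3 := (Equiv.neg ℤ).summable_iff.2 hsum0
    refine h3.congr fun m => ?_
    simp
  have e1 := lineCoef_tsum hsum0 m
  have e2 := lineCoef_tsum hsum1 m
  have e3 : (fun z : ℂ => ∑' m : ℤ, s (-m) * exp (m * I * z)) = fun z => u (-z) := by
    funext z
    simp only [hu]
    rw [← (Equiv.neg ℤ).tsum_eq]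
    apply tsum_congr
    intro n
    simp only [Equiv.neg_apply, neg_neg]
    congr 2
    push_cast
    ring
  rw [e3] at e2
  rw [← e1, ← e2]
  unfold lineCoef
  congr 1
  apply intervalIntegral.integral_congr
  intro x _
  simp only [Complex.ofReal_zero, zero_mul, add_zero]
  have hx : (x : ℂ) ∈ S := ⟨by simpa using hκ₂, by simpa using hκ₂⟩
  have := hsym hx
  simp only at this
  rw [this]

end LSB
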