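import Pool.Agent.LSB.COsgood

/-!
# Part C, module CHExt: extension by the maximum principle for Taylor coefficients

Paper proof.  `A_k(ϖ)=(1/2πi)∮_{|ψ-ψ₁|=ρ₀/2}F ϖ ψ (ψ-ψ₁)^{-k-1}dψ` is differentiable on `|ϖ-w₀|<3δ/2` (`hϖ` + continuity; differentiate
under the integral, or `osgood`), and `F ϖ ψ=∑A_k(ϖ)(ψ-ψ₁)^k` on the disc of radius `κδ+κ|Im(ϖ-w₀)|`.  The set
`E={|ϖ-w₀|≤δ, |ψ-ψ₁|≤κδ+κ|Im(ϖ-w₀)|-κδ/10}` is compact in the domain; let `M=sup_E|F|`.  For `|ϖ-w₀|=δ`, `x=|Im(ϖ-w₀)|/δ∈[0,1]`,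
Cauchy's estimate gives `|A_k(ϖ)|(κδ)^k≤M(1+x-1/10)^{-k}≤M exp(-k(log(1+x)+log(9/10)))`.  Let
`B_k(ϖ)=A_k(ϖ)(κδ)^k exp(-(k/3)((ϖ-w₀)/δ)²)`; on the circle `Re((ϖ-w₀)/δ)²=1-2x²`, so
`|B_k|≤M exp(-k[log(1+x)+log(9/10)+1/3-(2/3)x²])≤M e^{-k/5}`, because `log(1+x)≥x log 2≥(2/3)x≥(2/3)x²` and
`1/3+log(9/10)≥1/5` (`log(10/9)≤1/9`).  By the maximum principle `|B_k|≤Me^{-k/5}` on the disc, so for
`|ϖ-w₀|<ρ`, `ρ≤δ/4`: `|A_k(ϖ)|(κδ)^k≤M e^{-k/5+k/48}≤M e^{-k/6}`.  Hence `G(ϖ,ψ)=∑A_k(ϖ)(ψ-ψ₁)^k` converges locally uniformly for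
`|ϖ-w₀|<δ/4`, `|ψ-ψ₁|<κδe^{1/6}`, and is differentiable (`differentiableOn_tsum_two`).  Take `ρ=min(δ/4, κδ(e^{1/6}-1))`.
-/

namespace LSB

open Metric

/-- Elementary inequality used on the circle. -/
private theorem exp_quad_le {x : ℝ} (hx0 : 0 ≤ x) (hx1 : x ≤ 1) :
    Real.exp (-(1 / 3) * (1 - 2 * x ^ 2)) ≤ Real.exp (-(1 / 5)) * (9 / 10 + x) := by
  have h1 : Real.exp (2 / 3 * x ^ 2) ≤ 1 + x := by
    have h2 : Real.exp (2 / 3 * x ^ 2) ≤ Real.exp (Real.log 2 * x) := by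
      apply Real.exp_le_exp.mpr
      have := Real.log_two_gt_d9
      nlinarith [mul_nonneg hx0 (sub_nonneg.mpr hx1)]
    have h3 : Real.exp (Real.log 2 * x) = (1 + 1 : ℝ) ^ x := by
      rw [Real.rpow_def_of_pos (by norm_num)]
      norm_num
    have h4 : (1 + 1 : ℝ) ^ x ≤ 1 + x * 1 :=
      rpow_one_add_le_one_add_mul_self (by norm_num) hx0 hx1
    rw [h3] at h2
    exact h2.trans (h4.trans (by linarith))
  have h5 : Real.exp (-(2 / 15)) ≤ 9 / 10 := by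
    have h6 : (2 / 15 : ℝ) + 1 ≤ Real.exp (2 / 15) := Real.add_one_le_exp _
    rw [Real.exp_neg]
    calc (Real.exp (2 / 15))⁻¹ ≤ ((2 / 15 : ℝ) + 1)⁻¹ := inv_anti₀ (by norm_num) h6
      _ ≤ 9 / 10 := by norm_num
  have h7 : Real.exp (-(1 / 3) * (1 - 2 * x ^ 2)) =
      Real.exp (-(1 / 5)) * (Real.exp (-(2 / 15)) * Real.exp (2 / 3 * x ^ 2)) := by
    rw [← Real.exp_add, ← Real.exp_add]
    congr 1
    ring
  rw [h7]
  apply mul_le_mul_of_nonneg_left _ (Real.exp_pos _).le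
  calc Real.exp (-(2 / 15)) * Real.exp (2 / 3 * x ^ 2) ≤ 9 / 10 * (1 + x) :=
        mul_le_mul h5 h1 (Real.exp_pos _).le (by norm_num)
    _ ≤ 9 / 10 + x := by linarith

theorem hartogs_ext {w₀ ψ₁ : ℂ} {δ κ ρ₀ : ℝ} (hδ : 0 < δ) (hκ : 0 < κ) (hρ₀ : 0 < ρ₀)
    (hρ₀' : ρ₀ < κ * δ) {F : ℂ → ℂ → ℂ}
    (hc : ContinuousOn (fun p : ℂ × ℂ => F p.1 p.2)
      {p : ℂ × ℂ | ‖p.1 - w₀‖ < 3 / 2 * δ ∧ ‖p.2 - ψ₁‖ < κ * δ + κ * |(p.1 - w₀).im|})
    (hψ : ∀ ϖ : ℂ, ‖ϖ - w₀‖ < 3 / 2 * δ →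
      DifferentiableOn ℂ (F ϖ) (ball ψ₁ (κ * δ + κ * |(ϖ - w₀).im|)))
    (hϖ : ∀ ψ ∈ ball ψ₁ ρ₀, DifferentiableOn ℂ (fun ϖ => F ϖ ψ) (ball w₀ (3 / 2 * δ))) :
    ∃ ρ > 0, ∃ G : ℂ × ℂ → ℂ,
      DifferentiableOn ℂ G {p : ℂ × ℂ | ‖p.1 - w₀‖ < ρ ∧ ‖p.2 - ψ₁‖ < κ * δ + ρ} ∧
      ∀ ϖ ψ : ℂ, ‖ϖ - w₀‖ < ρ → ‖ψ - ψ₁‖ < ρ₀ → G (ϖ, ψ) = F ϖ ψ := by
  have hκδ : 0 < κ * δ := mul_pos hκ hδ
  -- joint differentiability on the small polydisc
  set U : Set (ℂ × ℂ) := {p | ‖p.1 - w₀‖ < 3 / 2 * δ ∧ ‖p.2 - ψ₁‖ < ρ₀} with hUdef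
  have hU : IsOpen U :=
    (isOpen_lt (f := fun p : ℂ × ℂ => ‖p.1 - w₀‖) (g := fun _ => 3 / 2 * δ)
      (by fun_prop) (by fun_prop)).inter
    (isOpen_lt (f := fun p : ℂ × ℂ => ‖p.2 - ψ₁‖) (g := fun _ => ρ₀) (by fun_prop) (by fun_prop))
  have hUsub : U ⊆ {p : ℂ × ℂ | ‖p.1 - w₀‖ < 3 / 2 * δ ∧
      ‖p.2 - ψ₁‖ < κ * δ + κ * |(p.1 - w₀).im|} := by
    rintro p ⟨h1, h2⟩
    refine ⟨h1, ?_⟩
    have : 0 ≤ κ * |(p.1 - w₀).im| := mul_nonneg hκ.le (abs_nonneg _)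
    linarith
  have hF0 : DifferentiableOn ℂ (fun p : ℂ × ℂ => F p.1 p.2) U := by
    apply osgood hU (hc.mono hUsub)
    · rintro p ⟨h1, h2⟩
      have := hϖ p.2 (by rw [mem_ball, dist_eq_norm]; exact h2)
      exact this.differentiableAt (isOpen_ball.mem_nhds (by rw [mem_ball, dist_eq_norm]; exact h1))
    · rintro p hp
      have h3 := hUsub hp
      have := hψ p.1 hp.1
      exact this.differentiableAt
        (isOpen_ball.mem_nhds (by rw [mem_ball, dist_eq_norm]; exact h3.2))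
  have hFk : ∀ k : ℕ, DifferentiableOn ℂ (fun p : ℂ × ℂ => iteratedDeriv k (F p.1) p.2) U := by
    intro k
    induction k with
    | zero => simpa using hF0
    | succ k ih =>
      have := differentiableOn_partial_snd hU ih
      simpa [iteratedDeriv_succ] using this
  have ha : ∀ k : ℕ, DifferentiableOn ℂ (fun ϖ => iteratedDeriv k (F ϖ) ψ₁)
      (ball w₀ (3 / 2 * δ)) := by
    intro k
    have h1 : DifferentiableOn ℂ (fun ϖ : ℂ => ((ϖ, ψ₁) : ℂ × ℂ)) (ball w₀ (3 / 2 * δ)) :=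
      (differentiable_id.prodMk (differentiable_const _)).differentiableOn
    have h2 := (hFk k).comp h1 (by
      intro ϖ hw
      rw [mem_ball, dist_eq_norm] at hw
      exact ⟨hw, by simpa using hρ₀⟩)
    exact h2
  -- the bound M
  obtain ⟨M, hM⟩ : ∃ M : ℝ, ∀ p : ℂ × ℂ, ‖p.1 - w₀‖ ≤ δ →
      ‖p.2 - ψ₁‖ ≤ κ * δ + κ * |(p.1 - w₀).im| - κ * δ / 10 → ‖F p.1 p.2‖ ≤ M := by
    set E : Set (ℂ × ℂ) := {p | ‖p.1 - w₀‖ ≤ δ ∧
      ‖p.2 - ψ₁‖ ≤ κ * δ + κ * |(p.1 - w₀).im| - κ * δ / 10} with hE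
    have hEc : IsCompact E := by
      apply Metric.isCompact_of_isClosed_isBounded
      · exact (isClosed_le (f := fun p : ℂ × ℂ => ‖p.1 - w₀‖) (g := fun _ => δ)
          (by fun_prop) (by fun_prop)).inter
          (isClosed_le (f := fun p : ℂ × ℂ => ‖p.2 - ψ₁‖)
            (g := fun p => κ * δ + κ * |(p.1 - w₀).im| - κ * δ / 10) (by fun_prop)
            (((continuous_const.add (continuous_const.mul
              (continuous_abs.comp (Complex.continuous_im.comp (by fun_prop))))).sub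
                continuous_const)))
      · rw [Metric.isBounded_iff_subset_closedBall ((w₀, ψ₁) : ℂ × ℂ)]
        refine ⟨max δ (κ * δ + κ * δ), ?_⟩
        rintro p ⟨h1, h2⟩
        rw [mem_closedBall, Prod.dist_eq, dist_eq_norm, dist_eq_norm]
        apply max_le_max h1
        have h3 : |(p.1 - w₀).im| ≤ δ := (Complex.abs_im_le_norm _).trans h1
        have h4 := mul_le_mul_of_nonneg_left h3 hκ.le
        linarith
    have hEsub : E ⊆ {p : ℂ × ℂ | ‖p.1 - w₀‖ < 3 / 2 * δ ∧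
        ‖p.2 - ψ₁‖ < κ * δ + κ * |(p.1 - w₀).im|} := by
      rintro p ⟨h1, h2⟩
      exact ⟨by linarith, by linarith⟩
    obtain ⟨M, hM⟩ := hEc.exists_bound_of_continuousOn (hc.mono hEsub)
    exact ⟨M, fun p h1 h2 => hM p ⟨h1, h2⟩⟩
  have hM0 : 0 ≤ M := by
    have := hM (w₀, ψ₁) (by simpa using hδ.le) (by simp; linarith)
    exact (norm_nonneg _).trans this
  -- Taylor coefficients
  set A : ℕ → ℂ → ℂ := fun k ϖ => (k.factorial : ℂ)⁻¹ * iteratedDeriv k (F ϖ) ψ₁ with hA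
  have hAd : ∀ k, DifferentiableOn ℂ (A k) (ball w₀ (3 / 2 * δ)) := fun k =>
    (ha k).const_mul _
  -- Cauchy's estimate on the circle
  have hcauchy : ∀ (k : ℕ) (ϖ : ℂ), ‖ϖ - w₀‖ = δ →
      ‖A k ϖ‖ * (κ * δ) ^ k * (9 / 10 + |(ϖ - w₀).im| / δ) ^ k ≤ M := by
    intro k ϖ hw
    set x := |(ϖ - w₀).im| / δ with hx
    have hx0 : 0 ≤ x := by positivity
    have hR : 0 < κ * δ * (9 / 10 + x) := by positivity
    have hRx : κ * δ * (9 / 10 + x) = κ * δ + κ * |(ϖ - w₀).im| - κ * δ / 10 := by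
      rw [hx]
      field_simp
      ring
    have hd : DiffContOnCl ℂ (F ϖ) (ball ψ₁ (κ * δ * (9 / 10 + x))) := by
      apply DifferentiableOn.diffContOnCl
      apply (hψ ϖ (by rw [hw]; linarith)).mono
      rw [closure_ball _ hR.ne']
      apply closedBall_subset_ball
      rw [hRx]
      linarith
    have h1 := Complex.norm_iteratedDeriv_le_of_forall_mem_sphere_norm_le k hR hd (C := M) (by
      intro z hz
      rw [mem_sphere, dist_eq_norm] at hz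
      exact hM (ϖ, z) hw.le (by rw [← hRx]; exact hz.le))
    have h2 : ‖A k ϖ‖ ≤ M / (κ * δ * (9 / 10 + x)) ^ k := by
      rw [hA]
      simp only [norm_mul, norm_inv, Complex.norm_natCast]
      have hk : (0 : ℝ) < k.factorial := by exact_mod_cast k.factorial_pos
      calc ((k.factorial : ℝ))⁻¹ * ‖iteratedDeriv k (F ϖ) ψ₁‖
          ≤ ((k.factorial : ℝ))⁻¹ * (k.factorial * M / (κ * δ * (9 / 10 + x)) ^ k) :=
            mul_le_mul_of_nonneg_left h1 (by positivity)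
        _ = M / (κ * δ * (9 / 10 + x)) ^ k := by field_simp
    calc ‖A k ϖ‖ * (κ * δ) ^ k * (9 / 10 + x) ^ k
        = ‖A k ϖ‖ * (κ * δ * (9 / 10 + x)) ^ k := by rw [mul_pow (κ * δ)]; ring
      _ ≤ M / (κ * δ * (9 / 10 + x)) ^ k * (κ * δ * (9 / 10 + x)) ^ k :=
          mul_le_mul_of_nonneg_right h2 (by positivity)
      _ = M := by field_simp
  -- maximum principle
  have hmax : ∀ (k : ℕ) (ϖ : ℂ), ‖ϖ - w₀‖ ≤ δ →
      ‖A k ϖ * ((κ * δ : ℝ) : ℂ) ^ k * Complex.exp (-(k / 3) * ((ϖ - w₀) / δ) ^ 2)‖ ≤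
        M * Real.exp (-(1 / 5)) ^ k := by
    intro k ϖ hw
    have hdB : DiffContOnCl ℂ (fun ϖ => A k ϖ * ((κ * δ : ℝ) : ℂ) ^ k *
        Complex.exp (-(k / 3) * ((ϖ - w₀) / δ) ^ 2)) (ball w₀ δ) := by
      apply DifferentiableOn.diffContOnCl
      rw [closure_ball _ hδ.ne']
      have hsub : closedBall w₀ δ ⊆ ball w₀ (3 / 2 * δ) := closedBall_subset_ball (by linarith)
      apply DifferentiableOn.mul
      · exact ((hAd k).mono hsub).mul_const _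
      · apply Differentiable.differentiableOn
        fun_prop
    apply Complex.norm_le_of_forall_mem_frontier_norm_le isBounded_ball hdB (U := ball w₀ δ)
    · intro z hz
      rw [frontier_ball _ hδ.ne', mem_sphere, dist_eq_norm] at hz
      rw [norm_mul, norm_mul, norm_pow, Complex.norm_real, Real.norm_of_nonneg hκδ.le,
        Complex.norm_exp]
      set x := |(z - w₀).im| / δ with hx
      have hx0 : 0 ≤ x := by positivity
      have hx1 : x ≤ 1 := by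
        rw [hx, div_le_one hδ, ← hz]
        exact Complex.abs_im_le_norm _
      have hre : (-((k : ℂ) / 3) * ((z - w₀) / δ) ^ 2).re = k * (-(1 / 3) * (1 - 2 * x ^ 2)) := by
        have h1 : ((z - w₀).re) ^ 2 + ((z - w₀).im) ^ 2 = δ ^ 2 := by
          rw [← hz, ← Complex.normSq_eq_norm_sq, Complex.normSq_apply]; ring
        have h2 : x ^ 2 = ((z - w₀).im) ^ 2 / δ ^ 2 := by
          rw [hx, div_pow, sq_abs]
        have h3 : (-((k : ℂ) / 3) * ((z - w₀) / δ) ^ 2) =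
            ((-(k / 3) / δ ^ 2 : ℝ) : ℂ) * (z - w₀) ^ 2 := by
          push_cast
          have : (δ : ℂ) ≠ 0 := by exact_mod_cast hδ.ne'
          field_simp
        rw [h3, Complex.re_ofReal_mul, h2, sq (z - w₀), Complex.mul_re]
        have h4 : (z - w₀).re * (z - w₀).re = δ ^ 2 - ((z - w₀).im) ^ 2 := by linarith
        rw [h4]
        field_simp
        ring
      rw [hre, Real.exp_nat_mul]
      have hq := exp_quad_le hx0 hx1
      calc ‖A k z‖ * (κ * δ) ^ k * Real.exp (-(1 / 3) * (1 - 2 * x ^ 2)) ^ k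
          ≤ ‖A k z‖ * (κ * δ) ^ k * (Real.exp (-(1 / 5)) * (9 / 10 + x)) ^ k := by
            apply mul_le_mul_of_nonneg_left _ (by positivity)
            exact pow_le_pow_left₀ (Real.exp_pos _).le hq k
        _ = (‖A k z‖ * (κ * δ) ^ k * (9 / 10 + x) ^ k) * Real.exp (-(1 / 5)) ^ k := by
            rw [mul_pow (Real.exp (-(1 / 5)))]; ring
        _ ≤ M * Real.exp (-(1 / 5)) ^ k :=
            mul_le_mul_of_nonneg_right (hcauchy k z hz) (by positivity)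
    · rw [closure_ball _ hδ.ne', mem_closedBall, dist_eq_norm]
      exact hw
  have hAk : ∀ (k : ℕ) (ϖ : ℂ), ‖ϖ - w₀‖ ≤ δ / 4 →
      ‖A k ϖ‖ * (κ * δ) ^ k ≤ M * Real.exp (-(1 / 6)) ^ k := by
    intro k ϖ hw
    have h1 := hmax k ϖ (by linarith)
    rw [norm_mul, norm_mul, norm_pow, Complex.norm_real, Real.norm_of_nonneg hκδ.le] at h1
    have h2 : Real.exp (-(k / 48)) ≤ ‖Complex.exp (-((k : ℂ) / 3) * ((ϖ - w₀) / δ) ^ 2)‖ := by
      rw [Complex.norm_exp]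
      apply Real.exp_le_exp.mpr
      have h3 : ‖-((k : ℂ) / 3) * ((ϖ - w₀) / δ) ^ 2‖ ≤ k / 48 := by
        rw [norm_mul, norm_neg, norm_div, norm_pow, norm_div, Complex.norm_natCast,
          Complex.norm_real, Real.norm_of_nonneg hδ.le]
        have h4 : ‖ϖ - w₀‖ / δ ≤ 1 / 4 := by
          rw [div_le_iff₀ hδ]; linarith
        have h5 : (‖ϖ - w₀‖ / δ) ^ 2 ≤ (1 / 4) ^ 2 :=
          pow_le_pow_left₀ (by positivity) h4 2
        have h6 : ‖(3 : ℂ)‖ = 3 := by simp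
        rw [h6]
        calc (k : ℝ) / 3 * (‖ϖ - w₀‖ / δ) ^ 2 ≤ k / 3 * (1 / 4) ^ 2 :=
              mul_le_mul_of_nonneg_left h5 (by positivity)
          _ = k / 48 := by ring
      have h7 := Complex.abs_re_le_norm (-((k : ℂ) / 3) * ((ϖ - w₀) / δ) ^ 2)
      have h8 := neg_le_of_abs_le (h7.trans h3)
      exact h8
    have h9 : ‖A k ϖ‖ * (κ * δ) ^ k * Real.exp (-(k / 48)) ≤ M * Real.exp (-(1 / 5)) ^ k :=
      (mul_le_mul_of_nonneg_left h2 (by positivity)).trans h1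
    have h10 : Real.exp (-(1 / 5)) ^ k ≤ Real.exp (-(1 / 6)) ^ k * Real.exp (-(k / 48)) := by
      rw [← Real.exp_nat_mul, ← Real.exp_nat_mul, ← Real.exp_add]
      apply Real.exp_le_exp.mpr
      have : (0 : ℝ) ≤ k := Nat.cast_nonneg k
      linarith
    have h11 : ‖A k ϖ‖ * (κ * δ) ^ k * Real.exp (-(k / 48)) ≤
        (M * Real.exp (-(1 / 6)) ^ k) * Real.exp (-(k / 48)) := by
      calc _ ≤ M * Real.exp (-(1 / 5)) ^ k := h9
        _ ≤ M * (Real.exp (-(1 / 6)) ^ k * Real.exp (-(k / 48))) :=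
            mul_le_mul_of_nonneg_left h10 hM0
        _ = _ := by ring
    exact le_of_mul_le_mul_right h11 (Real.exp_pos _)
  -- the sum
  refine ⟨min (δ / 4) (κ * δ / 100), lt_min (by positivity) (by positivity),
    fun p => ∑' k : ℕ, A k p.1 * (p.2 - ψ₁) ^ k, ?_, ?_⟩
  · set V : Set (ℂ × ℂ) := {p : ℂ × ℂ | ‖p.1 - w₀‖ < min (δ / 4) (κ * δ / 100) ∧
      ‖p.2 - ψ₁‖ < κ * δ + min (δ / 4) (κ * δ / 100)} with hV
    have hVo : IsOpen V :=
      (isOpen_lt (f := fun p : ℂ × ℂ => ‖p.1 - w₀‖) (g := fun _ => min (δ / 4) (κ * δ / 100))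
        (by fun_prop) (by fun_prop)).inter
      (isOpen_lt (f := fun p : ℂ × ℂ => ‖p.2 - ψ₁‖)
        (g := fun _ => κ * δ + min (δ / 4) (κ * δ / 100)) (by fun_prop) (by fun_prop))
    apply differentiableOn_tsum_two hVo
    · intro k
      apply DifferentiableOn.mul
      · have h1 : DifferentiableOn ℂ (fun p : ℂ × ℂ => p.1) V := differentiable_fst.differentiableOn
        exact (hAd k).comp h1 (by
          rintro p ⟨hp, _⟩
          rw [mem_ball, dist_eq_norm]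
          have := hp.trans_le (min_le_left _ _)
          linarith)
      · apply Differentiable.differentiableOn
        fun_prop
    · intro K hK _
      refine ⟨fun k => M * (Real.exp (-(1 / 6)) * (101 / 100)) ^ k, ?_, ?_⟩
      · apply Summable.mul_left
        apply summable_geometric_of_lt_one (by positivity)
        have h6 : (1 / 6 : ℝ) + 1 ≤ Real.exp (1 / 6) := Real.add_one_le_exp _
        rw [Real.exp_neg]
        have : (Real.exp (1 / 6))⁻¹ ≤ ((1 / 6 : ℝ) + 1)⁻¹ := inv_anti₀ (by norm_num) h6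
        calc (Real.exp (1 / 6))⁻¹ * (101 / 100) ≤ ((1 / 6 : ℝ) + 1)⁻¹ * (101 / 100) :=
              mul_le_mul_of_nonneg_right this (by norm_num)
          _ < 1 := by norm_num
      · intro k p hp
        obtain ⟨h1, h2⟩ := hK hp
        have h3 := hAk k p.1 ((h1.trans_le (min_le_left _ _)).le)
        have h4 : ‖p.2 - ψ₁‖ ≤ κ * δ * (101 / 100) := by
          have := min_le_right (δ / 4) (κ * δ / 100)
          linarith
        rw [norm_mul, norm_pow]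
        calc ‖A k p.1‖ * ‖p.2 - ψ₁‖ ^ k ≤ ‖A k p.1‖ * (κ * δ * (101 / 100)) ^ k := by
              apply mul_le_mul_of_nonneg_left _ (norm_nonneg _)
              exact pow_le_pow_left₀ (norm_nonneg _) h4 k
          _ = ‖A k p.1‖ * (κ * δ) ^ k * (101 / 100) ^ k := by rw [mul_pow]; ring
          _ ≤ M * Real.exp (-(1 / 6)) ^ k * (101 / 100) ^ k :=
              mul_le_mul_of_nonneg_right h3 (by positivity)
          _ = M * (Real.exp (-(1 / 6)) * (101 / 100)) ^ k := by rw [mul_pow]; ring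
  · intro ϖ ψ hw hp
    have hw' : ‖ϖ - w₀‖ < 3 / 2 * δ := by
      have := hw.trans_le (min_le_left _ _)
      linarith
    have hp' : ψ ∈ ball ψ₁ (κ * δ + κ * |(ϖ - w₀).im|) := by
      rw [mem_ball, dist_eq_norm]
      have : 0 ≤ κ * |(ϖ - w₀).im| := mul_nonneg hκ.le (abs_nonneg _)
      linarith
    exact Complex.taylorSeries_eq_on_ball' hp' (hψ ϖ hw')

end LSB
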