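import Pool.Agent.LSB.CRel
import Pool.Agent.LSB.CHExt

/-!
# Part C, module CExt: `Z` extends across `(w₀, ∓2w₀)`

Paper proof (minus).  `0<w₀<r/8`, `δ=w₀/200`, `κ=1/4`, `ψ₁=-2w₀+iκδ`.  For `|ϖ-w₀|<3δ/2`, `|ψ-ψ₁|<κδ+κ|Im ϖ|` put
`F ϖ ψ=Z ϖ ψ` if `Im ψ>|Im ϖ|/8`, and otherwise
`F ϖ ψ=Z(ϖ',ψ+2ϖ')+i tan(ϖ')·(-1)·(g(c(ϖ',ψ+ϖ'))-Km ϖ'(ψ+ϖ'))`, where `ϖ'=ϖ` if `Im ϖ>0` and `ϖ'=-ϖ` if `Im ϖ<0` (so `Im ϖ'=|Im ϖ|>0`; if
`Im ϖ=0` the first case applies as `Im ψ>0`).  I.e. the formula is `Φ(ϖ',ψ)=Z ϖ'(ψ+2ϖ')-i tan ϖ'·(g(c ϖ'(ψ+ϖ'))-Km ϖ'(ψ+ϖ'))`.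
(1) `Φ` is differentiable on the set of `(ϖ',ψ)` with `0<Im ϖ'`, `Im ψ>-¼Im ϖ'`, `||Re ϖ'|-w₀|<3δ/2`, `Im ϖ'<3δ/2`, `|Re ψ+2w₀|<δ`, `|Im ψ|<δ`: `Im(ψ+2ϖ')>¾·…>⅛Im ϖ'`;
with `α=ψ+ϖ'`: `Im α>¾Im ϖ'`, `|α|<4w₀<r₀`, and `Re α<0`, `3/2·(-Re ϖ' Im ϖ')≤-Re α Im α` (if `Re ϖ'>0` trivial because the left side is
negative; if `Re ϖ'≈-w₀` then `-Re α≥2.9w₀`, `Im α≥¾Im ϖ'`), so `D.loc` applies, `c ϖ' α∉segm 1`, and `range`.
(2) `Φ=Z` where `Im ψ>⅛Im ϖ'`: `rel` at `α=ψ+ϖ'` (`Im α>9/8 Im ϖ'`), `sin ϖ'≠0`, `cos ϖ'≠0`, and `Z_even` for `ϖ'=-ϖ`.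
So `F` is continuous, and differentiable in `ψ` for fixed `ϖ` on the disc (in a neighbourhood of a point with `Im ψ>⅛|Im ϖ|` it is
`Z`, otherwise it is `Φ` near it).  (3) For `|ψ-ψ₁|<ρ₀=δ/20`: `Im ψ>δ/4-δ/20=δ/5>⅛·3δ/2`, so `F=Z`.  Apply `hartogs_ext`:
`G` on `|ϖ-w₀|<ρ`, `|ψ-ψ₁|<κδ+ρ`; since `|−2w₀−ψ₁|=κδ`, this contains the bidisc about `(w₀,-2w₀)` of radius `ρ`; `G=Z` where both are
defined: for fixed `ϖ` the set `{|ψ-ψ₁|<κδ+ρ, Im ψ>⅛|Im ϖ|}` is convex and contains a neighbourhood of `ψ₁` (identity theorem).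
(plus): apply (minus) to `exists_star` and conjugate back.
-/

namespace LSB

open Complex Metric

variable {D : CData}

/-- The formula for `Z` in the region beyond `Im ψ = Im ϖ / 8`. -/
noncomputable def cextPhi (R : RelData D) (ϖ ψ : ℂ) : ℂ :=
  R.Z ϖ (ψ + 2 * ϖ) - I * (sin ϖ / cos ϖ) * (R.g (D.c ϖ (ψ + ϖ)) - R.Km ϖ (ψ + ϖ))

/-- The extension. -/
noncomputable def cextF (R : RelData D) (ϖ ψ : ℂ) : ℂ :=
  if 1 / 8 * |ϖ.im| < ψ.im then R.Z ϖ ψ else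
    if 0 < ϖ.im then cextPhi R ϖ ψ else cextPhi R (-ϖ) ψ

/-- The region where `cextPhi` is differentiable. -/
def cextV (w₀ δ : ℝ) : Set (ℂ × ℂ) :=
  {p | 0 < p.1.im ∧ p.1.im < 3 / 2 * δ ∧ |(|p.1.re| - w₀)| < 3 / 2 * δ ∧
    -(1 / 4) * p.1.im < p.2.im ∧ |p.2.im| < δ ∧ |p.2.re + 2 * w₀| < δ}

theorem cext_isOpen_V (w₀ δ : ℝ) : IsOpen (cextV w₀ δ) := by
  have h1 : Continuous fun p : ℂ × ℂ => p.1.im := Complex.continuous_im.comp continuous_fst
  have h2 : Continuous fun p : ℂ × ℂ => p.1.re := Complex.continuous_re.comp continuous_fst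
  have h3 : Continuous fun p : ℂ × ℂ => p.2.im := Complex.continuous_im.comp continuous_snd
  have h4 : Continuous fun p : ℂ × ℂ => p.2.re := Complex.continuous_re.comp continuous_snd
  unfold cextV
  refine (isOpen_lt continuous_const h1).inter ((isOpen_lt h1 continuous_const).inter
    ((isOpen_lt ((h2.abs.sub continuous_const).abs) continuous_const).inter
      ((isOpen_lt (continuous_const.mul h1) h3).inter
        ((isOpen_lt h3.abs continuous_const).inter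
          (isOpen_lt ((h4.add continuous_const).abs) continuous_const)))))

theorem cext_norm_le (z : ℂ) : ‖z‖ ≤ |z.re| + |z.im| := Complex.norm_le_abs_re_add_abs_im z

theorem cext_isOpen_Zdom (r : ℝ) : IsOpen {p : ℂ × ℂ | ‖p.1‖ < r ∧ 1 / 8 * |p.1.im| < p.2.im} := by
  have h1 : Continuous fun p : ℂ × ℂ => p.1.im := Complex.continuous_im.comp continuous_fst
  have h3 : Continuous fun p : ℂ × ℂ => p.2.im := Complex.continuous_im.comp continuous_snd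
  exact (isOpen_lt continuous_fst.norm continuous_const).inter
    (isOpen_lt (continuous_const.mul h1.abs) h3)

theorem cext_isOpen_Kdom (r Y : ℝ) : IsOpen {p : ℂ × ℂ | ‖p.1‖ < r ∧ p.2.im < Y} := by
  have h3 : Continuous fun p : ℂ × ℂ => p.2.im := Complex.continuous_im.comp continuous_snd
  exact (isOpen_lt continuous_fst.norm continuous_const).inter (isOpen_lt h3 continuous_const)

theorem cext_isOpen_cdom (r Y : ℝ) : IsOpen {p : ℂ × ℂ | ‖p.1‖ < r ∧ |p.2.im| < Y} := by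
  have h3 : Continuous fun p : ℂ × ℂ => p.2.im := Complex.continuous_im.comp continuous_snd
  exact (isOpen_lt continuous_fst.norm continuous_const).inter (isOpen_lt h3.abs continuous_const)

/-- Bounds on the region `cextV`. -/
theorem cext_bounds (R : RelData D) {w₀ δ : ℝ} (hw₀ : 0 < w₀) (hw₀' : w₀ < R.r / 8)
    (hδ : δ = w₀ / 200) {p : ℂ × ℂ} (hp : p ∈ cextV w₀ δ) :
    ‖p.1‖ < R.r ∧ ‖p.1‖ < D.r₀ ∧ ‖p.2 + p.1‖ < D.r₀ ∧ 1 / 8 * |p.1.im| < (p.2 + 2 * p.1).im ∧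
      |(p.2 + p.1).im| < D.Y ∧ D.c p.1 (p.2 + p.1) ∉ segm 1 := by
  obtain ⟨h1, h2, h3, h4, h5, h6⟩ := hp
  have hr := R.r_pos
  have hr' := R.r_le
  have hr0 := D.r₀_pos
  have hr0' := D.r₀_le'
  have hY := D.Y_pos
  rw [abs_lt] at h3 h5 h6
  have h7 : |p.1.im| = p.1.im := abs_of_pos h1
  have n1 := cext_norm_le p.1
  have n2 := cext_norm_le (p.2 + p.1)
  have e1 : (p.2 + p.1).re = p.2.re + p.1.re := Complex.add_re _ _
  have e2 : (p.2 + p.1).im = p.2.im + p.1.im := Complex.add_im _ _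
  have e3 : (p.2 + 2 * p.1).im = p.2.im + 2 * p.1.im := by
    rw [Complex.add_im, Complex.mul_im]
    simp
  have a1 := neg_abs_le p.1.re
  have a2 := le_abs_self p.1.re
  have b1 : ‖p.1‖ < 2 * w₀ := by
    rw [h7] at n1
    linarith [h3.2]
  have b2 : |(p.2 + p.1).re| < 4 * w₀ := by
    rw [e1, abs_lt]
    constructor <;> linarith [h3.2, h6.1, h6.2]
  have b3 : |(p.2 + p.1).im| < w₀ := by
    rw [e2, abs_lt]
    constructor <;> linarith [h5.1, h5.2]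
  have b4 : ‖p.2 + p.1‖ < D.r₀ := by linarith
  have b5 : ‖p.1‖ < D.r₀ := by linarith
  refine ⟨by linarith, b5, b4, ?_, by linarith, ?_⟩
  · rw [e3, h7]
    linarith
  · refine D.loc _ _ b5 b4 h1 ?_ ?_ ?_
    · rw [e2]
      linarith
    · rw [e1]
      linarith [h3.2, h6.2]
    · rw [e1, e2]
      rcases le_or_gt 0 p.1.re with hpos | hneg
      · have c1 : -(p.2.re + p.1.re) * (p.2.im + p.1.im) ≥ 0 := by
          apply mul_nonneg
          · linarith [h3.2, h6.2]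
          · linarith
        have c2 : p.1.re * p.1.im ≥ 0 := mul_nonneg hpos h1.le
        linarith
      · rw [abs_of_neg hneg] at h3
        have c1 : (3 * w₀ - 5 / 2 * δ) * (3 / 4 * p.1.im) ≤
            -(p.2.re + p.1.re) * (p.2.im + p.1.im) := by
          apply mul_le_mul
          · linarith [h3.1, h6.2]
          · linarith
          · linarith
          · linarith [h3.1, h6.2]
        have c2 : -p.1.re * p.1.im ≤ (w₀ + 3 / 2 * δ) * p.1.im := by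
          apply mul_le_mul_of_nonneg_right _ h1.le
          linarith [h3.2]
        have c3 : 3 / 2 * ((w₀ + 3 / 2 * δ) * p.1.im) ≤
            (3 * w₀ - 5 / 2 * δ) * (3 / 4 * p.1.im) := by
          have : 0 ≤ (3 / 4 * w₀ - 33 / 8 * δ) * p.1.im := by
            apply mul_nonneg _ h1.le
            rw [hδ]
            linarith
          nlinarith
        linarith

theorem cext_Phi_diff (R : RelData D) {w₀ δ : ℝ} (hw₀ : 0 < w₀) (hw₀' : w₀ < R.r / 8)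
    (hδ : δ = w₀ / 200) {p : ℂ × ℂ} (hp : p ∈ cextV w₀ δ) :
    DifferentiableAt ℂ (fun q : ℂ × ℂ => cextPhi R q.1 q.2) p := by
  obtain ⟨h1, h2, h3, h4, h5, h6⟩ := cext_bounds R hw₀ hw₀' hδ hp
  have hY := D.Y_lt
  have f1 : DifferentiableAt ℂ (fun q : ℂ × ℂ => R.Z q.1 (q.2 + 2 * q.1)) p := by
    have g1 : DifferentiableAt ℂ (fun q : ℂ × ℂ => R.Z q.1 q.2)
        ((fun q : ℂ × ℂ => (q.1, q.2 + 2 * q.1)) p) :=
      R.Z_diff.differentiableAt ((cext_isOpen_Zdom R.r).mem_nhds ⟨h1, h4⟩)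
    have g2 : DifferentiableAt ℂ (fun q : ℂ × ℂ => (q.1, q.2 + 2 * q.1)) p :=
      differentiableAt_fst.prodMk
        (differentiableAt_snd.add (differentiableAt_fst.const_mul (2 : ℂ)))
    exact g1.comp p g2
  have g3 : DifferentiableAt ℂ (fun q : ℂ × ℂ => (q.1, q.2 + q.1)) p :=
    differentiableAt_fst.prodMk (differentiableAt_snd.add differentiableAt_fst)
  have f2 : DifferentiableAt ℂ (fun q : ℂ × ℂ => D.c q.1 (q.2 + q.1)) p := by
    have g1 : DifferentiableAt ℂ (fun q : ℂ × ℂ => D.c q.1 q.2)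
        ((fun q : ℂ × ℂ => (q.1, q.2 + q.1)) p) :=
      D.diff.differentiableAt ((cext_isOpen_cdom D.r₀ D.Y₁).mem_nhds ⟨h2, by linarith⟩)
    exact g1.comp p g3
  have f3 : DifferentiableAt ℂ (fun q : ℂ × ℂ => R.Km q.1 (q.2 + q.1)) p := by
    have g1 : DifferentiableAt ℂ (fun q : ℂ × ℂ => R.Km q.1 q.2)
        ((fun q : ℂ × ℂ => (q.1, q.2 + q.1)) p) :=
      R.Km_diff.differentiableAt ((cext_isOpen_Kdom R.r D.Y).mem_nhds
        ⟨h1, lt_of_le_of_lt (le_abs_self _) h5⟩)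
    exact g1.comp p g3
  have f4 : DifferentiableAt ℂ (fun q : ℂ × ℂ => R.g (D.c q.1 (q.2 + q.1))) p := by
    have g1 : DifferentiableAt ℂ R.g ((fun q : ℂ × ℂ => D.c q.1 (q.2 + q.1)) p) := by
      refine R.g_diff.differentiableAt (((isOpen_Ell _).sdiff (isClosed_segm 1)).mem_nhds
        ⟨?_, h6⟩)
      have := D.range p.1 (p.2 + p.1) h2 (by linarith)
      unfold Ell at this ⊢
      rw [Set.mem_ofPred_eq] at this ⊢
      have hc : Real.cosh D.Y₂ ≤ Real.cosh (2 * D.Y) := by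
        rw [Real.cosh_le_cosh, abs_of_pos, abs_of_pos]
        · exact D.Y₂_lt.le
        · linarith [D.Y_pos]
        · linarith [D.Y_pos, D.Y_lt, D.Y₁_lt]
      exact lt_of_lt_of_le this (by linarith)
    exact g1.comp p f2
  have f5 : DifferentiableAt ℂ (fun q : ℂ × ℂ => sin q.1 / cos q.1) p := by
    have f6 : DifferentiableAt ℂ (fun z : ℂ => sin z / cos z) p.1 :=
      DifferentiableAt.fun_div (Complex.differentiable_sin _) (Complex.differentiable_cos _)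
        (cos_ne_zero_of_im_pos hp.1)
    exact DifferentiableAt.comp (g := fun z : ℂ => sin z / cos z)
      (f := fun q : ℂ × ℂ => q.1) p f6 differentiableAt_fst
  exact f1.sub ((f5.const_mul I).mul (f4.sub f3))

theorem cext_Z_eq_Phi (R : RelData D) {w₀ δ : ℝ} (hw₀ : 0 < w₀) (hw₀' : w₀ < R.r / 8)
    (hδ : δ = w₀ / 200) {p : ℂ × ℂ} (hp : p ∈ cextV w₀ δ) (h : 1 / 8 * |p.1.im| < p.2.im) :
    cextPhi R p.1 p.2 = R.Z p.1 p.2 := by
  obtain ⟨h1, h2, h3, h4, h5, h6⟩ := cext_bounds R hw₀ hw₀' hδ hp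
  have e2 : (p.2 + p.1).im = p.2.im + p.1.im := Complex.add_im _ _
  have h7 : |p.1.im| = p.1.im := abs_of_pos hp.1
  have h8 := R.rel p.1 (p.2 + p.1) h1 (by rw [h7, e2]; rw [h7] at h; linarith)
    (lt_of_le_of_lt (le_abs_self _) h5)
  have e3 : p.2 + p.1 - p.1 = p.2 := by ring
  have e4 : p.2 + p.1 + p.1 = p.2 + 2 * p.1 := by ring
  rw [e3, e4] at h8
  have hc : cos p.1 ≠ 0 := cos_ne_zero_of_im_pos hp.1
  have h9 : sin p.1 / cos p.1 * (R.g (D.c p.1 (p.2 + p.1)) - R.Km p.1 (p.2 + p.1)) =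
      I * (R.Z p.1 p.2 - R.Z p.1 (p.2 + 2 * p.1)) := by
    generalize R.Z p.1 (p.2 + 2 * p.1) = A at h8 ⊢
    generalize R.Z p.1 p.2 = B at h8 ⊢
    generalize R.g (D.c p.1 (p.2 + p.1)) - R.Km p.1 (p.2 + p.1) = C at h8 ⊢
    rw [div_mul_eq_mul_div, div_eq_iff hc]
    linear_combination h8
  unfold cextPhi
  rw [mul_assoc, h9, ← mul_assoc, Complex.I_mul_I]
  ring

/-- Membership of `cextV` for points of the domain. -/
theorem cext_mem_V {w₀ δ : ℝ} (hw₀ : 0 < w₀)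
    (hδ : δ = w₀ / 200) {p : ℂ × ℂ} (h1 : ‖p.1 - w₀‖ < 3 / 2 * δ)
    (h2 : ‖p.2 - (-2 * w₀ + 1 / 4 * δ * I)‖ < 1 / 4 * δ + 1 / 4 * |(p.1 - w₀).im|) :
    (0 < p.1.im → p ∈ cextV w₀ δ) ∧ (p.1.im < 0 → (-p.1, p.2) ∈ cextV w₀ δ) := by
  have a1 : |p.1.re - w₀| < 3 / 2 * δ := by
    have := Complex.abs_re_le_norm (p.1 - w₀)
    simp only [Complex.sub_re, Complex.ofReal_re] at this
    linarith
  have a2 : |p.1.im| < 3 / 2 * δ := by
    have := Complex.abs_im_le_norm (p.1 - w₀)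
    simp only [Complex.sub_im, Complex.ofReal_im, sub_zero] at this
    linarith
  have a3 : (p.1 - w₀).im = p.1.im := by simp
  rw [a3] at h2
  have b1 := Complex.abs_re_le_norm (p.2 - (-2 * w₀ + 1 / 4 * δ * I))
  have b2 := Complex.abs_im_le_norm (p.2 - (-2 * w₀ + 1 / 4 * δ * I))
  have c1 : (p.2 - (-2 * w₀ + 1 / 4 * δ * I)).re = p.2.re + 2 * w₀ := by
    simp
  have c2 : (p.2 - (-2 * w₀ + 1 / 4 * δ * I)).im = p.2.im - 1 / 4 * δ := by
    simp
  rw [c1] at b1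
  rw [c2] at b2
  have b3 : |p.2.im - 1 / 4 * δ| < 1 / 4 * δ + 1 / 4 * |p.1.im| := by linarith
  have b4 : |p.2.re + 2 * w₀| < δ := by
    have : 0 < δ := by rw [hδ]; linarith
    linarith
  rw [abs_lt] at b3
  have hre : 0 < p.1.re := by
    rw [abs_lt] at a1
    rw [hδ] at a1
    linarith [a1.1]
  have b5 : |p.2.im| < δ := by
    rw [abs_lt]
    have : 0 < δ := by rw [hδ]; linarith
    constructor <;> linarith [b3.1, b3.2]
  constructor
  · intro h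
    rw [abs_of_pos h] at b3 a2
    refine ⟨h, a2, ?_, ?_, b5, b4⟩
    · rw [abs_of_pos hre]
      exact a1
    · linarith [b3.1]
  · intro h
    rw [abs_of_neg h] at b3 a2
    refine ⟨?_, ?_, ?_, ?_, b5, b4⟩
    · simpa using h
    · simpa using a2
    · simp only [Complex.neg_re, abs_neg]
      rw [abs_of_pos hre]
      exact a1
    · simp only [Complex.neg_im]
      linarith [b3.1]

theorem cext_F_diff (R : RelData D) {w₀ δ : ℝ} (hw₀ : 0 < w₀) (hw₀' : w₀ < R.r / 8)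
    (hδ : δ = w₀ / 200) {p : ℂ × ℂ} (h1 : ‖p.1 - w₀‖ < 3 / 2 * δ)
    (h2 : ‖p.2 - (-2 * w₀ + 1 / 4 * δ * I)‖ < 1 / 4 * δ + 1 / 4 * |(p.1 - w₀).im|) :
    DifferentiableAt ℂ (fun q : ℂ × ℂ => cextF R q.1 q.2) p := by
  have hV := cext_mem_V hw₀ hδ h1 h2
  have hn : ‖p.1‖ < R.r := by
    have : ‖p.1‖ ≤ ‖p.1 - w₀‖ + ‖(w₀ : ℂ)‖ := by
      have := norm_add_le (p.1 - w₀) (w₀ : ℂ)
      simpa using this
    rw [Complex.norm_real, Real.norm_eq_abs, abs_of_pos hw₀] at this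
    linarith [R.r_pos]
  by_cases hc : 1 / 8 * |p.1.im| < p.2.im
  · have hmem := (cext_isOpen_Zdom R.r).mem_nhds (x := p) ⟨hn, hc⟩
    refine (R.Z_diff.differentiableAt hmem).congr_of_eventuallyEq ?_
    filter_upwards [hmem] with q hq
    unfold cextF
    rw [if_pos hq.2]
  · rcases lt_trichotomy p.1.im 0 with hi | hi | hi
    · have hmem := (cext_isOpen_V w₀ δ).mem_nhds (hV.2 hi)
      have hg : DifferentiableAt ℂ (fun q : ℂ × ℂ => (-q.1, q.2)) p :=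
        differentiableAt_fst.neg.prodMk differentiableAt_snd
      have hmem' : ∀ᶠ q : ℂ × ℂ in nhds p, (-q.1, q.2) ∈ cextV w₀ δ :=
        hg.continuousAt.eventually hmem
      have hneg : ∀ᶠ q : ℂ × ℂ in nhds p, q.1.im < 0 := by
        have : Continuous fun p : ℂ × ℂ => p.1.im := Complex.continuous_im.comp continuous_fst
        exact this.continuousAt.eventually (isOpen_Iio.mem_nhds hi)
      have hd : DifferentiableAt ℂ (fun q : ℂ × ℂ => cextPhi R (-q.1) q.2) p := by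
        have := cext_Phi_diff R hw₀ hw₀' hδ (hV.2 hi)
        exact DifferentiableAt.comp (g := fun q : ℂ × ℂ => cextPhi R q.1 q.2)
          (f := fun q : ℂ × ℂ => (-q.1, q.2)) p this hg
      refine hd.congr_of_eventuallyEq ?_
      filter_upwards [hmem', hneg] with q hq hq'
      unfold cextF
      split_ifs with c1 c2
      · have := cext_Z_eq_Phi R hw₀ hw₀' hδ hq (by simpa using c1)
        simp only at this
        rw [this, R.Z_even]
        · have := (cext_bounds R hw₀ hw₀' hδ hq).1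
          simpa using this
        · exact c1
      · exact absurd c2 (not_lt.2 hq'.le)
      · rfl
    · exfalso
      rw [hi, abs_zero, mul_zero] at hc
      push Not at hc
      have h3 := Complex.abs_im_le_norm (p.2 - (-2 * w₀ + 1 / 4 * δ * I))
      have c2 : (p.2 - (-2 * w₀ + 1 / 4 * δ * I)).im = p.2.im - 1 / 4 * δ := by
        simp
      have a3 : (p.1 - w₀).im = p.1.im := by simp
      rw [c2] at h3
      rw [a3, hi, abs_zero, mul_zero] at h2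
      have h4 : |p.2.im - 1 / 4 * δ| < 1 / 4 * δ := by linarith
      rw [abs_lt] at h4
      linarith [h4.1]
    · have hmem := (cext_isOpen_V w₀ δ).mem_nhds (hV.1 hi)
      refine (cext_Phi_diff R hw₀ hw₀' hδ (hV.1 hi)).congr_of_eventuallyEq ?_
      filter_upwards [hmem] with q hq
      unfold cextF
      split_ifs with c1 c2
      · exact (cext_Z_eq_Phi R hw₀ hw₀' hδ hq c1).symm
      · rfl
      · exact absurd hq.1 c2

theorem ext_minus (R : RelData D) {w₀ : ℝ} (hw₀ : 0 < w₀) (hw₀' : w₀ < R.r / 8) :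
    ∃ ρ > 0, ∃ G : ℂ × ℂ → ℂ,
      DifferentiableOn ℂ G {p : ℂ × ℂ | ‖p.1 - w₀‖ < ρ ∧ ‖p.2 + 2 * w₀‖ < ρ} ∧
      ∀ ϖ ψ : ℂ, ‖ϖ - w₀‖ < ρ → ‖ψ + 2 * w₀‖ < ρ → 1 / 8 * |ϖ.im| < ψ.im →
        G (ϖ, ψ) = R.Z ϖ ψ := by
  obtain ⟨δ, hδ⟩ : ∃ δ : ℝ, δ = w₀ / 200 := ⟨_, rfl⟩
  have hδ0 : 0 < δ := by rw [hδ]; linarith
  have key := fun (p : ℂ × ℂ) (h1 : ‖p.1 - w₀‖ < 3 / 2 * δ)
    (h2 : ‖p.2 - (-2 * w₀ + 1 / 4 * δ * I)‖ < 1 / 4 * δ + 1 / 4 * |(p.1 - w₀).im|) =>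
    cext_F_diff R hw₀ hw₀' hδ h1 h2
  obtain ⟨ρ, hρ, G, hG, hGF⟩ := hartogs_ext (w₀ := (w₀ : ℂ)) (ψ₁ := -2 * w₀ + 1 / 4 * δ * I)
    (δ := δ) (κ := 1 / 4) (ρ₀ := δ / 20) (F := cextF R) hδ0 (by norm_num) (by linarith)
    (by linarith)
    (fun p hp => (key p hp.1 hp.2).continuousAt.continuousWithinAt)
    (fun ϖ hϖ ψ hψ => by
      rw [Metric.mem_ball, dist_eq_norm] at hψ
      have := key (ϖ, ψ) hϖ hψ
      have h2 : DifferentiableAt ℂ (fun ψ : ℂ => (ϖ, ψ)) ψ :=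
        (differentiableAt_const _).prodMk differentiableAt_id
      exact (DifferentiableAt.comp (g := fun q : ℂ × ℂ => cextF R q.1 q.2)
        (f := fun ψ : ℂ => (ϖ, ψ)) ψ this h2).differentiableWithinAt)
    (fun ψ hψ ϖ hϖ => by
      rw [Metric.mem_ball, dist_eq_norm] at hψ hϖ
      have := key (ϖ, ψ) hϖ (by
        refine lt_of_lt_of_le hψ ?_
        have := abs_nonneg ((ϖ - w₀).im)
        simp only
        linarith)
      have h2 : DifferentiableAt ℂ (fun ϖ : ℂ => (ϖ, ψ)) ϖ :=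
        differentiableAt_id.prodMk (differentiableAt_const _)
      exact (DifferentiableAt.comp (g := fun q : ℂ × ℂ => cextF R q.1 q.2)
        (f := fun ϖ : ℂ => (ϖ, ψ)) ϖ this h2).differentiableWithinAt)
  have hdist : ∀ ψ : ℂ, ‖ψ - (-2 * w₀ + 1 / 4 * δ * I)‖ ≤ ‖ψ + 2 * w₀‖ + 1 / 4 * δ := by
    intro ψ
    have e : ψ - (-2 * w₀ + 1 / 4 * δ * I) = (ψ + 2 * w₀) + (-(1 / 4 * δ * I)) := by ring
    rw [e]
    refine (norm_add_le _ _).trans ?_
    rw [norm_neg]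
    simp [abs_of_pos hδ0]
  refine ⟨min ρ δ, lt_min hρ hδ0, G, ?_, ?_⟩
  · refine hG.mono ?_
    rintro p ⟨hp1, hp2⟩
    refine ⟨lt_of_lt_of_le hp1 (min_le_left _ _), ?_⟩
    have h1 := hdist p.2
    have h2 := lt_of_lt_of_le hp2 (min_le_left ρ δ)
    linarith
  · intro ϖ ψ hϖ hψ him
    have hϖ1 := lt_of_lt_of_le hϖ (min_le_left ρ δ)
    have hϖ2 := lt_of_lt_of_le hϖ (min_le_right ρ δ)
    have hψ1 := lt_of_lt_of_le hψ (min_le_left ρ δ)
    have hn : ‖ϖ‖ < R.r := by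
      have : ‖ϖ‖ ≤ ‖ϖ - w₀‖ + ‖(w₀ : ℂ)‖ := by
        have := norm_add_le (ϖ - w₀) (w₀ : ℂ)
        simpa using this
      rw [Complex.norm_real, Real.norm_eq_abs, abs_of_pos hw₀] at this
      linarith [R.r_pos]
    have hϖim : |ϖ.im| < δ := by
      have := Complex.abs_im_le_norm (ϖ - w₀)
      simp only [Complex.sub_im, Complex.ofReal_im, sub_zero] at this
      linarith
    have hSo : IsOpen (ball (-2 * w₀ + 1 / 4 * δ * I : ℂ) (1 / 4 * δ + ρ) ∩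
        {z : ℂ | 1 / 8 * |ϖ.im| < z.im}) :=
      isOpen_ball.inter (isOpen_lt continuous_const Complex.continuous_im)
    have hSc : Convex ℝ (ball (-2 * w₀ + 1 / 4 * δ * I : ℂ) (1 / 4 * δ + ρ) ∩
        {z : ℂ | 1 / 8 * |ϖ.im| < z.im}) :=
      (convex_ball _ _).inter (convex_halfSpace_im_gt _)
    have hGd : DifferentiableOn ℂ (fun z : ℂ => G (ϖ, z))
        (ball (-2 * w₀ + 1 / 4 * δ * I : ℂ) (1 / 4 * δ + ρ) ∩
          {z : ℂ | 1 / 8 * |ϖ.im| < z.im}) := by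
      intro z hz
      have h0 : DifferentiableOn ℂ (fun z : ℂ => (ϖ, z))
          (ball (-2 * w₀ + 1 / 4 * δ * I : ℂ) (1 / 4 * δ + ρ) ∩
            {z : ℂ | 1 / 8 * |ϖ.im| < z.im}) :=
        ((differentiable_const _).prodMk differentiable_id).differentiableOn
      refine (hG.comp h0 ?_) z hz
      intro y hy
      have := hy.1
      rw [Metric.mem_ball, dist_eq_norm] at this
      exact ⟨hϖ1, this⟩
    have hZd : DifferentiableOn ℂ (fun z : ℂ => R.Z ϖ z)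
        (ball (-2 * w₀ + 1 / 4 * δ * I : ℂ) (1 / 4 * δ + ρ) ∩
          {z : ℂ | 1 / 8 * |ϖ.im| < z.im}) := by
      intro z hz
      have h0 : DifferentiableOn ℂ (fun z : ℂ => (ϖ, z))
          (ball (-2 * w₀ + 1 / 4 * δ * I : ℂ) (1 / 4 * δ + ρ) ∩
            {z : ℂ | 1 / 8 * |ϖ.im| < z.im}) :=
        ((differentiable_const _).prodMk differentiable_id).differentiableOn
      refine (R.Z_diff.comp h0 ?_) z hz
      intro y hy
      exact ⟨hn, hy.2⟩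
    have hcim : (-2 * w₀ + 1 / 4 * δ * I : ℂ).im = 1 / 4 * δ := by
      simp
    have hcen : (-2 * w₀ + 1 / 4 * δ * I : ℂ) ∈
        (ball (-2 * w₀ + 1 / 4 * δ * I : ℂ) (1 / 4 * δ + ρ) ∩
          {z : ℂ | 1 / 8 * |ϖ.im| < z.im}) := by
      refine ⟨mem_ball_self (by linarith), ?_⟩
      show 1 / 8 * |ϖ.im| < (-2 * w₀ + 1 / 4 * δ * I : ℂ).im
      rw [hcim]
      linarith
    have hev : (fun z : ℂ => G (ϖ, z)) =ᶠ[nhds (-2 * w₀ + 1 / 4 * δ * I : ℂ)]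
        fun z : ℂ => R.Z ϖ z := by
      have hm : ball (-2 * w₀ + 1 / 4 * δ * I : ℂ) (δ / 20) ∈
          nhds (-2 * w₀ + 1 / 4 * δ * I : ℂ) := ball_mem_nhds _ (by linarith)
      filter_upwards [hm] with z hz
      rw [Metric.mem_ball, dist_eq_norm] at hz
      rw [hGF ϖ z hϖ1 hz]
      unfold cextF
      rw [if_pos]
      have h3 := Complex.abs_im_le_norm (z - (-2 * w₀ + 1 / 4 * δ * I))
      rw [Complex.sub_im, hcim] at h3
      have h4 : |z.im - 1 / 4 * δ| < δ / 20 := by linarith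
      rw [abs_lt] at h4
      linarith [h4.1]
    have := (hGd.analyticOnNhd hSo).eqOn_of_preconnected_of_eventuallyEq
      (hZd.analyticOnNhd hSo) hSc.isPreconnected hcen hev
    refine this ⟨?_, him⟩
    rw [Metric.mem_ball, dist_eq_norm]
    have h1 := hdist ψ
    linarith

theorem ext_plus (R : RelData D) {w₀ : ℝ} (hw₀ : 0 < w₀) (hw₀' : w₀ < R.r / 8) :
    ∃ ρ > 0, ∃ G : ℂ × ℂ → ℂ,
      DifferentiableOn ℂ G {p : ℂ × ℂ | ‖p.1 - w₀‖ < ρ ∧ ‖p.2 - 2 * w₀‖ < ρ} ∧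
      ∀ ϖ ψ : ℂ, ‖ϖ - w₀‖ < ρ → ‖ψ - 2 * w₀‖ < ρ → 1 / 8 * |ϖ.im| < ψ.im →
        G (ϖ, ψ) = R.Z ϖ ψ := by
  obtain ⟨R', hr, -, hZ⟩ := exists_star R
  obtain ⟨ρ, hρ, G, hG, hGZ⟩ := ext_minus R' hw₀ (by rw [hr]; exact hw₀')
  have hn1 : ∀ z : ℂ, ‖starRingEnd ℂ z - w₀‖ = ‖z - w₀‖ := by
    intro z
    rw [← Complex.norm_conj (z - w₀), map_sub, Complex.conj_ofReal]
  have hn2 : ∀ z : ℂ, ‖-starRingEnd ℂ z + 2 * w₀‖ = ‖z - 2 * w₀‖ := by
    intro z
    rw [← Complex.norm_conj (z - 2 * w₀), map_sub, map_mul, Complex.conj_ofReal,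
      ← norm_neg (starRingEnd ℂ z - _), map_ofNat]
    congr 1
    ring
  have hU : IsOpen {p : ℂ × ℂ | ‖p.1 - w₀‖ < ρ ∧ ‖p.2 - 2 * w₀‖ < ρ} :=
    (isOpen_lt (continuous_fst.sub continuous_const).norm continuous_const).inter
      (isOpen_lt (continuous_snd.sub continuous_const).norm continuous_const)
  have hU' : IsOpen {p : ℂ × ℂ | ‖p.1 - w₀‖ < ρ ∧ ‖p.2 + 2 * w₀‖ < ρ} :=
    (isOpen_lt (continuous_fst.sub continuous_const).norm continuous_const).inter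
      (isOpen_lt (continuous_snd.add continuous_const).norm continuous_const)
  have hGat : ∀ p : ℂ × ℂ, ‖p.1 - w₀‖ < ρ → ‖p.2 - 2 * w₀‖ < ρ →
      DifferentiableAt ℂ G (starRingEnd ℂ p.1, -starRingEnd ℂ p.2) := by
    intro p h1 h2
    refine hG.differentiableAt (hU'.mem_nhds ⟨?_, ?_⟩)
    · rw [hn1]
      exact h1
    · rw [hn2]
      exact h2
  refine ⟨ρ, hρ, fun p => starRingEnd ℂ (G (starRingEnd ℂ p.1, -starRingEnd ℂ p.2)), ?_, ?_⟩
  · refine osgood hU ?_ ?_ ?_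
    · intro p hp
      apply ContinuousAt.continuousWithinAt
      have h1 := (hGat p hp.1 hp.2).continuousAt
      have h2 : Continuous fun p : ℂ × ℂ => (starRingEnd ℂ p.1, -starRingEnd ℂ p.2) :=
        (Complex.continuous_conj.comp continuous_fst).prodMk
          (Complex.continuous_conj.comp continuous_snd).neg
      have h3 := ContinuousAt.comp (f := fun p : ℂ × ℂ => (starRingEnd ℂ p.1, -starRingEnd ℂ p.2))
        (g := G) (x := p) h1 h2.continuousAt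
      exact Complex.continuous_conj.continuousAt.comp h3
    · intro p hp
      have h1 := hGat p hp.1 hp.2
      have h2 : DifferentiableAt ℂ (fun z : ℂ => G (z, -starRingEnd ℂ p.2))
          (starRingEnd ℂ p.1) :=
        DifferentiableAt.comp (g := G) (f := fun z : ℂ => (z, -starRingEnd ℂ p.2)) _ h1
          (differentiableAt_id.prodMk (differentiableAt_const _))
      have h3 := h2.conj_conj
      rw [Complex.conj_conj] at h3
      exact h3
    · intro p hp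
      have h1 := hGat p hp.1 hp.2
      have h2 : DifferentiableAt ℂ (fun z : ℂ => G (starRingEnd ℂ p.1, -z))
          (starRingEnd ℂ p.2) :=
        DifferentiableAt.comp (g := G) (f := fun z : ℂ => (starRingEnd ℂ p.1, -z)) _ h1
          ((differentiableAt_const _).prodMk differentiableAt_id.neg)
      have h3 := h2.conj_conj
      rw [Complex.conj_conj] at h3
      exact h3
  · intro ϖ ψ h1 h2 h3
    have h4 := hGZ (starRingEnd ℂ ϖ) (-starRingEnd ℂ ψ) (by rw [hn1]; exact h1)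
      (by rw [hn2]; exact h2) (by simpa using h3)
    show starRingEnd ℂ (G (starRingEnd ℂ ϖ, -starRingEnd ℂ ψ)) = R.Z ϖ ψ
    rw [h4, hZ]
    simp

end LSB
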