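import Pool.Agent.LSB.CX

/-!
# Part C, module CG: the class `InV` and the function `gfun s`

Paper proof.  For `w∈Ell(2Y)∖segm 1`: `e^{-2Y}<‖Jou w‖<1` (`mem_Ell_iff_lt_norm_Jou`, `norm_Jou_lt_one`), so the Laurent series
`∑ s m z^m` converges absolutely at `z=Jou w` and is differentiable there.
-/

namespace LSB

open Complex Metric

/-- The sequences `s` (coefficients in `α₀`) with the vanishing property and growth `0` upwards,
`-2Y` downwards. -/
structure InV (D : CData) (η : ℝ) (s : ℤ → ℂ) : Prop where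
  pos : ∀ T : ℝ, 0 < T → ∃ A : ℝ, ∀ m : ℕ, ‖s m‖ ≤ A * Real.exp (m * T)
  neg : ∀ T : ℝ, T < 2 * D.Y → ∃ A : ℝ, ∀ m : ℕ, ‖s (-m)‖ ≤ A * Real.exp (-(m * T))
  van : D.Vanish η s

/-- `g(cos α₀) = ∑ s m exp(i m α₀)`. -/
noncomputable def gfun (s : ℤ → ℂ) (w : ℂ) : ℂ := ∑' m : ℤ, s m * Jou w ^ m

/-- absolute convergence of the Laurent series in the annulus -/
theorem InV.summable_laurent {D : CData} {η : ℝ} {s : ℤ → ℂ} (hs : InV D η s) {z : ℂ}
    (h1 : Real.exp (-(2 * D.Y)) < ‖z‖) (h2 : ‖z‖ < 1) : Summable fun m : ℤ => ‖s m * z ^ m‖ := by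
  have hz : 0 < ‖z‖ := lt_trans (Real.exp_pos _) h1
  have hlog : Real.log ‖z‖ < 0 := Real.log_neg hz h2
  have hlog2 : -(2 * D.Y) < Real.log ‖z‖ := by
    rwa [Real.lt_log_iff_exp_lt hz]
  have hexp : ‖z‖ = Real.exp (Real.log ‖z‖) := (Real.exp_log hz).symm
  refine Summable.of_nat_of_neg ?_ ?_
  · obtain ⟨A, hA⟩ := hs.pos (-Real.log ‖z‖ / 2) (by linarith)
    have hr : Summable fun n : ℕ => A * (Real.exp (Real.log ‖z‖ / 2)) ^ n :=
      (summable_geometric_of_lt_one (Real.exp_pos _).le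
        (by rw [Real.exp_lt_one_iff]; linarith)).mul_left A
    refine Summable.of_nonneg_of_le (fun n => norm_nonneg _) (fun n => ?_) hr
    rw [norm_mul, norm_zpow, zpow_natCast]
    calc ‖s (n : ℤ)‖ * ‖z‖ ^ n ≤ A * Real.exp (n * (-Real.log ‖z‖ / 2)) * ‖z‖ ^ n := by
          gcongr
          exact hA n
      _ = A * (Real.exp (n * (-Real.log ‖z‖ / 2)) * Real.exp (n * Real.log ‖z‖)) := by
          rw [mul_assoc]
          congr 2
          rw [Real.exp_nat_mul, ← hexp]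
      _ = A * (Real.exp (Real.log ‖z‖ / 2)) ^ n := by
          rw [← Real.exp_add, ← Real.exp_nat_mul]
          congr 2
          ring
  · obtain ⟨A, hA⟩ := hs.neg ((2 * D.Y - Real.log ‖z‖) / 2) (by linarith)
    have hr : Summable fun n : ℕ =>
        A * (Real.exp (-((2 * D.Y + Real.log ‖z‖) / 2))) ^ n :=
      (summable_geometric_of_lt_one (Real.exp_pos _).le
        (by rw [Real.exp_lt_one_iff]; linarith)).mul_left A
    refine Summable.of_nonneg_of_le (fun n => norm_nonneg _) (fun n => ?_) hr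
    rw [norm_mul, norm_zpow, zpow_neg, zpow_natCast]
    calc ‖s (-(n : ℤ))‖ * (‖z‖ ^ n)⁻¹
        ≤ A * Real.exp (-(n * ((2 * D.Y - Real.log ‖z‖) / 2))) * (‖z‖ ^ n)⁻¹ := by
          gcongr
          exact hA n
      _ = A * (Real.exp (-(n * ((2 * D.Y - Real.log ‖z‖) / 2))) *
            Real.exp (-(n * Real.log ‖z‖))) := by
          rw [mul_assoc]
          congr 2
          rw [Real.exp_neg (n * Real.log ‖z‖), Real.exp_nat_mul, ← hexp]
      _ = A * (Real.exp (-((2 * D.Y + Real.log ‖z‖) / 2))) ^ n := by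
          rw [← Real.exp_add, ← Real.exp_nat_mul]
          congr 2
          ring

theorem Jou_mem_annulus {D : CData} {w : ℂ} (hw : w ∈ Ell (2 * D.Y)) (hw' : w ∉ segm 1) :
    Real.exp (-(2 * D.Y)) < ‖Jou w‖ ∧ ‖Jou w‖ < 1 :=
  ⟨(mem_Ell_iff_lt_norm_Jou hw' (by linarith [D.Y_pos])).1 hw, norm_Jou_lt_one hw'⟩

theorem gfun_summable {D : CData} {η : ℝ} {s : ℤ → ℂ} (hs : InV D η s) {w : ℂ}
    (hw : w ∈ Ell (2 * D.Y)) (hw' : w ∉ segm 1) : Summable fun m : ℤ => s m * Jou w ^ m :=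
  (hs.summable_laurent (Jou_mem_annulus hw hw').1 (Jou_mem_annulus hw hw').2).of_norm

theorem gfun_hasSum_cos {D : CData} {η : ℝ} {s : ℤ → ℂ} (hs : InV D η s) {z : ℂ} (hz : 0 < z.im)
    (hz' : z.im < 2 * D.Y) : HasSum (fun m : ℤ => s m * exp (m * I * z)) (gfun s (cos z)) := by
  have hY := D.Y_pos
  have h1 : cos z ∈ Ell (2 * D.Y) :=
    (cos_mem_Ell_iff (by linarith)).2 (by rw [abs_of_pos hz]; exact hz')
  have h2 := (gfun_summable hs h1 (cos_notMem_segm hz)).hasSum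
  have h3 : (fun m : ℤ => s m * exp (m * I * z)) = fun m : ℤ => s m * Jou (cos z) ^ m := by
    funext m
    rw [Jou_cos hz, ← Complex.exp_int_mul, mul_assoc]
  rw [h3]
  exact h2

/-- the Laurent series is differentiable in the annulus -/
theorem InV.differentiableAt_laurent {D : CData} {η : ℝ} {s : ℤ → ℂ} (hs : InV D η s) {z₀ : ℂ}
    (h1 : Real.exp (-(2 * D.Y)) < ‖z₀‖) (h2 : ‖z₀‖ < 1) :
    DifferentiableAt ℂ (fun z : ℂ => ∑' m : ℤ, s m * z ^ m) z₀ := by
  obtain ⟨r₁, h3, h4⟩ := exists_between h1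
  obtain ⟨r₂, h5, h6⟩ := exists_between h2
  have hr₁ : 0 < r₁ := lt_trans (Real.exp_pos _) h3
  have hr₂ : 0 < r₂ := lt_trans (lt_trans hr₁ h4) h5
  have n1 : ‖(r₁ : ℂ)‖ = r₁ := by rw [Complex.norm_real, Real.norm_of_nonneg hr₁.le]
  have n2 : ‖(r₂ : ℂ)‖ = r₂ := by rw [Complex.norm_real, Real.norm_of_nonneg hr₂.le]
  have s1 := hs.summable_laurent (z := (r₁ : ℂ)) (by rw [n1]; exact h3)
    (by rw [n1]; linarith)
  have s2 := hs.summable_laurent (z := (r₂ : ℂ)) (by rw [n2]; linarith)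
    (by rw [n2]; exact h6)
  have hU : IsOpen {z : ℂ | r₁ < ‖z‖ ∧ ‖z‖ < r₂} :=
    (isOpen_lt continuous_const continuous_norm).inter (isOpen_lt continuous_norm continuous_const)
  have hd : DifferentiableOn ℂ (fun z : ℂ => ∑' m : ℤ, s m * z ^ m)
      {z : ℂ | r₁ < ‖z‖ ∧ ‖z‖ < r₂} := by
    refine differentiableOn_tsum_of_summable_norm (s1.add s2) (fun m => ?_) hU ?_
    · intro z hz
      have hz0 : z ≠ 0 := by
        rintro rfl
        have := hz.1
        rw [norm_zero] at this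
        linarith
      exact ((differentiableAt_zpow.2 (Or.inl hz0)).const_mul (s m)).differentiableWithinAt
    · intro m z hz
      have hz0 : 0 < ‖z‖ := lt_trans hr₁ hz.1
      rw [norm_mul, norm_mul, norm_mul, norm_zpow, norm_zpow, norm_zpow, n1, n2]
      rcases le_or_gt 0 m with hm | hm
      · have : ‖z‖ ^ m ≤ r₂ ^ m := by
          obtain ⟨k, rfl⟩ := Int.eq_ofNat_of_zero_le hm
          rw [zpow_natCast, zpow_natCast]
          exact pow_le_pow_left₀ hz0.le hz.2.le k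
        have h7 : 0 ≤ ‖s m‖ * r₁ ^ m := by positivity
        have h8 : ‖s m‖ * ‖z‖ ^ m ≤ ‖s m‖ * r₂ ^ m := by gcongr
        linarith
      · have : ‖z‖ ^ m ≤ r₁ ^ m := by
          obtain ⟨k, hk⟩ := Int.eq_ofNat_of_zero_le (by linarith : 0 ≤ -m)
          have hm' : m = -(k : ℤ) := by linarith
          rw [hm', zpow_neg, zpow_neg, zpow_natCast, zpow_natCast]
          exact inv_anti₀ (by positivity) (pow_le_pow_left₀ hr₁.le hz.1.le k)
        have h7 : 0 ≤ ‖s m‖ * r₂ ^ m := by positivity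
        have h8 : ‖s m‖ * ‖z‖ ^ m ≤ ‖s m‖ * r₁ ^ m := by gcongr
        linarith
  exact hd.differentiableAt (hU.mem_nhds ⟨h4, h5⟩)

theorem gfun_differentiableOn {D : CData} {η : ℝ} {s : ℤ → ℂ} (hs : InV D η s) :
    DifferentiableOn ℂ (gfun s) (Ell (2 * D.Y) \ segm 1) := by
  rintro w ⟨hw, hw'⟩
  have h1 := Jou_mem_annulus hw hw'
  have h2 : DifferentiableAt ℂ Jou w :=
    differentiableOn_Jou.differentiableAt ((isClosed_segm 1).isOpen_compl.mem_nhds hw')
  exact ((hs.differentiableAt_laurent h1.1 h1.2).comp w h2).differentiableWithinAt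

theorem gfun_conj {D : CData} {η : ℝ} {s : ℤ → ℂ} (hs : InV D η s) {w : ℂ}
    (hw : w ∈ Ell (2 * D.Y)) (hw' : w ∉ segm 1) :
    gfun (fun m => starRingEnd ℂ (s m)) w = starRingEnd ℂ (gfun s (starRingEnd ℂ w)) := by
  unfold gfun
  rw [Complex.conj_tsum]
  refine tsum_congr fun m => ?_
  rw [map_mul, map_zpow₀, Jou_conj hw', Complex.conj_conj]

theorem gfun_twist {D : CData} {η : ℝ} {s : ℤ → ℂ} (hs : InV D η s) {w : ℂ}
    (hw : w ∈ Ell (2 * D.Y)) (hw' : w ∉ segm 1) :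
    gfun (fun m => (-1) ^ m * s m) w = gfun s (-w) := by
  unfold gfun
  refine tsum_congr fun m => ?_
  rw [Jou_neg hw', ← neg_one_mul (Jou w), mul_zpow]
  ring

end LSB
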