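import Pool.Agent.LSB.CX

/-!
# Part C, module CGrowth: growth of `∑ s m X n m ϖ` in `n`

Paper proof.  Take `C,r` from `X_bound` with `y₀=T₀/4`, and shrink `r` so that `C r²≤min(T₀,Y₁-Y)/4` and `9/8 r<T₀/4`.  For `n≥1` put
`μ=min(1/n,μ₀)`, `μ₀=min(T₀,Y₁-Y)/4`.  By `X_eq_line` all lines `Im α=y∈[T₀/4,Y₁)` give the same `X`.  For `m≥0` use
`y=T+C‖ϖ‖²+μ<Y₁`: `‖s m X‖≤A exp(mT+ny-my+Cm‖ϖ‖²)=A exp(ny-mμ)`.  For `m=-k≤0` use `y=T-C‖ϖ‖²-μ≥T₀/4`: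
`‖s(-k)X‖≤A exp(-kY+ny+ky+Ck‖ϖ‖²)≤A exp(ny-kμ)` as `T≤Y`.  Since `nμ≤1` and `∑_k e^{-kμ}≤1+1/μ≤(2+1/μ₀)n`, the sum is
bounded by `C'·A·n·exp(n(T+C‖ϖ‖²))`.  Differentiability: locally uniformly summable series of differentiable functions.
-/

namespace LSB

open Complex Metric

namespace CData

/-- The two-sided geometric series. -/
theorem hasSum_exp_abs {μ : ℝ} (hμ : 0 < μ) :
    HasSum (fun m : ℤ => Real.exp (-(|(m : ℝ)| * μ)))
      ((1 - Real.exp (-μ))⁻¹ + Real.exp (-μ) * (1 - Real.exp (-μ))⁻¹) := by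
  have h0 : 0 ≤ Real.exp (-μ) := (Real.exp_pos _).le
  have h1 : Real.exp (-μ) < 1 := Real.exp_lt_one_iff.mpr (by linarith)
  have hg := hasSum_geometric_of_lt_one h0 h1
  refine HasSum.of_nat_of_neg_add_one ?_ ?_
  · have e1 : (fun k : ℕ => Real.exp (-(|(((k : ℕ) : ℤ) : ℝ)| * μ))) =
        fun k : ℕ => Real.exp (-μ) ^ k := by
      funext k
      rw [← Real.exp_nat_mul]
      congr 1
      push_cast
      rw [abs_of_nonneg (Nat.cast_nonneg k)]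
      ring
    rw [e1]
    exact hg
  · have e1 : (fun k : ℕ => Real.exp (-(|((-((k : ℤ) + 1) : ℤ) : ℝ)| * μ))) =
        fun k : ℕ => Real.exp (-μ) * Real.exp (-μ) ^ k := by
      funext k
      rw [← Real.exp_nat_mul, ← Real.exp_add]
      congr 1
      push_cast
      rw [abs_neg, abs_of_nonneg (by positivity)]
      ring
    rw [e1]
    exact hg.mul_left _

theorem geom_le {μ : ℝ} (hμ : 0 < μ) :
    (1 - Real.exp (-μ))⁻¹ + Real.exp (-μ) * (1 - Real.exp (-μ))⁻¹ ≤ 2 * (1 + 1 / μ) := by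
  have h1 : Real.exp (-μ) < 1 := Real.exp_lt_one_iff.mpr (by linarith)
  have h2 : μ + 1 ≤ Real.exp μ := Real.add_one_le_exp μ
  have h3 : (1 - Real.exp (-μ))⁻¹ ≤ 1 + 1 / μ := by
    rw [inv_le_comm₀ (by linarith) (by positivity)]
    have h4 : Real.exp (-μ) ≤ (μ + 1)⁻¹ := by
      rw [Real.exp_neg]
      exact inv_anti₀ (by linarith) h2
    have h5 : (1 + 1 / μ)⁻¹ = 1 - (μ + 1)⁻¹ := by
      field_simp
      ring
    rw [h5]
    linarith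
  have h4 : 0 ≤ (1 - Real.exp (-μ))⁻¹ := inv_nonneg.mpr (by linarith)
  nlinarith [Real.exp_pos (-μ)]

variable (D : CData)

theorem growth {T₀ : ℝ} (hT₀ : 0 < T₀) : ∃ C r : ℝ, 0 ≤ C ∧ 0 < r ∧ r ≤ D.r₀ ∧
    ∀ (T A : ℝ) (s : ℤ → ℂ), T₀ ≤ T → T ≤ D.Y → 0 ≤ A →
      (∀ m : ℕ, ‖s m‖ ≤ A * Real.exp (m * T)) →
      (∀ m : ℕ, ‖s (-m)‖ ≤ A * Real.exp (-(m * D.Y))) →
      ∀ n : ℕ, 1 ≤ n →
        (∀ ϖ ∈ ball (0 : ℂ) r, Summable fun m : ℤ => s m * D.X n m ϖ D.Y) ∧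
        DifferentiableOn ℂ (fun ϖ => ∑' m : ℤ, s m * D.X n m ϖ D.Y) (ball 0 r) ∧
        ∀ ϖ ∈ ball (0 : ℂ) r, ‖∑' m : ℤ, s m * D.X n m ϖ D.Y‖ ≤
          C * A * n * Real.exp (n * (T + C * ‖ϖ‖ ^ 2)) := by
  obtain ⟨C₁, r₁, hC₁, hr₁, hr₁', hX⟩ := D.X_bound (y₀ := T₀ / 4) (by positivity)
  have hYY := D.Y_lt
  set μ₀ : ℝ := min T₀ (D.Y₁ - D.Y) / 4 with hμ₀
  have hμ₀pos : 0 < μ₀ := by
    rw [hμ₀]
    have : 0 < min T₀ (D.Y₁ - D.Y) := lt_min hT₀ (by linarith)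
    linarith
  have hμ₀T : μ₀ ≤ T₀ / 4 := by
    rw [hμ₀]
    linarith [min_le_left T₀ (D.Y₁ - D.Y)]
  have hμ₀Y : μ₀ ≤ (D.Y₁ - D.Y) / 4 := by
    rw [hμ₀]
    linarith [min_le_right T₀ (D.Y₁ - D.Y)]
  -- the radius
  obtain ⟨r, hr, hrr₁, hrC, hrT⟩ : ∃ r : ℝ, 0 < r ∧ r ≤ r₁ ∧ C₁ * r ^ 2 ≤ μ₀ ∧
      9 / 8 * r < T₀ / 4 := by
    refine ⟨min r₁ (min 1 (min (μ₀ / (C₁ + 1)) (T₀ / 8))), ?_, min_le_left _ _, ?_, ?_⟩
    · have : 0 < μ₀ / (C₁ + 1) := by positivity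
      exact lt_min hr₁ (lt_min one_pos (lt_min this (by positivity)))
    · set r := min r₁ (min 1 (min (μ₀ / (C₁ + 1)) (T₀ / 8))) with hr
      have h0 : 0 ≤ r := by
        have : 0 < μ₀ / (C₁ + 1) := by positivity
        exact (lt_min hr₁ (lt_min one_pos (lt_min this (by positivity)))).le
      have h1 : r ≤ 1 := (min_le_right _ _).trans (min_le_left _ _)
      have h2 : r ≤ μ₀ / (C₁ + 1) :=
        (min_le_right _ _).trans ((min_le_right _ _).trans (min_le_left _ _))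
      have h3 : r ^ 2 ≤ r := by nlinarith
      have h4 : C₁ * r ^ 2 ≤ C₁ * (μ₀ / (C₁ + 1)) := by
        gcongr
        exact h3.trans h2
      have h5 : C₁ * (μ₀ / (C₁ + 1)) ≤ μ₀ := by
        rw [mul_div_assoc', div_le_iff₀ (by positivity)]
        nlinarith
      linarith
    · have h2 : min r₁ (min 1 (min (μ₀ / (C₁ + 1)) (T₀ / 8))) ≤ T₀ / 8 :=
        (min_le_right _ _).trans ((min_le_right _ _).trans (min_le_right _ _))
      linarith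
  set C : ℝ := C₁ + 2 * Real.exp 1 * (2 + 1 / μ₀) with hC
  have hC0 : 0 ≤ 2 * Real.exp 1 * (2 + 1 / μ₀) := by positivity
  refine ⟨C, r, by linarith, hr, hrr₁.trans hr₁', ?_⟩
  intro T A s hT hTY hA hs hs' n hn
  have hn' : (1 : ℝ) ≤ n := by exact_mod_cast hn
  have hn0 : (0 : ℝ) < n := by linarith
  set μ : ℝ := min (1 / n) μ₀ with hμ
  have hμpos : 0 < μ := lt_min (by positivity) hμ₀pos
  have hμle : μ ≤ μ₀ := min_le_right _ _
  have hnμ : n * μ ≤ 1 := by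
    calc (n : ℝ) * μ ≤ n * (1 / n) := by
          gcongr
          exact min_le_left _ _
      _ = 1 := by field_simp
  -- the pointwise bound
  have key : ∀ ϖ ∈ ball (0 : ℂ) r, ∀ m : ℤ, ‖s m * D.X n m ϖ D.Y‖ ≤
      A * Real.exp (n * (T + C₁ * ‖ϖ‖ ^ 2) + 1) * Real.exp (-(|(m : ℝ)| * μ)) := by
    intro ϖ hϖ m
    have hϖ' : ‖ϖ‖ < r := by simpa using hϖ
    have him : |ϖ.im| ≤ ‖ϖ‖ := Complex.abs_im_le_norm ϖ
    have h98 : 9 / 8 * |ϖ.im| < T₀ / 4 := by nlinarith [abs_nonneg ϖ.im]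
    have he0 : 0 ≤ C₁ * ‖ϖ‖ ^ 2 := by positivity
    have he : C₁ * ‖ϖ‖ ^ 2 ≤ μ₀ := by
      refine le_trans ?_ hrC
      gcongr
    set e := C₁ * ‖ϖ‖ ^ 2 with hedef
    have hline : ∀ y : ℝ, T₀ / 4 ≤ y → y < D.Y₁ → D.X n m ϖ D.Y = D.X n m ϖ y := by
      intro y hy1 hy2
      exact D.X_eq_line n m (hϖ'.trans_le (hrr₁.trans hr₁')) ⟨by linarith, hYY⟩
        ⟨by linarith, hy2⟩
    rw [norm_mul]
    rcases le_or_gt 0 m with hm | hm
    · obtain ⟨k, rfl⟩ := Int.eq_ofNat_of_zero_le hm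
      have hy1 : T₀ / 4 ≤ T + e + μ := by linarith
      have hy2 : T + e + μ < D.Y₁ := by linarith
      rw [hline _ hy1 hy2]
      have hb := hX n k ϖ (T + e + μ) (hϖ'.trans_le hrr₁) hy1 hy2
      calc ‖s (k : ℤ)‖ * ‖D.X n k ϖ (T + e + μ)‖
          ≤ (A * Real.exp (k * T)) * Real.exp (((n : ℕ) : ℤ) * (T + e + μ) -
              ((k : ℕ) : ℤ) * (T + e + μ) + C₁ * |(((k : ℕ) : ℤ) : ℝ)| * ‖ϖ‖ ^ 2) := by
            gcongr
            exact hs k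
        _ = A * Real.exp (k * T + (((n : ℕ) : ℤ) * (T + e + μ) -
              ((k : ℕ) : ℤ) * (T + e + μ) + C₁ * |(((k : ℕ) : ℤ) : ℝ)| * ‖ϖ‖ ^ 2)) := by
            rw [mul_assoc, ← Real.exp_add]
        _ ≤ A * Real.exp (n * (T + e) + 1 + -(|(((k : ℕ) : ℤ) : ℝ)| * μ)) := by
            refine mul_le_mul_of_nonneg_left (Real.exp_le_exp.mpr ?_) hA
            push_cast
            rw [abs_of_nonneg (Nat.cast_nonneg k)]
            have : C₁ * k * ‖ϖ‖ ^ 2 = k * e := by rw [hedef]; ring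
            nlinarith
        _ = _ := by rw [Real.exp_add, mul_assoc]
    · obtain ⟨k, hk⟩ := Int.eq_ofNat_of_zero_le (by linarith : 0 ≤ -m)
      have hmk : m = -(k : ℤ) := by linarith
      subst hmk
      have hy1 : T₀ / 4 ≤ T - e - μ := by linarith
      have hy2 : T - e - μ < D.Y₁ := by linarith
      rw [hline _ hy1 hy2]
      have hb := hX n (-(k : ℤ)) ϖ (T - e - μ) (hϖ'.trans_le hrr₁) hy1 hy2
      calc ‖s (-(k : ℤ))‖ * ‖D.X n (-(k : ℤ)) ϖ (T - e - μ)‖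
          ≤ (A * Real.exp (-(k * D.Y))) * Real.exp (((n : ℕ) : ℤ) * (T - e - μ) -
              ((-(k : ℤ) : ℤ) : ℝ) * (T - e - μ) + C₁ * |((-(k : ℤ) : ℤ) : ℝ)| * ‖ϖ‖ ^ 2) := by
            gcongr
            exact hs' k
        _ = A * Real.exp (-(k * D.Y) + (((n : ℕ) : ℤ) * (T - e - μ) -
              ((-(k : ℤ) : ℤ) : ℝ) * (T - e - μ) + C₁ * |((-(k : ℤ) : ℤ) : ℝ)| * ‖ϖ‖ ^ 2)) := by
            rw [mul_assoc, ← Real.exp_add]
        _ ≤ A * Real.exp (n * (T + e) + 1 + -(|((-(k : ℤ) : ℤ) : ℝ)| * μ)) := by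
            refine mul_le_mul_of_nonneg_left (Real.exp_le_exp.mpr ?_) hA
            push_cast
            rw [abs_neg, abs_of_nonneg (Nat.cast_nonneg k)]
            have h1 : C₁ * k * ‖ϖ‖ ^ 2 = k * e := by rw [hedef]; ring
            have h2 : (k : ℝ) * T ≤ k * D.Y := by gcongr
            have h3 : 0 ≤ (n : ℝ) * e := by positivity
            nlinarith
        _ = _ := by rw [Real.exp_add, mul_assoc]
  have hsum := hasSum_exp_abs hμpos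
  have hsumm : ∀ ϖ ∈ ball (0 : ℂ) r, Summable fun m : ℤ => s m * D.X n m ϖ D.Y := by
    intro ϖ hϖ
    exact Summable.of_norm_bounded (hsum.summable.mul_left _) (key ϖ hϖ)
  refine ⟨hsumm, ?_, ?_⟩
  · refine differentiableOn_tsum_of_summable_norm
      (u := fun m : ℤ => A * Real.exp (n * (T + C₁ * r ^ 2) + 1) * Real.exp (-(|(m : ℝ)| * μ)))
      (hsum.summable.mul_left _) (fun m => ?_) isOpen_ball (fun m ϖ hϖ => ?_)
    · refine DifferentiableOn.const_mul ?_ (s m)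
      refine (D.X_differentiableOn n m D.Y_pos hYY).mono fun ϖ hϖ => ?_
      have hϖ' : ‖ϖ‖ < r := by simpa using hϖ
      have him : |ϖ.im| ≤ ‖ϖ‖ := Complex.abs_im_le_norm ϖ
      have h98 : 9 / 8 * |ϖ.im| < T₀ / 4 := by nlinarith [abs_nonneg ϖ.im]
      exact ⟨hϖ'.trans_le (hrr₁.trans hr₁'), by linarith⟩
    · refine (key ϖ hϖ m).trans ?_
      have hϖ' : ‖ϖ‖ < r := by simpa using hϖ
      gcongr
  · intro ϖ hϖ
    have h1 : ‖∑' m : ℤ, s m * D.X n m ϖ D.Y‖ ≤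
        A * Real.exp (n * (T + C₁ * ‖ϖ‖ ^ 2) + 1) *
          ((1 - Real.exp (-μ))⁻¹ + Real.exp (-μ) * (1 - Real.exp (-μ))⁻¹) :=
      tsum_of_norm_bounded (hsum.mul_left _) (key ϖ hϖ)
    have h2 : (1 - Real.exp (-μ))⁻¹ + Real.exp (-μ) * (1 - Real.exp (-μ))⁻¹ ≤
        2 * (2 + 1 / μ₀) * n := by
      refine (geom_le hμpos).trans ?_
      have h3 : 1 / μ ≤ n + 1 / μ₀ := by
        rcases min_choice (1 / (n : ℝ)) μ₀ with h | h
        · rw [hμ, h]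
          have : 0 < 1 / μ₀ := by positivity
          rw [one_div_one_div]
          linarith
        · rw [hμ, h]
          linarith
      have h4 : 1 / μ₀ ≤ 1 / μ₀ * n := le_mul_of_one_le_right (by positivity) hn'
      nlinarith
    calc ‖∑' m : ℤ, s m * D.X n m ϖ D.Y‖
        ≤ A * Real.exp (n * (T + C₁ * ‖ϖ‖ ^ 2) + 1) * (2 * (2 + 1 / μ₀) * n) := by
          refine h1.trans ?_
          gcongr
      _ = (2 * Real.exp 1 * (2 + 1 / μ₀)) * A * n * Real.exp (n * (T + C₁ * ‖ϖ‖ ^ 2)) := by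
          rw [Real.exp_add]; ring
      _ ≤ C * A * n * Real.exp (n * (T + C * ‖ϖ‖ ^ 2)) := by
          gcongr
          · linarith
          · linarith

end CData

end LSB
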