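import Pool.Agent.LSB.Defs

/-!
# Part C, module CJou: the inverse Joukowski map

Paper proof.  `cos z` real with `Im z>0` forces `sin(Re z)=0` and `|cos z|=cosh(Im z)>1`: `cos_notMem_segm`.
For `w=cos z`, `Im z>0`: `1-1/w²=-tan²z=(i tan z)²`, and `Re(i tan z)=-Im tan z<0` (because
`Im tan(x+iy)=sinh y cosh y/(cos²x+sinh²y)>0`), so the principal square root is `-i tan z` and
`Jou w=cos z(1+i tan z)=e^{iz}` (`cos z≠0`).  `exists_cos_eq`: `Complex.cos` is surjective; take `z` with `cos z=w`;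
`Im z≠0` (real `z` gives `w∈[-1,1]`), replace `z` by `-z` if necessary.  `differentiableOn_Jou`: for `w∉[-1,1]`: `w≠0` and
`1-1/w²∉(-∞,0]` (`1/w²≥1` real forces `w∈[-1,1]`), principal square root differentiable on the slit plane.
`Jou_neg`, `Jou_conj` from `exists_cos_eq` (`cos(π-z)`.. or directly: `cos(z+π)=-cos z`; `cos(-conj z)=conj(cos z)`).
`norm_sub_add_norm_add`: `|cos z-1|=2|sin(z/2)|²`, `|cos z+1|=2|cos(z/2)|²`, `|sin u|²+|cos u|²=cosh(2 Im u)`.
-/

set_option linter.all false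

namespace LSB

open Complex

/-- The real segment `[-r, r]`. -/
def segm (r : ℝ) : Set ℂ := {w | w.im = 0 ∧ |w.re| ≤ r}

/-- The open region bounded by the ellipse with foci `±1` which is the image under `cos` of the
strip `|Im z| < τ`. -/
def Ell (τ : ℝ) : Set ℂ := {w | ‖w - 1‖ + ‖w + 1‖ < 2 * Real.cosh τ}

/-- Inverse Joukowski map: `Jou (cos z) = exp (i z)` for `Im z > 0`. -/
noncomputable def Jou (w : ℂ) : ℂ := w * (1 - (1 - 1 / w ^ 2) ^ (1 / 2 : ℂ))

theorem isClosed_segm (r : ℝ) : IsClosed (segm r) := by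
  have h1 : IsClosed {w : ℂ | w.im = 0} := isClosed_eq Complex.continuous_im continuous_const
  have h2 : IsClosed {w : ℂ | |w.re| ≤ r} :=
    isClosed_le Complex.continuous_re.abs continuous_const
  exact h1.inter h2

theorem isOpen_Ell (τ : ℝ) : IsOpen (Ell τ) := by
  exact isOpen_lt (((continuous_id.sub continuous_const).norm).add
    ((continuous_id.add continuous_const).norm)) continuous_const

theorem cos_re' (z : ℂ) : (cos z).re = Real.cos z.re * Real.cosh z.im := by
  rw [Complex.cos_eq]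
  simp only [← Complex.ofReal_cos, ← Complex.ofReal_sin, ← Complex.ofReal_cosh,
    ← Complex.ofReal_sinh, Complex.sub_re, Complex.mul_re, Complex.mul_im, Complex.ofReal_re,
    Complex.ofReal_im, Complex.I_re, Complex.I_im]
  ring

theorem cos_im' (z : ℂ) : (cos z).im = -(Real.sin z.re * Real.sinh z.im) := by
  rw [Complex.cos_eq]
  simp only [← Complex.ofReal_cos, ← Complex.ofReal_sin, ← Complex.ofReal_cosh,
    ← Complex.ofReal_sinh, Complex.sub_im, Complex.mul_re, Complex.mul_im, Complex.ofReal_re,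
    Complex.ofReal_im, Complex.I_re, Complex.I_im]
  ring

theorem sin_re' (z : ℂ) : (sin z).re = Real.sin z.re * Real.cosh z.im := by
  rw [Complex.sin_eq]
  simp only [← Complex.ofReal_cos, ← Complex.ofReal_sin, ← Complex.ofReal_cosh,
    ← Complex.ofReal_sinh, Complex.add_re, Complex.mul_re, Complex.mul_im, Complex.ofReal_re,
    Complex.ofReal_im, Complex.I_re, Complex.I_im]
  ring

theorem sin_im' (z : ℂ) : (sin z).im = Real.cos z.re * Real.sinh z.im := by
  rw [Complex.sin_eq]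
  simp only [← Complex.ofReal_cos, ← Complex.ofReal_sin, ← Complex.ofReal_cosh,
    ← Complex.ofReal_sinh, Complex.add_im, Complex.mul_re, Complex.mul_im, Complex.ofReal_re,
    Complex.ofReal_im, Complex.I_re, Complex.I_im]
  ring

theorem cos_notMem_segm {z : ℂ} (hz : 0 < z.im) : cos z ∉ segm 1 := by
  rintro ⟨h1, h2⟩
  rw [cos_im'] at h1
  rw [cos_re'] at h2
  have hs : 0 < Real.sinh z.im := Real.sinh_pos_iff.2 hz
  have h3 : Real.sin z.re = 0 := by
    rcases mul_eq_zero.1 (neg_eq_zero.1 h1) with h | h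
    · exact h
    · exact absurd h hs.ne'
  have h4 : 1 < Real.cosh z.im := Real.one_lt_cosh.2 hz.ne'
  have h5 : Real.cos z.re ^ 2 = 1 := by
    have := Real.sin_sq_add_cos_sq z.re
    rw [h3] at this
    linarith
  rw [abs_mul, abs_of_pos (by linarith : 0 < Real.cosh z.im)] at h2
  have h6 : |Real.cos z.re| = 1 := by
    rw [← sq_eq_sq₀ (abs_nonneg _) zero_le_one, sq_abs, h5]
    norm_num
  rw [h6] at h2
  linarith

theorem exists_cos_eq {w : ℂ} (hw : w ∉ segm 1) : ∃ z : ℂ, 0 < z.im ∧ cos z = w := by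
  obtain ⟨z, hz⟩ := Complex.cos_surjective w
  rcases lt_trichotomy z.im 0 with h | h | h
  · refine ⟨-z, ?_, ?_⟩
    · rw [Complex.neg_im]
      linarith
    · rw [Complex.cos_neg, hz]
  · exfalso
    apply hw
    rw [← hz]
    refine ⟨?_, ?_⟩
    · rw [cos_im', h, Real.sinh_zero, mul_zero, neg_zero]
    · rw [cos_re', h, Real.cosh_zero, mul_one]
      exact Real.abs_cos_le_one _
  · exact ⟨z, h, hz⟩

theorem cos_ne_zero_of_im_pos {z : ℂ} (hz : 0 < z.im) : cos z ≠ 0 := by
  intro h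
  apply cos_notMem_segm hz
  rw [h]
  exact ⟨rfl, by simp⟩

theorem root_sq {z : ℂ} (hz : 0 < z.im) :
    (-(I * (sin z / cos z))) ^ 2 = 1 - 1 / cos z ^ 2 := by
  have hc := cos_ne_zero_of_im_pos hz
  have h := Complex.sin_sq_add_cos_sq z
  field_simp
  rw [Complex.I_sq]
  linear_combination (-1) * h

theorem root_re_pos {z : ℂ} (hz : 0 < z.im) : 0 < (-(I * (sin z / cos z))).re := by
  have hc := cos_ne_zero_of_im_pos hz
  have hs : 0 < Real.sinh z.im := Real.sinh_pos_iff.2 hz
  have hch : 0 < Real.cosh z.im := Real.cosh_pos _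
  have h1 : (-(I * (sin z / cos z))).re = (sin z / cos z).im := by
    rw [Complex.neg_re, Complex.mul_re, Complex.I_re, Complex.I_im]
    ring
  have hn : 0 < Complex.normSq (cos z) := Complex.normSq_pos.2 hc
  have h2 : (sin z / cos z).im = Real.sinh z.im * Real.cosh z.im / Complex.normSq (cos z) := by
    rw [Complex.div_im, cos_re', cos_im', sin_re', sin_im']
    have := Real.sin_sq_add_cos_sq z.re
    rw [div_sub_div_same]
    congr 1
    linear_combination (Real.sinh z.im * Real.cosh z.im) * this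
  rw [h1, h2]
  positivity

theorem Jou_cos {z : ℂ} (hz : 0 < z.im) : Jou (cos z) = exp (I * z) := by
  have hc := cos_ne_zero_of_im_pos hz
  unfold Jou
  rw [← root_sq hz, one_div, Complex.sq_cpow_two_inv (root_re_pos hz), mul_comm I z,
    Complex.exp_mul_I]
  field_simp
  ring

theorem differentiableOn_Jou : DifferentiableOn ℂ Jou (segm 1)ᶜ := by
  intro w hw
  obtain ⟨z, hz, rfl⟩ := exists_cos_eq hw
  have hc := cos_ne_zero_of_im_pos hz
  have hc2 : cos z ^ 2 ≠ 0 := pow_ne_zero 2 hc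
  apply DifferentiableAt.differentiableWithinAt
  have hsl : (1 - 1 / cos z ^ 2 : ℂ) ∈ slitPlane := by
    rw [← root_sq hz, Complex.mem_slitPlane_iff]
    have h := root_re_pos hz
    set s := -(I * (sin z / cos z)) with hs
    by_cases h0 : s.im = 0
    · left
      rw [sq, Complex.mul_re, h0]
      nlinarith
    · right
      rw [sq, Complex.mul_im]
      intro h1
      have : s.re * s.im = 0 := by linarith
      rcases mul_eq_zero.1 this with h2 | h2
      · exact h.ne' h2
      · exact h0 h2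
  have h1 : DifferentiableAt ℂ (fun w : ℂ => 1 - 1 / w ^ 2) (cos z) :=
    (differentiableAt_const _).sub ((differentiableAt_const _).div (differentiableAt_id.pow 2) hc2)
  have h2 : DifferentiableAt ℂ (fun w : ℂ => (1 - 1 / w ^ 2) ^ (1 / 2 : ℂ)) (cos z) :=
    h1.cpow (differentiableAt_const _) hsl
  exact differentiableAt_id.mul ((differentiableAt_const _).sub h2)

theorem Jou_ne_zero {w : ℂ} (hw : w ∉ segm 1) : Jou w ≠ 0 := by
  obtain ⟨z, hz, rfl⟩ := exists_cos_eq hw
  rw [Jou_cos hz]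
  exact Complex.exp_ne_zero _

theorem norm_Jou_cos {z : ℂ} (hz : 0 < z.im) : ‖Jou (cos z)‖ = Real.exp (-z.im) := by
  rw [Jou_cos hz, Complex.norm_exp]
  congr 1
  rw [Complex.mul_re, Complex.I_re, Complex.I_im]
  ring

theorem norm_Jou_lt_one {w : ℂ} (hw : w ∉ segm 1) : ‖Jou w‖ < 1 := by
  obtain ⟨z, hz, rfl⟩ := exists_cos_eq hw
  rw [norm_Jou_cos hz, Real.exp_lt_one_iff]
  linarith

theorem Jou_neg {w : ℂ} (hw : w ∉ segm 1) : Jou (-w) = -Jou w := by
  unfold Jou
  rw [neg_sq]
  ring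

theorem Jou_conj {w : ℂ} (hw : w ∉ segm 1) :
    Jou (starRingEnd ℂ w) = starRingEnd ℂ (Jou w) := by
  obtain ⟨z, hz, rfl⟩ := exists_cos_eq hw
  have h1 : starRingEnd ℂ (cos z) = cos (-(starRingEnd ℂ z)) := by
    rw [Complex.cos_neg, Complex.cos_conj]
  have h2 : 0 < (-(starRingEnd ℂ z)).im := by
    rw [Complex.neg_im, Complex.conj_im]
    linarith
  rw [h1, Jou_cos h2, Jou_cos hz, ← Complex.exp_conj, map_mul, Complex.conj_I]
  congr 1
  ring

theorem norm_cos_sub_add_norm_cos_add (z : ℂ) :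
    ‖cos z - 1‖ + ‖cos z + 1‖ = 2 * Real.cosh z.im := by
  have hch : 1 ≤ Real.cosh z.im := Real.one_le_cosh _
  have hc1 : Real.cos z.re ≤ 1 := Real.cos_le_one _
  have hc2 : -1 ≤ Real.cos z.re := Real.neg_one_le_cos _
  have hsc := Real.sin_sq_add_cos_sq z.re
  have hcs := Real.cosh_sq z.im
  have h1 : ‖cos z - 1‖ = Real.cosh z.im - Real.cos z.re := by
    rw [Complex.norm_eq_sqrt_sq_add_sq, Complex.sub_re, Complex.sub_im, Complex.one_re,
      Complex.one_im, cos_re', cos_im']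
    rw [← Real.sqrt_sq (by linarith : 0 ≤ Real.cosh z.im - Real.cos z.re)]
    congr 1
    linear_combination (Real.sinh z.im ^ 2) * hsc + (Real.cos z.re ^ 2 - 1) * hcs
  have h2 : ‖cos z + 1‖ = Real.cosh z.im + Real.cos z.re := by
    rw [Complex.norm_eq_sqrt_sq_add_sq, Complex.add_re, Complex.add_im, Complex.one_re,
      Complex.one_im, cos_re', cos_im']
    rw [← Real.sqrt_sq (by linarith : 0 ≤ Real.cosh z.im + Real.cos z.re)]
    congr 1
    linear_combination (Real.sinh z.im ^ 2) * hsc + (Real.cos z.re ^ 2 - 1) * hcs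
  rw [h1, h2]
  ring

theorem cos_mem_Ell_iff {z : ℂ} {τ : ℝ} (hτ : 0 < τ) : cos z ∈ Ell τ ↔ |z.im| < τ := by
  unfold Ell
  rw [Set.mem_setOf_eq, norm_cos_sub_add_norm_cos_add]
  have h := Real.cosh_lt_cosh (x := z.im) (y := τ)
  rw [abs_of_pos hτ] at h
  rw [← h]
  constructor
  · intro h'
    linarith
  · intro h'
    linarith

theorem mem_Ell_iff_lt_norm_Jou {w : ℂ} (hw : w ∉ segm 1) {τ : ℝ} (hτ : 0 < τ) :
    w ∈ Ell τ ↔ Real.exp (-τ) < ‖Jou w‖ := by
  obtain ⟨z, hz, rfl⟩ := exists_cos_eq hw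
  rw [cos_mem_Ell_iff hτ, norm_Jou_cos hz, Real.exp_lt_exp, abs_of_pos hz]
  constructor
  · intro h'
    linarith
  · intro h'
    linarith

theorem segm_subset_Ell {τ : ℝ} (hτ : 0 < τ) : segm 1 ⊆ Ell τ := by
  rintro w ⟨h1, h2⟩
  have hw : w = (w.re : ℂ) := Complex.ext (by simp) (by simp [h1])
  have h3 : 1 < Real.cosh τ := Real.one_lt_cosh.2 hτ.ne'
  rw [abs_le] at h2
  unfold Ell
  rw [Set.mem_setOf_eq, hw]
  have h4 : ‖(w.re : ℂ) - 1‖ = 1 - w.re := by
    rw [← Complex.ofReal_one, ← Complex.ofReal_sub, Complex.norm_real, Real.norm_eq_abs,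
      abs_sub_comm, abs_of_nonneg (by linarith)]
  have h5 : ‖(w.re : ℂ) + 1‖ = w.re + 1 := by
    rw [← Complex.ofReal_one, ← Complex.ofReal_add, Complex.norm_real, Real.norm_eq_abs,
      abs_of_nonneg (by linarith)]
  rw [h4, h5]
  linarith

end LSB
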