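import Pool.Agent.LSB.Defs

/-!
# Part C, module COsgood: functions of two complex variables

Paper proof.  `osgood`: let `p∈U`; choose a closed bidisc `|z-p.1|≤2r`, `|w-p.2|≤2r` in `U`.  By the one-variable Cauchy formula in
`z` (separate differentiability), `F(z,w)=(1/2πi)∮_{|ζ-p.1|=2r}F(ζ,w)/(ζ-z)dζ` and
`∂_1F(z,w)=(1/2πi)∮F(ζ,w)/(ζ-z)²dζ` for `|z-p.1|<r`, which is jointly continuous in `(z,w)` since `F` is continuous on
the compact bidisc; the same for `∂_2F`.  Continuous partial derivatives give strict differentiability: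
Mathlib `hasStrictFDerivAt_uncurry_coprod` (Mathlib/Analysis/Calculus/FDeriv/Partial.lean).
`differentiableOn_tsum_two`: the sum is continuous (locally uniform limit, `ℂ×ℂ` locally compact) and
separately differentiable by the one-variable theorem (`differentiableOn_tsum_of_summable_norm` on small discs).
-/

namespace LSB

namespace COsg

open Filter Topology Uniformity

lemma exists_box {U : Set (ℂ × ℂ)} (hU : IsOpen U) {p : ℂ × ℂ} (hp : p ∈ U) :
    ∃ r > 0, Metric.closedBall p.1 r ×ˢ Metric.closedBall p.2 r ⊆ U := by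
  obtain ⟨r, hr, hrU⟩ := Metric.nhds_basis_closedBall.mem_iff.1 (hU.mem_nhds hp)
  refine ⟨r, hr, ?_⟩
  rw [closedBall_prod_same]
  exact hrU

/-- joint continuity of the first partial derivative -/
lemma cont_partial {U : Set (ℂ × ℂ)} (hU : IsOpen U) {F : ℂ × ℂ → ℂ} (hc : ContinuousOn F U)
    (h₁ : ∀ p ∈ U, DifferentiableAt ℂ (fun z => F (z, p.2)) p.1) {p : ℂ × ℂ} (hp : p ∈ U) :
    ContinuousAt (fun p : ℂ × ℂ => deriv (fun z => F (z, p.2)) p.1) p := by
  obtain ⟨z₀, w₀⟩ := p
  obtain ⟨r, hr, hrU⟩ := exists_box hU hp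
  simp only at hrU
  set s := Metric.ball z₀ r with hs
  have hbox : ∀ z ∈ s, ∀ w ∈ Metric.ball w₀ r, (z, w) ∈ U := fun z hz w hw =>
    hrU ⟨Metric.ball_subset_closedBall hz, Metric.ball_subset_closedBall hw⟩
  set G : ℂ → ℂ → ℂ := fun w z => F (z, w) with hG
  have hd : ∀ᶠ w in 𝓝 w₀, DifferentiableOn ℂ (G w) s := by
    filter_upwards [Metric.ball_mem_nhds w₀ hr] with w hw z hz
    exact (h₁ (z, w) (hbox z hz w hw)).differentiableWithinAt
  have hl : TendstoLocallyUniformlyOn G (G w₀) (𝓝 w₀) s := by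
    rw [Metric.isOpen_ball.tendstoLocallyUniformlyOn_iff_forall_tendsto]
    intro x hx
    have hx0 : (x, w₀) ∈ U := hbox x hx w₀ (Metric.mem_ball_self hr)
    have hcx := hc.continuousAt (hU.mem_nhds hx0)
    have e1 : Tendsto (fun y : ℂ × ℂ => (y.2, w₀)) (𝓝 w₀ ×ˢ 𝓝 x) (𝓝 (x, w₀)) := by
      rw [nhds_prod_eq]
      exact tendsto_snd.prodMk tendsto_const_nhds
    have e2 : Tendsto (fun y : ℂ × ℂ => (y.2, y.1)) (𝓝 w₀ ×ˢ 𝓝 x) (𝓝 (x, w₀)) := by
      rw [nhds_prod_eq]
      exact tendsto_snd.prodMk tendsto_fst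
    have e3 := (hcx.tendsto.comp e1).prodMk_nhds (hcx.tendsto.comp e2)
    exact e3.mono_right (nhds_le_uniformity _)
  have hl' := hl.deriv hd Metric.isOpen_ball
  rw [Metric.isOpen_ball.tendstoLocallyUniformlyOn_iff_forall_tendsto] at hl'
  have h2 := hl' z₀ (Metric.mem_ball_self hr)
  rw [tendsto_uniformity_iff_dist_tendsto_zero] at h2
  have h3 : DifferentiableOn ℂ (G w₀) s := hd.self_of_nhds
  have h4 : ContinuousAt (deriv (G w₀)) z₀ :=
    ((h3.deriv Metric.isOpen_ball).continuousOn).continuousAt (Metric.ball_mem_nhds z₀ hr)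
  have h5 : Tendsto (fun y : ℂ × ℂ => deriv (G w₀) y.2) (𝓝 w₀ ×ˢ 𝓝 z₀)
      (𝓝 (deriv (G w₀) z₀)) := h4.tendsto.comp tendsto_snd
  have h6 := tendsto_of_tendsto_of_dist h5 h2
  have h7 : Tendsto (fun y : ℂ × ℂ => (y.2, y.1)) (𝓝 (z₀, w₀)) (𝓝 w₀ ×ˢ 𝓝 z₀) := by
    rw [nhds_prod_eq]
    exact tendsto_snd.prodMk tendsto_fst
  exact h6.comp h7

/-- joint continuity of the second partial derivative -/
lemma cont_partial' {U : Set (ℂ × ℂ)} (hU : IsOpen U) {F : ℂ × ℂ → ℂ} (hc : ContinuousOn F U)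
    (h₂ : ∀ p ∈ U, DifferentiableAt ℂ (fun w => F (p.1, w)) p.2) {p : ℂ × ℂ} (hp : p ∈ U) :
    ContinuousAt (fun p : ℂ × ℂ => deriv (fun w => F (p.1, w)) p.2) p := by
  have hsw : Continuous (Prod.swap : ℂ × ℂ → ℂ × ℂ) := continuous_swap
  have h := cont_partial (U := Prod.swap ⁻¹' U) (hU.preimage hsw) (F := F ∘ Prod.swap)
    (hc.comp hsw.continuousOn (fun x hx => hx)) (fun p hp => h₂ p.swap hp) (p := p.swap)
    (by simpa using hp)
  exact ContinuousAt.comp (f := Prod.swap) (x := p) h hsw.continuousAt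

/-- strict differentiability -/
lemma strict {U : Set (ℂ × ℂ)} (hU : IsOpen U) {F : ℂ × ℂ → ℂ} (hc : ContinuousOn F U)
    (h₁ : ∀ p ∈ U, DifferentiableAt ℂ (fun z => F (z, p.2)) p.1)
    (h₂ : ∀ p ∈ U, DifferentiableAt ℂ (fun w => F (p.1, w)) p.2) {p : ℂ × ℂ} (hp : p ∈ U) :
    HasStrictFDerivAt F
      ((ContinuousLinearMap.toSpanSingleton ℂ (deriv (fun z => F (z, p.2)) p.1)).coprod
        (ContinuousLinearMap.toSpanSingleton ℂ (deriv (fun w => F (p.1, w)) p.2))) p := by
  have hcl : Continuous (fun c : ℂ => ContinuousLinearMap.toSpanSingleton ℂ c) :=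
    (ContinuousLinearMap.toSpanSingletonLIE ℂ ℂ).continuous
  have key := hasStrictFDerivAt_uncurry_coprod (𝕜 := ℂ) (u := p) (f := fun z w => F (z, w))
    (f₁ := fun z w => ContinuousLinearMap.toSpanSingleton ℂ (deriv (fun z => F (z, w)) z))
    (f₂ := fun z w => ContinuousLinearMap.toSpanSingleton ℂ (deriv (fun w => F (z, w)) w))
    (by
      filter_upwards [hU.mem_nhds hp] with v hv
      exact (h₁ v hv).hasDerivAt.hasFDerivAt)
    (by
      filter_upwards [hU.mem_nhds hp] with v hv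
      exact (h₂ v hv).hasDerivAt.hasFDerivAt)
    (hcl.continuousAt.comp (cont_partial hU hc h₁ hp))
    (hcl.continuousAt.comp (cont_partial' hU hc h₂ hp))
  exact key

lemma part₁ {U : Set (ℂ × ℂ)} (hU : IsOpen U) {F : ℂ × ℂ → ℂ} (hF : DifferentiableOn ℂ F U) :
    ∀ p ∈ U, DifferentiableAt ℂ (fun z => F (z, p.2)) p.1 := by
  intro p hp
  have h1 : DifferentiableAt ℂ F (p.1, p.2) := hF.differentiableAt (hU.mem_nhds hp)
  exact h1.comp p.1 (differentiableAt_id.prodMk (differentiableAt_const _))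

lemma part₂ {U : Set (ℂ × ℂ)} (hU : IsOpen U) {F : ℂ × ℂ → ℂ} (hF : DifferentiableOn ℂ F U) :
    ∀ p ∈ U, DifferentiableAt ℂ (fun w => F (p.1, w)) p.2 := by
  intro p hp
  have h1 : DifferentiableAt ℂ F (p.1, p.2) := hF.differentiableAt (hU.mem_nhds hp)
  exact h1.comp p.2 ((differentiableAt_const _).prodMk differentiableAt_id)

end COsg

open COsg Filter Topology Uniformity

/-- Osgood's lemma in two variables. -/
theorem osgood {U : Set (ℂ × ℂ)} (hU : IsOpen U) {F : ℂ × ℂ → ℂ} (hc : ContinuousOn F U)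
    (h₁ : ∀ p ∈ U, DifferentiableAt ℂ (fun z => F (z, p.2)) p.1)
    (h₂ : ∀ p ∈ U, DifferentiableAt ℂ (fun w => F (p.1, w)) p.2) : DifferentiableOn ℂ F U := by
  intro p hp
  exact (strict hU hc h₁ h₂ hp).hasFDerivAt.differentiableAt.differentiableWithinAt

/-- Locally uniformly summable series of differentiable functions of two variables. -/
theorem differentiableOn_tsum_two {ι : Type*} {U : Set (ℂ × ℂ)} (hU : IsOpen U)
    {F : ι → ℂ × ℂ → ℂ} (hF : ∀ i, DifferentiableOn ℂ (F i) U)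
    (hb : ∀ K ⊆ U, IsCompact K → ∃ u : ι → ℝ, Summable u ∧ ∀ i, ∀ p ∈ K, ‖F i p‖ ≤ u i) :
    DifferentiableOn ℂ (fun p => ∑' i, F i p) U := by
  apply osgood hU
  · intro p hp
    obtain ⟨r, hr, hrU⟩ := exists_box hU hp
    have hK : IsCompact (Metric.closedBall p.1 r ×ˢ Metric.closedBall p.2 r) :=
      (isCompact_closedBall _ _).prod (isCompact_closedBall _ _)
    obtain ⟨u, hu, hub⟩ := hb _ hrU hK
    have h1 : ContinuousOn (fun p => ∑' i, F i p)
        (Metric.closedBall p.1 r ×ˢ Metric.closedBall p.2 r) :=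
      continuousOn_tsum (fun i => ((hF i).continuousOn).mono hrU) hu hub
    exact (h1.continuousAt (prod_mem_nhds (Metric.closedBall_mem_nhds _ hr)
      (Metric.closedBall_mem_nhds _ hr))).continuousWithinAt
  · intro p hp
    obtain ⟨r, hr, hrU⟩ := exists_box hU hp
    have hK : IsCompact (Metric.closedBall p.1 r ×ˢ Metric.closedBall p.2 r) :=
      (isCompact_closedBall _ _).prod (isCompact_closedBall _ _)
    obtain ⟨u, hu, hub⟩ := hb _ hrU hK
    have hmem : ∀ z ∈ Metric.ball p.1 r,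
        (z, p.2) ∈ Metric.closedBall p.1 r ×ˢ Metric.closedBall p.2 r := fun z hz =>
      ⟨Metric.ball_subset_closedBall hz, Metric.mem_closedBall_self hr.le⟩
    have h1 : DifferentiableOn ℂ (fun z => ∑' i, F i (z, p.2)) (Metric.ball p.1 r) := by
      apply Complex.differentiableOn_tsum_of_summable_norm hu _ Metric.isOpen_ball
      · intro i z hz
        exact hub i _ (hmem z hz)
      · intro i z hz
        exact (part₁ hU (hF i) (z, p.2) (hrU (hmem z hz))).differentiableWithinAt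
    exact h1.differentiableAt (Metric.ball_mem_nhds _ hr)
  · intro p hp
    obtain ⟨r, hr, hrU⟩ := exists_box hU hp
    have hK : IsCompact (Metric.closedBall p.1 r ×ˢ Metric.closedBall p.2 r) :=
      (isCompact_closedBall _ _).prod (isCompact_closedBall _ _)
    obtain ⟨u, hu, hub⟩ := hb _ hrU hK
    have hmem : ∀ w ∈ Metric.ball p.2 r,
        (p.1, w) ∈ Metric.closedBall p.1 r ×ˢ Metric.closedBall p.2 r := fun w hw =>
      ⟨Metric.mem_closedBall_self hr.le, Metric.ball_subset_closedBall hw⟩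
    have h1 : DifferentiableOn ℂ (fun w => ∑' i, F i (p.1, w)) (Metric.ball p.2 r) := by
      apply Complex.differentiableOn_tsum_of_summable_norm hu _ Metric.isOpen_ball
      · intro i w hw
        exact hub i _ (hmem w hw)
      · intro i w hw
        exact (part₂ hU (hF i) (p.1, w) (hrU (hmem w hw))).differentiableWithinAt
    exact h1.differentiableAt (Metric.ball_mem_nhds _ hr)

/-- Partial derivatives of a differentiable function of two variables are differentiable. -/
theorem differentiableOn_partial_fst {U : Set (ℂ × ℂ)} (hU : IsOpen U) {F : ℂ × ℂ → ℂ}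
    (hF : DifferentiableOn ℂ F U) :
    DifferentiableOn ℂ (fun p : ℂ × ℂ => deriv (fun z => F (z, p.2)) p.1) U := by
  have hc := hF.continuousOn
  have h₁ := part₁ hU hF
  have h₂ := part₂ hU hF
  apply osgood hU
  · intro p hp
    exact (cont_partial hU hc h₁ hp).continuousWithinAt
  · intro p hp
    obtain ⟨r, hr, hrU⟩ := exists_box hU hp
    have h1 : DifferentiableOn ℂ (fun z => F (z, p.2)) (Metric.ball p.1 r) := by
      intro z hz
      exact (h₁ (z, p.2) (hrU ⟨Metric.ball_subset_closedBall hz,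
        Metric.mem_closedBall_self hr.le⟩)).differentiableWithinAt
    exact (h1.deriv Metric.isOpen_ball).differentiableAt (Metric.ball_mem_nhds _ hr)
  · intro p hp
    obtain ⟨z₀, w₀⟩ := p
    obtain ⟨r, hr, hrU⟩ := exists_box hU hp
    simp only at hrU ⊢
    have hbox : ∀ z ∈ Metric.ball z₀ r, ∀ w ∈ Metric.ball w₀ r, (z, w) ∈ U := fun z hz w hw =>
      hrU ⟨Metric.ball_subset_closedBall hz, Metric.ball_subset_closedBall hw⟩
    set Q : ℂ → ℂ → ℂ := fun h w => (F (z₀ + h, w) - F (z₀, w)) / h with hQ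
    have hd : ∀ᶠ h in 𝓝[≠] (0 : ℂ), DifferentiableOn ℂ (Q h) (Metric.ball w₀ r) := by
      have : ∀ᶠ h in 𝓝 (0 : ℂ), z₀ + h ∈ Metric.ball z₀ r := by
        have h1 : Tendsto (fun h : ℂ => z₀ + h) (𝓝 0) (𝓝 z₀) := by
          have h2 : Continuous (fun h : ℂ => z₀ + h) := by fun_prop
          simpa using h2.tendsto 0
        exact h1.eventually (Metric.ball_mem_nhds z₀ hr)
      filter_upwards [this.filter_mono nhdsWithin_le_nhds] with h hh w hw
      have e1 : DifferentiableAt ℂ (fun w => F (z₀ + h, w)) w := h₂ (z₀ + h, w) (hbox _ hh w hw)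
      have e2 : DifferentiableAt ℂ (fun w => F (z₀, w)) w :=
        h₂ (z₀, w) (hbox _ (Metric.mem_ball_self hr) w hw)
      exact ((e1.sub e2).div_const h).differentiableWithinAt
    have hl : TendstoLocallyUniformlyOn Q (fun w => deriv (fun z => F (z, w)) z₀) (𝓝[≠] 0)
        (Metric.ball w₀ r) := by
      rw [Metric.isOpen_ball.tendstoLocallyUniformlyOn_iff_forall_tendsto]
      intro x hx
      have hx0 : (z₀, x) ∈ U := hbox z₀ (Metric.mem_ball_self hr) x hx
      have hcp := cont_partial hU hc h₁ hx0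
      have e1 : Tendsto (fun y : ℂ × ℂ => (z₀, y.2)) (𝓝[≠] 0 ×ˢ 𝓝 x) (𝓝 (z₀, x)) := by
        rw [nhds_prod_eq]
        exact tendsto_const_nhds.prodMk tendsto_snd
      have f1 := hcp.tendsto.comp e1
      have hst := (strict hU hc h₁ h₂ hx0).isLittleO
      have e2 : Tendsto (fun y : ℂ × ℂ => ((z₀ + y.1, y.2), (z₀, y.2))) (𝓝[≠] 0 ×ˢ 𝓝 x)
          (𝓝 ((z₀, x), (z₀, x))) := by
        have h1 : Continuous (fun y : ℂ × ℂ => ((z₀ + y.1, y.2), (z₀, y.2))) := by fun_prop
        have h2 := h1.tendsto (0, x)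
        simp only [add_zero] at h2
        refine h2.mono_left ?_
        rw [nhds_prod_eq]
        exact Filter.prod_mono nhdsWithin_le_nhds le_rfl
      have h3 := hst.comp_tendsto e2
      have f2 : Tendsto (fun y : ℂ × ℂ => Q y.1 y.2) (𝓝[≠] 0 ×ˢ 𝓝 x)
          (𝓝 (deriv (fun z => F (z, x)) z₀)) := by
        rw [tendsto_iff_norm_sub_tendsto_zero]
        have h4 := h3.norm_left
        have hne : ∀ᶠ y : ℂ × ℂ in 𝓝[≠] 0 ×ˢ 𝓝 x, y.1 ≠ 0 := by
          have : ∀ᶠ h : ℂ in 𝓝[≠] 0, h ≠ 0 := self_mem_nhdsWithin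
          exact this.prod_inl _
        rw [Asymptotics.isLittleO_iff] at h3
        rw [Metric.tendsto_nhds]
        intro ε hε
        filter_upwards [h3 (half_pos hε), hne] with y hy hy0
        simp only [Function.comp, Prod.mk_sub_mk, sub_self, add_sub_cancel_left,
          ContinuousLinearMap.coprod_apply, ContinuousLinearMap.toSpanSingleton_apply,
          smul_eq_mul, zero_mul, add_zero] at hy
        have hn : ‖((y.1, 0) : ℂ × ℂ)‖ = ‖y.1‖ := by
          rw [Prod.norm_def]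
          simp
        rw [hn] at hy
        have hpos : 0 < ‖y.1‖ := norm_pos_iff.2 hy0
        have h5 : Q y.1 y.2 - deriv (fun z => F (z, x)) z₀ =
            (F (z₀ + y.1, y.2) - F (z₀, y.2) - y.1 * deriv (fun z => F (z, x)) z₀) / y.1 := by
          simp only [hQ]
          field_simp
        rw [dist_zero_right, norm_norm, h5, norm_div, div_lt_iff₀ hpos]
        have : ε / 2 * ‖y.1‖ < ε * ‖y.1‖ := by
          apply mul_lt_mul_of_pos_right _ hpos
          linarith
        exact lt_of_le_of_lt hy this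
      exact (f1.prodMk_nhds f2).mono_right (nhds_le_uniformity _)
    exact (hl.differentiableOn hd Metric.isOpen_ball).differentiableAt
      (Metric.ball_mem_nhds _ hr)

theorem differentiableOn_partial_snd {U : Set (ℂ × ℂ)} (hU : IsOpen U) {F : ℂ × ℂ → ℂ}
    (hF : DifferentiableOn ℂ F U) :
    DifferentiableOn ℂ (fun p : ℂ × ℂ => deriv (fun w => F (p.1, w)) p.2) U := by
  have hsw : Continuous (Prod.swap : ℂ × ℂ → ℂ × ℂ) := continuous_swap
  have hd : Differentiable ℂ (Prod.swap : ℂ × ℂ → ℂ × ℂ) := by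
    intro x
    exact differentiableAt_snd.prodMk differentiableAt_fst
  have h := differentiableOn_partial_fst (U := Prod.swap ⁻¹' U) (hU.preimage hsw)
    (F := F ∘ Prod.swap) (hF.comp hd.differentiableOn (fun x hx => hx))
  exact h.comp hd.differentiableOn (fun x hx => by simpa using hx)

end LSB
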