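import Pool.Agent.LSB.CData
import Pool.Agent.LSB.COsgood

/-!
# Part C, module CPhi: calculus of `Φ(ϖ,δ)=c ϖ (ϖ-δ)` near `(0,0)`

Paper proof.  `Φ` is differentiable for `‖ϖ‖<r₀`, `‖δ‖<r₀`, so all iterated partial derivatives are (`differentiableOn_partial_*`), in
particular continuous.  `Φ(ϖ,0)=1` (`diag`).  `Φ(0,δ)=cos δ`.  Write `a₁(ϖ)=∂_δΦ(ϖ,0)`, `a₂(ϖ)=½∂_δ²Φ(ϖ,0)`.  `∂_δΦ(ϖ,δ)=-(∂_αc)(ϖ,ϖ-δ)`, so
`a₁(0)=0`, and `a₁'(0)=-(∂_ϖ∂_αc)(0,0)-(∂_α²c)(0,0)=0+1`, because `c` is even in `ϖ` (so `∂_ϖ∂_αc(0,0)=0`) and `c(0,·)=cos`;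
`a₂(0)=-½`.  For real `ϖ`, `a₁(ϖ)` is real (`conj`).  So for small real `w₀>0`: `a₁(w₀)=b` is real and positive.
`J(δ)=-Φ_ϖ(w₀,δ)Φ_δ(w₀,-δ)-Φ_δ(w₀,δ)Φ_ϖ(w₀,-δ)` is even in `δ`, `J(0)=0` as `Φ_ϖ(w₀,0)=0`.  So `J(δ)=δ²j(δ)` with `j` differentiable
near `0` (divide twice, `dslope`), `j(0)=½J''(0)=4a₁'(w₀)a₂(w₀)-2a₁(w₀)a₂'(w₀)` (Taylor: `Φ_ϖ=a₁'δ+a₂'δ²+…`,
`Φ_δ=a₁+2a₂δ+…`), which is continuous in `w₀` and equals `-2` at `w₀=0`; so `j(0)≠0` for small `w₀`, and `j≠0` near `0`.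
-/

namespace LSB

open Complex Metric

/-- `Φ(ϖ,δ) = c ϖ (ϖ-δ)`. -/
noncomputable def CData.Phi (D : CData) (ϖ δ : ℂ) : ℂ := D.c ϖ (ϖ - δ)

/-- The Jacobian `J(δ)`. -/
noncomputable def CData.Jac (D : CData) (ϖ δ : ℂ) : ℂ :=
  -(deriv (fun z => D.Phi z δ) ϖ * deriv (fun z => D.Phi ϖ z) (-δ)) -
    deriv (fun z => D.Phi ϖ z) δ * deriv (fun z => D.Phi z (-δ)) ϖ

namespace CPhiAux

theorem mem_strip (D : CData) {ϖ δ : ℂ} (hϖ : ‖ϖ‖ < D.r₀) (hδ : ‖δ‖ < D.r₀) :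
    |(ϖ - δ).im| < D.Y₁ := by
  have h1 := abs_im_le_norm (ϖ - δ)
  have h2 := norm_sub_le ϖ δ
  have := D.r₀_le'
  have := D.Y_lt
  have := D.r₀_pos
  linarith

/-- derivative at `0` of a function which is even near `0`. -/
theorem deriv_even_zero {f : ℂ → ℂ} {r : ℝ} (hr : 0 < r)
    (hf : ∀ z : ℂ, ‖z‖ < r → f (-z) = f z) : deriv f 0 = 0 := by
  have h1 : (fun z => f (-z)) =ᶠ[nhds 0] f := by
    filter_upwards [ball_mem_nhds (0 : ℂ) hr] with z hz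
    exact hf z (by simpa using hz)
  have h2 := h1.deriv_eq
  rw [deriv_comp_neg] at h2
  simp only [neg_zero] at h2
  have h3 : (2 : ℂ) * deriv f 0 = 0 := by linear_combination -h2
  simpa using h3

theorem exists_div_sq {h : ℂ → ℂ} {r : ℝ} (hr : 0 < r) (hd : DifferentiableOn ℂ h (ball 0 r))
    (h0 : h 0 = 0) (h1 : deriv h 0 = 0) (h2 : deriv (deriv h) 0 ≠ 0) :
    ∃ ρ > 0, ∃ j : ℂ → ℂ, DifferentiableOn ℂ j (ball 0 ρ) ∧ (∀ δ ∈ ball (0 : ℂ) ρ, j δ ≠ 0) ∧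
      (∀ δ ∈ ball (0 : ℂ) ρ, h δ = δ ^ 2 * j δ) := by
  set g := dslope h 0 with hg
  set j := dslope g 0 with hj
  have hb : ball (0 : ℂ) r ∈ nhds (0 : ℂ) := ball_mem_nhds _ hr
  have hgd : DifferentiableOn ℂ g (ball 0 r) := (differentiableOn_dslope hb).2 hd
  have hjd : DifferentiableOn ℂ j (ball 0 r) := (differentiableOn_dslope hb).2 hgd
  have hg0 : g 0 = 0 := by rw [hg, dslope_same, h1]
  have e1 : ∀ δ, h δ = δ * g δ := fun δ => by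
    have := sub_smul_dslope h 0 δ
    rw [h0] at this
    simpa [hg] using this.symm
  have e2 : ∀ δ, g δ = δ * j δ := fun δ => by
    have := sub_smul_dslope g 0 δ
    rw [hg0] at this
    simpa [hj] using this.symm
  have hj0 : j 0 = deriv g 0 := by rw [hj, dslope_same]
  have hgdd : DifferentiableOn ℂ (deriv g) (ball 0 r) := hgd.deriv isOpen_ball
  have e3 : deriv h =ᶠ[nhds 0] fun δ => g δ + δ * deriv g δ := by
    filter_upwards [hb] with δ hδ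
    have hgδ : HasDerivAt g (deriv g δ) δ :=
      (hgd.differentiableAt (isOpen_ball.mem_nhds hδ)).hasDerivAt
    have : HasDerivAt (fun z => z * g z) (1 * g δ + δ * deriv g δ) δ := (hasDerivAt_id δ).mul hgδ
    have h' : h = fun z => z * g z := funext e1
    rw [h', this.deriv, one_mul]
  have e4 : deriv (deriv h) 0 = 2 * deriv g 0 := by
    rw [e3.deriv_eq]
    have a1 : HasDerivAt g (deriv g 0) 0 :=
      (hgd.differentiableAt hb).hasDerivAt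
    have a2 : HasDerivAt (deriv g) (deriv (deriv g) 0) 0 :=
      (hgdd.differentiableAt hb).hasDerivAt
    have a3 : HasDerivAt (fun δ => g δ + δ * deriv g δ)
        (deriv g 0 + (1 * deriv g 0 + 0 * deriv (deriv g) 0)) 0 :=
      a1.add ((hasDerivAt_id (0 : ℂ)).mul a2)
    rw [a3.deriv]; ring
  have hj0' : j 0 ≠ 0 := by
    rw [hj0]; intro hz; apply h2; rw [e4, hz, mul_zero]
  have hjc : ContinuousAt j 0 := (hjd.differentiableAt hb).continuousAt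
  have hev := hjc.eventually_ne hj0'
  obtain ⟨ρ, hρ, hρ'⟩ := Metric.eventually_nhds_iff_ball.1 (hev.and (Filter.eventually_of_mem hb
    (fun x hx => hx)))
  exact ⟨ρ, hρ, j, hjd.mono (fun x hx => (hρ' x hx).2), fun δ hδ => (hρ' δ hδ).1,
    fun δ _ => by rw [e1, e2]; ring⟩

/-- open strip-disc domain of `c`. -/
def V (D : CData) : Set (ℂ × ℂ) := {p : ℂ × ℂ | ‖p.1‖ < D.r₀ ∧ |p.2.im| < D.Y₁}

def U (D : CData) : Set (ℂ × ℂ) := {p : ℂ × ℂ | ‖p.1‖ < D.r₀ ∧ ‖p.2‖ < D.r₀}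

theorem isOpen_V (D : CData) : IsOpen (V D) := by
  have h1 : IsOpen {p : ℂ × ℂ | ‖p.1‖ < D.r₀} := isOpen_lt (by fun_prop) continuous_const
  have h2 : IsOpen {p : ℂ × ℂ | |p.2.im| < D.Y₁} :=
    isOpen_lt (continuous_abs.comp (Complex.continuous_im.comp continuous_snd)) continuous_const
  exact h1.inter h2

theorem isOpen_U (D : CData) : IsOpen (U D) := by
  have h1 : IsOpen {p : ℂ × ℂ | ‖p.1‖ < D.r₀} := isOpen_lt (by fun_prop) continuous_const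
  have h2 : IsOpen {p : ℂ × ℂ | ‖p.2‖ < D.r₀} := isOpen_lt (by fun_prop) continuous_const
  exact h1.inter h2

end CPhiAux

open CPhiAux

theorem Phi_differentiableOn (D : CData) : DifferentiableOn ℂ (fun p : ℂ × ℂ => D.Phi p.1 p.2)
    {p : ℂ × ℂ | ‖p.1‖ < D.r₀ ∧ ‖p.2‖ < D.r₀} := by
  have h : (fun p : ℂ × ℂ => D.Phi p.1 p.2) =
      (fun p : ℂ × ℂ => D.c p.1 p.2) ∘ (fun p : ℂ × ℂ => (p.1, p.1 - p.2)) := rfl
  rw [h]
  refine D.diff.comp (by fun_prop) ?_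
  rintro p ⟨h1, h2⟩
  exact ⟨h1, mem_strip D h1 h2⟩

theorem Phi_zero (D : CData) {ϖ : ℂ} (hϖ : ‖ϖ‖ < D.r₀) : D.Phi ϖ 0 = 1 := by
  rw [CData.Phi, sub_zero]; exact D.diag ϖ hϖ

/-- `Φ(ϖ,-δ) = c ϖ (δ+ϖ)` and `Φ(ϖ,δ) = c ϖ (δ-ϖ)`. -/
theorem Phi_eq (D : CData) {ϖ δ : ℂ} (hϖ : ‖ϖ‖ < D.r₀) (hδ : ‖δ‖ < D.r₀) :
    D.Phi ϖ (-δ) = D.c ϖ (δ + ϖ) ∧ D.Phi ϖ δ = D.c ϖ (δ - ϖ) := by
  constructor
  · rw [CData.Phi]; congr 1; ring
  · rw [CData.Phi, ← D.even₂ ϖ (ϖ - δ) hϖ (mem_strip D hϖ hδ)]; congr 1; ring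

namespace CPhiAux

/-- partial derivative of `Φ` in the first variable at `ϖ = 0`. -/
theorem deriv_fst_zero (D : CData) {δ : ℂ} (hδ : ‖δ‖ < D.r₀) :
    deriv (fun z => D.Phi z δ) 0 = sin δ := by
  have hp : ((0 : ℂ), -δ) ∈ V D := ⟨by simpa using D.r₀_pos, by
    have := mem_strip D (ϖ := 0) (by simpa using D.r₀_pos) hδ
    simpa using this⟩
  have hF : DifferentiableAt ℂ (fun p : ℂ × ℂ => D.c p.1 p.2) ((0 : ℂ), -δ) :=
    D.diff.differentiableAt ((isOpen_V D).mem_nhds hp)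
  set L := fderiv ℂ (fun p : ℂ × ℂ => D.c p.1 p.2) ((0 : ℂ), -δ) with hL
  have hL' : HasFDerivAt (fun p : ℂ × ℂ => D.c p.1 p.2) L ((0 : ℂ), -δ) := hF.hasFDerivAt
  -- first partial
  have a1 : HasDerivAt (fun z : ℂ => D.c z (-δ)) (L (1, 0)) 0 := by
    have hc : HasDerivAt (fun z : ℂ => (z, -δ)) ((1 : ℂ), (0 : ℂ)) 0 :=
      (hasDerivAt_id (0 : ℂ)).prodMk (hasDerivAt_const _ _)
    exact HasFDerivAt.comp_hasDerivAt (0 : ℂ) (f := fun z : ℂ => (z, -δ)) hL' hc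
  have a2 : HasDerivAt (fun z : ℂ => D.c 0 z) (L (0, 1)) (-δ) := by
    have hc : HasDerivAt (fun z : ℂ => ((0 : ℂ), z)) ((0 : ℂ), (1 : ℂ)) (-δ) :=
      (hasDerivAt_const _ _).prodMk (hasDerivAt_id (-δ))
    exact HasFDerivAt.comp_hasDerivAt (-δ) (f := fun z : ℂ => ((0 : ℂ), z)) hL' hc
  have a3 : HasDerivAt (fun z : ℂ => D.Phi z δ) (L (1, 1)) 0 := by
    have hc : HasDerivAt (fun z : ℂ => (z, z - δ)) ((1 : ℂ), (1 : ℂ)) 0 :=
      (hasDerivAt_id (0 : ℂ)).prodMk ((hasDerivAt_id (0 : ℂ)).sub_const δ)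
    have hL'' : HasFDerivAt (fun p : ℂ × ℂ => D.c p.1 p.2) L ((0 : ℂ), (0 : ℂ) - δ) := by
      rw [zero_sub]; exact hL'
    exact HasFDerivAt.comp_hasDerivAt (0 : ℂ) (f := fun z : ℂ => (z, z - δ)) hL'' hc
  have e1 : L (1, 0) = 0 := by
    rw [← a1.deriv]
    exact deriv_even_zero D.r₀_pos (fun z hz => D.even₁ z (-δ) hz hp.2)
  have e2 : L (0, 1) = sin δ := by
    rw [← a2.deriv]
    have : (fun z : ℂ => D.c 0 z) =ᶠ[nhds (-δ)] cos := by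
      have ho : IsOpen {z : ℂ | |z.im| < D.Y₁} := isOpen_lt (by fun_prop) continuous_const
      filter_upwards [ho.mem_nhds hp.2] with z hz
      exact D.zero z hz
    rw [this.deriv_eq, Complex.deriv_cos, sin_neg, neg_neg]
  rw [a3.deriv]
  have : ((1 : ℂ), (1 : ℂ)) = (1, 0) + (0, 1) := by simp
  rw [this, map_add, e1, e2, zero_add]

theorem deriv_snd_zero (D : CData) {δ : ℂ} (hδ : ‖δ‖ < D.r₀) :
    deriv (fun z => D.Phi 0 z) δ = -sin δ := by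
  have hp : |(-δ).im| < D.Y₁ := by
    have := mem_strip D (ϖ := 0) (by simpa using D.r₀_pos) hδ
    simpa using this
  have : (fun z : ℂ => D.Phi 0 z) =ᶠ[nhds δ] cos := by
    have ho : IsOpen {z : ℂ | ‖z‖ < D.r₀} := isOpen_lt (by fun_prop) continuous_const
    filter_upwards [ho.mem_nhds hδ] with z hz
    have hz' : |(-z).im| < D.Y₁ := by
      have := mem_strip D (ϖ := 0) (by simpa using D.r₀_pos) hz
      simpa using this
    rw [CData.Phi, zero_sub, D.zero _ hz', cos_neg]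
  rw [this.deriv_eq, Complex.deriv_cos]

/-- `∂_α c`. -/
noncomputable def C2 (D : CData) (p : ℂ × ℂ) : ℂ := deriv (fun w => D.c p.1 w) p.2

theorem C2_diff (D : CData) : DifferentiableOn ℂ (C2 D) (V D) :=
  differentiableOn_partial_snd (isOpen_V D) D.diff

theorem deriv_snd_at_zero (D : CData) (ϖ : ℂ) :
    deriv (fun z => D.Phi ϖ z) 0 = -C2 D (ϖ, ϖ) := by
  have : (fun z => D.Phi ϖ z) = fun z => (fun w => D.c ϖ w) (ϖ - z) := rfl
  rw [this, deriv_comp_const_sub, C2, sub_zero]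

theorem diag_mem (D : CData) {ϖ : ℂ} (hϖ : ‖ϖ‖ < D.r₀) : (ϖ, ϖ) ∈ V D := by
  refine ⟨hϖ, ?_⟩
  have := mem_strip D hϖ (δ := 0) (by simpa using D.r₀_pos)
  simpa using this

theorem C2_even (D : CData) {ϖ α : ℂ} (hϖ : ‖ϖ‖ < D.r₀) (hα : |α.im| < D.Y₁) :
    C2 D (-ϖ, α) = C2 D (ϖ, α) := by
  rw [C2, C2]
  have ho : IsOpen {z : ℂ | |z.im| < D.Y₁} := isOpen_lt (by fun_prop) continuous_const
  have : (fun w => D.c (-ϖ) w) =ᶠ[nhds α] fun w => D.c ϖ w := by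
    filter_upwards [ho.mem_nhds hα] with z hz
    exact D.even₁ ϖ z hϖ hz
  exact this.deriv_eq

theorem C2_zero (D : CData) {α : ℂ} (hα : |α.im| < D.Y₁) :
    C2 D (0, α) = -sin α := by
  rw [C2]
  have ho : IsOpen {z : ℂ | |z.im| < D.Y₁} := isOpen_lt (by fun_prop) continuous_const
  have : (fun w => D.c (0 : ℂ) w) =ᶠ[nhds α] cos := by
    filter_upwards [ho.mem_nhds hα] with z hz
    exact D.zero z hz
  rw [this.deriv_eq, Complex.deriv_cos]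

/-- the function `a₁(ϖ)=∂_δΦ(ϖ,0)` has derivative `1` at `0`. -/
theorem hasDerivAt_a1 (D : CData) :
    HasDerivAt (fun ϖ : ℂ => deriv (fun z => D.Phi ϖ z) 0) 1 0 := by
  have h0 : ‖(0 : ℂ)‖ < D.r₀ := by simpa using D.r₀_pos
  have hp : ((0 : ℂ), (0 : ℂ)) ∈ V D := diag_mem D h0
  have hF : DifferentiableAt ℂ (C2 D) ((0 : ℂ), (0 : ℂ)) :=
    (C2_diff D).differentiableAt ((isOpen_V D).mem_nhds hp)
  set L := fderiv ℂ (C2 D) ((0 : ℂ), (0 : ℂ)) with hL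
  have hL' : HasFDerivAt (C2 D) L ((0 : ℂ), (0 : ℂ)) := hF.hasFDerivAt
  have a1 : HasDerivAt (fun z : ℂ => C2 D (z, 0)) (L (1, 0)) 0 := by
    have hc : HasDerivAt (fun z : ℂ => (z, (0 : ℂ))) ((1 : ℂ), (0 : ℂ)) 0 :=
      (hasDerivAt_id (0 : ℂ)).prodMk (hasDerivAt_const _ _)
    exact HasFDerivAt.comp_hasDerivAt (0 : ℂ) (f := fun z : ℂ => (z, (0 : ℂ))) hL' hc
  have a2 : HasDerivAt (fun z : ℂ => C2 D (0, z)) (L (0, 1)) 0 := by
    have hc : HasDerivAt (fun z : ℂ => ((0 : ℂ), z)) ((0 : ℂ), (1 : ℂ)) 0 :=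
      (hasDerivAt_const _ _).prodMk (hasDerivAt_id (0 : ℂ))
    exact HasFDerivAt.comp_hasDerivAt (0 : ℂ) (f := fun z : ℂ => ((0 : ℂ), z)) hL' hc
  have a3 : HasDerivAt (fun z : ℂ => C2 D (z, z)) (L (1, 1)) 0 := by
    have hc : HasDerivAt (fun z : ℂ => (z, z)) ((1 : ℂ), (1 : ℂ)) 0 :=
      (hasDerivAt_id (0 : ℂ)).prodMk (hasDerivAt_id (0 : ℂ))
    exact HasFDerivAt.comp_hasDerivAt (0 : ℂ) (f := fun z : ℂ => (z, z)) hL' hc
  have e1 : L (1, 0) = 0 := by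
    rw [← a1.deriv]
    exact deriv_even_zero D.r₀_pos (fun z hz => C2_even D hz hp.2)
  have e2 : L (0, 1) = -1 := by
    rw [← a2.deriv]
    have : (fun z : ℂ => C2 D (0, z)) =ᶠ[nhds 0] fun z => -sin z := by
      have ho : IsOpen {z : ℂ | |z.im| < D.Y₁} := isOpen_lt (by fun_prop) continuous_const
      filter_upwards [ho.mem_nhds hp.2] with z hz
      exact C2_zero D hz
    rw [this.deriv_eq]
    simp
  have e3 : L (1, 1) = -1 := by
    have : ((1 : ℂ), (1 : ℂ)) = (1, 0) + (0, 1) := by simp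
    rw [this, map_add, e1, e2, zero_add]
  rw [e3] at a3
  have a4 := a3.neg
  rw [neg_neg] at a4
  refine a4.congr_of_eventuallyEq ?_
  filter_upwards with ϖ
  exact deriv_snd_at_zero D ϖ

/-- `a₁` is real at real points. -/
theorem a1_real (D : CData) {w : ℝ} (hw : |w| < D.r₀) :
    starRingEnd ℂ (deriv (fun z => D.Phi w z) 0) = deriv (fun z => D.Phi w z) 0 := by
  have hw' : ‖(w : ℂ)‖ < D.r₀ := by simpa using hw
  have hd : HasDerivAt (fun z => D.Phi w z) (deriv (fun z => D.Phi w z) 0) 0 := by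
    have hm : ((w : ℂ), (0 : ℂ)) ∈ U D := ⟨hw', by simpa using D.r₀_pos⟩
    have hF : DifferentiableAt ℂ (fun p : ℂ × ℂ => D.Phi p.1 p.2) ((w : ℂ), (0 : ℂ)) :=
      (Phi_differentiableOn D).differentiableAt ((isOpen_U D).mem_nhds hm)
    have : DifferentiableAt ℂ (fun z => D.Phi w z) 0 := by
      have hc : DifferentiableAt ℂ (fun z : ℂ => ((w : ℂ), z)) 0 := by fun_prop
      exact DifferentiableAt.comp (0 : ℂ) (f := fun z : ℂ => ((w : ℂ), z)) hF hc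
    exact this.hasDerivAt
  have h2 := hd.conj_conj
  rw [map_zero] at h2
  have h3 : (starRingEnd ℂ ∘ (fun z => D.Phi w z) ∘ starRingEnd ℂ) =ᶠ[nhds 0]
      fun z => D.Phi w z := by
    filter_upwards [ball_mem_nhds (0 : ℂ) D.r₀_pos] with z hz
    have hz' : ‖z‖ < D.r₀ := by simpa using hz
    simp only [Function.comp, CData.Phi]
    have h4 := D.conj w (w - z) hw' (mem_strip D hw' hz')
    rw [Complex.conj_ofReal, map_sub, Complex.conj_ofReal] at h4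
    rw [h4, Complex.conj_conj]
  exact (h2.congr_of_eventuallyEq h3.symm).unique hd

theorem a1_pos (D : CData) : ∃ r > 0, ∀ w : ℝ, 0 < w → w < r →
    ∃ b : ℝ, 0 < b ∧ deriv (fun z => D.Phi w z) 0 = b := by
  have h := hasDerivAt_a1 D
  have h00 : deriv (fun z => D.Phi 0 z) 0 = 0 := by
    rw [deriv_snd_zero D (by simpa using D.r₀_pos)]; simp
  rw [hasDerivAt_iff_isLittleO] at h
  simp only [h00, sub_zero, smul_eq_mul, mul_one] at h
  have h1 := h.def (show (0 : ℝ) < 1 / 2 by norm_num)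
  obtain ⟨r, hr, hr'⟩ := Metric.eventually_nhds_iff_ball.1 h1
  refine ⟨min r D.r₀, lt_min hr D.r₀_pos, fun w hw hwr => ?_⟩
  have hwr1 : w < r := lt_of_lt_of_le hwr (min_le_left _ _)
  have hwr2 : w < D.r₀ := lt_of_lt_of_le hwr (min_le_right _ _)
  have h3 := hr' (w : ℂ) (by simp [abs_of_pos hw, hwr1])
  set a := deriv (fun z => D.Phi w z) 0 with ha
  have hreal := a1_real D (w := w) (by rw [abs_of_pos hw]; exact hwr2)
  rw [← ha] at hreal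
  obtain ⟨b, hb⟩ := Complex.conj_eq_iff_real.1 hreal
  refine ⟨b, ?_, hb⟩
  rw [hb] at h3
  have h4 : ‖(b : ℂ) - w‖ = |b - w| := by
    rw [← Complex.ofReal_sub, Complex.norm_real, Real.norm_eq_abs]
  rw [h4, Complex.norm_real, Real.norm_eq_abs, abs_of_pos hw, abs_le] at h3
  linarith [h3.1]

theorem Jac_diff (D : CData) :
    DifferentiableOn ℂ (fun p : ℂ × ℂ => D.Jac p.1 p.2) (U D) := by
  have hP := Phi_differentiableOn D
  have h1 : DifferentiableOn ℂ (fun p : ℂ × ℂ => deriv (fun z => D.Phi z p.2) p.1) (U D) :=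
    differentiableOn_partial_fst (isOpen_U D) hP
  have h2 : DifferentiableOn ℂ (fun p : ℂ × ℂ => deriv (fun z => D.Phi p.1 z) p.2) (U D) :=
    differentiableOn_partial_snd (isOpen_U D) hP
  have hneg : DifferentiableOn ℂ (fun p : ℂ × ℂ => (p.1, -p.2)) (U D) := by fun_prop
  have hm : Set.MapsTo (fun p : ℂ × ℂ => (p.1, -p.2)) (U D) (U D) := by
    rintro p ⟨a, b⟩
    exact ⟨a, by simpa using b⟩
  have h3 : DifferentiableOn ℂ (fun p : ℂ × ℂ => deriv (fun z => D.Phi z (-p.2)) p.1) (U D) :=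
    h1.comp hneg hm
  have h4 : DifferentiableOn ℂ (fun p : ℂ × ℂ => deriv (fun z => D.Phi p.1 z) (-p.2)) (U D) :=
    h2.comp hneg hm
  have h5 : (fun p : ℂ × ℂ => D.Jac p.1 p.2) = fun p : ℂ × ℂ =>
      -(deriv (fun z => D.Phi z p.2) p.1 * deriv (fun z => D.Phi p.1 z) (-p.2)) -
        deriv (fun z => D.Phi p.1 z) p.2 * deriv (fun z => D.Phi z (-p.2)) p.1 := by
    funext p; rw [CData.Jac]
  rw [h5]
  exact ((h1.mul h4).neg).sub (h2.mul h3)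

theorem Jac_even (D : CData) (ϖ δ : ℂ) : D.Jac ϖ (-δ) = D.Jac ϖ δ := by
  simp only [CData.Jac, neg_neg]; ring

theorem Jac_zero_right (D : CData) {ϖ : ℂ} (hϖ : ‖ϖ‖ < D.r₀) : D.Jac ϖ 0 = 0 := by
  have : deriv (fun z => D.Phi z 0) ϖ = 0 := by
    have h : (fun z => D.Phi z 0) =ᶠ[nhds ϖ] fun _ => (1 : ℂ) := by
      have ho : IsOpen {z : ℂ | ‖z‖ < D.r₀} := isOpen_lt (by fun_prop) continuous_const
      filter_upwards [ho.mem_nhds hϖ] with z hz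
      exact Phi_zero D hz
    rw [h.deriv_eq, deriv_const]
  rw [CData.Jac, neg_zero, this]; ring

theorem Jac_zero_left (D : CData) {δ : ℂ} (hδ : ‖δ‖ < D.r₀) : D.Jac 0 δ = -2 * sin δ ^ 2 := by
  have hδ' : ‖-δ‖ < D.r₀ := by simpa using hδ
  rw [CData.Jac, deriv_fst_zero D hδ, deriv_fst_zero D hδ', deriv_snd_zero D hδ,
    deriv_snd_zero D hδ', sin_neg]
  ring

end CPhiAux

theorem exists_Jac (D : CData) : ∃ r₂ > 0, ∀ w₀ : ℝ, 0 < w₀ → w₀ < r₂ → ∃ ρ > 0, ∃ j : ℂ → ℂ,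
    DifferentiableOn ℂ j (ball 0 ρ) ∧ (∀ δ ∈ ball (0 : ℂ) ρ, j δ ≠ 0) ∧
    (∀ δ ∈ ball (0 : ℂ) ρ, D.Jac w₀ δ = δ ^ 2 * j δ) ∧
    ∃ b : ℝ, 0 < b ∧ deriv (fun z => D.Phi w₀ z) 0 = b := by
  obtain ⟨r, hr, hr'⟩ := a1_pos D
  -- the second derivative
  have hJ := Jac_diff D
  have hJ1 : DifferentiableOn ℂ
      (fun p : ℂ × ℂ => deriv (fun w => D.Jac p.1 w) p.2) (U D) :=
    differentiableOn_partial_snd (F := fun p : ℂ × ℂ => D.Jac p.1 p.2) (isOpen_U D) hJ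
  have hJ2 : DifferentiableOn ℂ
      (fun p : ℂ × ℂ => deriv (fun v => deriv (fun w => D.Jac p.1 w) v) p.2) (U D) :=
    differentiableOn_partial_snd (F := fun p : ℂ × ℂ => deriv (fun w => D.Jac p.1 w) p.2)
      (isOpen_U D) hJ1
  have h0 : ‖(0 : ℂ)‖ < D.r₀ := by simpa using D.r₀_pos
  have h00 : ((0 : ℂ), (0 : ℂ)) ∈ U D := ⟨h0, h0⟩
  have hK : ContinuousAt (fun ϖ : ℂ => deriv (deriv (fun w => D.Jac ϖ w)) 0) 0 := by
    have h1 : ContinuousAt (fun p : ℂ × ℂ => deriv (deriv (fun w => D.Jac p.1 w)) p.2)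
        ((0 : ℂ), (0 : ℂ)) :=
      (hJ2.differentiableAt ((isOpen_U D).mem_nhds h00)).continuousAt
    have h2 : ContinuousAt (fun ϖ : ℂ => (ϖ, (0 : ℂ))) 0 := by fun_prop
    have h3 := ContinuousAt.comp
      (g := fun p : ℂ × ℂ => deriv (deriv (fun w => D.Jac p.1 w)) p.2)
      (f := fun ϖ : ℂ => (ϖ, (0 : ℂ))) (x := (0 : ℂ)) h1 h2
    have h4 : ((fun p : ℂ × ℂ => deriv (deriv (fun w => D.Jac p.1 w)) p.2) ∘
      (fun ϖ : ℂ => (ϖ, (0 : ℂ)))) = fun ϖ : ℂ => deriv (deriv (fun w => D.Jac ϖ w)) 0 := by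
      funext ϖ; rw [Function.comp_apply]
    rw [h4] at h3
    exact h3
  have hK0 : deriv (deriv (fun w => D.Jac 0 w)) 0 = -4 := by
    have e1 : (fun w => D.Jac 0 w) =ᶠ[nhds 0] fun w => -2 * sin w ^ 2 := by
      filter_upwards [ball_mem_nhds (0 : ℂ) D.r₀_pos] with z hz
      exact Jac_zero_left D (by simpa using hz)
    rw [e1.deriv.deriv_eq]
    have e2 : deriv (fun w : ℂ => -2 * sin w ^ 2) = fun w => -4 * (sin w * cos w) := by
      funext w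
      have : HasDerivAt (fun w : ℂ => -2 * sin w ^ 2) (-2 * (↑(2 : ℕ) * sin w ^ (2 - 1) * cos w)) w :=
        ((Complex.hasDerivAt_sin w).pow 2).const_mul (-2)
      rw [this.deriv]; push_cast; ring
    rw [e2]
    have : HasDerivAt (fun w : ℂ => -4 * (sin w * cos w))
        (-4 * (cos 0 * cos 0 + sin 0 * (-sin 0))) 0 :=
      ((Complex.hasDerivAt_sin 0).mul (Complex.hasDerivAt_cos 0)).const_mul (-4)
    rw [this.deriv]; simp
  have hK0' : deriv (deriv (fun w => D.Jac 0 w)) 0 ≠ 0 := by rw [hK0]; norm_num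
  have hev := hK.eventually_ne hK0'
  obtain ⟨r₁, hr₁, hr₁'⟩ := Metric.eventually_nhds_iff_ball.1 hev
  refine ⟨min r (min r₁ D.r₀), lt_min hr (lt_min hr₁ D.r₀_pos), fun w₀ hw hwr => ?_⟩
  have hw1 : w₀ < r := lt_of_lt_of_le hwr (min_le_left _ _)
  have hw2 : w₀ < r₁ := lt_of_lt_of_le hwr ((min_le_right _ _).trans (min_le_left _ _))
  have hw3 : w₀ < D.r₀ := lt_of_lt_of_le hwr ((min_le_right _ _).trans (min_le_right _ _))
  have hw3' : ‖(w₀ : ℂ)‖ < D.r₀ := by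
    rw [Complex.norm_real, Real.norm_eq_abs, abs_of_pos hw]; exact hw3
  have hne := hr₁' (w₀ : ℂ) (by simp [abs_of_pos hw, hw2])
  have hd : DifferentiableOn ℂ (fun δ => D.Jac w₀ δ) (ball 0 D.r₀) := by
    have hc : DifferentiableOn ℂ (fun z : ℂ => ((w₀ : ℂ), z)) (ball 0 D.r₀) := by fun_prop
    have hm : Set.MapsTo (fun z : ℂ => ((w₀ : ℂ), z)) (ball 0 D.r₀) (U D) := fun z hz =>
      ⟨hw3', by simpa using hz⟩
    have h3 := DifferentiableOn.comp (g := fun p : ℂ × ℂ => D.Jac p.1 p.2)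
      (f := fun z : ℂ => ((w₀ : ℂ), z)) hJ hc hm
    have h4 : ((fun p : ℂ × ℂ => D.Jac p.1 p.2) ∘ (fun z : ℂ => ((w₀ : ℂ), z))) =
      fun δ => D.Jac w₀ δ := by funext δ; rw [Function.comp_apply]
    rw [h4] at h3
    exact h3
  obtain ⟨ρ, hρ, j, hj1, hj2, hj3⟩ := exists_div_sq D.r₀_pos hd (Jac_zero_right D hw3')
    (deriv_even_zero D.r₀_pos (fun z _ => Jac_even D w₀ z)) hne
  exact ⟨ρ, hρ, j, hj1, hj2, hj3, hr' w₀ hw hw1⟩

end LSB
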