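import Pool.Agent.LSB.CJou

/-!
# Part C, module CPoleAbs: at most a simple pole (one variable complex analysis)

Paper proof.  All in a small neighbourhood; shrink `ρ` freely.  `w₁,w₂` map real points to real points, `w₁(0)=w₂(0)=1`, `w₁'(0)=b>0`,
`w₂'(0)=-b`.  (1) `w₁` has a differentiable local inverse `W` (`HasStrictDerivAt.toOpenPartialHomeomorph`/`localInverse`),
`W(1)=0`, `W(w₁ δ)=δ` for small `δ`.  (2) `E(w)=N(W w)/(j(W w)) · ((w-1)/W w)²` is differentiable near `1` (the quotient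
`(w-1)/W w` has the removable value `b` at `w=1`), and `E(w)=(w-1)²g'(w)` near the point `w₁(δ₀)` for any small `δ₀` with `Im δ₀>0`; both sides are differentiable on
`ball 1 ρ∖segm 1` (a slit disc, preconnected: it is star-shaped about `1+ρ/2`), so equality holds there.
(3) `E(w)=E(1)+E'(1)(w-1)+(w-1)²E₂(w)`, so `g'(w)=E(1)/(w-1)²+E'(1)/(w-1)+E₂(w)` on the slit disc; with a primitive `E₃` of `E₂` on the
ball (`DifferentiableOn.isExactOn_ball`/`hasPrimitives`) and `Complex.log (w-1)` (differentiable on the slit disc: `w-1∉(-∞,0]`), the function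
`g+E(1)/(w-1)-E'(1)log(w-1)-E₃` has derivative `0`, so it is a constant `k` on the slit disc.
(4) Let `δ=it`, `t→0+`.  `g(w₁δ)+g(w₂δ)=P(δ)` is bounded; `1/(w₁-1)+1/(w₂-1)=(w₁+w₂-2)/((w₁-1)(w₂-1))` is bounded since
`w₁+w₂-2=O(t²)` and `|w_i-1|≥bt/2`; so `E'(1)(log(w₁-1)+log(w₂-1))` is bounded, but its real part
(after multiplying by a unimodular constant) is `|E'(1)|(log|w₁-1|+log|w₂-1|)→-∞` unless `E'(1)=0` (imaginary parts of the
logs are bounded by `π`).  So `E'(1)=0` and `g=-E(1)/(w-1)+E₃+k`.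
-/

namespace LSB

open Complex Metric Filter Topology

theorem cpa_local_inverse {f : ℂ → ℂ} {ρ : ℝ} (hρ : 0 < ρ) (hf : DifferentiableOn ℂ f (ball 0 ρ))
    (hd : deriv f 0 ≠ 0) : ∃ W : ℂ → ℂ, ∃ r > 0, DifferentiableOn ℂ W (ball (f 0) r) ∧
      W (f 0) = 0 ∧ (∀ w ∈ ball (f 0) r, W w ∈ ball (0 : ℂ) ρ ∧ f (W w) = w) ∧
      ∀ᶠ δ in 𝓝 (0 : ℂ), W (f δ) = δ := by
  have h0 : (0 : ℂ) ∈ ball (0 : ℂ) ρ := mem_ball_self hρ
  have ha : AnalyticAt ℂ f 0 := hf.analyticAt (isOpen_ball.mem_nhds h0)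
  have hcd : ContDiffAt ℂ 1 f 0 := ha.contDiffAt
  have hs : HasStrictDerivAt f (deriv f 0) 0 := ha.hasStrictDerivAt
  have hf' := (hs.hasStrictFDerivAt_equiv hd).hasFDerivAt
  have hn : (1 : WithTop ℕ∞) ≠ 0 := one_ne_zero
  set W := hcd.localInverse hf' hn with hW
  have hWc : ContDiffAt ℂ 1 W (f 0) := hcd.to_localInverse hf' hn
  have hW0 : W (f 0) = 0 := hcd.localInverse_apply_image hf' hn
  have hWd : ∀ᶠ y in 𝓝 (f 0), DifferentiableAt ℂ W y := by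
    filter_upwards [hWc.eventually (by decide)] with y hy
    exact hy.differentiableAt hn
  have hst := hcd.hasStrictFDerivAt' hf' hn
  have hr : ∀ᶠ y in 𝓝 (f 0), f (W y) = y := hst.eventually_right_inverse
  have hl : ∀ᶠ x in 𝓝 (0 : ℂ), W (f x) = x := hst.eventually_left_inverse
  have hm : ∀ᶠ y in 𝓝 (f 0), W y ∈ ball (0 : ℂ) ρ := by
    apply hWc.continuousAt
    rw [hW0]
    exact isOpen_ball.mem_nhds h0
  obtain ⟨r, hr0, hrs⟩ := Metric.eventually_nhds_iff_ball.1 (hWd.and (hr.and hm))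
  exact ⟨W, r, hr0, fun w hw => (hrs w hw).1.differentiableWithinAt, hW0,
    fun w hw => ⟨(hrs w hw).2.2, (hrs w hw).2.1⟩, hl⟩

theorem cpa_mem_slit {ρ : ℝ} (hρ1 : ρ ≤ 1) {w : ℂ} (hw : w ∈ ball (1 : ℂ) ρ) :
    w ∉ segm 1 ↔ w - 1 ∈ slitPlane := by
  rw [mem_ball, dist_eq] at hw
  have hre : |(w - 1).re| < 1 := lt_of_le_of_lt (abs_re_le_norm _) (lt_of_lt_of_le hw hρ1)
  rw [abs_lt] at hre
  simp only [sub_re, one_re] at hre
  rw [mem_slitPlane_iff]
  simp only [segm, Set.mem_ofPred_eq, not_and, not_le, sub_re, one_re, sub_im, one_im, sub_zero]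
  constructor
  · intro h
    by_cases him : w.im = 0
    · left
      have := h him
      rw [abs_of_pos (by linarith [hre.1])] at this
      linarith
    · exact Or.inr him
  · rintro (h | h) him
    · rw [abs_of_pos (by linarith [hre.1])]
      linarith
    · exact absurd him h

theorem cpa_star {ρ : ℝ} (hρ : 0 < ρ) (hρ1 : ρ ≤ 1) :
    StarConvex ℝ (1 + (ρ / 2 : ℝ) : ℂ) (ball (1 : ℂ) ρ \ segm 1) := by
  have hc : (1 + (ρ / 2 : ℝ) : ℂ) ∈ ball (1 : ℂ) ρ := by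
    rw [mem_ball, dist_eq]
    have : (1 + (ρ / 2 : ℝ) : ℂ) - 1 = ((ρ / 2 : ℝ) : ℂ) := by ring
    rw [this, norm_real, Real.norm_eq_abs, abs_of_pos (by positivity)]
    linarith
  intro w hw a c ha hc' hac
  have hball : a • (1 + (ρ / 2 : ℝ) : ℂ) + c • w ∈ ball (1 : ℂ) ρ :=
    (convex_ball (1 : ℂ) ρ) hc hw.1 ha hc' hac
  refine ⟨hball, ?_⟩
  rw [cpa_mem_slit hρ1 hball]
  have hw2 := (cpa_mem_slit hρ1 hw.1).1 hw.2
  rw [mem_slitPlane_iff] at hw2 ⊢
  have e1 : (a • (1 + (ρ / 2 : ℝ) : ℂ) + c • w - 1).re = a * (ρ / 2) + c * (w.re - 1) := by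
    simp
    have : a = 1 - c := by linarith
    rw [this]; ring
  have e2 : (a • (1 + (ρ / 2 : ℝ) : ℂ) + c • w - 1).im = c * w.im := by
    simp
  rw [e1, e2]
  simp only [sub_re, one_re, sub_im, one_im, sub_zero] at hw2
  rcases hc'.eq_or_lt with hc0 | hc0
  · left
    rw [← hc0]
    have : a = 1 := by linarith
    rw [this]
    simp
    exact hρ
  · rcases hw2 with h | h
    · left
      have : 0 < c * (w.re - 1) := mul_pos hc0 h
      have : 0 ≤ a * (ρ / 2) := by positivity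
      linarith
    · right
      exact mul_ne_zero hc0.ne' h

theorem simple_pole_of_relation {g w₁ w₂ N j P : ℂ → ℂ} {ρ ρg b : ℝ} (hρ : 0 < ρ) (hρg : 0 < ρg)
    (hb : 0 < b) (hg : DifferentiableOn ℂ g (ball 1 ρg \ segm 1))
    (hw₁ : DifferentiableOn ℂ w₁ (ball 0 ρ)) (hw₂ : DifferentiableOn ℂ w₂ (ball 0 ρ))
    (hN : DifferentiableOn ℂ N (ball 0 ρ)) (hj : DifferentiableOn ℂ j (ball 0 ρ))
    (hP : DifferentiableOn ℂ P (ball 0 ρ))
    (h₁0 : w₁ 0 = 1) (h₂0 : w₂ 0 = 1) (h₁d : deriv w₁ 0 = b) (h₂d : deriv w₂ 0 = -b)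
    (h₁r : ∀ x : ℝ, |x| < ρ → (w₁ x).im = 0) (h₂r : ∀ x : ℝ, |x| < ρ → (w₂ x).im = 0)
    (hj0 : ∀ δ ∈ ball (0 : ℂ) ρ, j δ ≠ 0)
    (hmem : ∀ δ ∈ ball (0 : ℂ) ρ, 0 < δ.im →
      w₁ δ ∈ ball 1 ρg \ segm 1 ∧ w₂ δ ∈ ball 1 ρg \ segm 1)
    (hsum : ∀ δ ∈ ball (0 : ℂ) ρ, 0 < δ.im → g (w₁ δ) + g (w₂ δ) = P δ)
    (hder : ∀ δ ∈ ball (0 : ℂ) ρ, 0 < δ.im → δ ^ 2 * j δ * deriv g (w₁ δ) = N δ) :
    ∃ A : ℂ, ∃ ρ' > 0, ∃ g₁ : ℂ → ℂ, DifferentiableOn ℂ g₁ (ball 1 ρ') ∧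
      ∀ w ∈ ball (1 : ℂ) ρ' \ segm 1, g w = A / (w - 1) + g₁ w := by
  have h0 : (0 : ℂ) ∈ ball (0 : ℂ) ρ := mem_ball_self hρ
  have hnh0 : ball (0 : ℂ) ρ ∈ 𝓝 (0 : ℂ) := isOpen_ball.mem_nhds h0
  have hbC : (b : ℂ) ≠ 0 := by exact_mod_cast hb.ne'
  obtain ⟨W, r, hr, hWd, hW1, hWm, hWl⟩ := cpa_local_inverse hρ hw₁ (by rw [h₁d]; exact hbC)
  rw [h₁0] at hWd hW1 hWm
  -- radius
  obtain ⟨ρ₁, hρ₁, hρ₁r, hρ₁g, hρ₁1⟩ : ∃ ρ₁ : ℝ, 0 < ρ₁ ∧ ρ₁ ≤ r ∧ ρ₁ ≤ ρg ∧ ρ₁ ≤ 1 :=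
    ⟨min r (min ρg 1), lt_min hr (lt_min hρg one_pos), min_le_left _ _,
      (min_le_right _ _).trans (min_le_left _ _), (min_le_right _ _).trans (min_le_right _ _)⟩
  set U : Set ℂ := ball (1 : ℂ) ρ₁ \ segm 1 with hU
  have hUo : IsOpen U := isOpen_ball.sdiff (isClosed_segm 1)
  have hUpc : IsPreconnected U := by
    have hs := cpa_star hρ₁ hρ₁1
    have hm : (1 + (ρ₁ / 2 : ℝ) : ℂ) ∈ ball (1 : ℂ) ρ₁ := by
      rw [mem_ball, dist_eq]
      have : (1 + (ρ₁ / 2 : ℝ) : ℂ) - 1 = ((ρ₁ / 2 : ℝ) : ℂ) := by ring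
      rw [this, norm_real, Real.norm_eq_abs, abs_of_pos (by positivity)]
      linarith
    have hm' : (1 + (ρ₁ / 2 : ℝ) : ℂ) ∈ U := by
      refine ⟨hm, (cpa_mem_slit hρ₁1 hm).2 ?_⟩
      rw [mem_slitPlane_iff]
      left
      simp
      exact hρ₁
    exact (hs.isPathConnected hm').isConnected.isPreconnected
  have hball1 : ball (1 : ℂ) ρ₁ ∈ 𝓝 (1 : ℂ) := isOpen_ball.mem_nhds (mem_ball_self hρ₁)
  have hgU : DifferentiableOn ℂ g U := hg.mono
    (Set.sdiff_subset_sdiff_left (ball_subset_ball hρ₁g))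
  -- the function E
  have hWd' : DifferentiableOn ℂ W (ball (1 : ℂ) ρ₁) := hWd.mono (ball_subset_ball hρ₁r)
  have hWmaps : Set.MapsTo W (ball (1 : ℂ) ρ₁) (ball 0 ρ) :=
    fun w hw => (hWm w (ball_subset_ball hρ₁r hw)).1
  set u₁ : ℂ → ℂ := dslope w₁ 0 with hu₁
  set u₂ : ℂ → ℂ := dslope w₂ 0 with hu₂
  have hu₁d : DifferentiableOn ℂ u₁ (ball 0 ρ) := (Complex.differentiableOn_dslope hnh0).2 hw₁
  have hu₂d : DifferentiableOn ℂ u₂ (ball 0 ρ) := (Complex.differentiableOn_dslope hnh0).2 hw₂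
  have hu₁0 : u₁ 0 = b := by rw [hu₁, dslope_same, h₁d]
  have hu₂0 : u₂ 0 = -b := by rw [hu₂, dslope_same, h₂d]
  have hu₁m : ∀ δ, w₁ δ - 1 = δ * u₁ δ := by
    intro δ
    have := sub_smul_dslope w₁ 0 δ
    rw [h₁0, sub_zero, smul_eq_mul] at this
    exact this.symm
  have hu₂m : ∀ δ, w₂ δ - 1 = δ * u₂ δ := by
    intro δ
    have := sub_smul_dslope w₂ 0 δ
    rw [h₂0, sub_zero, smul_eq_mul] at this
    exact this.symm
  set F : ℂ → ℂ := fun δ => N δ / j δ * u₁ δ ^ 2 with hF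
  have hFd : DifferentiableOn ℂ F (ball 0 ρ) := (hN.div hj hj0).mul (hu₁d.pow 2)
  set E : ℂ → ℂ := fun w => F (W w) with hE
  have hEd : DifferentiableOn ℂ E (ball (1 : ℂ) ρ₁) := hFd.comp hWd' hWmaps
  -- relation in terms of δ
  have hrel : ∀ δ ∈ ball (0 : ℂ) ρ, 0 < δ.im → F δ = (w₁ δ - 1) ^ 2 * deriv g (w₁ δ) := by
    intro δ hδ hδi
    have hδ0 : δ ≠ 0 := by rintro rfl; simp at hδi
    change N δ / j δ * u₁ δ ^ 2 = _
    rw [hu₁m δ, ← hder δ hδ hδi]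
    field_simp [hj0 δ hδ]
  -- E = (w-1)^2 g' on U
  have hEg : Set.EqOn E (fun w => (w - 1) ^ 2 * deriv g w) U := by
    have hgd : DifferentiableOn ℂ (deriv g) U := hgU.deriv hUo
    have hA1 : AnalyticOnNhd ℂ E U :=
      (hEd.mono Set.sdiff_subset).analyticOnNhd hUo
    have hA2 : AnalyticOnNhd ℂ (fun w => (w - 1) ^ 2 * deriv g w) U :=
      (DifferentiableOn.mul (((differentiable_id.sub_const 1).pow 2).differentiableOn) hgd).analyticOnNhd hUo
    -- a point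
    have hc₁ : ContinuousAt w₁ 0 := (hw₁.differentiableAt hnh0).continuousAt
    have hlim : Tendsto (fun t : ℝ => (t : ℂ) * I) (𝓝[>] 0) (𝓝 0) := by
      have : Tendsto (fun t : ℝ => (t : ℂ) * I) (𝓝 0) (𝓝 (((0 : ℝ) : ℂ) * I)) :=
        (Continuous.tendsto (by fun_prop) 0)
      rw [ofReal_zero, zero_mul] at this
      exact this.mono_left nhdsWithin_le_nhds
    have hev1 : ∀ᶠ δ in 𝓝 (0 : ℂ), δ ∈ ball (0 : ℂ) ρ ∧ w₁ δ ∈ ball (1 : ℂ) ρ₁ ∧ W (w₁ δ) = δ := by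
      refine Filter.Eventually.and hnh0 (Filter.Eventually.and ?_ hWl)
      apply hc₁
      rw [h₁0]
      exact hball1
    obtain ⟨t, ht, htpos⟩ := ((hlim.eventually hev1).and self_mem_nhdsWithin).exists
    set δ₀ : ℂ := (t : ℂ) * I with hδ₀
    have hδ₀i : 0 < δ₀.im := by
      simp [hδ₀]
      exact htpos
    obtain ⟨hδb, hwb, hWδ⟩ := ht
    have hw₀U : w₁ δ₀ ∈ U := ⟨hwb, (hmem δ₀ hδb hδ₀i).1.2⟩
    refine hA1.eqOn_of_preconnected_of_eventuallyEq hA2 hUpc hw₀U ?_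
    have hWc : ContinuousAt W (w₁ δ₀) :=
      (hWd'.differentiableAt (isOpen_ball.mem_nhds hwb)).continuousAt
    have hev2 : ∀ᶠ w in 𝓝 (w₁ δ₀), 0 < (W w).im := by
      have : ContinuousAt (fun w => (W w).im) (w₁ δ₀) := continuous_im.continuousAt.comp hWc
      apply this.eventually
      change ∀ᶠ y in 𝓝 ((W (w₁ δ₀)).im), 0 < y
      rw [hWδ]
      exact lt_mem_nhds hδ₀i
    filter_upwards [hev2, hUo.mem_nhds hw₀U] with w hw1 hw2
    have hw3 := hWm w (ball_subset_ball hρ₁r hw2.1)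
    have := hrel (W w) hw3.1 hw1
    rw [hw3.2] at this
    exact this
  -- Taylor expansion
  set E₁ : ℂ → ℂ := dslope E 1 with hE₁
  have hE₁d : DifferentiableOn ℂ E₁ (ball (1 : ℂ) ρ₁) := (Complex.differentiableOn_dslope hball1).2 hEd
  set E₂ : ℂ → ℂ := dslope E₁ 1 with hE₂
  have hE₂d : DifferentiableOn ℂ E₂ (ball (1 : ℂ) ρ₁) := (Complex.differentiableOn_dslope hball1).2 hE₁d
  have hEt : ∀ w, E w = E 1 + E₁ 1 * (w - 1) + (w - 1) ^ 2 * E₂ w := by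
    intro w
    have a1 := sub_smul_dslope E 1 w
    have a2 := sub_smul_dslope E₁ 1 w
    rw [smul_eq_mul] at a1 a2
    have : E w = E 1 + (w - 1) * E₁ w := by rw [hE₁, a1]; ring
    rw [this]
    have : E₁ w = E₁ 1 + (w - 1) * E₂ w := by rw [hE₂, a2]; ring
    rw [this]; ring
  obtain ⟨E₃, hE₃⟩ := hE₂d.isExactOn_ball
  set L : ℂ → ℂ := fun w => g w + E 1 / (w - 1) - E₁ 1 * log (w - 1) - E₃ w with hL
  have hLd : ∀ w ∈ U, HasDerivAt L 0 w := by
    intro w hw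
    have hws : w - 1 ∈ slitPlane := (cpa_mem_slit hρ₁1 hw.1).1 hw.2
    have hw0 : w - 1 ≠ 0 := slitPlane_ne_zero hws
    have d1 : HasDerivAt g (deriv g w) w := (hgU.differentiableAt (hUo.mem_nhds hw)).hasDerivAt
    have d0 : HasDerivAt (fun w : ℂ => w - 1) 1 w := (hasDerivAt_id w).sub_const 1
    have d2 : HasDerivAt (fun w : ℂ => E 1 / (w - 1)) (E 1 * (-1 / (w - 1) ^ 2)) w := by
      have := (d0.inv hw0).const_mul (E 1)
      simpa [div_eq_mul_inv] using this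
    have d3 : HasDerivAt (fun w : ℂ => E₁ 1 * log (w - 1)) (E₁ 1 * (1 / (w - 1))) w :=
      (d0.clog hws).const_mul (E₁ 1)
    have d4 : HasDerivAt E₃ (E₂ w) w := hE₃ w hw.1
    have hsum := ((d1.add d2).sub d3).sub d4
    have hz : deriv g w + E 1 * (-1 / (w - 1) ^ 2) - E₁ 1 * (1 / (w - 1)) - E₂ w = 0 := by
      have e1 := hEg hw
      have e2 := hEt w
      simp only at e1
      rw [e1] at e2
      field_simp
      linear_combination e2
    rw [hz] at hsum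
    exact hsum
  obtain ⟨k, hk⟩ : ∃ k, ∀ w ∈ U, L w = k := by
    have hLdo : DifferentiableOn ℂ L U := fun w hw => (hLd w hw).differentiableAt.differentiableWithinAt
    obtain ⟨k, hk⟩ := hUo.exists_is_const_of_deriv_eq_zero hUpc hLdo (fun w hw => (hLd w hw).deriv)
    exact ⟨k, hk⟩
  have hgw : ∀ w ∈ U, g w = -(E 1) / (w - 1) + E₁ 1 * log (w - 1) + E₃ w + k := by
    intro w hw
    have := hk w hw
    rw [hL] at this
    simp only at this
    linear_combination this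
  -- E₁ 1 = 0
  have hE₁0 : E₁ 1 = 0 := by
    by_contra hne
    -- the path δ = i t
    have hlim : Tendsto (fun t : ℝ => (t : ℂ) * I) (𝓝[>] 0) (𝓝 0) := by
      have : Tendsto (fun t : ℝ => (t : ℂ) * I) (𝓝 0) (𝓝 (((0 : ℝ) : ℂ) * I)) :=
        (Continuous.tendsto (by fun_prop) 0)
      rw [ofReal_zero, zero_mul] at this
      exact this.mono_left nhdsWithin_le_nhds
    have hc₁ : ContinuousAt w₁ 0 := (hw₁.differentiableAt hnh0).continuousAt
    have hc₂ : ContinuousAt w₂ 0 := (hw₂.differentiableAt hnh0).continuousAt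
    set s : ℂ → ℂ := fun δ => u₁ δ + u₂ δ with hs
    have hsd : DifferentiableOn ℂ s (ball 0 ρ) := hu₁d.add hu₂d
    have hs0 : s 0 = 0 := by rw [hs]; simp only; rw [hu₁0, hu₂0]; ring
    set v : ℂ → ℂ := dslope s 0 with hv
    have hvd : DifferentiableOn ℂ v (ball 0 ρ) := (Complex.differentiableOn_dslope hnh0).2 hsd
    have hvm : ∀ δ, s δ = δ * v δ := by
      intro δ
      have := sub_smul_dslope s 0 δ
      rw [hs0, sub_zero, sub_zero, smul_eq_mul] at this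
      exact this.symm
    have hcu₁ : ContinuousAt u₁ 0 := (hu₁d.differentiableAt hnh0).continuousAt
    have hcu₂ : ContinuousAt u₂ 0 := (hu₂d.differentiableAt hnh0).continuousAt
    have hcv : ContinuousAt v 0 := (hvd.differentiableAt hnh0).continuousAt
    have hcP : ContinuousAt P 0 := (hP.differentiableAt hnh0).continuousAt
    have hE₃c : ContinuousAt E₃ 1 := (hE₃ 1 (mem_ball_self hρ₁)).continuousAt
    -- limit function
    set Q : ℂ → ℂ := fun δ => (P δ + E 1 * (v δ / (u₁ δ * u₂ δ)) - E₃ (w₁ δ) - E₃ (w₂ δ) - 2 * k)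
      / E₁ 1 with hQ
    have hQc : ContinuousAt Q 0 := by
      have q1 : ContinuousAt (fun δ => v δ / (u₁ δ * u₂ δ)) 0 := by
        refine hcv.div (hcu₁.mul hcu₂) ?_
        change u₁ 0 * u₂ 0 ≠ 0
        rw [hu₁0, hu₂0]
        exact mul_ne_zero hbC (neg_ne_zero.2 hbC)
      have q2 : ContinuousAt (fun δ => E₃ (w₁ δ)) 0 := by
        apply ContinuousAt.comp _ hc₁
        rw [h₁0]; exact hE₃c
      have q3 : ContinuousAt (fun δ => E₃ (w₂ δ)) 0 := by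
        apply ContinuousAt.comp _ hc₂
        rw [h₂0]; exact hE₃c
      exact ((((hcP.add (continuousAt_const.mul q1)).sub q2).sub q3).sub continuousAt_const).div_const _
    have hQl : Tendsto (fun t : ℝ => (Q ((t : ℂ) * I)).re) (𝓝[>] 0) (𝓝 (Q 0).re) :=
      (continuous_re.tendsto _).comp (hQc.tendsto.comp hlim)
    have hev : ∀ᶠ δ in 𝓝 (0 : ℂ), δ ∈ ball (0 : ℂ) ρ ∧ w₁ δ ∈ ball (1 : ℂ) ρ₁ ∧
        w₂ δ ∈ ball (1 : ℂ) ρ₁ := by
      refine Filter.Eventually.and hnh0 (Filter.Eventually.and ?_ ?_)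
      · apply hc₁
        rw [h₁0]
        exact hball1
      · apply hc₂
        rw [h₂0]
        exact hball1
    have hlog : ∀ᶠ t : ℝ in 𝓝[>] (0 : ℝ), (Q ((t : ℂ) * I)).re =
        Real.log ‖w₁ ((t : ℂ) * I) - 1‖ + Real.log ‖w₂ ((t : ℂ) * I) - 1‖ := by
      filter_upwards [hlim.eventually hev, self_mem_nhdsWithin] with t ht htpos
      set δ : ℂ := (t : ℂ) * I with hδ
      have hδi : 0 < δ.im := by
        simp [hδ]
        exact htpos
      have hδ0 : δ ≠ 0 := by intro h; rw [h] at hδi; simp at hδi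
      obtain ⟨hδb, hb1, hb2⟩ := ht
      have hU1 : w₁ δ ∈ U := ⟨hb1, (hmem δ hδb hδi).1.2⟩
      have hU2 : w₂ δ ∈ U := ⟨hb2, (hmem δ hδb hδi).2.2⟩
      have e1 := hgw _ hU1
      have e2 := hgw _ hU2
      have e3 := hsum δ hδb hδi
      have n1 : w₁ δ - 1 ≠ 0 := slitPlane_ne_zero ((cpa_mem_slit hρ₁1 hU1.1).1 hU1.2)
      have n2 : w₂ δ - 1 ≠ 0 := slitPlane_ne_zero ((cpa_mem_slit hρ₁1 hU2.1).1 hU2.2)
      have m1 : u₁ δ ≠ 0 := by
        intro h; apply n1; rw [hu₁m, h, mul_zero]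
      have m2 : u₂ δ ≠ 0 := by
        intro h; apply n2; rw [hu₂m, h, mul_zero]
      have hQe : Q δ = log (w₁ δ - 1) + log (w₂ δ - 1) := by
        have e4 : v δ / (u₁ δ * u₂ δ) = 1 / (w₁ δ - 1) + 1 / (w₂ δ - 1) := by
          rw [hu₁m, hu₂m]
          have : δ * v δ = u₁ δ + u₂ δ := (hvm δ).symm
          field_simp
          linear_combination this
        rw [hQ]
        simp only
        rw [e4, div_eq_iff hne]
        rw [e1, e2] at e3
        linear_combination -e3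
      rw [hQe, add_re, log_re, log_re]
    have hbot : Tendsto (fun t : ℝ => Real.log ‖w₁ ((t : ℂ) * I) - 1‖ +
        Real.log ‖w₂ ((t : ℂ) * I) - 1‖) (𝓝[>] 0) atBot := by
      have hgen : ∀ (w u : ℂ → ℂ), ContinuousAt w 0 → w 0 = 1 →
          (∀ᶠ t : ℝ in 𝓝[>] (0 : ℝ), w ((t : ℂ) * I) - 1 ≠ 0) →
          Tendsto (fun t : ℝ => Real.log ‖w ((t : ℂ) * I) - 1‖) (𝓝[>] 0) atBot := by
        intro w u hwc hw0 hwne
        apply Real.tendsto_log_nhdsNE_zero.comp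
        rw [tendsto_nhdsWithin_iff]
        constructor
        · have : Tendsto (fun t : ℝ => ‖w ((t : ℂ) * I) - 1‖) (𝓝[>] 0) (𝓝 ‖w 0 - 1‖) :=
            ((hwc.tendsto.comp hlim).sub_const 1).norm
          rw [hw0, sub_self, norm_zero] at this
          exact this
        · filter_upwards [hwne] with t ht
          simp only [Set.mem_compl_iff, Set.mem_singleton_iff]
          exact norm_ne_zero_iff.2 ht
      apply Tendsto.atBot_add_atBot
      · apply hgen w₁ u₁ hc₁ h₁0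
        filter_upwards [hlim.eventually hev, self_mem_nhdsWithin] with t ht htpos
        have hδi : 0 < ((t : ℂ) * I).im := by
          simp
          exact htpos
        exact slitPlane_ne_zero ((cpa_mem_slit hρ₁1 ht.2.1).1 (hmem _ ht.1 hδi).1.2)
      · apply hgen w₂ u₂ hc₂ h₂0
        filter_upwards [hlim.eventually hev, self_mem_nhdsWithin] with t ht htpos
        have hδi : 0 < ((t : ℂ) * I).im := by
          simp
          exact htpos
        exact slitPlane_ne_zero ((cpa_mem_slit hρ₁1 ht.2.2).1 (hmem _ ht.1 hδi).2.2)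
    have hQl' := hQl.congr' hlog
    exact not_tendsto_nhds_of_tendsto_atBot hbot _ hQl'
  refine ⟨-(E 1), ρ₁, hρ₁, fun w => E₃ w + k, ?_, ?_⟩
  · intro w hw
    exact ((hE₃ w hw).differentiableAt.add_const k).differentiableWithinAt
  · intro w hw
    have := hgw w hw
    rw [hE₁0] at this
    rw [this]
    ring

end LSB
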