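import Pool.Agent.LSB.CExt
import Pool.Agent.LSB.CPhi
import Pool.Agent.LSB.CPoleAbs

/-!
# Part C, module CPole: the continuation has at most a simple pole at `w=1`

Paper proof.  Fix `w₀>0` smaller than `r/8` and `r₂` (`exists_Jac`); `ext_minus`, `ext_plus` give `G₋,G₊` and `ρ`.  For
`‖ϖ-w₀‖`, `‖δ‖` small define `Q(ϖ,δ)=i cot ϖ(G₋(ϖ,δ-2ϖ)-G₊(ϖ,δ+2ϖ))+Km ϖ(δ-ϖ)+Km ϖ(δ+ϖ)`, differentiable near `(w₀,0)`.  If moreover
`Im δ>3|Im ϖ|`: `rel` at `α=δ-ϖ` and at `α=δ+ϖ` (both have imaginary part `>9/8|Im ϖ|`), adding, the terms `Z ϖ δ` cancel: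
`g(Φ(ϖ,δ))+g(Φ(ϖ,-δ))=Q(ϖ,δ)` (`Phi_eq`).  This is an open set of `(ϖ,δ)`; differentiate at `ϖ=w₀`, `Im δ>0`, with respect to `ϖ` and `δ`:
`g'(w₁)Φ_ϖ(w₀,δ)+g'(w₂)Φ_ϖ(w₀,-δ)=Q_ϖ`, `g'(w₁)Φ_δ(w₀,δ)-g'(w₂)Φ_δ(w₀,-δ)=Q_δ`, `w₁=Φ(w₀,δ)`, `w₂=Φ(w₀,-δ)`.  Eliminate `g'(w₂)`:
`Jac w₀ δ·g'(w₁)=-Q_ϖ(w₀,δ)Φ_δ(w₀,-δ)-Q_δ(w₀,δ)Φ_ϖ(w₀,-δ)=:N(δ)`.  Apply `simple_pole_of_relation` with `P(δ)=Q(w₀,δ)`; for `Im δ>0`,
`w₁,w₂∉segm 1` by `c_notMem` (here `ϖ=w₀` is real), `w₁,w₂` are real for real `δ` by `conj`.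
-/

namespace LSB

open Complex Metric

variable {D : CData}

namespace CPoleAux

/-- Positive numbers below finitely many positive bounds. -/
lemma exists_small {a₁ a₂ a₃ a₄ a₅ : ℝ} (h₁ : 0 < a₁) (h₂ : 0 < a₂) (h₃ : 0 < a₃) (h₄ : 0 < a₄)
    (h₅ : 0 < a₅) : ∃ a > 0, a ≤ a₁ ∧ a ≤ a₂ ∧ a ≤ a₃ ∧ a ≤ a₄ ∧ a ≤ a₅ := by
  refine ⟨min a₁ (min a₂ (min a₃ (min a₄ a₅))), ?_, ?_, ?_, ?_, ?_, ?_⟩
  · simp only [gt_iff_lt, lt_min_iff]
    exact ⟨h₁, h₂, h₃, h₄, h₅⟩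
  · exact min_le_left _ _
  · exact (min_le_right _ _).trans (min_le_left _ _)
  · exact (min_le_right _ _).trans ((min_le_right _ _).trans (min_le_left _ _))
  · exact (min_le_right _ _).trans ((min_le_right _ _).trans
      ((min_le_right _ _).trans (min_le_left _ _)))
  · exact (min_le_right _ _).trans ((min_le_right _ _).trans
      ((min_le_right _ _).trans (min_le_right _ _)))

/-- Values of `Φ` off the segment. -/
lemma Phi_notMem {w₀ : ℝ} (hw : ‖(w₀ : ℂ)‖ < D.r₀) {δ : ℂ} (hδ : ‖δ‖ < D.r₀) (him : δ.im ≠ 0) :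
    D.Phi w₀ δ ∉ segm 1 := by
  intro hmem
  have h1 := D.r₀_le'
  have h2 := D.r₀_pos
  have h3 := D.Y_lt
  have habs : |((w₀ : ℂ) - δ).im| < D.Y₁ := by
    have h4 : |((w₀ : ℂ) - δ).im| ≤ ‖δ‖ := by
      rw [sub_im, ofReal_im, zero_sub, abs_neg]
      exact abs_im_le_norm δ
    linarith
  have h5 := D.im_le w₀ (w₀ - δ) hw habs hmem
  rw [ofReal_im, abs_zero, mul_zero, sub_im, ofReal_im, zero_sub, abs_neg] at h5
  exact him (abs_eq_zero.mp (le_antisymm h5 (abs_nonneg _)))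

/-- Values of `Φ` at real points are real. -/
lemma Phi_im {w₀ : ℝ} (hw : ‖(w₀ : ℂ)‖ < D.r₀) (x : ℝ) : (D.Phi w₀ x).im = 0 := by
  have h1 := D.r₀_le'
  have h2 := D.r₀_pos
  have h3 := D.Y_lt
  have habs : |((w₀ : ℂ) - x).im| < D.Y₁ := by
    rw [sub_im, ofReal_im, ofReal_im, sub_zero, abs_zero]
    linarith
  have h4 := D.conj w₀ (w₀ - x) hw habs
  rw [map_sub, conj_ofReal, conj_ofReal] at h4
  exact conj_eq_iff_im.mp h4.symm

end CPoleAux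

open CPoleAux

theorem pole_one (R : RelData D) : ∃ A : ℂ, ∃ ρ > 0, ∃ g₁ : ℂ → ℂ,
    DifferentiableOn ℂ g₁ (ball 1 ρ) ∧
      ∀ w ∈ ball (1 : ℂ) ρ \ segm 1, R.g w = A / (w - 1) + g₁ w := by
  obtain ⟨r₂, hr₂, hJ⟩ := exists_Jac D
  have hr := R.r_pos
  have hrle := R.r_le
  have hr₀ := D.r₀_pos
  have hr₀' := D.r₀_le
  have hr₀'' := D.r₀_le'
  obtain ⟨w₀, hw₀, hw₀r, hw₀r₂⟩ : ∃ w₀ : ℝ, 0 < w₀ ∧ w₀ < R.r / 8 ∧ w₀ < r₂ := by
    have h : 0 < min (R.r / 8) r₂ := lt_min (by positivity) hr₂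
    exact ⟨min (R.r / 8) r₂ / 2, by positivity, by
      have := min_le_left (R.r / 8) r₂
      linarith, by
      have := min_le_right (R.r / 8) r₂
      linarith⟩
  obtain ⟨ρJ, hρJ, j, hj, hj0, hjJ, b, hb, hb'⟩ := hJ w₀ hw₀ hw₀r₂
  obtain ⟨ρ₁, hρ₁, Gm, hGm, hGm'⟩ := ext_minus R hw₀ hw₀r
  obtain ⟨ρ₂, hρ₂, Gp, hGp, hGp'⟩ := ext_plus R hw₀ hw₀r
  have hw₀n : ‖(w₀ : ℂ)‖ = w₀ := by rw [norm_real, Real.norm_of_nonneg hw₀.le]
  -- the sine does not vanish near `w₀`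
  obtain ⟨ρs, hρs, hsin⟩ : ∃ ρs > 0, ∀ ϖ : ℂ, ‖ϖ - w₀‖ < ρs → sin ϖ ≠ 0 := by
    have h1 : sin (w₀ : ℂ) ≠ 0 := by
      rw [← ofReal_sin, Ne, ofReal_eq_zero]
      apply ne_of_gt
      apply Real.sin_pos_of_pos_of_lt_pi hw₀
      have := Real.pi_gt_three
      linarith
    have h2 := continuous_sin.continuousAt.eventually_ne (x := (w₀ : ℂ)) h1
    obtain ⟨ρs, hρs, h3⟩ := Metric.eventually_nhds_iff.mp h2
    exact ⟨ρs, hρs, fun ϖ hϖ => h3 (by rwa [dist_eq_norm])⟩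
  obtain ⟨ρ', hρ', hρ'1, hρ'2, hρ'3, hρ'4, hρ'5⟩ := exists_small (a₁ := ρJ) (a₂ := ρ₁ / 3)
    (a₃ := ρ₂ / 3) (a₄ := ρs) (a₅ := R.r / 8) hρJ (by positivity) (by positivity) hρs
    (by positivity)
  -- the polydisc
  set U : Set (ℂ × ℂ) := {p | ‖p.1 - w₀‖ < ρ' ∧ ‖p.2‖ < ρ'} with hU
  have hUo : IsOpen U :=
    (isOpen_lt (continuous_fst.sub continuous_const).norm continuous_const).inter
      (isOpen_lt continuous_snd.norm continuous_const)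
  have hn : ∀ ϖ : ℂ, ‖ϖ - w₀‖ < ρ' → ‖ϖ‖ < R.r := by
    intro ϖ hϖ
    have h1 : ‖ϖ‖ ≤ ‖ϖ - w₀‖ + ‖(w₀ : ℂ)‖ := by
      have := norm_add_le (ϖ - w₀) (w₀ : ℂ)
      rwa [sub_add_cancel] at this
    rw [hw₀n] at h1
    linarith
  have him : ∀ ϖ : ℂ, ‖ϖ - w₀‖ < ρ' → |ϖ.im| < ρ' := by
    intro ϖ hϖ
    have h1 := abs_im_le_norm (ϖ - w₀)
    rw [sub_im, ofReal_im, sub_zero] at h1
    exact h1.trans_lt hϖ
  set Q : ℂ × ℂ → ℂ := fun p =>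
    I * (cos p.1 / sin p.1) * (Gm (p.1, p.2 - 2 * p.1) - Gp (p.1, p.2 + 2 * p.1)) +
      R.Km p.1 (p.2 - p.1) + R.Km p.1 (p.2 + p.1) with hQ
  have hm1 : ∀ ϖ δ : ℂ, ‖ϖ - w₀‖ < ρ' → ‖δ‖ < ρ' → ‖δ - 2 * ϖ + 2 * w₀‖ < 3 * ρ' := by
    intro ϖ δ hϖ hδ
    have h1 : δ - 2 * ϖ + 2 * w₀ = δ - 2 * (ϖ - w₀) := by ring
    have h2 := norm_sub_le δ (2 * (ϖ - w₀))
    rw [norm_mul, norm_ofNat] at h2
    rw [h1]
    linarith
  have hm2 : ∀ ϖ δ : ℂ, ‖ϖ - w₀‖ < ρ' → ‖δ‖ < ρ' → ‖δ + 2 * ϖ - 2 * w₀‖ < 3 * ρ' := by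
    intro ϖ δ hϖ hδ
    have h1 : δ + 2 * ϖ - 2 * w₀ = δ + 2 * (ϖ - w₀) := by ring
    have h2 := norm_add_le δ (2 * (ϖ - w₀))
    rw [norm_mul, norm_ofNat] at h2
    rw [h1]
    linarith
  have himY : ∀ ϖ δ : ℂ, ‖ϖ - w₀‖ < ρ' → ‖δ‖ < ρ' →
      (δ - ϖ).im < D.Y ∧ (δ + ϖ).im < D.Y := by
    intro ϖ δ hϖ hδ
    have h1 := him ϖ hϖ
    have h2 := (le_abs_self δ.im).trans (abs_im_le_norm δ)
    have h3 := abs_lt.mp h1
    rw [sub_im, add_im]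
    constructor <;> linarith
  have hQd : DifferentiableOn ℂ Q U := by
    have hd1 : DifferentiableOn ℂ (fun p : ℂ × ℂ => I * (cos p.1 / sin p.1)) U := by
      intro p hp
      have h1 : sin p.1 ≠ 0 := hsin p.1 (hp.1.trans_le hρ'4)
      have h2 : DifferentiableAt ℂ (fun p : ℂ × ℂ => cos p.1) p :=
        (differentiable_cos _).comp p differentiableAt_fst
      have h3 : DifferentiableAt ℂ (fun p : ℂ × ℂ => sin p.1) p :=
        (differentiable_sin _).comp p differentiableAt_fst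
      have h4 : DifferentiableAt ℂ (fun p : ℂ × ℂ => cos p.1 / sin p.1) p := by
        simp only [div_eq_mul_inv]
        exact h2.mul (h3.inv h1)
      exact (h4.const_mul I).differentiableWithinAt
    have hd2 : DifferentiableOn ℂ (fun p : ℂ × ℂ => Gm (p.1, p.2 - 2 * p.1)) U := by
      refine hGm.comp (t := {p : ℂ × ℂ | ‖p.1 - w₀‖ < ρ₁ ∧ ‖p.2 + 2 * w₀‖ < ρ₁})
        (f := fun p : ℂ × ℂ => (p.1, p.2 - 2 * p.1)) ?_ ?_
      · exact (differentiable_fst.prodMk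
          (differentiable_snd.sub (differentiable_fst.const_mul 2))).differentiableOn
      · intro p hp
        have h1 := hm1 p.1 p.2 hp.1 hp.2
        exact ⟨by have := hp.1; change ‖p.1 - w₀‖ < ρ₁; linarith, by
          change ‖p.2 - 2 * p.1 + 2 * w₀‖ < ρ₁
          linarith⟩
    have hd3 : DifferentiableOn ℂ (fun p : ℂ × ℂ => Gp (p.1, p.2 + 2 * p.1)) U := by
      refine hGp.comp (t := {p : ℂ × ℂ | ‖p.1 - w₀‖ < ρ₂ ∧ ‖p.2 - 2 * w₀‖ < ρ₂})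
        (f := fun p : ℂ × ℂ => (p.1, p.2 + 2 * p.1)) ?_ ?_
      · exact (differentiable_fst.prodMk
          (differentiable_snd.add (differentiable_fst.const_mul 2))).differentiableOn
      · intro p hp
        have h1 := hm2 p.1 p.2 hp.1 hp.2
        exact ⟨by have := hp.1; change ‖p.1 - w₀‖ < ρ₂; linarith, by
          change ‖p.2 + 2 * p.1 - 2 * w₀‖ < ρ₂
          linarith⟩
    have hd4 : DifferentiableOn ℂ (fun p : ℂ × ℂ => R.Km p.1 (p.2 - p.1)) U := by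
      refine R.Km_diff.comp (t := {p : ℂ × ℂ | ‖p.1‖ < R.r ∧ p.2.im < D.Y})
        (f := fun p : ℂ × ℂ => (p.1, p.2 - p.1)) ?_ ?_
      · exact (differentiable_fst.prodMk
          (differentiable_snd.sub differentiable_fst)).differentiableOn
      · intro p hp
        exact ⟨hn p.1 hp.1, (himY p.1 p.2 hp.1 hp.2).1⟩
    have hd5 : DifferentiableOn ℂ (fun p : ℂ × ℂ => R.Km p.1 (p.2 + p.1)) U := by
      refine R.Km_diff.comp (t := {p : ℂ × ℂ | ‖p.1‖ < R.r ∧ p.2.im < D.Y})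
        (f := fun p : ℂ × ℂ => (p.1, p.2 + p.1)) ?_ ?_
      · exact (differentiable_fst.prodMk
          (differentiable_snd.add differentiable_fst)).differentiableOn
      · intro p hp
        exact ⟨hn p.1 hp.1, (himY p.1 p.2 hp.1 hp.2).2⟩
    exact ((hd1.mul (hd2.sub hd3)).add hd4).add hd5
  -- the relation
  have hrel : ∀ ϖ δ : ℂ, ‖ϖ - w₀‖ < ρ' → ‖δ‖ < ρ' → 3 * |ϖ.im| < δ.im →
      R.g (D.Phi ϖ δ) + R.g (D.Phi ϖ (-δ)) = Q (ϖ, δ) := by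
    intro ϖ δ hϖ hδ h3
    have hs := hsin ϖ (hϖ.trans_le hρ'4)
    have hϖn := hn ϖ hϖ
    have hY := himY ϖ δ hϖ hδ
    have habs := abs_nonneg ϖ.im
    have hle := neg_abs_le ϖ.im
    have hle' := le_abs_self ϖ.im
    have i1 : 9 / 8 * |ϖ.im| < (δ - ϖ).im := by rw [sub_im]; linarith
    have i2 : 9 / 8 * |ϖ.im| < (δ + ϖ).im := by rw [add_im]; linarith
    have e1 := R.rel ϖ (δ - ϖ) hϖn i1 hY.1
    have e2 := R.rel ϖ (δ + ϖ) hϖn i2 hY.2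
    rw [show δ - ϖ - ϖ = δ - 2 * ϖ by ring, sub_add_cancel] at e1
    rw [show δ + ϖ + ϖ = δ + 2 * ϖ by ring, add_sub_cancel_right] at e2
    have i3 : (2 * ϖ).im = 2 * ϖ.im := by simp
    have e3 : Gm (ϖ, δ - 2 * ϖ) = R.Z ϖ (δ - 2 * ϖ) := by
      apply hGm' ϖ _ (by linarith)
      · have := hm1 ϖ δ hϖ hδ
        linarith
      · rw [sub_im, i3]
        linarith
    have e4 : Gp (ϖ, δ + 2 * ϖ) = R.Z ϖ (δ + 2 * ϖ) := by
      apply hGp' ϖ _ (by linarith)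
      · have := hm2 ϖ δ hϖ hδ
        linarith
      · rw [add_im, i3]
        linarith
    have hϖ0 : ‖ϖ‖ < D.r₀ := by linarith
    have hδ0 : ‖δ‖ < D.r₀ := by linarith
    obtain ⟨e5, e6⟩ := Phi_eq D hϖ0 hδ0
    rw [e5, e6]
    simp only [hQ, e3, e4]
    apply mul_left_cancel₀ hs
    have e7 : sin ϖ * (I * (cos ϖ / sin ϖ) * (R.Z ϖ (δ - 2 * ϖ) - R.Z ϖ (δ + 2 * ϖ)) +
        R.Km ϖ (δ - ϖ) + R.Km ϖ (δ + ϖ)) =
        I * cos ϖ * (R.Z ϖ (δ - 2 * ϖ) - R.Z ϖ (δ + 2 * ϖ)) +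
        sin ϖ * R.Km ϖ (δ - ϖ) + sin ϖ * R.Km ϖ (δ + ϖ) := by
      field_simp
    rw [e7]
    linear_combination e1 + e2
  -- the disc around `1`
  obtain ⟨ρg, hρg, hball⟩ : ∃ ρg > 0, ball (1 : ℂ) ρg ⊆ Ell (2 * D.Y) := by
    have h1 : (1 : ℂ) ∈ Ell (2 * D.Y) := by
      apply segm_subset_Ell (by have := D.Y_pos; positivity)
      exact ⟨one_im, by rw [one_re, abs_one]⟩
    exact Metric.isOpen_iff.mp (isOpen_Ell _) 1 h1
  have hgd : DifferentiableOn ℂ R.g (ball 1 ρg \ segm 1) :=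
    R.g_diff.mono (Set.sdiff_subset_sdiff_left hball)
  have hgo : IsOpen (ball (1 : ℂ) ρg \ segm 1) := isOpen_ball.sdiff (isClosed_segm 1)
  -- the two functions
  have hw₀U : ‖(w₀ : ℂ)‖ < D.r₀ := by rw [hw₀n]; linarith
  set V : Set (ℂ × ℂ) := {p : ℂ × ℂ | ‖p.1‖ < D.r₀ ∧ ‖p.2‖ < D.r₀} with hV
  have hVo : IsOpen V :=
    (isOpen_lt continuous_fst.norm continuous_const).inter
      (isOpen_lt continuous_snd.norm continuous_const)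
  have hPhi := Phi_differentiableOn D
  have hline : ∀ δ : ℂ, ‖δ‖ < D.r₀ → ((w₀ : ℂ), δ) ∈ V := fun δ hδ => ⟨hw₀U, hδ⟩
  have hPd1 : ∀ δ : ℂ, ‖δ‖ < D.r₀ → DifferentiableAt ℂ (fun z => D.Phi w₀ z) δ := by
    intro δ hδ
    have h1 : DifferentiableAt ℂ (fun p : ℂ × ℂ => D.Phi p.1 p.2) ((w₀ : ℂ), δ) :=
      (hPhi _ (hline δ hδ)).differentiableAt (hVo.mem_nhds (hline δ hδ))
    exact DifferentiableAt.comp (g := fun p : ℂ × ℂ => D.Phi p.1 p.2)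
      (f := fun z : ℂ => ((w₀ : ℂ), z)) δ h1
      ((differentiableAt_const _).prodMk differentiableAt_id)
  have hPd2 : ∀ δ : ℂ, ‖δ‖ < D.r₀ → DifferentiableAt ℂ (fun z => D.Phi z δ) (w₀ : ℂ) := by
    intro δ hδ
    have h1 : DifferentiableAt ℂ (fun p : ℂ × ℂ => D.Phi p.1 p.2) ((w₀ : ℂ), δ) :=
      (hPhi _ (hline δ hδ)).differentiableAt (hVo.mem_nhds (hline δ hδ))
    exact DifferentiableAt.comp (g := fun p : ℂ × ℂ => D.Phi p.1 p.2)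
      (f := fun z : ℂ => (z, δ)) (w₀ : ℂ) h1
      (differentiableAt_id.prodMk (differentiableAt_const _))
  have hc0 : D.Phi w₀ 0 = 1 := Phi_zero D hw₀U
  -- shrink so that the values are near `1`
  obtain ⟨ρc, hρc, hcont⟩ : ∃ ρc > 0, ∀ δ : ℂ, ‖δ‖ < ρc → D.Phi w₀ δ ∈ ball (1 : ℂ) ρg := by
    have h1 : ContinuousAt (fun z => D.Phi w₀ z) 0 :=
      (hPd1 0 (by rw [norm_zero]; exact hr₀)).continuousAt
    have h2 : ∀ᶠ δ in nhds (0 : ℂ), D.Phi w₀ δ ∈ ball (1 : ℂ) ρg := by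
      apply h1.eventually
      change ∀ᶠ y in nhds (D.Phi w₀ 0), y ∈ ball (1 : ℂ) ρg
      rw [hc0]
      exact ball_mem_nhds _ hρg
    obtain ⟨ρc, hρc, h3⟩ := Metric.eventually_nhds_iff.mp h2
    exact ⟨ρc, hρc, fun δ hδ => h3 (by rwa [dist_zero_right])⟩
  set ρ := min ρ' ρc with hρdef
  have hρ : 0 < ρ := lt_min hρ' hρc
  have hb1 : ∀ δ ∈ ball (0 : ℂ) ρ, ‖δ‖ < ρ' ∧ ‖δ‖ < ρc ∧ ‖δ‖ < D.r₀ := by
    intro δ hδ
    rw [mem_ball_zero_iff] at hδ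
    have h1 := hδ.trans_le (min_le_left _ _)
    have h2 := hδ.trans_le (min_le_right _ _)
    exact ⟨h1, h2, by linarith⟩
  -- differentiability of the partial derivatives along the line `ϖ = w₀`
  have hUline : ∀ δ : ℂ, ‖δ‖ < ρ' → ((w₀ : ℂ), δ) ∈ U := fun δ hδ =>
    ⟨by change ‖(w₀ : ℂ) - w₀‖ < ρ'; rw [sub_self, norm_zero]; exact hρ', hδ⟩
  have hQ1 : DifferentiableOn ℂ (fun δ => deriv (fun z => Q (z, δ)) (w₀ : ℂ)) (ball 0 ρ) := by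
    refine (differentiableOn_partial_fst hUo hQd).comp (f := fun δ : ℂ => ((w₀ : ℂ), δ))
      ((differentiable_const _).prodMk differentiable_id).differentiableOn ?_
    intro δ hδ
    exact hUline δ (hb1 δ hδ).1
  have hQ2 : DifferentiableOn ℂ (fun δ => deriv (fun z => Q ((w₀ : ℂ), z)) δ) (ball 0 ρ) := by
    refine (differentiableOn_partial_snd hUo hQd).comp (f := fun δ : ℂ => ((w₀ : ℂ), δ))
      ((differentiable_const _).prodMk differentiable_id).differentiableOn ?_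
    intro δ hδ
    exact hUline δ (hb1 δ hδ).1
  have hP1 : DifferentiableOn ℂ (fun δ => deriv (fun z => D.Phi z (-δ)) (w₀ : ℂ)) (ball 0 ρ) := by
    refine (differentiableOn_partial_fst hVo hPhi).comp (f := fun δ : ℂ => ((w₀ : ℂ), -δ))
      ((differentiable_const _).prodMk differentiable_id.neg).differentiableOn ?_
    intro δ hδ
    exact hline (-δ) (by rw [norm_neg]; exact (hb1 δ hδ).2.2)
  have hP2 : DifferentiableOn ℂ (fun δ => deriv (fun z => D.Phi w₀ z) (-δ)) (ball 0 ρ) := by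
    refine (differentiableOn_partial_snd hVo hPhi).comp (f := fun δ : ℂ => ((w₀ : ℂ), -δ))
      ((differentiable_const _).prodMk differentiable_id.neg).differentiableOn ?_
    intro δ hδ
    exact hline (-δ) (by rw [norm_neg]; exact (hb1 δ hδ).2.2)
  have hw₂d : ∀ δ : ℂ, ‖δ‖ < D.r₀ →
      HasDerivAt (fun z => D.Phi w₀ (-z)) (-deriv (fun z => D.Phi w₀ z) (-δ)) δ := by
    intro δ hδ
    have h1 := (hPd1 (-δ) (by rwa [norm_neg])).hasDerivAt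
    have h2 := h1.comp δ (hasDerivAt_neg δ)
    rw [mul_neg_one] at h2
    exact h2
  have hmem1 : ∀ δ ∈ ball (0 : ℂ) ρ, 0 < δ.im → D.Phi w₀ δ ∈ ball (1 : ℂ) ρg \ segm 1 ∧
      D.Phi w₀ (-δ) ∈ ball (1 : ℂ) ρg \ segm 1 := by
    intro δ hδ hδi
    obtain ⟨h1, h2, h3⟩ := hb1 δ hδ
    exact ⟨⟨hcont δ h2, Phi_notMem hw₀U h3 hδi.ne'⟩,
      ⟨hcont (-δ) (by rwa [norm_neg]), Phi_notMem hw₀U (by rwa [norm_neg]) (by
        rw [neg_im]
        exact neg_ne_zero.mpr hδi.ne')⟩⟩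
  have hsum : ∀ δ ∈ ball (0 : ℂ) ρ, 0 < δ.im →
      R.g (D.Phi w₀ δ) + R.g (D.Phi w₀ (-δ)) = Q ((w₀ : ℂ), δ) := by
    intro δ hδ hδi
    refine hrel w₀ δ ?_ (hb1 δ hδ).1 ?_
    · rw [sub_self, norm_zero]
      exact hρ'
    · rw [ofReal_im, abs_zero, mul_zero]
      exact hδi
  have hder : ∀ δ ∈ ball (0 : ℂ) ρ, 0 < δ.im →
      δ ^ 2 * j δ * deriv R.g (D.Phi w₀ δ) =
        -(deriv (fun z => Q (z, δ)) (w₀ : ℂ) * deriv (fun z => D.Phi w₀ z) (-δ)) -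
          deriv (fun z => Q ((w₀ : ℂ), z)) δ * deriv (fun z => D.Phi z (-δ)) (w₀ : ℂ) := by
    intro δ hδ hδi
    obtain ⟨hδ1, hδ2, hδ3⟩ := hb1 δ hδ
    obtain ⟨hm₁, hm₂⟩ := hmem1 δ hδ hδi
    have hg1 : HasDerivAt R.g (deriv R.g (D.Phi w₀ δ)) (D.Phi w₀ δ) :=
      ((hgd _ hm₁).differentiableAt (hgo.mem_nhds hm₁)).hasDerivAt
    have hg2 : HasDerivAt R.g (deriv R.g (D.Phi w₀ (-δ))) (D.Phi w₀ (-δ)) :=
      ((hgd _ hm₂).differentiableAt (hgo.mem_nhds hm₂)).hasDerivAt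
    -- derivative in `ϖ`
    have k1 : deriv R.g (D.Phi w₀ δ) * deriv (fun z => D.Phi z δ) (w₀ : ℂ) +
        deriv R.g (D.Phi w₀ (-δ)) * deriv (fun z => D.Phi z (-δ)) (w₀ : ℂ) =
        deriv (fun z => Q (z, δ)) (w₀ : ℂ) := by
      have h1 : HasDerivAt (fun z : ℂ => R.g (D.Phi z δ))
          (deriv R.g (D.Phi w₀ δ) * deriv (fun z => D.Phi z δ) (w₀ : ℂ)) (w₀ : ℂ) :=
        HasDerivAt.comp (h₂ := R.g) (h := fun z : ℂ => D.Phi z δ) (w₀ : ℂ) hg1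
          (hPd2 δ hδ3).hasDerivAt
      have h2 : HasDerivAt (fun z : ℂ => R.g (D.Phi z (-δ)))
          (deriv R.g (D.Phi w₀ (-δ)) * deriv (fun z => D.Phi z (-δ)) (w₀ : ℂ)) (w₀ : ℂ) :=
        HasDerivAt.comp (h₂ := R.g) (h := fun z : ℂ => D.Phi z (-δ)) (w₀ : ℂ) hg2
          (hPd2 (-δ) (by rwa [norm_neg])).hasDerivAt
      have h3 : (fun z : ℂ => Q (z, δ)) =ᶠ[nhds (w₀ : ℂ)]
          (fun z : ℂ => R.g (D.Phi z δ) + R.g (D.Phi z (-δ))) := by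
        have e1 : ∀ᶠ z : ℂ in nhds (w₀ : ℂ), ‖z - w₀‖ < ρ' := by
          refine Metric.eventually_nhds_iff.mpr ⟨ρ', hρ', fun z hz => ?_⟩
          rwa [dist_eq_norm] at hz
        have e2 : ∀ᶠ z : ℂ in nhds (w₀ : ℂ), 3 * |z.im| < δ.im := by
          have ho : IsOpen {z : ℂ | 3 * |z.im| < δ.im} :=
            isOpen_lt (continuous_const.mul continuous_im.abs) continuous_const
          have hmem : (w₀ : ℂ) ∈ {z : ℂ | 3 * |z.im| < δ.im} := by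
            change 3 * |(w₀ : ℂ).im| < δ.im
            rw [ofReal_im, abs_zero, mul_zero]
            exact hδi
          exact ho.mem_nhds hmem
        filter_upwards [e1, e2] with z hz1 hz2
        exact (hrel z δ hz1 hδ1 hz2).symm
      rw [h3.deriv_eq]
      exact (h1.add h2).deriv.symm
    -- derivative in `δ`
    have k2 : deriv R.g (D.Phi w₀ δ) * deriv (fun z => D.Phi w₀ z) δ +
        deriv R.g (D.Phi w₀ (-δ)) * (-deriv (fun z => D.Phi w₀ z) (-δ)) =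
        deriv (fun z => Q ((w₀ : ℂ), z)) δ := by
      have h1 : HasDerivAt (fun z : ℂ => R.g (D.Phi w₀ z))
          (deriv R.g (D.Phi w₀ δ) * deriv (fun z => D.Phi w₀ z) δ) δ :=
        HasDerivAt.comp (h₂ := R.g) (h := fun z : ℂ => D.Phi w₀ z) δ hg1 (hPd1 δ hδ3).hasDerivAt
      have h2 : HasDerivAt (fun z : ℂ => R.g (D.Phi w₀ (-z)))
          (deriv R.g (D.Phi w₀ (-δ)) * (-deriv (fun z => D.Phi w₀ z) (-δ))) δ :=
        HasDerivAt.comp (h₂ := R.g) (h := fun z : ℂ => D.Phi w₀ (-z)) δ hg2 (hw₂d δ hδ3)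
      have h3 : (fun z : ℂ => Q ((w₀ : ℂ), z)) =ᶠ[nhds δ]
          (fun z : ℂ => R.g (D.Phi w₀ z) + R.g (D.Phi w₀ (-z))) := by
        have e1 : ∀ᶠ z : ℂ in nhds δ, z ∈ ball (0 : ℂ) ρ := isOpen_ball.mem_nhds hδ
        have e2 : ∀ᶠ z : ℂ in nhds δ, 0 < z.im :=
          (isOpen_lt continuous_const continuous_im).mem_nhds hδi
        filter_upwards [e1, e2] with z hz1 hz2
        exact (hsum z hz1 hz2).symm
      rw [h3.deriv_eq]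
      exact (h1.add h2).deriv.symm
    have k3 := hjJ δ (by
      rw [mem_ball_zero_iff]
      linarith)
    rw [← k3, ← k1, ← k2]
    unfold CData.Jac
    ring
  refine simple_pole_of_relation (g := R.g) (w₁ := fun δ => D.Phi w₀ δ)
    (w₂ := fun δ => D.Phi w₀ (-δ))
    (N := fun δ => -(deriv (fun z => Q (z, δ)) (w₀ : ℂ) * deriv (fun z => D.Phi w₀ z) (-δ)) -
          deriv (fun z => Q ((w₀ : ℂ), z)) δ * deriv (fun z => D.Phi z (-δ)) (w₀ : ℂ))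
    (j := j) (P := fun δ => Q ((w₀ : ℂ), δ)) hρ hρg hb hgd ?_ ?_ ?_ ?_ ?_ ?_ ?_ ?_ ?_ ?_ ?_ ?_
    hmem1 hsum hder
  · intro δ hδ
    exact (hPd1 δ (hb1 δ hδ).2.2).differentiableWithinAt
  · intro δ hδ
    exact (hw₂d δ (hb1 δ hδ).2.2).differentiableAt.differentiableWithinAt
  · exact ((hQ1.mul hP2).neg).sub (hQ2.mul hP1)
  · exact hj.mono (ball_subset_ball ((min_le_left _ _).trans hρ'1))
  · refine hQd.comp (f := fun δ : ℂ => ((w₀ : ℂ), δ))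
      ((differentiable_const _).prodMk differentiable_id).differentiableOn ?_
    intro δ hδ
    exact hUline δ (hb1 δ hδ).1
  · exact hc0
  · change D.Phi w₀ (-0) = 1
    rw [neg_zero]
    exact hc0
  · exact hb'
  · have h1 := (hw₂d 0 (by rw [norm_zero]; exact hr₀)).deriv
    rw [neg_zero, hb'] at h1
    exact h1
  · intro x _
    exact Phi_im hw₀U x
  · intro x _
    have h1 := Phi_im hw₀U (-x)
    rw [ofReal_neg] at h1
    exact h1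
  · intro δ hδ
    apply hj0
    rw [mem_ball_zero_iff] at hδ ⊢
    exact hδ.trans_le ((min_le_left _ _).trans hρ'1)

end LSB
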