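import Pool.Agent.LSB.CRn
import Pool.Agent.LSB.COsgood

/-!
# Part C, module CRel: the functions `Z`, `Km` and the basic relation

Paper proof.  `Z ϖ ψ=∑_{n≥1}R n ϖ e^{inψ}`, `Km ϖ α=∑_{n≥0}St(-n)ϖ e^{-inα}`.  By `exists_Rn_bound` the first series converges
locally uniformly for `Im ψ>|Im ϖ|/8`, by `St_bound_neg` the second for `Im α<Y` (even `<Y₁`): `differentiableOn_tsum_two`.
Relation, `9/8|Im ϖ|<Im α<Y`: `gfun s(c ϖ α)-Km ϖ α=∑_{n≥1}St n ϖ e^{inα}` (`St_hasSum`), and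
`sin ϖ·St n ϖ=2 sin(nϖ)cos ϖ R n ϖ=-i cos ϖ(e^{inϖ}-e^{-inϖ})R n ϖ`, so the left side of `rel` is
`-i cos ϖ(Z ϖ(α+ϖ)-Z ϖ(α-ϖ))`.  Evenness is inherited from `St`, `R`.

`star`: `g*(w)=conj g(conj w)`, `Km*(ϖ,α)=conj Km(conj ϖ,-conj α)`, `Z*(ϖ,ψ)=conj Z(conj ϖ,-conj ψ)`.  Conjugate `rel` at
`(conj ϖ,-conj α)`; `c(conj ϖ,-conj α)=c(conj ϖ,conj α)=conj c(ϖ,α)`.  (`z↦conj f(conj z)` is differentiable: Mathlib
`DifferentiableAt.conj_conj`; in two variables similarly, or with `DifferentiableAt.comp` over `ℝ` and `osgood`.)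
-/

namespace LSB

open Complex Metric

/-- The relation between the pieces; abstract form. -/
structure RelData (D : CData) where
  r : ℝ
  g : ℂ → ℂ
  Km : ℂ → ℂ → ℂ
  Z : ℂ → ℂ → ℂ
  r_pos : 0 < r
  r_le : r ≤ D.r₀ / 2
  g_diff : DifferentiableOn ℂ g (Ell (2 * D.Y) \ segm 1)
  Km_diff : DifferentiableOn ℂ (fun p : ℂ × ℂ => Km p.1 p.2) {p : ℂ × ℂ | ‖p.1‖ < r ∧ p.2.im < D.Y}
  Z_diff : DifferentiableOn ℂ (fun p : ℂ × ℂ => Z p.1 p.2)
    {p : ℂ × ℂ | ‖p.1‖ < r ∧ 1 / 8 * |p.1.im| < p.2.im}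
  Km_even : ∀ ϖ α : ℂ, ‖ϖ‖ < r → α.im < D.Y → Km (-ϖ) α = Km ϖ α
  Z_even : ∀ ϖ ψ : ℂ, ‖ϖ‖ < r → 1 / 8 * |ϖ.im| < ψ.im → Z (-ϖ) ψ = Z ϖ ψ
  rel : ∀ ϖ α : ℂ, ‖ϖ‖ < r → 9 / 8 * |ϖ.im| < α.im → α.im < D.Y →
    sin ϖ * (g (D.c ϖ α) - Km ϖ α) = I * cos ϖ * (Z ϖ (α - ϖ) - Z ϖ (α + ϖ))

variable {D : CData} {η : ℝ} {s : ℤ → ℂ}

theorem CRel_norm_exp (n : ℕ) (z : ℂ) :
    ‖exp ((n : ℂ) * I * z)‖ = Real.exp (-(n * z.im)) := by
  rw [Complex.norm_exp]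
  congr 1
  simp [Complex.mul_re, Complex.mul_im]

theorem CRel_norm_exp_neg (n : ℕ) (z : ℂ) :
    ‖exp (-((n : ℂ) * I * z))‖ = Real.exp (n * z.im) := by
  rw [Complex.norm_exp]
  congr 1
  simp [Complex.mul_re, Complex.mul_im]

theorem CRel_summable_exp (C : ℝ) {ε : ℝ} (hε : 0 < ε) :
    Summable fun n : ℕ => C * Real.exp (-(n * ε)) := by
  refine Summable.mul_left C ?_
  have h2 : Summable fun n : ℕ => Real.exp (n * (-ε)) :=
    Real.summable_exp_nat_mul_iff.2 (by linarith)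
  refine h2.congr fun n => ?_
  congr 1
  ring

theorem CRel_open1 (r Y : ℝ) : IsOpen {p : ℂ × ℂ | ‖p.1‖ < r ∧ p.2.im < Y} := by
  have h1 : IsOpen {p : ℂ × ℂ | ‖p.1‖ < r} :=
    isOpen_lt continuous_fst.norm continuous_const
  have h2 : IsOpen {p : ℂ × ℂ | p.2.im < Y} :=
    isOpen_lt (Complex.continuous_im.comp continuous_snd) continuous_const
  exact h1.inter h2

theorem CRel_open2 (r : ℝ) :
    IsOpen {p : ℂ × ℂ | ‖p.1‖ < r ∧ 1 / 8 * |p.1.im| < p.2.im} := by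
  have h1 : IsOpen {p : ℂ × ℂ | ‖p.1‖ < r} :=
    isOpen_lt continuous_fst.norm continuous_const
  have h2 : IsOpen {p : ℂ × ℂ | 1 / 8 * |p.1.im| < p.2.im} :=
    isOpen_lt (continuous_const.mul (Complex.continuous_im.comp continuous_fst).abs)
      (Complex.continuous_im.comp continuous_snd)
  exact h1.inter h2

/-- the differentiability of the positive series -/
theorem CRel_Z_diff {r : ℝ} {R : ℕ → ℂ → ℂ}
    (hR : ∀ n : ℕ, 1 ≤ n → DifferentiableOn ℂ (R n) (ball 0 r))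
    (hb : ∀ ε : ℝ, 0 < ε → ∃ C, ∀ n : ℕ, 1 ≤ n → ∀ ϖ ∈ ball (0 : ℂ) r,
        ‖R n ϖ‖ ≤ C * Real.exp (n * (1 / 8 * |ϖ.im| + ε))) :
    DifferentiableOn ℂ (fun p : ℂ × ℂ =>
      ∑' n : ℕ, R (n + 1) p.1 * exp (((n + 1 : ℕ) : ℂ) * I * p.2))
      {p : ℂ × ℂ | ‖p.1‖ < r ∧ 1 / 8 * |p.1.im| < p.2.im} := by
  have hopen := CRel_open2 r
  refine differentiableOn_tsum_two (F := fun (n : ℕ) (p : ℂ × ℂ) =>
    R (n + 1) p.1 * exp (((n + 1 : ℕ) : ℂ) * I * p.2)) hopen ?_ ?_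
  · intro n
    refine DifferentiableOn.mul ?_ ?_
    · refine (hR (n + 1) (by omega)).comp differentiableOn_fst ?_
      rintro p ⟨h1, -⟩
      simpa using h1
    · exact ((differentiable_const _).mul differentiable_snd).cexp.differentiableOn
  · intro K hKU hK
    rcases K.eq_empty_or_nonempty with rfl | hne
    · exact ⟨fun _ => 0, summable_zero, fun i p hp => absurd hp (Set.notMem_empty p)⟩
    · have hcont : ContinuousOn (fun p : ℂ × ℂ => p.2.im - 1 / 8 * |p.1.im|) K := by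
        refine Continuous.continuousOn ?_
        exact (Complex.continuous_im.comp continuous_snd).sub
          (continuous_const.mul (Complex.continuous_im.comp continuous_fst).abs)
      obtain ⟨q, hq, hmin⟩ := hK.exists_isMinOn hne hcont
      obtain ⟨ε, hεdef⟩ : ∃ ε, ε = (q.2.im - 1 / 8 * |q.1.im|) / 2 := ⟨_, rfl⟩
      have hε : 0 < ε := by
        have := (hKU hq).2
        rw [hεdef]
        linarith
      obtain ⟨C, hC⟩ := hb ε hε
      refine ⟨fun n => |C| * Real.exp (-(n * ε)), CRel_summable_exp |C| hε, ?_⟩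
      intro n p hp
      have h1 : 2 * ε ≤ p.2.im - 1 / 8 * |p.1.im| := by
        have := hmin hp
        simp only [Set.mem_ofPred_eq] at this
        rw [hεdef]
        linarith
      have hpb : p.1 ∈ ball (0 : ℂ) r := by simpa using (hKU hp).1
      have h2 := hC (n + 1) (by omega) p.1 hpb
      have hpos : (0 : ℝ) < Real.exp (((n + 1 : ℕ) : ℝ) * (1 / 8 * |p.1.im| + ε)) :=
        Real.exp_pos _
      rw [norm_mul, CRel_norm_exp]
      calc ‖R (n + 1) p.1‖ * Real.exp (-(((n + 1 : ℕ) : ℝ) * p.2.im))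
          ≤ (|C| * Real.exp (((n + 1 : ℕ) : ℝ) * (1 / 8 * |p.1.im| + ε))) *
            Real.exp (-(((n + 1 : ℕ) : ℝ) * p.2.im)) := by
            refine mul_le_mul_of_nonneg_right (h2.trans ?_) (Real.exp_pos _).le
            exact mul_le_mul_of_nonneg_right (le_abs_self C) hpos.le
        _ = |C| * Real.exp (((n + 1 : ℕ) : ℝ) * (1 / 8 * |p.1.im| + ε) -
            (((n + 1 : ℕ) : ℝ) * p.2.im)) := by
            rw [mul_assoc, ← Real.exp_add]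
            rfl
        _ ≤ |C| * Real.exp (-(n * ε)) := by
            refine mul_le_mul_of_nonneg_left (Real.exp_le_exp.2 ?_) (abs_nonneg _)
            have h3 : (0 : ℝ) ≤ (n : ℝ) := Nat.cast_nonneg n
            push_cast
            nlinarith

/-- the differentiability of the negative series -/
theorem CRel_Km_diff (hs : InV D η s) {r : ℝ} (hr : r ≤ D.r₀ / 2) :
    DifferentiableOn ℂ (fun p : ℂ × ℂ =>
      ∑' n : ℕ, St D s (-(n : ℤ)) p.1 * exp (-((n : ℂ) * I * p.2)))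
      {p : ℂ × ℂ | ‖p.1‖ < r ∧ p.2.im < D.Y} := by
  have hopen := CRel_open1 r D.Y
  have hr0 := D.r₀_pos
  have hY := D.Y_lt
  refine differentiableOn_tsum_two (F := fun (n : ℕ) (p : ℂ × ℂ) =>
    St D s (-(n : ℤ)) p.1 * exp (-((n : ℂ) * I * p.2))) hopen ?_ ?_
  · intro n
    refine DifferentiableOn.mul ?_ ?_
    · refine (St_differentiableOn hs (-(n : ℤ))).comp differentiableOn_fst ?_
      rintro p ⟨h1, -⟩
      have : ‖p.1‖ < D.r₀ := by linarith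
      simpa using this
    · exact ((differentiable_const _).mul differentiable_snd).neg.cexp.differentiableOn
  · intro K hKU hK
    obtain ⟨C, hC⟩ := St_bound_neg hs (y := (D.Y + D.Y₁) / 2) (by linarith)
    obtain ⟨ε, hεdef⟩ : ∃ ε, ε = (D.Y₁ - D.Y) / 2 := ⟨_, rfl⟩
    have hε : 0 < ε := by rw [hεdef]; linarith
    refine ⟨fun n => |C| * Real.exp (-(n * ε)), CRel_summable_exp |C| hε, ?_⟩
    intro n p hp
    obtain ⟨h1, h2⟩ := hKU hp
    have h3 := hC n p.1 (by linarith)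
    rw [norm_mul, CRel_norm_exp_neg]
    calc ‖St D s (-(n : ℤ)) p.1‖ * Real.exp (n * p.2.im)
        ≤ (|C| * Real.exp (-(n * ((D.Y + D.Y₁) / 2)))) * Real.exp (n * p.2.im) := by
          refine mul_le_mul_of_nonneg_right (h3.trans ?_) (Real.exp_pos _).le
          exact mul_le_mul_of_nonneg_right (le_abs_self C) (Real.exp_pos _).le
      _ = |C| * Real.exp (-(n * ((D.Y + D.Y₁) / 2)) + n * p.2.im) := by
          rw [mul_assoc, ← Real.exp_add]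
      _ ≤ |C| * Real.exp (-(n * ε)) := by
          refine mul_le_mul_of_nonneg_left (Real.exp_le_exp.2 ?_) (abs_nonneg _)
          have h3 : (0 : ℝ) ≤ (n : ℝ) := Nat.cast_nonneg n
          rw [hεdef]
          nlinarith

theorem CRel_Z_summable {r : ℝ} {R : ℕ → ℂ → ℂ}
    (hb : ∀ ε : ℝ, 0 < ε → ∃ C, ∀ n : ℕ, 1 ≤ n → ∀ ϖ ∈ ball (0 : ℂ) r,
        ‖R n ϖ‖ ≤ C * Real.exp (n * (1 / 8 * |ϖ.im| + ε))) {ϖ ψ : ℂ} (hϖ : ‖ϖ‖ < r)
    (hψ : 1 / 8 * |ϖ.im| < ψ.im) :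
    Summable fun n : ℕ => R (n + 1) ϖ * exp (((n + 1 : ℕ) : ℂ) * I * ψ) := by
  obtain ⟨ε, hεdef⟩ : ∃ ε, ε = (ψ.im - 1 / 8 * |ϖ.im|) / 2 := ⟨_, rfl⟩
  have hε : 0 < ε := by rw [hεdef]; linarith
  obtain ⟨C, hC⟩ := hb ε hε
  refine Summable.of_norm_bounded (CRel_summable_exp |C| hε) ?_
  intro n
  have hpb : ϖ ∈ ball (0 : ℂ) r := by simpa using hϖ
  have h2 := hC (n + 1) (by omega) ϖ hpb
  have hpos : (0 : ℝ) < Real.exp (((n + 1 : ℕ) : ℝ) * (1 / 8 * |ϖ.im| + ε)) :=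
    Real.exp_pos _
  rw [norm_mul, CRel_norm_exp]
  calc ‖R (n + 1) ϖ‖ * Real.exp (-(((n + 1 : ℕ) : ℝ) * ψ.im))
      ≤ (|C| * Real.exp (((n + 1 : ℕ) : ℝ) * (1 / 8 * |ϖ.im| + ε))) *
        Real.exp (-(((n + 1 : ℕ) : ℝ) * ψ.im)) := by
        refine mul_le_mul_of_nonneg_right (h2.trans ?_) (Real.exp_pos _).le
        exact mul_le_mul_of_nonneg_right (le_abs_self C) hpos.le
    _ = |C| * Real.exp (((n + 1 : ℕ) : ℝ) * (1 / 8 * |ϖ.im| + ε) -
        (((n + 1 : ℕ) : ℝ) * ψ.im)) := by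
        rw [mul_assoc, ← Real.exp_add]
        rfl
    _ ≤ |C| * Real.exp (-(n * ε)) := by
        refine mul_le_mul_of_nonneg_left (Real.exp_le_exp.2 ?_) (abs_nonneg _)
        have h3 : (0 : ℝ) ≤ (n : ℝ) := Nat.cast_nonneg n
        have h4 : ψ.im = 2 * ε + 1 / 8 * |ϖ.im| := by rw [hεdef]; ring
        push_cast
        rw [h4]
        nlinarith

theorem exists_relData (hη : 0 < η) (hs : InV D η s) : ∃ R : RelData D, R.g = gfun s := by
  obtain ⟨r, hr, hr', R, hR, hb⟩ := exists_Rn_bound hη hs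
  have hr0 := D.r₀_pos
  have hZe : ∀ ϖ ψ : ℂ, ‖ϖ‖ < r →
      ∑' n : ℕ, R (n + 1) (-ϖ) * exp (((n + 1 : ℕ) : ℂ) * I * ψ) =
        ∑' n : ℕ, R (n + 1) ϖ * exp (((n + 1 : ℕ) : ℂ) * I * ψ) := by
    intro ϖ ψ hϖ
    refine tsum_congr fun n => ?_
    rw [(hR (n + 1) (by omega)).2.2 ϖ (by simpa using hϖ)]
  have hKe : ∀ ϖ α : ℂ, ‖ϖ‖ < r →
      ∑' n : ℕ, St D s (-(n : ℤ)) (-ϖ) * exp (-((n : ℂ) * I * α)) =
        ∑' n : ℕ, St D s (-(n : ℤ)) ϖ * exp (-((n : ℂ) * I * α)) := by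
    intro ϖ α hϖ
    refine tsum_congr fun n => ?_
    rw [St_neg hs _ (by linarith)]
  refine ⟨⟨r, gfun s,
    fun ϖ α => ∑' n : ℕ, St D s (-(n : ℤ)) ϖ * exp (-((n : ℂ) * I * α)),
    fun ϖ ψ => ∑' n : ℕ, R (n + 1) ϖ * exp (((n + 1 : ℕ) : ℂ) * I * ψ),
    hr, hr', gfun_differentiableOn hs, CRel_Km_diff hs hr',
    CRel_Z_diff (fun n hn => (hR n hn).1) hb, fun ϖ α h _ => hKe ϖ α h,
    fun ϖ ψ h _ => hZe ϖ ψ h, ?_⟩, rfl⟩
  intro ϖ α hϖ hα hα'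
  have hball : ϖ ∈ ball (0 : ℂ) r := by simpa using hϖ
  have hsum := St_hasSum hs (ϖ := ϖ) (α := α) (by linarith) hα (hα'.trans D.Y_lt)
  have hS := hsum.summable
  have hinj1 : Function.Injective (fun n : ℕ => ((n + 1 : ℕ) : ℤ)) := by
    intro a b hab
    simp only at hab
    omega
  have hinj2 : Function.Injective (fun n : ℕ => (-(n : ℤ))) := by
    intro a b hab
    simp only at hab
    omega
  have hP := hS.comp_injective hinj1
  have hN := hS.comp_injective hinj2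
  have hP' : HasSum (fun n : ℕ => St D s ((n + 1 : ℕ) : ℤ) ϖ *
      exp (((n + 1 : ℕ) : ℂ) * I * α)) (∑' n : ℕ, St D s ((n + 1 : ℕ) : ℤ) ϖ *
      exp (((n + 1 : ℕ) : ℂ) * I * α)) := by
    have := hP.hasSum
    simpa only [Function.comp_def, Int.cast_natCast] using this
  have hN' : HasSum (fun n : ℕ => St D s (-(n : ℤ)) ϖ *
      exp (-((n : ℂ) * I * α))) (∑' n : ℕ, St D s (-(n : ℤ)) ϖ *
      exp (-((n : ℂ) * I * α))) := by
    have := hN.hasSum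
    simpa only [Function.comp_def, Int.cast_neg, Int.cast_natCast, neg_mul] using this
  obtain ⟨P, hPdef⟩ : ∃ P, P = ∑' n : ℕ, St D s ((n + 1 : ℕ) : ℤ) ϖ *
      exp (((n + 1 : ℕ) : ℂ) * I * α) := ⟨_, rfl⟩
  obtain ⟨Kv, hKdef⟩ : ∃ Kv, Kv = ∑' n : ℕ, St D s (-(n : ℤ)) ϖ *
      exp (-((n : ℂ) * I * α)) := ⟨_, rfl⟩
  rw [← hPdef] at hP'
  rw [← hKdef] at hN'
  have htot : gfun s (D.c ϖ α) = Kv + P := by
    have h1 : HasSum (fun n : ℤ => St D s (-n) ϖ * exp ((-n : ℤ) * I * α)) (Kv + P) := by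
      refine HasSum.of_nat_of_neg_add_one ?_ ?_
      · simpa only [Int.cast_neg, Int.cast_natCast, neg_mul] using hN'
      · simpa only [neg_neg, Nat.cast_add, Nat.cast_one, Int.cast_add, Int.cast_natCast,
          Int.cast_one] using hP'
    have h2 : HasSum ((fun n : ℤ => St D s n ϖ * exp (n * I * α)) ∘ (Equiv.neg ℤ)) (Kv + P) := by
      simpa only [Function.comp_def, Equiv.neg_apply] using h1
    exact hsum.unique ((Equiv.neg ℤ).hasSum_iff.1 h2)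
  have hZ1 := CRel_Z_summable hb (ϖ := ϖ) (ψ := α - ϖ) hϖ (by
    rw [Complex.sub_im]
    have := le_abs_self ϖ.im
    linarith)
  have hZ2 := CRel_Z_summable hb (ϖ := ϖ) (ψ := α + ϖ) hϖ (by
    rw [Complex.add_im]
    have := neg_abs_le ϖ.im
    linarith)
  change sin ϖ * (gfun s (D.c ϖ α) - ∑' n : ℕ, St D s (-(n : ℤ)) ϖ * exp (-((n : ℂ) * I * α))) =
    I * cos ϖ * (∑' n : ℕ, R (n + 1) ϖ * exp (((n + 1 : ℕ) : ℂ) * I * (α - ϖ)) -
      ∑' n : ℕ, R (n + 1) ϖ * exp (((n + 1 : ℕ) : ℂ) * I * (α + ϖ)))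
  rw [← hKdef, htot, add_sub_cancel_left, ← hZ1.tsum_sub hZ2, ← tsum_mul_left, hPdef,
    ← tsum_mul_left]
  refine tsum_congr fun n => ?_
  have h5 := (hR (n + 1) (by omega)).2.1 ϖ hball
  have h6 : (2 : ℂ) * sin (((n + 1 : ℕ) : ℂ) * ϖ) =
      (exp (-(((n + 1 : ℕ) : ℂ) * ϖ) * I) - exp (((n + 1 : ℕ) : ℂ) * ϖ * I)) * I := by
    rw [Complex.sin]
    ring
  have h7 : exp (((n + 1 : ℕ) : ℂ) * I * (α - ϖ)) =
      exp (((n + 1 : ℕ) : ℂ) * I * α) * exp (-(((n + 1 : ℕ) : ℂ) * ϖ) * I) := by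
    rw [← Complex.exp_add]
    congr 1
    ring
  have h8 : exp (((n + 1 : ℕ) : ℂ) * I * (α + ϖ)) =
      exp (((n + 1 : ℕ) : ℂ) * I * α) * exp (((n + 1 : ℕ) : ℂ) * ϖ * I) := by
    rw [← Complex.exp_add]
    congr 1
    ring
  rw [← mul_assoc, ← h5, h6, h7, h8]
  ring

theorem CRel_star_diff {U : Set (ℂ × ℂ)} (hU : IsOpen U)
    (hinv : ∀ p ∈ U, (starRingEnd ℂ p.1, -starRingEnd ℂ p.2) ∈ U) {F : ℂ → ℂ → ℂ}
    (hF : DifferentiableOn ℂ (fun p : ℂ × ℂ => F p.1 p.2) U) :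
    DifferentiableOn ℂ (fun p : ℂ × ℂ =>
      starRingEnd ℂ (F (starRingEnd ℂ p.1) (-starRingEnd ℂ p.2))) U := by
  intro p hp
  have h1 : DifferentiableAt ℂ (fun p : ℂ × ℂ => F p.1 p.2)
      (starRingEnd ℂ p.1, -starRingEnd ℂ p.2) :=
    (hF _ (hinv p hp)).differentiableAt (hU.mem_nhds (hinv p hp))
  have h2 : DifferentiableAt ℂ (fun q : ℂ × ℂ => F q.1 (-q.2)) (star p) := by
    have h3 : DifferentiableAt ℂ (fun q : ℂ × ℂ => ((q.1, -q.2) : ℂ × ℂ)) (star p) :=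
      differentiableAt_fst.prodMk differentiableAt_snd.neg
    exact DifferentiableAt.comp (star p) (g := fun p : ℂ × ℂ => F p.1 p.2) h1 h3
  have h4 := h2.star_star
  rw [star_star] at h4
  exact h4.differentiableWithinAt

/-- Mirror image. -/
theorem exists_star (R : RelData D) : ∃ R' : RelData D, R'.r = R.r ∧
    (∀ w, R'.g w = starRingEnd ℂ (R.g (starRingEnd ℂ w))) ∧
    ∀ ϖ ψ : ℂ, R'.Z ϖ ψ = starRingEnd ℂ (R.Z (starRingEnd ℂ ϖ) (-starRingEnd ℂ ψ)) := by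
  have hr := R.r_pos
  have hr0 := D.r₀_pos
  have hrl := R.r_le
  have hY := D.Y_lt
  refine ⟨⟨R.r, fun w => starRingEnd ℂ (R.g (starRingEnd ℂ w)),
    fun ϖ α => starRingEnd ℂ (R.Km (starRingEnd ℂ ϖ) (-starRingEnd ℂ α)),
    fun ϖ ψ => starRingEnd ℂ (R.Z (starRingEnd ℂ ϖ) (-starRingEnd ℂ ψ)),
    R.r_pos, R.r_le, ?_, ?_, ?_, ?_, ?_, ?_⟩, rfl, fun _ => rfl, fun _ _ => rfl⟩
  · have hopen : IsOpen (Ell (2 * D.Y) \ segm 1) := (isOpen_Ell _).sdiff (isClosed_segm 1)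
    intro w hw
    have hw' : starRingEnd ℂ w ∈ Ell (2 * D.Y) \ segm 1 := by
      refine ⟨?_, ?_⟩
      · have h1 := hw.1
        simp only [Ell, Set.mem_ofPred_eq] at h1 ⊢
        have e1 : starRingEnd ℂ w - 1 = starRingEnd ℂ (w - 1) := by simp
        have e2 : starRingEnd ℂ w + 1 = starRingEnd ℂ (w + 1) := by simp
        rw [e1, e2, Complex.norm_conj, Complex.norm_conj]
        exact h1
      · intro h2
        apply hw.2
        simp only [segm, Set.mem_ofPred_eq, Complex.conj_im, Complex.conj_re, neg_eq_zero] at h2 ⊢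
        exact h2
    have h3 : DifferentiableAt ℂ R.g (starRingEnd ℂ w) :=
      (R.g_diff _ hw').differentiableAt (hopen.mem_nhds hw')
    have h4 := h3.conj_conj
    rw [Complex.conj_conj] at h4
    exact h4.differentiableWithinAt
  · refine CRel_star_diff (CRel_open1 R.r D.Y) ?_ R.Km_diff
    rintro p ⟨h1, h2⟩
    refine ⟨by simpa using h1, by simpa using h2⟩
  · refine CRel_star_diff (CRel_open2 R.r) ?_ R.Z_diff
    rintro p ⟨h1, h2⟩
    refine ⟨by simpa using h1, ?_⟩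
    simpa using h2
  · intro ϖ α h1 h2
    change starRingEnd ℂ (R.Km (starRingEnd ℂ (-ϖ)) (-starRingEnd ℂ α)) =
      starRingEnd ℂ (R.Km (starRingEnd ℂ ϖ) (-starRingEnd ℂ α))
    rw [map_neg, R.Km_even (starRingEnd ℂ ϖ) (-starRingEnd ℂ α) (by simpa using h1)
      (by simpa using h2)]
  · intro ϖ ψ h1 h2
    change starRingEnd ℂ (R.Z (starRingEnd ℂ (-ϖ)) (-starRingEnd ℂ ψ)) =
      starRingEnd ℂ (R.Z (starRingEnd ℂ ϖ) (-starRingEnd ℂ ψ))
    rw [map_neg, R.Z_even (starRingEnd ℂ ϖ) (-starRingEnd ℂ ψ) (by simpa using h1)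
      (by simpa using h2)]
  · intro ϖ α h1 h2 h3
    have hϖ : ‖ϖ‖ < D.r₀ := by linarith
    have h0 : 0 < α.im := lt_of_le_of_lt (by positivity) h2
    have hα : |α.im| < D.Y₁ := by rw [abs_of_pos h0]; linarith
    have key := R.rel (starRingEnd ℂ ϖ) (-starRingEnd ℂ α) (by simpa using h1)
      (by simpa using h2) (by simpa using h3)
    have hc : D.c (starRingEnd ℂ ϖ) (-starRingEnd ℂ α) = starRingEnd ℂ (D.c ϖ α) := by
      rw [D.even₂ (starRingEnd ℂ ϖ) (starRingEnd ℂ α) (by simpa using hϖ) (by simpa using hα),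
        D.conj ϖ α hϖ hα]
    have key2 := congrArg (starRingEnd ℂ) key
    rw [hc] at key2
    simp only [map_mul, map_sub, Complex.conj_I] at key2
    rw [← Complex.sin_conj, ← Complex.cos_conj, Complex.conj_conj] at key2
    have e1 : -starRingEnd ℂ α - starRingEnd ℂ ϖ = -starRingEnd ℂ (α + ϖ) := by
      rw [map_add]; ring
    have e2 : -starRingEnd ℂ α + starRingEnd ℂ ϖ = -starRingEnd ℂ (α - ϖ) := by
      rw [map_sub]; ring
    rw [e1, e2] at key2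
    change sin ϖ * (starRingEnd ℂ (R.g (starRingEnd ℂ (D.c ϖ α))) -
      starRingEnd ℂ (R.Km (starRingEnd ℂ ϖ) (-starRingEnd ℂ α))) =
      I * cos ϖ * (starRingEnd ℂ (R.Z (starRingEnd ℂ ϖ) (-starRingEnd ℂ (α - ϖ))) -
        starRingEnd ℂ (R.Z (starRingEnd ℂ ϖ) (-starRingEnd ℂ (α + ϖ))))
    rw [key2]
    ring

end LSB
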