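import Pool.Agent.LSB.CSt

/-!
# Part C, module CRn: the functions `R n`

Paper proof.  Existence.  Let `0<r≤r₀/2` with `r≤πη'` (`St_vanish`), `n≥1`.  On `|ϖ|<r` the zeros of `sin(nϖ)` are `0` and the points
`±πp/n` with `1≤p<ηn'`, all simple; at these points `St n ϖ·sin ϖ` vanishes too.  So
`R n ϖ=St n ϖ·sin ϖ/(2 sin(nϖ)cos ϖ)` has removable singularities (`cos ϖ≠0` as `r≤1/8`).  Evenness: from evenness of `St`,
by continuity at the exceptional points (or define `R n` by limits and use density).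

Bound (`exists_Rn_bound`).  Take `r'=r/4`.  Let `ε>0`; put `ε'=min(ε,r)/8`.  If `|Im ϖ|≥ε'` then
`|sin(nϖ)|≥sinh(n|Im ϖ|)≥½e^{n|Im ϖ|}(1-e^{-2ε'})`, and `St_bound_pos` gives `‖R n ϖ‖≤C e^{n(9/8|Im ϖ|+ε-|Im ϖ|)}`.
If `|Im ϖ|<ε'`: for `n≥8π/r` there is an integer `k` with `x=(k+½)π/n∈(r/4,3r/4)`; on the rectangle `[-x,x]×[-ε',ε']⊂ball 0 r` use
the maximum principle: on the vertical sides `|sin(nϖ)|=cosh(n Im ϖ)≥1`, `‖R n ϖ‖≤C e^{n(9/8ε'+ε/2)}`, on the horizontal sides the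
previous bound; the result is `≤C e^{nε}`.  For the finitely many `n<8π/r`, `R n` is bounded on the smaller ball by compactness.
-/

namespace LSB

open Complex Metric Filter Topology

variable {D : CData} {η : ℝ} {s : ℤ → ℂ}

theorem crn_div {f S : ℂ → ℂ} {U : Set ℂ} (hU : IsOpen U) (hf : DifferentiableOn ℂ f U)
    (hS : DifferentiableOn ℂ S U) (hz : ∀ z ∈ U, S z = 0 → f z = 0 ∧ deriv S z ≠ 0) :
    ∃ R : ℂ → ℂ, DifferentiableOn ℂ R U ∧ ∀ z ∈ U, S z * R z = f z := by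
  classical
  refine ⟨fun z => if S z = 0 then deriv f z / deriv S z else f z / S z, ?_, ?_⟩
  · intro z₀ hz₀
    apply DifferentiableAt.differentiableWithinAt
    have hfd : DifferentiableAt ℂ f z₀ := hf.differentiableAt (hU.mem_nhds hz₀)
    have hSd : DifferentiableAt ℂ S z₀ := hS.differentiableAt (hU.mem_nhds hz₀)
    by_cases h0 : S z₀ = 0
    · obtain ⟨hf0, hS0⟩ := hz z₀ hz₀ h0
      have hσ : DifferentiableAt ℂ (dslope S z₀) z₀ :=
        ((Complex.differentiableOn_dslope (hU.mem_nhds hz₀)).2 hS).differentiableAt (hU.mem_nhds hz₀)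
      have hφ : DifferentiableAt ℂ (dslope f z₀) z₀ :=
        ((Complex.differentiableOn_dslope (hU.mem_nhds hz₀)).2 hf).differentiableAt (hU.mem_nhds hz₀)
      have hσ0 : dslope S z₀ z₀ ≠ 0 := by rw [dslope_same]; exact hS0
      have hev : ∀ᶠ z in 𝓝 z₀, dslope S z₀ z ≠ 0 := hσ.continuousAt.eventually_ne hσ0
      refine (hφ.div hσ hσ0).congr_of_eventuallyEq ?_
      filter_upwards [hev] with z hzz
      by_cases hzz0 : z = z₀
      · subst hzz0
        simp [h0, dslope_same]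
      · have e1 : (z - z₀) * dslope S z₀ z = S z := by
          have := sub_smul_dslope S z₀ z
          rw [h0, sub_zero, smul_eq_mul] at this
          exact this
        have e2 : (z - z₀) * dslope f z₀ z = f z := by
          have := sub_smul_dslope f z₀ z
          rw [hf0, sub_zero, smul_eq_mul] at this
          exact this
        have e3 : z - z₀ ≠ 0 := sub_ne_zero.2 hzz0
        have e4 : S z ≠ 0 := by rw [← e1]; exact mul_ne_zero e3 hzz
        simp only [e4, if_false]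
        rw [← e1, ← e2]
        exact mul_div_mul_left _ _ e3
    · have hev : ∀ᶠ z in 𝓝 z₀, S z ≠ 0 := hSd.continuousAt.eventually_ne h0
      refine (hfd.div hSd h0).congr_of_eventuallyEq ?_
      filter_upwards [hev] with z hzz
      simp [hzz]
  · intro z hz'
    by_cases h0 : S z = 0
    · simp [h0, (hz z hz' h0).1]
    · simp only [h0, if_false]
      field_simp

theorem crn_unique {S R₁ R₂ : ℂ → ℂ} {U : Set ℂ} (hU : IsOpen U)
    (hS : DifferentiableOn ℂ S U) (hz : ∀ z ∈ U, S z = 0 → deriv S z ≠ 0)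
    (h₁ : ContinuousOn R₁ U) (h₂ : ContinuousOn R₂ U) (h : ∀ z ∈ U, S z * R₁ z = S z * R₂ z) :
    ∀ z ∈ U, R₁ z = R₂ z := by
  intro z₀ hz₀
  by_cases h0 : S z₀ = 0
  · have hSd : HasDerivAt S (deriv S z₀) z₀ := (hS.differentiableAt (hU.mem_nhds hz₀)).hasDerivAt
    have hne : ∀ᶠ z in 𝓝[≠] z₀, S z ≠ 0 := by
      exact hSd.eventually_ne (hz z₀ hz₀ h0)
    have heq : ∀ᶠ z in 𝓝[≠] z₀, R₁ z = R₂ z := by
      filter_upwards [hne, mem_nhdsWithin_of_mem_nhds (hU.mem_nhds hz₀)] with z h1 h2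
      exact mul_left_cancel₀ h1 (h z h2)
    have l1 : Tendsto R₁ (𝓝[≠] z₀) (𝓝 (R₁ z₀)) :=
      (h₁.continuousAt (hU.mem_nhds hz₀)).tendsto.mono_left nhdsWithin_le_nhds
    have l2 : Tendsto R₂ (𝓝[≠] z₀) (𝓝 (R₂ z₀)) :=
      (h₂.continuousAt (hU.mem_nhds hz₀)).tendsto.mono_left nhdsWithin_le_nhds
    exact tendsto_nhds_unique (l1.congr' heq) l2
  · exact mul_left_cancel₀ h0 (h z₀ hz₀)

theorem crn_sin_deriv (n : ℕ) (z : ℂ) :
    HasDerivAt (fun ϖ : ℂ => 2 * sin (n * ϖ) ) (2 * (cos (n * z) * n)) z := by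
  have h1 : HasDerivAt (fun ϖ : ℂ => (n : ℂ) * ϖ) (n : ℂ) z := by
    simpa using (hasDerivAt_id z).const_mul (n : ℂ)
  exact (h1.csin).const_mul 2

theorem crn_cos_ne {ϖ : ℂ} (h : ‖ϖ‖ < 1) : cos ϖ ≠ 0 := by
  intro h0
  rw [Complex.cos_eq_zero_iff] at h0
  obtain ⟨k, hk⟩ := h0
  have h1 : ‖ϖ‖ = |(2 * (k : ℝ) + 1) * Real.pi / 2| := by
    rw [hk, ← Real.norm_eq_abs, ← norm_real]
    push_cast
    rfl
  rw [h1, abs_div, abs_mul, abs_of_pos Real.pi_pos, abs_of_pos (two_pos : (0 : ℝ) < 2)] at h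
  have h2 : (1 : ℝ) ≤ |2 * (k : ℝ) + 1| := by
    have : (1 : ℤ) ≤ |2 * k + 1| := Int.one_le_abs (by omega)
    exact_mod_cast this
  have h3 := Real.pi_gt_three
  nlinarith

/-- the two ingredients of `R n` have a removable quotient -/
theorem exists_Rn_core (hη : 0 < η) (hs : InV D η s) : ∃ r : ℝ, 0 < r ∧ r ≤ D.r₀ / 2 ∧
    ∃ R : ℕ → ℂ → ℂ, ∀ n : ℕ, 1 ≤ n →
      DifferentiableOn ℂ (R n) (ball 0 r) ∧
      (∀ ϖ ∈ ball (0 : ℂ) r, 2 * sin (n * ϖ) * cos ϖ * R n ϖ = sin ϖ * St D s n ϖ) ∧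
      ∀ ϖ ∈ ball (0 : ℂ) r, R n (-ϖ) = R n ϖ := by
  obtain ⟨η', hη', hv⟩ := St_vanish hη hs
  set r : ℝ := min (D.r₀ / 2) (Real.pi * η') with hr
  have hr0 : 0 < r := lt_min (by have := D.r₀_pos; linarith) (by positivity)
  have hr1 : r ≤ D.r₀ / 2 := min_le_left _ _
  have hr2 : r ≤ Real.pi * η' := min_le_right _ _
  have hrr : r < D.r₀ := by have := D.r₀_pos; linarith
  have hr3 : r < 1 := by have := D.r₀_le; linarith
  refine ⟨r, hr0, hr1, ?_⟩
  have key : ∀ n : ℕ, 1 ≤ n → ∃ R : ℂ → ℂ,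
      DifferentiableOn ℂ R (ball 0 r) ∧
      (∀ ϖ ∈ ball (0 : ℂ) r, 2 * sin (n * ϖ) * cos ϖ * R ϖ = sin ϖ * St D s n ϖ) ∧
      ∀ ϖ ∈ ball (0 : ℂ) r, R (-ϖ) = R ϖ := by
    intro n hn
    have hn0 : (n : ℂ) ≠ 0 := by exact_mod_cast (by omega : n ≠ 0)
    have hcos : ∀ ϖ ∈ ball (0 : ℂ) r, cos ϖ ≠ 0 := by
      intro ϖ hϖ
      rw [mem_ball_zero_iff] at hϖ
      exact crn_cos_ne (hϖ.trans hr3)
    set f : ℂ → ℂ := fun ϖ => sin ϖ * St D s n ϖ / cos ϖ with hf
    set S : ℂ → ℂ := fun ϖ => 2 * sin (n * ϖ) with hS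
    have hStd : DifferentiableOn ℂ (St D s n) (ball 0 r) :=
      (St_differentiableOn hs n).mono (ball_subset_ball hrr.le)
    have hfd : DifferentiableOn ℂ f (ball 0 r) :=
      (differentiable_sin.differentiableOn.mul hStd).div differentiable_cos.differentiableOn hcos
    have hSd : DifferentiableOn ℂ S (ball 0 r) := fun z _ =>
      (crn_sin_deriv n z).differentiableAt.differentiableWithinAt
    have hzero : ∀ z ∈ ball (0 : ℂ) r, S z = 0 → f z = 0 ∧ deriv S z ≠ 0 := by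
      intro z hz h0
      have hs0 : sin (n * z) = 0 := by
        have : (2 : ℂ) * sin (n * z) = 0 := h0
        simpa using this
      constructor
      · obtain ⟨k, hk⟩ := Complex.sin_eq_zero_iff.1 hs0
        have hzk : z = (k : ℂ) * Real.pi / n := by
          field_simp
          linear_combination hk
        rw [mem_ball_zero_iff] at hz
        have hnR : (0 : ℝ) < n := by exact_mod_cast hn
        have hzn : ‖z‖ = |(k : ℝ)| * Real.pi / n := by
          rw [hzk, norm_div, norm_mul, norm_real, Real.norm_eq_abs, abs_of_pos Real.pi_pos,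
            Complex.norm_intCast, Complex.norm_natCast]
        have hkn : |(k : ℝ)| ≤ η' * n := by
          have h1 : |(k : ℝ)| * Real.pi / n < Real.pi * η' := by
            rw [← hzn]; exact lt_of_lt_of_le hz hr2
          rw [div_lt_iff₀ hnR] at h1
          have := Real.pi_pos
          nlinarith
        rcases lt_trichotomy k 0 with hk0 | hk0 | hk0
        · obtain ⟨p, hp⟩ : ∃ p : ℕ, k = -(p : ℤ) := ⟨k.natAbs, by omega⟩
          have hp0 : 0 < p := by omega
          have := (hv n p hp0 (by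
            rw [hp] at hkn
            push_cast at hkn
            rw [abs_neg, Nat.abs_cast] at hkn
            exact hkn)).2
          have hz2 : z = -(Real.pi * p / n) := by
            rw [hzk, hp]; push_cast; ring
          simp only [hf]
          rw [hz2, this]
          simp
        · have : z = 0 := by rw [hzk, hk0]; simp
          simp only [hf]
          rw [this]
          simp
        · obtain ⟨p, hp⟩ : ∃ p : ℕ, k = (p : ℤ) := ⟨k.natAbs, by omega⟩
          have hp0 : 0 < p := by omega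
          have := (hv n p hp0 (by
            rw [hp] at hkn
            push_cast at hkn
            rw [Nat.abs_cast] at hkn
            exact hkn)).1
          have hz2 : z = Real.pi * p / n := by
            rw [hzk, hp]; push_cast; ring
          simp only [hf]
          rw [hz2, this]
          simp
      · rw [(crn_sin_deriv n z).deriv]
        have hc : cos (n * z) ≠ 0 := by
          intro hc
          have := Complex.sin_sq_add_cos_sq (n * z)
          rw [hs0, hc] at this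
          norm_num at this
        exact mul_ne_zero two_ne_zero (mul_ne_zero hc hn0)
    obtain ⟨R, hRd, hR⟩ := crn_div isOpen_ball hfd hSd hzero
    refine ⟨R, hRd, ?_, ?_⟩
    · intro ϖ hϖ
      have h1 := hR ϖ hϖ
      have h2 := hcos ϖ hϖ
      simp only [hf, hS] at h1
      rw [eq_div_iff h2] at h1
      linear_combination h1
    · have hneg : ∀ z ∈ ball (0 : ℂ) r, -z ∈ ball (0 : ℂ) r := by
        intro z hz
        rw [mem_ball_zero_iff] at hz ⊢
        rwa [norm_neg]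
      refine crn_unique isOpen_ball hSd (fun z hz h => (hzero z hz h).2) ?_ hRd.continuousOn ?_
      · exact hRd.continuousOn.comp continuous_neg.continuousOn hneg
      · intro z hz
        have h1 := hR z hz
        have h2 := hR (-z) (hneg z hz)
        have hzr : ‖z‖ < D.r₀ := by
          rw [mem_ball_zero_iff] at hz
          linarith
        have h3 : f (-z) = -f z := by
          simp only [hf]
          rw [Complex.sin_neg, Complex.cos_neg, St_neg hs n hzr]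
          ring
        have h4 : S (-z) = -S z := by
          simp only [hS]
          rw [mul_neg, Complex.sin_neg]
          ring
        rw [h3, h4] at h2
        rw [h1]
        linear_combination -h2
  choose! R hR using key
  exact ⟨R, hR⟩

theorem exists_Rn (hη : 0 < η) (hs : InV D η s) : ∃ r : ℝ, 0 < r ∧ r ≤ D.r₀ / 2 ∧
    ∃ R : ℕ → ℂ → ℂ, ∀ n : ℕ, 1 ≤ n →
      DifferentiableOn ℂ (R n) (ball 0 r) ∧
      (∀ ϖ ∈ ball (0 : ℂ) r, 2 * sin (n * ϖ) * cos ϖ * R n ϖ = sin ϖ * St D s n ϖ) ∧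
      ∀ ϖ ∈ ball (0 : ℂ) r, R n (-ϖ) = R n ϖ := exists_Rn_core hη hs

theorem crn_sinh_le_norm_sin (z : ℂ) : Real.sinh |z.im| ≤ ‖sin z‖ := by
  have h1 : ‖sin z‖ = ‖exp (-z * I) - exp (z * I)‖ / 2 := by
    rw [Complex.sin, norm_div, norm_mul, norm_I, mul_one]
    norm_num
  have h2 : ‖exp (-z * I)‖ = Real.exp z.im := by
    rw [Complex.norm_exp]; simp
  have h3 : ‖exp (z * I)‖ = Real.exp (-z.im) := by
    rw [Complex.norm_exp]; simp
  have h4 := abs_norm_sub_norm_le (exp (-z * I)) (exp (z * I))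
  rw [h2, h3] at h4
  rw [h1, ← Real.abs_sinh, Real.sinh_eq, abs_div, abs_of_pos (two_pos : (0 : ℝ) < 2)]
  linarith

theorem crn_sin_lower {n : ℕ} (hn : 1 ≤ n) {δ : ℝ} (hδ : 0 < δ) {ϖ : ℂ} (h : δ ≤ |ϖ.im|) :
    (1 - Real.exp (-(2 * δ))) / 2 * Real.exp (n * |ϖ.im|) ≤ ‖sin (n * ϖ)‖ := by
  have h1 := crn_sinh_le_norm_sin (n * ϖ)
  have him : |((n : ℂ) * ϖ).im| = n * |ϖ.im| := by
    have : ((n : ℂ) * ϖ).im = n * ϖ.im := by simp
    rw [this, abs_mul, Nat.abs_cast]
  rw [him, Real.sinh_eq] at h1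
  refine le_trans ?_ h1
  have hn' : (1 : ℝ) ≤ n := by exact_mod_cast hn
  have h2 : Real.exp (-(n * |ϖ.im|)) ≤ Real.exp (-(2 * δ)) * Real.exp (n * |ϖ.im|) := by
    rw [← Real.exp_add]
    apply Real.exp_le_exp.2
    nlinarith [abs_nonneg ϖ.im]
  linarith

theorem crn_sin_one {n k : ℕ} (hn : 1 ≤ n) {z : ℂ}
    (h : |z.re| = (k + 1 / 2) * Real.pi / n) : 1 ≤ ‖sin (n * z)‖ := by
  have hnR : (n : ℝ) ≠ 0 := by exact_mod_cast (by omega : n ≠ 0)
  have hc : Real.cos (n * z.re) = 0 := by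
    rw [← Real.cos_abs, abs_mul, Nat.abs_cast, h]
    rw [Real.cos_eq_zero_iff]
    refine ⟨k, ?_⟩
    push_cast
    field_simp
  have hs : |Real.sin (n * z.re)| = 1 := by
    have := Real.sin_sq_add_cos_sq (n * z.re)
    rw [hc] at this
    have h2 : Real.sin (n * z.re) ^ 2 = 1 := by linarith
    have h3 : |Real.sin (n * z.re)| ^ 2 = 1 := by rw [sq_abs]; exact h2
    nlinarith [abs_nonneg (Real.sin (n * z.re))]
  have hz : (n : ℂ) * z = ((n * z.re : ℝ) : ℂ) + ((n * z.im : ℝ) : ℂ) * I := by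
    push_cast
    conv_lhs => rw [← Complex.re_add_im z]
    ring
  rw [hz, Complex.sin_add_mul_I, ← Complex.ofReal_cos, hc, ← Complex.ofReal_sin,
    ← Complex.ofReal_cosh, Complex.ofReal_zero, zero_mul, zero_mul, add_zero, norm_mul, norm_real,
    norm_real, Real.norm_eq_abs, hs, one_mul, Real.norm_eq_abs,
    abs_of_pos (Real.cosh_pos _)]
  exact Real.one_le_cosh _

theorem exists_Rn_bound (hη : 0 < η) (hs : InV D η s) : ∃ r : ℝ, 0 < r ∧ r ≤ D.r₀ / 2 ∧
    ∃ R : ℕ → ℂ → ℂ, (∀ n : ℕ, 1 ≤ n →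
      DifferentiableOn ℂ (R n) (ball 0 r) ∧
      (∀ ϖ ∈ ball (0 : ℂ) r, 2 * sin (n * ϖ) * cos ϖ * R n ϖ = sin ϖ * St D s n ϖ) ∧
      ∀ ϖ ∈ ball (0 : ℂ) r, R n (-ϖ) = R n ϖ) ∧
      ∀ ε : ℝ, 0 < ε → ∃ C, ∀ n : ℕ, 1 ≤ n → ∀ ϖ ∈ ball (0 : ℂ) r,
        ‖R n ϖ‖ ≤ C * Real.exp (n * (1 / 8 * |ϖ.im| + ε)) := by
  obtain ⟨r, hr0, hr1, R, hR⟩ := exists_Rn_core hη hs
  have hr4 : r / 4 ≤ r := by linarith
  have hr14 : r < 1 / 4 := by have := D.r₀_le; linarith
  have hpi := Real.pi_pos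
  refine ⟨r / 4, by positivity, by linarith, R, ?_, ?_⟩
  · intro n hn
    obtain ⟨h1, h2, h3⟩ := hR n hn
    exact ⟨h1.mono (ball_subset_ball hr4), fun ϖ hϖ => h2 ϖ (ball_subset_ball hr4 hϖ),
      fun ϖ hϖ => h3 ϖ (ball_subset_ball hr4 hϖ)⟩
  intro ε hε
  -- the constant K
  obtain ⟨K, hK⟩ : ∃ K : ℝ, ∀ ϖ ∈ closedBall (0 : ℂ) (1 / 4), ‖sin ϖ / (2 * cos ϖ)‖ ≤ K := by
    apply (isCompact_closedBall (0 : ℂ) (1 / 4)).exists_bound_of_continuousOn
    apply ContinuousOn.div continuous_sin.continuousOn (continuous_const.mul continuous_cos).continuousOn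
    intro ϖ hϖ
    rw [mem_closedBall_zero_iff] at hϖ
    exact mul_ne_zero two_ne_zero (crn_cos_ne (by linarith))
  have hK0 : 0 ≤ K := (norm_nonneg _).trans (hK 0 (by simp))
  obtain ⟨C₁, hC₁⟩ := St_bound_pos hs (ε := ε / 2) (by positivity)
  set C : ℝ := |C₁| with hC
  have hC0 : 0 ≤ C := abs_nonneg _
  -- R * sin
  have hRS : ∀ n : ℕ, 1 ≤ n → ∀ ϖ ∈ ball (0 : ℂ) r,
      ‖R n ϖ‖ * ‖sin (n * ϖ)‖ ≤ K * C * Real.exp (n * (9 / 8 * |ϖ.im| + ε / 2)) := by
    intro n hn ϖ hϖ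
    have hϖ' : ‖ϖ‖ < r := by rwa [mem_ball_zero_iff] at hϖ
    have hc : cos ϖ ≠ 0 := crn_cos_ne (by linarith)
    have h1 := (hR n hn).2.1 ϖ hϖ
    have h2 : R n ϖ * sin (n * ϖ) = sin ϖ / (2 * cos ϖ) * St D s n ϖ := by
      field_simp
      linear_combination h1
    have h3 := hC₁ n ϖ (by linarith)
    have h4 : ‖St D s n ϖ‖ ≤ C * Real.exp (n * (9 / 8 * |ϖ.im| + ε / 2)) :=
      h3.trans (mul_le_mul_of_nonneg_right (le_abs_self _) (Real.exp_pos _).le)
    rw [← norm_mul, h2, norm_mul, mul_assoc]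
    apply mul_le_mul (hK ϖ (by rw [mem_closedBall_zero_iff]; linarith)) h4 (norm_nonneg _) hK0
  -- ε'
  set δ : ℝ := min ε r / 8 with hδ
  have hδ0 : 0 < δ := by
    have : 0 < min ε r := lt_min hε hr0
    positivity
  have hδε : δ ≤ ε / 8 := by
    have := min_le_left ε r
    rw [hδ]; linarith
  have hδr : δ ≤ r / 8 := by
    have := min_le_right ε r
    rw [hδ]; linarith
  set c₀ : ℝ := (1 - Real.exp (-(2 * δ))) / 2 with hc₀
  have hc₀pos : 0 < c₀ := by
    have : Real.exp (-(2 * δ)) < 1 := Real.exp_lt_one_iff.2 (by linarith)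
    rw [hc₀]; linarith
  set C₂ : ℝ := K * C / c₀ + K * C with hC₂
  have hKC : 0 ≤ K * C := mul_nonneg hK0 hC0
  have hC₂0 : 0 ≤ C₂ := by positivity
  -- bound (A)
  have hA : ∀ n : ℕ, 1 ≤ n → ∀ ϖ ∈ ball (0 : ℂ) r, δ ≤ |ϖ.im| →
      ‖R n ϖ‖ ≤ C₂ * Real.exp (n * (1 / 8 * |ϖ.im| + ε / 2)) := by
    intro n hn ϖ hϖ him
    have h1 := hRS n hn ϖ hϖ
    have h2 := crn_sin_lower hn hδ0 him
    rw [← hc₀] at h2
    have h3 : ‖R n ϖ‖ * (c₀ * Real.exp (n * |ϖ.im|)) ≤
        K * C * Real.exp (n * (9 / 8 * |ϖ.im| + ε / 2)) :=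
      (mul_le_mul_of_nonneg_left h2 (norm_nonneg _)).trans h1
    have h4 : Real.exp (n * (9 / 8 * |ϖ.im| + ε / 2)) =
        Real.exp (n * |ϖ.im|) * Real.exp (n * (1 / 8 * |ϖ.im| + ε / 2)) := by
      rw [← Real.exp_add]; congr 1; ring
    rw [h4] at h3
    have h5 : ‖R n ϖ‖ * c₀ ≤ K * C * Real.exp (n * (1 / 8 * |ϖ.im| + ε / 2)) := by
      have hp : 0 < Real.exp (n * |ϖ.im|) := Real.exp_pos _
      apply le_of_mul_le_mul_right _ hp
      calc ‖R n ϖ‖ * c₀ * Real.exp (n * |ϖ.im|) = ‖R n ϖ‖ * (c₀ * Real.exp (n * |ϖ.im|)) := by ring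
        _ ≤ K * C * (Real.exp (n * |ϖ.im|) * Real.exp (n * (1 / 8 * |ϖ.im| + ε / 2))) := h3
        _ = _ := by ring
    have h6 : ‖R n ϖ‖ ≤ K * C / c₀ * Real.exp (n * (1 / 8 * |ϖ.im| + ε / 2)) := by
      rw [div_mul_eq_mul_div, le_div_iff₀ hc₀pos]
      exact h5
    refine h6.trans (mul_le_mul_of_nonneg_right ?_ (Real.exp_pos _).le)
    rw [hC₂]; linarith
  -- bound (B)
  have hB : ∀ n : ℕ, 1 ≤ n → ∀ ϖ ∈ ball (0 : ℂ) r, 1 ≤ ‖sin (n * ϖ)‖ →
      ‖R n ϖ‖ ≤ C₂ * Real.exp (n * (9 / 8 * |ϖ.im| + ε / 2)) := by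
    intro n hn ϖ hϖ h1
    have h2 := hRS n hn ϖ hϖ
    have h3 : ‖R n ϖ‖ ≤ ‖R n ϖ‖ * ‖sin (n * ϖ)‖ := by
      nlinarith [norm_nonneg (R n ϖ)]
    refine (h3.trans h2).trans (mul_le_mul_of_nonneg_right ?_ (Real.exp_pos _).le)
    have : 0 ≤ K * C / c₀ := by positivity
    rw [hC₂]; linarith
  -- the large n
  obtain ⟨N, hN⟩ := exists_nat_gt (8 * Real.pi / r)
  have hlarge : ∀ n : ℕ, N ≤ n → 1 ≤ n → ∀ ϖ ∈ ball (0 : ℂ) (r / 4), |ϖ.im| < δ →
      ‖R n ϖ‖ ≤ C₂ * Real.exp (n * ε) := by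
    intro n hnN hn ϖ hϖ him
    have hnR : (0 : ℝ) < n := by exact_mod_cast hn
    have hnr : 8 * Real.pi / r < n := lt_of_lt_of_le hN (by exact_mod_cast hnN)
    set t : ℝ := n * r / (4 * Real.pi) with ht
    have ht2 : 2 < t := by
      rw [ht, lt_div_iff₀ (by positivity)]
      rw [div_lt_iff₀ hr0] at hnr
      linarith
    set k : ℕ := ⌊t⌋₊ + 1 with hk
    have hk1 : t < k := by
      rw [hk]; push_cast
      exact Nat.lt_floor_add_one t
    have hk2 : (k : ℝ) ≤ t + 1 := by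
      rw [hk]; push_cast
      have := Nat.floor_le (by linarith : 0 ≤ t)
      linarith
    set x : ℝ := (k + 1 / 2) * Real.pi / n with hx
    have htn : t * (4 * Real.pi) = n * r := by
      rw [ht]; field_simp
    have hx1 : r / 4 < x := by
      rw [hx, lt_div_iff₀ hnR]
      nlinarith
    have hx2 : x < 3 * r / 4 := by
      rw [hx, div_lt_iff₀ hnR]
      nlinarith
    set U : Set ℂ := Set.Ioo (-x) x ×ℂ Set.Ioo (-δ) δ with hU
    have hxpos : 0 < x := by linarith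
    have hcl : closure U = Set.Icc (-x) x ×ℂ Set.Icc (-δ) δ := by
      rw [hU, closure_reProdIm, closure_Ioo (by linarith : -x ≠ x), closure_Ioo (by linarith : -δ ≠ δ)]
    have hsub : closure U ⊆ ball (0 : ℂ) r := by
      rw [hcl]
      intro z hz
      rw [Complex.mem_reProdIm] at hz
      rw [mem_ball_zero_iff]
      have h1 : |z.re| ≤ x := abs_le.2 hz.1
      have h2 : |z.im| ≤ δ := abs_le.2 hz.2
      have h3 := Complex.norm_le_abs_re_add_abs_im z
      linarith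
    have hbdd : Bornology.IsBounded U := (isBounded_ball (x := (0 : ℂ)) (r := r)).subset
      (subset_closure.trans hsub)
    have hdc : DiffContOnCl ℂ (R n) U := ((hR n hn).1.mono hsub).diffContOnCl
    have hfr : ∀ z ∈ frontier U, ‖R n z‖ ≤ C₂ * Real.exp (n * ε) := by
      intro z hz
      have hzc : z ∈ closure U := frontier_subset_closure hz
      have hzb : z ∈ ball (0 : ℂ) r := hsub hzc
      have hzc' := hzc
      rw [hcl, Complex.mem_reProdIm] at hzc'
      have him' : |z.im| ≤ δ := abs_le.2 hzc'.2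
      rw [hU, frontier_reProdIm, frontier_Ioo (by linarith), frontier_Ioo (by linarith)] at hz
      rcases hz with hz | hz
      · rw [Complex.mem_reProdIm] at hz
        have h1 : |z.im| = δ := by
          rcases hz.2 with h | h
          · rw [h, abs_neg, abs_of_pos hδ0]
          · rw [Set.mem_singleton_iff] at h
            rw [h, abs_of_pos hδ0]
        refine (hA n hn z hzb h1.ge).trans (mul_le_mul_of_nonneg_left ?_ hC₂0)
        apply Real.exp_le_exp.2
        apply mul_le_mul_of_nonneg_left _ hnR.le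
        rw [h1]; linarith
      · rw [Complex.mem_reProdIm] at hz
        have h1 : |z.re| = x := by
          rcases hz.1 with h | h
          · rw [h, abs_neg, abs_of_pos hxpos]
          · rw [Set.mem_singleton_iff] at h
            rw [h, abs_of_pos hxpos]
        refine (hB n hn z hzb (crn_sin_one hn (k := k) (by rw [h1, hx]))).trans
          (mul_le_mul_of_nonneg_left ?_ hC₂0)
        apply Real.exp_le_exp.2
        apply mul_le_mul_of_nonneg_left _ hnR.le
        linarith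
    refine Complex.norm_le_of_forall_mem_frontier_norm_le hbdd hdc hfr ?_
    rw [hcl, Complex.mem_reProdIm]
    rw [mem_ball_zero_iff] at hϖ
    have h1 := Complex.abs_re_le_norm ϖ
    exact ⟨abs_le.1 (by linarith), abs_le.1 him.le⟩
  -- small n
  have hsmall : ∀ n : ℕ, ∃ B : ℝ, 1 ≤ n → ∀ ϖ ∈ ball (0 : ℂ) (r / 4), ‖R n ϖ‖ ≤ B := by
    intro n
    by_cases hn : 1 ≤ n
    · have hc : ContinuousOn (R n) (closedBall 0 (r / 4)) :=
        ((hR n hn).1.mono (closedBall_subset_ball (by linarith))).continuousOn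
      obtain ⟨B, hB⟩ := (isCompact_closedBall (0 : ℂ) (r / 4)).exists_bound_of_continuousOn hc
      exact ⟨B, fun _ ϖ hϖ => hB ϖ (ball_subset_closedBall hϖ)⟩
    · exact ⟨0, fun h => absurd h hn⟩
  choose B hB' using hsmall
  refine ⟨C₂ + ∑ n ∈ Finset.range N, |B n|, ?_⟩
  intro n hn ϖ hϖ
  have hsum0 : 0 ≤ ∑ n ∈ Finset.range N, |B n| := Finset.sum_nonneg fun _ _ => abs_nonneg _
  have hnR : (0 : ℝ) < n := by exact_mod_cast hn
  by_cases hnN : n < N
  · have h1 : ‖R n ϖ‖ ≤ |B n| := (hB' n hn ϖ hϖ).trans (le_abs_self _)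
    have h2 : |B n| ≤ ∑ n ∈ Finset.range N, |B n| :=
      Finset.single_le_sum (f := fun n => |B n|) (fun _ _ => abs_nonneg _) (Finset.mem_range.2 hnN)
    have h3 : 1 ≤ Real.exp (n * (1 / 8 * |ϖ.im| + ε)) := by
      apply Real.one_le_exp
      have := abs_nonneg ϖ.im
      positivity
    nlinarith
  · by_cases him : δ ≤ |ϖ.im|
    · refine (hA n hn ϖ (ball_subset_ball hr4 hϖ) him).trans ?_
      apply mul_le_mul (by linarith) _ (Real.exp_pos _).le (by positivity)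
      apply Real.exp_le_exp.2
      apply mul_le_mul_of_nonneg_left _ hnR.le
      linarith
    · refine (hlarge n (by omega) hn ϖ hϖ (not_le.1 him)).trans ?_
      apply mul_le_mul (by linarith) _ (Real.exp_pos _).le (by positivity)
      apply Real.exp_le_exp.2
      apply mul_le_mul_of_nonneg_left _ hnR.le
      have := abs_nonneg ϖ.im
      linarith

end LSB
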