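import Pool.Agent.LSB.CG
import Pool.Agent.LSB.CGrowth

/-!
# Part C, module CSt: the bounce coefficients `St n ϖ`

Paper proof.  `α↦gfun s (c ϖ α)` is `2π`-periodic and differentiable on `9/8|Im ϖ|<Im α<Y₁` (`c_notMem`, `range` with
`Y₂<2Y`, `gfun_differentiableOn`), so `lineCoef_eq`, `differentiableOn_lineCoef` apply (`4r₀≤Y`).  `St_zero`: `c 0 α=cos α`,
`gfun_hasSum_cos`, `lineCoef_tsum`.  `St_eq_tsum`: on the line `Im α=Y` and for `‖ϖ‖` small `Jou_c_bound` gives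
`‖s m Jou(c)^m‖≤A e^{-κ|m|}` uniformly (use `pos` with `T=Y/2`, `neg` with `T=3Y/2`), so sum and integral can be interchanged.
`St_vanish`: from `Vanish` and `St_eq_tsum` with `πη'<r`.
-/

namespace LSB

open Complex Metric

/-- The `n`-th bounce coefficient as a function of `ϖ`. -/
noncomputable def St (D : CData) (s : ℤ → ℂ) (n : ℤ) (ϖ : ℂ) : ℂ :=
  lineCoef (fun α => gfun s (D.c ϖ α)) n D.Y

variable {D : CData} {η : ℝ} {s : ℤ → ℂ}

private lemma st_Ell_mono {a b : ℝ} (ha : 0 < a) (hab : a ≤ b) : Ell a ⊆ Ell b := by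
  intro w hw
  have h1 : ‖w - 1‖ + ‖w + 1‖ < 2 * Real.cosh a := hw
  have h2 : Real.cosh a ≤ Real.cosh b := by
    rw [Real.cosh_le_cosh, abs_of_pos ha, abs_of_pos (ha.trans_le hab)]
    exact hab
  change ‖w - 1‖ + ‖w + 1‖ < 2 * Real.cosh b
  linarith

private lemma st_im_abs {ϖ α : ℂ} (h₁ : 9 / 8 * |ϖ.im| < α.im) (h₂ : α.im < D.Y₁) :
    |α.im| < D.Y₁ := by
  have h0 : 0 ≤ 9 / 8 * |ϖ.im| := by positivity
  rw [abs_of_pos (by linarith)]
  exact h₂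

private lemma st_mem {ϖ α : ℂ} (hϖ : ‖ϖ‖ < D.r₀) (h₁ : 9 / 8 * |ϖ.im| < α.im)
    (h₂ : α.im < D.Y₁) : D.c ϖ α ∈ Ell (2 * D.Y) ∧ D.c ϖ α ∉ segm 1 := by
  refine ⟨?_, D.c_notMem hϖ h₁ h₂⟩
  have hY := D.Y_pos
  have h1 := D.Y_lt
  have h2 := D.Y₁_lt
  exact st_Ell_mono (by linarith) D.Y₂_lt.le (D.range ϖ α hϖ (st_im_abs h₁ h₂))

private lemma st_Y {ϖ : ℂ} (hϖ : ‖ϖ‖ < D.r₀) : 9 / 8 * |ϖ.im| < D.Y := by
  have h1 := Complex.abs_im_le_norm ϖ
  have h2 := D.r₀_le'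
  have h3 := D.r₀_pos
  linarith

private lemma st_isOpen : IsOpen
    {p : ℂ × ℂ | ‖p.1‖ < D.r₀ ∧ 9 / 8 * |p.1.im| < p.2.im ∧ p.2.im < D.Y₁} := by
  have h1 : IsOpen {p : ℂ × ℂ | ‖p.1‖ < D.r₀} :=
    isOpen_lt (by fun_prop) continuous_const
  have h2 : IsOpen {p : ℂ × ℂ | 9 / 8 * |p.1.im| < p.2.im} :=
    isOpen_lt (continuous_const.mul (Complex.continuous_im.comp continuous_fst).abs)
      (Complex.continuous_im.comp continuous_snd)
  have h3 : IsOpen {p : ℂ × ℂ | p.2.im < D.Y₁} :=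
    isOpen_lt (Complex.continuous_im.comp continuous_snd) continuous_const
  exact h1.inter (h2.inter h3)

private lemma st_c_diffAt {ϖ α : ℂ} (hϖ : ‖ϖ‖ < D.r₀) (h : |α.im| < D.Y₁) :
    DifferentiableAt ℂ (fun p : ℂ × ℂ => D.c p.1 p.2) (ϖ, α) := by
  have h1 : IsOpen {p : ℂ × ℂ | ‖p.1‖ < D.r₀ ∧ |p.2.im| < D.Y₁} := by
    have h2 : IsOpen {p : ℂ × ℂ | ‖p.1‖ < D.r₀} :=
      isOpen_lt (by fun_prop) continuous_const
    have h3 : IsOpen {p : ℂ × ℂ | |p.2.im| < D.Y₁} :=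
      isOpen_lt (Complex.continuous_im.comp continuous_snd).abs continuous_const
    exact h2.inter h3
  exact D.diff.differentiableAt (h1.mem_nhds ⟨hϖ, h⟩)

private lemma st_g_diffAt (hs : InV D η s) {w : ℂ} (h1 : w ∈ Ell (2 * D.Y)) (h2 : w ∉ segm 1) :
    DifferentiableAt ℂ (gfun s) w := by
  have h3 : IsOpen (Ell (2 * D.Y) \ segm 1) := (isOpen_Ell _).sdiff (isClosed_segm 1)
  exact (gfun_differentiableOn hs).differentiableAt (h3.mem_nhds ⟨h1, h2⟩)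

private lemma st_diffAt (hs : InV D η s) {ϖ α : ℂ} (hϖ : ‖ϖ‖ < D.r₀)
    (h₁ : 9 / 8 * |ϖ.im| < α.im) (h₂ : α.im < D.Y₁) :
    DifferentiableAt ℂ (fun p : ℂ × ℂ => gfun s (D.c p.1 p.2)) (ϖ, α) := by
  have hm := st_mem hϖ h₁ h₂
  exact (st_g_diffAt hs hm.1 hm.2).comp (ϖ, α) (st_c_diffAt hϖ (st_im_abs h₁ h₂))

private lemma st_diffAt_line (hs : InV D η s) {ϖ α : ℂ} (hϖ : ‖ϖ‖ < D.r₀)
    (h₁ : 9 / 8 * |ϖ.im| < α.im) (h₂ : α.im < D.Y₁) :
    DifferentiableAt ℂ (fun α : ℂ => gfun s (D.c ϖ α)) α := by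
  have h3 : DifferentiableAt ℂ (fun α : ℂ => ((ϖ, α) : ℂ × ℂ)) α := by fun_prop
  exact (st_diffAt hs hϖ h₁ h₂).comp α h3

private lemma st_per {ϖ : ℂ} (hϖ : ‖ϖ‖ < D.r₀) :
    ∀ z ∈ hstrip (9 / 8 * |ϖ.im|) D.Y₁,
      gfun s (D.c ϖ (z + 2 * Real.pi)) = gfun s (D.c ϖ z) := by
  rintro z ⟨h1, h2⟩
  rw [D.c_periodic hϖ (st_im_abs h1 h2)]

private lemma st_diffOn (hs : InV D η s) {ϖ : ℂ} (hϖ : ‖ϖ‖ < D.r₀) :
    DifferentiableOn ℂ (fun α => gfun s (D.c ϖ α)) (hstrip (9 / 8 * |ϖ.im|) D.Y₁) := by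
  rintro z ⟨h1, h2⟩
  exact (st_diffAt_line hs hϖ h1 h2).differentiableWithinAt

private lemma st_line_im (x y : ℝ) : ((x : ℂ) + y * I).im = y := by simp

private lemma st_congr {F G : ℂ → ℂ} {y : ℝ} (h : ∀ z : ℂ, z.im = y → F z = G z) (n : ℤ) :
    lineCoef F n y = lineCoef G n y := by
  unfold lineCoef
  congr 1
  apply intervalIntegral.integral_congr
  intro x _
  change F (x + y * I) * _ = G (x + y * I) * _
  rw [h _ (st_line_im x y)]

/-- a uniform bound on compact subsets of the domain -/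
private lemma st_bdd (hs : InV D η s) {e t : ℝ} (he : 0 < e) (ht : t < D.Y₁) : ∃ M, 0 ≤ M ∧
    ∀ ϖ α : ℂ, ‖ϖ‖ ≤ D.r₀ / 2 → 9 / 8 * |ϖ.im| + e ≤ α.im → α.im ≤ t →
      ‖gfun s (D.c ϖ α)‖ ≤ M := by
  have hr := D.r₀_pos
  set K : Set (ℂ × ℂ) := {p | ‖p.1‖ ≤ D.r₀ / 2 ∧ 9 / 8 * |p.1.im| + e ≤ p.2.im ∧ p.2.im ≤ t ∧
    0 ≤ p.2.re ∧ p.2.re ≤ 2 * Real.pi} with hK
  have hKc : IsCompact K := by
    apply Metric.isCompact_of_isClosed_isBounded
    · have h1 : IsClosed {p : ℂ × ℂ | ‖p.1‖ ≤ D.r₀ / 2} :=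
        isClosed_le (by fun_prop) continuous_const
      have h2 : IsClosed {p : ℂ × ℂ | 9 / 8 * |p.1.im| + e ≤ p.2.im} :=
        isClosed_le ((continuous_const.mul (Complex.continuous_im.comp continuous_fst).abs).add
          continuous_const) (Complex.continuous_im.comp continuous_snd)
      have h3 : IsClosed {p : ℂ × ℂ | p.2.im ≤ t} :=
        isClosed_le (Complex.continuous_im.comp continuous_snd) continuous_const
      have h4 : IsClosed {p : ℂ × ℂ | 0 ≤ p.2.re} :=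
        isClosed_le continuous_const (Complex.continuous_re.comp continuous_snd)
      have h5 : IsClosed {p : ℂ × ℂ | p.2.re ≤ 2 * Real.pi} :=
        isClosed_le (Complex.continuous_re.comp continuous_snd) continuous_const
      exact h1.inter (h2.inter (h3.inter (h4.inter h5)))
    · refine (Metric.isBounded_closedBall (x := ((0 : ℂ), (0 : ℂ)))
        (r := D.r₀ / 2 + (2 * Real.pi + t))).subset ?_
      rintro ⟨p, q⟩ ⟨h1, h2, h3, h4, h5⟩
      rw [mem_closedBall, Prod.dist_eq, dist_zero_right, dist_zero_right]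
      have h6 : 0 ≤ 9 / 8 * |p.im| := by positivity
      have h7 : ‖q‖ ≤ |q.re| + |q.im| := Complex.norm_le_abs_re_add_abs_im q
      rw [abs_of_nonneg h4, abs_of_nonneg (by simp only at h2; linarith : 0 ≤ q.im)] at h7
      simp only at h1 h2 h3 h4 h5
      have h8 := norm_nonneg p
      apply max_le
      · change ‖p‖ ≤ _
        linarith
      · change ‖q‖ ≤ _
        linarith
  have hsub : ∀ p ∈ K, ContinuousAt (fun p : ℂ × ℂ => gfun s (D.c p.1 p.2)) p := by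
    rintro ⟨p, q⟩ ⟨h1, h2, h3, _, _⟩
    simp only at h1 h2 h3
    exact (st_diffAt hs (by linarith) (by linarith) (by linarith)).continuousAt
  obtain ⟨M, hM⟩ := hKc.exists_bound_of_continuousOn
    (f := fun p : ℂ × ℂ => gfun s (D.c p.1 p.2))
    (fun p hp => (hsub p hp).continuousWithinAt)
  refine ⟨|M|, abs_nonneg _, fun ϖ α hϖ h1 h2 => ?_⟩
  have h0 : 0 ≤ 9 / 8 * |ϖ.im| := by positivity
  have hϖ' : ‖ϖ‖ < D.r₀ := by linarith
  have hper : Function.Periodic (fun x : ℝ => gfun s (D.c ϖ (x + α.im * I))) (2 * Real.pi) := by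
    intro x
    have h3 : ((x + 2 * Real.pi : ℝ) : ℂ) + α.im * I = ((x : ℂ) + α.im * I) + 2 * Real.pi := by
      push_cast
      ring
    simp only [h3]
    rw [D.c_periodic hϖ']
    rw [st_line_im]
    exact st_im_abs (ϖ := ϖ) (by linarith) (by linarith)
  obtain ⟨x', hx', hxe⟩ := hper.exists_mem_Ico₀ (by positivity) α.re
  simp only [Complex.re_add_im] at hxe
  rw [hxe]
  refine (hM (ϖ, x' + α.im * I) ?_).trans (le_abs_self M)
  refine ⟨hϖ, ?_, ?_, ?_, ?_⟩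
  · rw [st_line_im]; exact h1
  · rw [st_line_im]; exact h2
  · simpa using hx'.1
  · simpa using hx'.2.le

/-- absolute convergence of the Laurent series, uniformly for `r₁ ≤ |z| ≤ r₂` -/
private lemma st_zpow_le {r₁ r₂ : ℝ} (hr₁ : 0 < r₁) (s : ℤ → ℂ) (m : ℤ) {z : ℂ} (h1 : r₁ ≤ ‖z‖)
    (h2 : ‖z‖ ≤ r₂) :
    ‖s m * z ^ m‖ ≤ ‖s m * (r₁ : ℂ) ^ m‖ + ‖s m * (r₂ : ℂ) ^ m‖ := by
  have hz0 : 0 < ‖z‖ := lt_of_lt_of_le hr₁ h1
  have hr₂ : 0 < r₂ := lt_of_lt_of_le hz0 h2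
  have n1 : ‖(r₁ : ℂ)‖ = r₁ := by rw [Complex.norm_real, Real.norm_of_nonneg hr₁.le]
  have n2 : ‖(r₂ : ℂ)‖ = r₂ := by rw [Complex.norm_real, Real.norm_of_nonneg hr₂.le]
  rw [norm_mul, norm_mul, norm_mul, norm_zpow, norm_zpow, norm_zpow, n1, n2]
  rcases le_or_gt 0 m with hm | hm
  · have : ‖z‖ ^ m ≤ r₂ ^ m := by
      obtain ⟨k, rfl⟩ := Int.eq_ofNat_of_zero_le hm
      rw [zpow_natCast, zpow_natCast]
      exact pow_le_pow_left₀ hz0.le h2 k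
    have h7 : 0 ≤ ‖s m‖ * r₁ ^ m := by positivity
    have h8 : ‖s m‖ * ‖z‖ ^ m ≤ ‖s m‖ * r₂ ^ m := by gcongr
    linarith
  · have : ‖z‖ ^ m ≤ r₁ ^ m := by
      obtain ⟨k, hk⟩ := Int.eq_ofNat_of_zero_le (by linarith : 0 ≤ -m)
      have hm' : m = -(k : ℤ) := by linarith
      rw [hm', zpow_neg, zpow_neg, zpow_natCast, zpow_natCast]
      exact inv_anti₀ (by positivity) (pow_le_pow_left₀ hr₁.le h1 k)
    have h7 : 0 ≤ ‖s m‖ * r₂ ^ m := by positivity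
    have h8 : ‖s m‖ * ‖z‖ ^ m ≤ ‖s m‖ * r₁ ^ m := by gcongr
    linarith

theorem gfun_c_differentiableOn (hs : InV D η s) : DifferentiableOn ℂ
    (fun p : ℂ × ℂ => gfun s (D.c p.1 p.2))
    {p : ℂ × ℂ | ‖p.1‖ < D.r₀ ∧ 9 / 8 * |p.1.im| < p.2.im ∧ p.2.im < D.Y₁} := by
  rintro ⟨ϖ, α⟩ ⟨h1, h2, h3⟩
  exact (st_diffAt hs h1 h2 h3).differentiableWithinAt

theorem St_eq_line (hs : InV D η s) (n : ℤ) {ϖ : ℂ} (hϖ : ‖ϖ‖ < D.r₀) {y : ℝ}
    (hy : 9 / 8 * |ϖ.im| < y) (hy' : y < D.Y₁) :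
    St D s n ϖ = lineCoef (fun α => gfun s (D.c ϖ α)) n y :=
  lineCoef_eq (st_diffOn hs hϖ) (st_per hϖ) n ⟨st_Y hϖ, D.Y_lt⟩ ⟨hy, hy'⟩

theorem St_differentiableOn (hs : InV D η s) (n : ℤ) :
    DifferentiableOn ℂ (St D s n) (ball 0 D.r₀) := by
  apply differentiableOn_lineCoef (F := fun ϖ α => gfun s (D.c ϖ α)) isOpen_ball n
  intro ϖ hϖ x
  rw [mem_ball_zero_iff] at hϖ
  exact st_diffAt hs hϖ (by rw [st_line_im]; exact st_Y hϖ) (by rw [st_line_im]; exact D.Y_lt)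

theorem St_neg (hs : InV D η s) (n : ℤ) {ϖ : ℂ} (hϖ : ‖ϖ‖ < D.r₀) :
    St D s n (-ϖ) = St D s n ϖ := by
  apply st_congr
  intro z hz
  rw [D.even₁ ϖ z hϖ (by rw [hz, abs_of_pos D.Y_pos]; exact D.Y_lt)]

theorem St_zero (hs : InV D η s) (n : ℤ) : St D s n 0 = s n := by
  have hY := D.Y_pos
  have h1 : St D s n 0 = lineCoef (fun z => ∑' m : ℤ, s m * exp (m * I * z)) n D.Y := by
    apply st_congr
    intro z hz
    rw [D.zero z (by rw [hz, abs_of_pos hY]; exact D.Y_lt)]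
    exact (gfun_hasSum_cos hs (by rw [hz]; exact hY) (by rw [hz]; linarith)).tsum_eq.symm
  rw [h1]
  apply lineCoef_tsum
  have n1 : ‖((Real.exp (-D.Y) : ℝ) : ℂ)‖ = Real.exp (-D.Y) := by
    rw [Complex.norm_real, Real.norm_of_nonneg (Real.exp_pos _).le]
  have h2 := hs.summable_laurent (z := ((Real.exp (-D.Y) : ℝ) : ℂ))
    (by rw [n1, Real.exp_lt_exp]; linarith) (by rw [n1, Real.exp_lt_one_iff]; linarith)
  refine h2.congr (fun m => ?_)
  rw [norm_mul, norm_zpow, n1, ← Real.rpow_intCast, ← Real.exp_mul]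
  congr 2
  ring

theorem St_hasSum (hs : InV D η s) {ϖ α : ℂ} (hϖ : ‖ϖ‖ < D.r₀) (h₁ : 9 / 8 * |ϖ.im| < α.im)
    (h₂ : α.im < D.Y₁) :
    HasSum (fun n : ℤ => St D s n ϖ * exp (n * I * α)) (gfun s (D.c ϖ α)) :=
  hasSum_lineCoef (st_diffOn hs hϖ) (st_per hϖ) ⟨st_Y hϖ, D.Y_lt⟩ ⟨h₁, h₂⟩

theorem St_eq_tsum (hs : InV D η s) : ∃ r > 0, ∀ (n : ℤ) (ϖ : ℂ), ‖ϖ‖ < r →
    Summable (fun m : ℤ => s m * D.X n m ϖ D.Y) ∧
      St D s n ϖ = ∑' m : ℤ, s m * D.X n m ϖ D.Y := by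
  have hY := D.Y_pos
  obtain ⟨C, r, hC, hr, hr0, hJ⟩ := D.Jou_c_bound hY
  obtain ⟨r', hr', hr'r, hCr⟩ : ∃ r' : ℝ, 0 < r' ∧ r' ≤ r ∧ C * r' ^ 2 ≤ D.Y / 4 := by
    refine ⟨min (min r 1) (D.Y / (4 * (C + 1))), by positivity,
      (min_le_left _ _).trans (min_le_left _ _), ?_⟩
    have h1 : min (min r 1) (D.Y / (4 * (C + 1))) ≤ 1 := (min_le_left _ _).trans (min_le_right _ _)
    have h2 : min (min r 1) (D.Y / (4 * (C + 1))) ≤ D.Y / (4 * (C + 1)) := min_le_right _ _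
    have h3 : 0 < min (min r 1) (D.Y / (4 * (C + 1))) := by positivity
    set t := min (min r 1) (D.Y / (4 * (C + 1)))
    calc C * t ^ 2 ≤ (C + 1) * (1 * (D.Y / (4 * (C + 1)))) := by
          rw [sq]
          gcongr
          linarith
      _ = D.Y / 4 := by field_simp
  refine ⟨r', hr', fun n ϖ hϖ => ?_⟩
  have hϖ0 : ‖ϖ‖ < D.r₀ := hϖ.trans_le (hr'r.trans hr0)
  have hsq : C * ‖ϖ‖ ^ 2 ≤ D.Y / 4 := by
    refine le_trans ?_ hCr
    gcongr
  have hJ' : ∀ α : ℂ, α.im = D.Y → Real.exp (-(5 / 4 * D.Y)) ≤ ‖Jou (D.c ϖ α)‖ ∧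
      ‖Jou (D.c ϖ α)‖ ≤ Real.exp (-(3 / 4 * D.Y)) := by
    intro α hα
    obtain ⟨h1, h2⟩ := hJ ϖ α (hϖ.trans_le hr'r) hα.ge (by rw [hα]; exact D.Y_lt)
    rw [hα] at h1 h2
    constructor
    · refine le_trans (Real.exp_le_exp.2 ?_) h1
      linarith
    · refine h2.trans (Real.exp_le_exp.2 ?_)
      linarith
  have n1 : ‖((Real.exp (-(5 / 4 * D.Y)) : ℝ) : ℂ)‖ = Real.exp (-(5 / 4 * D.Y)) := by
    rw [Complex.norm_real, Real.norm_of_nonneg (Real.exp_pos _).le]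
  have n2 : ‖((Real.exp (-(3 / 4 * D.Y)) : ℝ) : ℂ)‖ = Real.exp (-(3 / 4 * D.Y)) := by
    rw [Complex.norm_real, Real.norm_of_nonneg (Real.exp_pos _).le]
  have s1 := hs.summable_laurent (z := ((Real.exp (-(5 / 4 * D.Y)) : ℝ) : ℂ))
    (by rw [n1, Real.exp_lt_exp]; linarith) (by rw [n1, Real.exp_lt_one_iff]; linarith)
  have s2 := hs.summable_laurent (z := ((Real.exp (-(3 / 4 * D.Y)) : ℝ) : ℂ))
    (by rw [n2, Real.exp_lt_exp]; linarith) (by rw [n2, Real.exp_lt_one_iff]; linarith)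
  set b : ℤ → ℝ := fun m => ‖s m * ((Real.exp (-(5 / 4 * D.Y)) : ℝ) : ℂ) ^ m‖ +
    ‖s m * ((Real.exp (-(3 / 4 * D.Y)) : ℝ) : ℂ) ^ m‖ with hb
  have hbs : Summable b := s1.add s2
  have hbm : ∀ (m : ℤ) (x : ℝ), ‖s m * Jou (D.c ϖ (x + D.Y * I)) ^ m‖ ≤ b m := by
    intro m x
    obtain ⟨h1, h2⟩ := hJ' (x + D.Y * I) (st_line_im x D.Y)
    exact st_zpow_le (Real.exp_pos _) s m h1 h2
  -- the integrands
  have hE : ∀ x : ℝ, ‖exp (-(n * I * (x + D.Y * I)))‖ = Real.exp (n * D.Y) := by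
    intro x
    rw [Complex.norm_exp]
    congr 1
    simp
  have hcont : ∀ m : ℤ, Continuous (fun x : ℝ =>
      s m * Jou (D.c ϖ (x + D.Y * I)) ^ m * exp (-(n * I * (x + D.Y * I)))) := by
    intro m
    rw [continuous_iff_continuousAt]
    intro x
    have hmem := st_mem (D := D) (ϖ := ϖ) (α := x + D.Y * I) hϖ0
      (by rw [st_line_im]; exact st_Y hϖ0) (by rw [st_line_im]; exact D.Y_lt)
    have h1 : ContinuousAt (fun p : ℂ × ℂ => D.c p.1 p.2) (ϖ, (x : ℂ) + D.Y * I) :=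
      (st_c_diffAt hϖ0 (by rw [st_line_im, abs_of_pos hY]; exact D.Y_lt)).continuousAt
    have h2 : ContinuousAt (fun x : ℝ => (ϖ, (x : ℂ) + D.Y * I)) x := by fun_prop
    have h3 : ContinuousAt (fun x : ℝ => D.c ϖ ((x : ℂ) + D.Y * I)) x :=
      ContinuousAt.comp (f := fun x : ℝ => (ϖ, (x : ℂ) + D.Y * I)) h1 h2
    have h4 : ContinuousAt Jou (D.c ϖ ((x : ℂ) + D.Y * I)) :=
      (differentiableOn_Jou.differentiableAt
        ((isClosed_segm 1).isOpen_compl.mem_nhds hmem.2)).continuousAt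
    have h5 : ContinuousAt (fun x : ℝ => Jou (D.c ϖ ((x : ℂ) + D.Y * I))) x :=
      ContinuousAt.comp (f := fun x : ℝ => D.c ϖ ((x : ℂ) + D.Y * I)) h4 h3
    have h6 : ContinuousAt (fun x : ℝ => Jou (D.c ϖ ((x : ℂ) + D.Y * I)) ^ m) x :=
      h5.zpow₀ m (Or.inl (Jou_ne_zero hmem.2))
    exact (continuousAt_const.mul h6).mul (by fun_prop)
  have hkey : HasSum (fun m : ℤ => ∫ x in (0 : ℝ)..(2 * Real.pi),
      s m * Jou (D.c ϖ (x + D.Y * I)) ^ m * exp (-(n * I * (x + D.Y * I))))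
      (∫ x in (0 : ℝ)..(2 * Real.pi), gfun s (D.c ϖ (x + D.Y * I)) *
        exp (-(n * I * (x + D.Y * I)))) := by
    apply intervalIntegral.hasSum_integral_of_dominated_convergence
      (fun m _ => b m * Real.exp (n * D.Y))
    · intro m
      exact (hcont m).aestronglyMeasurable
    · intro m
      refine Filter.Eventually.of_forall (fun x _ => ?_)
      rw [norm_mul, hE]
      exact mul_le_mul_of_nonneg_right (hbm m x) (Real.exp_pos _).le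
    · exact Filter.Eventually.of_forall (fun x _ => hbs.mul_right _)
    · exact intervalIntegrable_const
    · refine Filter.Eventually.of_forall (fun x _ => ?_)
      apply HasSum.mul_right
      have hmem := st_mem (D := D) (ϖ := ϖ) (α := x + D.Y * I) hϖ0
        (by rw [st_line_im]; exact st_Y hϖ0) (by rw [st_line_im]; exact D.Y_lt)
      exact (gfun_summable hs hmem.1 hmem.2).hasSum
  have hterm : ∀ m : ℤ, s m * D.X n m ϖ D.Y = (1 / (2 * Real.pi) : ℂ) *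
      ∫ x in (0 : ℝ)..(2 * Real.pi),
      s m * Jou (D.c ϖ (x + D.Y * I)) ^ m * exp (-(n * I * (x + D.Y * I))) := by
    intro m
    unfold CData.X lineCoef
    rw [← mul_assoc, mul_comm (s m), mul_assoc, ← intervalIntegral.integral_const_mul]
    congr 1
    apply intervalIntegral.integral_congr
    intro x _
    simp only
    ring
  have hfin : HasSum (fun m : ℤ => s m * D.X n m ϖ D.Y) (St D s n ϖ) := by
    have h1 := hkey.mul_left (1 / (2 * Real.pi) : ℂ)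
    have h2 : (fun m : ℤ => s m * D.X n m ϖ D.Y) = fun m : ℤ => (1 / (2 * Real.pi) : ℂ) *
      ∫ x in (0 : ℝ)..(2 * Real.pi),
      s m * Jou (D.c ϖ (x + D.Y * I)) ^ m * exp (-(n * I * (x + D.Y * I))) := funext hterm
    rw [h2]
    exact h1
  exact ⟨hfin.summable, hfin.tsum_eq.symm⟩

theorem St_vanish (hη : 0 < η) (hs : InV D η s) : ∃ η' > 0, ∀ n p : ℕ, 0 < p →
    (p : ℝ) ≤ η' * n → St D s n (Real.pi * p / n) = 0 ∧ St D s n (-(Real.pi * p / n)) = 0 := by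
  obtain ⟨r, hr, h⟩ := St_eq_tsum hs
  have hpi := Real.pi_pos
  have hr0 := D.r₀_pos
  refine ⟨min η (min r D.r₀ / (2 * Real.pi)), by positivity, fun n p hp hpn => ?_⟩
  have hp0 : (0 : ℝ) < p := by exact_mod_cast hp
  have hn0 : (0 : ℝ) < n := by
    rcases Nat.eq_zero_or_pos n with h0 | h0
    · rw [h0, Nat.cast_zero, mul_zero] at hpn
      linarith
    · exact_mod_cast h0
  have h1 : (p : ℝ) ≤ η * n := by
    refine hpn.trans ?_
    gcongr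
    exact min_le_left _ _
  have h2 : (p : ℝ) ≤ min r D.r₀ / (2 * Real.pi) * n := by
    refine hpn.trans ?_
    gcongr
    exact min_le_right _ _
  have h3 : ‖(Real.pi * p / n : ℂ)‖ < min r D.r₀ := by
    have h4 : ‖(Real.pi * p / n : ℂ)‖ = Real.pi * p / n := by
      rw [norm_div, norm_mul, Complex.norm_real, Complex.norm_natCast, Complex.norm_natCast,
        Real.norm_of_nonneg hpi.le]
    rw [h4, div_lt_iff₀ hn0]
    have h5 : 0 < min r D.r₀ := lt_min hr hr0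
    calc Real.pi * p ≤ Real.pi * (min r D.r₀ / (2 * Real.pi) * n) := by gcongr
      _ = min r D.r₀ * n / 2 := by field_simp
      _ < min r D.r₀ * n := by
        have : 0 < min r D.r₀ * n := by positivity
        linarith
  have h6 : St D s n (Real.pi * p / n) = 0 := by
    rw [(h n _ (h3.trans_le (min_le_left _ _))).2]
    exact hs.van n p hp h1
  refine ⟨h6, ?_⟩
  rw [St_neg hs n (h3.trans_le (min_le_right _ _)), h6]

theorem St_bound_pos (hs : InV D η s) {ε : ℝ} (hε : 0 < ε) : ∃ C, ∀ (n : ℕ) (ϖ : ℂ),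
    ‖ϖ‖ ≤ D.r₀ / 2 → ‖St D s n ϖ‖ ≤ C * Real.exp (n * (9 / 8 * |ϖ.im| + ε)) := by
  have hY := D.Y_pos
  have hY1 := D.Y_lt
  have hr := D.r₀_pos
  have hr' := D.r₀_le'
  have he : 0 < min ε (D.Y / 2) := by positivity
  obtain ⟨M, hM0, hM⟩ := st_bdd hs he hY1
  refine ⟨M, fun n ϖ hϖ => ?_⟩
  have him := Complex.abs_im_le_norm ϖ
  have h0 : 0 ≤ |ϖ.im| := abs_nonneg _
  have h1 : min ε (D.Y / 2) ≤ D.Y / 2 := min_le_right _ _
  have h2 : min ε (D.Y / 2) ≤ ε := min_le_left _ _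
  set y := 9 / 8 * |ϖ.im| + min ε (D.Y / 2) with hy
  have hyY : y ≤ D.Y := by linarith
  rw [St_eq_line hs n (by linarith : ‖ϖ‖ < D.r₀) (y := y) (by linarith) (by linarith)]
  refine (norm_lineCoef_le (M := M) (fun x => ?_) n).trans ?_
  · exact hM ϖ _ hϖ (by rw [st_line_im]) (by rw [st_line_im]; exact hyY)
  · apply mul_le_mul_of_nonneg_left _ hM0
    apply Real.exp_le_exp.2
    rw [Int.cast_natCast]
    have : (0 : ℝ) ≤ n := Nat.cast_nonneg n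
    apply mul_le_mul_of_nonneg_left _ this
    linarith

theorem St_bound_neg (hs : InV D η s) {y : ℝ} (hy : y < D.Y₁) : ∃ C, ∀ (n : ℕ) (ϖ : ℂ),
    ‖ϖ‖ ≤ D.r₀ / 2 → ‖St D s (-n) ϖ‖ ≤ C * Real.exp (-(n * y)) := by
  have hY := D.Y_pos
  have hY1 := D.Y_lt
  have hr := D.r₀_pos
  have hr' := D.r₀_le'
  have hmax : max y D.Y < D.Y₁ := max_lt hy hY1
  obtain ⟨M, hM0, hM⟩ := st_bdd hs (e := D.Y / 2) (by positivity) hmax
  refine ⟨M, fun n ϖ hϖ => ?_⟩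
  have him := Complex.abs_im_le_norm ϖ
  have h0 : 0 ≤ |ϖ.im| := abs_nonneg _
  have h1 : D.Y ≤ max y D.Y := le_max_right _ _
  have h2 : y ≤ max y D.Y := le_max_left _ _
  rw [St_eq_line hs _ (by linarith : ‖ϖ‖ < D.r₀) (y := max y D.Y) (by linarith) hmax]
  refine (norm_lineCoef_le (M := M) (fun x => ?_) _).trans ?_
  · exact hM ϖ _ hϖ (by rw [st_line_im]; linarith) (by rw [st_line_im])
  · apply mul_le_mul_of_nonneg_left _ hM0
    apply Real.exp_le_exp.2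
    rw [Int.cast_neg, Int.cast_natCast, neg_mul]
    have : (0 : ℝ) ≤ n := Nat.cast_nonneg n
    apply neg_le_neg
    exact mul_le_mul_of_nonneg_left h2 this

end LSB
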