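import Pool.Agent.LSB.CGrowth
import Pool.Agent.LSB.CZeros

/-!
# Part C, module CSubexp: vanishing forces subexponential growth of `s m`

Paper proof.  Let `T₀>0`, `C,r` from `growth`.  Claim: there is `κ>0` (depending on `D,T₀,η`) such that a bound
`‖s m‖≤A e^{mT}` for all `m≥0` with `T₀≤T≤Y` implies `‖s m‖≤A' e^{m(T-κ)}` for all `m≥0` and some `A'`.  Proof: let
`S_n(ϖ)=∑' s m X n m ϖ`; it is even (`X_neg`), `S_n(0)=s n` (`X_zero`), and vanishes at `±πp/n` for `1≤p≤ηn`.  Fix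
`0<R<r`, `R≤2πη`; let `M=⌊nR/(2π)⌋`, then the points `πp/n`, `p=1..M`, are in `(0,R/2]`, and
`norm_le_of_symmetric_zeros` gives `‖s n‖≤C A n e^{n(T+CR²)} 3^{-M}≤3CA·n·exp(n(T+CR²-R log 3/(2π)))`.  For `R` small
`CR²≤R/20`, `log 3/(2π)≥0.17`, so `κ=R/20` works.  Iterate from `T=Y` finitely many times until `T<T₀+κ`.. to reach any `T₀`
(the exponents decrease by `κ` at each step; once `T≤T₀` stop).
-/

set_option linter.all false

namespace LSB

open Complex Metric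

namespace CData

variable (D : CData)

/-- The sum `S_n(ϖ)` vanishes at the points `±π p / n` and equals `s n` at `0`. -/
theorem subexp_point {η T₀ C r R : ℝ} {s : ℤ → ℂ} {A T : ℝ} (hv : D.Vanish η s)
    (hR : 0 < R) (hRr : R < r) (hr : r ≤ D.r₀) (hRη : R ≤ 2 * Real.pi * η) (hC : 0 ≤ C)
    (hA : 0 ≤ A) (hCR : C * R ≤ 1 / 20) {n : ℕ} (hn : 1 ≤ n)
    (hd : DifferentiableOn ℂ (fun ϖ => ∑' m : ℤ, s m * D.X n m ϖ D.Y) (ball 0 r))
    (hb : ∀ ϖ ∈ ball (0 : ℂ) r, ‖∑' m : ℤ, s m * D.X n m ϖ D.Y‖ ≤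
          C * A * n * Real.exp (n * (T + C * ‖ϖ‖ ^ 2))) :
    ‖s n‖ ≤ (3 * (C * A) * (20 / R)) * Real.exp (n * (T - R / 20)) := by
  have hnpos : (0 : ℝ) < n := by exact_mod_cast hn
  have hpi : 0 < Real.pi := Real.pi_pos
  have hpi4 : Real.pi < 3.15 := Real.pi_lt_d2
  set M : ℕ := ⌊(n : ℝ) * R / (2 * Real.pi)⌋₊ with hMdef
  have hM1 : (M : ℝ) ≤ n * R / (2 * Real.pi) := Nat.floor_le (by positivity)
  have hM2 : n * R / (2 * Real.pi) < M + 1 := Nat.lt_floor_add_one _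
  set f : ℂ → ℂ := fun ϖ => ∑' m : ℤ, s m * D.X n m ϖ D.Y with hf
  -- the zeros
  have hzle : ∀ i < M, Real.pi * ((i : ℝ) + 1) / n ≤ R / 2 := by
    intro i hi
    have h1 : ((i : ℝ) + 1) ≤ M := by exact_mod_cast hi
    have h2 : ((i : ℝ) + 1) ≤ n * R / (2 * Real.pi) := h1.trans hM1
    rw [le_div_iff₀ (by positivity)] at h2
    rw [div_le_iff₀ hnpos]
    linarith
  have hzpos : ∀ i < M, 0 < Real.pi * ((i : ℝ) + 1) / n := fun i _ => by positivity
  have hcast : ∀ i : ℕ, (((Real.pi * ((i : ℝ) + 1) / n : ℝ)) : ℂ) =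
      (Real.pi : ℂ) * ((i + 1 : ℕ) : ℂ) / (n : ℂ) := by
    intro i
    push_cast
    ring
  have hf0 : ∀ i < M, f ((Real.pi * ((i : ℝ) + 1) / n : ℝ) : ℂ) = 0 := by
    intro i hi
    rw [hcast]
    refine hv n (i + 1) (Nat.succ_pos i) ?_
    have h1 : (((i + 1 : ℕ)) : ℝ) ≤ M := by exact_mod_cast hi
    refine h1.trans (hM1.trans ?_)
    rw [div_le_iff₀ (by positivity)]
    nlinarith
  have heven : ∀ ϖ : ℂ, ‖ϖ‖ < r → f (-ϖ) = f ϖ := by
    intro ϖ hϖ
    simp only [hf]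
    congr 1
    funext m
    rw [D.X_neg n m (hϖ.trans_le hr) D.Y_pos D.Y_lt]
  have hf1 : ∀ i < M, f (-((Real.pi * ((i : ℝ) + 1) / n : ℝ) : ℂ)) = 0 := by
    intro i hi
    rw [heven _ ?_]
    · exact hf0 i hi
    · rw [Complex.norm_real, Real.norm_eq_abs, abs_of_pos (hzpos i hi)]
      have := hzle i hi
      linarith
  have hinj : Set.InjOn (fun i : ℕ => Real.pi * ((i : ℝ) + 1) / n) (Set.Iio M) := by
    intro i _ j _ hij
    have hij' : Real.pi * ((i : ℝ) + 1) / n = Real.pi * ((j : ℝ) + 1) / n := hij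
    rw [div_left_inj' hnpos.ne'] at hij'
    have h1 := mul_left_cancel₀ hpi.ne' hij'
    have h2 : (i : ℝ) = j := by linarith
    exact_mod_cast h2
  have hmax : ∀ z : ℂ, ‖z‖ = R → ‖f z‖ ≤ C * A * n * Real.exp (n * (T + C * R ^ 2)) := by
    intro z hz
    have hzb : z ∈ ball (0 : ℂ) r := by
      rw [mem_ball_zero_iff, hz]
      exact hRr
    have := hb z hzb
    rwa [hz] at this
  have key := norm_le_of_symmetric_zeros hR hRr hd hmax M
    (fun i : ℕ => Real.pi * ((i : ℝ) + 1) / n) hinj hzpos hzle hf0 hf1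
  have hfz : f 0 = s n := by
    simp only [hf]
    rw [tsum_eq_single (n : ℤ)]
    · rw [D.X_zero n n D.Y_pos D.Y_lt, if_pos rfl, mul_one]
    · intro m hm
      rw [D.X_zero n m D.Y_pos D.Y_lt, if_neg (Ne.symm hm), mul_zero]
  rw [hfz] at key
  -- the numerical estimate
  have e1 : (1 / 3 : ℝ) ^ M ≤ 3 * Real.exp (-(3 / 20 * R * n)) := by
    have h3 : (1 / 3 : ℝ) ≤ Real.exp (-1) := by
      rw [Real.exp_neg, one_div]
      exact inv_anti₀ (Real.exp_pos _) (by linarith [Real.exp_one_lt_d9])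
    have h4 : (1 / 3 : ℝ) ^ M ≤ Real.exp (-1) ^ M := pow_le_pow_left₀ (by norm_num) h3 M
    rw [← Real.exp_nat_mul] at h4
    have h5 : (M : ℝ) * (-1) ≤ 1 + -(3 / 20 * R * n) := by
      have h6 : 3 / 20 * R * n ≤ n * R / (2 * Real.pi) := by
        rw [le_div_iff₀ (by positivity)]
        have hRn : 0 < R * n := by positivity
        nlinarith
      linarith
    calc (1 / 3 : ℝ) ^ M ≤ Real.exp ((M : ℝ) * (-1)) := h4
      _ ≤ Real.exp (1 + -(3 / 20 * R * n)) := Real.exp_le_exp.2 h5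
      _ = Real.exp 1 * Real.exp (-(3 / 20 * R * n)) := Real.exp_add _ _
      _ ≤ 3 * Real.exp (-(3 / 20 * R * n)) :=
        mul_le_mul_of_nonneg_right (by linarith [Real.exp_one_lt_d9]) (Real.exp_pos _).le
  have e2 : (n : ℝ) ≤ 20 / R * Real.exp (n * (R / 20)) := by
    have h6 : n * (R / 20) ≤ Real.exp (n * (R / 20)) := by
      have := Real.add_one_le_exp ((n : ℝ) * (R / 20))
      linarith
    have h7 : 20 / R * (n * (R / 20)) ≤ 20 / R * Real.exp (n * (R / 20)) :=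
      mul_le_mul_of_nonneg_left h6 (by positivity)
    have h8 : 20 / R * (n * (R / 20)) = n := by
      field_simp
    linarith
  have e3 : Real.exp (n * (T + C * R ^ 2)) ≤ Real.exp (n * (T + R / 20)) := by
    apply Real.exp_le_exp.2
    apply mul_le_mul_of_nonneg_left _ hnpos.le
    have : C * R ^ 2 = (C * R) * R := by ring
    rw [this]
    nlinarith
  have hCA : 0 ≤ C * A := mul_nonneg hC hA
  calc ‖s n‖ ≤ C * A * n * Real.exp (n * (T + C * R ^ 2)) * (1 / 3) ^ M := key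
    _ ≤ C * A * (20 / R * Real.exp (n * (R / 20))) * Real.exp (n * (T + R / 20)) *
        (3 * Real.exp (-(3 / 20 * R * n))) := by
        gcongr
    _ = (3 * (C * A) * (20 / R)) * (Real.exp (n * (R / 20)) * Real.exp (n * (T + R / 20)) *
        Real.exp (-(3 / 20 * R * n))) := by ring
    _ = (3 * (C * A) * (20 / R)) * Real.exp (n * (T - R / 20)) := by
        rw [← Real.exp_add, ← Real.exp_add]
        congr 2
        ring

theorem subexp {η : ℝ} (hη : 0 < η) {s : ℤ → ℂ} {A : ℝ}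
    (h₁ : ∀ m : ℕ, ‖s m‖ ≤ A * Real.exp (m * D.Y))
    (h₂ : ∀ m : ℕ, ‖s (-m)‖ ≤ A * Real.exp (-(m * D.Y))) (hv : D.Vanish η s) :
    ∀ T : ℝ, 0 < T → ∃ A' : ℝ, ∀ m : ℕ, ‖s m‖ ≤ A' * Real.exp (m * T) := by
  intro T₀ hT₀
  obtain ⟨C, r, hC, hr0, hr, hgrow⟩ := D.growth hT₀
  have nonneg : ∀ {B T : ℝ}, (∀ m : ℕ, ‖s m‖ ≤ B * Real.exp (m * T)) → 0 ≤ B := by
    intro B T h
    have := h 0
    simp only [Nat.cast_zero, zero_mul, Real.exp_zero, mul_one] at this
    exact (norm_nonneg _).trans this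
  have mono : ∀ {T T' : ℝ}, T ≤ T' → (∃ B : ℝ, ∀ m : ℕ, ‖s m‖ ≤ B * Real.exp (m * T)) →
      ∃ B : ℝ, ∀ m : ℕ, ‖s m‖ ≤ B * Real.exp (m * T') := by
    rintro T T' hTT' ⟨B, hB⟩
    refine ⟨B, fun m => (hB m).trans ?_⟩
    have hB0 := nonneg hB
    gcongr
  have hpi : 0 < Real.pi := Real.pi_pos
  set R : ℝ := min (r / 2) (min (2 * Real.pi * η) (1 / (20 * (C + 1)))) with hRdef
  have hR : 0 < R := by
    refine lt_min (by positivity) (lt_min (by positivity) (by positivity))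
  have hRr : R < r := (min_le_left _ _).trans_lt (by linarith)
  have hRη : R ≤ 2 * Real.pi * η := (min_le_right _ _).trans (min_le_left _ _)
  have hRC : R ≤ 1 / (20 * (C + 1)) := (min_le_right _ _).trans (min_le_right _ _)
  have hCR : C * R ≤ 1 / 20 := by
    rw [le_div_iff₀ (by positivity)] at hRC
    nlinarith
  have step : ∀ T, T₀ ≤ T → T ≤ D.Y → (∃ B : ℝ, ∀ m : ℕ, ‖s m‖ ≤ B * Real.exp (m * T)) →
      ∃ B : ℝ, ∀ m : ℕ, ‖s m‖ ≤ B * Real.exp (m * (T - R / 20)) := by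
    rintro T hT hTY ⟨B, hB⟩
    have hB0 := nonneg hB
    have hA0 := nonneg h₁
    have hB' : ∀ m : ℕ, ‖s m‖ ≤ max A B * Real.exp (m * T) := fun m =>
      (hB m).trans (mul_le_mul_of_nonneg_right (le_max_right _ _) (Real.exp_pos _).le)
    have hA' : ∀ m : ℕ, ‖s (-m)‖ ≤ max A B * Real.exp (-(m * D.Y)) := fun m =>
      (h₂ m).trans (mul_le_mul_of_nonneg_right (le_max_left _ _) (Real.exp_pos _).le)
    have hmax0 : 0 ≤ max A B := hA0.trans (le_max_left _ _)
    have hg := hgrow T (max A B) s hT hTY hmax0 hB' hA'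
    refine ⟨max B (3 * (C * max A B) * (20 / R)), fun m => ?_⟩
    rcases Nat.eq_zero_or_pos m with rfl | hm
    · have h0 := hB 0
      simp only [Nat.cast_zero, zero_mul, Real.exp_zero, mul_one] at h0 ⊢
      exact h0.trans (le_max_left _ _)
    · obtain ⟨_, hd, hb⟩ := hg m hm
      have := D.subexp_point (T₀ := T₀) hv hR hRr hr hRη hC hmax0 hCR hm hd hb
      exact this.trans (mul_le_mul_of_nonneg_right (le_max_right _ _) (Real.exp_pos _).le)
  rcases le_total D.Y T₀ with hY | hY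
  · exact mono hY ⟨A, h₁⟩
  have iter : ∀ k : ℕ, ∃ B : ℝ, ∀ m : ℕ, ‖s m‖ ≤ B *
      Real.exp (m * max T₀ (D.Y - k * (R / 20))) := by
    intro k
    induction k with
    | zero =>
      refine mono ?_ ⟨A, h₁⟩
      simp
    | succ k ih =>
      have hκ : 0 < R / 20 := by positivity
      have h1 : max T₀ (D.Y - k * (R / 20)) ≤ D.Y := by
        refine max_le hY ?_
        have : (0 : ℝ) ≤ k * (R / 20) := by positivity
        linarith
      refine mono ?_ (step _ (le_max_left _ _) h1 ih)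
      rcases le_total T₀ (D.Y - k * (R / 20)) with h | h
      · rw [max_eq_right h]
        refine le_trans (le_of_eq ?_) (le_max_right _ _)
        push_cast
        ring
      · rw [max_eq_left h]
        refine le_trans ?_ (le_max_left _ _)
        linarith
  obtain ⟨k, hk⟩ := exists_nat_gt ((D.Y - T₀) / (R / 20))
  have hk' : D.Y - k * (R / 20) ≤ T₀ := by
    rw [div_lt_iff₀ (by positivity)] at hk
    linarith
  have := iter k
  rwa [max_eq_left hk'] at this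

end CData

end LSB
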