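import Pool.Agent.LSB.CEven
import Pool.Agent.LSB.CSubexp
import Pool.Agent.LSB.CSubexp

/-!
# Part C, module CTop: the abstract kernel theorem

Paper proof.  For a bounded sequence `c` with `c(-m)=conj(c m)` and the vanishing property put `s m=c m·e^{mY}`.  `InV_of_bounded`:
`subexp` gives `pos`; `‖s(-m)‖=‖s m‖e^{-2mY}` gives `neg`.  `InV_sum`: closed under real linear combinations for `η` small: the
sums in `Vanish` are absolutely convergent by `St_eq_tsum` (shrink `η` with `InV.mono`), growth conditions: finite sums.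
`gfun` of the combination is the combination of the `gfun`s on `Ell(2Y)∖segm 1` (`gfun_summable`).
Given six sequences: residues `(A_i,B_i,c_i(0))∈ℂ×ℂ×ℝ` (`poles`; `c_i(0)` is real), a real vector space of dimension `5`, so there
is `t≠0` with `∑t_iA_i=∑t_iB_i=0`, `∑t_ic_i(0)=0`.  For `c=∑t_ic_i`, `s=∑t_is_i`: `gfun s` equals `∑t_i g₁ⁱ` near `1`, `∑t_i g₂ⁱ` near `-1`,
so `coeff_even`: `s(-m)=s m`, `‖c m‖e^{-mY}=‖c m‖e^{mY}`, so `c m=0` for `m≠0`, and `c 0=0`.
-/

namespace LSB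

open Complex Metric

theorem norm_ofReal_exp (x : ℝ) : ‖((Real.exp x : ℝ) : ℂ)‖ = Real.exp x := by
  rw [Complex.norm_real, Real.norm_eq_abs, abs_of_pos (Real.exp_pos x)]

theorem InV_of_bounded {D : CData} {η : ℝ} (hη : 0 < η) {c : ℤ → ℂ} (hc : ∃ C, ∀ m, ‖c m‖ ≤ C)
    (hreal : ∀ m, c (-m) = starRingEnd ℂ (c m))
    (hv : D.Vanish η (fun m => c m * Real.exp (m * D.Y))) :
    InV D η (fun m => c m * Real.exp (m * D.Y)) := by
  obtain ⟨C, hC⟩ := hc
  have hnc : ∀ m, ‖c (-m)‖ = ‖c m‖ := by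
    intro m
    rw [hreal m]
    exact RCLike.norm_conj _
  have hpos : ∀ T : ℝ, 0 < T → ∃ A' : ℝ, ∀ m : ℕ,
      ‖c (m : ℤ) * ((Real.exp (((m : ℤ) : ℝ) * D.Y) : ℝ) : ℂ)‖ ≤ A' * Real.exp (m * T) := by
    apply D.subexp hη (s := fun m => c m * ((Real.exp ((m : ℝ) * D.Y) : ℝ) : ℂ)) (A := C) ?_ ?_ hv
    · intro m
      show ‖c (m : ℤ) * ((Real.exp (((m : ℤ) : ℝ) * D.Y) : ℝ) : ℂ)‖ ≤ C * Real.exp (m * D.Y)
      rw [norm_mul, norm_ofReal_exp, Int.cast_natCast]
      exact mul_le_mul_of_nonneg_right (hC _) (Real.exp_pos _).le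
    · intro m
      show ‖c (-(m : ℤ)) * ((Real.exp (((-(m : ℤ) : ℤ) : ℝ) * D.Y) : ℝ) : ℂ)‖ ≤
        C * Real.exp (-(m * D.Y))
      rw [norm_mul, norm_ofReal_exp, Int.cast_neg, Int.cast_natCast, neg_mul]
      exact mul_le_mul_of_nonneg_right (hC _) (Real.exp_pos _).le
  refine ⟨hpos, ?_, hv⟩
  intro T hT
  obtain ⟨A, hA⟩ := hpos (2 * D.Y - T) (by linarith)
  refine ⟨A, ?_⟩
  intro m
  show ‖c (-(m : ℤ)) * ((Real.exp (((-(m : ℤ) : ℤ) : ℝ) * D.Y) : ℝ) : ℂ)‖ ≤
    A * Real.exp (-(m * T))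
  have h1 := hA m
  rw [norm_mul, norm_ofReal_exp, Int.cast_natCast] at h1
  rw [norm_mul, norm_ofReal_exp, Int.cast_neg, Int.cast_natCast, neg_mul, hnc]
  have h2 : Real.exp (-(m * D.Y)) = Real.exp (m * D.Y) * Real.exp (-(2 * m * D.Y)) := by
    rw [← Real.exp_add]; congr 1; ring
  have h3 : Real.exp (-(m * T)) = Real.exp (m * (2 * D.Y - T)) * Real.exp (-(2 * m * D.Y)) := by
    rw [← Real.exp_add]; congr 1; ring
  rw [h2, h3, ← mul_assoc, ← mul_assoc]
  exact mul_le_mul_of_nonneg_right h1 (Real.exp_pos _).le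

theorem norm_sum_le_aux {ι : Type} [Fintype ι] (t : ι → ℝ) (x : ι → ℂ) (A : ι → ℝ) (e : ℝ)
    (h : ∀ i, ‖x i‖ ≤ A i * e) : ‖∑ i, (t i : ℂ) * x i‖ ≤ (∑ i, |t i| * A i) * e := by
  refine (norm_sum_le _ _).trans ?_
  rw [Finset.sum_mul]
  apply Finset.sum_le_sum
  intro i _
  rw [norm_mul, Complex.norm_real, Real.norm_eq_abs, mul_assoc]
  exact mul_le_mul_of_nonneg_left (h i) (abs_nonneg _)

theorem exists_pos_le {ι : Type} [Fintype ι] (r : ι → ℝ) (hr : ∀ i, 0 < r i) :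
    ∃ r' > 0, ∀ i, r' ≤ r i := by
  obtain ⟨M, hM⟩ := (Set.finite_range (fun i => 1 / r i)).bddAbove
  refine ⟨1 / (|M| + 1), by positivity, ?_⟩
  intro i
  have h1 : 1 / r i ≤ M := hM ⟨i, rfl⟩
  have h2 : 1 / r i ≤ |M| + 1 := h1.trans ((le_abs_self M).trans (by linarith))
  rw [div_le_iff₀ (by positivity)]
  rw [div_le_iff₀ (hr i)] at h2
  linarith

theorem InV_sum {D : CData} {η : ℝ} (hη : 0 < η) {ι : Type} [Fintype ι] {s : ι → ℤ → ℂ}
    (hs : ∀ i, InV D η (s i)) : ∃ η' > 0, ∀ t : ι → ℝ, InV D η' (fun m => ∑ i, (t i : ℂ) * s i m) := by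
  have h1 : ∀ i, ∃ r > 0, ∀ (n : ℤ) (ϖ : ℂ), ‖ϖ‖ < r →
    Summable (fun m : ℤ => s i m * D.X n m ϖ D.Y) := by
    intro i
    obtain ⟨r, hr, h⟩ := St_eq_tsum (hs i)
    exact ⟨r, hr, fun n ϖ hϖ => (h n ϖ hϖ).1⟩
  choose r hr hsum using h1
  obtain ⟨r', hr', hrr⟩ := exists_pos_le r hr
  refine ⟨min η (r' / 4), lt_min hη (by positivity), ?_⟩
  intro t
  refine ⟨?_, ?_, ?_⟩
  · intro T hT
    choose A hA using fun i => (hs i).pos T hT
    exact ⟨_, fun m => norm_sum_le_aux t (fun i => s i m) A _ (fun i => hA i m)⟩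
  · intro T hT
    choose A hA using fun i => (hs i).neg T hT
    exact ⟨_, fun m => norm_sum_le_aux t (fun i => s i (-m)) A _ (fun i => hA i m)⟩
  · intro n p hp hpn
    have hn : 0 < n := by
      rcases Nat.eq_zero_or_pos n with h0 | h0
      · subst h0
        rw [Nat.cast_zero, mul_zero] at hpn
        have : (0 : ℝ) < p := by exact_mod_cast hp
        linarith
      · exact h0
    have hn' : (0 : ℝ) < n := by exact_mod_cast hn
    have hnorm : ∀ i, ‖((Real.pi : ℂ) * p / n)‖ < r i := by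
      intro i
      rw [norm_div, norm_mul, Complex.norm_real, Complex.norm_natCast, Complex.norm_natCast,
        Real.norm_eq_abs, abs_of_pos Real.pi_pos, div_lt_iff₀ hn']
      have e1 : (p : ℝ) ≤ r' / 4 * n :=
        hpn.trans (mul_le_mul_of_nonneg_right (min_le_right _ _) hn'.le)
      have e2 : Real.pi * p ≤ Real.pi * (r' / 4 * n) :=
        mul_le_mul_of_nonneg_left e1 Real.pi_pos.le
      have e3 : Real.pi * (r' / 4 * n) < 4 * (r' / 4 * n) :=
        mul_lt_mul_of_pos_right Real.pi_lt_four (by positivity)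
      have e4 : r' * n ≤ r i * n := mul_le_mul_of_nonneg_right (hrr i) hn'.le
      linarith
    have hterm : ∀ m : ℤ, (∑ i, (t i : ℂ) * s i m) * D.X n m (Real.pi * p / n) D.Y =
        ∑ i, (t i : ℂ) * (s i m * D.X n m (Real.pi * p / n) D.Y) := by
      intro m
      rw [Finset.sum_mul]
      exact Finset.sum_congr rfl fun i _ => by ring
    calc ∑' m : ℤ, (∑ i, (t i : ℂ) * s i m) * D.X n m (Real.pi * p / n) D.Y
        = ∑' m : ℤ, ∑ i, (t i : ℂ) * (s i m * D.X n m (Real.pi * p / n) D.Y) :=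
          tsum_congr hterm
      _ = ∑ i, ∑' m : ℤ, (t i : ℂ) * (s i m * D.X n m (Real.pi * p / n) D.Y) := by
          apply Summable.tsum_finsetSum
          intro i _
          exact (hsum i n _ (hnorm i)).mul_left _
      _ = 0 := by
          apply Finset.sum_eq_zero
          intro i _
          rw [tsum_mul_left]
          have := (hs i).van n p hp (hpn.trans
            (mul_le_mul_of_nonneg_right (min_le_left _ _) hn'.le))
          rw [this, mul_zero]

/-- Abstract kernel theorem: the space has real dimension at most five. -/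
theorem abstract_kernel (D : CData) {η : ℝ} (hη : 0 < η) (c : Fin 6 → ℤ → ℂ)
    (hc : ∀ i, ∃ C, ∀ m, ‖c i m‖ ≤ C) (hreal : ∀ i m, c i (-m) = starRingEnd ℂ (c i m))
    (hv : ∀ i, D.Vanish η (fun m => c i m * Real.exp (m * D.Y))) :
    ∃ t : Fin 6 → ℝ, t ≠ 0 ∧ ∀ m : ℤ, ∑ i, (t i : ℂ) * c i m = 0 := by
  have hs : ∀ i, InV D η (fun m => c i m * Real.exp (m * D.Y)) :=
    fun i => InV_of_bounded hη (hc i) (hreal i) (hv i)
  choose A B ρ hρ g₁ g₂ hg₁ hg₂ h₁ h₂ using fun i => poles hη (hs i)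
  obtain ⟨η', hη', hsum⟩ := InV_sum hη hs
  -- a nontrivial relation
  let f : (Fin 6 → ℝ) →ₗ[ℝ] (ℂ × ℂ × ℝ) :=
    { toFun := fun t => (∑ i, (t i : ℂ) * A i, ∑ i, (t i : ℂ) * B i, ∑ i, t i * (c i 0).re)
      map_add' := by
        intro x y
        simp only [Pi.add_apply, Complex.ofReal_add, add_mul, Finset.sum_add_distrib,
          Prod.mk_add_mk]
      map_smul' := by
        intro a x
        simp only [Pi.smul_apply, smul_eq_mul, Complex.ofReal_mul, RingHom.id_apply,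
          Prod.smul_mk, Finset.smul_sum, Complex.real_smul, mul_assoc, Finset.mul_sum] }
  have hker : f.ker ≠ ⊥ := by
    apply LinearMap.ker_ne_bot_of_finrank_lt
    rw [Module.finrank_prod, Module.finrank_prod, Complex.finrank_real_complex,
      Module.finrank_self, Module.finrank_fin_fun]
    norm_num
  obtain ⟨t, ht, ht0⟩ := (Submodule.ne_bot_iff _).1 hker
  rw [LinearMap.mem_ker] at ht
  have hA : ∑ i, (t i : ℂ) * A i = 0 := congrArg Prod.fst ht
  have hB : ∑ i, (t i : ℂ) * B i = 0 := congrArg (fun x => x.2.1) ht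
  have hC : ∑ i, t i * (c i 0).re = 0 := congrArg (fun x => x.2.2) ht
  refine ⟨t, ht0, ?_⟩
  have hs' := hsum t
  set s' : ℤ → ℂ := fun m => ∑ i, (t i : ℂ) * (c i m * Real.exp (m * D.Y)) with hs'def
  have hY2 : 0 < 2 * D.Y := by have := D.Y_pos; linarith
  -- the radius
  obtain ⟨ρ', hρ', hρρ⟩ := exists_pos_le ρ hρ
  have h1E : (1 : ℂ) ∈ Ell (2 * D.Y) := segm_subset_Ell hY2 ⟨by simp, by simp⟩
  have h2E : (-1 : ℂ) ∈ Ell (2 * D.Y) := segm_subset_Ell hY2 ⟨by simp, by simp⟩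
  obtain ⟨ε₁, hε₁, hE₁⟩ := Metric.isOpen_iff.1 (isOpen_Ell (2 * D.Y)) 1 h1E
  obtain ⟨ε₂, hε₂, hE₂⟩ := Metric.isOpen_iff.1 (isOpen_Ell (2 * D.Y)) (-1) h2E
  set ρ₀ : ℝ := min ρ' (min ε₁ ε₂) with hρ₀
  have hρ₀pos : 0 < ρ₀ := lt_min hρ' (lt_min hε₁ hε₂)
  have hgs : ∀ w ∈ Ell (2 * D.Y), w ∉ segm 1 → gfun s' w =
      ∑ i, (t i : ℂ) * gfun (fun m => c i m * Real.exp (m * D.Y)) w := by
    intro w hw hw'
    unfold gfun
    have e1 : ∀ m : ℤ, s' m * Jou w ^ m =
        ∑ i, (t i : ℂ) * (c i m * Real.exp (m * D.Y) * Jou w ^ m) := by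
      intro m
      rw [hs'def]
      show (∑ i, (t i : ℂ) * (c i m * Real.exp (m * D.Y))) * Jou w ^ m = _
      rw [Finset.sum_mul]
      exact Finset.sum_congr rfl fun i _ => by ring
    rw [tsum_congr e1, Summable.tsum_finsetSum]
    · exact Finset.sum_congr rfl fun i _ => tsum_mul_left
    · intro i _
      exact (gfun_summable (hs i) hw hw').mul_left _
  have hball₁ : ∀ i, Metric.ball (1 : ℂ) ρ₀ ⊆ Metric.ball 1 (ρ i) := fun i =>
    Metric.ball_subset_ball ((min_le_left _ _).trans (hρρ i))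
  have hball₂ : ∀ i, Metric.ball (-1 : ℂ) ρ₀ ⊆ Metric.ball (-1) (ρ i) := fun i =>
    Metric.ball_subset_ball ((min_le_left _ _).trans (hρρ i))
  have hevenS : ∀ m : ℤ, s' (-m) = s' m := by
    apply coeff_even hη' hs' hρ₀pos (g₁ := fun w => ∑ i, (t i : ℂ) * g₁ i w)
      (g₂ := fun w => ∑ i, (t i : ℂ) * g₂ i w)
    · apply DifferentiableOn.fun_sum
      intro i _
      exact (differentiableOn_const _).mul ((hg₁ i).mono (hball₁ i))
    · apply DifferentiableOn.fun_sum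
      intro i _
      exact (differentiableOn_const _).mul ((hg₂ i).mono (hball₂ i))
    · intro w hw
      have hwE : w ∈ Ell (2 * D.Y) := hE₁ (Metric.ball_subset_ball
        ((min_le_right _ _).trans (min_le_left _ _)) hw.1)
      rw [hgs w hwE hw.2]
      have e1 : ∀ i, (t i : ℂ) * gfun (fun m => c i m * Real.exp (m * D.Y)) w =
          (t i : ℂ) * A i * (1 / (w - 1)) + (t i : ℂ) * g₁ i w := by
        intro i
        rw [h₁ i w ⟨hball₁ i hw.1, hw.2⟩]
        ring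
      rw [Finset.sum_congr rfl fun i _ => e1 i, Finset.sum_add_distrib, ← Finset.sum_mul, hA]
      ring
    · intro w hw
      have hwE : w ∈ Ell (2 * D.Y) := hE₂ (Metric.ball_subset_ball
        ((min_le_right _ _).trans (min_le_right _ _)) hw.1)
      rw [hgs w hwE hw.2]
      have e1 : ∀ i, (t i : ℂ) * gfun (fun m => c i m * Real.exp (m * D.Y)) w =
          (t i : ℂ) * B i * (1 / (w + 1)) + (t i : ℂ) * g₂ i w := by
        intro i
        rw [h₂ i w ⟨hball₂ i hw.1, hw.2⟩]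
        ring
      rw [Finset.sum_congr rfl fun i _ => e1 i, Finset.sum_add_distrib, ← Finset.sum_mul, hB]
      ring
  set c' : ℤ → ℂ := fun m => ∑ i, (t i : ℂ) * c i m with hc'
  have hsc : ∀ m : ℤ, s' m = c' m * Real.exp (m * D.Y) := by
    intro m
    rw [hs'def, hc']
    show (∑ i, (t i : ℂ) * (c i m * Real.exp (m * D.Y))) = (∑ i, (t i : ℂ) * c i m) * _
    rw [Finset.sum_mul]
    exact Finset.sum_congr rfl fun i _ => by ring
  have hconj : ∀ m : ℤ, c' (-m) = starRingEnd ℂ (c' m) := by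
    intro m
    rw [hc']
    show (∑ i, (t i : ℂ) * c i (-m)) = starRingEnd ℂ (∑ i, (t i : ℂ) * c i m)
    rw [map_sum]
    exact Finset.sum_congr rfl fun i _ => by rw [hreal i m, map_mul, Complex.conj_ofReal]
  intro m
  show c' m = 0
  rcases eq_or_ne m 0 with h0 | h0
  · subst h0
    have e1 : starRingEnd ℂ (c' 0) = c' 0 := by
      have := hconj 0
      rw [neg_zero] at this
      exact this.symm
    have e2 : (c' 0).re = 0 := by
      rw [hc']
      show (∑ i, (t i : ℂ) * c i 0).re = 0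
      rw [Complex.re_sum, ← hC]
      exact Finset.sum_congr rfl fun i _ => Complex.re_ofReal_mul _ _
    have e3 : (c' 0).im = 0 := Complex.conj_eq_iff_im.1 e1
    exact Complex.ext e2 e3
  · have e1 := hevenS m
    rw [hsc, hsc] at e1
    have e2 := congrArg norm e1
    rw [norm_mul, norm_mul, norm_ofReal_exp, norm_ofReal_exp, hconj, RCLike.norm_conj] at e2
    have hne : Real.exp (((-m : ℤ) : ℝ) * D.Y) ≠ Real.exp ((m : ℝ) * D.Y) := by
      intro h
      rw [Real.exp_eq_exp, Int.cast_neg] at h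
      have h' : ((m : ℝ) * D.Y) = 0 := by linarith
      rcases mul_eq_zero.1 h' with h'' | h''
      · exact h0 (by exact_mod_cast h'')
      · exact D.Y_pos.ne' h''
    have e3 : ‖c' m‖ * (Real.exp (((-m : ℤ) : ℝ) * D.Y) - Real.exp ((m : ℝ) * D.Y)) = 0 := by
      rw [mul_sub, e2, sub_self]
    rcases mul_eq_zero.1 e3 with h | h
    · exact norm_eq_zero.1 h
    · exact absurd (sub_eq_zero.1 h) hne

end LSB
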