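import Pool.Agent.LSB.CPole

/-!
# Part C, module CTwist: both poles

Paper proof.  `InV_twist`: `(-1)^m X n m=(-1)^n X n m` by `X_parity` at the real points `πp/n` (for these `‖πp/n‖<r₀` if `η` is small;
shrink `η` first: `InV` is monotone in `η`).  So the twisted sums vanish too; the growth conditions are unchanged.
`poles`: `exists_relData`+`pole_one` for `s` and for the twisted sequence; `gfun_twist`: `gfun s w=gfun s'(-w)`, so near `-1`:
`gfun s w=A'/(-w-1)+g₁'(-w)`.
-/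

namespace LSB

open Complex Metric

variable {D : CData} {η : ℝ} {s : ℤ → ℂ}

theorem InV.mono {η' : ℝ} (hs : InV D η s) (h : η' ≤ η) : InV D η' s where
  pos := hs.pos
  neg := hs.neg
  van := fun n p hp hpn => hs.van n p hp
    (hpn.trans (mul_le_mul_of_nonneg_right h (Nat.cast_nonneg n)))

theorem norm_twist (s : ℤ → ℂ) (m : ℤ) : ‖(-1 : ℂ) ^ m * s m‖ = ‖s m‖ := by
  rw [norm_mul, norm_zpow, norm_neg, norm_one, one_zpow, one_mul]

theorem InV.twist (hη : 0 < η) (hη' : 4 * η < D.r₀) (hs : InV D η s) :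
    InV D η (fun m => (-1) ^ m * s m) where
  pos := by
    intro T hT
    obtain ⟨A, hA⟩ := hs.pos T hT
    refine ⟨A, fun m => ?_⟩
    rw [norm_twist]
    exact hA m
  neg := by
    intro T hT
    obtain ⟨A, hA⟩ := hs.neg T hT
    refine ⟨A, fun m => ?_⟩
    rw [norm_twist]
    exact hA m
  van := by
    intro n p hp hpn
    have hn : (0 : ℝ) < n := by
      have h1 : (0 : ℝ) < p := by exact_mod_cast hp
      by_contra hc
      have h2 : η * n ≤ 0 := mul_nonpos_of_nonneg_of_nonpos hη.le (not_lt.1 hc)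
      linarith
    have hϖ : ((Real.pi : ℂ) * p / n) = ((Real.pi * p / n : ℝ) : ℂ) := by push_cast; ring
    have him : ((Real.pi : ℂ) * p / n).im = 0 := by rw [hϖ, ofReal_im]
    have hnorm : ‖((Real.pi : ℂ) * p / n)‖ < D.r₀ := by
      rw [hϖ, norm_real, Real.norm_of_nonneg (by positivity), div_lt_iff₀ hn]
      have h3 : Real.pi < 4 := Real.pi_lt_four
      have h4 : Real.pi * p ≤ 4 * (η * n) := by
        have := Real.pi_pos
        have h5 : (0 : ℝ) ≤ p := Nat.cast_nonneg p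
        nlinarith
      have h6 : 4 * (η * n) < D.r₀ * n := by
        rw [← mul_assoc]
        exact mul_lt_mul_of_pos_right hη' hn
      linarith
    have key : ∀ m : ℤ, (-1 : ℂ) ^ m * s m * D.X n m (Real.pi * p / n) D.Y =
        (-1 : ℂ) ^ (n : ℤ) * (s m * D.X n m (Real.pi * p / n) D.Y) := by
      intro m
      rcases Int.even_or_odd ((n : ℤ) - m) with h | h
      · have e : (-1 : ℂ) ^ (n : ℤ) = (-1 : ℂ) ^ m := by
          have e2 : (n : ℤ) = (n - m) + m := by ring
          rw [e2, zpow_add₀ (by norm_num : (-1 : ℂ) ≠ 0), h.neg_one_zpow, one_mul]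
        rw [e]
        ring
      · have hX : D.X n m (Real.pi * p / n) D.Y = 0 := by
          apply D.X_parity h hnorm _ D.Y_lt
          rw [him, abs_zero, mul_zero]
          exact D.Y_pos
        rw [hX]
        ring
    simp only [key]
    rw [tsum_mul_left, hs.van n p hp hpn, mul_zero]

/-- Both singularities are at most simple poles. -/
theorem poles (hη : 0 < η) (hs : InV D η s) : ∃ A B : ℂ, ∃ ρ > 0, ∃ g₁ g₂ : ℂ → ℂ,
    DifferentiableOn ℂ g₁ (ball 1 ρ) ∧ DifferentiableOn ℂ g₂ (ball (-1) ρ) ∧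
      (∀ w ∈ ball (1 : ℂ) ρ \ segm 1, gfun s w = A / (w - 1) + g₁ w) ∧
      ∀ w ∈ ball (-1 : ℂ) ρ \ segm 1, gfun s w = B / (w + 1) + g₂ w := by
  have hr := D.r₀_pos
  have hη₁ : 0 < min η (D.r₀ / 5) := lt_min hη (by linarith)
  have hη₂ : 4 * min η (D.r₀ / 5) < D.r₀ := by
    have := min_le_right η (D.r₀ / 5)
    linarith
  have hs1 : InV D (min η (D.r₀ / 5)) s := hs.mono (min_le_left _ _)
  have hs2 := hs1.twist hη₁ hη₂
  obtain ⟨R, hR⟩ := exists_relData hη₁ hs1
  obtain ⟨A, ρ, hρ, g₁, hg₁, h₁⟩ := pole_one R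
  obtain ⟨R', hR'⟩ := exists_relData hη₁ hs2
  obtain ⟨A', ρ', hρ', g₁', hg₁', h₁'⟩ := pole_one R'
  rw [hR] at h₁
  rw [hR'] at h₁'
  have hY : 0 < 2 * D.Y := by have := D.Y_pos; linarith
  obtain ⟨ε, hε, hball⟩ := Metric.isOpen_iff.1 (isOpen_Ell (2 * D.Y)) 1
    (segm_subset_Ell hY ⟨by simp, by simp⟩)
  have hneg : ∀ r : ℝ, ∀ w ∈ ball (-1 : ℂ) r, -w ∈ ball (1 : ℂ) r := by
    intro r w hw
    rw [mem_ball, dist_eq_norm] at hw ⊢
    rw [show -w - 1 = -(w - -1) by ring, norm_neg]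
    exact hw
  have hseg : ∀ w : ℂ, w ∉ segm 1 → -w ∉ segm 1 := by
    intro w hw h
    apply hw
    obtain ⟨a, b⟩ := h
    refine ⟨by simpa using a, by simpa using b⟩
  refine ⟨A, -A', min ρ (min ρ' ε), lt_min hρ (lt_min hρ' hε), g₁, fun w => g₁' (-w),
    hg₁.mono (ball_subset_ball (min_le_left _ _)), ?_, ?_, ?_⟩
  · refine hg₁'.comp (differentiableOn_neg _) ?_
    intro w hw
    exact hneg ρ' w (ball_subset_ball ((min_le_right _ _).trans (min_le_left _ _)) hw)
  · intro w hw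
    exact h₁ w ⟨ball_subset_ball (min_le_left _ _) hw.1, hw.2⟩
  · intro w hw
    have hw1 : -w ∈ ball (1 : ℂ) ρ' :=
      hneg ρ' w (ball_subset_ball ((min_le_right _ _).trans (min_le_left _ _)) hw.1)
    have hw2 : -w ∈ ball (1 : ℂ) ε :=
      hneg ε w (ball_subset_ball ((min_le_right _ _).trans (min_le_right _ _)) hw.1)
    have hw3 := hseg w hw.2
    have e := gfun_twist hs1 (hball hw2) hw3
    rw [neg_neg] at e
    rw [← e, h₁' (-w) ⟨hw1, hw3⟩]
    congr 1
    rw [show -w - 1 = -(w + 1) by ring, div_neg, neg_div]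

end LSB
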