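import Pool.Agent.LSB.CData

/-!
# Part C, module CX: elementary properties of the matrix entries `X D n m ϖ y`

Paper proof.  `c_notMem`: contrapositive of `im_le`.  `X_eq_line`: `α↦Jou(c ϖ α)^m` is differentiable (chain rule; `Jou≠0` for
negative `m`) and `2π`-periodic (`shift` twice) on the strip `9/8|Im ϖ|<Im α<Y₁`; use `lineCoef_eq`.
`X_zero`: `c 0 α=cos α`, `Jou(cos α)=e^{iα}`, orthogonality.  `X_neg`: `even₁`.  `X_conj`: `conj(Jou(c(ϖ,x+iy)))=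
Jou(c(conj ϖ,x-iy))=Jou(c(conj ϖ,-x+iy))`; substitute `x→-x` and use periodicity of the integrand over `[-2π,0]`→`[0,2π]`.
`X_parity`: `Jou(c(ϖ,α+π))=-Jou(c(ϖ,α))`; shift the period integral by `π`: `X=(-1)^{m-n}X`.
`X_differentiableOn`: `differentiableOn_lineCoef`.
`X_bound`: let `α` with `y=Im α≥y₀`, `c(ϖ,α)=cos z`, `v=Im z>0` (`exists_cos_eq`), `|Jou(c)|=e^{-v}`.
`norm_cos_sub_add_norm_cos_add` and `quad`: `|cosh v-cosh y|≤C₀‖ϖ‖²`.  For `r` small `cosh v≥cosh y₀-C₀r²≥cosh(y₀/2)`, so `v≥y₀/2`,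
and by the mean value theorem `|v-y|≤C₀‖ϖ‖²/sinh(y₀/2)`; take `C=C₀/sinh(y₀/2)`; conclude with `norm_lineCoef_le`.
-/

namespace LSB

open Complex Metric

theorem lineCoef_congr {F G : ℂ → ℂ} {y : ℝ} (h : ∀ x : ℝ, F (x + y * I) = G (x + y * I)) (n : ℤ) :
    lineCoef F n y = lineCoef G n y := by
  rw [lineCoef, lineCoef]
  congr 1
  refine intervalIntegral.integral_congr fun x _ => ?_
  simp only [h x]

theorem im_line (x y : ℝ) : ((x : ℂ) + y * I).im = y := by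
  simp

theorem cosh_sub_ge {u v : ℝ} (hu : 0 ≤ u) (huv : u ≤ v) :
    Real.sinh u * (v - u) ≤ Real.cosh v - Real.cosh u := by
  have h1 : Real.cosh v = Real.cosh u * Real.cosh (v - u) + Real.sinh u * Real.sinh (v - u) := by
    rw [← Real.cosh_add]
    congr 1
    ring
  have h2 : v - u ≤ Real.sinh (v - u) := Real.self_le_sinh_iff.2 (by linarith)
  have h3 : 1 ≤ Real.cosh (v - u) := Real.one_le_cosh _
  have h4 : 0 ≤ Real.sinh u := Real.sinh_nonneg_iff.2 hu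
  have h5 : 0 < Real.cosh u := Real.cosh_pos u
  nlinarith [mul_le_mul_of_nonneg_left h2 h4, mul_le_mul_of_nonneg_left h3 h5.le]

namespace CData

variable (D : CData)

theorem c_notMem {ϖ α : ℂ} (hϖ : ‖ϖ‖ < D.r₀) (h₁ : 9 / 8 * |ϖ.im| < α.im) (h₂ : α.im < D.Y₁) :
    D.c ϖ α ∉ segm 1 := by
  intro h
  have h3 : 0 ≤ 9 / 8 * |ϖ.im| := by positivity
  have h4 : |α.im| = α.im := abs_of_pos (by linarith)
  have h5 := D.im_le ϖ α hϖ (by rw [h4]; exact h₂) h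
  rw [h4] at h5
  linarith

theorem c_periodic {ϖ α : ℂ} (hϖ : ‖ϖ‖ < D.r₀) (h : |α.im| < D.Y₁) :
    D.c ϖ (α + 2 * Real.pi) = D.c ϖ α := by
  have h1 : (α + Real.pi).im = α.im := by simp
  have h2 := D.shift ϖ (α + Real.pi) hϖ (by rw [h1]; exact h)
  rw [D.shift ϖ α hϖ h, neg_neg] at h2
  rw [← h2]
  congr 1
  ring

theorem differentiableAt_c {ϖ α : ℂ} (hϖ : ‖ϖ‖ < D.r₀) (h : |α.im| < D.Y₁) :
    DifferentiableAt ℂ (fun p : ℂ × ℂ => D.c p.1 p.2) (ϖ, α) := by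
  have hopen : IsOpen {p : ℂ × ℂ | ‖p.1‖ < D.r₀ ∧ |p.2.im| < D.Y₁} := by
    refine IsOpen.and ?_ ?_
    · exact isOpen_lt (by fun_prop) continuous_const
    · exact isOpen_lt (continuous_abs.comp (Complex.continuous_im.comp continuous_snd))
        continuous_const
  exact D.diff.differentiableAt (hopen.mem_nhds ⟨hϖ, h⟩)

theorem differentiableAt_Jou {w : ℂ} (hw : w ∉ segm 1) : DifferentiableAt ℂ Jou w :=
  differentiableOn_Jou.differentiableAt ((isClosed_segm 1).isOpen_compl.mem_nhds hw)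

theorem differentiableAt_Jou_c (m : ℤ) {ϖ α : ℂ} (hϖ : ‖ϖ‖ < D.r₀) (h₁ : 9 / 8 * |ϖ.im| < α.im)
    (h₂ : α.im < D.Y₁) :
    DifferentiableAt ℂ (fun p : ℂ × ℂ => Jou (D.c p.1 p.2) ^ m) (ϖ, α) := by
  have h3 : 0 ≤ 9 / 8 * |ϖ.im| := by positivity
  have h4 : |α.im| = α.im := abs_of_pos (by linarith)
  have h5 := D.differentiableAt_c hϖ (α := α) (by rw [h4]; exact h₂)
  have h6 := D.c_notMem hϖ h₁ h₂
  have h7 : DifferentiableAt ℂ (fun p : ℂ × ℂ => Jou (D.c p.1 p.2)) (ϖ, α) :=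
    DifferentiableAt.comp (g := Jou) (f := fun p : ℂ × ℂ => D.c p.1 p.2) (ϖ, α)
      (differentiableAt_Jou h6) h5
  exact h7.zpow (Or.inl (Jou_ne_zero h6))

theorem X_eq_line (n m : ℤ) {ϖ : ℂ} (hϖ : ‖ϖ‖ < D.r₀) {y y' : ℝ}
    (hy : 9 / 8 * |ϖ.im| < y ∧ y < D.Y₁) (hy' : 9 / 8 * |ϖ.im| < y' ∧ y' < D.Y₁) :
    D.X n m ϖ y = D.X n m ϖ y' := by
  refine lineCoef_eq (a := 9 / 8 * |ϖ.im|) (b := D.Y₁) ?_ ?_ n hy hy'
  · intro α hα
    have h1 := D.differentiableAt_Jou_c m hϖ hα.1 hα.2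
    have h2 : DifferentiableAt ℂ (fun α : ℂ => (ϖ, α)) α := by fun_prop
    exact (DifferentiableAt.comp (g := fun p : ℂ × ℂ => Jou (D.c p.1 p.2) ^ m)
      (f := fun α : ℂ => (ϖ, α)) α h1 h2).differentiableWithinAt
  · intro α hα
    have h3 : 0 ≤ 9 / 8 * |ϖ.im| := by positivity
    have h4 : |α.im| = α.im := abs_of_pos (by linarith [hα.1])
    rw [D.c_periodic hϖ (by rw [h4]; exact hα.2)]

theorem X_zero (n m : ℤ) {y : ℝ} (hy : 0 < y) (hy' : y < D.Y₁) :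
    D.X n m 0 y = if n = m then 1 else 0 := by
  have h1 : D.X n m 0 y =
      lineCoef (fun z => ∑' k : ℤ, (if k = m then (1 : ℂ) else 0) * exp (k * I * z)) n y := by
    refine lineCoef_congr (fun x => ?_) n
    have h2 : ((x : ℂ) + y * I).im = y := im_line x y
    rw [D.zero _ (by rw [h2, abs_of_pos hy]; exact hy'), Jou_cos (by rw [h2]; exact hy),
      tsum_eq_single m (fun k hk => by rw [if_neg hk, zero_mul]), if_pos rfl, one_mul,
      ← Complex.exp_int_mul]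
    congr 1
    ring
  rw [h1, lineCoef_tsum]
  refine summable_of_ne_finset_zero (s := {m}) fun k hk => ?_
  rw [Finset.mem_singleton] at hk
  rw [if_neg hk, norm_zero, zero_mul]

theorem X_neg (n m : ℤ) {ϖ : ℂ} (hϖ : ‖ϖ‖ < D.r₀) {y : ℝ} (hy : 0 < y) (hy' : y < D.Y₁) :
    D.X n m (-ϖ) y = D.X n m ϖ y := by
  refine lineCoef_congr (fun x => ?_) n
  have h2 : ((x : ℂ) + y * I).im = y := im_line x y
  rw [D.even₁ ϖ _ hϖ (by rw [h2, abs_of_pos hy]; exact hy')]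

/-- the integrand -/
theorem periodic_integrand (n m : ℤ) {ϖ : ℂ} (hϖ : ‖ϖ‖ < D.r₀) {y : ℝ} (hy : 0 < y)
    (hy' : y < D.Y₁) : Function.Periodic (fun x : ℝ => Jou (D.c ϖ (x + y * I)) ^ m *
      exp (-(n * I * (x + y * I)))) (2 * Real.pi) := by
  intro x
  have h2 : ((x : ℂ) + y * I).im = y := im_line x y
  have h3 : (((x + 2 * Real.pi : ℝ) : ℂ) + y * I) = ((x : ℂ) + y * I) + 2 * Real.pi := by
    push_cast
    ring
  simp only
  rw [h3, D.c_periodic hϖ (by rw [h2, abs_of_pos hy]; exact hy')]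
  congr 1
  have h4 : -(n * I * ((x : ℂ) + y * I + 2 * Real.pi)) =
      -(n * I * ((x : ℂ) + y * I)) + ((-n : ℤ) : ℂ) * (2 * Real.pi * I) := by
    push_cast
    ring
  rw [h4, Complex.exp_add, Complex.exp_int_mul_two_pi_mul_I, mul_one]

theorem X_conj (n m : ℤ) {ϖ : ℂ} (hϖ : ‖ϖ‖ < D.r₀) {y : ℝ} (hy : 9 / 8 * |ϖ.im| < y)
    (hy' : y < D.Y₁) : D.X n m (starRingEnd ℂ ϖ) y = starRingEnd ℂ (D.X n m ϖ y) := by
  have hy0 : 0 < y := lt_of_le_of_lt (by positivity) hy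
  have hϖ' : ‖starRingEnd ℂ ϖ‖ < D.r₀ := by
    rw [RCLike.norm_conj]
    exact hϖ
  rw [X, X, lineCoef, lineCoef, map_mul]
  have h1 : starRingEnd ℂ (1 / (2 * Real.pi) : ℂ) = (1 / (2 * Real.pi) : ℂ) := by
    rw [map_div₀, map_one, map_mul, Complex.conj_ofReal, map_ofNat]
  rw [h1]
  congr 1
  rw [← intervalIntegral.intervalIntegral_conj]
  have h2 : ∀ x : ℝ, starRingEnd ℂ (Jou (D.c ϖ (x + y * I)) ^ m * exp (-(n * I * (x + y * I)))) =
      (fun x : ℝ => Jou (D.c (starRingEnd ℂ ϖ) (x + y * I)) ^ m *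
        exp (-(n * I * (x + y * I)))) (-x) := by
    intro x
    have h3 : ((x : ℂ) + y * I).im = y := im_line x y
    have h4 : |((x : ℂ) + y * I).im| < D.Y₁ := by
      rw [h3, abs_of_pos hy0]
      exact hy'
    have h5 : starRingEnd ℂ ((x : ℂ) + y * I) = -(((-x : ℝ) : ℂ) + y * I) := by
      rw [map_add, map_mul, Complex.conj_ofReal, Complex.conj_ofReal, Complex.conj_I]
      push_cast
      ring
    have h6 : |(((-x : ℝ) : ℂ) + y * I).im| < D.Y₁ := by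
      rw [im_line, abs_of_pos hy0]
      exact hy'
    simp only
    rw [map_mul, map_zpow₀, ← Jou_conj (D.c_notMem hϖ (by rw [h3]; exact hy) (by rw [h3]; exact hy')),
      ← D.conj ϖ _ hϖ h4, h5, D.even₂ _ _ hϖ' h6, ← Complex.exp_conj]
    congr 2
    rw [map_neg, map_mul, map_mul, h5, Complex.conj_I, map_intCast]
    ring
  have hper := D.periodic_integrand n m hϖ' hy0 hy'
  rw [intervalIntegral.integral_congr fun x _ => h2 x]
  rw [intervalIntegral.integral_comp_neg (fun x : ℝ => Jou (D.c (starRingEnd ℂ ϖ) (x + y * I)) ^ m *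
        exp (-(n * I * (x + y * I)))), neg_zero]
  have h7 := hper.intervalIntegral_add_eq 0 (-(2 * Real.pi))
  rw [zero_add, neg_add_cancel] at h7
  exact h7

theorem X_parity {n m : ℤ} (hnm : Odd (n - m)) {ϖ : ℂ} (hϖ : ‖ϖ‖ < D.r₀) {y : ℝ}
    (hy : 9 / 8 * |ϖ.im| < y) (hy' : y < D.Y₁) : D.X n m ϖ y = 0 := by
  have hy0 : 0 < y := lt_of_le_of_lt (by positivity) hy
  rw [X, lineCoef]
  have hper := D.periodic_integrand n m hϖ hy0 hy'
  have h1 : ∀ x : ℝ, (fun x : ℝ => Jou (D.c ϖ (x + y * I)) ^ m *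
        exp (-(n * I * (x + y * I)))) (x + Real.pi) =
      -(Jou (D.c ϖ (x + y * I)) ^ m * exp (-(n * I * (x + y * I)))) := by
    intro x
    have h3 : ((x : ℂ) + y * I).im = y := im_line x y
    have h4 : |((x : ℂ) + y * I).im| < D.Y₁ := by
      rw [h3, abs_of_pos hy0]
      exact hy'
    have h5 : (((x + Real.pi : ℝ) : ℂ) + y * I) = ((x : ℂ) + y * I) + Real.pi := by
      push_cast
      ring
    simp only
    rw [h5, D.shift ϖ _ hϖ h4,
      Jou_neg (D.c_notMem hϖ (by rw [h3]; exact hy) (by rw [h3]; exact hy'))]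
    have h6 : -(n * I * ((x : ℂ) + y * I + Real.pi)) =
        -(n * I * ((x : ℂ) + y * I)) + ((-n : ℤ) : ℂ) * (Real.pi * I) := by
      push_cast
      ring
    rw [h6, Complex.exp_add, Complex.exp_int_mul, Complex.exp_pi_mul_I,
      ← neg_one_mul (Jou _), mul_zpow]
    have h7 : (-1 : ℂ) ^ m * (-1 : ℂ) ^ (-n) = -1 := by
      rw [← zpow_add₀ (by norm_num : (-1 : ℂ) ≠ 0)]
      have h8 : Odd (m + -n) := by
        have h9 : m + -n = -(n - m) := by ring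
        rw [h9]
        exact hnm.neg
      exact h8.neg_one_zpow
    calc (-1 : ℂ) ^ m * Jou (D.c ϖ (x + y * I)) ^ m *
          (exp (-(n * I * (x + y * I))) * (-1 : ℂ) ^ (-n)) =
        ((-1 : ℂ) ^ m * (-1 : ℂ) ^ (-n)) * (Jou (D.c ϖ (x + y * I)) ^ m *
          exp (-(n * I * (x + y * I)))) := by ring
      _ = _ := by rw [h7, neg_one_mul]
  have h2 := intervalIntegral.integral_comp_add_right (a := 0) (b := 2 * Real.pi)
    (fun x : ℝ => Jou (D.c ϖ (x + y * I)) ^ m * exp (-(n * I * (x + y * I)))) Real.pi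
  rw [intervalIntegral.integral_congr fun x _ => h1 x, intervalIntegral.integral_neg] at h2
  have h7 := hper.intervalIntegral_add_eq 0 Real.pi
  rw [zero_add] at h7
  have h8 : (0 : ℝ) + Real.pi = Real.pi := zero_add _
  have h9 : 2 * Real.pi + Real.pi = Real.pi + 2 * Real.pi := add_comm _ _
  rw [h8, h9, ← h7] at h2
  have h10 : (∫ x in (0 : ℝ)..(2 * Real.pi), Jou (D.c ϖ (x + y * I)) ^ m *
      exp (-(n * I * (x + y * I)))) = 0 := by
    linear_combination (-1 / 2 : ℂ) * h2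
  rw [h10, mul_zero]

theorem X_differentiableOn (n m : ℤ) {y : ℝ} (hy : 0 < y) (hy' : y < D.Y₁) :
    DifferentiableOn ℂ (fun ϖ => D.X n m ϖ y) {ϖ | ‖ϖ‖ < D.r₀ ∧ 9 / 8 * |ϖ.im| < y} := by
  have hopen : IsOpen {ϖ : ℂ | ‖ϖ‖ < D.r₀ ∧ 9 / 8 * |ϖ.im| < y} := by
    refine IsOpen.and ?_ ?_
    · exact isOpen_lt continuous_norm continuous_const
    · exact isOpen_lt (continuous_const.mul (continuous_abs.comp Complex.continuous_im))
        continuous_const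
  refine differentiableOn_lineCoef hopen n fun ϖ hϖ x => ?_
  exact D.differentiableAt_Jou_c m hϖ.1 (by rw [im_line]; exact hϖ.2) (by rw [im_line]; exact hy')

theorem Jou_c_bound {y₀ : ℝ} (hy₀ : 0 < y₀) : ∃ C r : ℝ, 0 ≤ C ∧ 0 < r ∧ r ≤ D.r₀ ∧
    ∀ ϖ α : ℂ, ‖ϖ‖ < r → y₀ ≤ α.im → α.im < D.Y₁ →
      Real.exp (-α.im - C * ‖ϖ‖ ^ 2) ≤ ‖Jou (D.c ϖ α)‖ ∧
        ‖Jou (D.c ϖ α)‖ ≤ Real.exp (-α.im + C * ‖ϖ‖ ^ 2) := by
  have hC₀ := D.C₀_nonneg
  have hs : 0 < Real.sinh (y₀ / 2) := Real.sinh_pos_iff.2 (by linarith)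
  set δ := Real.cosh y₀ - Real.cosh (y₀ / 2) with hδ
  have hδ0 : 0 < δ := by
    rw [hδ, sub_pos, Real.cosh_lt_cosh, abs_of_pos hy₀, abs_of_pos (by linarith)]
    linarith
  refine ⟨D.C₀ / Real.sinh (y₀ / 2), min (min D.r₀ (y₀ / 2)) (min 1 (δ / (D.C₀ + 1))),
    by positivity, ?_, ?_, ?_⟩
  · have := D.r₀_pos
    refine lt_min (lt_min this (by linarith)) (lt_min one_pos (by positivity))
  · exact (min_le_left _ _).trans (min_le_left _ _)
  · intro ϖ α hϖ hα hα'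
    have hr1 : ‖ϖ‖ < D.r₀ := hϖ.trans_le ((min_le_left _ _).trans (min_le_left _ _))
    have hr2 : ‖ϖ‖ < y₀ / 2 := hϖ.trans_le ((min_le_left _ _).trans (min_le_right _ _))
    have hr3 : ‖ϖ‖ < 1 := hϖ.trans_le ((min_le_right _ _).trans (min_le_left _ _))
    have hr4 : ‖ϖ‖ < δ / (D.C₀ + 1) := hϖ.trans_le ((min_le_right _ _).trans (min_le_right _ _))
    have hn0 : 0 ≤ ‖ϖ‖ := norm_nonneg ϖ
    have him : |ϖ.im| ≤ ‖ϖ‖ := Complex.abs_im_le_norm ϖ
    have hmem := D.c_notMem hr1 (α := α) (by linarith) hα'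
    obtain ⟨z, hz, hzc⟩ := exists_cos_eq hmem
    have hJ : ‖Jou (D.c ϖ α)‖ = Real.exp (-z.im) := by
      rw [← hzc, Jou_cos hz, Complex.norm_exp]
      congr 1
      simp
    have hquad := D.quad ϖ α hr1 (by rw [abs_of_pos (by linarith)]; exact hα')
    have e1 := norm_cos_sub_add_norm_cos_add z
    have e2 := norm_cos_sub_add_norm_cos_add α
    rw [hzc] at e1
    have e3 : |‖D.c ϖ α - 1‖ - ‖cos α - 1‖| ≤ ‖D.c ϖ α - cos α‖ := by
      refine (abs_norm_sub_norm_le _ _).trans (le_of_eq ?_)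
      congr 1
      ring
    have e4 : |‖D.c ϖ α + 1‖ - ‖cos α + 1‖| ≤ ‖D.c ϖ α - cos α‖ := by
      refine (abs_norm_sub_norm_le _ _).trans (le_of_eq ?_)
      congr 1
      ring
    rw [abs_le] at e3 e4
    set E := D.C₀ * ‖ϖ‖ ^ 2 with hE
    have hE0 : 0 ≤ E := by positivity
    have f1 : Real.cosh z.im - Real.cosh α.im ≤ E := by linarith [e3.1, e3.2, e4.1, e4.2]
    have f2 : Real.cosh α.im - Real.cosh z.im ≤ E := by linarith [e3.1, e3.2, e4.1, e4.2]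
    have hEδ : E ≤ δ := by
      have g1 : ‖ϖ‖ ^ 2 ≤ ‖ϖ‖ := by nlinarith
      have g2 : ‖ϖ‖ * (D.C₀ + 1) < δ := by
        rw [lt_div_iff₀ (by linarith)] at hr4
        exact hr4
      nlinarith [mul_le_mul_of_nonneg_left g1 hC₀]
    have hv : y₀ / 2 ≤ z.im := by
      have g1 : Real.cosh y₀ ≤ Real.cosh α.im := by
        rw [Real.cosh_le_cosh, abs_of_pos hy₀, abs_of_pos (by linarith)]
        exact hα
      have g2 : Real.cosh (y₀ / 2) ≤ Real.cosh z.im := by linarith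
      rw [Real.cosh_le_cosh, abs_of_pos hz, abs_of_pos (by linarith)] at g2
      exact g2
    have key : |z.im - α.im| ≤ D.C₀ / Real.sinh (y₀ / 2) * ‖ϖ‖ ^ 2 := by
      have g0 : D.C₀ / Real.sinh (y₀ / 2) * ‖ϖ‖ ^ 2 = E / Real.sinh (y₀ / 2) := by
        rw [hE]
        ring
      rw [g0, le_div_iff₀ hs]
      rcases le_total α.im z.im with hle | hle
      · rw [abs_of_nonneg (by linarith)]
        have g1 := cosh_sub_ge (by linarith : 0 ≤ α.im) hle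
        have g2 : Real.sinh (y₀ / 2) ≤ Real.sinh α.im := Real.sinh_le_sinh.2 (by linarith)
        nlinarith [mul_le_mul_of_nonneg_right g2 (by linarith : 0 ≤ z.im - α.im)]
      · rw [abs_of_nonpos (by linarith)]
        have g1 := cosh_sub_ge hz.le hle
        have g2 : Real.sinh (y₀ / 2) ≤ Real.sinh z.im := Real.sinh_le_sinh.2 hv
        nlinarith [mul_le_mul_of_nonneg_right g2 (by linarith : 0 ≤ α.im - z.im)]
    rw [abs_le] at key
    rw [hJ, Real.exp_le_exp, Real.exp_le_exp]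
    constructor <;> linarith [key.1, key.2]

theorem X_bound {y₀ : ℝ} (hy₀ : 0 < y₀) : ∃ C r : ℝ, 0 ≤ C ∧ 0 < r ∧ r ≤ D.r₀ ∧
    ∀ (n m : ℤ) (ϖ : ℂ) (y : ℝ), ‖ϖ‖ < r → y₀ ≤ y → y < D.Y₁ →
      ‖D.X n m ϖ y‖ ≤ Real.exp (n * y - m * y + C * |(m : ℝ)| * ‖ϖ‖ ^ 2) := by
  obtain ⟨C, r, hC, hr, hr₀, h⟩ := D.Jou_c_bound hy₀
  refine ⟨C, r, hC, hr, hr₀, fun n m ϖ y hϖ hy hy' => ?_⟩
  have h1 : ∀ x : ℝ, ‖Jou (D.c ϖ (x + y * I)) ^ m‖ ≤
      Real.exp (-(m * y) + C * |(m : ℝ)| * ‖ϖ‖ ^ 2) := by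
    intro x
    obtain ⟨h2, h3⟩ := h ϖ (x + y * I) hϖ (by rw [im_line]; exact hy) (by rw [im_line]; exact hy')
    rw [im_line] at h2 h3
    have h4 : 0 < ‖Jou (D.c ϖ (x + y * I))‖ := (Real.exp_pos _).trans_le h2
    obtain ⟨t, ht⟩ : ∃ t, Real.exp t = ‖Jou (D.c ϖ (x + y * I))‖ := ⟨_, Real.exp_log h4⟩
    rw [← ht, Real.exp_le_exp] at h2 h3
    rw [norm_zpow, ← ht, ← Real.rpow_intCast, ← Real.exp_mul, Real.exp_le_exp]
    have h5 : |t + y| ≤ C * ‖ϖ‖ ^ 2 := by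
      rw [abs_le]
      constructor <;> linarith
    have h6 : (m : ℝ) * (t + y) ≤ |(m : ℝ)| * (C * ‖ϖ‖ ^ 2) :=
      (le_abs_self _).trans (by
        rw [abs_mul]
        exact mul_le_mul_of_nonneg_left h5 (abs_nonneg _))
    linarith
  have h2 := norm_lineCoef_le (F := fun α => Jou (D.c ϖ α) ^ m) h1 n
  refine h2.trans (le_of_eq ?_)
  rw [← Real.exp_add]
  congr 1
  ring

end CData

end LSB
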