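import Mathlib

/-!
# Local strong Birkhoff conjecture near every ellipse: definitions

Problem MP_33aab0_an.  Convex billiards, ellipses of any eccentricity.
-/

namespace LSB

open Real Complex MeasureTheory

/-! ### Plane curves, billiard trajectories and caustics (statement side) -/

/-- The ellipse with semi-axes `a` (horizontal) and `b` (vertical), standard parametrisation. -/
noncomputable def ellipseCurve (a b : ℝ) (t : ℝ) : ℂ :=
  ((a * Real.cos t : ℝ) : ℂ) + ((b * Real.sin t : ℝ) : ℂ) * I

/-- The scalar product of two plane vectors. -/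
def dotp (z w : ℂ) : ℝ := z.re * w.re + z.im * w.im

/-- The determinant of two plane vectors. -/
def crossp (z w : ℂ) : ℝ := z.re * w.im - z.im * w.re

/-- Reflection law at the parameter `t₁` for the path `γ t₀ → γ t₁ → γ t₂`: the unit vectors of
the incoming and the outgoing segment make the same angle with the tangent vector `γ' t₁`. -/
def ReflectsAt (γ : ℝ → ℂ) (t₀ t₁ t₂ : ℝ) : Prop :=
  dotp (γ t₁ - γ t₀) (deriv γ t₁) / ‖γ t₁ - γ t₀‖ =
    dotp (γ t₂ - γ t₁) (deriv γ t₁) / ‖γ t₂ - γ t₁‖

/-- A billiard trajectory in the closed curve `γ` of period `2π`, given by lifted parameters of its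
successive reflection points. -/
def IsTrajectory (γ : ℝ → ℂ) (t : ℕ → ℝ) : Prop :=
  (∀ n, t n < t (n + 1) ∧ t (n + 1) < t n + 2 * π) ∧
    ∀ n, ReflectsAt γ (t n) (t (n + 1)) (t (n + 2))

/-- The directed line from `x` to `y` touches the set `K`, and `K` lies on its left. -/
def TouchesLeft (K : Set ℂ) (x y : ℂ) : Prop :=
  (∀ z ∈ K, 0 ≤ crossp (y - x) (z - x)) ∧ ∃ z ∈ K, crossp (y - x) (z - x) = 0

/-- `K` is (the convex body bounded by) a caustic of the billiard in `γ` all of whose tangent
trajectories are periodic, with `q` reflections and `p` turns. -/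
structure IsIntegrableRationalCaustic (γ : ℝ → ℂ) (K : Set ℂ) (p q : ℕ) : Prop where
  nonempty : K.Nonempty
  compact : IsCompact K
  convex : Convex ℝ K
  inside : K ⊆ interior (convexHull ℝ (Set.range γ))
  tangent : ∀ t : ℕ → ℝ, IsTrajectory γ t → TouchesLeft K (γ (t 0)) (γ (t 1)) →
    TouchesLeft K (γ (t 1)) (γ (t 2))
  periodic : ∀ t : ℕ → ℝ, IsTrajectory γ t → TouchesLeft K (γ (t 0)) (γ (t 1)) →
    t q = t 0 + 2 * π * p

/-- For every rational number `p/q` in lowest terms with `0 < p/q < 1/q₀` there is an integrable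
rational caustic of rotation number `p/q`. -/
def IsRationallyIntegrable (q₀ : ℕ) (γ : ℝ → ℂ) : Prop :=
  ∀ p q : ℕ, 0 < p → Nat.Coprime p q → q₀ * p < q → ∃ K, IsIntegrableRationalCaustic γ K p q

/-- The set `S` is an ellipse (image of a standard ellipse with semi-axes `a > b > 0` under an
orientation preserving isometry). -/
def IsEllipse (S : Set ℂ) : Prop :=
  ∃ a b τ : ℝ, ∃ v : ℂ, 0 < b ∧ b < a ∧
    S = Set.range fun t : ℝ => v + Complex.exp (τ * I) * ellipseCurve a b t

/-! ### Support functions -/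

/-- The boundary point with outer normal `e^{iψ}` of the convex body with support function `h`. -/
noncomputable def supCurve (h : ℝ → ℝ) (ψ : ℝ) : ℂ :=
  (((h ψ : ℝ) : ℂ) + ((deriv h ψ : ℝ) : ℂ) * I) * Complex.exp (ψ * I)

/-- `h` is the support function of a convex body with positive radius of curvature. -/
structure IsSupp (h : ℝ → ℝ) : Prop where
  smooth : ContDiff ℝ 2 h
  periodic : ∀ ψ, h (ψ + 2 * π) = h ψ
  pos : ∀ ψ, 0 < h ψ + deriv (deriv h) ψ

/-- Support value of the incoming line (normal angle `ψ - δ`) through the point `ψ`. -/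
noncomputable def lineIn (h : ℝ → ℝ) (x y : ℝ) : ℝ :=
  h ((x + y) / 2) * Real.cos ((y - x) / 2) - deriv h ((x + y) / 2) * Real.sin ((y - x) / 2)

/-- Support value of the outgoing line (normal angle `ψ + δ`) through the point `ψ`. -/
noncomputable def lineOut (h : ℝ → ℝ) (x y : ℝ) : ℝ :=
  h ((x + y) / 2) * Real.cos ((y - x) / 2) + deriv h ((x + y) / 2) * Real.sin ((y - x) / 2)

/-- The generating function; `x < y < x + 2π` are the normal angles of two successive lines. -/
noncomputable def genS (h : ℝ → ℝ) (x y : ℝ) : ℝ :=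
  2 * h ((x + y) / 2) * Real.sin ((y - x) / 2)

/-- `P` is the support function of an integrable caustic of rotation number `p/q`, and `f` the
induced map on the normal angles of its tangent lines. -/
structure PCaustic (h P f : ℝ → ℝ) (p q : ℕ) : Prop where
  cont : Continuous P
  periodic : ∀ x, P (x + 2 * π) = P x
  lt_map : ∀ x, x < f x
  map_lt : ∀ x, f x < x + 2 * π
  lineIn_eq : ∀ x, lineIn h x (f x) = P x
  lineOut_eq : ∀ x, lineOut h x (f x) = P (f x)
  iter : ∀ x, f^[q] x = x + 2 * π * p

/-! ### The ellipse -/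

/-- Support function of the ellipse with semi-axes `a`, `b`. -/
noncomputable def hE (a b ψ : ℝ) : ℝ :=
  √(a ^ 2 * Real.cos ψ ^ 2 + b ^ 2 * Real.sin ψ ^ 2)

/-- Density (up to a constant) of the bounce angle for the confocal caustic of parameter `l`. -/
noncomputable def wE (a b l ψ : ℝ) : ℝ :=
  1 / (hE a b ψ * √(1 - l ^ 2 * hE a b ψ ^ 2 / (a ^ 2 * b ^ 2)))

/-- Normalising constant. -/
noncomputable def cE (a b l : ℝ) : ℝ := 2 * π / ∫ t in (0 : ℝ)..(2 * π), wE a b l t

/-- Bounce angle; for `l = 0` this is the Lazutkin coordinate. -/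
noncomputable def BE (a b l ψ : ℝ) : ℝ := cE a b l * ∫ t in (0 : ℝ)..ψ, wE a b l t

/-- The `m`-th Fourier coefficient of `u` with respect to the bounce angle. -/
noncomputable def Efun (a b l : ℝ) (m : ℤ) (u : ℝ → ℂ) : ℂ :=
  (1 / (2 * π) : ℂ) * ∫ ψ in (0 : ℝ)..(2 * π),
    u ψ * (cE a b l * wE a b l ψ : ℝ) * Complex.exp (-(m * BE a b l ψ : ℝ) * I)

/-- Rotation number of the confocal caustic of parameter `l` (real rotation formula). -/
noncomputable def omE (a b l : ℝ) : ℝ :=
  cE a b l / π * ∫ t in (0 : ℝ)..(π / 2),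
    l * Real.sin t / √((a ^ 2 - l ^ 2 * Real.sin t ^ 2) * (b ^ 2 - l ^ 2 * Real.sin t ^ 2))

/-- Matrix entries: the `n`-th bounce coefficient of the `m`-th Lazutkin exponential. -/
noncomputable def chi (a b l : ℝ) (n m : ℤ) : ℂ :=
  Efun a b l n fun ψ => Complex.exp ((m * BE a b 0 ψ : ℝ) * I)

/-- The five infinitesimal deformations of an ellipse through ellipses (multiplied by `hE`). -/
noncomputable def five (a b : ℝ) : Fin 5 → ℝ → ℝ
  | 0 => fun _ => 1
  | 1 => fun ψ => Real.cos (2 * ψ)
  | 2 => fun ψ => Real.sin (2 * ψ)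
  | 3 => fun ψ => hE a b ψ * Real.cos ψ
  | 4 => fun ψ => hE a b ψ * Real.sin ψ

end LSB
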