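import Pool.Agent.LSB.FLaz

/-!
# Part E, module EAmp: amplitude functions

Paper proof.  `L(ψ)=c∫_0^ψ 1/hE a b` is `C^1` with positive derivative `c/hE`, odd (`hE` even), and `L(ψ+π)=L(ψ)+L(π)` since `hE` has period `π`;
so it is an increasing bijection of `ℝ` and its inverse has the stated properties (`HasDerivAt.of_local_left_inverse`, or
`StrictMono.orderIso`).  The module `FLaz` (proved) contains the basic facts on `hE`, `wE`, `cE`, `BE` (`hE_pos`, `hE_sq`, `hE_add_pi`, `wE_zero`, `cE_pos`,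
`hasDerivAt_BE`, `BE_add_two_pi`, ...).
-/

namespace LSB

open Real

/-- Properties of an amplitude function with parameters `a b c`. -/
structure IsAmp (a b c : ℝ) (f : ℝ → ℝ) : Prop where
  zero : f 0 = 0
  deriv : ∀ x, HasDerivAt f (hE a b (f x) / c) x
  integral : ∀ x, c * ∫ t in (0 : ℝ)..(f x), 1 / hE a b t = x
  odd : ∀ x, f (-x) = -f x
  period : ∀ x, f (x + c * ∫ t in (0 : ℝ)..π, 1 / hE a b t) = f x + π
  half : f ((c * ∫ t in (0 : ℝ)..π, 1 / hE a b t) / 2) = π / 2
  mono : StrictMono f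
  surj : Function.Surjective f

private theorem cont_inv {a b : ℝ} (hb : 0 < b) (hab : b ≤ a) :
    Continuous (fun t : ℝ => 1 / hE a b t) := by
  have h := (contDiff_hE (n := 0) hb hab (by exact_mod_cast le_top)).continuous
  exact continuous_const.div h fun t => (hE_pos hb hab t).ne'

private theorem hE_neg' (a b t : ℝ) : hE a b (-t) = hE a b t := by
  rw [hE, hE, Real.cos_neg, Real.sin_neg, neg_sq]

theorem exists_amp {a b c : ℝ} (hb : 0 < b) (hab : b ≤ a) (hc : 0 < c) : ∃ f, IsAmp a b c f := by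
  have ha : 0 < a := hb.trans_le hab
  have hcont := cont_inv hb hab
  have hii : ∀ u v : ℝ, IntervalIntegrable (fun t : ℝ => 1 / hE a b t) MeasureTheory.volume u v :=
    fun u v => hcont.intervalIntegrable u v
  set L : ℝ → ℝ := fun ψ => c * ∫ t in (0 : ℝ)..ψ, 1 / hE a b t with hL
  have hder : ∀ ψ, HasDerivAt L (c * (1 / hE a b ψ)) ψ := fun ψ =>
    (hcont.integral_hasStrictDerivAt 0 ψ).hasDerivAt.const_mul c
  have hcontL : Continuous L := continuous_iff_continuousAt.2 fun ψ => (hder ψ).continuousAt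
  have hmono : StrictMono L := by
    refine strictMono_of_deriv_pos fun ψ => ?_
    rw [(hder ψ).deriv]
    exact mul_pos hc (one_div_pos.2 (hE_pos hb hab ψ))
  have hL0 : L 0 = 0 := by simp [hL]
  have hodd : ∀ ψ, L (-ψ) = -L ψ := by
    intro ψ
    have h1 := intervalIntegral.integral_comp_neg (a := (0 : ℝ)) (b := ψ)
      (fun t : ℝ => 1 / hE a b t)
    have h2 : ∀ t : ℝ, 1 / hE a b (-t) = 1 / hE a b t := fun t => by rw [hE_neg']
    simp only [h2, neg_zero] at h1
    have h3 : L ψ = c * ∫ t in (-ψ)..(0 : ℝ), 1 / hE a b t := by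
      simp only [hL]; rw [h1]
    rw [h3]
    simp only [hL]
    rw [intervalIntegral.integral_symm]
    ring
  have hper : ∀ ψ, L (ψ + π) = L ψ + L π := by
    intro ψ
    have hp : Function.Periodic (fun t : ℝ => 1 / hE a b t) π := fun t => by
      show 1 / hE a b (t + π) = 1 / hE a b t
      rw [hE_add_pi]
    have h1 := hp.intervalIntegral_add_eq ψ 0
    rw [zero_add] at h1
    have h2 : (∫ t in (0 : ℝ)..(ψ + π), 1 / hE a b t) =
        (∫ t in (0 : ℝ)..ψ, 1 / hE a b t) + ∫ t in ψ..(ψ + π), 1 / hE a b t :=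
      (intervalIntegral.integral_add_adjacent_intervals (hii _ _) (hii _ _)).symm
    simp only [hL]
    rw [h2, h1]
    ring
  have hge : ∀ ψ, 0 ≤ ψ → c / a * ψ ≤ L ψ := by
    intro ψ hψ
    have h1 : ∫ _ in (0 : ℝ)..ψ, 1 / a ≤ ∫ t in (0 : ℝ)..ψ, 1 / hE a b t :=
      intervalIntegral.integral_mono_on hψ (continuous_const.intervalIntegrable _ _) (hii _ _)
        fun t _ => one_div_le_one_div_of_le (hE_pos hb hab t) (hE_le hb hab t)
    rw [intervalIntegral.integral_const, sub_zero, smul_eq_mul] at h1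
    calc c / a * ψ = c * (ψ * (1 / a)) := by ring
      _ ≤ c * ∫ t in (0 : ℝ)..ψ, 1 / hE a b t := mul_le_mul_of_nonneg_left h1 hc.le
  have hca : 0 < c / a := div_pos hc ha
  have htop : Filter.Tendsto L Filter.atTop Filter.atTop := by
    have h1 : Filter.Tendsto (fun ψ : ℝ => c / a * ψ) Filter.atTop Filter.atTop :=
      Filter.tendsto_id.const_mul_atTop hca
    refine Filter.tendsto_atTop_mono' _ ?_ h1
    filter_upwards [Filter.eventually_ge_atTop (0 : ℝ)] with ψ hψ using hge ψ hψ
  have hbot : Filter.Tendsto L Filter.atBot Filter.atBot := by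
    have h1 : Filter.Tendsto (fun ψ : ℝ => -L (-ψ)) Filter.atBot Filter.atBot :=
      Filter.tendsto_neg_atTop_atBot.comp (htop.comp Filter.tendsto_neg_atBot_atTop)
    refine h1.congr fun ψ => ?_
    rw [hodd, neg_neg]
  have hsurj : Function.Surjective L := hcontL.surjective htop hbot
  let e : ℝ ≃o ℝ := hmono.orderIsoOfSurjective L hsurj
  have he : ∀ x, L (e.symm x) = x := fun x => e.apply_symm_apply x
  have he' : ∀ x, e.symm (L x) = x := fun x => e.symm_apply_apply x
  refine ⟨e.symm, ?_, ?_, ?_, ?_, ?_, ?_, e.symm.strictMono, e.symm.surjective⟩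
  · have := he' 0
    rwa [hL0] at this
  · intro x
    have h1 : c * (1 / hE a b (e.symm x)) ≠ 0 :=
      (mul_pos hc (one_div_pos.2 (hE_pos hb hab _))).ne'
    have h2 := HasDerivAt.of_local_left_inverse (f := L) (g := e.symm) (a := x)
      (e.symm.continuous.continuousAt) (hder (e.symm x)) h1
      (Filter.Eventually.of_forall fun y => he y)
    have h3 : (c * (1 / hE a b (e.symm x)))⁻¹ = hE a b (e.symm x) / c := by
      rw [mul_one_div, inv_div]
    rwa [h3] at h2
  · intro x
    exact he x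
  · intro x
    apply hmono.injective
    rw [he, hodd, he]
  · intro x
    apply hmono.injective
    rw [hper, he, he]
  · apply hmono.injective
    rw [he]
    have h1 := hper (-(π / 2))
    rw [hodd, show -(π / 2) + π = π / 2 by ring] at h1
    show L π / 2 = L (π / 2)
    linarith

/-- For the Lazutkin normalisation the half period is `π`, and the amplitude inverts `BE a b 0`. -/
theorem cE_zero_integral {a b : ℝ} (hb : 0 < b) (hab : b ≤ a) :
    cE a b 0 * ∫ t in (0 : ℝ)..π, 1 / hE a b t = π := by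
  have hcont := cont_inv hb hab
  have hp : Function.Periodic (fun t : ℝ => 1 / hE a b t) π := fun t => by
    show 1 / hE a b (t + π) = 1 / hE a b t
    rw [hE_add_pi]
  have h1 := hp.intervalIntegral_add_eq π 0
  rw [zero_add] at h1
  have h2 : (∫ t in (0 : ℝ)..(2 * π), wE a b 0 t) = 2 * ∫ t in (0 : ℝ)..π, 1 / hE a b t := by
    have h3 : (∫ t in (0 : ℝ)..(2 * π), wE a b 0 t) = ∫ t in (0 : ℝ)..(π + π), 1 / hE a b t := by
      rw [← two_mul]
      exact intervalIntegral.integral_congr fun t _ => wE_zero a b t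
    rw [h3, ← intervalIntegral.integral_add_adjacent_intervals
      (hcont.intervalIntegrable 0 π) (hcont.intervalIntegrable π (π + π)), h1]
    ring
  have h4 := int_wE_pos hb hab le_rfl (by linarith : (0 : ℝ) ≤ b / 2)
  rw [h2] at h4
  have h5 : (∫ t in (0 : ℝ)..π, 1 / hE a b t) ≠ 0 := by
    intro h
    rw [h, mul_zero] at h4
    exact lt_irrefl _ h4
  rw [cE, h2, mul_div_mul_left _ _ (two_ne_zero), div_mul_cancel₀ _ h5]

theorem BE_zero_eq (a b ψ : ℝ) :
    BE a b 0 ψ = cE a b 0 * ∫ t in (0 : ℝ)..ψ, 1 / hE a b t := by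
  rw [BE]
  congr 1
  exact intervalIntegral.integral_congr fun t _ => wE_zero a b t

end LSB
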