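import Pool.Agent.LSB.PLoc

/-!
# Part P, module PPre: the quantitative fields of `CData` from the basic ones

Paper proof.  Choose `Y<Y₁<Y₂<2Y`, `Y₁<Y'`.  (1) `c(ϖ,α)-cos α` is even in `ϖ`, vanishes at `ϖ=0`, is bounded for `‖ϖ‖≤r/2`, `|Im α|≤Y₁`
(compactness modulo `2π`, period by `shift`), so by Schwarz/Cauchy estimates `=ϖ²e(ϖ,α)` with `‖e‖≤C₀` for `‖ϖ‖<r/4`, and `e` is real for
real arguments with bounded derivatives on a slightly smaller domain: `quad`.  (2) `range`: `‖c-1‖+‖c+1‖≤2cosh Y₁+2C₀‖ϖ‖²<2cosh Y₂`.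
(3) `loc`: `exists_sq`, `loc_near`.  (4) `im_le`.  Let `c ϖ α∈segm 1`.  Let `ρ` be the radius of `im_near`.  If `α` is within `ρ` of a multiple
`kπ`, then `c ϖ(α-kπ)=±c ϖ α∈segm 1` and `im_near` applies.  Otherwise: `‖cos α‖≤1+C₀‖ϖ‖²`, `|Im cos α|≤C₀‖ϖ‖²`; `|cos α|²=cos²x+sinh²y`;
for `‖ϖ‖` small this forces `|y|` small (`sinh²y≤|cos α|²+|sin α|²-1`…: `2sinh²y=|cos²α|+|1-cos²α|-1=O(‖ϖ‖²)` since `cos²α` is within
`O(‖ϖ‖²)` of a real number in `[0,1]`), and then `dist(x,πℤ)≥ρ/2`, `|sin x|≥κ(ρ)>0`.  Now `0=Im c=-sin x sinh y+Im(ϖ²e)` and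
`|Im(ϖ²e)|≤2‖ϖ‖|Im ϖ|C₀+‖ϖ‖²·C(|Im ϖ|+|y|)`, so `|y|(κ-C‖ϖ‖²)≤C'‖ϖ‖|Im ϖ|`, i.e. `|y|≤C''‖ϖ‖|Im ϖ|≤9/8|Im ϖ|` for `r₀` small.
-/

namespace LSB

open Complex

/-- Basic data. -/
structure PreData where
  Y : ℝ
  Y' : ℝ
  r : ℝ
  c : ℂ → ℂ → ℂ
  Y_pos : 0 < Y
  Y_lt : Y < Y'
  r_pos : 0 < r
  diff : DifferentiableOn ℂ (fun p : ℂ × ℂ => c p.1 p.2) {p : ℂ × ℂ | ‖p.1‖ < r ∧ |p.2.im| < Y'}
  zero : ∀ α : ℂ, |α.im| < Y' → c 0 α = cos α
  even₁ : ∀ ϖ α : ℂ, ‖ϖ‖ < r → |α.im| < Y' → c (-ϖ) α = c ϖ α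
  even₂ : ∀ ϖ α : ℂ, ‖ϖ‖ < r → |α.im| < Y' → c ϖ (-α) = c ϖ α
  shift : ∀ ϖ α : ℂ, ‖ϖ‖ < r → |α.im| < Y' → c ϖ (α + Real.pi) = -c ϖ α
  conj : ∀ ϖ α : ℂ, ‖ϖ‖ < r → |α.im| < Y' →
    c (starRingEnd ℂ ϖ) (starRingEnd ℂ α) = starRingEnd ℂ (c ϖ α)
  diag : ∀ ϖ : ℂ, ‖ϖ‖ < r → |ϖ.im| < Y' → c ϖ ϖ = 1

namespace PPre

open Metric Set

/-- Division of a function with a double zero by the square. -/
theorem exists_div_sq {φ : ℂ → ℂ} {R M : ℝ} (hR : 0 < R)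
    (hd : DifferentiableOn ℂ φ (ball 0 R)) (hM : ∀ z ∈ ball (0 : ℂ) R, ‖φ z‖ ≤ M)
    (h0 : φ 0 = 0) (h1 : deriv φ 0 = 0) :
    ∃ E : ℂ → ℂ, DifferentiableOn ℂ E (ball 0 R) ∧ (∀ z ∈ ball (0 : ℂ) R, ‖E z‖ ≤ M / R / R) ∧
      ∀ z, φ z = z ^ 2 * E z := by
  have hn : ball (0 : ℂ) R ∈ nhds (0 : ℂ) := ball_mem_nhds _ hR
  have hd1 : DifferentiableOn ℂ (dslope φ 0) (ball 0 R) := (differentiableOn_dslope hn).2 hd
  have hd2 : DifferentiableOn ℂ (dslope (dslope φ 0) 0) (ball 0 R) :=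
    (differentiableOn_dslope hn).2 hd1
  have hv : dslope φ 0 0 = 0 := by rw [dslope_same, h1]
  have hb1 : ∀ z ∈ ball (0 : ℂ) R, ‖dslope φ 0 z‖ ≤ M / R := by
    intro z hz
    refine norm_dslope_le_div_of_mapsTo_ball hd ?_ hz
    intro w hw
    rw [mem_closedBall, h0, dist_zero_right]
    exact hM w hw
  refine ⟨dslope (dslope φ 0) 0, hd2, ?_, ?_⟩
  · intro z hz
    refine norm_dslope_le_div_of_mapsTo_ball hd1 ?_ hz
    intro w hw
    rw [mem_closedBall, hv, dist_zero_right]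
    exact hb1 w hw
  · intro z
    have e1 := sub_smul_dslope φ 0 z
    have e2 := sub_smul_dslope (dslope φ 0) 0 z
    rw [hv] at e2
    rw [h0] at e1
    simp only [sub_zero, smul_eq_mul] at e1 e2
    rw [← e1, ← e2]
    ring

theorem lip_ball {E : ℂ → ℂ} {R K : ℝ} (hR : 0 < R) (hd : DifferentiableOn ℂ E (ball 0 R))
    (hK : ∀ z ∈ ball (0 : ℂ) R, ‖E z‖ ≤ K) {z w : ℂ} (hz : ‖z‖ < R / 2) (hw : ‖w‖ < R / 2) :
    ‖E z - E w‖ ≤ K / (R / 2) * ‖z - w‖ := by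
  have hder : ∀ u ∈ ball (0 : ℂ) (R / 2), ‖deriv E u‖ ≤ K / (R / 2) := by
    intro u hu
    rw [mem_ball_zero_iff] at hu
    have hsub : closedBall u (R / 2) ⊆ ball (0 : ℂ) R := by
      intro v hv
      rw [mem_closedBall, dist_eq_norm] at hv
      rw [mem_ball_zero_iff]
      calc ‖v‖ = ‖(v - u) + u‖ := by rw [sub_add_cancel]
        _ ≤ ‖v - u‖ + ‖u‖ := norm_add_le _ _
        _ < R := by linarith
    apply norm_deriv_le_of_forall_mem_sphere_norm_le (by positivity)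
    · exact (hd.mono hsub).diffContOnCl_ball (Subset.refl _)
    · intro v hv
      exact hK v (hsub (sphere_subset_closedBall hv))
  have hdiff : ∀ u ∈ ball (0 : ℂ) (R / 2), DifferentiableAt ℂ E u := by
    intro u hu
    exact hd.differentiableAt (isOpen_ball.mem_nhds (ball_subset_ball (by linarith) hu))
  exact (convex_ball (0 : ℂ) (R / 2)).norm_image_sub_le_of_norm_deriv_le hdiff hder
    (by rwa [mem_ball_zero_iff]) (by rwa [mem_ball_zero_iff])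

theorem convex_strip (Y : ℝ) : Convex ℝ {α : ℂ | |α.im| < Y} := by
  have : {α : ℂ | |α.im| < Y} = {α : ℂ | α.im < Y} ∩ {α : ℂ | -Y < α.im} := by
    ext α
    simp only [mem_setOf_eq, mem_inter_iff, abs_lt]
    tauto
  rw [this]
  exact (convex_halfSpace_im_lt Y).inter (convex_halfSpace_im_gt (-Y))

theorem isOpen_strip (Y : ℝ) : IsOpen {α : ℂ | |α.im| < Y} :=
  isOpen_lt Complex.continuous_im.abs continuous_const

theorem lip_strip {E : ℂ → ℂ} {Y Y' K : ℝ} (hY : Y < Y')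
    (hd : DifferentiableOn ℂ E {α : ℂ | |α.im| < Y'})
    (hK : ∀ z : ℂ, |z.im| < Y' → ‖E z‖ ≤ K) {z w : ℂ} (hz : |z.im| < Y) (hw : |w.im| < Y) :
    ‖E z - E w‖ ≤ K / ((Y' - Y) / 2) * ‖z - w‖ := by
  have hpos : 0 < (Y' - Y) / 2 := by linarith
  have hder : ∀ u ∈ {α : ℂ | |α.im| < Y}, ‖deriv E u‖ ≤ K / ((Y' - Y) / 2) := by
    intro u hu
    rw [mem_setOf_eq] at hu
    have hsub : closedBall u ((Y' - Y) / 2) ⊆ {α : ℂ | |α.im| < Y'} := by
      intro v hv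
      rw [mem_closedBall, dist_eq_norm] at hv
      rw [mem_setOf_eq]
      calc |v.im| = |(v - u).im + u.im| := by rw [sub_im, sub_add_cancel]
        _ ≤ |(v - u).im| + |u.im| := abs_add_le _ _
        _ ≤ ‖v - u‖ + |u.im| := by
          have := abs_im_le_norm (v - u)
          linarith
        _ < Y' := by linarith
    apply norm_deriv_le_of_forall_mem_sphere_norm_le hpos
    · exact (hd.mono hsub).diffContOnCl_ball (Subset.refl _)
    · intro v hv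
      exact hK v (hsub (sphere_subset_closedBall hv))
  have hdiff : ∀ u ∈ {α : ℂ | |α.im| < Y}, DifferentiableAt ℂ E u := by
    intro u hu
    refine hd.differentiableAt ((isOpen_strip Y').mem_nhds ?_)
    rw [mem_setOf_eq] at hu ⊢
    linarith
  exact (convex_strip Y).norm_image_sub_le_of_norm_deriv_le hdiff hder hw hz

end PPre

open PPre Metric Set

namespace PreData

variable (P : PreData)

theorem isOpen_dom : IsOpen {p : ℂ × ℂ | ‖p.1‖ < P.r ∧ |p.2.im| < P.Y'} :=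
  (isOpen_lt continuous_fst.norm continuous_const).inter
    (isOpen_lt (Complex.continuous_im.comp continuous_snd).abs continuous_const)

theorem diff_fst {α : ℂ} (hα : |α.im| < P.Y') :
    DifferentiableOn ℂ (fun ϖ => P.c ϖ α) (ball 0 P.r) := by
  have h1 : DifferentiableOn ℂ (fun ϖ : ℂ => (ϖ, α)) (ball 0 P.r) :=
    (differentiable_id.prodMk (differentiable_const α)).differentiableOn
  exact P.diff.comp h1 (fun ϖ hϖ => ⟨by simpa using hϖ, hα⟩)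

theorem diff_snd {ϖ : ℂ} (hϖ : ‖ϖ‖ < P.r) :
    DifferentiableOn ℂ (fun α => P.c ϖ α) {α : ℂ | |α.im| < P.Y'} := by
  have h1 : DifferentiableOn ℂ (fun α : ℂ => (ϖ, α)) {α : ℂ | |α.im| < P.Y'} :=
    ((differentiable_const ϖ).prodMk differentiable_id).differentiableOn
  exact P.diff.comp h1 (fun α hα => ⟨hϖ, hα⟩)

theorem shift2 {ϖ α : ℂ} (hϖ : ‖ϖ‖ < P.r) (hα : |α.im| < P.Y') :
    P.c ϖ (α + 2 * Real.pi) = P.c ϖ α := by
  have h1 : α + 2 * (Real.pi : ℂ) = (α + Real.pi) + Real.pi := by ring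
  have h2 : |(α + (Real.pi : ℂ)).im| < P.Y' := by simpa using hα
  rw [h1, P.shift ϖ _ hϖ h2, P.shift ϖ α hϖ hα, neg_neg]

theorem exists_bound {r₁ Y₁ : ℝ} (hr : r₁ < P.r) (hY : Y₁ < P.Y') :
    ∃ M : ℝ, ∀ ϖ α : ℂ, ‖ϖ‖ ≤ r₁ → |α.im| ≤ Y₁ → ‖P.c ϖ α‖ ≤ M := by
  set K : Set (ℂ × ℂ) := closedBall (0 : ℂ) r₁ ×ˢ (Icc (0 : ℝ) (2 * Real.pi) ×ℂ Icc (-Y₁) Y₁) with hK
  have hKc : IsCompact K := (isCompact_closedBall _ _).prod (isCompact_Icc.reProdIm isCompact_Icc)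
  have hcont : ContinuousOn (fun p : ℂ × ℂ => P.c p.1 p.2) K := by
    refine P.diff.continuousOn.mono ?_
    rintro ⟨ϖ, α⟩ ⟨h1, h2⟩
    rw [mem_closedBall_zero_iff] at h1
    obtain ⟨-, h3⟩ := h2
    rw [mem_preimage, mem_Icc, ← abs_le] at h3
    exact ⟨lt_of_le_of_lt h1 hr, lt_of_le_of_lt h3 hY⟩
  obtain ⟨M, hM⟩ := hKc.exists_bound_of_continuousOn hcont
  refine ⟨M, ?_⟩
  intro ϖ α hϖ hα
  have hper : Function.Periodic (fun x : ℝ => P.c ϖ (x + α.im * I)) (2 * Real.pi) := by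
    intro x
    have h1 : ((x + 2 * Real.pi : ℝ) : ℂ) + α.im * I = (x + α.im * I) + 2 * Real.pi := by
      push_cast; ring
    show P.c ϖ (((x + 2 * Real.pi : ℝ) : ℂ) + α.im * I) = P.c ϖ (x + α.im * I)
    rw [h1]
    refine P.shift2 (lt_of_le_of_lt hϖ hr) ?_
    have : ((x : ℂ) + α.im * I).im = α.im := by simp
    rw [this]
    exact lt_of_le_of_lt hα hY
  obtain ⟨x, hx, hx2⟩ := hper.exists_mem_Ico₀ (by positivity) α.re
  have h2 : P.c ϖ α = P.c ϖ (x + α.im * I) := by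
    have h3 : P.c ϖ ((α.re : ℂ) + α.im * I) = P.c ϖ (x + α.im * I) := hx2
    rwa [re_add_im] at h3
  rw [h2]
  refine hM (ϖ, (x : ℂ) + α.im * I) ⟨by simpa using hϖ, ?_⟩
  rw [mem_reProdIm]
  refine ⟨?_, ?_⟩
  · have : ((x : ℂ) + α.im * I).re = x := by simp
    rw [this]
    exact ⟨hx.1, hx.2.le⟩
  · have : ((x : ℂ) + α.im * I).im = α.im := by simp
    rw [this]
    exact abs_le.1 hα

end PreData

/-- Quadratic closeness with a real remainder. -/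
theorem PreData.exists_remainder (P : PreData) {Y₁ : ℝ} (hY₁ : 0 < Y₁) (h : Y₁ < P.Y') :
    ∃ C r : ℝ, 0 ≤ C ∧ 0 < r ∧ r ≤ P.r ∧ ∃ e : ℂ → ℂ → ℂ,
      ∀ ϖ α : ℂ, ‖ϖ‖ < r → |α.im| < Y₁ →
        P.c ϖ α = cos α + ϖ ^ 2 * e ϖ α ∧ ‖e ϖ α‖ ≤ C ∧ |(e ϖ α).im| ≤ C * (|ϖ.im| + |α.im|) := by
  classical
  have hr := P.r_pos
  set R : ℝ := P.r / 2 with hRdef
  have hR : 0 < R := by positivity
  have hRr : R < P.r := by rw [hRdef]; linarith
  set Y₂ : ℝ := (Y₁ + P.Y') / 2 with hY₂def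
  have hY₂ : Y₁ < Y₂ := by rw [hY₂def]; linarith
  have hY₂' : Y₂ < P.Y' := by rw [hY₂def]; linarith
  obtain ⟨M₀, hM₀⟩ := P.exists_bound hRr hY₂'
  set M : ℝ := 2 * M₀ with hMdef
  have hM₀0 : 0 ≤ M₀ := by
    refine le_trans (norm_nonneg (P.c 0 0)) (hM₀ 0 0 (by simpa using hR.le) ?_)
    simp; linarith
  set K : ℝ := M / R / R with hKdef
  have hK0 : 0 ≤ K := by positivity
  -- the difference
  have hg : ∀ ϖ α : ℂ, ‖ϖ‖ ≤ R → |α.im| ≤ Y₂ → ‖P.c ϖ α - cos α‖ ≤ M := by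
    intro ϖ α h1 h2
    have h3 := hM₀ ϖ α h1 h2
    have h4 := hM₀ 0 α (by simpa using hR.le) h2
    rw [P.zero α (lt_of_le_of_lt h2 hY₂')] at h4
    calc ‖P.c ϖ α - cos α‖ ≤ ‖P.c ϖ α‖ + ‖cos α‖ := norm_sub_le _ _
      _ ≤ M := by rw [hMdef]; linarith
  -- for every `α` the quotient
  have hE : ∀ α : ℂ, |α.im| < Y₂ → ∃ E : ℂ → ℂ, DifferentiableOn ℂ E (ball 0 R) ∧
      (∀ z ∈ ball (0 : ℂ) R, ‖E z‖ ≤ K) ∧ ∀ z, P.c z α - cos α = z ^ 2 * E z := by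
    intro α hα
    have hα' : |α.im| < P.Y' := hα.trans hY₂'
    refine exists_div_sq hR (φ := fun z => P.c z α - cos α) ?_ ?_ ?_ ?_
    · exact ((P.diff_fst hα').mono (ball_subset_ball hRr.le)).sub_const _
    · intro z hz
      rw [mem_ball_zero_iff] at hz
      exact hg z α hz.le hα.le
    · show P.c 0 α - cos α = 0
      rw [P.zero α hα', sub_self]
    · have hev : (fun z => P.c (-z) α - cos α) =ᶠ[nhds 0] (fun z => P.c z α - cos α) := by
        filter_upwards [ball_mem_nhds (0 : ℂ) hr] with z hz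
        rw [P.even₁ z α (by simpa using hz) hα']
      have h1 := hev.deriv_eq
      have h2 : deriv (fun z => P.c (-z) α - cos α) 0 = -deriv (fun z => P.c z α - cos α) 0 := by
        have := deriv_comp_neg (fun z => P.c z α - cos α) 0
        rw [neg_zero] at this
        exact this
      rw [h2] at h1
      exact self_eq_neg.1 h1.symm
  -- the remainder
  set e : ℂ → ℂ → ℂ := fun ϖ α => if ϖ = 0 then 0 else (P.c ϖ α - cos α) / ϖ ^ 2 with hedef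
  have he : ∀ ϖ α : ℂ, ‖ϖ‖ < R → |α.im| < Y₂ → ‖e ϖ α‖ ≤ K := by
    intro ϖ α h1 h2
    rw [hedef]
    simp only
    split_ifs with h0
    · rw [norm_zero]; exact hK0
    · obtain ⟨E, -, hE2, hE3⟩ := hE α h2
      rw [hE3 ϖ, mul_div_cancel_left₀ _ (pow_ne_zero 2 h0)]
      exact hE2 ϖ (by rwa [mem_ball_zero_iff])
  set C : ℝ := K + K / (R / 2) + K / ((Y₂ - Y₁) / 2) with hCdef
  have hc1 : 0 ≤ K / (R / 2) := by positivity
  have hc2 : 0 ≤ K / ((Y₂ - Y₁) / 2) := by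
    apply div_nonneg hK0
    linarith
  have hC0 : 0 ≤ C := by rw [hCdef]; linarith
  refine ⟨C, R / 2, hC0, by positivity, by rw [hRdef]; linarith, e, ?_⟩
  intro ϖ α hϖ hα
  have hϖR : ‖ϖ‖ < R := by linarith
  have hα2 : |α.im| < Y₂ := hα.trans hY₂
  have hα' : |α.im| < P.Y' := hα2.trans hY₂'
  by_cases h0 : ϖ = 0
  · refine ⟨?_, ?_, ?_⟩
    · rw [h0, P.zero α hα']; ring
    · have := he ϖ α hϖR hα2
      rw [hCdef]; linarith
    · rw [h0, hedef]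
      simp only [if_true, zero_im, abs_zero, zero_add]
      positivity
  · refine ⟨?_, ?_, ?_⟩
    · rw [hedef]
      simp only [if_neg h0]
      field_simp
      ring
    · have := he ϖ α hϖR hα2
      rw [hCdef]; linarith
    · -- conjugation
      set ϖ' : ℂ := starRingEnd ℂ ϖ with hϖ'
      set α' : ℂ := starRingEnd ℂ α with hαd
      have hn : ‖ϖ'‖ = ‖ϖ‖ := norm_conj ϖ
      have hi : |α'.im| = |α.im| := by rw [hαd, conj_im, abs_neg]
      have h0' : ϖ' ≠ 0 := by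
        intro hh
        rw [← norm_eq_zero, hn, norm_eq_zero] at hh
        exact h0 hh
      have hconj : e ϖ' α' = starRingEnd ℂ (e ϖ α) := by
        rw [hedef]
        simp only [if_neg h0, if_neg h0']
        rw [hϖ', hαd, P.conj ϖ α (by linarith) hα', map_div₀, map_sub, map_pow, cos_conj]
      -- Lipschitz in the first variable
      have hL1 : ‖e ϖ α - e ϖ' α‖ ≤ K / (R / 2) * ‖ϖ - ϖ'‖ := by
        obtain ⟨E, hE1, hE2, hE3⟩ := hE α hα2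
        have e1 : e ϖ α = E ϖ := by
          rw [hedef]
          simp only [if_neg h0]
          rw [hE3 ϖ, mul_div_cancel_left₀ _ (pow_ne_zero 2 h0)]
        have e2 : e ϖ' α = E ϖ' := by
          rw [hedef]
          simp only [if_neg h0']
          rw [hE3 ϖ', mul_div_cancel_left₀ _ (pow_ne_zero 2 h0')]
        rw [e1, e2]
        exact lip_ball hR hE1 hE2 hϖ (by rw [hn]; exact hϖ)
      -- Lipschitz in the second variable
      have hL2 : ‖e ϖ' α - e ϖ' α'‖ ≤ K / ((Y₂ - Y₁) / 2) * ‖α - α'‖ := by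
        refine lip_strip (E := e ϖ') hY₂ ?_ ?_ hα (by rw [hi]; exact hα)
        · rw [hedef]
          simp only [if_neg h0']
          refine DifferentiableOn.div_const ?_ _
          refine DifferentiableOn.sub ?_ Complex.differentiable_cos.differentiableOn
          refine (P.diff_snd (by rw [hn]; linarith)).mono ?_
          intro z hz
          rw [mem_setOf_eq] at hz ⊢
          linarith
        · intro z hz
          exact he ϖ' z (by rw [hn]; exact hϖR) hz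
      have hn1 : ‖ϖ - ϖ'‖ = 2 * |ϖ.im| := by
        rw [hϖ', sub_conj, norm_mul, norm_I, mul_one, norm_real, Real.norm_eq_abs, abs_mul,
          abs_two]
      have hn2 : ‖α - α'‖ = 2 * |α.im| := by
        rw [hαd, sub_conj, norm_mul, norm_I, mul_one, norm_real, Real.norm_eq_abs, abs_mul,
          abs_two]
      have hn3 : ‖e ϖ α - e ϖ' α'‖ = 2 * |(e ϖ α).im| := by
        rw [hconj, sub_conj, norm_mul, norm_I, mul_one, norm_real, Real.norm_eq_abs, abs_mul,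
          abs_two]
      have hsum : ‖e ϖ α - e ϖ' α'‖ ≤ ‖e ϖ α - e ϖ' α‖ + ‖e ϖ' α - e ϖ' α'‖ :=
        norm_sub_le_norm_sub_add_norm_sub _ _ _
      rw [hn3] at hsum
      rw [hn1] at hL1
      rw [hn2] at hL2
      have hA := abs_nonneg ϖ.im
      have hB := abs_nonneg α.im
      have : |(e ϖ α).im| ≤ K / (R / 2) * |ϖ.im| + K / ((Y₂ - Y₁) / 2) * |α.im| := by linarith
      refine this.trans ?_
      rw [hCdef]
      nlinarith [mul_nonneg hc1 hB, mul_nonneg hc2 hA, mul_nonneg hK0 hA, mul_nonneg hK0 hB]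

namespace PPre

theorem neg_mem_segm {w : ℂ} (hw : w ∈ segm 1) : -w ∈ segm 1 := by
  obtain ⟨h1, h2⟩ := hw
  refine ⟨?_, ?_⟩
  · rw [neg_im, h1, neg_zero]
  · rw [neg_re, abs_neg]; exact h2

theorem sin_lower {x ρ : ℝ} (hρ : 0 ≤ ρ) (h1 : ρ / 2 ≤ |x|) (h2 : |x| ≤ Real.pi / 2) :
    ρ / 4 ≤ |Real.sin x| := by
  have h3 : 2 / Real.pi * |x| ≤ Real.sin |x| := Real.mul_le_sin (abs_nonneg x) h2
  have h4 : Real.sin |x| ≤ |Real.sin x| := by
    rcases abs_cases x with ⟨h, -⟩ | ⟨h, -⟩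
    · rw [h]; exact le_abs_self _
    · rw [h, Real.sin_neg]; exact neg_le_abs _
  refine le_trans ?_ (h3.trans h4)
  have hpi := Real.pi_pos
  have hpi4 : Real.pi ≤ 4 := Real.pi_le_four
  have h5 : 1 / 2 ≤ 2 / Real.pi := by
    rw [div_le_div_iff₀ (by norm_num) hpi]
    linarith
  calc ρ / 4 = 1 / 2 * (ρ / 2) := by ring
    _ ≤ 2 / Real.pi * |x| := mul_le_mul h5 h1 (by linarith) (by positivity)

/-- Smallness of the imaginary part. -/
theorem im_small {α w : ℂ} {s : ℝ} {δ : ℝ} (hs : |s| ≤ 1) (h : cos α = s - w) (hw : ‖w‖ ≤ δ) :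
    α.im ^ 2 ≤ 2 * δ + δ ^ 2 := by
  have hδ : 0 ≤ δ := (norm_nonneg w).trans hw
  have h1 : ‖cos α‖ ^ 2 + ‖sin α‖ ^ 2 = 1 + 2 * Real.sinh α.im ^ 2 := by
    rw [← normSq_eq_norm_sq, ← normSq_eq_norm_sq, normSq_apply, normSq_apply, cos_re', cos_im',
      sin_re', sin_im']
    have h2 := Real.sin_sq_add_cos_sq α.re
    have h3 := Real.cosh_sq α.im
    have h4 : Real.sin α.re ^ 2 = 1 - Real.cos α.re ^ 2 := by linarith
    ring_nf
    rw [h4, h3]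
    ring
  have h2 : cos α ^ 2 = s ^ 2 + (-2 * s * w + w ^ 2) := by rw [h]; ring
  have h3 : ‖cos α‖ ^ 2 ≤ s ^ 2 + (2 * δ + δ ^ 2) := by
    rw [← norm_pow, h2]
    refine (norm_add_le _ _).trans ?_
    have e1 : ‖((s : ℂ)) ^ 2‖ = s ^ 2 := by
      rw [norm_pow, norm_real, Real.norm_eq_abs, sq_abs]
    have e2 : ‖-2 * (s : ℂ) * w + w ^ 2‖ ≤ 2 * δ + δ ^ 2 := by
      refine (norm_add_le _ _).trans ?_
      rw [norm_mul, norm_mul, norm_neg, norm_ofNat, norm_real, Real.norm_eq_abs, norm_pow]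
      have := norm_nonneg w
      have h5 : ‖w‖ ^ 2 ≤ δ ^ 2 := pow_le_pow_left₀ this hw 2
      nlinarith [mul_le_mul hs hw this zero_le_one, abs_nonneg s]
    rw [e1]
    linarith
  have h4 : ‖sin α‖ ^ 2 ≤ (1 - s ^ 2) + (2 * δ + δ ^ 2) := by
    have h5 : sin α ^ 2 = ((1 - s ^ 2 : ℝ) : ℂ) - (-2 * s * w + w ^ 2) := by
      have := sin_sq_add_cos_sq α
      push_cast
      linear_combination this - h2
    rw [← norm_pow, h5]
    refine (norm_sub_le _ _).trans ?_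
    have e1 : ‖((1 - s ^ 2 : ℝ) : ℂ)‖ = 1 - s ^ 2 := by
      rw [norm_real, Real.norm_eq_abs, abs_of_nonneg]
      have := (sq_le_one_iff_abs_le_one s).2 hs
      linarith
    have e2 : ‖-2 * (s : ℂ) * w + w ^ 2‖ ≤ 2 * δ + δ ^ 2 := by
      refine (norm_add_le _ _).trans ?_
      rw [norm_mul, norm_mul, norm_neg, norm_ofNat, norm_real, Real.norm_eq_abs, norm_pow]
      have := norm_nonneg w
      have h5 : ‖w‖ ^ 2 ≤ δ ^ 2 := pow_le_pow_left₀ this hw 2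
      nlinarith [mul_le_mul hs hw this zero_le_one, abs_nonneg s]
    rw [e1]
    linarith
  have h5 : Real.sinh α.im ^ 2 ≤ 2 * δ + δ ^ 2 := by linarith
  have h6 : α.im ^ 2 ≤ Real.sinh α.im ^ 2 := by
    rw [← sq_abs α.im, ← sq_abs (Real.sinh α.im), Real.abs_sinh]
    exact pow_le_pow_left₀ (abs_nonneg _) (Real.self_le_sinh_iff.2 (abs_nonneg _)) 2
  linarith

/-- The estimate away from the zeros of the sine. -/
theorem im_far {α ϖ e : ℂ} {ρ C r₀ : ℝ} (hρ : 0 < ρ) (hC : 0 ≤ C)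
    (hr1 : r₀ ≤ 1) (hr : C * r₀ ≤ ρ / 24) (hϖ : ‖ϖ‖ < r₀)
    (hs : ρ / 4 ≤ |Real.sin α.re|) (hc : (cos α + ϖ ^ 2 * e).im = 0) (he : ‖e‖ ≤ C)
    (he' : |e.im| ≤ C * (|ϖ.im| + |α.im|)) : |α.im| ≤ 9 / 8 * |ϖ.im| := by
  have hn := norm_nonneg ϖ
  have h1 : Real.sin α.re * Real.sinh α.im = (ϖ ^ 2 * e).im := by
    rw [add_im, cos_im'] at hc
    linarith
  have h2 : |Real.sin α.re| * |Real.sinh α.im| = |(ϖ ^ 2 * e).im| := by rw [← abs_mul, h1]
  have h3 : |α.im| ≤ |Real.sinh α.im| := by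
    rw [Real.abs_sinh]
    exact Real.self_le_sinh_iff.2 (abs_nonneg _)
  have h4 : |(ϖ ^ 2 * e).im| ≤ 2 * ‖ϖ‖ * |ϖ.im| * C + ‖ϖ‖ ^ 2 * (C * (|ϖ.im| + |α.im|)) := by
    have e1 : (ϖ ^ 2 * e).im = (ϖ ^ 2).re * e.im + (ϖ ^ 2).im * e.re := mul_im _ _
    have e2 : |(ϖ ^ 2).re| ≤ ‖ϖ‖ ^ 2 := by
      rw [← norm_pow]; exact abs_re_le_norm _
    have e3 : |(ϖ ^ 2).im| ≤ 2 * ‖ϖ‖ * |ϖ.im| := by
      have : (ϖ ^ 2).im = 2 * (ϖ.re * ϖ.im) := by rw [pow_two, mul_im]; ring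
      rw [this, abs_mul, abs_mul, abs_two]
      have := abs_re_le_norm ϖ
      nlinarith [abs_nonneg ϖ.im]
    have e4 : |e.re| ≤ C := (abs_re_le_norm e).trans he
    rw [e1]
    refine (abs_add_le _ _).trans ?_
    rw [abs_mul, abs_mul]
    have f1 : |(ϖ ^ 2).re| * |e.im| ≤ ‖ϖ‖ ^ 2 * (C * (|ϖ.im| + |α.im|)) :=
      mul_le_mul e2 he' (abs_nonneg _) (by positivity)
    have f2 : |(ϖ ^ 2).im| * |e.re| ≤ 2 * ‖ϖ‖ * |ϖ.im| * C :=
      mul_le_mul e3 e4 (abs_nonneg _) (by positivity)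
    linarith
  have hA := abs_nonneg ϖ.im
  have hB := abs_nonneg α.im
  have h5 : ρ / 4 * |α.im| ≤ |(ϖ ^ 2 * e).im| := by
    rw [← h2]
    exact mul_le_mul hs h3 hB (abs_nonneg _)
  have hCn : C * ‖ϖ‖ ≤ ρ / 24 := le_trans (mul_le_mul_of_nonneg_left hϖ.le hC) hr
  have hn1 : ‖ϖ‖ ≤ 1 := by linarith
  have hCn2 : C * ‖ϖ‖ ^ 2 ≤ ρ / 24 := by
    have : C * ‖ϖ‖ ^ 2 = (C * ‖ϖ‖) * ‖ϖ‖ := by ring
    rw [this]
    refine le_trans (mul_le_mul_of_nonneg_left hn1 (by positivity)) ?_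
    linarith
  have h6 : ρ / 4 * |α.im| ≤ 2 * (ρ / 24) * |ϖ.im| + ρ / 24 * (|ϖ.im| + |α.im|) := by
    refine h5.trans (h4.trans ?_)
    have g1 : 2 * ‖ϖ‖ * |ϖ.im| * C ≤ 2 * (ρ / 24) * |ϖ.im| := by
      have : 2 * ‖ϖ‖ * |ϖ.im| * C = 2 * (C * ‖ϖ‖) * |ϖ.im| := by ring
      rw [this]
      exact mul_le_mul_of_nonneg_right (by linarith) hA
    have g2 : ‖ϖ‖ ^ 2 * (C * (|ϖ.im| + |α.im|)) ≤ ρ / 24 * (|ϖ.im| + |α.im|) := by
      have : ‖ϖ‖ ^ 2 * (C * (|ϖ.im| + |α.im|)) = C * ‖ϖ‖ ^ 2 * (|ϖ.im| + |α.im|) := by ring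
      rw [this]
      exact mul_le_mul_of_nonneg_right hCn2 (by linarith)
    linarith
  have h7 : ρ * (5 / 24 * |α.im|) ≤ ρ * (3 / 24 * |ϖ.im|) := by linarith
  have h8 := le_of_mul_le_mul_left h7 hρ
  linarith

end PPre

open PPre

theorem PreData.shiftInt (P : PreData) {ϖ : ℂ} (hϖ : ‖ϖ‖ < P.r) (k : ℕ) :
    ∀ α : ℂ, |α.im| < P.Y' → P.c ϖ α ∈ segm 1 →
      P.c ϖ (α + k * Real.pi) ∈ segm 1 ∧ P.c ϖ (α - k * Real.pi) ∈ segm 1 := by
  induction k with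
  | zero => intro α _ h; simpa using h
  | succ k ih =>
    intro α hα h
    obtain ⟨h1, h2⟩ := ih α hα h
    refine ⟨?_, ?_⟩
    · have e1 : α + ((k + 1 : ℕ) : ℂ) * Real.pi = (α + k * Real.pi) + Real.pi := by
        push_cast; ring
      have e2 : |(α + (k : ℂ) * Real.pi).im| < P.Y' := by simpa using hα
      rw [e1, P.shift ϖ _ hϖ e2]
      exact neg_mem_segm h1
    · have e2 : |(α - ((k + 1 : ℕ) : ℂ) * Real.pi).im| < P.Y' := by
        have : (α - ((k + 1 : ℕ) : ℂ) * Real.pi).im = α.im := by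
          have h3 : ((k + 1 : ℕ) : ℂ) * (Real.pi : ℂ) = (((k + 1 : ℕ) * Real.pi : ℝ) : ℂ) := by
            push_cast; ring
          rw [sub_im, h3, ofReal_im, sub_zero]
        rw [this]; exact hα
      have e3 := P.shift ϖ _ hϖ e2
      have e1 : α - ((k + 1 : ℕ) : ℂ) * Real.pi + Real.pi = α - k * Real.pi := by
        push_cast; ring
      rw [e1] at e3
      have e4 : P.c ϖ (α - ((k + 1 : ℕ) : ℂ) * Real.pi) = -P.c ϖ (α - k * Real.pi) := by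
        rw [e3, neg_neg]
      rw [e4]
      exact neg_mem_segm h2

/-- Reduction to `|Re α| ≤ π/2`. -/
theorem PreData.exists_shift (P : PreData) {ϖ α : ℂ} (hϖ : ‖ϖ‖ < P.r) (hα : |α.im| < P.Y')
    (h : P.c ϖ α ∈ segm 1) :
    ∃ α' : ℂ, α'.im = α.im ∧ |α'.re| ≤ Real.pi / 2 ∧ P.c ϖ α' ∈ segm 1 := by
  have hpi := Real.pi_pos
  set k : ℤ := round (α.re / Real.pi) with hk
  have h1 : |α.re / Real.pi - k| ≤ 1 / 2 := abs_sub_round _
  have h2 : |α.re - k * Real.pi| ≤ Real.pi / 2 := by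
    have e1 : α.re - k * Real.pi = (α.re / Real.pi - k) * Real.pi := by field_simp
    rw [e1, abs_mul, abs_of_pos hpi]
    calc |α.re / Real.pi - k| * Real.pi ≤ 1 / 2 * Real.pi :=
          mul_le_mul_of_nonneg_right h1 hpi.le
      _ = Real.pi / 2 := by ring
  have e0 : ((k : ℂ) * (Real.pi : ℂ)) = ((k * Real.pi : ℝ) : ℂ) := by push_cast; ring
  refine ⟨α - k * Real.pi, ?_, ?_, ?_⟩
  · rw [sub_im, e0, ofReal_im, sub_zero]
  · rw [sub_re, e0, ofReal_re]; exact h2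
  · rcases Int.eq_nat_or_neg k with ⟨n, hn | hn⟩
    · rw [hn]
      have := (P.shiftInt hϖ n α hα h).2
      push_cast
      exact this
    · rw [hn]
      have := (P.shiftInt hϖ n α hα h).1
      push_cast
      have e1 : α - -(n : ℂ) * Real.pi = α + n * Real.pi := by ring
      rw [e1]
      exact this

theorem PreData.exists_cdata (P : PreData) : ∃ D : CData, D.c = P.c ∧ D.Y = P.Y ∧ D.r₀ ≤ P.r ∧
    D.Y₁ ≤ P.Y' := by
  have hY := P.Y_pos
  have hYY := P.Y_lt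
  have hPr := P.r_pos
  -- the strips
  set Y₁ : ℝ := min ((P.Y + P.Y') / 2) (5 / 4 * P.Y) with hY₁
  have a1 : P.Y < Y₁ := lt_min (by linarith) (by linarith)
  have a2 : Y₁ < P.Y' := lt_of_le_of_lt (min_le_left _ _) (by linarith)
  have a3 : Y₁ ≤ 5 / 4 * P.Y := min_le_right _ _
  have hY₁0 : 0 < Y₁ := hY.trans a1
  obtain ⟨C, r₁, hC, hr₁, hr₁P, e, he⟩ := P.exists_remainder hY₁0 a2
  -- the local estimates
  set rl : ℝ := min P.r P.Y' with hrl
  have hrl0 : 0 < rl := lt_min hPr (by linarith)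
  have hrlr : rl ≤ P.r := min_le_left _ _
  have hrlY : rl ≤ P.Y' := min_le_right _ _
  have him : ∀ α : ℂ, ‖α‖ < rl → |α.im| < P.Y' := fun α hα =>
    lt_of_le_of_lt (abs_im_le_norm α) (lt_of_lt_of_le hα hrlY)
  obtain ⟨ρ, hρ, hρrl, C', h, hh, hc⟩ := exists_sq (c := P.c) hrl0
    (P.diff.mono (fun p hp => ⟨lt_of_lt_of_le hp.1 hrlr, him _ hp.2⟩))
    (fun ϖ α h1 h2 => P.even₁ ϖ α (lt_of_lt_of_le h1 hrlr) (him _ h2))
    (fun ϖ α h1 h2 => P.even₂ ϖ α (lt_of_lt_of_le h1 hrlr) (him _ h2))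
    (fun ϖ α h1 h2 => P.conj ϖ α (lt_of_lt_of_le h1 hrlr) (him _ h2))
    (fun α h2 => P.zero α (him _ h2))
    (fun ϖ h1 => P.diag ϖ (lt_of_lt_of_le h1 hrlr) (him _ h1))
  obtain ⟨rA, hrA, -, hloc⟩ := loc_near hρ hh hc
  obtain ⟨rB, hrB, -, hnear⟩ := im_near hρ hh hc
  -- the range
  set κ : ℝ := Real.cosh (3 / 2 * P.Y) - Real.cosh Y₁ with hκ
  have hκ0 : 0 < κ := by
    have : Real.cosh Y₁ < Real.cosh (3 / 2 * P.Y) := by
      rw [Real.cosh_lt_cosh, abs_of_pos hY₁0, abs_of_pos (by linarith)]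
      linarith
    linarith
  -- the radius
  obtain ⟨r₀, hr₀, b1, b2, b3, b4, b5, b6, b7, b8⟩ : ∃ r₀ : ℝ, 0 < r₀ ∧ r₀ ≤ r₁ ∧ r₀ ≤ rA ∧
      r₀ ≤ rB / 2 ∧ r₀ ≤ 1 / 4 ∧ r₀ ≤ P.Y / 4 ∧ C * r₀ ≤ rB / 24 ∧ C * r₀ ≤ κ / 2 ∧
      r₀ ≤ P.r := by
    have hC1 : 0 < C + 1 := by linarith
    refine ⟨min r₁ (min rA (min (rB / 2) (min (1 / 4) (min (P.Y / 4)
      (min (rB / 24 / (C + 1)) (κ / 2 / (C + 1))))))), ?_, ?_, ?_, ?_, ?_, ?_, ?_, ?_, ?_⟩
    · refine lt_min hr₁ (lt_min hrA (lt_min (by linarith) (lt_min (by norm_num)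
        (lt_min (by linarith) (lt_min (by positivity) (by positivity))))))
    · exact min_le_left _ _
    · exact (min_le_right _ _).trans (min_le_left _ _)
    · exact (min_le_right _ _).trans ((min_le_right _ _).trans (min_le_left _ _))
    · exact (min_le_right _ _).trans ((min_le_right _ _).trans ((min_le_right _ _).trans
        (min_le_left _ _)))
    · exact (min_le_right _ _).trans ((min_le_right _ _).trans ((min_le_right _ _).trans
        ((min_le_right _ _).trans (min_le_left _ _))))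
    · refine (mul_le_mul_of_nonneg_left ((min_le_right _ _).trans ((min_le_right _ _).trans
        ((min_le_right _ _).trans ((min_le_right _ _).trans ((min_le_right _ _).trans
        (min_le_left _ _)))))) hC).trans ?_
      rw [← mul_div_assoc, div_le_iff₀ hC1]
      nlinarith
    · refine (mul_le_mul_of_nonneg_left ((min_le_right _ _).trans ((min_le_right _ _).trans
        ((min_le_right _ _).trans ((min_le_right _ _).trans ((min_le_right _ _).trans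
        (min_le_right _ _)))))) hC).trans ?_
      rw [← mul_div_assoc, div_le_iff₀ hC1]
      nlinarith
    · exact (min_le_left _ _).trans hr₁P
  have hsq : ∀ ϖ : ℂ, ‖ϖ‖ < r₀ → C * ‖ϖ‖ ^ 2 ≤ C * r₀ * r₀ := by
    intro ϖ hϖ
    have hn := norm_nonneg ϖ
    have : ‖ϖ‖ ^ 2 ≤ r₀ * r₀ := by nlinarith
    calc C * ‖ϖ‖ ^ 2 ≤ C * (r₀ * r₀) := mul_le_mul_of_nonneg_left this hC
      _ = C * r₀ * r₀ := by ring
  have hquad : ∀ ϖ α : ℂ, ‖ϖ‖ < r₀ → |α.im| < Y₁ → ‖P.c ϖ α - cos α‖ ≤ C * ‖ϖ‖ ^ 2 := by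
    intro ϖ α h1 h2
    obtain ⟨h3, h4, -⟩ := he ϖ α (by linarith) h2
    rw [h3, add_sub_cancel_left, norm_mul, norm_pow, mul_comm]
    exact mul_le_mul_of_nonneg_right h4 (by positivity)
  refine ⟨{ Y := P.Y, Y₁ := Y₁, Y₂ := 3 / 2 * P.Y, r₀ := r₀, C₀ := C, c := P.c
            Y_pos := hY, Y_lt := a1, Y₁_lt := by linarith, Y₂_lt := by linarith
            r₀_pos := hr₀, r₀_le := b4, r₀_le' := by linarith, C₀_nonneg := hC
            diff := P.diff.mono (fun p hp => ⟨lt_of_lt_of_le hp.1 b8, hp.2.trans a2⟩)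
            zero := fun α h1 => P.zero α (h1.trans a2)
            even₁ := fun ϖ α h1 h2 => P.even₁ ϖ α (lt_of_lt_of_le h1 b8) (h2.trans a2)
            even₂ := fun ϖ α h1 h2 => P.even₂ ϖ α (lt_of_lt_of_le h1 b8) (h2.trans a2)
            shift := fun ϖ α h1 h2 => P.shift ϖ α (lt_of_lt_of_le h1 b8) (h2.trans a2)
            conj := fun ϖ α h1 h2 => P.conj ϖ α (lt_of_lt_of_le h1 b8) (h2.trans a2)
            diag := fun ϖ h1 => P.diag ϖ (lt_of_lt_of_le h1 b8)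
              (by have := abs_im_le_norm ϖ; linarith)
            quad := hquad, im_le := ?_, loc := ?_, range := ?_ }, rfl, rfl, b8, a2.le⟩
  · -- `im_le`
    intro ϖ α hϖ hα hcs
    have hϖP : ‖ϖ‖ < P.r := lt_of_lt_of_le hϖ b8
    obtain ⟨α', hi, hre, hcs'⟩ := P.exists_shift hϖP (hα.trans a2) hcs
    rw [← hi]
    rw [← hi] at hα
    obtain ⟨h3, h4, h5⟩ := he ϖ α' (by linarith) hα
    -- the real value
    have hreal : P.c ϖ α' = ((P.c ϖ α').re : ℂ) := Complex.ext (by simp) (by simp [hcs'.1])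
    have hδ := hsq ϖ hϖ
    have hsmall : |α'.im| < rB / 2 := by
      have h6 : cos α' = ((P.c ϖ α').re : ℂ) - ϖ ^ 2 * e ϖ α' := by
        rw [← hreal, h3]; ring
      have h7 := im_small (δ := C * r₀ * r₀) hcs'.2 h6 (by
        rw [norm_mul, norm_pow]
        refine le_trans ?_ hδ
        rw [mul_comm]
        exact mul_le_mul_of_nonneg_right h4 (by positivity))
      have h8 : C * r₀ * r₀ ≤ rB / 24 * (rB / 2) :=
        mul_le_mul b6 b3 hr₀.le (by positivity)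
      have h8' : C * r₀ * r₀ ≤ rB / 24 * 1 :=
        mul_le_mul b6 (by linarith) hr₀.le (by positivity)
      have h9 : 0 ≤ C * r₀ * r₀ := by positivity
      have h10 : (C * r₀ * r₀) ^ 2 ≤ (rB / 24) ^ 2 :=
        pow_le_pow_left₀ h9 (by linarith) 2
      have h11 : α'.im ^ 2 < (rB / 2) ^ 2 := by nlinarith
      have := abs_lt_of_sq_lt_sq h11 (by positivity)
      exact this
    by_cases hx : |α'.re| < rB / 2
    · have h6 : ‖α'‖ < rB := by
        refine lt_of_le_of_lt (norm_le_abs_re_add_abs_im α') ?_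
        linarith
      exact hnear ϖ α' (by linarith) h6 hcs'
    · rw [not_lt] at hx
      refine im_far (ρ := rB) hrB hC (r₀ := r₀) (by linarith) b6 hϖ (sin_lower hrB.le hx hre) ?_ h4 h5
      rw [← h3]
      exact hcs'.1
  · -- `loc`
    intro ϖ α h1 h2 h3 h4 h5 h6
    exact hloc ϖ α (by linarith) (by linarith) h3 (by linarith) h5 h6
  · -- `range`
    intro ϖ α h1 h2
    have h3 := hquad ϖ α h1 h2
    have h4 : C * ‖ϖ‖ ^ 2 ≤ κ / 2 := by
      refine (hsq ϖ h1).trans ?_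
      have : C * r₀ * r₀ ≤ κ / 2 * 1 := mul_le_mul b7 (by linarith) hr₀.le (by positivity)
      linarith
    show ‖P.c ϖ α - 1‖ + ‖P.c ϖ α + 1‖ < 2 * Real.cosh (3 / 2 * P.Y)
    have h5 : ‖P.c ϖ α - 1‖ ≤ ‖P.c ϖ α - cos α‖ + ‖cos α - 1‖ :=
      norm_sub_le_norm_sub_add_norm_sub _ _ _
    have h6 : ‖P.c ϖ α + 1‖ ≤ ‖P.c ϖ α - cos α‖ + ‖cos α + 1‖ := by
      have : P.c ϖ α + 1 = (P.c ϖ α - cos α) + (cos α + 1) := by ring
      rw [this]
      exact norm_add_le _ _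
    have h7 := norm_cos_sub_add_norm_cos_add α
    have h8 : Real.cosh α.im ≤ Real.cosh Y₁ := by
      rw [Real.cosh_le_cosh, abs_of_pos hY₁0]
      exact h2.le
    linarith

end LSB
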