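import Pool.Agent.LSB.EV
import Pool.Agent.LSB.PPre

/-!
# Part E, module ECD: the abstract data from `VData`

Paper proof.  `cfun ϖ α=cos(Gi β α)/cos x`, `x=V ϖ`, `β=tan²x`.  `diff`: composition.  `zero`: `Gi 0 α=α`.
`even₁`: `V` odd, so `β` and `cos x` are even.  `even₂`: `Gi` odd.  `shift`: `Gi_per`.  `conj`.  `diag`: `Gi β ϖ=x` by `Gh_V`, `Gi_Gh`.
-/

namespace LSB

open Complex

/-- `cos α₀` as a function of `ϖ` and `α`. -/
noncomputable def VData.cfun {Y : ℝ} {T : ℂ → ℂ} (vd : VData Y T) (ϖ α : ℂ) : ℂ :=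
  cos (vd.Gi (tan (vd.V ϖ) ^ 2) α) / cos (vd.V ϖ)

private theorem cos_ne_zero_of_norm_lt {z : ℂ} (hz : ‖z‖ < 1 / 4) : cos z ≠ 0 := by
  intro h
  rw [Complex.cos_eq_zero_iff] at h
  obtain ⟨k, hk⟩ := h
  have h1 : ‖z‖ = |(2 * (k : ℝ) + 1)| * Real.pi / 2 := by
    rw [hk]
    have : ((2 * (k : ℂ) + 1) * (Real.pi : ℂ) / 2) = (((2 * (k : ℝ) + 1) * Real.pi / 2 : ℝ) : ℂ) := by
      push_cast; ring
    rw [this, Complex.norm_real, Real.norm_eq_abs, abs_div, abs_mul, abs_of_pos Real.pi_pos]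
    norm_num
  have h2 : (1 : ℝ) ≤ |(2 * (k : ℝ) + 1)| := by
    have : (1 : ℤ) ≤ |2 * k + 1| := by
      apply Int.one_le_abs
      omega
    exact_mod_cast this
  have h3 := Real.pi_gt_three
  nlinarith

theorem VData.exists_preData {Y : ℝ} (hY : 0 < Y) {T : ℂ → ℂ} (vd : VData Y T) :
    ∃ P : PreData, P.c = vd.cfun ∧ P.Y = Y ∧ P.r = vd.r₁ ∧ P.Y' = 3 / 2 * Y := by
  have hV0 : vd.V 0 = 0 := by
    have h := vd.V_odd 0 (by simpa using vd.r₁_pos)
    rw [neg_zero] at h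
    have h2 : (2 : ℂ) * vd.V 0 = 0 := by
      rw [two_mul]
      nth_rewrite 1 [h]
      ring
    simpa using h2
  have hcos : ∀ ϖ : ℂ, ‖ϖ‖ < vd.r₁ → cos (vd.V ϖ) ≠ 0 := fun ϖ h =>
    cos_ne_zero_of_norm_lt (vd.V_norm ϖ h).2.1
  have h32 : ∀ α : ℂ, |α.im| < 3 / 2 * Y → |α.im| < 8 / 5 * Y := fun α h => by linarith
  refine ⟨{
    Y := Y
    Y' := 3 / 2 * Y
    r := vd.r₁
    c := vd.cfun
    Y_pos := hY
    Y_lt := by linarith
    r_pos := vd.r₁_pos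
    diff := ?_
    zero := ?_
    even₁ := ?_
    even₂ := ?_
    shift := ?_
    conj := ?_
    diag := ?_ }, rfl, rfl, rfl, rfl⟩
  · intro p hp
    obtain ⟨hp1, hp2⟩ := hp
    have hVd : DifferentiableAt ℂ vd.V p.1 :=
      vd.V_diff.differentiableAt (Metric.isOpen_ball.mem_nhds (by simpa using hp1))
    have hV : DifferentiableAt ℂ (fun p : ℂ × ℂ => vd.V p.1) p :=
      DifferentiableAt.comp p hVd differentiableAt_fst
    have hc := hcos p.1 hp1
    have htan : DifferentiableAt ℂ (fun p : ℂ × ℂ => tan (vd.V p.1) ^ 2) p := by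
      have h1 : DifferentiableAt ℂ tan (vd.V p.1) := Complex.differentiableAt_tan.2 hc
      exact (DifferentiableAt.comp p h1 hV).pow 2
    have hopen : IsOpen {p : ℂ × ℂ | ‖p.1‖ < vd.β₁ ∧ |p.2.im| < 8 / 5 * Y} := by
      apply IsOpen.inter
      · exact isOpen_lt (continuous_norm.comp continuous_fst) continuous_const
      · exact isOpen_lt (continuous_abs.comp (Complex.continuous_im.comp continuous_snd))
          continuous_const
    have hGi : DifferentiableAt ℂ (fun p : ℂ × ℂ => vd.Gi p.1 p.2) (tan (vd.V p.1) ^ 2, p.2) :=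
      vd.Gi_diff.differentiableAt (hopen.mem_nhds ⟨vd.tan_lt p.1 hp1, h32 _ hp2⟩)
    have hG : DifferentiableAt ℂ (fun p : ℂ × ℂ => vd.Gi (tan (vd.V p.1) ^ 2) p.2) p :=
      DifferentiableAt.comp p (g := fun p : ℂ × ℂ => vd.Gi p.1 p.2)
        (f := fun p : ℂ × ℂ => (tan (vd.V p.1) ^ 2, p.2)) hGi (htan.prodMk differentiableAt_snd)
    have hfin : DifferentiableAt ℂ
        (fun p : ℂ × ℂ => cos (vd.Gi (tan (vd.V p.1) ^ 2) p.2) / cos (vd.V p.1)) p :=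
      by
        have hc' : (fun p : ℂ × ℂ => cos (vd.V p.1)) p ≠ 0 := hc
        have h1 : DifferentiableAt ℂ (fun p : ℂ × ℂ => (cos (vd.V p.1))⁻¹) p :=
          DifferentiableAt.fun_inv hV.ccos hc'
        simpa only [div_eq_mul_inv] using hG.ccos.fun_mul h1
    exact hfin.differentiableWithinAt
  · intro α hα
    unfold VData.cfun
    have h0 : vd.Gi (tan (vd.V 0) ^ 2) α = α := by
      rw [hV0, Complex.tan_zero, zero_pow two_ne_zero]
      have h := vd.Gi_near 0 α (by simpa using vd.β₁_pos) (h32 _ hα)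
      rw [norm_zero, mul_zero] at h
      have h' := norm_le_zero_iff.1 h
      exact sub_eq_zero.1 h'
    rw [h0, hV0, Complex.cos_zero, div_one]
  · intro ϖ α hϖ hα
    unfold VData.cfun
    rw [vd.V_odd ϖ hϖ, Complex.tan_neg, neg_sq, Complex.cos_neg]
  · intro ϖ α hϖ hα
    unfold VData.cfun
    rw [vd.Gi_odd _ α (vd.tan_lt ϖ hϖ) (h32 _ hα), Complex.cos_neg]
  · intro ϖ α hϖ hα
    unfold VData.cfun
    rw [vd.Gi_per _ α (vd.tan_lt ϖ hϖ) (h32 _ hα), Complex.cos_add_pi, neg_div]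
  · intro ϖ α hϖ hα
    unfold VData.cfun
    rw [vd.V_conj ϖ hϖ]
    have h1 : tan (starRingEnd ℂ (vd.V ϖ)) ^ 2 = starRingEnd ℂ (tan (vd.V ϖ) ^ 2) := by
      rw [map_pow, Complex.tan_conj]
    rw [h1, vd.Gi_conj _ α (vd.tan_lt ϖ hϖ) (h32 _ hα), Complex.cos_conj, Complex.cos_conj, map_div₀]
  · intro ϖ hϖ _
    unfold VData.cfun
    have h1 : vd.Gi (tan (vd.V ϖ) ^ 2) ϖ = vd.V ϖ := by
      have h2 := vd.Gi_Gh (tan (vd.V ϖ) ^ 2) (vd.V ϖ) (vd.tan_lt ϖ hϖ) (by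
        have h3 := (vd.V_norm ϖ hϖ).2.2
        have h4 := Complex.abs_im_le_norm (vd.V ϖ)
        linarith)
      rw [vd.Gh_V ϖ hϖ] at h2
      exact h2
    rw [h1, div_self (hcos ϖ hϖ)]

end LSB
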