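import Pool.Agent.LSB.EAmp

/-!
# Part E, module ECs: the elliptic function `cs` by Cauchy-Riemann

Paper proof.  Put `μ=a/c`, `k²=b₁²/a²`, `k₁²=b²/a²` (`k²+k₁²=1`), and `S=sin f(x)`, `C=cos f(x)`, `D=hE a b (f x)/a`,
`S₁=sin f₁(y)`, `C₁=cos f₁(y)`, `D₁=hE a b₁ (f₁ y)/a`.  Then `D²=1-k²S²=k₁²+k²C²`, `D₁²=1-k₁²S₁²=k²+k₁²C₁²`, `S'=μCD`, `C'=-μSD`,
`D'=-μk²SC`, `S₁'=μC₁D₁`, `C₁'=-μS₁D₁`, `D₁'=-μk₁²S₁C₁`.  `Cs(x+iy)=(S C C₁D₁ - i D S₁)/Δ`, `Δ=1-C²C₁²=S²C₁²+S₁²`.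
Cauchy-Riemann, `u=S C C₁D₁/Δ`, `v=-D S₁/Δ`, `Δ_x=2μSCDC₁²`, `Δ_y=2μC²C₁S₁D₁`:
`u_x=v_y=μDC₁D₁(C²S₁²-S²)/Δ²`; `u_y=-μSCS₁[(D₁²+k₁²C₁²)Δ+2C²C₁²D₁²]/Δ²`, `v_x=μSCS₁[k²Δ+2D²C₁²]/Δ²` and
`(D₁²+k₁²C₁²)Δ+2C²C₁²D₁²=k²+2k₁²C₁²+k²C²C₁²=k²Δ+2D²C₁²`.  So `Cs` is complex differentiable where `Δ≠0`
(`differentiableAt_complex_iff_differentiableAt_real` in Mathlib/Analysis/Complex/Conformal.lean).
`Δ=0` iff `S₁=0` and `S=0`, i.e. `f x∈πℤ` and `f₁ y∈πℤ`, i.e. `x∈πℤ` (period `π` of the amplitude by hypothesis `hT`) and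
`y∈2Yℤ`.  Symmetries: `f,f₁` odd, `f(x+π)=f(x)+π`.  Norm: `‖Cs‖²=(S²C²C₁²D₁²+D²S₁²)/Δ²≤(S²C₁²+S₁²)/Δ²=1/Δ`.
-/

namespace LSB

open Complex

/-- The function `cs` (up to scaling) built from two amplitude functions. -/
noncomputable def Csf (a b b₁ : ℝ) (f f₁ : ℝ → ℝ) (z : ℂ) : ℂ :=
  (((Real.sin (f z.re) * Real.cos (f z.re) * Real.cos (f₁ z.im) * (hE a b₁ (f₁ z.im) / a) : ℝ) : ℂ)
      - ((hE a b (f z.re) / a * Real.sin (f₁ z.im) : ℝ) : ℂ) * I) /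
    ((1 - Real.cos (f z.re) ^ 2 * Real.cos (f₁ z.im) ^ 2 : ℝ) : ℂ)

variable {a b b₁ c : ℝ} {f f₁ : ℝ → ℝ}

/-! ### amplitudes at multiples of the half period -/

private theorem amp_nat {T : ℝ} (h0 : f 0 = 0) (hp : ∀ x, f (x + T) = f x + Real.pi) (n : ℕ) :
    f (n * T) = n * Real.pi := by
  induction n with
  | zero => simp [h0]
  | succ n ih =>
    have h1 : ((n + 1 : ℕ) : ℝ) * T = n * T + T := by push_cast; ring
    rw [h1, hp, ih]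
    push_cast
    ring

private theorem amp_int {T : ℝ} (h0 : f 0 = 0) (hodd : ∀ x, f (-x) = -f x)
    (hp : ∀ x, f (x + T) = f x + Real.pi) (n : ℤ) : f (n * T) = n * Real.pi := by
  obtain ⟨m, rfl | rfl⟩ := n.eq_nat_or_neg
  · simpa using amp_nat h0 hp m
  · have h1 : ((-(m : ℤ) : ℤ) : ℝ) * T = -((m : ℝ) * T) := by push_cast; ring
    rw [h1, hodd, amp_nat h0 hp m]
    push_cast
    ring

private theorem amp_sin_zero {T : ℝ} (hinj : Function.Injective f) (h0 : f 0 = 0)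
    (hodd : ∀ x, f (-x) = -f x)
    (hp : ∀ x, f (x + T) = f x + Real.pi) {x : ℝ} (hx : Real.sin (f x) = 0) :
    ∃ n : ℤ, x = n * T := by
  obtain ⟨n, hn⟩ := Real.sin_eq_zero_iff.1 hx
  refine ⟨n, hinj ?_⟩
  rw [amp_int h0 hodd hp n, hn]

/-! ### calculus in real coordinates -/

private theorem hasF_mul {g h : ℂ → ℝ} {z : ℂ} {g1 g2 h1 h2 : ℝ}
    (hg : HasFDerivAt g (g1 • reCLM + g2 • imCLM) z) (hh : HasFDerivAt h (h1 • reCLM + h2 • imCLM) z) :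
    HasFDerivAt (fun w => g w * h w)
      ((g1 * h z + g z * h1) • reCLM + (g2 * h z + g z * h2) • imCLM) z := by
  have h3 := hg.mul hh
  refine h3.congr_fderiv ?_
  ext w
  simp
  ring

private theorem hasF_sub {g h : ℂ → ℝ} {z : ℂ} {g1 g2 h1 h2 : ℝ}
    (hg : HasFDerivAt g (g1 • reCLM + g2 • imCLM) z) (hh : HasFDerivAt h (h1 • reCLM + h2 • imCLM) z) :
    HasFDerivAt (fun w => g w - h w) ((g1 - h1) • reCLM + (g2 - h2) • imCLM) z := by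
  have h3 := hg.sub hh
  refine h3.congr_fderiv ?_
  ext w
  simp
  ring

private theorem hasF_div {g h : ℂ → ℝ} {z : ℂ} {g1 g2 h1 h2 : ℝ}
    (hg : HasFDerivAt g (g1 • reCLM + g2 • imCLM) z) (hh : HasFDerivAt h (h1 • reCLM + h2 • imCLM) z)
    (h0 : h z ≠ 0) :
    HasFDerivAt (fun w => g w / h w)
      (((g1 * h z - g z * h1) / h z ^ 2) • reCLM + ((g2 * h z - g z * h2) / h z ^ 2) • imCLM) z := by
  have h4 : HasFDerivAt (fun w => (h w)⁻¹)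
      ((-h1 / h z ^ 2) • reCLM + (-h2 / h z ^ 2) • imCLM) z := by
    have h5 := (hasDerivAt_inv h0).comp_hasFDerivAt z hh
    refine h5.congr_fderiv ?_
    ext w
    simp
    ring
  have h6 := hasF_mul hg h4
  simp only [div_eq_mul_inv (g _)]
  refine h6.congr_fderiv ?_
  have e1 : g1 * (h z)⁻¹ + g z * (-h1 / h z ^ 2) = (g1 * h z - g z * h1) / (h z ^ 2) := by
    field_simp
    ring
  have e2 : g2 * (h z)⁻¹ + g z * (-h2 / h z ^ 2) = (g2 * h z - g z * h2) / (h z ^ 2) := by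
    field_simp
    ring
  rw [e1, e2]

private theorem hasF_re {g : ℝ → ℝ} {g' : ℝ} {z : ℂ} (hg : HasDerivAt g g' z.re) :
    HasFDerivAt (fun w : ℂ => g w.re) (g' • reCLM + (0 : ℝ) • imCLM) z := by
  have h1 := HasDerivAt.comp_hasFDerivAt (f := fun w : ℂ => w.re) z hg (reCLM.hasFDerivAt (x := z))
  refine h1.congr_fderiv ?_
  ext w
  simp

private theorem hasF_im {g : ℝ → ℝ} {g' : ℝ} {z : ℂ} (hg : HasDerivAt g g' z.im) :
    HasFDerivAt (fun w : ℂ => g w.im) ((0 : ℝ) • reCLM + g' • imCLM) z := by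
  have h1 := HasDerivAt.comp_hasFDerivAt (f := fun w : ℂ => w.im) z hg (imCLM.hasFDerivAt (x := z))
  refine h1.congr_fderiv ?_
  ext w
  simp

private theorem hasF_const (r : ℝ) (z : ℂ) :
    HasFDerivAt (fun _ : ℂ => r) ((0 : ℝ) • reCLM + (0 : ℝ) • imCLM) z := by
  simpa using hasFDerivAt_const r z

private theorem cauchy_riemann {u v : ℂ → ℝ} {z : ℂ} {p q : ℝ}
    (hu : HasFDerivAt u (p • reCLM + (-q) • imCLM) z) (hv : HasFDerivAt v (q • reCLM + p • imCLM) z) :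
    DifferentiableAt ℂ (fun w => (u w : ℂ) + (v w : ℂ) * I) z := by
  have h1 : HasFDerivAt (fun w => (u w : ℂ)) (ofRealCLM.comp (p • reCLM + (-q) • imCLM)) z :=
    ofRealCLM.hasFDerivAt.comp z hu
  have h2 : HasFDerivAt (fun w => (v w : ℂ)) (ofRealCLM.comp (q • reCLM + p • imCLM)) z :=
    ofRealCLM.hasFDerivAt.comp z hv
  have h3 := h1.add (h2.mul_const I)
  refine (h3.complexOfReal_hasFDerivAt ?_).differentiableAt
  simp
  ring_nf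
  simp

/-! ### derivatives of the building blocks -/

private theorem dS (hf : IsAmp a b c f) (x : ℝ) :
    HasDerivAt (fun t => Real.sin (f t)) (Real.cos (f x) * (hE a b (f x) / c)) x :=
  (hf.deriv x).sin

private theorem dC (hf : IsAmp a b c f) (x : ℝ) :
    HasDerivAt (fun t => Real.cos (f t)) (-Real.sin (f x) * (hE a b (f x) / c)) x :=
  (hf.deriv x).cos

private theorem dD (ha : 0 < a) (hb : 0 < b) (hab : b ≤ a) (hf : IsAmp a b c f) (x : ℝ) :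
    HasDerivAt (fun t => hE a b (f t) / a)
      (-((a ^ 2 - b ^ 2) / (a * c)) * Real.sin (f x) * Real.cos (f x)) x := by
  have h1 := ((hasDerivAt_hE hb hab (f x)).comp x (hf.deriv x)).div_const a
  have h2 := (hE_pos hb hab (f x)).ne'
  have h3 : (b ^ 2 - a ^ 2) * Real.sin (f x) * Real.cos (f x) / hE a b (f x) * (hE a b (f x) / c) / a
      = -((a ^ 2 - b ^ 2) / (a * c)) * Real.sin (f x) * Real.cos (f x) := by
    rcases eq_or_ne c 0 with rfl | hc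
    · simp
    · field_simp
      ring
  rw [← h3]
  exact h1

private theorem hE_div_sq (ha : 0 < a) (ψ : ℝ) :
    (hE a b ψ / a) ^ 2 = b ^ 2 / a ^ 2 + (a ^ 2 - b ^ 2) / a ^ 2 * Real.cos ψ ^ 2 := by
  have h1 := Real.sin_sq_add_cos_sq ψ
  rw [div_pow, hE_sq]
  field_simp
  linear_combination b ^ 2 * h1

theorem Csf_den_ne_zero (ha : 0 < a) (hb : 0 < b) (hb₁ : 0 < b₁) (hc : 0 < c)
    (hf : IsAmp a b c f) (hf₁ : IsAmp a b₁ c f₁) (hT : c * ∫ t in (0 : ℝ)..Real.pi, 1 / hE a b t = Real.pi)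
    {Y : ℝ} (hY : c * ∫ t in (0 : ℝ)..Real.pi, 1 / hE a b₁ t = 2 * Y) {z : ℂ} (hz : |z.im| < 2 * Y)
    (hz' : ∀ k : ℤ, z ≠ k * Real.pi) :
    0 < 1 - Real.cos (f z.re) ^ 2 * Real.cos (f₁ z.im) ^ 2 := by
  by_contra hcon
  have h1 := Real.sin_sq_add_cos_sq (f z.re)
  have h2 := Real.sin_sq_add_cos_sq (f₁ z.im)
  have h3 : Real.cos (f z.re) ^ 2 ≤ 1 := Real.cos_sq_le_one _
  have h4 : Real.cos (f₁ z.im) ^ 2 ≤ 1 := Real.cos_sq_le_one _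
  have h5 : 1 ≤ Real.cos (f z.re) ^ 2 * Real.cos (f₁ z.im) ^ 2 := by linarith
  have h6 : 1 ≤ Real.cos (f z.re) ^ 2 := by
    nlinarith [sq_nonneg (Real.cos (f z.re)), sq_nonneg (Real.cos (f₁ z.im))]
  have h7 : 1 ≤ Real.cos (f₁ z.im) ^ 2 := by
    nlinarith [sq_nonneg (Real.cos (f z.re)), sq_nonneg (Real.cos (f₁ z.im))]
  have h8 : Real.sin (f z.re) = 0 := by
    have : Real.sin (f z.re) ^ 2 = 0 := by nlinarith [sq_nonneg (Real.sin (f z.re))]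
    exact pow_eq_zero_iff (two_ne_zero) |>.1 this
  have h9 : Real.sin (f₁ z.im) = 0 := by
    have : Real.sin (f₁ z.im) ^ 2 = 0 := by nlinarith [sq_nonneg (Real.sin (f₁ z.im))]
    exact pow_eq_zero_iff (two_ne_zero) |>.1 this
  obtain ⟨n, hn⟩ := amp_sin_zero hf.mono.injective hf.zero hf.odd hf.period h8
  obtain ⟨m, hm⟩ := amp_sin_zero hf₁.mono.injective hf₁.zero hf₁.odd hf₁.period h9
  rw [hT] at hn
  rw [hY] at hm
  have hYpos : 0 < 2 * Y := lt_of_le_of_lt (abs_nonneg _) hz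
  have h10 : m = 0 := by
    rw [hm, abs_mul, abs_of_pos hYpos] at hz
    have h11 : |(m : ℝ)| < 1 := by
      by_contra h12
      nlinarith
    have h12 : |m| < 1 := by exact_mod_cast h11
    exact Int.abs_lt_one_iff.1 h12
  apply hz' n
  apply Complex.ext
  · simpa using hn
  · rw [h10] at hm
    simpa using hm

theorem Csf_differentiableAt (ha : 0 < a) (hb : 0 < b) (hb₁ : 0 < b₁) (hbb : b ^ 2 + b₁ ^ 2 = a ^ 2)
    (hc : 0 < c) (hf : IsAmp a b c f) (hf₁ : IsAmp a b₁ c f₁) {z : ℂ}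
    (hz : 1 - Real.cos (f z.re) ^ 2 * Real.cos (f₁ z.im) ^ 2 ≠ 0) :
    DifferentiableAt ℂ (Csf a b b₁ f f₁) z := by
  have hab : b ≤ a := by nlinarith [sq_nonneg b₁]
  have hab₁ : b₁ ≤ a := by nlinarith [sq_nonneg b]
  have fS := hasF_re (dS hf z.re)
  have fC := hasF_re (dC hf z.re)
  have fD := hasF_re (dD ha hb hab hf z.re)
  have fS₁ := hasF_im (dS hf₁ z.im)
  have fC₁ := hasF_im (dC hf₁ z.im)
  have fD₁ := hasF_im (dD ha hb₁ hab₁ hf₁ z.im)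
  have fΔ := hasF_sub (hasF_const 1 z) (hasF_mul (hasF_mul fC fC) (hasF_mul fC₁ fC₁))
  have hz2 : (1 : ℝ) - Real.cos (f z.re) * Real.cos (f z.re) *
      (Real.cos (f₁ z.im) * Real.cos (f₁ z.im)) ≠ 0 := by
    intro h
    apply hz
    rw [← h]
    ring
  have fu := hasF_div (hasF_mul (hasF_mul (hasF_mul fS fC) fC₁) fD₁) fΔ hz2
  have fv := hasF_div (hasF_sub (hasF_const 0 z) (hasF_mul fD fS₁)) fΔ hz2
  have hD := hE_div_sq (b := b) ha (f z.re)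
  have hD₁ := hE_div_sq (b := b₁) ha (f₁ z.im)
  have hS := Real.sin_sq_add_cos_sq (f z.re)
  have hS₁ := Real.sin_sq_add_cos_sq (f₁ z.im)
  have hH : hE a b (f z.re) = a * (hE a b (f z.re) / a) := by field_simp
  have hH₁ : hE a b₁ (f₁ z.im) = a * (hE a b₁ (f₁ z.im) / a) := by field_simp
  have hk : (a ^ 2 - b ^ 2) / a ^ 2 = b₁ ^ 2 / a ^ 2 := by rw [← hbb]; ring
  have hk₁ : (a ^ 2 - b₁ ^ 2) / a ^ 2 = b ^ 2 / a ^ 2 := by rw [← hbb]; ring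
  have hkc : (a ^ 2 - b ^ 2) / (a * c) = a / c * (b₁ ^ 2 / a ^ 2) := by
    rw [← hk]; field_simp
  have hkc₁ : (a ^ 2 - b₁ ^ 2) / (a * c) = a / c * (b ^ 2 / a ^ 2) := by
    rw [← hk₁]; field_simp
  rw [hk] at hD
  rw [hk₁] at hD₁
  have heq : Csf a b b₁ f f₁ = fun w => ((((Real.sin (f w.re) * Real.cos (f w.re)) * Real.cos (f₁ w.im)) *
      (hE a b₁ (f₁ w.im) / a) / (1 - (Real.cos (f w.re) * Real.cos (f w.re)) *
      (Real.cos (f₁ w.im) * Real.cos (f₁ w.im))) : ℝ) : ℂ) +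
      (((0 - hE a b (f w.re) / a * Real.sin (f₁ w.im)) / (1 - (Real.cos (f w.re) * Real.cos (f w.re)) *
      (Real.cos (f₁ w.im) * Real.cos (f₁ w.im))) : ℝ) : ℂ) * I := by
    funext w
    simp only [Csf]
    push_cast
    ring
  rw [heq]
  refine cauchy_riemann (fu.congr_fderiv ?_) fv
  ext w
  simp only [ContinuousLinearMap.add_apply, ContinuousLinearMap.smul_apply, reCLM_apply, imCLM_apply,
    smul_eq_mul]
  simp only [hkc, hkc₁]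
  have hcH : hE a b (f z.re) / c = a / c * (hE a b (f z.re) / a) := by field_simp
  have hcH₁ : hE a b₁ (f₁ z.im) / c = a / c * (hE a b₁ (f₁ z.im) / a) := by field_simp
  simp only [hcH, hcH₁]
  generalize hE a b (f z.re) / a = D at hD ⊢
  generalize hE a b₁ (f₁ z.im) / a = D₁ at hD₁ ⊢
  generalize Real.sin (f z.re) = S at hS hD ⊢
  generalize Real.sin (f₁ z.im) = S₁ at hS₁ hD₁ ⊢
  generalize Real.cos (f z.re) = C at hS hD hz2 hz ⊢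
  generalize Real.cos (f₁ z.im) = C₁ at hS₁ hD₁ hz2 hz ⊢
  generalize a / c = μ
  have hk12 : b₁ ^ 2 / a ^ 2 + b ^ 2 / a ^ 2 = 1 := by
    rw [← add_div, add_comm, hbb]
    field_simp
  generalize b₁ ^ 2 / a ^ 2 = k₂ at hD hD₁ hk12 ⊢
  generalize b ^ 2 / a ^ 2 = k₁ at hD hD₁ hk12 ⊢
  generalize w.re = X
  generalize w.im = Y
  linear_combination
    (X * (-(μ * D * C₁ * D₁) * ((1 - C * C * (C₁ * C₁)) + 2 * C ^ 2 * C₁ ^ 2)) /
      (1 - C * C * (C₁ * C₁)) ^ 2) * hS +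
    (X * (-(μ * D * C₁ * D₁) * 2 * C ^ 2) / (1 - C * C * (C₁ * C₁)) ^ 2) * hS₁ +
    (Y * (-(μ * S * C * S₁) * ((1 - C * C * (C₁ * C₁)) + 2 * C ^ 2 * C₁ ^ 2)) /
      (1 - C * C * (C₁ * C₁)) ^ 2) * hD₁ +
    (Y * (2 * μ * S * C * S₁ * C₁ ^ 2) / (1 - C * C * (C₁ * C₁)) ^ 2) * hD

private theorem Csf_eq (z : ℂ) : Csf a b b₁ f f₁ z =
    (((Real.sin (f z.re) * Real.cos (f z.re) * Real.cos (f₁ z.im) * (hE a b₁ (f₁ z.im) / a)) /
      (1 - Real.cos (f z.re) ^ 2 * Real.cos (f₁ z.im) ^ 2) : ℝ) : ℂ) +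
    ((-(hE a b (f z.re) / a * Real.sin (f₁ z.im)) /
      (1 - Real.cos (f z.re) ^ 2 * Real.cos (f₁ z.im) ^ 2) : ℝ) : ℂ) * I := by
  simp only [Csf]
  push_cast
  ring

theorem Csf_norm_sq_le (ha : 0 < a) (hb : 0 < b) (hb₁ : 0 < b₁) (hbb : b ^ 2 + b₁ ^ 2 = a ^ 2)
    (z : ℂ) (hz : 0 < 1 - Real.cos (f z.re) ^ 2 * Real.cos (f₁ z.im) ^ 2) :
    ‖Csf a b b₁ f f₁ z‖ ^ 2 ≤ 1 / (1 - Real.cos (f z.re) ^ 2 * Real.cos (f₁ z.im) ^ 2) := by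
  rw [Csf_eq, ← Complex.normSq_eq_norm_sq, Complex.normSq_add_mul_I]
  have hD := hE_div_sq (b := b) ha (f z.re)
  have hD₁ := hE_div_sq (b := b₁) ha (f₁ z.im)
  have hS := Real.sin_sq_add_cos_sq (f z.re)
  have hS₁ := Real.sin_sq_add_cos_sq (f₁ z.im)
  have hk : (a ^ 2 - b ^ 2) / a ^ 2 = b₁ ^ 2 / a ^ 2 := by rw [← hbb]; ring
  have hk₁ : (a ^ 2 - b₁ ^ 2) / a ^ 2 = b ^ 2 / a ^ 2 := by rw [← hbb]; ring
  have hk12 : b₁ ^ 2 / a ^ 2 + b ^ 2 / a ^ 2 = 1 := by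
    rw [← add_div, add_comm, hbb]
    field_simp
  have hk1p : 0 ≤ b ^ 2 / a ^ 2 := by positivity
  have hk2p : 0 ≤ b₁ ^ 2 / a ^ 2 := by positivity
  rw [hk] at hD
  rw [hk₁] at hD₁
  generalize hE a b (f z.re) / a = D at hD ⊢
  generalize hE a b₁ (f₁ z.im) / a = D₁ at hD₁ ⊢
  generalize Real.sin (f z.re) = S at hS hD hz ⊢
  generalize Real.sin (f₁ z.im) = S₁ at hS₁ hD₁ hz ⊢
  generalize Real.cos (f z.re) = C at hS hD hz ⊢
  generalize Real.cos (f₁ z.im) = C₁ at hS₁ hD₁ hz ⊢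
  generalize b₁ ^ 2 / a ^ 2 = k₂ at hD hD₁ hk12 hk2p ⊢
  generalize b ^ 2 / a ^ 2 = k₁ at hD hD₁ hk12 hk1p ⊢
  have hC1 : C ^ 2 ≤ 1 := by nlinarith [sq_nonneg S]
  have hC₁1 : C₁ ^ 2 ≤ 1 := by nlinarith [sq_nonneg S₁]
  have hD1 : D ^ 2 ≤ 1 := by nlinarith [mul_le_mul_of_nonneg_left hC1 hk2p]
  have hD₁1 : D₁ ^ 2 ≤ 1 := by nlinarith [mul_le_mul_of_nonneg_left hC₁1 hk1p]
  have h1 : (S * C * C₁ * D₁) ^ 2 ≤ S ^ 2 * C₁ ^ 2 := by
    have h2 : C ^ 2 * D₁ ^ 2 ≤ 1 := mul_le_one₀ hC1 (sq_nonneg _) hD₁1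
    calc (S * C * C₁ * D₁) ^ 2 = (S ^ 2 * C₁ ^ 2) * (C ^ 2 * D₁ ^ 2) := by ring
      _ ≤ (S ^ 2 * C₁ ^ 2) * 1 := mul_le_mul_of_nonneg_left h2 (by positivity)
      _ = S ^ 2 * C₁ ^ 2 := mul_one _
  have h3 : (D * S₁) ^ 2 ≤ S₁ ^ 2 := by
    calc (D * S₁) ^ 2 = S₁ ^ 2 * D ^ 2 := by ring
      _ ≤ S₁ ^ 2 * 1 := mul_le_mul_of_nonneg_left hD1 (by positivity)
      _ = S₁ ^ 2 := mul_one _
  have h4 : (S * C * C₁ * D₁) ^ 2 + (D * S₁) ^ 2 ≤ 1 - C ^ 2 * C₁ ^ 2 := by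
    have h5 : S ^ 2 * C₁ ^ 2 + S₁ ^ 2 = 1 - C ^ 2 * C₁ ^ 2 := by
      linear_combination C₁ ^ 2 * hS + hS₁
    linarith
  have h6 : (S * C * C₁ * D₁ / (1 - C ^ 2 * C₁ ^ 2)) ^ 2 + (-(D * S₁) / (1 - C ^ 2 * C₁ ^ 2)) ^ 2 =
      ((S * C * C₁ * D₁) ^ 2 + (D * S₁) ^ 2) / (1 - C ^ 2 * C₁ ^ 2) ^ 2 := by
    rw [div_pow, div_pow, ← add_div, neg_sq]
  rw [h6, div_le_div_iff₀ (by positivity) hz]
  nlinarith [mul_le_mul_of_nonneg_right h4 hz.le]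

theorem Csf_neg (hf : IsAmp a b c f) (hf₁ : IsAmp a b₁ c f₁) (z : ℂ) :
    Csf a b b₁ f f₁ (-z) = -Csf a b b₁ f f₁ z := by
  have h1 : ∀ p q x : ℝ, hE p q (-x) = hE p q x := by
    intro p q x
    simp [hE]
  simp only [Csf, Complex.neg_re, Complex.neg_im, hf.odd, hf₁.odd, Real.sin_neg, Real.cos_neg, h1]
  rw [← neg_div]
  congr 1
  push_cast
  ring

theorem Csf_conj (hf₁ : IsAmp a b₁ c f₁) (z : ℂ) :
    Csf a b b₁ f f₁ (starRingEnd ℂ z) = starRingEnd ℂ (Csf a b b₁ f f₁ z) := by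
  have h1 : ∀ p q x : ℝ, hE p q (-x) = hE p q x := by
    intro p q x
    simp [hE]
  simp only [Csf, Complex.conj_re, Complex.conj_im, hf₁.odd, Real.sin_neg, Real.cos_neg, h1,
    map_div₀, map_sub, map_mul, Complex.conj_ofReal, Complex.conj_I]
  congr 1
  push_cast
  ring

theorem Csf_add_pi (hf : IsAmp a b c f)
    (hT : c * ∫ t in (0 : ℝ)..Real.pi, 1 / hE a b t = Real.pi) (z : ℂ) :
    Csf a b b₁ f f₁ (z + Real.pi) = Csf a b b₁ f f₁ z := by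
  have h2 : ∀ x, f (x + Real.pi) = f x + Real.pi := by
    intro x
    have h3 := hf.period x
    rwa [hT] at h3
  simp only [Csf, Complex.add_re, Complex.add_im, Complex.ofReal_re, Complex.ofReal_im, add_zero, h2,
    Real.sin_add_pi, Real.cos_add_pi, hE_add_pi, neg_sq, neg_mul_neg]

end LSB
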