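import Pool.Agent.LSB.Defs

/-!
# Part E, module EEP: even periodic functions are functions of `sin²`

Paper proof.  `‖sin²z‖+‖1-sin²z‖=|sin z|²+|cos z|²=cosh(2 Im z)`, so `sin² z∈VY t ↔ |Im z|<t`.  `sin` is surjective, so for `y∈VY t` there is
`z` with `sin²z=y`, `|Im z|<t`; `sin²z=sin²z'` implies `z'=±z+kπ`; so `T(y):=Q(z)` is well defined.  `T` is differentiable at `y`:
if `sin 2z≠0`, `sin²` has a local differentiable inverse at `z`, and `T=Q∘inverse` near `y`.  If `sin 2z=0` then `y∈{0,1}`; `T` is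
differentiable in a punctured neighbourhood and continuous at `y` (`sin²` is an open map and `Q` is continuous at `z`: for a
neighbourhood `N` of `z`, `sin²(N)` is a neighbourhood of `y` on which `T` takes values in `Q(N)`), so the singularity is
removable.
-/

namespace LSB

open Complex

/-- Image of the strip `|Im z| < t` under `sin²`. -/
def VY (t : ℝ) : Set ℂ := {y | ‖y‖ + ‖1 - y‖ < Real.cosh (2 * t)}

theorem isOpen_VY (t : ℝ) : IsOpen (VY t) := by
  exact isOpen_lt (by fun_prop) continuous_const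

theorem convex_VY (t : ℝ) : Convex ℝ (VY t) := by
  have h1 : ConvexOn ℝ Set.univ (fun y : ℂ => ‖y‖ + ‖1 - y‖) := by
    have h2 : ConvexOn ℝ Set.univ (fun y : ℂ => ‖y‖) := convexOn_univ_norm
    have h3 : ConvexOn ℝ Set.univ (fun y : ℂ => ‖1 - y‖) := by
      have h4 := convexOn_univ_dist (1 : ℂ)
      have h5 : (fun y : ℂ => ‖1 - y‖) = fun y => dist y 1 := by
        funext y
        rw [dist_comm, dist_eq_norm]
      rw [h5]
      exact h4
    exact h2.add h3
  have h6 := h1.convex_lt (Real.cosh (2 * t))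
  have h7 : VY t = {x ∈ Set.univ | (fun y : ℂ => ‖y‖ + ‖1 - y‖) x < Real.cosh (2 * t)} := by
    ext y
    simp [VY]
  rw [h7]
  exact h6

theorem norm_sin_sq_add (z : ℂ) : ‖sin z ^ 2‖ + ‖cos z ^ 2‖ = Real.cosh (2 * z.im) := by
  have hs : ‖sin z‖ ^ 2 = Real.sin z.re ^ 2 + Real.sinh z.im ^ 2 := by
    rw [← Complex.normSq_eq_norm_sq, Complex.sin_eq z, ← Complex.ofReal_sin, ← Complex.ofReal_cosh,
      ← Complex.ofReal_cos, ← Complex.ofReal_sinh, ← Complex.ofReal_mul, ← Complex.ofReal_mul,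
      Complex.normSq_add_mul_I]
    have h1 := Real.cosh_sq z.im
    have h2 := Real.sin_sq_add_cos_sq z.re
    have h3 : Real.cos z.re ^ 2 = 1 - Real.sin z.re ^ 2 := by linarith
    rw [mul_pow, mul_pow, h1, h3]
    ring
  have hc : ‖cos z‖ ^ 2 = Real.cos z.re ^ 2 + Real.sinh z.im ^ 2 := by
    rw [← Complex.normSq_eq_norm_sq, Complex.cos_eq z, ← Complex.ofReal_sin, ← Complex.ofReal_cosh,
      ← Complex.ofReal_cos, ← Complex.ofReal_sinh, ← Complex.ofReal_mul, ← Complex.ofReal_mul,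
      sub_eq_add_neg, ← neg_mul, ← Complex.ofReal_neg, Complex.normSq_add_mul_I]
    have h1 := Real.cosh_sq z.im
    have h2 := Real.sin_sq_add_cos_sq z.re
    have h3 : Real.sin z.re ^ 2 = 1 - Real.cos z.re ^ 2 := by linarith
    rw [neg_sq, mul_pow, mul_pow, h1, h3]
    ring
  rw [norm_pow, norm_pow, hs, hc, Real.cosh_two_mul]
  have h1 := Real.cosh_sq z.im
  have h2 := Real.sin_sq_add_cos_sq z.re
  linarith

theorem sin_sq_mem_VY {t : ℝ} (ht : 0 < t) (z : ℂ) : sin z ^ 2 ∈ VY t ↔ |z.im| < t := by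
  have h1 : (1 : ℂ) - sin z ^ 2 = cos z ^ 2 := by
    have := Complex.sin_sq_add_cos_sq z
    linear_combination -this
  unfold VY
  rw [Set.mem_ofPred_eq, h1, norm_sin_sq_add, Real.cosh_lt_cosh, abs_mul, abs_mul,
    abs_of_pos (show (0 : ℝ) < 2 by norm_num), abs_of_pos ht]
  constructor <;> intro h <;> linarith

namespace EEPAux

theorem sin_sq_eq {z z' : ℂ} (h : sin z' ^ 2 = sin z ^ 2) :
    ∃ k : ℤ, z' = z + k * Real.pi ∨ z' = -z + k * Real.pi := by
  rcases sq_eq_sq_iff_eq_or_eq_neg.1 h with h | h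
  · obtain ⟨k, hk | hk⟩ := Complex.sin_eq_sin_iff.1 h.symm
    · exact ⟨2 * k, Or.inl (by rw [hk]; push_cast; ring)⟩
    · exact ⟨2 * k + 1, Or.inr (by rw [hk]; push_cast; ring)⟩
  · rw [← Complex.sin_neg] at h
    obtain ⟨k, hk | hk⟩ := Complex.sin_eq_sin_iff.1 h.symm
    · exact ⟨2 * k, Or.inr (by rw [hk]; push_cast; ring)⟩
    · exact ⟨2 * k + 1, Or.inl (by rw [hk]; push_cast; ring)⟩

theorem per_nat {Q : ℂ → ℂ} {t : ℝ}
    (hper : ∀ z : ℂ, |z.im| < t → Q (z + Real.pi) = Q z) (n : ℕ) :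
    ∀ z : ℂ, |z.im| < t → Q (z + n * Real.pi) = Q z := by
  induction n with
  | zero =>
    intro z _
    simp
  | succ n ih =>
    intro z hz
    have h1 : z + ((n + 1 : ℕ) : ℂ) * Real.pi = (z + n * Real.pi) + Real.pi := by
      push_cast
      ring
    have h2 : (z + (n : ℂ) * Real.pi).im = z.im := by
      have : ((n : ℂ) * (Real.pi : ℂ)) = ((n * Real.pi : ℝ) : ℂ) := by push_cast; ring
      rw [this, Complex.add_im, Complex.ofReal_im, add_zero]
    rw [h1, hper _ (by rw [h2]; exact hz), ih z hz]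

theorem per_int {Q : ℂ → ℂ} {t : ℝ}
    (hper : ∀ z : ℂ, |z.im| < t → Q (z + Real.pi) = Q z) (k : ℤ) (z : ℂ) (hz : |z.im| < t) :
    Q (z + k * Real.pi) = Q z := by
  obtain ⟨n, rfl | rfl⟩ := k.eq_nat_or_neg
  · exact_mod_cast per_nat hper n z hz
  · have h2 : (z + ((-(n : ℤ) : ℤ) : ℂ) * Real.pi).im = z.im := by
      have : (((-(n : ℤ) : ℤ) : ℂ) * (Real.pi : ℂ)) = ((-(n * Real.pi) : ℝ) : ℂ) := by
        push_cast; ring
      rw [this, Complex.add_im, Complex.ofReal_im, add_zero]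
    have h3 := per_nat hper n (z + ((-(n : ℤ) : ℤ) : ℂ) * Real.pi) (by rw [h2]; exact hz)
    rw [← h3]
    congr 1
    push_cast
    ring

theorem isOpenMap_sin_sq : IsOpenMap fun z : ℂ => sin z ^ 2 := by
  have hd : Differentiable ℂ fun z : ℂ => sin z ^ 2 := Complex.differentiable_sin.pow 2
  have ha : AnalyticOnNhd ℂ (fun z : ℂ => sin z ^ 2) Set.univ :=
    hd.differentiableOn.analyticOnNhd isOpen_univ
  rcases ha.is_constant_or_isOpen isPreconnected_univ with ⟨w, hw⟩ | h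
  · exfalso
    have h0 := hw 0 (Set.mem_univ _)
    have h1 := hw (Real.pi / 2) (Set.mem_univ _)
    simp only [Complex.sin_zero, Complex.sin_pi_div_two] at h0 h1
    rw [← h0] at h1
    norm_num at h1
  · intro s hs
    exact h s (Set.subset_univ s) hs

end EEPAux

open EEPAux

theorem exists_of_even_periodic {Q : ℂ → ℂ} {t : ℝ} (ht : 0 < t)
    (hQ : DifferentiableOn ℂ Q {z | |z.im| < t})
    (heven : ∀ z : ℂ, |z.im| < t → Q (-z) = Q z)
    (hper : ∀ z : ℂ, |z.im| < t → Q (z + Real.pi) = Q z) :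
    ∃ T : ℂ → ℂ, DifferentiableOn ℂ T (VY t) ∧ ∀ z : ℂ, |z.im| < t → T (sin z ^ 2) = Q z := by
  classical
  have hsurj : ∀ y : ℂ, ∃ z : ℂ, sin z ^ 2 = y := by
    intro y
    obtain ⟨s, hs⟩ := IsAlgClosed.exists_pow_nat_eq y (show 0 < 2 by norm_num)
    obtain ⟨z, hz⟩ := Complex.sin_surjective s
    exact ⟨z, by rw [hz, hs]⟩
  choose ζ hζ using hsurj
  have hT : ∀ z : ℂ, |z.im| < t → Q (ζ (sin z ^ 2)) = Q z := by
    intro z hz
    obtain ⟨k, hk | hk⟩ := sin_sq_eq (hζ (sin z ^ 2))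
    · rw [hk, per_int hper k z hz]
    · rw [hk, per_int hper k (-z) (by rw [Complex.neg_im, abs_neg]; exact hz), heven z hz]
  have hopen : IsOpen {z : ℂ | |z.im| < t} :=
    isOpen_lt (Complex.continuous_im.abs) continuous_const
  have hcont : ∀ z₀ : ℂ, |z₀.im| < t → ContinuousAt (fun y => Q (ζ y)) (sin z₀ ^ 2) := by
    intro z₀ hz₀
    have h1 : Filter.Tendsto (fun z => Q (ζ (sin z ^ 2))) (nhds z₀) (nhds (Q z₀)) := by
      have h2 : ContinuousAt Q z₀ :=
        ((hQ z₀ hz₀).differentiableAt (hopen.mem_nhds hz₀)).continuousAt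
      refine Filter.Tendsto.congr' ?_ h2
      filter_upwards [hopen.mem_nhds hz₀] with z hz
      exact (hT z hz).symm
    have h3 : Filter.Tendsto (fun y => Q (ζ y)) (Filter.map (fun z : ℂ => sin z ^ 2) (nhds z₀))
        (nhds (Q z₀)) := Filter.tendsto_map'_iff.2 h1
    have h4 : Filter.Tendsto (fun y => Q (ζ y)) (nhds (sin z₀ ^ 2)) (nhds (Q z₀)) :=
      h3.mono_left (isOpenMap_sin_sq.nhds_le z₀)
    have h5 : Filter.Tendsto (fun y => Q (ζ y)) (nhds (sin z₀ ^ 2))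
        (nhds (Q (ζ (sin z₀ ^ 2)))) := by
      rw [hT z₀ hz₀]
      exact h4
    exact h5
  have hdiff : ∀ z₀ : ℂ, |z₀.im| < t → sin z₀ ≠ 0 → cos z₀ ≠ 0 →
      DifferentiableAt ℂ (fun y => Q (ζ y)) (sin z₀ ^ 2) := by
    intro z₀ hz₀ hs hc
    have h1 : HasStrictDerivAt (fun z : ℂ => sin z ^ 2) (2 * sin z₀ * cos z₀) z₀ := by
      have := (Complex.hasStrictDerivAt_sin z₀).fun_pow 2
      simpa using this
    have h2 : (2 * sin z₀ * cos z₀ : ℂ) ≠ 0 := mul_ne_zero (mul_ne_zero two_ne_zero hs) hc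
    set g := h1.localInverse _ _ _ h2 with hg
    have h3 : HasStrictDerivAt g (2 * sin z₀ * cos z₀)⁻¹ (sin z₀ ^ 2) := h1.to_localInverse h2
    have h4 : g (sin z₀ ^ 2) = z₀ := h1.hasStrictFDerivAt_equiv h2 |>.localInverse_apply_image
    have h5 : ∀ᶠ y in nhds (sin z₀ ^ 2), sin (g y) ^ 2 = y :=
      (h1.hasStrictFDerivAt_equiv h2).eventually_right_inverse
    have h6 : ∀ᶠ y in nhds (sin z₀ ^ 2), |(g y).im| < t := by
      have h7 : ContinuousAt g (sin z₀ ^ 2) := h3.hasDerivAt.continuousAt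
      have h8 := h7.preimage_mem_nhds (t := {z : ℂ | |z.im| < t}) (by
        rw [h4]
        exact hopen.mem_nhds hz₀)
      exact h8
    have h9 : (fun y => Q (ζ y)) =ᶠ[nhds (sin z₀ ^ 2)] fun y => Q (g y) := by
      filter_upwards [h5, h6] with y hy1 hy2
      have := hT (g y) hy2
      rw [hy1] at this
      exact this
    rw [h9.differentiableAt_iff]
    have h10 : DifferentiableAt ℂ Q (g (sin z₀ ^ 2)) := by
      rw [h4]
      exact (hQ z₀ hz₀).differentiableAt (hopen.mem_nhds hz₀)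
    exact h10.comp _ h3.hasDerivAt.differentiableAt
  have hdiff' : ∀ y ∈ VY t, y ≠ 0 → y ≠ 1 → DifferentiableAt ℂ (fun y => Q (ζ y)) y := by
    intro y hy h0 h1
    have h2 : |(ζ y).im| < t := (sin_sq_mem_VY ht (ζ y)).1 (by rw [hζ]; exact hy)
    have h3 : sin (ζ y) ≠ 0 := by
      intro h
      apply h0
      rw [← hζ y, h]
      norm_num
    have h4 : cos (ζ y) ≠ 0 := by
      intro h
      apply h1
      have h5 := Complex.sin_sq_add_cos_sq (ζ y)
      rw [h, hζ y] at h5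
      simpa using h5
    have h5 := hdiff (ζ y) h2 h3 h4
    rw [hζ] at h5
    exact h5
  refine ⟨fun y => Q (ζ y), ?_, hT⟩
  have hcase : ∀ y₀ ∈ VY t, ∀ y₁ : ℂ, (y₀ ≠ y₁) → (∀ y ∈ VY t, y ≠ y₀ → y ≠ y₁ →
      DifferentiableAt ℂ (fun y => Q (ζ y)) y) → DifferentiableAt ℂ (fun y => Q (ζ y)) y₀ := by
    intro y₀ hy₀ y₁ hne hd
    have hs : VY t ∩ {y₁}ᶜ ∈ nhds y₀ :=
      Filter.inter_mem ((isOpen_VY t).mem_nhds hy₀) (isOpen_compl_singleton.mem_nhds hne)
    have h2 : |(ζ y₀).im| < t := (sin_sq_mem_VY ht (ζ y₀)).1 (by rw [hζ]; exact hy₀)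
    have h3 : ContinuousAt (fun y => Q (ζ y)) y₀ := by
      have := hcont (ζ y₀) h2
      rw [hζ] at this
      exact this
    have h4 : DifferentiableOn ℂ (fun y => Q (ζ y)) ((VY t ∩ {y₁}ᶜ) \ {y₀}) := by
      intro y hy
      exact (hd y hy.1.1 hy.2 hy.1.2).differentiableWithinAt
    have h5 := (Complex.differentiableOn_compl_singleton_and_continuousAt_iff hs).1 ⟨h4, h3⟩
    exact h5.differentiableAt hs
  intro y hy
  apply DifferentiableAt.differentiableWithinAt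
  by_cases h0 : y = 0
  · exact hcase y hy 1 (by rw [h0]; norm_num) fun y' hy' h1 h2 => hdiff' y' hy' (by
      rw [← h0]; exact h1) h2
  · by_cases h1 : y = 1
    · exact hcase y hy 0 (by rw [h1]; norm_num) fun y' hy' h2 h3 => hdiff' y' hy' h3 (by
        rw [← h1]; exact h2)
    · exact hdiff' y hy h0 h1

end LSB
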