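import Pool.Agent.LSB.EQ
import Pool.Agent.LSB.ECD

/-!
# Part E, module EEll: all data attached to an ellipse

Paper proof.  `exists_Q`, `exists_of_even_periodic` with `t=2Y`, `exists_FData` (`T 0=Q 0=1`; reality: `T(conj(sin²z))=T(sin²(conj z))=Q(conj z)=
conj Q(z)`), `exists_GData`, `exists_VData`.  `T_vert`: `sin²(iτ)=-sinh²τ`.
-/

namespace LSB

open Complex

structure EllData (a b : ℝ) where
  Y : ℝ
  T : ℂ → ℂ
  f : ℝ → ℝ
  f₁ : ℝ → ℝ
  Y_pos : 0 < Y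
  amp : IsAmp a b (cE a b 0) f
  amp₁ : IsAmp a (√(a ^ 2 - b ^ 2)) (cE a b 0) f₁
  half : f₁ Y = Real.pi / 2
  T_line : ∀ x : ℝ, T (sin (x + Y * I) ^ 2) =
    -((hE a b (f x) / cE a b 0 : ℝ) : ℂ) ^ 2 * sin (x + Y * I) ^ 2
  T_vert : ∀ τ : ℝ, 0 < τ → τ < 2 * Y →
    T (-(Real.sinh τ : ℂ) ^ 2) = ((a / cE a b 0 * Real.sinh τ / Real.sin (f₁ τ) : ℝ) : ℂ) ^ 2
  vd : VData Y T

theorem exists_EllData {a b : ℝ} (hb : 0 < b) (hab : b < a) : Nonempty (EllData a b) := by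
  obtain ⟨Y, Q, f, f₁, hY, hf, hf₁, hhalf, hQd, hQneg, hQpi, hQconj, hQ0, hQline, hQvert⟩ :=
    exists_Q hb hab
  obtain ⟨T, hTd, hTQ⟩ := exists_of_even_periodic (t := 2 * Y) (by linarith) hQd hQneg hQpi
  have hT0 : T 0 = 1 := by
    have h := hTQ 0 (by simpa using hY)
    rw [Complex.sin_zero, zero_pow two_ne_zero] at h
    rw [h, hQ0]
  have hTc : ∀ y ∈ VY (2 * Y), T (starRingEnd ℂ y) = starRingEnd ℂ (T y) := by
    intro y hy
    obtain ⟨w, hw⟩ := IsAlgClosed.exists_pow_nat_eq y (n := 2) two_pos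
    obtain ⟨z, rfl⟩ := Complex.sin_surjective w
    have hy2 : y = sin z ^ 2 := hw.symm
    have hz : |z.im| < 2 * Y := by
      rw [hy2] at hy
      exact (sin_sq_mem_VY (by linarith) z).1 hy
    have hz' : |(starRingEnd ℂ z).im| < 2 * Y := by
      rw [Complex.conj_im, abs_neg]
      exact hz
    rw [hy2, map_pow, ← Complex.sin_conj, hTQ _ hz', hTQ _ hz, hQconj z hz]
  obtain ⟨fd⟩ := exists_FData hY hTd hT0 hTc
  obtain ⟨gd⟩ := exists_GData hY fd
  obtain ⟨vd⟩ := exists_VData hY gd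
  refine ⟨{
    Y := Y
    T := T
    f := f
    f₁ := f₁
    Y_pos := hY
    amp := hf
    amp₁ := hf₁
    half := hhalf
    T_line := ?_
    T_vert := ?_
    vd := vd }⟩
  · intro x
    have h : |((x : ℂ) + Y * I).im| < 2 * Y := by
      have : ((x : ℂ) + Y * I).im = Y := by simp
      rw [this, abs_of_pos hY]
      linarith
    rw [hTQ _ h, hQline x]
  · intro τ hτ hτ2
    have h : |((τ : ℂ) * I).im| < 2 * Y := by
      have : ((τ : ℂ) * I).im = τ := by simp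
      rw [this, abs_of_pos hτ]
      exact hτ2
    have h2 : -((Real.sinh τ : ℂ)) ^ 2 = sin ((τ : ℂ) * I) ^ 2 := by
      rw [Complex.sin_mul_I, mul_pow, Complex.I_sq, Complex.ofReal_sinh]
      ring
    rw [h2, hTQ _ h, hQvert τ hτ hτ2]

/-- Small parameters `l` correspond to small real `x₀`. -/
theorem EllData.exists_x₀ {a b : ℝ} (hb : 0 < b) (hab : b < a) (E : EllData a b) {ε : ℝ}
    (hε : 0 < ε) : ∃ l₁ > 0, l₁ ≤ b / 2 ∧ ∀ l : ℝ, 0 < l → l ≤ l₁ → ∃ x₀ : ℝ, 0 < x₀ ∧ x₀ < ε ∧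
      x₀ < E.vd.x₁ ∧ E.vd.nu (tan (x₀ : ℂ) ^ 2) = ((l * cE a b 0 / (a * b) : ℝ) : ℂ) ^ 2 := by
  have hc : 0 < cE a b 0 := cE_pos hb hab.le le_rfl (by linarith)
  have ha : 0 < a := hb.trans hab
  set r : ℝ → ℝ := fun x => (E.vd.nu ((Real.tan x ^ 2 : ℝ) : ℂ)).re with hr
  have hreal : ∀ β : ℝ, ‖(β : ℂ)‖ < E.vd.β₀ → E.vd.nu (β : ℂ) = ((E.vd.nu (β : ℂ)).re : ℂ) := by
    intro β hβ
    have h := E.vd.nu_conj β hβ
    rw [Complex.conj_ofReal] at h
    exact (Complex.conj_eq_iff_re.1 h.symm).symm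
  have hnu0 : E.vd.nu 0 = 0 := by
    have h := E.vd.nu_near 0 (by simpa using E.vd.β₀_pos)
    simpa using h
  -- the point `xs`
  obtain ⟨xs, hxs0, hxsε, hxs1, hxsC⟩ : ∃ xs : ℝ, 0 < xs ∧ xs < ε ∧ xs < E.vd.x₁ ∧
      E.vd.C * Real.tan xs ^ 2 < 1 := by
    have ht : Filter.Tendsto (fun x : ℝ => E.vd.C * Real.tan x ^ 2) (nhdsWithin 0 (Set.Ioi 0))
        (nhds 0) := by
      have h1 : ContinuousAt Real.tan 0 := Real.continuousAt_tan.2 (by simp)
      have h2 : ContinuousAt (fun x : ℝ => E.vd.C * Real.tan x ^ 2) 0 :=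
        continuousAt_const.mul (h1.pow 2)
      have h3 := h2.tendsto
      simp only [Real.tan_zero, ne_eq, OfNat.ofNat_ne_zero, not_false_eq_true, zero_pow,
        mul_zero] at h3
      exact h3.mono_left nhdsWithin_le_nhds
    have e1 : ∀ᶠ x in nhdsWithin (0 : ℝ) (Set.Ioi 0), E.vd.C * Real.tan x ^ 2 < 1 :=
      ht.eventually (gt_mem_nhds one_pos)
    have e2 : ∀ᶠ x in nhdsWithin (0 : ℝ) (Set.Ioi 0), x < ε :=
      (gt_mem_nhds hε).filter_mono nhdsWithin_le_nhds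
    have e3 : ∀ᶠ x in nhdsWithin (0 : ℝ) (Set.Ioi 0), x < E.vd.x₁ :=
      (gt_mem_nhds E.vd.x₁_pos).filter_mono nhdsWithin_le_nhds
    have e4 : ∀ᶠ x in nhdsWithin (0 : ℝ) (Set.Ioi 0), 0 < x := self_mem_nhdsWithin
    obtain ⟨x, h1, h2, h3, h4⟩ := (e1.and (e2.and (e3.and e4))).exists
    exact ⟨x, h4, h2, h3, h1⟩
  have hcoe : ∀ x : ℝ, (((Real.tan x ^ 2 : ℝ)) : ℂ) = tan (x : ℂ) ^ 2 := fun x => by push_cast; rfl
  have hmem : ∀ x : ℝ, 0 ≤ x → x ≤ xs → ‖((Real.tan x ^ 2 : ℝ) : ℂ)‖ < E.vd.β₀ := by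
    intro x hx0 hx
    have h := (E.vd.V_W (x : ℂ) (by
      rw [Complex.norm_real, Real.norm_eq_abs, abs_of_nonneg hx0]
      exact hx.trans_lt hxs1)).1
    rw [hcoe]
    exact h.trans_le E.vd.β₁_le
  have htan_pos : 0 < Real.tan xs := by
    apply Real.tan_pos_of_pos_of_lt_pi_div_two hxs0
    have := E.vd.x₁_le
    have := Real.pi_gt_three
    linarith
  have hv : 0 < r xs := by
    have h := E.vd.nu_near _ (hmem xs hxs0.le le_rfl)
    have h2 := (Complex.abs_re_le_norm _).trans h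
    rw [Complex.sub_re, Complex.ofReal_re, Complex.norm_real, Real.norm_eq_abs,
      abs_of_nonneg (sq_nonneg (Real.tan xs))] at h2
    have h3 := (abs_le.1 h2).1
    have h4 : 0 < Real.tan xs ^ 2 := by positivity
    change 0 < (E.vd.nu ((Real.tan xs ^ 2 : ℝ) : ℂ)).re
    nlinarith
  have hcont : ContinuousOn r (Set.Icc 0 xs) := by
    intro x hx
    have h1 : ContinuousAt Real.tan x := Real.continuousAt_tan.2 (by
      apply ne_of_gt
      apply Real.cos_pos_of_mem_Ioo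
      have := E.vd.x₁_le
      have := Real.pi_gt_three
      constructor <;> linarith [hx.1, hx.2])
    have h2 : ContinuousAt (fun x : ℝ => ((Real.tan x ^ 2 : ℝ) : ℂ)) x :=
      Complex.continuous_ofReal.continuousAt.comp (h1.pow 2)
    have h3 : ContinuousAt E.vd.nu ((Real.tan x ^ 2 : ℝ) : ℂ) :=
      (E.vd.nu_diff.differentiableAt (Metric.isOpen_ball.mem_nhds (by
        simpa only [Metric.mem_ball, dist_zero_right] using hmem x hx.1 hx.2))).continuousAt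
    have h4 : ContinuousAt (fun x : ℝ => E.vd.nu ((Real.tan x ^ 2 : ℝ) : ℂ)) x :=
      ContinuousAt.comp (f := fun x : ℝ => ((Real.tan x ^ 2 : ℝ) : ℂ)) h3 h2
    exact (Complex.continuous_re.continuousAt.comp h4).continuousWithinAt
  have hr0 : r 0 = 0 := by
    change (E.vd.nu ((Real.tan 0 ^ 2 : ℝ) : ℂ)).re = 0
    rw [Real.tan_zero, zero_pow two_ne_zero, Complex.ofReal_zero, hnu0, Complex.zero_re]
  refine ⟨min (b / 2) (a * b / cE a b 0 * (min 1 (r xs) / 2)), lt_min (by linarith)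
    (by positivity), min_le_left _ _, ?_⟩
  intro l hl hl1
  have hlc : l * cE a b 0 / (a * b) ≤ min 1 (r xs) / 2 := by
    have h1 := hl1.trans (min_le_right _ _)
    rw [div_le_iff₀ (by positivity)]
    calc l * cE a b 0 ≤ (a * b / cE a b 0 * (min 1 (r xs) / 2)) * cE a b 0 := by gcongr
      _ = min 1 (r xs) / 2 * (a * b) := by field_simp
  have hpos : 0 < l * cE a b 0 / (a * b) := by positivity
  have hlt : (l * cE a b 0 / (a * b)) ^ 2 < r xs := by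
    have h1 : min 1 (r xs) ≤ 1 := min_le_left _ _
    have h2 : min 1 (r xs) ≤ r xs := min_le_right _ _
    have h3 : 0 < min 1 (r xs) := lt_min one_pos hv
    nlinarith
  obtain ⟨x₀, hx₀, hx₀'⟩ := intermediate_value_Icc hxs0.le hcont
    (show (l * cE a b 0 / (a * b)) ^ 2 ∈ Set.Icc (r 0) (r xs) from
      ⟨by rw [hr0]; positivity, hlt.le⟩)
  have hx₀pos : 0 < x₀ := by
    rcases hx₀.1.lt_or_eq with h | h
    · exact h
    · exfalso
      rw [← h, hr0] at hx₀'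
      have : 0 < (l * cE a b 0 / (a * b)) ^ 2 := by positivity
      linarith
  refine ⟨x₀, hx₀pos, hx₀.2.trans_lt hxsε, hx₀.2.trans_lt hxs1, ?_⟩
  rw [← hcoe, hreal _ (hmem x₀ hx₀.1 hx₀.2)]
  have : (E.vd.nu ((Real.tan x₀ ^ 2 : ℝ) : ℂ)).re = (l * cE a b 0 / (a * b)) ^ 2 := hx₀'
  rw [this]
  push_cast
  ring

end LSB
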