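import Pool.Agent.LSB.EEP
import Pool.Agent.LSB.COsgood

/-!
# Part E, module EF: the density `F`

Paper proof.  `dd(y,y')=∫_0^1 T'(y'+t(y-y'))dt` on the convex set `VY(2Y)`: `T y-T y'=(y-y')dd(y,y')`, jointly differentiable (`osgood`).
`ν(β)=β/T(-β)` near `0` (`T 0=1`), `y(β,x)=1-(1+β)cos²x`; for `|Im x|<9Y/5` and `‖β‖` small
`‖y‖+‖1-y‖≤‖sin²x‖+‖cos²x‖+2‖β‖‖cos²x‖<cosh(18Y/5)(1+2‖β‖)<cosh(18.5Y/5)`, so `y` and `-β` stay in the set `VY(37Y/20)`, whose closure is a compact subset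
of `VY(2Y)`.  `M(β,x)=1+ν(β)dd(y,-β)`, `‖M-1‖≤C‖β‖≤1/4`, `(y+β)M=y+β+ν(T y-T(-β))=y+νT(y)`.  `F=M^{-1/2}` (principal power; or
`exp(-½log M)`), `F²M=1`.  Then `F²(y+νT(y))=y+β`.  `F` is even and `π`-periodic in `x` because `cos²x` is; reality from that of `T`.
-/

namespace LSB

open Complex

namespace EF

open Filter Topology

lemma dslope_symm (T : ℂ → ℂ) (a b : ℂ) : dslope T a b = dslope T b a := by
  rcases eq_or_ne a b with rfl | h
  · rfl
  · rw [dslope_of_ne _ h.symm, dslope_of_ne _ h, slope_comm]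

lemma dslope_cont {V : Set ℂ} (hV : IsOpen V) {T : ℂ → ℂ} (hT : DifferentiableOn ℂ T V) :
    ContinuousOn (fun p : ℂ × ℂ => dslope T p.2 p.1) (V ×ˢ V) := by
  rintro ⟨y, y'⟩ ⟨hy, hy'⟩
  simp only at hy hy'
  apply ContinuousAt.continuousWithinAt
  rcases eq_or_ne y y' with rfl | hne
  · -- diagonal
    have hst : HasStrictDerivAt T (deriv T y) y :=
      (hT.analyticAt (hV.mem_nhds hy)).hasStrictDerivAt
    have hdc : ContinuousAt (deriv T) y :=
      ((hT.deriv hV).continuousOn).continuousAt (hV.mem_nhds hy)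
    have h1 := hst.isLittleO
    rw [Asymptotics.isLittleO_iff] at h1
    rw [Metric.continuousAt_iff']
    intro ε hε
    have h2 := h1 (half_pos hε)
    have hdc' : Tendsto (fun p : ℂ × ℂ => deriv T p.1) (𝓝 (y, y)) (𝓝 (deriv T y)) :=
      hdc.tendsto.comp (continuous_fst.tendsto (y, y))
    have h3 : ∀ᶠ p : ℂ × ℂ in 𝓝 (y, y), dist (deriv T p.1) (deriv T y) < ε :=
      hdc'.eventually (Metric.ball_mem_nhds _ hε)
    filter_upwards [h2, h3] with p hp hp3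
    simp only [dslope_same]
    rcases eq_or_ne p.1 p.2 with he | he
    · rw [← he, dslope_same]
      exact hp3
    · rw [dslope_of_ne _ he, slope_def_field, dist_eq_norm]
      have hpos : 0 < ‖p.1 - p.2‖ := norm_pos_iff.2 (sub_ne_zero.2 he)
      have e1 : (T p.1 - T p.2) / (p.1 - p.2) - deriv T y =
          (T p.1 - T p.2 - (p.1 - p.2) * deriv T y) / (p.1 - p.2) := by
        field_simp [sub_ne_zero.2 he]
      rw [e1, norm_div, div_lt_iff₀ hpos]
      have h4 : ‖T p.1 - T p.2 - (p.1 - p.2) * deriv T y‖ ≤ ε / 2 * ‖p.1 - p.2‖ := by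
        simpa using hp
      nlinarith
  · have h1 : ∀ᶠ p : ℂ × ℂ in 𝓝 (y, y'), p.1 ≠ p.2 := by
      have : IsOpen {p : ℂ × ℂ | p.1 ≠ p.2} := isOpen_ne_fun continuous_fst continuous_snd
      exact this.mem_nhds hne
    have h2 : ContinuousAt (fun p : ℂ × ℂ => (T p.1 - T p.2) / (p.1 - p.2)) (y, y') := by
      have a1 : ContinuousAt (fun p : ℂ × ℂ => T p.1) (y, y') :=
        ContinuousAt.comp (f := Prod.fst) (x := (y, y'))
          ((hT.continuousOn).continuousAt (hV.mem_nhds hy)) continuousAt_fst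
      have a2 : ContinuousAt (fun p : ℂ × ℂ => T p.2) (y, y') :=
        ContinuousAt.comp (f := Prod.snd) (x := (y, y'))
          ((hT.continuousOn).continuousAt (hV.mem_nhds hy')) continuousAt_snd
      exact (a1.sub a2).div (continuousAt_fst.sub continuousAt_snd) (sub_ne_zero.2 hne)
    apply h2.congr
    filter_upwards [h1] with p hp
    rw [dslope_of_ne _ hp, slope_def_field]

lemma dslope_diff {V : Set ℂ} (hV : IsOpen V) {T : ℂ → ℂ} (hT : DifferentiableOn ℂ T V) :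
    DifferentiableOn ℂ (fun p : ℂ × ℂ => dslope T p.2 p.1) (V ×ˢ V) := by
  have key : ∀ a ∈ V, ∀ b ∈ V, DifferentiableAt ℂ (fun z => dslope T a z) b := by
    intro a ha b hb
    exact ((Complex.differentiableOn_dslope (hV.mem_nhds ha)).2 hT).differentiableAt
      (hV.mem_nhds hb)
  apply osgood (hV.prod hV) (dslope_cont hV hT)
  · rintro ⟨y, y'⟩ ⟨hy, hy'⟩
    exact key y' hy' y hy
  · rintro ⟨y, y'⟩ ⟨hy, hy'⟩
    simp only
    have : (fun w => dslope T w y) = fun w => dslope T y w := by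
      funext w
      exact dslope_symm _ _ _
    rw [this]
    exact key y hy y' hy'

/-- conjugation symmetry of `VY` -/
lemma conj_mem {t : ℝ} {y : ℂ} : starRingEnd ℂ y ∈ VY t ↔ y ∈ VY t := by
  simp only [VY, Set.mem_ofPred_eq]
  have e : (1 : ℂ) - starRingEnd ℂ y = starRingEnd ℂ (1 - y) := by simp
  rw [e, Complex.norm_conj, Complex.norm_conj]

lemma deriv_conj' {t : ℝ} {T : ℂ → ℂ} (hT : DifferentiableOn ℂ T (VY t))
    (hTc : ∀ y ∈ VY t, T (starRingEnd ℂ y) = starRingEnd ℂ (T y)) {y : ℂ} (hy : y ∈ VY t) :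
    deriv T (starRingEnd ℂ y) = starRingEnd ℂ (deriv T y) := by
  have h1 : HasDerivAt T (deriv T y) y :=
    (hT.differentiableAt ((isOpen_VY t).mem_nhds hy)).hasDerivAt
  have h2 := h1.conj_conj
  have h3 : HasDerivAt T (starRingEnd ℂ (deriv T y)) (starRingEnd ℂ y) := by
    apply h2.congr_of_eventuallyEq
    filter_upwards [(isOpen_VY t).mem_nhds (conj_mem.2 hy)] with z hz
    simp only [Function.comp]
    rw [← hTc _ (conj_mem.2 hz)]
    simp
  exact h3.deriv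

lemma dslope_conj {t : ℝ} {T : ℂ → ℂ} (hT : DifferentiableOn ℂ T (VY t))
    (hTc : ∀ y ∈ VY t, T (starRingEnd ℂ y) = starRingEnd ℂ (T y)) {a b : ℂ} (ha : a ∈ VY t)
    (hb : b ∈ VY t) :
    dslope T (starRingEnd ℂ a) (starRingEnd ℂ b) = starRingEnd ℂ (dslope T a b) := by
  rcases eq_or_ne b a with rfl | h
  · rw [dslope_same, dslope_same]
    exact deriv_conj' hT hTc ha
  · have h' : starRingEnd ℂ b ≠ starRingEnd ℂ a := fun e => h (by
      have := congrArg (starRingEnd ℂ) e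
      simpa using this)
    rw [dslope_of_ne _ h, dslope_of_ne _ h', slope_def_field, slope_def_field, hTc a ha, hTc b hb]
    simp

end EF

/-- The density `F(β,x)` with `F² (y + ν T(y)) = y + β`, `y = 1-(1+β)cos²x`. -/
structure FData (Y : ℝ) (T : ℂ → ℂ) where
  β₀ : ℝ
  C : ℝ
  nu : ℂ → ℂ
  F : ℂ → ℂ → ℂ
  β₀_pos : 0 < β₀
  β₀_le : β₀ ≤ 1 / 4
  nu_diff : DifferentiableOn ℂ nu (Metric.ball 0 β₀)
  nu_eq : ∀ β : ℂ, ‖β‖ < β₀ → nu β * T (-β) = β ∧ T (-β) ≠ 0 ∧ -β ∈ VY (2 * Y)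
  nu_near : ∀ β : ℂ, ‖β‖ < β₀ → ‖nu β - β‖ ≤ C * ‖β‖ ^ 2
  nu_conj : ∀ β : ℂ, ‖β‖ < β₀ → nu (starRingEnd ℂ β) = starRingEnd ℂ (nu β)
  mem : ∀ β x : ℂ, ‖β‖ < β₀ → |x.im| < 9 / 5 * Y → 1 - (1 + β) * cos x ^ 2 ∈ VY (2 * Y)
  F_diff : DifferentiableOn ℂ (fun p : ℂ × ℂ => F p.1 p.2)
    {p : ℂ × ℂ | ‖p.1‖ < β₀ ∧ |p.2.im| < 9 / 5 * Y}
  F_sq : ∀ β x : ℂ, ‖β‖ < β₀ → |x.im| < 9 / 5 * Y →
    F β x ^ 2 * ((1 - (1 + β) * cos x ^ 2) + nu β * T (1 - (1 + β) * cos x ^ 2)) =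
      (1 - (1 + β) * cos x ^ 2) + β
  F_near : ∀ β x : ℂ, ‖β‖ < β₀ → |x.im| < 9 / 5 * Y → ‖F β x - 1‖ ≤ C * ‖β‖
  F_near' : ∀ β x : ℂ, ‖β‖ < β₀ → |x.im| < 9 / 5 * Y → ‖F β x - 1‖ ≤ 1 / 8
  F_even : ∀ β x : ℂ, ‖β‖ < β₀ → |x.im| < 9 / 5 * Y → F β (-x) = F β x
  F_per : ∀ β x : ℂ, ‖β‖ < β₀ → |x.im| < 9 / 5 * Y → F β (x + Real.pi) = F β x
  F_conj : ∀ β x : ℂ, ‖β‖ < β₀ → |x.im| < 9 / 5 * Y →
    F (starRingEnd ℂ β) (starRingEnd ℂ x) = starRingEnd ℂ (F β x)

theorem exists_FData {Y : ℝ} (hY : 0 < Y) {T : ℂ → ℂ} (hT : DifferentiableOn ℂ T (VY (2 * Y)))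
    (hT0 : T 0 = 1) (hTc : ∀ y ∈ VY (2 * Y), T (starRingEnd ℂ y) = starRingEnd ℂ (T y)) :
    Nonempty (FData Y T) := by
  have hVo := isOpen_VY (2 * Y)
  -- the compact set
  set W : Set ℂ := {y | ‖y‖ + ‖1 - y‖ ≤ Real.cosh (37 / 10 * Y)} with hW
  have hcosh1 : Real.cosh (37 / 10 * Y) < Real.cosh (2 * (2 * Y)) := by
    rw [Real.cosh_lt_cosh, abs_of_pos (by positivity), abs_of_pos (by positivity)]
    linarith
  have hWV : W ⊆ VY (2 * Y) := by
    intro y hy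
    exact lt_of_le_of_lt hy hcosh1
  have hWc : IsCompact W := by
    apply Metric.isCompact_of_isClosed_isBounded
    · exact isClosed_le (by fun_prop) continuous_const
    · apply Metric.isBounded_closedBall (x := (0 : ℂ)) (r := Real.cosh (37 / 10 * Y)) |>.subset
      intro y hy
      rw [mem_closedBall_zero_iff]
      have : 0 ≤ ‖1 - y‖ := norm_nonneg _
      have h2 : ‖y‖ + ‖1 - y‖ ≤ Real.cosh (37 / 10 * Y) := hy
      linarith
  -- bound of the divided difference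
  obtain ⟨K0, hK0⟩ := (hWc.prod hWc).exists_bound_of_continuousOn
    ((EF.dslope_cont hVo hT).mono (Set.prod_mono hWV hWV))
  set K : ℝ := max K0 1 with hKdef
  have hK1 : 1 ≤ K := le_max_right _ _
  have hK : ∀ a ∈ W, ∀ b ∈ W, ‖dslope T b a‖ ≤ K := fun a ha b hb =>
    (hK0 (a, b) ⟨ha, hb⟩).trans (le_max_left _ _)
  -- the radius
  have hcosh2 : Real.cosh (18 / 5 * Y) < Real.cosh (37 / 10 * Y) := by
    rw [Real.cosh_lt_cosh, abs_of_pos (by positivity), abs_of_pos (by positivity)]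
    linarith
  have hcosh3 : 1 ≤ Real.cosh (18 / 5 * Y) := Real.one_le_cosh _
  set r : ℝ := (Real.cosh (37 / 10 * Y) - Real.cosh (18 / 5 * Y)) /
    (2 * Real.cosh (18 / 5 * Y)) with hr
  have hrpos : 0 < r := by
    rw [hr]
    apply div_pos <;> linarith
  set β₀ : ℝ := min r (1 / (24 * K)) with hβ₀
  have hβpos : 0 < β₀ := lt_min hrpos (by positivity)
  have hβK : 24 * K * β₀ ≤ 1 := by
    have h1 : β₀ ≤ 1 / (24 * K) := min_le_right _ _
    rw [le_div_iff₀ (by positivity)] at h1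
    linarith
  have hβr : Real.cosh (18 / 5 * Y) * (1 + 2 * β₀) ≤ Real.cosh (37 / 10 * Y) := by
    have h1 : β₀ ≤ r := min_le_left _ _
    rw [hr, le_div_iff₀ (by linarith)] at h1
    linarith
  have hβ24 : β₀ ≤ 1 / 24 := by nlinarith
  have hstrip : ∀ β x : ℂ, ‖β‖ < β₀ → |x.im| < 9 / 5 * Y → 1 - (1 + β) * cos x ^ 2 ∈ W := by
    intro β x hβ hx
    have e1 : 1 - (1 + β) * cos x ^ 2 = sin x ^ 2 - β * cos x ^ 2 := by
      have := sin_sq_add_cos_sq x
      linear_combination -this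
    have e2 : 1 - (1 - (1 + β) * cos x ^ 2) = cos x ^ 2 + β * cos x ^ 2 := by ring
    have h1 := norm_sin_sq_add x
    have h2 : Real.cosh (2 * x.im) ≤ Real.cosh (18 / 5 * Y) := by
      rw [Real.cosh_le_cosh, abs_mul, abs_two, abs_of_pos (a := 18 / 5 * Y) (by positivity)]
      linarith
    have h3 : ‖sin x ^ 2 - β * cos x ^ 2‖ ≤ ‖sin x ^ 2‖ + ‖β‖ * ‖cos x ^ 2‖ := by
      rw [← norm_mul]
      exact norm_sub_le _ _
    have h4 : ‖cos x ^ 2 + β * cos x ^ 2‖ ≤ ‖cos x ^ 2‖ + ‖β‖ * ‖cos x ^ 2‖ := by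
      rw [← norm_mul]
      exact norm_add_le _ _
    have h5 : ‖cos x ^ 2‖ ≤ Real.cosh (18 / 5 * Y) := by
      have := norm_nonneg (sin x ^ 2)
      linarith
    change ‖1 - (1 + β) * cos x ^ 2‖ + ‖1 - (1 - (1 + β) * cos x ^ 2)‖ ≤ _
    rw [e2, e1]
    have h6 : ‖β‖ * ‖cos x ^ 2‖ ≤ β₀ * Real.cosh (18 / 5 * Y) :=
      mul_le_mul hβ.le h5 (norm_nonneg _) hβpos.le
    linarith
  have hneg : ∀ β : ℂ, ‖β‖ < β₀ → -β ∈ W := by
    intro β hβ
    change ‖-β‖ + ‖1 - -β‖ ≤ _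
    have h1 : ‖1 - -β‖ ≤ 1 + ‖β‖ := by
      have := norm_add_le (1 : ℂ) β
      simpa using this
    rw [norm_neg]
    nlinarith
  have h0W : (0 : ℂ) ∈ W := by
    have := hneg 0 (by simpa using hβpos)
    simpa using this
  -- T near 0
  have hTnear : ∀ β : ℂ, ‖β‖ < β₀ → ‖T (-β) - 1‖ ≤ K * ‖β‖ := by
    intro β hβ
    have h1 := sub_smul_dslope T 0 (-β)
    rw [hT0, sub_zero, smul_eq_mul] at h1
    rw [← h1, norm_mul, norm_neg, mul_comm]
    exact mul_le_mul_of_nonneg_right (hK _ (hneg β hβ) _ h0W) (norm_nonneg _)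
  have hThalf : ∀ β : ℂ, ‖β‖ < β₀ → 1 / 2 ≤ ‖T (-β)‖ := by
    intro β hβ
    have h1 := hTnear β hβ
    have h2 : K * ‖β‖ ≤ 1 / 2 := by nlinarith
    have h3 : (1 : ℝ) ≤ ‖T (-β)‖ + ‖T (-β) - 1‖ := by
      have := norm_sub_le (T (-β)) (T (-β) - 1)
      simpa using this
    linarith
  have hTne : ∀ β : ℂ, ‖β‖ < β₀ → T (-β) ≠ 0 := by
    intro β hβ h
    have := hThalf β hβ
    rw [h, norm_zero] at this
    linarith
  set nu : ℂ → ℂ := fun β => β / T (-β) with hnu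
  have hnu_norm : ∀ β : ℂ, ‖β‖ < β₀ → ‖nu β‖ ≤ 2 * ‖β‖ := by
    intro β hβ
    simp only [hnu]
    rw [norm_div, div_le_iff₀ (by linarith [hThalf β hβ])]
    nlinarith [hThalf β hβ, norm_nonneg β]
  have hnu_diffAt : ∀ β : ℂ, ‖β‖ < β₀ → DifferentiableAt ℂ nu β := by
    intro β hβ
    have h1 : DifferentiableAt ℂ T (-β) :=
      hT.differentiableAt (hVo.mem_nhds (hWV (hneg β hβ)))
    have h2 : DifferentiableAt ℂ (fun β => T (-β)) β :=
      DifferentiableAt.comp (f := fun β : ℂ => -β) β h1 (by fun_prop)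
    exact differentiableAt_id.div h2 (hTne β hβ)
  -- the function M
  set N : ℂ → ℂ → ℂ := fun β x => nu β * dslope T (-β) (1 - (1 + β) * cos x ^ 2) with hN
  have hN_norm : ∀ β x : ℂ, ‖β‖ < β₀ → |x.im| < 9 / 5 * Y → ‖N β x‖ ≤ 2 * K * ‖β‖ := by
    intro β x hβ hx
    simp only [hN]
    rw [norm_mul]
    have h1 := hnu_norm β hβ
    have h2 := hK _ (hstrip β x hβ hx) _ (hneg β hβ)
    calc ‖nu β‖ * ‖dslope T (-β) (1 - (1 + β) * cos x ^ 2)‖ ≤ (2 * ‖β‖) * K :=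
          mul_le_mul h1 h2 (norm_nonneg _) (by positivity)
      _ = 2 * K * ‖β‖ := by ring
  have hN_small : ∀ β x : ℂ, ‖β‖ < β₀ → |x.im| < 9 / 5 * Y → ‖N β x‖ ≤ 1 / 12 := by
    intro β x hβ hx
    have h1 := hN_norm β x hβ hx
    nlinarith
  have hslit : ∀ β x : ℂ, ‖β‖ < β₀ → |x.im| < 9 / 5 * Y → 1 + N β x ∈ slitPlane := by
    intro β x hβ hx
    apply mem_slitPlane_of_norm_lt_one
    linarith [hN_small β x hβ hx]
  set F : ℂ → ℂ → ℂ := fun β x => exp (-(1 / 2) * log (1 + N β x)) with hF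
  have hFlog : ∀ β x : ℂ, ‖β‖ < β₀ → |x.im| < 9 / 5 * Y →
      ‖-(1 / 2) * log (1 + N β x)‖ ≤ 3 / 4 * ‖N β x‖ := by
    intro β x hβ hx
    have h1 := norm_log_one_add_half_le_self (z := N β x) (by linarith [hN_small β x hβ hx])
    rw [norm_mul]
    have h2 : ‖(-(1 / 2) : ℂ)‖ = 1 / 2 := by
      rw [norm_neg]
      norm_num
    rw [h2]
    linarith
  have hF_norm : ∀ β x : ℂ, ‖β‖ < β₀ → |x.im| < 9 / 5 * Y → ‖F β x - 1‖ ≤ 3 * K * ‖β‖ := by
    intro β x hβ hx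
    have h1 := hFlog β x hβ hx
    have h2 := hN_small β x hβ hx
    have h3 := norm_exp_sub_one_le (x := -(1 / 2) * log (1 + N β x)) (by linarith)
    have h4 := hN_norm β x hβ hx
    simp only [hF]
    linarith
  refine ⟨⟨β₀, 3 * K, nu, F, hβpos, by linarith, ?_, ?_, ?_, ?_, ?_, ?_, ?_, ?_, ?_, ?_, ?_, ?_⟩⟩
  · intro β hβ
    exact (hnu_diffAt β (by simpa using hβ)).differentiableWithinAt
  · intro β hβ
    refine ⟨div_mul_cancel₀ _ (hTne β hβ), hTne β hβ, hWV (hneg β hβ)⟩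
  · intro β hβ
    have h1 : nu β - β = β * (1 - T (-β)) / T (-β) := by
      simp only [hnu]
      field_simp [hTne β hβ]
    rw [h1, norm_div, norm_mul, div_le_iff₀ (by linarith [hThalf β hβ]), norm_sub_rev]
    have h2 := hTnear β hβ
    have h3 := hThalf β hβ
    calc ‖β‖ * ‖T (-β) - 1‖ ≤ ‖β‖ * (K * ‖β‖) :=
          mul_le_mul_of_nonneg_left h2 (norm_nonneg _)
      _ = K * ‖β‖ ^ 2 := by ring
      _ ≤ 3 * K * ‖β‖ ^ 2 * ‖T (-β)‖ := by
          have h4 : 0 ≤ K * ‖β‖ ^ 2 := by positivity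
          nlinarith
  · intro β hβ
    simp only [hnu]
    have h1 : T (-(starRingEnd ℂ β)) = starRingEnd ℂ (T (-β)) := by
      rw [← hTc _ (hWV (hneg β hβ))]
      simp
    rw [h1]
    simp
  · intro β x hβ hx
    exact hWV (hstrip β x hβ hx)
  · rintro ⟨β, x⟩ ⟨hβ, hx⟩
    simp only at hβ hx
    apply DifferentiableAt.differentiableWithinAt
    have h1 : DifferentiableAt ℂ (fun p : ℂ × ℂ => nu p.1) (β, x) :=
      DifferentiableAt.comp (f := Prod.fst) (β, x) (hnu_diffAt β hβ) differentiableAt_fst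
    have h2 : DifferentiableAt ℂ (fun p : ℂ × ℂ => dslope T p.2 p.1)
        (1 - (1 + β) * cos x ^ 2, -β) :=
      (EF.dslope_diff hVo hT).differentiableAt
        ((hVo.prod hVo).mem_nhds ⟨hWV (hstrip β x hβ hx), hWV (hneg β hβ)⟩)
    have h3 : DifferentiableAt ℂ (fun p : ℂ × ℂ => (1 - (1 + p.1) * cos p.2 ^ 2, -p.1)) (β, x) := by
      apply DifferentiableAt.prodMk
      · have h4 : DifferentiableAt ℂ (fun p : ℂ × ℂ => cos p.2) (β, x) :=
          differentiableAt_snd.ccos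
        exact (differentiableAt_const _).sub
          (((differentiableAt_const _).add differentiableAt_fst).mul (h4.pow 2))
      · exact differentiableAt_fst.neg
    have h5 : DifferentiableAt ℂ
        (fun p : ℂ × ℂ => dslope T (-p.1) (1 - (1 + p.1) * cos p.2 ^ 2)) (β, x) :=
      DifferentiableAt.comp (f := fun p : ℂ × ℂ => (1 - (1 + p.1) * cos p.2 ^ 2, -p.1))
        (g := fun p : ℂ × ℂ => dslope T p.2 p.1) (β, x) h2 h3
    have h6 : DifferentiableAt ℂ (fun p : ℂ × ℂ => 1 + N p.1 p.2) (β, x) :=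
      (differentiableAt_const _).add (h1.mul h5)
    have h7 : DifferentiableAt ℂ (fun p : ℂ × ℂ => log (1 + N p.1 p.2)) (β, x) :=
      h6.clog (hslit β x hβ hx)
    exact (h7.const_mul _).cexp
  · intro β x hβ hx
    have hM : 1 + N β x ≠ 0 := slitPlane_ne_zero (hslit β x hβ hx)
    have e1 : F β x ^ 2 = (1 + N β x)⁻¹ := by
      simp only [hF]
      rw [← exp_nat_mul]
      have : ((2 : ℕ) : ℂ) * (-(1 / 2) * log (1 + N β x)) = -log (1 + N β x) := by
        push_cast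
        ring
      rw [this, exp_neg, exp_log hM]
    have e2 : nu β * T (-β) = β := div_mul_cancel₀ _ (hTne β hβ)
    have e3 := sub_smul_dslope T (-β) (1 - (1 + β) * cos x ^ 2)
    rw [smul_eq_mul] at e3
    have e4 : (1 + N β x) * ((1 - (1 + β) * cos x ^ 2) + β) =
        (1 - (1 + β) * cos x ^ 2) + nu β * T (1 - (1 + β) * cos x ^ 2) := by
      simp only [hN]
      linear_combination nu β * e3 + (-1 : ℂ) * e2
    rw [e1, ← e4]
    field_simp
  · intro β x hβ hx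
    exact hF_norm β x hβ hx
  · intro β x hβ hx
    have h1 := hF_norm β x hβ hx
    nlinarith
  · intro β x _ _
    simp only [hF, hN, cos_neg]
  · intro β x _ _
    simp only [hF, hN, cos_add_pi, neg_sq]
  · intro β x hβ hx
    have hV1 := hWV (hstrip β x hβ hx)
    have hV2 := hWV (hneg β hβ)
    have e1 : nu (starRingEnd ℂ β) = starRingEnd ℂ (nu β) := by
      simp only [hnu]
      have h1 : T (-(starRingEnd ℂ β)) = starRingEnd ℂ (T (-β)) := by
        rw [← hTc _ hV2]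
        simp
      rw [h1]
      simp
    have e2 : (1 : ℂ) - (1 + starRingEnd ℂ β) * cos (starRingEnd ℂ x) ^ 2 =
        starRingEnd ℂ (1 - (1 + β) * cos x ^ 2) := by
      rw [cos_conj]
      simp
    have e3 : -(starRingEnd ℂ β) = starRingEnd ℂ (-β) := by simp
    have e4 : N (starRingEnd ℂ β) (starRingEnd ℂ x) = starRingEnd ℂ (N β x) := by
      simp only [hN]
      rw [e1, e2, e3, EF.dslope_conj hT hTc hV2 hV1, map_mul]
    have e5 : 1 + starRingEnd ℂ (N β x) = starRingEnd ℂ (1 + N β x) := by simp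
    simp only [hF]
    rw [e4, e5, log_conj _ (slitPlane_arg_ne_pi (hslit β x hβ hx)), ← exp_conj]
    have e6 : starRingEnd ℂ (2 : ℂ) = 2 := map_ofNat (starRingEnd ℂ) 2
    simp [e6]

end LSB
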