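import Pool.Agent.LSB.EF

/-!
# Part E, module EG: the bounce angle `Gh` and its inverse `Gi`

Paper proof.  `γ(β)=π/∫_0^πF(β,x)dx` (`‖∫-π‖≤π/8`), `Gh β x=γ(β)·x·∫_0^1F(β,tx)dt`, i.e. `γ` times the primitive of `F β` vanishing at `0`
(the strip is star-shaped/convex).  Jointly differentiable; odd since `F` is even; `Gh(x+π)-Gh(x)` has derivative `0` and equals `π` at `x=0`;
real.  `‖Gh β x-x‖≤C‖β‖`: `Gh β x-x` is `π`-periodic, so assume `|Re x|≤π`, and integrate `γF-1=O(β)`.  Shrink `β₁` so that `‖γF-1‖≤1/4`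
and `‖Gh β x-x‖≤Y/10`.  Inverse: for `|Im α|<8Y/5`, the map `x↦α-(Gh β x-x)` maps the closed convex strip `|Im x|≤17Y/10` into itself
and is a contraction with constant `1/4` (mean value inequality): unique fixed point `Gi β α`, `Gh β(Gi β α)=α`.  `Gh β` is injective
on the strip `|Im x|<9Y/5` (`‖Gh β x-Gh β x'-(x-x')‖≤¼‖x-x'‖`), so `Gi β(Gh β x)=x` if `|Im(Gh β x)|<8Y/5`, in particular for
`|Im x|<3Y/2`.  Joint differentiability of `Gi`: inverse function theorem for `(β,x)↦(β,Gh β x)` (derivative triangular,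
invertible) together with uniqueness.  Oddness, periodicity, reality, nearness follow from uniqueness.
-/

namespace LSB

open Complex Set Filter Topology MeasureTheory Interval

structure GData (Y : ℝ) (T : ℂ → ℂ) extends FData Y T where
  β₁ : ℝ
  C₁ : ℝ
  ga : ℂ → ℂ
  Gh : ℂ → ℂ → ℂ
  Gi : ℂ → ℂ → ℂ
  β₁_pos : 0 < β₁
  β₁_le : β₁ ≤ β₀
  ga_near : ∀ β : ℂ, ‖β‖ < β₁ → ‖ga β - 1‖ ≤ C₁ * ‖β‖
  ga_ne : ∀ β : ℂ, ‖β‖ < β₁ → ga β ≠ 0
  ga_conj : ∀ β : ℂ, ‖β‖ < β₁ → ga (starRingEnd ℂ β) = starRingEnd ℂ (ga β)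
  Gh_diff : DifferentiableOn ℂ (fun p : ℂ × ℂ => Gh p.1 p.2)
    {p : ℂ × ℂ | ‖p.1‖ < β₁ ∧ |p.2.im| < 9 / 5 * Y}
  Gh_deriv : ∀ β x : ℂ, ‖β‖ < β₁ → |x.im| < 9 / 5 * Y → HasDerivAt (Gh β) (ga β * F β x) x
  Gh_odd : ∀ β x : ℂ, ‖β‖ < β₁ → |x.im| < 9 / 5 * Y → Gh β (-x) = -Gh β x
  Gh_per : ∀ β x : ℂ, ‖β‖ < β₁ → |x.im| < 9 / 5 * Y → Gh β (x + Real.pi) = Gh β x + Real.pi
  Gh_conj : ∀ β x : ℂ, ‖β‖ < β₁ → |x.im| < 9 / 5 * Y →
    Gh (starRingEnd ℂ β) (starRingEnd ℂ x) = starRingEnd ℂ (Gh β x)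
  Gh_near : ∀ β x : ℂ, ‖β‖ < β₁ → |x.im| < 9 / 5 * Y → ‖Gh β x - x‖ ≤ C₁ * ‖β‖
  Gh_near' : ∀ β x : ℂ, ‖β‖ < β₁ → |x.im| < 9 / 5 * Y → ‖Gh β x - x‖ ≤ Y / 10
  Gi_diff : DifferentiableOn ℂ (fun p : ℂ × ℂ => Gi p.1 p.2)
    {p : ℂ × ℂ | ‖p.1‖ < β₁ ∧ |p.2.im| < 8 / 5 * Y}
  Gi_mem : ∀ β α : ℂ, ‖β‖ < β₁ → |α.im| < 8 / 5 * Y → |(Gi β α).im| < 9 / 5 * Y
  Gh_Gi : ∀ β α : ℂ, ‖β‖ < β₁ → |α.im| < 8 / 5 * Y → Gh β (Gi β α) = α
  Gi_Gh : ∀ β x : ℂ, ‖β‖ < β₁ → |x.im| < 3 / 2 * Y → Gi β (Gh β x) = x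
  Gi_odd : ∀ β α : ℂ, ‖β‖ < β₁ → |α.im| < 8 / 5 * Y → Gi β (-α) = -Gi β α
  Gi_per : ∀ β α : ℂ, ‖β‖ < β₁ → |α.im| < 8 / 5 * Y → Gi β (α + Real.pi) = Gi β α + Real.pi
  Gi_conj : ∀ β α : ℂ, ‖β‖ < β₁ → |α.im| < 8 / 5 * Y →
    Gi (starRingEnd ℂ β) (starRingEnd ℂ α) = starRingEnd ℂ (Gi β α)
  Gi_near : ∀ β α : ℂ, ‖β‖ < β₁ → |α.im| < 8 / 5 * Y → ‖Gi β α - α‖ ≤ C₁ * ‖β‖

/-- The two partial derivatives give the Fréchet derivative. -/
theorem hasFDerivAt_two_EG {F : ℂ × ℂ → ℂ} {p : ℂ × ℂ} (hF : DifferentiableAt ℂ F p) :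
    HasFDerivAt F ((deriv (fun z => F (z, p.2)) p.1) • ContinuousLinearMap.fst ℂ ℂ ℂ +
      (deriv (fun w => F (p.1, w)) p.2) • ContinuousLinearMap.snd ℂ ℂ ℂ) p := by
  have h := hF.hasFDerivAt
  have h1 : HasDerivAt (fun z => F (z, p.2)) (fderiv ℂ F p (1, 0)) p.1 := by
    have h0 : HasDerivAt (fun z : ℂ => (z, p.2)) ((1 : ℂ), (0 : ℂ)) p.1 :=
      (hasDerivAt_id p.1).prodMk (hasDerivAt_const p.1 p.2)
    exact HasFDerivAt.comp_hasDerivAt (f := fun z : ℂ => (z, p.2)) p.1 h h0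
  have h2 : HasDerivAt (fun w => F (p.1, w)) (fderiv ℂ F p (0, 1)) p.2 := by
    have h0 : HasDerivAt (fun w : ℂ => (p.1, w)) ((0 : ℂ), (1 : ℂ)) p.2 :=
      (hasDerivAt_const p.2 p.1).prodMk (hasDerivAt_id p.2)
    exact HasFDerivAt.comp_hasDerivAt (f := fun w : ℂ => (p.1, w)) p.2 h h0
  rw [h1.deriv, h2.deriv]
  convert h using 1
  ext
  · simp
  · simp

/-- Parametric integrals along segments. -/
theorem hasFDerivAt_segInt {U : Set (ℂ × ℂ)} (hU : IsOpen U)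
    (hstar : ∀ p ∈ U, ∀ t : ℝ, t ∈ Icc (0 : ℝ) 1 → (p.1, (t : ℂ) * p.2) ∈ U)
    {F : ℂ × ℂ → ℂ} (hF : DifferentiableOn ℂ F U) {p : ℂ × ℂ} (hp : p ∈ U) :
    HasFDerivAt (fun q : ℂ × ℂ => ∫ t in (0 : ℝ)..1, F (q.1, (t : ℂ) * q.2))
      (∫ t in (0 : ℝ)..1,
        ((deriv (fun z => F (z, (t : ℂ) * p.2)) p.1) • ContinuousLinearMap.fst ℂ ℂ ℂ +
          ((t : ℂ) * deriv (fun w => F (p.1, w)) ((t : ℂ) * p.2)) •
            ContinuousLinearMap.snd ℂ ℂ ℂ)) p := by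
  have hd1 := (differentiableOn_partial_fst hU hF).continuousOn
  have hd2 := (differentiableOn_partial_snd hU hF).continuousOn
  obtain ⟨r, hr, hrU⟩ := Metric.nhds_basis_closedBall.mem_iff.1 (hU.mem_nhds hp)
  set K : Set (ℂ × ℂ) := (fun x : ℝ × (ℂ × ℂ) => (x.2.1, (x.1 : ℂ) * x.2.2)) ''
    (Icc (0 : ℝ) 1 ×ˢ Metric.closedBall p r) with hK
  have hKc : IsCompact K := by
    apply (isCompact_Icc.prod (isCompact_closedBall p r)).image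
    fun_prop
  have hKU : K ⊆ U := by
    rintro _ ⟨⟨t, q⟩, ⟨ht, hq⟩, rfl⟩
    exact hstar q (hrU hq) t ht
  have hmemK : ∀ q ∈ Metric.ball p r, ∀ t ∈ Icc (0 : ℝ) 1, (q.1, (t : ℂ) * q.2) ∈ K := by
    intro q hq t ht
    exact ⟨(t, q), ⟨ht, Metric.ball_subset_closedBall hq⟩, rfl⟩
  obtain ⟨M1, hM1⟩ := hKc.exists_bound_of_continuousOn (hd1.mono hKU)
  obtain ⟨M2, hM2⟩ := hKc.exists_bound_of_continuousOn (hd2.mono hKU)
  have hUI : ∀ t : ℝ, t ∈ Ι (0 : ℝ) 1 → t ∈ Icc (0 : ℝ) 1 := by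
    intro t ht
    rw [uIoc_of_le zero_le_one] at ht
    exact ⟨ht.1.le, ht.2⟩
  have hpath : ∀ q ∈ U, ContinuousOn (fun t : ℝ => (q.1, (t : ℂ) * q.2)) (Icc (0 : ℝ) 1) := by
    intro q _
    fun_prop
  have hmapU : ∀ q ∈ U, MapsTo (fun t : ℝ => (q.1, (t : ℂ) * q.2)) (Icc (0 : ℝ) 1) U :=
    fun q hq t ht => hstar q hq t ht
  have hFc : ∀ q ∈ U, ContinuousOn (fun t : ℝ => F (q.1, (t : ℂ) * q.2)) (Icc (0 : ℝ) 1) :=
    fun q hq => hF.continuousOn.comp (hpath q hq) (hmapU q hq)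
  have hsub : Ι (0 : ℝ) 1 ⊆ Icc (0 : ℝ) 1 := fun t ht => hUI t ht
  have key := intervalIntegral.hasFDerivAt_integral_of_dominated_of_fderiv_le (𝕜 := ℂ)
    (μ := volume) (a := 0) (b := 1) (s := Metric.ball p r) (x₀ := p)
    (F := fun (q : ℂ × ℂ) (t : ℝ) => F (q.1, (t : ℂ) * q.2))
    (F' := fun (q : ℂ × ℂ) (t : ℝ) =>
      (deriv (fun z => F (z, (t : ℂ) * q.2)) q.1) • ContinuousLinearMap.fst ℂ ℂ ℂ +
          ((t : ℂ) * deriv (fun w => F (q.1, w)) ((t : ℂ) * q.2)) •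
            ContinuousLinearMap.snd ℂ ℂ ℂ)
    (bound := fun _ => M1 * ‖ContinuousLinearMap.fst ℂ ℂ ℂ‖ +
      M2 * ‖ContinuousLinearMap.snd ℂ ℂ ℂ‖)
    (Metric.ball_mem_nhds p hr) ?_ ?_ ?_ ?_ ?_ ?_
  · exact key
  · filter_upwards [hU.mem_nhds hp] with q hq
    exact ((hFc q hq).mono hsub).aestronglyMeasurable measurableSet_uIoc
  · apply ContinuousOn.intervalIntegrable
    rw [uIcc_of_le zero_le_one]
    exact hFc p hp
  · have h1 : ContinuousOn (fun t : ℝ => deriv (fun z => F (z, (t : ℂ) * p.2)) p.1)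
        (Icc (0 : ℝ) 1) := hd1.comp (hpath p hp) (hmapU p hp)
    have h2 : ContinuousOn (fun t : ℝ => deriv (fun w => F (p.1, w)) ((t : ℂ) * p.2))
        (Icc (0 : ℝ) 1) := hd2.comp (hpath p hp) (hmapU p hp)
    have h3 : ContinuousOn (fun t : ℝ =>
      (deriv (fun z => F (z, (t : ℂ) * p.2)) p.1) • ContinuousLinearMap.fst ℂ ℂ ℂ +
          ((t : ℂ) * deriv (fun w => F (p.1, w)) ((t : ℂ) * p.2)) •
            ContinuousLinearMap.snd ℂ ℂ ℂ) (Icc (0 : ℝ) 1) := by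
      apply ContinuousOn.add
      · exact h1.smul continuousOn_const
      · exact (ContinuousOn.mul (by fun_prop) h2).smul continuousOn_const
    exact (h3.mono hsub).aestronglyMeasurable measurableSet_uIoc
  · refine Eventually.of_forall fun t ht q hq => ?_
    have htI := hUI t ht
    have hm := hmemK q hq t htI
    have b1 := hM1 _ hm
    have b2 := hM2 _ hm
    have ht1 : ‖(t : ℂ)‖ ≤ 1 := by
      rw [Complex.norm_real, Real.norm_eq_abs, abs_of_nonneg htI.1]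
      exact htI.2
    have hM2' : 0 ≤ M2 := (norm_nonneg _).trans b2
    refine (norm_add_le _ _).trans ?_
    rw [norm_smul, norm_smul, norm_mul]
    gcongr
    calc ‖(t : ℂ)‖ * ‖deriv (fun w => F (q.1, w)) ((t : ℂ) * q.2)‖ ≤ 1 * M2 := by
          gcongr
      _ = M2 := one_mul _
  · exact intervalIntegrable_const
  · refine Eventually.of_forall fun t ht q hq => ?_
    have htI := hUI t ht
    have hm := hKU (hmemK q hq t htI)
    have h1 := hasFDerivAt_two_EG (hF.differentiableAt (hU.mem_nhds hm))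
    have h2 : HasFDerivAt (fun q : ℂ × ℂ => (q.1, (t : ℂ) * q.2))
        ((ContinuousLinearMap.fst ℂ ℂ ℂ).prod ((t : ℂ) • ContinuousLinearMap.snd ℂ ℂ ℂ)) q :=
      hasFDerivAt_fst.prodMk (hasFDerivAt_snd.const_mul (t : ℂ))
    have h3 := HasFDerivAt.comp (f := fun q : ℂ × ℂ => (q.1, (t : ℂ) * q.2)) q h1 h2
    refine h3.congr_fderiv ?_
    apply ContinuousLinearMap.ext
    intro v
    simp only [add_apply, smul_apply,
      ContinuousLinearMap.comp_apply, ContinuousLinearMap.prod_apply,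
      ContinuousLinearMap.coe_fst', ContinuousLinearMap.coe_snd', smul_eq_mul]
    ring

/-- Primitives on sets whose fibres are star-shaped. -/
theorem hasDerivAt_segPrim {U : Set (ℂ × ℂ)} (hU : IsOpen U)
    (hstar : ∀ p ∈ U, ∀ t : ℝ, t ∈ Icc (0 : ℝ) 1 → (p.1, (t : ℂ) * p.2) ∈ U)
    {F : ℂ × ℂ → ℂ} (hF : DifferentiableOn ℂ F U) {β x : ℂ} (hp : (β, x) ∈ U) :
    HasDerivAt (fun y : ℂ => y * ∫ t in (0 : ℝ)..1, F (β, (t : ℂ) * y)) (F (β, x)) x := by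
  have hd1 := (differentiableOn_partial_fst hU hF).continuousOn
  have hd2 := (differentiableOn_partial_snd hU hF).continuousOn
  have hpath : ContinuousOn (fun t : ℝ => (β, (t : ℂ) * x)) (Icc (0 : ℝ) 1) := by
    fun_prop
  have hmapU : MapsTo (fun t : ℝ => (β, (t : ℂ) * x)) (Icc (0 : ℝ) 1) U :=
    fun t ht => hstar (β, x) hp t ht
  have hFc : ContinuousOn (fun t : ℝ => F (β, (t : ℂ) * x)) (Icc (0 : ℝ) 1) :=
    hF.continuousOn.comp hpath hmapU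
  have h1 : ContinuousOn (fun t : ℝ => deriv (fun z => F (z, (t : ℂ) * x)) β)
      (Icc (0 : ℝ) 1) := hd1.comp hpath hmapU
  have h2 : ContinuousOn (fun t : ℝ => deriv (fun w => F (β, w)) ((t : ℂ) * x))
      (Icc (0 : ℝ) 1) := hd2.comp hpath hmapU
  have h3 : ContinuousOn (fun t : ℝ =>
      (deriv (fun z => F (z, (t : ℂ) * x)) β) • ContinuousLinearMap.fst ℂ ℂ ℂ +
          ((t : ℂ) * deriv (fun w => F (β, w)) ((t : ℂ) * x)) •
            ContinuousLinearMap.snd ℂ ℂ ℂ) (Icc (0 : ℝ) 1) := by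
    apply ContinuousOn.add
    · exact h1.smul continuousOn_const
    · exact (ContinuousOn.mul (by fun_prop) h2).smul continuousOn_const
  have hseg := hasFDerivAt_segInt hU hstar hF hp
  have h0 : HasDerivAt (fun w : ℂ => (β, w)) ((0 : ℂ), (1 : ℂ)) x :=
    (hasDerivAt_const x β).prodMk (hasDerivAt_id x)
  have h4 := HasFDerivAt.comp_hasDerivAt (f := fun w : ℂ => (β, w)) x hseg h0
  rw [ContinuousLinearMap.intervalIntegral_apply
    (by apply ContinuousOn.intervalIntegrable; rw [uIcc_of_le zero_le_one]; exact h3)] at h4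
  have h5 : HasDerivAt (fun y : ℂ => y * ∫ t in (0 : ℝ)..1, F (β, (t : ℂ) * y))
      (1 * (∫ t in (0 : ℝ)..1, F (β, (t : ℂ) * x)) +
        x * ∫ t in (0 : ℝ)..1, ((t : ℂ) * deriv (fun w => F (β, w)) ((t : ℂ) * x))) x := by
    refine (hasDerivAt_id x).mul ?_
    refine h4.congr_deriv ?_
    refine intervalIntegral.integral_congr fun t _ => ?_
    simp
  refine h5.congr_deriv ?_
  have h6 : ∀ t ∈ uIcc (0 : ℝ) 1, HasDerivAt (fun s : ℝ => (s : ℂ) * F (β, (s : ℂ) * x))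
      (1 * F (β, (t : ℂ) * x) + (t : ℂ) * (deriv (fun w => F (β, w)) ((t : ℂ) * x) * x)) t := by
    intro t ht
    rw [uIcc_of_le zero_le_one] at ht
    have hm := hmapU ht
    have e1 : HasDerivAt (fun s : ℝ => (s : ℂ)) 1 t := by
      simpa using (hasDerivAt_id t).ofReal_comp
    have e2 : HasDerivAt (fun s : ℝ => (s : ℂ) * x) x t := by
      simpa using e1.mul_const x
    have e3 : DifferentiableAt ℂ (fun w => F (β, w)) ((t : ℂ) * x) := by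
      have e4 : DifferentiableAt ℂ F (β, (t : ℂ) * x) := hF.differentiableAt (hU.mem_nhds hm)
      have e5 : DifferentiableAt ℂ (fun w : ℂ => (β, w)) ((t : ℂ) * x) := by fun_prop
      exact DifferentiableAt.comp (f := fun w : ℂ => (β, w)) ((t : ℂ) * x) e4 e5
    have e6 : HasDerivAt (fun s : ℝ => F (β, (s : ℂ) * x))
        (deriv (fun w => F (β, w)) ((t : ℂ) * x) * x) t :=
      HasDerivAt.comp (h := fun s : ℝ => (s : ℂ) * x) (h₂ := fun w => F (β, w)) t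
        e3.hasDerivAt e2
    exact e1.mul e6
  have h7 := intervalIntegral.integral_eq_sub_of_hasDerivAt h6 (by
    apply ContinuousOn.intervalIntegrable
    rw [uIcc_of_le zero_le_one]
    exact (continuousOn_const.mul hFc).add
      (ContinuousOn.mul (by fun_prop) (h2.mul continuousOn_const)))
  have i1 : IntervalIntegrable (fun t : ℝ => F (β, (t : ℂ) * x)) volume 0 1 := by
    apply ContinuousOn.intervalIntegrable
    rw [uIcc_of_le zero_le_one]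
    exact hFc
  have i2 : IntervalIntegrable (fun t : ℝ => x * ((t : ℂ) * deriv (fun w => F (β, w))
      ((t : ℂ) * x))) volume 0 1 := by
    apply ContinuousOn.intervalIntegrable
    rw [uIcc_of_le zero_le_one]
    exact continuousOn_const.mul (ContinuousOn.mul (by fun_prop) h2)
  rw [one_mul, ← intervalIntegral.integral_const_mul, ← intervalIntegral.integral_add i1 i2]
  have h8 : (∫ t in (0 : ℝ)..1, (F (β, (t : ℂ) * x) + x * ((t : ℂ) *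
      deriv (fun w => F (β, w)) ((t : ℂ) * x)))) = ∫ t in (0 : ℝ)..1,
      (1 * F (β, (t : ℂ) * x) + (t : ℂ) * (deriv (fun w => F (β, w)) ((t : ℂ) * x) * x)) := by
    refine intervalIntegral.integral_congr fun t _ => ?_
    ring
  rw [h8, h7]
  simp


/-- Reduction of a `π`-periodic function on a strip to `0 ≤ Re x ≤ π`. -/
theorem strip_reduce_EG {g : ℂ → ℂ} {s : ℝ} (hg : ∀ x : ℂ, |x.im| < s → g (x + Real.pi) = g x)
    (x : ℂ) (hx : |x.im| < s) : ∃ x' : ℂ, x'.im = x.im ∧ |x'.re| ≤ Real.pi ∧ g x = g x' := by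
  have hN : ∀ n : ℕ, ∀ x : ℂ, |x.im| < s → g (x + (n : ℂ) * Real.pi) = g x := by
    intro n
    induction n with
    | zero => intro x _; simp
    | succ n ih =>
      intro x hx
      have e : x + ((n + 1 : ℕ) : ℂ) * Real.pi = (x + (n : ℂ) * Real.pi) + Real.pi := by
        push_cast
        ring
      rw [e, hg _ (by simpa using hx), ih x hx]
  have hZ : ∀ n : ℤ, ∀ x : ℂ, |x.im| < s → g (x + (n : ℂ) * Real.pi) = g x := by
    intro n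
    rcases Int.eq_nat_or_neg n with ⟨m, rfl | rfl⟩
    · intro x hx
      exact_mod_cast hN m x hx
    · intro x hx
      have h1 := hN m (x + ((-(m : ℤ) : ℤ) : ℂ) * Real.pi) (by
        have : (x + ((-(m : ℤ) : ℤ) : ℂ) * Real.pi).im = x.im := by simp
        rw [this]; exact hx)
      rw [← h1]
      congr 1
      push_cast
      ring
  have hpi := Real.pi_pos
  refine ⟨x + ((-⌊x.re / Real.pi⌋ : ℤ) : ℂ) * Real.pi, by simp, ?_, (hZ _ x hx).symm⟩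
  have h1 : (x + ((-⌊x.re / Real.pi⌋ : ℤ) : ℂ) * Real.pi).re =
      x.re - ⌊x.re / Real.pi⌋ * Real.pi := by
    simp
    ring
  rw [h1]
  have h2 := Int.floor_le (x.re / Real.pi)
  have h3 := Int.lt_floor_add_one (x.re / Real.pi)
  have h4 : (⌊x.re / Real.pi⌋ : ℝ) * Real.pi ≤ x.re := by
    rwa [le_div_iff₀ hpi] at h2
  have h5 : x.re < ((⌊x.re / Real.pi⌋ : ℝ) + 1) * Real.pi := by
    rwa [div_lt_iff₀ hpi] at h3
  rw [abs_le]
  constructor <;> nlinarith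

section GH

variable {Y : ℝ} {T : ℂ → ℂ} (fd : FData Y T)

/-- The domain. -/
def FData.dom : Set (ℂ × ℂ) := {p : ℂ × ℂ | ‖p.1‖ < fd.β₀ ∧ |p.2.im| < 9 / 5 * Y}

theorem FData.isOpen_dom : IsOpen fd.dom := by
  have h1 : IsOpen {p : ℂ × ℂ | ‖p.1‖ < fd.β₀} :=
    isOpen_lt (by fun_prop) continuous_const
  have h2 : IsOpen {p : ℂ × ℂ | |p.2.im| < 9 / 5 * Y} :=
    isOpen_lt (by fun_prop) continuous_const
  exact h1.inter h2

theorem FData.dom_star : ∀ p ∈ fd.dom, ∀ t : ℝ, t ∈ Icc (0 : ℝ) 1 →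
    (p.1, (t : ℂ) * p.2) ∈ fd.dom := by
  rintro p ⟨h1, h2⟩ t ht
  refine ⟨h1, ?_⟩
  have : ((t : ℂ) * p.2).im = t * p.2.im := by simp
  simp only [this, abs_mul, abs_of_nonneg ht.1]
  nlinarith [abs_nonneg p.2.im, ht.1, ht.2]

theorem FData.F_diff' : DifferentiableOn ℂ (fun p : ℂ × ℂ => fd.F p.1 p.2) fd.dom := fd.F_diff

/-- mean of `F β` over the segment from `0` to `x` -/
noncomputable def FData.q (β x : ℂ) : ℂ := ∫ t in (0 : ℝ)..1, fd.F β ((t : ℂ) * x)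

noncomputable def FData.ga (β : ℂ) : ℂ := (fd.q β Real.pi)⁻¹

noncomputable def FData.Gh (β x : ℂ) : ℂ := fd.ga β * (x * fd.q β x)

theorem FData.star' {x : ℂ} (hx : |x.im| < 9 / 5 * Y) {t : ℝ} (ht : t ∈ Icc (0 : ℝ) 1) :
    |((t : ℂ) * x).im| < 9 / 5 * Y := by
  have : ((t : ℂ) * x).im = t * x.im := by simp
  simp only [this, abs_mul, abs_of_nonneg ht.1]
  nlinarith [abs_nonneg x.im, ht.1, ht.2]

theorem FData.intervalIntegrable {β x : ℂ} (hβ : ‖β‖ < fd.β₀) (hx : |x.im| < 9 / 5 * Y) :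
    IntervalIntegrable (fun t : ℝ => fd.F β ((t : ℂ) * x)) volume 0 1 := by
  apply ContinuousOn.intervalIntegrable
  rw [uIcc_of_le zero_le_one]
  have hpath : ContinuousOn (fun t : ℝ => (β, (t : ℂ) * x)) (Icc (0 : ℝ) 1) := by
    fun_prop
  exact fd.F_diff'.continuousOn.comp hpath
    (fun t ht => fd.dom_star (β, x) ⟨hβ, hx⟩ t ht)

theorem FData.q_diff : DifferentiableOn ℂ (fun p : ℂ × ℂ => fd.q p.1 p.2) fd.dom :=
  fun p hp => (hasFDerivAt_segInt fd.isOpen_dom fd.dom_star fd.F_diff' hp).differentiableAt.differentiableWithinAt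

theorem FData.q_near {β x : ℂ} (hβ : ‖β‖ < fd.β₀) (hx : |x.im| < 9 / 5 * Y) {B : ℝ}
    (hB : ∀ y : ℂ, |y.im| < 9 / 5 * Y → ‖fd.F β y - 1‖ ≤ B) : ‖fd.q β x - 1‖ ≤ B := by
  have h1 : fd.q β x - 1 = ∫ t in (0 : ℝ)..1, (fd.F β ((t : ℂ) * x) - 1) := by
    rw [intervalIntegral.integral_sub (fd.intervalIntegrable hβ hx) intervalIntegrable_const]
    simp [FData.q]
  rw [h1]
  have h2 : ∀ t ∈ Ι (0 : ℝ) 1, ‖fd.F β ((t : ℂ) * x) - 1‖ ≤ B := by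
    intro t ht
    rw [uIoc_of_le zero_le_one] at ht
    exact hB _ (FData.star' hx ⟨ht.1.le, ht.2⟩)
  simpa using intervalIntegral.norm_integral_le_of_norm_le_const h2

variable (hY : 0 < Y)
include hY

theorem FData.pi_mem : |((Real.pi : ℝ) : ℂ).im| < 9 / 5 * Y := by
  simp
  positivity

theorem FData.m_near {β : ℂ} (hβ : ‖β‖ < fd.β₀) : ‖fd.q β Real.pi - 1‖ ≤ |fd.C| * ‖β‖ :=
  fd.q_near hβ (FData.pi_mem hY) fun y hy => (fd.F_near β y hβ hy).trans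
    (mul_le_mul_of_nonneg_right (le_abs_self _) (norm_nonneg _))

theorem FData.m_near' {β : ℂ} (hβ : ‖β‖ < fd.β₀) : ‖fd.q β Real.pi - 1‖ ≤ 1 / 8 :=
  fd.q_near hβ (FData.pi_mem hY) fun y hy => fd.F_near' β y hβ hy

theorem FData.m_norm {β : ℂ} (hβ : ‖β‖ < fd.β₀) : 7 / 8 ≤ ‖fd.q β Real.pi‖ := by
  have h1 := fd.m_near' hY hβ
  have h2 : ‖(1 : ℂ)‖ ≤ ‖fd.q β Real.pi‖ + ‖fd.q β Real.pi - 1‖ := by
    have : (1 : ℂ) = fd.q β Real.pi - (fd.q β Real.pi - 1) := by ring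
    calc ‖(1 : ℂ)‖ = ‖fd.q β Real.pi - (fd.q β Real.pi - 1)‖ := by rw [← this]
      _ ≤ _ := norm_sub_le _ _
  rw [norm_one] at h2
  linarith

theorem FData.m_ne {β : ℂ} (hβ : ‖β‖ < fd.β₀) : fd.q β Real.pi ≠ 0 := by
  intro h
  have := fd.m_norm hY hβ
  rw [h, norm_zero] at this
  linarith

theorem FData.ga_ne {β : ℂ} (hβ : ‖β‖ < fd.β₀) : fd.ga β ≠ 0 := inv_ne_zero (fd.m_ne hY hβ)

theorem FData.gaF_near {β z : ℂ} (hβ : ‖β‖ < fd.β₀) (hz : ‖z - 1‖ ≤ |fd.C| * ‖β‖) :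
    ‖fd.ga β * z - 1‖ ≤ 16 / 7 * |fd.C| * ‖β‖ := by
  have h0 := fd.m_ne hY hβ
  have h1 : fd.ga β * z - 1 = (fd.q β Real.pi)⁻¹ * ((z - 1) - (fd.q β Real.pi - 1)) := by
    rw [FData.ga]
    field_simp
    ring
  have h2 := fd.m_norm hY hβ
  have h3 : ‖(fd.q β Real.pi)⁻¹‖ ≤ 8 / 7 := by
    rw [norm_inv]
    rw [inv_le_comm₀ (by linarith) (by norm_num)]
    norm_num
    linarith
  have h4 : ‖(z - 1) - (fd.q β Real.pi - 1)‖ ≤ 2 * (|fd.C| * ‖β‖) := by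
    refine (norm_sub_le _ _).trans ?_
    have := fd.m_near hY hβ
    linarith
  rw [h1, norm_mul]
  calc ‖(fd.q β Real.pi)⁻¹‖ * ‖(z - 1) - (fd.q β Real.pi - 1)‖ ≤
      8 / 7 * (2 * (|fd.C| * ‖β‖)) := by gcongr
    _ = 16 / 7 * |fd.C| * ‖β‖ := by ring

theorem FData.ga_near {β : ℂ} (hβ : ‖β‖ < fd.β₀) : ‖fd.ga β - 1‖ ≤ 16 / 7 * |fd.C| * ‖β‖ := by
  have := fd.gaF_near hY (β := β) (z := 1) hβ (by simp; positivity)
  simpa using this

omit hY in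
theorem FData.Gh_deriv {β x : ℂ} (hβ : ‖β‖ < fd.β₀) (hx : |x.im| < 9 / 5 * Y) :
    HasDerivAt (fd.Gh β) (fd.ga β * fd.F β x) x :=
  (hasDerivAt_segPrim fd.isOpen_dom fd.dom_star fd.F_diff' (β := β) (x := x)
    ⟨hβ, hx⟩).const_mul (fd.ga β)

theorem FData.ga_diffAt {β : ℂ} (hβ : ‖β‖ < fd.β₀) : DifferentiableAt ℂ fd.ga β := by
  have h1 : DifferentiableAt ℂ (fun p : ℂ × ℂ => fd.q p.1 p.2) (β, (Real.pi : ℂ)) :=
    fd.q_diff.differentiableAt (fd.isOpen_dom.mem_nhds ⟨hβ, FData.pi_mem hY⟩)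
  have h2 : DifferentiableAt ℂ (fun z : ℂ => (z, (Real.pi : ℂ))) β := by fun_prop
  have h3 : DifferentiableAt ℂ (fun z : ℂ => fd.q z (Real.pi : ℂ)) β :=
    DifferentiableAt.comp (f := fun z : ℂ => (z, (Real.pi : ℂ))) β h1 h2
  exact h3.inv (fd.m_ne hY hβ)

theorem FData.Gh_diff : DifferentiableOn ℂ (fun p : ℂ × ℂ => fd.Gh p.1 p.2) fd.dom := by
  intro p hp
  have h1 : DifferentiableAt ℂ (fun p : ℂ × ℂ => fd.q p.1 p.2) p :=
    fd.q_diff.differentiableAt (fd.isOpen_dom.mem_nhds hp)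
  have h2 : DifferentiableAt ℂ (fun p : ℂ × ℂ => fd.ga p.1) p :=
    DifferentiableAt.comp (g := fd.ga) (f := fun p : ℂ × ℂ => p.1) p (fd.ga_diffAt hY hp.1)
      differentiableAt_fst
  exact (h2.mul (differentiableAt_snd.mul h1)).differentiableWithinAt

omit hY in
theorem FData.q_neg {β x : ℂ} (hβ : ‖β‖ < fd.β₀) (hx : |x.im| < 9 / 5 * Y) :
    fd.q β (-x) = fd.q β x := by
  refine intervalIntegral.integral_congr fun t ht => ?_
  rw [uIcc_of_le zero_le_one] at ht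
  simp only [mul_neg]
  exact fd.F_even β _ hβ (FData.star' hx ht)

omit hY in
theorem FData.Gh_odd {β x : ℂ} (hβ : ‖β‖ < fd.β₀) (hx : |x.im| < 9 / 5 * Y) :
    fd.Gh β (-x) = -fd.Gh β x := by
  rw [FData.Gh, FData.Gh, fd.q_neg hβ hx]
  ring

omit hY in
theorem FData.q_conj {β x : ℂ} (hβ : ‖β‖ < fd.β₀) (hx : |x.im| < 9 / 5 * Y) :
    fd.q (starRingEnd ℂ β) (starRingEnd ℂ x) = starRingEnd ℂ (fd.q β x) := by
  have h1 : starRingEnd ℂ (fd.q β x) =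
      ∫ t in (0 : ℝ)..1, starRingEnd ℂ (fd.F β ((t : ℂ) * x)) := by
    have := Complex.conjCLE.toContinuousLinearMap.intervalIntegral_comp_comm
      (fd.intervalIntegrable hβ hx)
    simpa [FData.q] using this.symm
  rw [h1]
  refine intervalIntegral.integral_congr fun t ht => ?_
  rw [uIcc_of_le zero_le_one] at ht
  rw [← fd.F_conj β _ hβ (FData.star' hx ht)]
  simp

theorem FData.ga_conj {β : ℂ} (hβ : ‖β‖ < fd.β₀) :
    fd.ga (starRingEnd ℂ β) = starRingEnd ℂ (fd.ga β) := by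
  have := fd.q_conj (β := β) (x := (Real.pi : ℂ)) hβ (FData.pi_mem hY)
  rw [Complex.conj_ofReal] at this
  rw [FData.ga, FData.ga, this, map_inv₀]

theorem FData.Gh_conj {β x : ℂ} (hβ : ‖β‖ < fd.β₀) (hx : |x.im| < 9 / 5 * Y) :
    fd.Gh (starRingEnd ℂ β) (starRingEnd ℂ x) = starRingEnd ℂ (fd.Gh β x) := by
  rw [FData.Gh, FData.Gh, fd.q_conj hβ hx, fd.ga_conj hY hβ, map_mul, map_mul]

omit hY in
theorem convex_strip_EG (s : ℝ) : Convex ℝ {x : ℂ | |x.im| < s} := by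
  have : {x : ℂ | |x.im| < s} = Complex.imLm ⁻¹' (Ioo (-s) s) := by
    ext x
    simp [abs_lt]
  rw [this]
  exact (convex_Ioo _ _).linear_preimage _

theorem FData.Gh_per {β x : ℂ} (hβ : ‖β‖ < fd.β₀) (hx : |x.im| < 9 / 5 * Y) :
    fd.Gh β (x + Real.pi) = fd.Gh β x + Real.pi := by
  have hd : ∀ y ∈ {y : ℂ | |y.im| < 9 / 5 * Y},
      HasDerivWithinAt (fun y => fd.Gh β (y + Real.pi) - fd.Gh β y) 0
        {y : ℂ | |y.im| < 9 / 5 * Y} y := by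
    intro y hy
    have hy' : |y.im| < 9 / 5 * Y := hy
    have h1 := (fd.Gh_deriv (β := β) (x := y + Real.pi) hβ (by simpa using hy')).comp_add_const
      y (Real.pi : ℂ)
    have h2 := fd.Gh_deriv (β := β) (x := y) hβ hy'
    have h3 := h1.sub h2
    rw [fd.F_per β y hβ hy', sub_self] at h3
    exact h3.hasDerivWithinAt
  have h0 : (0 : ℂ) ∈ {y : ℂ | |y.im| < 9 / 5 * Y} := by
    simp
    positivity
  have h1 := (convex_strip_EG (9 / 5 * Y)).norm_image_sub_le_of_norm_hasDerivWithin_le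
    (C := 0) hd (by simp) h0 hx
  have h2 : fd.Gh β (x + Real.pi) - fd.Gh β x - (fd.Gh β (0 + Real.pi) - fd.Gh β 0) = 0 := by
    rw [← norm_le_zero_iff]
    simpa using h1
  have h3 : fd.Gh β (Real.pi : ℂ) = Real.pi := by
    have := fd.m_ne hY hβ
    rw [FData.Gh, FData.ga]
    field_simp
  have h4 : fd.Gh β 0 = 0 := by simp [FData.Gh]
  rw [zero_add, h3, h4] at h2
  linear_combination h2

theorem FData.Gh_near {β x : ℂ} (hβ : ‖β‖ < fd.β₀) (hx : |x.im| < 9 / 5 * Y) :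
    ‖fd.Gh β x - x‖ ≤ 16 / 7 * |fd.C| * ‖β‖ * (Real.pi + 9 / 5 * Y) := by
  obtain ⟨x', h1, h2, h3⟩ := strip_reduce_EG (g := fun x => fd.Gh β x - x) (s := 9 / 5 * Y)
    (fun y hy => by
      rw [fd.Gh_per hY hβ hy]
      ring) x hx
  rw [h3]
  have hx' : |x'.im| < 9 / 5 * Y := by rw [h1]; exact hx
  have hq : ‖fd.q β x' - 1‖ ≤ |fd.C| * ‖β‖ :=
    fd.q_near hβ hx' fun y hy => (fd.F_near β y hβ hy).trans
      (mul_le_mul_of_nonneg_right (le_abs_self _) (norm_nonneg _))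
  have h4 := fd.gaF_near hY hβ hq
  have h5 : fd.Gh β x' - x' = (fd.ga β * fd.q β x' - 1) * x' := by
    rw [FData.Gh]
    ring
  rw [h5, norm_mul]
  have h6 : ‖x'‖ ≤ Real.pi + 9 / 5 * Y := by
    refine (Complex.norm_le_abs_re_add_abs_im x').trans ?_
    linarith
  gcongr

end GH


section GI

/-- Abstract inverse on a strip. -/
theorem strip_surj_EG {Y : ℝ} (hY : 0 < Y) {G : ℂ → ℂ}
    (hnear : ∀ x : ℂ, |x.im| < 9 / 5 * Y → ‖G x - x‖ ≤ Y / 10)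
    (hlip : ∀ x x' : ℂ, |x.im| < 9 / 5 * Y → |x'.im| < 9 / 5 * Y →
      ‖(G x - x) - (G x' - x')‖ ≤ 1 / 4 * ‖x - x'‖)
    {α : ℂ} (hα : |α.im| < 8 / 5 * Y) : ∃ x : ℂ, |x.im| < 9 / 5 * Y ∧ G x = α := by
  set s : Set ℂ := {x : ℂ | |x.im| ≤ 17 / 10 * Y} with hs
  have hsc : IsComplete s := by
    apply IsClosed.isComplete
    exact isClosed_le (by fun_prop) continuous_const
  have hlt : ∀ x ∈ s, |x.im| < 9 / 5 * Y := by
    intro x hx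
    have : |x.im| ≤ 17 / 10 * Y := hx
    linarith
  have hmaps : MapsTo (fun x => α - (G x - x)) s s := by
    intro x hx
    have h1 := hnear x (hlt x hx)
    have h2 : |(α - (G x - x)).im| ≤ |α.im| + ‖G x - x‖ := by
      rw [Complex.sub_im]
      refine (abs_sub _ _).trans ?_
      have := Complex.abs_im_le_norm (G x - x)
      linarith
    show |(α - (G x - x)).im| ≤ 17 / 10 * Y
    linarith
  have hcon : ContractingWith (1 / 4 : NNReal) (hmaps.restrict _ s s) := by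
    refine ⟨?_, ?_⟩
    · rw [← NNReal.coe_lt_coe]
      push_cast
      norm_num
    · refine LipschitzWith.of_dist_le_mul fun x y => ?_
      rw [Subtype.dist_eq, Subtype.dist_eq, dist_eq_norm, dist_eq_norm]
      simp only [MapsTo.val_restrict_apply]
      have h1 := hlip x y (hlt x x.2) (hlt y y.2)
      have h2 : α - (G x - x) - (α - (G y - y)) = -((G x - x) - (G y - y)) := by ring
      rw [h2, norm_neg]
      simpa using h1
  have h0 : (0 : ℂ) ∈ s := by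
    show |(0 : ℂ).im| ≤ 17 / 10 * Y
    simp
    positivity
  obtain ⟨y, hy, hfix, -⟩ := hcon.exists_fixedPoint' hsc hmaps h0 (edist_ne_top _ _)
  refine ⟨y, hlt y hy, ?_⟩
  have : α - (G y - y) = y := hfix
  linear_combination -this

theorem strip_inj_EG {Y : ℝ} {G : ℂ → ℂ}
    (hlip : ∀ x x' : ℂ, |x.im| < 9 / 5 * Y → |x'.im| < 9 / 5 * Y →
      ‖(G x - x) - (G x' - x')‖ ≤ 1 / 4 * ‖x - x'‖)
    {x x' : ℂ} (hx : |x.im| < 9 / 5 * Y) (hx' : |x'.im| < 9 / 5 * Y) (h : G x = G x') :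
    x = x' := by
  have h1 := hlip x x' hx hx'
  rw [h] at h1
  have h2 : G x' - x - (G x' - x') = -(x - x') := by ring
  rw [h2, norm_neg] at h1
  have h3 : ‖x - x'‖ ≤ 0 := by linarith [norm_nonneg (x - x')]
  rw [norm_le_zero_iff, sub_eq_zero] at h3
  exact h3

variable {Y : ℝ} {T : ℂ → ℂ} (fd : FData Y T)

noncomputable def FData.C₂ : ℝ := 16 / 7 * |fd.C|

noncomputable def FData.C₁ : ℝ := fd.C₂ * (1 + Real.pi + 9 / 5 * Y)

noncomputable def FData.β₁ : ℝ := min fd.β₀ (min (1 / (4 * (fd.C₂ + 1))) (Y / (10 * (fd.C₁ + 1))))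

theorem FData.C₂_nonneg : 0 ≤ fd.C₂ := by
  unfold FData.C₂
  positivity

theorem FData.β₁_le : fd.β₁ ≤ fd.β₀ := min_le_left _ _

theorem FData.lt_β₀ {β : ℂ} (hβ : ‖β‖ < fd.β₁) : ‖β‖ < fd.β₀ := hβ.trans_le fd.β₁_le

variable (hY : 0 < Y)
include hY

theorem FData.C₁_nonneg : 0 ≤ fd.C₁ := by
  unfold FData.C₁
  have := fd.C₂_nonneg
  have := Real.pi_pos
  positivity

theorem FData.β₁_pos : 0 < fd.β₁ := by
  have h1 := fd.C₂_nonneg
  have h2 := fd.C₁_nonneg hY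
  have h3 := fd.β₀_pos
  unfold FData.β₁
  refine lt_min h3 (lt_min ?_ ?_)
  · positivity
  · positivity

omit hY in
theorem FData.C₂_small {β : ℂ} (hβ : ‖β‖ < fd.β₁) : fd.C₂ * ‖β‖ ≤ 1 / 4 := by
  have h1 := fd.C₂_nonneg
  have h2 : ‖β‖ < 1 / (4 * (fd.C₂ + 1)) :=
    hβ.trans_le ((min_le_right _ _).trans (min_le_left _ _))
  rw [lt_div_iff₀ (by positivity)] at h2
  nlinarith [norm_nonneg β]

theorem FData.C₁_small {β : ℂ} (hβ : ‖β‖ < fd.β₁) : fd.C₁ * ‖β‖ ≤ Y / 10 := by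
  have h1 := fd.C₁_nonneg hY
  have h2 : ‖β‖ < Y / (10 * (fd.C₁ + 1)) :=
    hβ.trans_le ((min_le_right _ _).trans (min_le_right _ _))
  rw [lt_div_iff₀ (by positivity)] at h2
  nlinarith [norm_nonneg β]

theorem FData.Gh_near₁ {β x : ℂ} (hβ : ‖β‖ < fd.β₁) (hx : |x.im| < 9 / 5 * Y) :
    ‖fd.Gh β x - x‖ ≤ fd.C₁ * ‖β‖ := by
  refine (fd.Gh_near hY (fd.lt_β₀ hβ) hx).trans ?_
  unfold FData.C₁ FData.C₂
  have h1 : 0 ≤ 16 / 7 * |fd.C| * ‖β‖ := by positivity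
  nlinarith

theorem FData.Gh_near₂ {β x : ℂ} (hβ : ‖β‖ < fd.β₁) (hx : |x.im| < 9 / 5 * Y) :
    ‖fd.Gh β x - x‖ ≤ Y / 10 :=
  (fd.Gh_near₁ hY hβ hx).trans (fd.C₁_small hY hβ)

theorem FData.deriv_near {β x : ℂ} (hβ : ‖β‖ < fd.β₁) (hx : |x.im| < 9 / 5 * Y) :
    ‖fd.ga β * fd.F β x - 1‖ ≤ 1 / 4 := by
  have hβ' := fd.lt_β₀ hβ
  refine (fd.gaF_near hY hβ' ?_).trans (fd.C₂_small hβ)
  exact (fd.F_near β x hβ' hx).trans
    (mul_le_mul_of_nonneg_right (le_abs_self _) (norm_nonneg _))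

theorem FData.Gh_lip {β x x' : ℂ} (hβ : ‖β‖ < fd.β₁) (hx : |x.im| < 9 / 5 * Y)
    (hx' : |x'.im| < 9 / 5 * Y) :
    ‖(fd.Gh β x - x) - (fd.Gh β x' - x')‖ ≤ 1 / 4 * ‖x - x'‖ := by
  have hd : ∀ y ∈ {y : ℂ | |y.im| < 9 / 5 * Y},
      HasDerivWithinAt (fun y => fd.Gh β y - y) (fd.ga β * fd.F β y - 1)
        {y : ℂ | |y.im| < 9 / 5 * Y} y := by
    intro y hy
    exact ((fd.Gh_deriv (fd.lt_β₀ hβ) hy).sub (hasDerivAt_id y)).hasDerivWithinAt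
  exact (convex_strip_EG (9 / 5 * Y)).norm_image_sub_le_of_norm_hasDerivWithin_le
    (C := 1 / 4) hd (fun y hy => fd.deriv_near hY hβ hy) hx' hx

open Classical in
omit hY in
/-- The inverse. -/
noncomputable def FData.Gi (β α : ℂ) : ℂ :=
  if h : ∃ x : ℂ, |x.im| < 9 / 5 * Y ∧ fd.Gh β x = α then h.choose else 0

theorem FData.Gi_spec {β α : ℂ} (hβ : ‖β‖ < fd.β₁) (hα : |α.im| < 8 / 5 * Y) :
    |(fd.Gi β α).im| < 9 / 5 * Y ∧ fd.Gh β (fd.Gi β α) = α := by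
  have h : ∃ x : ℂ, |x.im| < 9 / 5 * Y ∧ fd.Gh β x = α :=
    strip_surj_EG hY (fun x hx => fd.Gh_near₂ hY hβ hx)
      (fun x x' hx hx' => fd.Gh_lip hY hβ hx hx') hα
  rw [FData.Gi, dif_pos h]
  exact h.choose_spec

theorem FData.Gi_eq {β x : ℂ} (hβ : ‖β‖ < fd.β₁) (hx : |x.im| < 9 / 5 * Y) :
    fd.Gi β (fd.Gh β x) = x := by
  have h : ∃ x' : ℂ, |x'.im| < 9 / 5 * Y ∧ fd.Gh β x' = fd.Gh β x := ⟨x, hx, rfl⟩
  rw [FData.Gi, dif_pos h]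
  exact strip_inj_EG (fun x x' hx hx' => fd.Gh_lip hY hβ hx hx') h.choose_spec.1 hx
    h.choose_spec.2

theorem FData.Gi_odd {β α : ℂ} (hβ : ‖β‖ < fd.β₁) (hα : |α.im| < 8 / 5 * Y) :
    fd.Gi β (-α) = -fd.Gi β α := by
  obtain ⟨h1, h2⟩ := fd.Gi_spec hY hβ hα
  have h3 := fd.Gh_odd (fd.lt_β₀ hβ) h1
  rw [h2] at h3
  rw [← h3]
  exact fd.Gi_eq hY hβ (by simpa using h1)

theorem FData.Gi_per {β α : ℂ} (hβ : ‖β‖ < fd.β₁) (hα : |α.im| < 8 / 5 * Y) :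
    fd.Gi β (α + Real.pi) = fd.Gi β α + Real.pi := by
  obtain ⟨h1, h2⟩ := fd.Gi_spec hY hβ hα
  have h3 := fd.Gh_per hY (fd.lt_β₀ hβ) h1
  rw [h2] at h3
  rw [← h3]
  exact fd.Gi_eq hY hβ (by simpa using h1)

theorem FData.Gi_conj {β α : ℂ} (hβ : ‖β‖ < fd.β₁) (hα : |α.im| < 8 / 5 * Y) :
    fd.Gi (starRingEnd ℂ β) (starRingEnd ℂ α) = starRingEnd ℂ (fd.Gi β α) := by
  obtain ⟨h1, h2⟩ := fd.Gi_spec hY hβ hα
  have h3 := fd.Gh_conj hY (fd.lt_β₀ hβ) h1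
  rw [h2] at h3
  rw [← h3]
  exact fd.Gi_eq hY (by simpa using hβ) (by simpa using h1)

theorem FData.Gi_near {β α : ℂ} (hβ : ‖β‖ < fd.β₁) (hα : |α.im| < 8 / 5 * Y) :
    ‖fd.Gi β α - α‖ ≤ fd.C₁ * ‖β‖ := by
  obtain ⟨h1, h2⟩ := fd.Gi_spec hY hβ hα
  have h3 := fd.Gh_near₁ hY hβ h1
  rw [h2] at h3
  rwa [norm_sub_rev]

theorem FData.Gi_cont {β₀ α₀ : ℂ} (hβ : ‖β₀‖ < fd.β₁) (hα : |α₀.im| < 8 / 5 * Y) :
    ContinuousAt (fun p : ℂ × ℂ => fd.Gi p.1 p.2) (β₀, α₀) := by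
  obtain ⟨h1, h2⟩ := fd.Gi_spec hY hβ hα
  set x₀ := fd.Gi β₀ α₀ with hx₀
  have hO : ∀ᶠ p : ℂ × ℂ in 𝓝 (β₀, α₀), ‖p.1‖ < fd.β₁ ∧ |p.2.im| < 8 / 5 * Y := by
    have e1 : IsOpen {p : ℂ × ℂ | ‖p.1‖ < fd.β₁} := isOpen_lt (by fun_prop) continuous_const
    have e2 : IsOpen {p : ℂ × ℂ | |p.2.im| < 8 / 5 * Y} :=
      isOpen_lt (by fun_prop) continuous_const
    exact (e1.inter e2).mem_nhds ⟨hβ, hα⟩
  have hcG : ContinuousAt (fun β : ℂ => fd.Gh β x₀) β₀ := by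
    have e1 : DifferentiableAt ℂ (fun p : ℂ × ℂ => fd.Gh p.1 p.2) (β₀, x₀) :=
      (fd.Gh_diff hY).differentiableAt (fd.isOpen_dom.mem_nhds ⟨fd.lt_β₀ hβ, h1⟩)
    have e2 : ContinuousAt (fun β : ℂ => (β, x₀)) β₀ := by fun_prop
    exact ContinuousAt.comp (f := fun β : ℂ => (β, x₀)) e1.continuousAt e2
  have hlim : Tendsto (fun p : ℂ × ℂ => 4 / 3 * ‖p.2 - fd.Gh p.1 x₀‖) (𝓝 (β₀, α₀)) (𝓝 0) := by
    have e1 : ContinuousAt (fun p : ℂ × ℂ => 4 / 3 * ‖p.2 - fd.Gh p.1 x₀‖) (β₀, α₀) := by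
      refine continuousAt_const.mul ?_
      refine (continuousAt_snd.sub ?_).norm
      exact ContinuousAt.comp (g := fun β : ℂ => fd.Gh β x₀) (f := fun p : ℂ × ℂ => p.1) hcG
        continuousAt_fst
    have e2 := e1.tendsto
    simp only [h2, sub_self, norm_zero, mul_zero] at e2
    exact e2
  rw [ContinuousAt, tendsto_iff_norm_sub_tendsto_zero]
  refine squeeze_zero' (Eventually.of_forall fun p => norm_nonneg _) ?_ hlim
  filter_upwards [hO] with p hp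
  obtain ⟨h3, h4⟩ := fd.Gi_spec hY hp.1 hp.2
  have h5 := fd.Gh_lip hY hp.1 h3 h1
  rw [h4] at h5
  have h6 : fd.Gi p.1 p.2 - x₀ = (p.2 - fd.Gh p.1 x₀) -
      ((p.2 - fd.Gi p.1 p.2) - (fd.Gh p.1 x₀ - x₀)) := by ring
  have h7 : ‖fd.Gi p.1 p.2 - x₀‖ ≤ ‖p.2 - fd.Gh p.1 x₀‖ + 1 / 4 * ‖fd.Gi p.1 p.2 - x₀‖ := by
    calc ‖fd.Gi p.1 p.2 - x₀‖ = ‖(p.2 - fd.Gh p.1 x₀) -
        ((p.2 - fd.Gi p.1 p.2) - (fd.Gh p.1 x₀ - x₀))‖ := by rw [← h6]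
      _ ≤ _ := norm_sub_le _ _
      _ ≤ _ := by linarith
  simp only [← hx₀]
  linarith

theorem FData.Gi_diff : DifferentiableOn ℂ (fun p : ℂ × ℂ => fd.Gi p.1 p.2)
    {p : ℂ × ℂ | ‖p.1‖ < fd.β₁ ∧ |p.2.im| < 8 / 5 * Y} := by
  rintro ⟨β₀, α₀⟩ ⟨hβ, hα⟩
  simp only at hβ hα
  obtain ⟨h1, h2⟩ := fd.Gi_spec hY hβ hα
  set x₀ := fd.Gi β₀ α₀ with hx₀
  have hd : DifferentiableAt ℂ (fun p : ℂ × ℂ => fd.Gh p.1 p.2) (β₀, x₀) :=
    (fd.Gh_diff hY).differentiableAt (fd.isOpen_dom.mem_nhds ⟨fd.lt_β₀ hβ, h1⟩)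
  have hfd := hasFDerivAt_two_EG hd
  simp only at hfd
  set u := deriv (fun z => fd.Gh z x₀) β₀ with hu
  have hv : deriv (fun w => fd.Gh β₀ w) x₀ = fd.ga β₀ * fd.F β₀ x₀ :=
    (fd.Gh_deriv (fd.lt_β₀ hβ) h1).deriv
  rw [hv] at hfd
  set v := fd.ga β₀ * fd.F β₀ x₀ with hvdef
  have hv0 : v ≠ 0 := by
    intro h
    have := fd.deriv_near hY hβ h1
    rw [← hvdef, h, zero_sub, norm_neg, norm_one] at this
    norm_num at this
  let A : ℂ × ℂ →L[ℂ] ℂ × ℂ := (ContinuousLinearMap.fst ℂ ℂ ℂ).prod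
    (u • ContinuousLinearMap.fst ℂ ℂ ℂ + v • ContinuousLinearMap.snd ℂ ℂ ℂ)
  let B : ℂ × ℂ →L[ℂ] ℂ × ℂ := (ContinuousLinearMap.fst ℂ ℂ ℂ).prod
    (v⁻¹ • (ContinuousLinearMap.snd ℂ ℂ ℂ - u • ContinuousLinearMap.fst ℂ ℂ ℂ))
  let e : (ℂ × ℂ) ≃L[ℂ] (ℂ × ℂ) := ContinuousLinearEquiv.equivOfInverse A B
    (by
      rintro ⟨a, b⟩
      simp [A, B]
      field_simp)
    (by
      rintro ⟨a, b⟩
      simp [A, B]
      field_simp
      ring)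
  have hΨ : HasFDerivAt (fun p : ℂ × ℂ => (p.1, fd.Gh p.1 p.2)) (e : ℂ × ℂ →L[ℂ] ℂ × ℂ)
      (β₀, x₀) := hasFDerivAt_fst.prodMk hfd
  have hO : ∀ᶠ p : ℂ × ℂ in 𝓝 (β₀, α₀), ‖p.1‖ < fd.β₁ ∧ |p.2.im| < 8 / 5 * Y := by
    have e1 : IsOpen {p : ℂ × ℂ | ‖p.1‖ < fd.β₁} := isOpen_lt (by fun_prop) continuous_const
    have e2 : IsOpen {p : ℂ × ℂ | |p.2.im| < 8 / 5 * Y} :=
      isOpen_lt (by fun_prop) continuous_const
    exact (e1.inter e2).mem_nhds ⟨hβ, hα⟩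
  have hg : ContinuousAt (fun p : ℂ × ℂ => (p.1, fd.Gi p.1 p.2)) (β₀, α₀) :=
    continuousAt_fst.prodMk (fd.Gi_cont hY hβ hα)
  have key := HasFDerivAt.of_local_left_inverse (f := fun p : ℂ × ℂ => (p.1, fd.Gh p.1 p.2))
    (f' := e) (g := fun p : ℂ × ℂ => (p.1, fd.Gi p.1 p.2)) (a := (β₀, α₀)) hg hΨ (by
      filter_upwards [hO] with p hp
      simp only [(fd.Gi_spec hY hp.1 hp.2).2])
  exact (key.snd.differentiableAt).differentiableWithinAt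

end GI

theorem exists_GData {Y : ℝ} (hY : 0 < Y) {T : ℂ → ℂ} (fd : FData Y T) : Nonempty (GData Y T) :=
  ⟨{ toFData := fd
     β₁ := fd.β₁
     C₁ := fd.C₁
     ga := fd.ga
     Gh := fd.Gh
     Gi := fd.Gi
     β₁_pos := fd.β₁_pos hY
     β₁_le := fd.β₁_le
     ga_near := fun β hβ => by
       refine (fd.ga_near hY (fd.lt_β₀ hβ)).trans ?_
       unfold FData.C₁ FData.C₂
       have h1 : 0 ≤ 16 / 7 * |fd.C| * ‖β‖ := by positivity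
       have h2 := Real.pi_pos
       have h3 : 0 ≤ (16 / 7 * |fd.C| * ‖β‖) * (Real.pi + 9 / 5 * Y) := by positivity
       nlinarith
     ga_ne := fun β hβ => fd.ga_ne hY (fd.lt_β₀ hβ)
     ga_conj := fun β hβ => fd.ga_conj hY (fd.lt_β₀ hβ)
     Gh_diff := (fd.Gh_diff hY).mono fun p hp => ⟨fd.lt_β₀ hp.1, hp.2⟩
     Gh_deriv := fun β x hβ hx => fd.Gh_deriv (fd.lt_β₀ hβ) hx
     Gh_odd := fun β x hβ hx => fd.Gh_odd (fd.lt_β₀ hβ) hx
     Gh_per := fun β x hβ hx => fd.Gh_per hY (fd.lt_β₀ hβ) hx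
     Gh_conj := fun β x hβ hx => fd.Gh_conj hY (fd.lt_β₀ hβ) hx
     Gh_near := fun β x hβ hx => fd.Gh_near₁ hY hβ hx
     Gh_near' := fun β x hβ hx => fd.Gh_near₂ hY hβ hx
     Gi_diff := fd.Gi_diff hY
     Gi_mem := fun β α hβ hα => (fd.Gi_spec hY hβ hα).1
     Gh_Gi := fun β α hβ hα => (fd.Gi_spec hY hβ hα).2
     Gi_Gh := fun β x hβ hx => fd.Gi_eq hY hβ (by linarith)
     Gi_odd := fun β α hβ hα => fd.Gi_odd hY hβ hα
     Gi_per := fun β α hβ hα => fd.Gi_per hY hβ hα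
     Gi_conj := fun β α hβ hα => fd.Gi_conj hY hβ hα
     Gi_near := fun β α hβ hα => fd.Gi_near hY hβ hα }⟩

end LSB
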