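import Pool.Agent.LSB.EEll

/-!
# Part E, module EInt: the real bounce angle is the abstract one

Paper proof.  `k=cos x₀∈(0,1)`, `β=tan²x₀`, `1+β=1/k²`, `ϖ=Gh β x₀`, `V ϖ=x₀` (`V_W`).  For real `s`, `z=s+iY`: `k cos z∉segm 1` (if it is real then
`sin s=0`, `|k cos z|=k cosh Y>1` for `x₀` small), so `α̂(s)=z-i Log(Jou(k cos z)e^{-iz})`, where the argument of `Log` is close to `1` (`Jou` is
Lipschitz near the compact curve `cos z`, `Jou(cos z)=e^{iz}`) is a smooth function with `cos α̂=k cos z`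
(`e^{iα̂}=Jou(k cos z)`, `cos=(J+1/J)/2`), `Im α̂` close to `Y`, `α̂(s+π)=α̂(s)+π` (`Jou_neg`), and `α̂(0)` purely imaginary (`Jou` of a real number
`>1` is in `(0,1)`).  Differentiating `cos α̂=k cos z`: `α̂'=k sin z/sin α̂`.  `Λ(s)=Gh β(α̂ s)`, `Λ'=q:=γF(β,α̂)k sin z/sin α̂`.  With
`y=1-(1+β)cos²α̂=1-cos²z=sin²z`, `sin²α̂=1-k²cos²z=k²(y+β)` (as `1/k²=1+β`), `F_sq`: `F²(y+νT(y))=y+β`, and
`T(y)=-(hE/c₀)²y` (`T_line`), so `y+νT(y)=y(1-ν hE²/c₀²)=y(1-l²hE²/(a²b²))` (`ν=(l c₀/(ab))²`): `q²=γ²F²k²y/(k²(y+β))=γ²/(1-l²hE(f s)²/(a²b²))`.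
`γ=ga β` is real (`ga_conj`) and positive for small `β`.  So `q²>0` is real, `q` is real, continuous, nonzero, of constant sign;
`Λ(π)-Λ(0)=π` so `q>0`: `q=γ(1-l²hE(f s)²/(a²b²))^{-1/2}`.  `Λ(0)=Gh β(α̂(0))` is purely imaginary (`Gh_odd`, `Gh_conj`), `=iYl`.
`BE a b l(f s)=cE a b l∫_0^{f s}wE=(cE a b l/c₀)∫_0^s(1-l²hE(f s')²/(a²b²))^{-1/2}ds'` (substitution `ψ=f s'`, `dψ=hE/c₀ ds'`), and both
normalised to increase by `π` over `[0,π]` (`BE a b l π=π` by symmetry), so `γ=cE a b l/c₀` and `Λ(s)=BE a b l(f s)+iYl`.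
`cfun ϖ (Λ s)=cos(Gi β(Gh β(α̂ s)))/k=cos α̂/k=cos z` (`Gi_Gh`, `|Im α̂|<3Y/2`).  `|Yl-Y|≤‖Gh-id‖+|α̂(0)-iY|` is small.
-/

namespace LSB

open Complex

private noncomputable def gK (k : ℝ) (z : ℂ) : ℂ := Jou (k * cos z) * exp (-(I * z))

private noncomputable def aK (k : ℝ) (z : ℂ) : ℂ := z - I * log (gK k z)

private theorem Jou_neg' (w : ℂ) : Jou (-w) = -Jou w := by
  unfold Jou
  rw [neg_sq]
  ring

private theorem gK_add_pi (k : ℝ) (z : ℂ) : gK k (z + Real.pi) = gK k z := by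
  unfold gK
  have h1 : Jou (k * cos (z + Real.pi)) = -Jou (k * cos z) := by
    rw [Complex.cos_add_pi, mul_neg, Jou_neg']
  have h2 : exp (-(I * (z + Real.pi))) = - exp (-(I * z)) := by
    have : -(I * (z + Real.pi)) = -(I * z) - Real.pi * I := by ring
    rw [this, Complex.exp_sub, Complex.exp_pi_mul_I, div_neg, div_one]
  rw [h1, h2]
  ring

private theorem aK_add_pi (k : ℝ) (z : ℂ) : aK k (z + Real.pi) = aK k z + Real.pi := by
  unfold aK
  rw [gK_add_pi]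
  ring

private theorem gK_one {z : ℂ} (hz : 0 < z.im) : gK 1 z = 1 := by
  unfold gK
  rw [Complex.ofReal_one, one_mul, Jou_cos hz, ← Complex.exp_add, add_neg_cancel, Complex.exp_zero]

/-- the conditions on `k` -/
private def PK (Y η k s : ℝ) : Prop :=
  (k * cos (s + Y * I) : ℂ) ∉ segm 1 ∧ gK k (s + Y * I) ∈ slitPlane ∧
  ‖log (gK k (s + Y * I))‖ < η ∧
  ‖k * sin (s + Y * I) / sin (aK k (s + Y * I)) - 1‖ < 1 / 2

private theorem PK_add_pi (Y η k s : ℝ) : PK Y η k (s + Real.pi) = PK Y η k s := by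
  have h0 : (((s + Real.pi : ℝ) : ℂ) + Y * I) = ((s : ℂ) + Y * I) + Real.pi := by
    push_cast
    ring
  have h1 : ∀ w : ℂ, -w ∉ segm 1 ↔ w ∉ segm 1 := by
    intro w
    unfold segm
    simp
  unfold PK
  rw [h0, gK_add_pi, aK_add_pi, Complex.cos_add_pi, Complex.sin_add_pi, Complex.sin_add_pi,
    mul_neg, mul_neg, neg_div_neg_eq, h1]

open Filter Topology in
private theorem PK_near {Y : ℝ} (hY : 0 < Y) {η : ℝ} (hη : 0 < η) :
    ∀ᶠ k : ℝ in 𝓝 1, ∀ s : ℝ, PK Y η k s := by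
  have h1 : ∀ᶠ k : ℝ in 𝓝 1, ∀ s ∈ Set.Icc (0 : ℝ) Real.pi, PK Y η k s := by
    apply IsCompact.eventually_forall_of_forall_eventually isCompact_Icc
    intro s _
    have him : 0 < ((s : ℂ) + Y * I).im := by simpa using hY
    have hz : ContinuousAt (fun p : ℝ × ℝ => ((p.2 : ℂ) + Y * I)) (1, s) := by fun_prop
    have hw : ContinuousAt (fun p : ℝ × ℝ => (p.1 : ℂ) * cos ((p.2 : ℂ) + Y * I)) (1, s) := by
      fun_prop
    have hseg : (((1 : ℝ) : ℂ) * cos ((s : ℂ) + Y * I)) ∈ (segm 1)ᶜ := by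
      rw [Complex.ofReal_one, one_mul]
      exact cos_notMem_segm him
    have hopen : IsOpen (segm 1)ᶜ := (isClosed_segm 1).isOpen_compl
    have hJ0 : ContinuousAt Jou (((1 : ℝ) : ℂ) * cos ((s : ℂ) + Y * I)) :=
      (differentiableOn_Jou.differentiableAt (hopen.mem_nhds hseg)).continuousAt
    have hJ : ContinuousAt (fun p : ℝ × ℝ => Jou ((p.1 : ℂ) * cos ((p.2 : ℂ) + Y * I))) (1, s) :=
      ContinuousAt.comp (f := fun p : ℝ × ℝ => (p.1 : ℂ) * cos ((p.2 : ℂ) + Y * I)) (g := Jou)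
        hJ0 hw
    have hg : ContinuousAt (fun p : ℝ × ℝ => gK p.1 ((p.2 : ℂ) + Y * I)) (1, s) := by
      unfold gK
      exact hJ.mul (by fun_prop)
    have hg1 : gK ((1 : ℝ), s).1 ((((1 : ℝ), s).2 : ℂ) + Y * I) = 1 := gK_one him
    have hlog : ContinuousAt (fun p : ℝ × ℝ => log (gK p.1 ((p.2 : ℂ) + Y * I))) (1, s) :=
      hg.clog (by rw [hg1]; exact one_mem_slitPlane)
    have hlog1 : log (gK ((1 : ℝ), s).1 ((((1 : ℝ), s).2 : ℂ) + Y * I)) = 0 := by
      rw [hg1, Complex.log_one]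
    have ha : ContinuousAt (fun p : ℝ × ℝ => aK p.1 ((p.2 : ℂ) + Y * I)) (1, s) := by
      unfold aK
      exact hz.sub (continuousAt_const.mul hlog)
    have ha1 : aK ((1 : ℝ), s).1 ((((1 : ℝ), s).2 : ℂ) + Y * I) = (s : ℂ) + Y * I := by
      unfold aK
      rw [hlog1, mul_zero, sub_zero]
    have hsin : sin ((s : ℂ) + Y * I) ≠ 0 := by
      intro h
      have h2 := Complex.sin_eq_zero_iff.1 h
      obtain ⟨n, hn⟩ := h2
      have h3 : ((s : ℂ) + Y * I).im = 0 := by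
        rw [hn]
        simp
      rw [h3] at him
      exact lt_irrefl _ him
    have hr : ContinuousAt (fun p : ℝ × ℝ => (p.1 : ℂ) * sin ((p.2 : ℂ) + Y * I) /
        sin (aK p.1 ((p.2 : ℂ) + Y * I))) (1, s) := by
      refine ContinuousAt.div (by fun_prop) (Complex.continuous_sin.continuousAt.comp ha) ?_
      show sin (aK ((1 : ℝ), s).1 ((((1 : ℝ), s).2 : ℂ) + Y * I)) ≠ 0
      rw [ha1]
      exact hsin
    have hr' : ContinuousAt (fun p : ℝ × ℝ => ‖(p.1 : ℂ) * sin ((p.2 : ℂ) + Y * I) /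
        sin (aK p.1 ((p.2 : ℂ) + Y * I)) - 1‖) (1, s) := (hr.sub continuousAt_const).norm
    have hr1 : ‖(((1 : ℝ), s).1 : ℂ) * sin ((((1 : ℝ), s).2 : ℂ) + Y * I) /
        sin (aK ((1 : ℝ), s).1 ((((1 : ℝ), s).2 : ℂ) + Y * I)) - 1‖ < 1 / 2 := by
      rw [ha1]
      simp only [Complex.ofReal_one, one_mul]
      rw [div_self hsin]
      simp
    have hsl : (fun p : ℝ × ℝ => gK p.1 ((p.2 : ℂ) + Y * I)) (1, s) ∈ slitPlane := by
      show gK ((1 : ℝ), s).1 ((((1 : ℝ), s).2 : ℂ) + Y * I) ∈ slitPlane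
      rw [hg1]
      exact one_mem_slitPlane
    have hln : (fun p : ℝ × ℝ => ‖log (gK p.1 ((p.2 : ℂ) + Y * I))‖) (1, s) < η := by
      show ‖log (gK ((1 : ℝ), s).1 ((((1 : ℝ), s).2 : ℂ) + Y * I))‖ < η
      rw [hlog1, norm_zero]
      exact hη
    filter_upwards [hw.eventually (hopen.mem_nhds hseg),
      hg.eventually (isOpen_slitPlane.mem_nhds hsl),
      hlog.norm.eventually (gt_mem_nhds hln),
      hr'.eventually (gt_mem_nhds hr1)] with p hp1 hp2 hp3 hp4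
    exact ⟨hp1, hp2, hp3, hp4⟩
  filter_upwards [h1] with k hk s
  have hper : Function.Periodic (fun s => PK Y η k s) Real.pi := fun s => PK_add_pi Y η k s
  obtain ⟨y, hy, hsy⟩ := hper.exists_mem_Ico₀ Real.pi_pos s
  have h2 := hk y ⟨hy.1, hy.2.le⟩
  have hsy' : PK Y η k s = PK Y η k y := hsy
  rw [hsy']
  exact h2

private theorem cos_aK {k : ℝ} {z : ℂ} (h : (k * cos z : ℂ) ∉ segm 1) :
    cos (aK k z) = k * cos z := by
  obtain ⟨v, hv, hvw⟩ := exists_cos_eq h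
  have hJ : Jou (k * cos z) = exp (I * v) := by rw [← hvw, Jou_cos hv]
  have hne : gK k z ≠ 0 := by
    unfold gK
    exact mul_ne_zero (Jou_ne_zero h) (Complex.exp_ne_zero _)
  have h1 : exp (aK k z * I) = exp (v * I) := by
    have h2 : aK k z * I = z * I + log (gK k z) := by
      unfold aK
      rw [sub_mul]
      have : I * log (gK k z) * I = -log (gK k z) := by
        rw [mul_comm I, mul_assoc, Complex.I_mul_I]
        ring
      rw [this]
      ring
    rw [h2, Complex.exp_add, Complex.exp_log hne]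
    unfold gK
    rw [hJ, mul_comm (exp (I * v)), ← mul_assoc, ← Complex.exp_add]
    have h3 : z * I + -(I * z) = 0 := by ring
    rw [h3, Complex.exp_zero, one_mul, mul_comm]
  have h2 : exp (-aK k z * I) = exp (-v * I) := by
    rw [neg_mul, neg_mul, Complex.exp_neg, Complex.exp_neg, h1]
  rw [← hvw, Complex.cos, Complex.cos, h1, h2]

/-- derivative of the lift -/
private theorem aK_hasDerivAt {Y η k : ℝ} (hP : ∀ s, PK Y η k s) (s : ℝ) :
    HasDerivAt (fun s : ℝ => aK k (s + Y * I))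
      (k * sin (s + Y * I) / sin (aK k (s + Y * I))) s := by
  obtain ⟨h1, h2, h3, h4⟩ := hP s
  have hsin : sin (aK k (s + Y * I)) ≠ 0 := by
    intro h
    rw [h, div_zero, zero_sub, norm_neg, norm_one] at h4
    norm_num at h4
  have hopen : IsOpen (segm 1)ᶜ := (isClosed_segm 1).isOpen_compl
  have hd : DifferentiableAt ℂ (fun ζ : ℂ => aK k (ζ + Y * I)) (s : ℂ) := by
    unfold aK
    have e1 : DifferentiableAt ℂ (fun ζ : ℂ => ζ + Y * I) (s : ℂ) := by fun_prop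
    have e2 : DifferentiableAt ℂ (fun ζ : ℂ => (k : ℂ) * cos (ζ + Y * I)) (s : ℂ) :=
      (Complex.differentiable_cos.differentiableAt.comp (s : ℂ) e1).const_mul _
    have e3 : DifferentiableAt ℂ Jou ((k : ℂ) * cos ((s : ℂ) + Y * I)) :=
      differentiableOn_Jou.differentiableAt (hopen.mem_nhds h1)
    have e4 : DifferentiableAt ℂ (fun ζ : ℂ => Jou ((k : ℂ) * cos (ζ + Y * I))) (s : ℂ) :=
      DifferentiableAt.comp (s : ℂ) (f := fun ζ : ℂ => (k : ℂ) * cos (ζ + Y * I)) e3 e2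
    have e5 : DifferentiableAt ℂ (fun ζ : ℂ => gK k (ζ + Y * I)) (s : ℂ) := by
      unfold gK
      exact e4.mul ((e1.const_mul I).neg.cexp)
    exact e1.sub ((e5.clog h2).const_mul I)
  have hd1 : HasDerivAt (fun s : ℝ => aK k (s + Y * I))
      (deriv (fun ζ : ℂ => aK k (ζ + Y * I)) (s : ℂ)) s := hd.hasDerivAt.comp_ofReal
  set d := deriv (fun ζ : ℂ => aK k (ζ + Y * I)) (s : ℂ) with hdd
  have hc1 : HasDerivAt (fun s : ℝ => cos (aK k (s + Y * I)))
      (-sin (aK k (s + Y * I)) * d) s := (Complex.hasDerivAt_cos _).comp s hd1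
  have hz : HasDerivAt (fun s : ℝ => (s : ℂ) + Y * I) 1 s :=
    (Complex.ofRealCLM.hasDerivAt (x := s)).add_const _
  have hc2 : HasDerivAt (fun s : ℝ => (k : ℂ) * cos (s + Y * I))
      (k * (-sin (s + Y * I) * 1)) s := ((Complex.hasDerivAt_cos _).comp s hz).const_mul _
  have heq : (fun s : ℝ => cos (aK k (s + Y * I))) = fun s : ℝ => (k : ℂ) * cos (s + Y * I) :=
    funext fun t => cos_aK (hP t).1
  rw [heq] at hc1
  have h5 := hc1.unique hc2
  have h6 : k * sin (s + Y * I) / sin (aK k (s + Y * I)) = d := by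
    rw [div_eq_iff hsin]
    linear_combination h5
  rw [h6]
  exact hd1

private theorem aK_im {Y η k : ℝ} (hP : ∀ s, PK Y η k s) (s : ℝ) :
    |(aK k (s + Y * I)).im - Y| < η := by
  obtain ⟨h1, h2, h3, h4⟩ := hP s
  have h5 : (aK k (s + Y * I)).im - Y = (-(I * log (gK k (s + Y * I)))).im := by
    unfold aK
    rw [Complex.sub_im, Complex.neg_im]
    simp
  rw [h5]
  refine (Complex.abs_im_le_norm _).trans_lt ?_
  rw [norm_neg, norm_mul, Complex.norm_I, one_mul]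
  exact h3

/-- the lift at `0` is purely imaginary -/
private theorem aK_zero_conj {Y η k : ℝ} (hP : ∀ s, PK Y η k s) :
    starRingEnd ℂ (aK k (Y * I)) = -aK k (Y * I) := by
  obtain ⟨h1, h2, h3, h4⟩ := hP 0
  rw [Complex.ofReal_zero, zero_add] at h1 h2
  have hz : starRingEnd ℂ ((Y : ℂ) * I) = -((Y : ℂ) * I) := by
    rw [map_mul, Complex.conj_ofReal, Complex.conj_I]
    ring
  have hc : starRingEnd ℂ ((k : ℂ) * cos (Y * I)) = k * cos (Y * I) := by
    rw [map_mul, Complex.conj_ofReal, ← Complex.cos_conj, hz, Complex.cos_neg]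
  have hg : starRingEnd ℂ (gK k (Y * I)) = gK k (Y * I) := by
    unfold gK
    rw [map_mul, ← Jou_conj h1, hc, ← Complex.exp_conj, map_neg, map_mul, Complex.conj_I, hz]
    congr 2
    ring
  have hlog : starRingEnd ℂ (log (gK k (Y * I))) = log (gK k (Y * I)) := by
    rw [← Complex.log_conj _ (Complex.slitPlane_arg_ne_pi h2), hg]
  unfold aK
  rw [map_sub, hz, map_mul, Complex.conj_I, hlog]
  ring

theorem EllData.curve {a b : ℝ} (hb : 0 < b) (hab : b < a) (E : EllData a b) {ε : ℝ} (hε : 0 < ε) :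
    ∃ ε₁ > 0, ∀ l x₀ : ℝ, 0 < l → l ≤ b / 2 → 0 < x₀ → x₀ < ε₁ →
      E.vd.nu (tan (x₀ : ℂ) ^ 2) = ((l * cE a b 0 / (a * b) : ℝ) : ℂ) ^ 2 →
      E.vd.ga (tan (x₀ : ℂ) ^ 2) = ((cE a b l / cE a b 0 : ℝ) : ℂ) ∧
      ∃ Yl : ℝ, 0 < Yl ∧ |Yl - E.Y| < ε ∧ ∀ s : ℝ,
        E.vd.cfun (E.vd.Gh (tan (x₀ : ℂ) ^ 2) x₀) (BE a b l (E.f s) + Yl * I) =
          cos (s + E.Y * I) := by
  have hY := E.Y_pos
  set η : ℝ := min ε E.Y / 2 with hη
  have hη0 : 0 < η := half_pos (lt_min hε hY)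
  have hη1 : η ≤ E.Y / 2 := by
    have := min_le_right ε E.Y
    rw [hη]; linarith
  have hη2 : η ≤ ε / 2 := by
    have := min_le_left ε E.Y
    rw [hη]; linarith
  have e1 : ∀ᶠ x : ℝ in nhds 0, ∀ s, PK E.Y η (Real.cos x) s :=
    (Real.continuous_cos.tendsto' 0 1 Real.cos_zero).eventually (PK_near hY hη0)
  have e2 : ∀ᶠ x : ℝ in nhds 0, 0 < Real.cos x :=
    (Real.continuous_cos.tendsto' 0 1 Real.cos_zero).eventually (lt_mem_nhds one_pos)
  have e3 : ∀ᶠ x : ℝ in nhds 0, E.vd.C₁ * ‖tan (x : ℂ) ^ 2‖ < η := by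
    have h1 : ContinuousAt (fun x : ℝ => E.vd.C₁ * ‖tan (x : ℂ) ^ 2‖) 0 := by
      have h2 : ContinuousAt (fun x : ℝ => tan (x : ℂ)) 0 := by
        have h3 : ContinuousAt tan ((0 : ℝ) : ℂ) :=
          (Complex.hasDerivAt_tan (by simp)).continuousAt
        exact ContinuousAt.comp (f := fun x : ℝ => (x : ℂ)) h3
          Complex.continuous_ofReal.continuousAt
      exact continuousAt_const.mul ((h2.pow 2).norm)
    refine h1.eventually (gt_mem_nhds ?_)
    simpa using hη0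
  have e4 : ∀ᶠ x : ℝ in nhds 0, ‖(x : ℂ)‖ < E.vd.x₁ := by
    have h1 : ContinuousAt (fun x : ℝ => ‖(x : ℂ)‖) 0 :=
      Complex.continuous_ofReal.continuousAt.norm
    refine h1.eventually (gt_mem_nhds ?_)
    simpa using E.vd.x₁_pos
  obtain ⟨ε₁, hε₁, h⟩ := Metric.eventually_nhds_iff.1 (e1.and (e2.and (e3.and e4)))
  refine ⟨ε₁, hε₁, fun l x₀ hl hl2 hx0 hx1 hnu => ?_⟩
  obtain ⟨hP, hk, hC, hx₁⟩ := h (show dist x₀ 0 < ε₁ by
    rw [Real.dist_eq, sub_zero, abs_of_pos hx0]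
    exact hx1)
  clear h e1 e2 e3 e4
  set k : ℝ := Real.cos x₀ with hkdef
  set β : ℂ := tan (x₀ : ℂ) ^ 2 with hβ
  obtain ⟨hβ1, hGr, hVG⟩ := E.vd.V_W (x₀ : ℂ) hx₁
  rw [← hβ] at hβ1 hGr hVG
  have hβ0 : ‖β‖ < E.vd.β₀ := hβ1.trans_le E.vd.β₁_le
  have hkC : (k : ℂ) = cos (x₀ : ℂ) := by rw [hkdef, Complex.ofReal_cos]
  have hk0 : (k : ℂ) ≠ 0 := by exact_mod_cast hk.ne'
  have hβk : (k : ℂ) ^ 2 * (1 + β) = 1 := by
    have h1 := Complex.sin_sq_add_cos_sq (x₀ : ℂ)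
    rw [hβ, Complex.tan_eq_sin_div_cos, ← hkC]
    rw [← hkC] at h1
    field_simp
    linear_combination h1
  have hβc : starRingEnd ℂ β = β := by
    rw [hβ, map_pow, ← Complex.tan_conj, Complex.conj_ofReal]
  have hc0 : 0 < cE a b 0 := cE_pos hb hab.le le_rfl (by linarith)
  have hcl : 0 < cE a b l := cE_pos hb hab.le hl.le hl2
  have ha0 : 0 < a := hb.trans hab
  -- the lift
  set A : ℝ → ℂ := fun s => aK k (s + E.Y * I) with hA
  have hAim : ∀ s, |(A s).im - E.Y| < η := fun s => aK_im hP s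
  have hAim1 : ∀ s, |(A s).im| < 3 / 2 * E.Y := by
    intro s
    have h1 := abs_lt.1 (hAim s)
    rw [abs_lt]
    constructor <;> linarith [h1.1, h1.2]
  have hAim2 : ∀ s, |(A s).im| < 9 / 5 * E.Y := fun s => (hAim1 s).trans (by linarith)
  have hAd : ∀ s : ℝ, HasDerivAt A (k * sin (s + E.Y * I) / sin (A s)) s := fun s => aK_hasDerivAt hP s
  have hAcos : ∀ s : ℝ, cos (A s) = k * cos (s + E.Y * I) := fun s => cos_aK (hP s).1
  have hAper : ∀ s, A (s + Real.pi) = A s + Real.pi := by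
    intro s
    simp only [hA]
    rw [← aK_add_pi]
    congr 1
    push_cast
    ring
  -- the density
  set R : ℝ → ℝ := fun s => 1 - l ^ 2 * hE a b (E.f s) ^ 2 / (a ^ 2 * b ^ 2) with hR
  have hRpos : ∀ s, 0 < R s := fun s => by
    have := (rad_bound hb hab.le hl.le hl2 (E.f s)).1
    simp only [hR]
    linarith
  set m : ℝ → ℂ := fun s => E.vd.F β (A s) * (k * sin (s + E.Y * I) / sin (A s)) with hm
  have hmR : ∀ s, m s = (((√(R s))⁻¹ : ℝ) : ℂ) := by
    intro s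
    obtain ⟨h1, h2, h3, h4⟩ := hP s
    set z : ℂ := (s : ℂ) + E.Y * I with hz
    have hsinA : sin (A s) ≠ 0 := by
      intro h
      have h4' : ‖(k : ℂ) * sin z / sin (A s) - 1‖ < 1 / 2 := h4
      rw [h, div_zero, zero_sub, norm_neg, norm_one] at h4'
      norm_num at h4'
    have hsinz : sin z ≠ 0 := by
      intro h
      have h4' : ‖(k : ℂ) * sin z / sin (A s) - 1‖ < 1 / 2 := h4
      rw [h, mul_zero, zero_div, zero_sub, norm_neg, norm_one] at h4'
      norm_num at h4'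
    have hF := E.vd.F_sq β (A s) hβ0 (hAim2 s)
    have hcz := Complex.sin_sq_add_cos_sq z
    have hcA := Complex.sin_sq_add_cos_sq (A s)
    have hy : 1 - (1 + β) * cos (A s) ^ 2 = sin z ^ 2 := by
      rw [hAcos s]
      linear_combination (-cos z ^ 2) * hβk - hcz
    have hT := E.T_line s
    rw [hy, hnu, hT] at hF
    have hRC : ((R s : ℝ) : ℂ) = 1 + ((l * cE a b 0 / (a * b) : ℝ) : ℂ) ^ 2 *
        (-((hE a b (E.f s) / cE a b 0 : ℝ) : ℂ) ^ 2) := by
      simp only [hR]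
      have h5 : 1 - l ^ 2 * hE a b (E.f s) ^ 2 / (a ^ 2 * b ^ 2) =
          1 + (l * cE a b 0 / (a * b)) ^ 2 * (-(hE a b (E.f s) / cE a b 0) ^ 2) := by
        field_simp
        ring
      rw [h5]
      push_cast
      ring
    have hF2 : E.vd.F β (A s) ^ 2 * (sin z ^ 2 * (R s : ℂ)) = sin z ^ 2 + β := by
      rw [hRC, ← hF]
      ring
    have hkA : (k : ℂ) ^ 2 * (sin z ^ 2 + β) = sin (A s) ^ 2 := by
      have h5 := hAcos s
      rw [← hz] at h5
      have h6 : cos (A s) ^ 2 = (k : ℂ) ^ 2 * cos z ^ 2 := by rw [h5]; ring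
      linear_combination hβk + (k : ℂ) ^ 2 * hcz - hcA + h6
    have hm2 : m s ^ 2 * (R s : ℂ) = 1 := by
      simp only [hm]
      have h5 : sin (A s) ^ 2 ≠ 0 := pow_ne_zero 2 hsinA
      rw [mul_pow, div_pow]
      field_simp
      rw [← hkA]
      linear_combination (k : ℂ) ^ 2 * hF2
    have hroot : (((√(R s))⁻¹ : ℝ) : ℂ) ^ 2 * (R s : ℂ) = 1 := by
      have h5 : ((√(R s))⁻¹) ^ 2 * R s = 1 := by
        rw [inv_pow, Real.sq_sqrt (hRpos s).le]
        exact inv_mul_cancel₀ (hRpos s).ne'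
      exact_mod_cast h5
    have hR0 : (R s : ℂ) ≠ 0 := by exact_mod_cast (hRpos s).ne'
    have hsq : m s ^ 2 = (((√(R s))⁻¹ : ℝ) : ℂ) ^ 2 :=
      mul_right_cancel₀ hR0 (hm2.trans hroot.symm)
    rcases sq_eq_sq_iff_eq_or_eq_neg.1 hsq with h5 | h5
    · exact h5
    · exfalso
      have hF' := E.vd.F_near' β (A s) hβ0 (hAim2 s)
      have h4' : ‖(k : ℂ) * sin z / sin (A s) - 1‖ < 1 / 2 := h4
      set w : ℂ := (k : ℂ) * sin z / sin (A s) with hw
      have h6 : ‖m s - 1‖ < 1 := by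
        have h7 : m s - 1 = (E.vd.F β (A s) - 1) * w + (w - 1) := by
          simp only [hm]
          ring
        have h8 : ‖w‖ ≤ 3 / 2 := by
          calc ‖w‖ = ‖(w - 1) + 1‖ := by ring_nf
            _ ≤ ‖w - 1‖ + ‖(1 : ℂ)‖ := norm_add_le _ _
            _ ≤ 3 / 2 := by rw [norm_one]; linarith
        rw [h7]
        calc _ ≤ ‖(E.vd.F β (A s) - 1) * w‖ + ‖w - 1‖ := norm_add_le _ _
          _ = ‖E.vd.F β (A s) - 1‖ * ‖w‖ + ‖w - 1‖ := by rw [norm_mul]
          _ ≤ 1 / 8 * (3 / 2) + ‖w - 1‖ := by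
            gcongr
          _ < 1 := by linarith
      have h9 : |(m s - 1).re| < 1 := (Complex.abs_re_le_norm _).trans_lt h6
      rw [h5] at h9
      have h10 : (-(((√(R s))⁻¹ : ℝ) : ℂ) - 1).re = -(√(R s))⁻¹ - 1 := by
        rw [Complex.sub_re, Complex.neg_re, Complex.ofReal_re, Complex.one_re]
      rw [h10] at h9
      have h11 : 0 < (√(R s))⁻¹ := inv_pos.2 (Real.sqrt_pos.2 (hRpos s))
      have h12 := (abs_lt.1 h9).1
      linarith
  -- the bounce angle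
  set L : ℝ → ℂ := fun s => E.vd.Gh β (A s) with hL
  set γ : ℂ := E.vd.ga β with hγ
  have hLd : ∀ s, HasDerivAt L (γ * (((√(R s))⁻¹ : ℝ) : ℂ)) s := by
    intro s
    have h1 := E.vd.Gh_deriv β (A s) hβ1 (hAim2 s)
    have h2 := HasDerivAt.comp s h1 (hAd s)
    have h3 : E.vd.ga β * E.vd.F β (A s) * (k * sin (s + E.Y * I) / sin (A s)) =
        γ * (((√(R s))⁻¹ : ℝ) : ℂ) := by
      rw [← hmR s]
      simp only [hm]
      ring
    rw [h3] at h2
    exact h2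
  set B : ℝ → ℝ := fun s => BE a b l (E.f s) with hB
  have hBd : ∀ s, HasDerivAt B (cE a b l / cE a b 0 * (√(R s))⁻¹) s := by
    intro s
    have h1 := hasDerivAt_BE hb hab.le hl.le hl2 (E.f s)
    have h2 := HasDerivAt.comp s h1 (E.amp.deriv s)
    have h3 : cE a b l * wE a b l (E.f s) * (hE a b (E.f s) / cE a b 0) =
        cE a b l / cE a b 0 * (√(R s))⁻¹ := by
      have h4 := (hE_pos hb hab.le (E.f s)).ne'
      have h5 : √(R s) ≠ 0 := (Real.sqrt_pos.2 (hRpos s)).ne'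
      have h6 : wE a b l (E.f s) = 1 / (hE a b (E.f s) * √(R s)) := rfl
      rw [h6]
      field_simp
    rw [h3] at h2
    exact h2
  have hconst : ∀ s, L s - γ * ((cE a b 0 / cE a b l : ℝ) : ℂ) * (B s : ℂ) = L 0 := by
    have hd : ∀ s, HasDerivAt (fun s => L s - γ * ((cE a b 0 / cE a b l : ℝ) : ℂ) * (B s : ℂ))
        0 s := by
      intro s
      have h1 := (hLd s).sub (((hBd s).ofReal_comp).const_mul (γ * ((cE a b 0 / cE a b l : ℝ) : ℂ)))
      have h2 : γ * (((√(R s))⁻¹ : ℝ) : ℂ) - γ * ((cE a b 0 / cE a b l : ℝ) : ℂ) *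
          ((cE a b l / cE a b 0 * (√(R s))⁻¹ : ℝ) : ℂ) = 0 := by
        have h3 : (((√(R s))⁻¹ : ℝ) : ℂ) = ((cE a b 0 / cE a b l : ℝ) : ℂ) *
          ((cE a b l / cE a b 0 * (√(R s))⁻¹ : ℝ) : ℂ) := by
          rw [← Complex.ofReal_mul]
          congr 1
          field_simp
        rw [mul_assoc, ← h3, sub_self]
      rw [h2] at h1
      exact h1
    intro s
    have h1 := is_const_of_deriv_eq_zero (f := fun s => L s -
      γ * ((cE a b 0 / cE a b l : ℝ) : ℂ) * (B s : ℂ)) (fun s => (hd s).differentiableAt)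
      (fun s => (hd s).deriv) s 0
    have h2 : B 0 = 0 := by
      simp only [hB]
      rw [E.amp.zero, BE_zero]
    have h3 : L s - γ * ((cE a b 0 / cE a b l : ℝ) : ℂ) * (B s : ℂ) =
      L 0 - γ * ((cE a b 0 / cE a b l : ℝ) : ℂ) * (B 0 : ℂ) := h1
    rw [h3, h2]
    simp
  have hfper : ∀ s, E.f (s + Real.pi) = E.f s + Real.pi := by
    intro s
    have h1 := E.amp.period s
    rwa [cE_zero_integral hb hab.le] at h1
  have hB2 : B (Real.pi + Real.pi) = 2 * Real.pi := by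
    simp only [hB]
    have h1 : E.f (Real.pi + Real.pi) = 0 + 2 * Real.pi := by
      have h2 := hfper 0
      rw [zero_add, E.amp.zero, zero_add] at h2
      rw [hfper, h2]
      ring
    rw [h1, BE_add_two_pi hb hab.le hl.le hl2, BE_zero, zero_add]
  have hLper : ∀ s, L (s + Real.pi) = L s + Real.pi := by
    intro s
    simp only [hL]
    rw [hAper, E.vd.Gh_per β (A s) hβ1 (hAim2 s)]
  have hL2 : L (Real.pi + Real.pi) = L 0 + Real.pi + Real.pi := by
    rw [hLper]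
    have := hLper 0
    rw [zero_add] at this
    rw [this]
  have hγeq : γ = ((cE a b l / cE a b 0 : ℝ) : ℂ) := by
    have h1 := hconst (Real.pi + Real.pi)
    rw [hL2, hB2] at h1
    have hpi : (Real.pi : ℂ) ≠ 0 := by exact_mod_cast Real.pi_ne_zero
    have h2 : γ * ((cE a b 0 / cE a b l : ℝ) : ℂ) = 1 := by
      have h3 : (2 * Real.pi : ℂ) * (γ * ((cE a b 0 / cE a b l : ℝ) : ℂ)) =
          (2 * Real.pi : ℂ) * 1 := by
        push_cast at h1 ⊢
        linear_combination (-1 : ℂ) * h1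
      exact mul_left_cancel₀ (mul_ne_zero two_ne_zero hpi) h3
    have h4 : ((cE a b 0 / cE a b l : ℝ) : ℂ) * ((cE a b l / cE a b 0 : ℝ) : ℂ) = 1 := by
      rw [← Complex.ofReal_mul]
      have : cE a b 0 / cE a b l * (cE a b l / cE a b 0) = 1 := by field_simp
      rw [this, Complex.ofReal_one]
    calc γ = γ * (((cE a b 0 / cE a b l : ℝ) : ℂ) * ((cE a b l / cE a b 0 : ℝ) : ℂ)) := by
          rw [h4, mul_one]
      _ = _ := by rw [← mul_assoc, h2, one_mul]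
  have hLB : ∀ s, L s = (B s : ℂ) + L 0 := by
    intro s
    have h1 := hconst s
    rw [hγeq] at h1
    have h4 : ((cE a b l / cE a b 0 : ℝ) : ℂ) * ((cE a b 0 / cE a b l : ℝ) : ℂ) = 1 := by
      rw [← Complex.ofReal_mul]
      have : cE a b l / cE a b 0 * (cE a b 0 / cE a b l) = 1 := by field_simp
      rw [this, Complex.ofReal_one]
    rw [h4, one_mul] at h1
    linear_combination h1
  -- the value at `0`
  have hA0 : A 0 = aK k (E.Y * I) := by
    simp only [hA]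
    rw [Complex.ofReal_zero, zero_add]
  have hL0 : starRingEnd ℂ (L 0) = -L 0 := by
    simp only [hL]
    rw [← E.vd.Gh_odd β (A 0) hβ1 (hAim2 0), ← E.vd.Gh_conj β (A 0) hβ1 (hAim2 0), hβc, hA0,
      aK_zero_conj hP]
  have hL0re : (L 0).re = 0 := by
    have h1 := congrArg Complex.re hL0
    rw [Complex.conj_re, Complex.neg_re] at h1
    linarith
  have hL0eq : L 0 = ((L 0).im : ℂ) * I := by
    apply Complex.ext
    · simp [hL0re]
    · simp
  have hdist : |(L 0).im - E.Y| < 2 * η := by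
    have h1 : (L 0).im - E.Y = (L 0 - A 0).im + ((A 0).im - E.Y) := by
      rw [Complex.sub_im]; ring
    have h2 : |(L 0 - A 0).im| < η := by
      refine (Complex.abs_im_le_norm _).trans_lt ?_
      exact (E.vd.Gh_near β (A 0) hβ1 (hAim2 0)).trans_lt hC
    rw [h1]
    calc _ ≤ |(L 0 - A 0).im| + |(A 0).im - E.Y| := abs_add_le _ _
      _ < 2 * η := by linarith [hAim 0]
  refine ⟨hγeq, (L 0).im, ?_, ?_, ?_⟩
  · have h1 := (abs_lt.1 hdist).1
    linarith
  · linarith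
  · intro s
    unfold VData.cfun
    rw [hVG, ← hβ, ← hL0eq]
    have h1 : ((BE a b l (E.f s) : ℝ) : ℂ) + L 0 = E.vd.Gh β (A s) := (hLB s).symm
    rw [h1, E.vd.Gi_Gh β (A s) hβ1 (hAim1 s), hAcos s, ← hkC, mul_div_cancel_left₀ _ hk0]

end LSB
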