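import Pool.Agent.LSB.ECs

/-!
# Part E, module EQ: the function `Q(z)=P(z) sin²z`

Paper proof.  `c=cE a b 0`, `b₁=√(a²-b²)`, `f,f₁` amplitudes with parameters `(a,b,c)`, `(a,b₁,c)`, `2Y=c∫_0^π1/hE a b₁`, `μ=a/c`.
For `|Im z|<2Y`, `z∉πℤ`: `Q(z)=μ²Csf(z)²sin²z`, differentiable.  Near `0`: `‖Q‖≤μ²|sin z|²/Δ`, `Δ=S²C₁²+S₁²≥c'|z|²` (as `S/x→μ`,
`S₁/y→μ`), bounded, so the singularity is removable (`Complex.differentiableOn_update_limUnder_of_bddAbove`), the value is the limit along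
the reals: `Csf(x)=cos f/sin f`, `Q(x)=μ²cos²f(x)·(sin x/sin f(x))²→μ²/μ²=1`.  By periodicity the same at `kπ` (define `Q(kπ)=1`).
Values: on `Im z=Y`: `f₁(Y)=π/2` (`half`), `hE a b₁(π/2)=b₁`, `Csf(x+iY)=-i hE a b(f x)/a`, so `Q(x+iY)=-(hE a b (f x)/c)² sin²(x+iY)`.  On
`z=iτ`: `f 0=0`, `Csf(iτ)=-i sin f₁/(1-cos²f₁)=-i/sin f₁(τ)`, `sin²(iτ)=-sinh²τ`, so `Q(iτ)=μ² sinh²τ/sin²f₁(τ)`.
-/

namespace LSB

open Complex Filter Topology

/-- The function `Q`. -/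
private noncomputable def Qf (a b b₁ c : ℝ) (f f₁ : ℝ → ℝ) (z : ℂ) : ℂ :=
  if sin z = 0 then 1 else ((a / c : ℝ) : ℂ) ^ 2 * Csf a b b₁ f f₁ z ^ 2 * sin z ^ 2

private theorem dslope_amp {g : ℝ → ℝ} {μ : ℝ} (h0 : g 0 = 0) (hd : HasDerivAt g μ 0) :
    ∃ s : ℝ → ℝ, Tendsto s (𝓝 0) (𝓝 μ) ∧ ∀ x, g x = s x * x := by
  refine ⟨dslope g 0, ?_, fun x => ?_⟩
  · have h1 : ContinuousAt (dslope g 0) 0 := by
      rw [continuousAt_dslope_same]
      exact hd.differentiableAt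
    have h2 := h1.tendsto
    rwa [dslope_same, hd.deriv] at h2
  · have := sub_smul_dslope g 0 x
    rw [h0, sub_zero, sub_zero, smul_eq_mul] at this
    rw [← this, mul_comm]

private theorem sin_amp_deriv {a b c : ℝ} {f : ℝ → ℝ} (ha : 0 < a) (hf : IsAmp a b c f) :
    HasDerivAt (fun x => Real.sin (f x)) (a / c) 0 := by
  have h1 := (hf.deriv 0).sin
  rw [hf.zero] at h1
  simp only [Real.cos_zero, one_mul] at h1
  have h2 : hE a b 0 = a := by
    rw [hE, Real.cos_zero, Real.sin_zero]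
    rw [show a ^ 2 * 1 ^ 2 + b ^ 2 * 0 ^ 2 = a ^ 2 by ring]
    exact Real.sqrt_sq ha.le
  rwa [h2] at h1

private theorem num_lim {A B : ℂ → ℝ} {μ : ℝ} (hA : Tendsto A (𝓝[≠] 0) (𝓝 μ))
    (hB : Tendsto B (𝓝[≠] 0) (𝓝 μ)) :
    Tendsto (fun z : ℂ => z * (((A z * z.re : ℝ) : ℂ) - ((B z * z.im : ℝ) : ℂ) * I) /
      ((normSq z : ℝ) : ℂ)) (𝓝[≠] 0) (𝓝 (μ : ℂ)) := by
  rw [tendsto_iff_norm_sub_tendsto_zero]
  have h1 : Tendsto (fun z : ℂ => |A z - μ| + |B z - μ|) (𝓝[≠] 0) (𝓝 0) := by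
    have h2 := (hA.sub_const μ).abs.add (hB.sub_const μ).abs
    simpa using h2
  refine squeeze_zero' (Eventually.of_forall fun _ => norm_nonneg _) ?_ h1
  filter_upwards [self_mem_nhdsWithin] with z hz
  have hz0 : z ≠ 0 := hz
  have hn : ((normSq z : ℝ) : ℂ) ≠ 0 := by
    rw [Ne, ofReal_eq_zero]; exact (normSq_pos.mpr hz0).ne'
  have e1 : z * (((A z * z.re : ℝ) : ℂ) - ((B z * z.im : ℝ) : ℂ) * I) /
      ((normSq z : ℝ) : ℂ) - μ =
      z * ((((A z - μ) * z.re : ℝ) : ℂ) - (((B z - μ) * z.im : ℝ) : ℂ) * I) /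
      ((normSq z : ℝ) : ℂ) := by
    rw [div_sub' hn]
    congr 1
    have e2 : ((normSq z : ℝ) : ℂ) = z * ((z.re : ℂ) - (z.im : ℂ) * I) := by
      have e3 : (starRingEnd ℂ) z = (z.re : ℂ) - (z.im : ℂ) * I := by
        apply Complex.ext <;> simp
      rw [← e3, mul_conj]
    rw [e2]
    push_cast
    ring
  rw [e1, norm_div, norm_mul]
  have e4 : ‖((normSq z : ℝ) : ℂ)‖ = ‖z‖ * ‖z‖ := by
    rw [norm_real, Real.norm_eq_abs, abs_of_nonneg (normSq_nonneg z), normSq_eq_norm_sq, sq]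
  have hz1 : 0 < ‖z‖ := norm_pos_iff.mpr hz0
  rw [e4, mul_div_mul_left _ _ hz1.ne', div_le_iff₀ hz1]
  refine (norm_sub_le _ _).trans ?_
  rw [norm_mul, norm_I, mul_one, norm_real, norm_real, Real.norm_eq_abs, Real.norm_eq_abs, abs_mul,
    abs_mul]
  have h3 := abs_re_le_norm z
  have h4 := abs_im_le_norm z
  have h5 := abs_nonneg (A z - μ)
  have h6 := abs_nonneg (B z - μ)
  nlinarith

private theorem den_lim {P R : ℂ → ℝ} {ν : ℝ} (hP : Tendsto P (𝓝[≠] 0) (𝓝 ν))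
    (hR : Tendsto R (𝓝[≠] 0) (𝓝 ν)) :
    Tendsto (fun z : ℂ => (P z * z.re ^ 2 + R z * z.im ^ 2) / normSq z) (𝓝[≠] 0) (𝓝 ν) := by
  rw [tendsto_iff_norm_sub_tendsto_zero]
  have h1 : Tendsto (fun z : ℂ => |P z - ν| + |R z - ν|) (𝓝[≠] 0) (𝓝 0) := by
    have h2 := (hP.sub_const ν).abs.add (hR.sub_const ν).abs
    simpa using h2
  refine squeeze_zero' (Eventually.of_forall fun _ => norm_nonneg _) ?_ h1
  filter_upwards [self_mem_nhdsWithin] with z hz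
  have hz0 : z ≠ 0 := hz
  have hn : 0 < normSq z := normSq_pos.mpr hz0
  have e1 : (P z * z.re ^ 2 + R z * z.im ^ 2) / normSq z - ν =
      ((P z - ν) * z.re ^ 2 + (R z - ν) * z.im ^ 2) / normSq z := by
    rw [div_sub' hn.ne', normSq_apply]
    congr 1
    ring
  rw [e1, Real.norm_eq_abs, abs_div, abs_of_pos hn, div_le_iff₀ hn]
  refine (abs_add_le _ _).trans ?_
  rw [abs_mul, abs_mul, abs_of_nonneg (sq_nonneg z.re), abs_of_nonneg (sq_nonneg z.im),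
    normSq_apply]
  have h5 := abs_nonneg (P z - ν)
  have h6 := abs_nonneg (R z - ν)
  nlinarith [mul_nonneg h5 (sq_nonneg z.im), mul_nonneg h6 (sq_nonneg z.re)]

private theorem Qf_lim {a b b₁ c : ℝ} {f f₁ : ℝ → ℝ} (ha : 0 < a) (hc : 0 < c)
    (hf : IsAmp a b c f) (hf₁ : IsAmp a b₁ c f₁) :
    Tendsto (fun z : ℂ => ((a / c : ℝ) : ℂ) ^ 2 * Csf a b b₁ f f₁ z ^ 2 * sin z ^ 2)
      (𝓝[≠] 0) (𝓝 1) := by
  obtain ⟨s, hs, hse⟩ := dslope_amp (g := fun x => Real.sin (f x)) (μ := a / c)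
    (by simp [hf.zero]) (sin_amp_deriv ha hf)
  obtain ⟨t, ht, hte⟩ := dslope_amp (g := fun x => Real.sin (f₁ x)) (μ := a / c)
    (by simp [hf₁.zero]) (sin_amp_deriv ha hf₁)
  have hμ : 0 < a / c := div_pos ha hc
  have hre : Tendsto (fun z : ℂ => z.re) (𝓝[≠] 0) (𝓝 0) := by
    have := continuous_re.tendsto (0 : ℂ)
    rw [zero_re] at this
    exact this.mono_left nhdsWithin_le_nhds
  have him : Tendsto (fun z : ℂ => z.im) (𝓝[≠] 0) (𝓝 0) := by
    have := continuous_im.tendsto (0 : ℂ)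
    rw [zero_im] at this
    exact this.mono_left nhdsWithin_le_nhds
  have hE0 : ∀ d : ℝ, hE a d 0 = a := by
    intro d
    rw [hE, Real.cos_zero, Real.sin_zero]
    rw [show a ^ 2 * 1 ^ 2 + d ^ 2 * 0 ^ 2 = a ^ 2 by ring]
    exact Real.sqrt_sq ha.le
  have hcE : ∀ d : ℝ, Continuous (hE a d) := by
    intro d
    unfold hE
    fun_prop
  have hfc : Tendsto f (𝓝 0) (𝓝 0) := by
    have := (hf.deriv 0).continuousAt.tendsto
    rwa [hf.zero] at this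
  have hf₁c : Tendsto f₁ (𝓝 0) (𝓝 0) := by
    have := (hf₁.deriv 0).continuousAt.tendsto
    rwa [hf₁.zero] at this
  have hC : Tendsto (fun z : ℂ => Real.cos (f z.re)) (𝓝[≠] 0) (𝓝 1) := by
    have h1 := (Real.continuous_cos.tendsto 0).comp (hfc.comp hre)
    rwa [Real.cos_zero] at h1
  have hC₁ : Tendsto (fun z : ℂ => Real.cos (f₁ z.im)) (𝓝[≠] 0) (𝓝 1) := by
    have h1 := (Real.continuous_cos.tendsto 0).comp (hf₁c.comp him)
    rwa [Real.cos_zero] at h1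
  have hD : Tendsto (fun z : ℂ => hE a b (f z.re) / a) (𝓝[≠] 0) (𝓝 1) := by
    have h1 := (((hcE b).tendsto 0).comp (hfc.comp hre)).div_const a
    rwa [hE0, div_self ha.ne'] at h1
  have hD₁ : Tendsto (fun z : ℂ => hE a b₁ (f₁ z.im) / a) (𝓝[≠] 0) (𝓝 1) := by
    have h1 := (((hcE b₁).tendsto 0).comp (hf₁c.comp him)).div_const a
    rwa [hE0, div_self ha.ne'] at h1
  have hA : Tendsto (fun z : ℂ => s z.re * Real.cos (f z.re) * Real.cos (f₁ z.im) *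
      (hE a b₁ (f₁ z.im) / a)) (𝓝[≠] 0) (𝓝 (a / c)) := by
    have h1 := (((hs.comp hre).mul hC).mul hC₁).mul hD₁
    simpa using h1
  have hB : Tendsto (fun z : ℂ => hE a b (f z.re) / a * t z.im) (𝓝[≠] 0) (𝓝 (a / c)) := by
    have h1 := hD.mul (ht.comp him)
    simpa using h1
  have hP : Tendsto (fun z : ℂ => s z.re ^ 2 * Real.cos (f₁ z.im) ^ 2) (𝓝[≠] 0)
      (𝓝 ((a / c) ^ 2)) := by
    have h1 := ((hs.comp hre).pow 2).mul (hC₁.pow 2)
    simpa using h1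
  have hR : Tendsto (fun z : ℂ => t z.im ^ 2) (𝓝[≠] 0) (𝓝 ((a / c) ^ 2)) := by
    have h1 := ((ht.comp him).pow 2)
    simpa using h1
  have hN := num_lim hA hB
  have hΔ := den_lim hP hR
  have hΔ' := (continuous_ofReal.tendsto ((a / c) ^ 2)).comp hΔ
  have hsin : Tendsto (fun z : ℂ => sin z / z) (𝓝[≠] 0) (𝓝 1) := by
    have h1 := (hasDerivAt_sin (0 : ℂ)).tendsto_slope
    rw [cos_zero] at h1
    refine h1.congr' ?_
    filter_upwards [self_mem_nhdsWithin] with z hz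
    rw [slope_def_field, sin_zero, sub_zero, sub_zero]
  have hμ2 : (((a / c) ^ 2 : ℝ) : ℂ) ≠ 0 := by
    rw [Ne, ofReal_eq_zero]; positivity
  have hfin := (((hN.div hΔ' hμ2).pow 2).const_mul (((a / c : ℝ) : ℂ) ^ 2)).mul (hsin.pow 2)
  have e0 : ((a / c : ℝ) : ℂ) ^ 2 * (((a / c : ℝ) : ℂ) / (((a / c) ^ 2 : ℝ) : ℂ)) ^ 2 * 1 ^ 2 = 1 := by
    have h1 : ((a / c : ℝ) : ℂ) ≠ 0 := by
      rw [Ne, ofReal_eq_zero]; exact hμ.ne'
    rw [ofReal_pow]
    field_simp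
  rw [e0] at hfin
  refine hfin.congr' ?_
  filter_upwards [self_mem_nhdsWithin] with z hz
  have hz0 : z ≠ 0 := hz
  have hn : ((normSq z : ℝ) : ℂ) ≠ 0 := by
    rw [Ne, ofReal_eq_zero]; exact (normSq_pos.mpr hz0).ne'
  have e1 : 1 - Real.cos (f z.re) ^ 2 * Real.cos (f₁ z.im) ^ 2 =
      s z.re ^ 2 * Real.cos (f₁ z.im) ^ 2 * z.re ^ 2 + t z.im ^ 2 * z.im ^ 2 := by
    have h1 := Real.sin_sq_add_cos_sq (f z.re)
    have h2 := Real.sin_sq_add_cos_sq (f₁ z.im)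
    have h3 : Real.sin (f z.re) = s z.re * z.re := hse z.re
    have h4 : Real.sin (f₁ z.im) = t z.im * z.im := hte z.im
    have h5 : s z.re ^ 2 * Real.cos (f₁ z.im) ^ 2 * z.re ^ 2 =
        Real.sin (f z.re) ^ 2 * Real.cos (f₁ z.im) ^ 2 := by
      rw [h3]; ring
    have h6 : t z.im ^ 2 * z.im ^ 2 = Real.sin (f₁ z.im) ^ 2 := by
      rw [h4]; ring
    rw [h5, h6]
    linear_combination -h2 - Real.cos (f₁ z.im) ^ 2 * h1
  have e2 : Csf a b b₁ f f₁ z = (z * (((s z.re * Real.cos (f z.re) * Real.cos (f₁ z.im) *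
      (hE a b₁ (f₁ z.im) / a) * z.re : ℝ) : ℂ) -
      ((hE a b (f z.re) / a * t z.im * z.im : ℝ) : ℂ) * I) / ((normSq z : ℝ) : ℂ)) /
      (((s z.re ^ 2 * Real.cos (f₁ z.im) ^ 2 * z.re ^ 2 + t z.im ^ 2 * z.im ^ 2) /
        normSq z : ℝ) : ℂ) / z := by
    rw [Csf, e1]
    have h3 : Real.sin (f z.re) = s z.re * z.re := hse z.re
    have h4 : Real.sin (f₁ z.im) = t z.im * z.im := hte z.im
    rw [h3, h4]
    rw [ofReal_div _ (normSq z), div_div_div_cancel_right₀ hn, div_right_comm,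
      mul_div_cancel_left₀ _ hz0]
    congr 1
    push_cast
    ring
  simp only [Function.comp, Pi.div_apply]
  rw [e2]
  generalize (z * (((s z.re * Real.cos (f z.re) * Real.cos (f₁ z.im) *
      (hE a b₁ (f₁ z.im) / a) * z.re : ℝ) : ℂ) -
      ((hE a b (f z.re) / a * t z.im * z.im : ℝ) : ℂ) * I) / ((normSq z : ℝ) : ℂ)) /
      (((s z.re ^ 2 * Real.cos (f₁ z.im) ^ 2 * z.re ^ 2 + t z.im ^ 2 * z.im ^ 2) /
        normSq z : ℝ) : ℂ) = W
  rw [div_pow, div_pow]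
  ring

private theorem Csf_add_int (a b b₁ c : ℝ) (f f₁ : ℝ → ℝ) (hf : IsAmp a b c f)
    (hT : c * ∫ t in (0 : ℝ)..Real.pi, 1 / hE a b t = Real.pi) (z : ℂ) :
    Qf a b b₁ c f f₁ (z + Real.pi) = Qf a b b₁ c f f₁ z := by
  rw [Qf, Qf, sin_add_pi, Csf_add_pi hf hT, neg_sq]
  simp only [neg_eq_zero]

theorem exists_Q {a b : ℝ} (hb : 0 < b) (hab : b < a) : ∃ (Y : ℝ) (Q : ℂ → ℂ) (f f₁ : ℝ → ℝ),
    0 < Y ∧ IsAmp a b (cE a b 0) f ∧ IsAmp a (√(a ^ 2 - b ^ 2)) (cE a b 0) f₁ ∧ f₁ Y = Real.pi / 2 ∧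
    DifferentiableOn ℂ Q {z | |z.im| < 2 * Y} ∧
    (∀ z : ℂ, |z.im| < 2 * Y → Q (-z) = Q z) ∧
    (∀ z : ℂ, |z.im| < 2 * Y → Q (z + Real.pi) = Q z) ∧
    (∀ z : ℂ, |z.im| < 2 * Y → Q (starRingEnd ℂ z) = starRingEnd ℂ (Q z)) ∧
    Q 0 = 1 ∧
    (∀ x : ℝ, Q (x + Y * I) = -((hE a b (f x) / cE a b 0 : ℝ) : ℂ) ^ 2 * sin (x + Y * I) ^ 2) ∧
    (∀ τ : ℝ, 0 < τ → τ < 2 * Y →
      Q (τ * I) = ((a / cE a b 0 * Real.sinh τ / Real.sin (f₁ τ) : ℝ) : ℂ) ^ 2) := by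
  have ha : 0 < a := hb.trans hab
  set c : ℝ := cE a b 0 with hcdef
  have hc : 0 < c := cE_pos hb hab.le le_rfl (by positivity)
  set b₁ : ℝ := √(a ^ 2 - b ^ 2) with hb₁def
  have hdiff : 0 < a ^ 2 - b ^ 2 := by nlinarith
  have hb₁ : 0 < b₁ := Real.sqrt_pos.mpr hdiff
  have hb₁sq : b₁ ^ 2 = a ^ 2 - b ^ 2 := Real.sq_sqrt hdiff.le
  have hb₁a : b₁ ≤ a := by
    apply le_of_sq_le_sq _ ha.le
    rw [hb₁sq]
    nlinarith [sq_nonneg b]
  have hbb : b ^ 2 + b₁ ^ 2 = a ^ 2 := by rw [hb₁sq]; ring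
  obtain ⟨f, hf⟩ := exists_amp hb hab.le hc
  obtain ⟨f₁, hf₁⟩ := exists_amp hb₁ hb₁a hc
  have hT : c * ∫ t in (0 : ℝ)..Real.pi, 1 / hE a b t = Real.pi := cE_zero_integral hb hab.le
  have hIpos : 0 < ∫ t in (0 : ℝ)..Real.pi, 1 / hE a b₁ t := by
    apply intervalIntegral.intervalIntegral_pos_of_pos_on
    · apply Continuous.intervalIntegrable
      refine Continuous.div continuous_const ?_ fun t => (hE_pos hb₁ hb₁a t).ne'
      unfold hE
      fun_prop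
    · intro t _
      exact one_div_pos.mpr (hE_pos hb₁ hb₁a t)
    · exact Real.pi_pos
  set Y : ℝ := (c * ∫ t in (0 : ℝ)..Real.pi, 1 / hE a b₁ t) / 2 with hYdef
  have hY : 0 < Y := by positivity
  have hY2 : c * ∫ t in (0 : ℝ)..Real.pi, 1 / hE a b₁ t = 2 * Y := by
    rw [hYdef]; ring
  have hfY : f₁ Y = Real.pi / 2 := hf₁.half
  have hsin0 : ∀ z : ℂ, sin z = 0 ↔ ∃ k : ℤ, z = k * Real.pi := fun z => sin_eq_zero_iff
  have hsinim : ∀ z : ℂ, z.im ≠ 0 → sin z ≠ 0 := by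
    intro z hz h
    obtain ⟨k, hk⟩ := (hsin0 z).mp h
    apply hz
    rw [hk]
    have : ((k : ℂ) * (Real.pi : ℂ)) = ((k * Real.pi : ℝ) : ℂ) := by push_cast; rfl
    rw [this, ofReal_im]
  have hper : ∀ z : ℂ, Qf a b b₁ c f f₁ (z + Real.pi) = Qf a b b₁ c f f₁ z :=
    fun z => Csf_add_int a b b₁ c f f₁ hf hT z
  have hperk : ∀ (k : ℤ) (z : ℂ), Qf a b b₁ c f f₁ (z + k * Real.pi) = Qf a b b₁ c f f₁ z := by
    intro k
    induction k using Int.induction_on with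
    | zero => intro z; simp
    | succ n ih =>
      intro z
      have := hper (z + n * Real.pi)
      rw [show z + ((n : ℂ)) * Real.pi = z + ((n : ℤ) : ℂ) * Real.pi by push_cast; rfl, ih z] at this
      rw [← this]
      congr 1
      push_cast
      ring
    | pred n ih =>
      intro z
      have := hper (z + ((-(n : ℤ) - 1 : ℤ) : ℂ) * Real.pi)
      rw [← this, ← ih z]
      congr 1
      push_cast
      ring
  have hcont0 : ContinuousAt (Qf a b b₁ c f f₁) 0 := by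
    rw [← continuousWithinAt_compl_self, ContinuousWithinAt]
    have hQ0 : Qf a b b₁ c f f₁ 0 = 1 := by rw [Qf, if_pos sin_zero]
    rw [hQ0]
    refine (Qf_lim ha hc hf hf₁).congr' ?_
    have hev : ∀ᶠ z : ℂ in 𝓝[≠] 0, sin z ≠ 0 := by
      have h1 := (hasDerivAt_sin (0 : ℂ)).eventually_ne (c := (0 : ℂ)) (by rw [cos_zero]; exact one_ne_zero)
      exact h1
    filter_upwards [hev] with z hz
    rw [Qf, if_neg hz]
  have hdne : ∀ z : ℂ, |z.im| < 2 * Y → sin z ≠ 0 → DifferentiableAt ℂ (Qf a b b₁ c f f₁) z := by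
    intro z hz hs
    have hden := Csf_den_ne_zero ha hb hb₁ hc hf hf₁ hT hY2 hz (fun k hk => hs ((hsin0 z).mpr ⟨k, hk⟩))
    have h1 := Csf_differentiableAt ha hb hb₁ hbb hc hf hf₁ hden.ne'
    have h2 : DifferentiableAt ℂ
        (fun z : ℂ => ((a / c : ℝ) : ℂ) ^ 2 * Csf a b b₁ f f₁ z ^ 2 * sin z ^ 2) z :=
      ((h1.pow 2).const_mul _).mul (differentiable_sin z |>.pow 2)
    refine h2.congr_of_eventuallyEq ?_
    have h3 : ∀ᶠ w in 𝓝 z, sin w ≠ 0 := continuous_sin.continuousAt.eventually_ne hs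
    filter_upwards [h3] with w hw
    rw [Qf, if_neg hw]
  have hd0 : DifferentiableAt ℂ (Qf a b b₁ c f f₁) 0 := by
    have hs : {z : ℂ | ‖z‖ < min (2 * Y) 1} ∈ 𝓝 (0 : ℂ) := by
      have : Metric.ball (0 : ℂ) (min (2 * Y) 1) ∈ 𝓝 (0 : ℂ) :=
        Metric.ball_mem_nhds _ (lt_min (by positivity) one_pos)
      refine Filter.mem_of_superset this fun z hz => ?_
      simpa using hz
    have h1 := (differentiableOn_compl_singleton_and_continuousAt_iff (f := Qf a b b₁ c f f₁) hs).mp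
      ⟨?_, hcont0⟩
    · exact h1.differentiableAt hs
    · intro z hz
      have hz1 : ‖z‖ < min (2 * Y) 1 := hz.1
      have hz2 : z ≠ 0 := hz.2
      refine (hdne z ?_ ?_).differentiableWithinAt
      · exact (abs_im_le_norm z).trans_lt (hz1.trans_le (min_le_left _ _))
      · intro h
        obtain ⟨k, hk⟩ := (hsin0 z).mp h
        have hk0 : k ≠ 0 := by
          rintro rfl
          apply hz2
          rw [hk]; simp
        have h3 : ‖z‖ = |(k : ℝ)| * Real.pi := by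
          rw [hk, norm_mul, norm_intCast, norm_real, Real.norm_eq_abs, abs_of_pos Real.pi_pos]
        have h4 : (1 : ℝ) ≤ |(k : ℝ)| := by
          have := Int.one_le_abs hk0
          exact_mod_cast this
        have h5 := Real.pi_gt_three
        have h6 := hz1.trans_le (min_le_right _ _)
        rw [h3] at h6
        nlinarith
  refine ⟨Y, Qf a b b₁ c f f₁, f, f₁, hY, hf, hf₁, hfY, ?_, ?_, ?_, ?_, ?_, ?_, ?_⟩
  · intro z hz
    by_cases hs : sin z = 0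
    · obtain ⟨k, hk⟩ := (hsin0 z).mp hs
      have h1 : Qf a b b₁ c f f₁ = fun w => Qf a b b₁ c f f₁ (w - k * Real.pi) := by
        funext w
        rw [← hperk k (w - k * Real.pi), sub_add_cancel]
      have h2 : DifferentiableAt ℂ (Qf a b b₁ c f f₁) z := by
        rw [h1]
        have h3 : DifferentiableAt ℂ (Qf a b b₁ c f f₁) (z - k * Real.pi) := by
          rw [hk, sub_self]; exact hd0
        exact h3.comp z (differentiableAt_id.sub_const _)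
      exact h2.differentiableWithinAt
    · exact (hdne z hz hs).differentiableWithinAt
  · intro z _
    rw [Qf, Qf, sin_neg, Csf_neg hf hf₁, neg_sq, neg_sq]
    simp only [neg_eq_zero]
  · intro z _
    exact hper z
  · intro z _
    rw [Qf, Qf, sin_conj, Csf_conj hf₁]
    by_cases hs : sin z = 0
    · rw [if_pos hs, if_pos (by rw [hs, map_zero]), map_one]
    · rw [if_neg hs, if_neg (by rwa [map_eq_zero])]
      rw [map_mul, map_mul, map_pow, map_pow, map_pow, conj_ofReal]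
  · rw [Qf, if_pos sin_zero]
  · intro x
    have him : ((x : ℂ) + Y * I).im = Y := by simp
    have hre : ((x : ℂ) + Y * I).re = x := by simp
    rw [Qf, if_neg (hsinim _ (by rw [him]; exact hY.ne'))]
    have h1 : Csf a b b₁ f f₁ ((x : ℂ) + Y * I) = -((hE a b (f x) / a : ℝ) : ℂ) * I := by
      rw [Csf, him, hre, hfY, Real.cos_pi_div_two, Real.sin_pi_div_two]
      simp
    rw [h1]
    have hac : (a : ℂ) ≠ 0 := by rw [Ne, ofReal_eq_zero]; exact ha.ne'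
    have hcc : (c : ℂ) ≠ 0 := by rw [Ne, ofReal_eq_zero]; exact hc.ne'
    have hI : (I : ℂ) ^ 2 = -1 := I_sq
    rw [mul_pow _ I, hI]
    push_cast
    field_simp
  · intro τ hτ _
    have him : ((τ : ℂ) * I).im = τ := by simp
    have hre : ((τ : ℂ) * I).re = 0 := by simp
    rw [Qf, if_neg (hsinim _ (by rw [him]; exact hτ.ne'))]
    have hE0 : hE a b 0 = a := by
      rw [hE, Real.cos_zero, Real.sin_zero]
      rw [show a ^ 2 * 1 ^ 2 + b ^ 2 * 0 ^ 2 = a ^ 2 by ring]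
      exact Real.sqrt_sq ha.le
    have h1 : Csf a b b₁ f f₁ ((τ : ℂ) * I) = -I / ((Real.sin (f₁ τ) : ℝ) : ℂ) := by
      rw [Csf, him, hre, hf.zero, Real.cos_zero, Real.sin_zero, hE0, div_self ha.ne']
      have h2 : 1 - (1 : ℝ) ^ 2 * Real.cos (f₁ τ) ^ 2 = Real.sin (f₁ τ) ^ 2 := by
        have := Real.sin_sq_add_cos_sq (f₁ τ)
        linarith
      rw [h2]
      simp only [zero_mul, ofReal_zero, one_mul, zero_sub, ofReal_pow]
      rcases eq_or_ne (Real.sin (f₁ τ)) 0 with h | h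
      · rw [h]; simp
      · have h' : ((Real.sin (f₁ τ) : ℝ) : ℂ) ≠ 0 := by rwa [Ne, ofReal_eq_zero]
        field_simp
    have h3 : sin ((τ : ℂ) * I) = ((Real.sinh τ : ℝ) : ℂ) * I := by
      rw [sin_mul_I, ofReal_sinh]
    rw [h1, h3]
    have hI : (I : ℂ) ^ 2 = -1 := I_sq
    rw [div_pow, neg_sq, mul_pow _ I, hI]
    push_cast
    ring

end LSB
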