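import Pool.Agent.LSB.EEll

/-!
# Part E, module ERot: `Gh β x₀ = π·(rotation number)`

Paper proof.  Let `b₁=√(a²-b²)`, `c₀=cE a b 0`, `β=tan²x₀`, `ν=(l c₀/(ab))²=nu β`, real.  `Gh β x₀=γ∫_0^{x₀}F(β,x)dx` (`Gh β 0=0`, real, `F>0` real as it is real and
within `1/8` of `1`).  For `x∈(0,x₀)` let `y=1-(1+β)cos²x∈(-β,0)`, `y=-sinh²τ`, `cosh²τ=(1+β)cos²x`, `τ∈(0,τ_b)`, `sinh²τ_b=β`.  By `T_vert`,
`y+νT(y)=sinh²τ(ν a²/(c₀² S₁²)-1)=sinh²τ(l²/(b²S₁²)-1)`, `S₁=sin f₁(τ)`; at `y=-β`: `-β+νT(-β)=0` (`nu_eq`), so `b sin f₁(τ_b)=l`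
(`S₁` is increasing on `(0,Y)`; `τ_b<Y` for small `x₀`).
Parametrise by `t∈[0,π/2]`: `sin f₁(τ(t))=(l/b)sin t` (`τ(t)=f₁⁻¹(arcsin(l sin t/b))`), `x(t)=arccos(cosh τ(t)/√(1+β))`, `x(0)=x₀`, `x(π/2)=0`.
`dτ/dt=l cos t·c₀/(b cos f₁·hE a b₁(f₁))`, `b cos f₁=√(b²-l²sin²t)`, `hE a b₁(f₁)=√(a²-b²sin²f₁)=√(a²-l²sin²t)`.
`dx/dτ=-sinh τ/√(β-sinh²τ)`; `F²=(y+β)/(y+νT(y))=(β-sinh²τ)b²S₁²/(sinh²τ(l²-b²S₁²))`, so `F=b S₁√(β-sinh²τ)/(sinh τ·l cos t)`, and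
`F·dx/dt=-b S₁/(l cos t)·dτ/dt=-l sin t·c₀/√((b²-l²sin²t)(a²-l²sin²t))`.
The function `t↦∫_0^{x(t)}F(β,·)` is continuous on `[0,π/2]`, differentiable inside, so
`∫_0^{x₀}F=c₀∫_0^{π/2}l sin t/√((a²-l²sin²t)(b²-l²sin²t))dt`.  Multiply by `γ=cE a b l/c₀` (hypothesis `hga`, from `EllData.curve`).
-/

namespace LSB

open Complex

theorem rot_sqrt_facts {a b : ℝ} (hb : 0 < b) (hab : b < a) :
    0 < √(a ^ 2 - b ^ 2) ∧ √(a ^ 2 - b ^ 2) ≤ a ∧ √(a ^ 2 - b ^ 2) ^ 2 = a ^ 2 - b ^ 2 := by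
  have h1 : 0 < a ^ 2 - b ^ 2 := by nlinarith
  refine ⟨Real.sqrt_pos.2 h1, ?_, Real.sq_sqrt h1.le⟩
  rw [Real.sqrt_le_left (by linarith)]
  nlinarith

/-- Inverse of the second amplitude. -/
noncomputable def rotG (a b : ℝ) (s : ℝ) : ℝ :=
  cE a b 0 * ∫ t in (0 : ℝ)..s, 1 / hE a (√(a ^ 2 - b ^ 2)) t

theorem rotG_hasDerivAt {a b : ℝ} (hb : 0 < b) (hab : b < a) (s : ℝ) :
    HasDerivAt (rotG a b) (cE a b 0 / hE a (√(a ^ 2 - b ^ 2)) s) s := by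
  obtain ⟨h1, h2, h3⟩ := rot_sqrt_facts hb hab
  have hc : Continuous fun t => 1 / hE a (√(a ^ 2 - b ^ 2)) t := by
    have h4 : Continuous fun t => hE a (√(a ^ 2 - b ^ 2)) t := by
      unfold hE
      fun_prop
    exact continuous_const.div h4 fun t => (hE_pos h1 h2 t).ne'
  have h5 := (intervalIntegral.integral_hasDerivAt_right (hc.intervalIntegrable 0 s)
    hc.stronglyMeasurable.stronglyMeasurableAtFilter hc.continuousAt).const_mul (cE a b 0)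
  have h6 : cE a b 0 * (1 / hE a (√(a ^ 2 - b ^ 2)) s) = cE a b 0 / hE a (√(a ^ 2 - b ^ 2)) s := by
    ring
  rw [h6] at h5
  exact h5

theorem rotG_zero (a b : ℝ) : rotG a b 0 = 0 := by
  simp [rotG]

theorem EllData.f₁_rotG {a b : ℝ} (E : EllData a b) (s : ℝ) : E.f₁ (rotG a b s) = s := by
  obtain ⟨y, rfl⟩ := E.amp₁.surj s
  rw [rotG, E.amp₁.integral]

theorem EllData.rotG_f₁ {a b : ℝ} (E : EllData a b) (y : ℝ) : rotG a b (E.f₁ y) = y := by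
  rw [rotG, E.amp₁.integral]

/-- The value of the second half of the substitution. -/
noncomputable def rotT (a b l t : ℝ) : ℝ := rotG a b (Real.arcsin (l * Real.sin t / b))

noncomputable def rotX (a b l x₀ t : ℝ) : ℝ :=
  Real.arccos (Real.cos x₀ * Real.cosh (rotT a b l t))

theorem rot_arg {b l : ℝ} (hb : 0 < b) (hl : 0 < l) (hl2 : l ≤ b / 2) {t : ℝ} :
    -1 < l * Real.sin t / b ∧ l * Real.sin t / b < 1 := by
  have h1 := Real.sin_le_one t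
  have h2 := Real.neg_one_le_sin t
  constructor
  · rw [lt_div_iff₀ hb]
    nlinarith
  · rw [div_lt_iff₀ hb]
    nlinarith

theorem rotT_hasDerivAt {a b l : ℝ} (hb : 0 < b) (hab : b < a) (hl : 0 < l) (hl2 : l ≤ b / 2)
    (t : ℝ) : HasDerivAt (rotT a b l)
      (cE a b 0 * (l * Real.cos t) / (√(a ^ 2 - l ^ 2 * Real.sin t ^ 2) *
        √(b ^ 2 - l ^ 2 * Real.sin t ^ 2))) t := by
  obtain ⟨h1, h2, h3⟩ := rot_sqrt_facts hb hab
  obtain ⟨h4, h5⟩ := rot_arg (t := t) hb hl hl2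
  have hs : HasDerivAt (fun t => l * Real.sin t / b) (l * Real.cos t / b) t :=
    ((Real.hasDerivAt_sin t).const_mul l).div_const b
  have h6 : HasDerivAt (fun t => Real.arcsin (l * Real.sin t / b))
      (1 / √(1 - (l * Real.sin t / b) ^ 2) * (l * Real.cos t / b)) t :=
    HasDerivAt.comp t (Real.hasDerivAt_arcsin h4.ne' h5.ne) hs
  have h7 : HasDerivAt (rotT a b l) _ t :=
    HasDerivAt.comp t (rotG_hasDerivAt hb hab (Real.arcsin (l * Real.sin t / b))) h6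
  have h8 : √(1 - (l * Real.sin t / b) ^ 2) * b = √(b ^ 2 - l ^ 2 * Real.sin t ^ 2) := by
    rw [← Real.sqrt_sq hb.le, ← Real.sqrt_mul' _ (sq_nonneg b), Real.sqrt_sq hb.le]
    congr 1
    field_simp
  have h9 : hE a (√(a ^ 2 - b ^ 2)) (Real.arcsin (l * Real.sin t / b)) =
      √(a ^ 2 - l ^ 2 * Real.sin t ^ 2) := by
    rw [hE, Real.cos_sq', Real.sin_arcsin h4.le h5.le, h3]
    congr 1
    field_simp
    ring
  have h10 : 0 < √(1 - (l * Real.sin t / b) ^ 2) := by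
    apply Real.sqrt_pos.2
    nlinarith
  have h11 : 0 < √(a ^ 2 - l ^ 2 * Real.sin t ^ 2) := by
    rw [← h9]
    exact hE_pos h1 h2 _
  convert h7 using 1
  rw [h9, ← h8]
  field_simp

theorem rotT_zero (a b l : ℝ) : rotT a b l 0 = 0 := by
  simp [rotT, rotG_zero]

theorem continuous_rotX {a b l : ℝ} (hb : 0 < b) (hab : b < a) (hl : 0 < l) (hl2 : l ≤ b / 2)
    (x₀ : ℝ) : Continuous (rotX a b l x₀) := by
  have h1 : Continuous (rotT a b l) :=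
    continuous_iff_continuousAt.2 fun t => (rotT_hasDerivAt hb hab hl hl2 t).continuousAt
  exact Real.continuous_arccos.comp (continuous_const.mul (Real.continuous_cosh.comp h1))

theorem EllData.rotT_end {a b : ℝ} (hb : 0 < b) (hab : b < a) (E : EllData a b) {l x₀ : ℝ}
    (hl : 0 < l) (hx : 0 < x₀) (hx2 : x₀ < Real.pi / 2)
    (hY : Real.tan x₀ < Real.sinh E.Y) (hβ : ‖tan (x₀ : ℂ) ^ 2‖ < E.vd.β₀)
    (hnu : E.vd.nu (tan (x₀ : ℂ) ^ 2) = ((l * cE a b 0 / (a * b) : ℝ) : ℂ) ^ 2) :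
    Real.sinh (rotT a b l (Real.pi / 2)) = Real.tan x₀ := by
  have htan : 0 < Real.tan x₀ := Real.tan_pos_of_pos_of_lt_pi_div_two hx hx2
  have hc0 : 0 < cE a b 0 := cE_pos hb hab.le le_rfl (by positivity)
  have ha : 0 < a := hb.trans hab
  set τ := Real.arsinh (Real.tan x₀) with hτ
  have hsh : Real.sinh τ = Real.tan x₀ := Real.sinh_arsinh _
  have hτ0 : 0 < τ := by
    rw [← Real.sinh_pos_iff, hsh]
    exact htan
  have hτY : τ < E.Y := by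
    rw [← Real.sinh_lt_sinh, hsh]
    exact hY
  have hf0 : 0 < E.f₁ τ := by
    rw [← E.amp₁.zero]
    exact E.amp₁.mono hτ0
  have hf1 : E.f₁ τ < Real.pi / 2 := by
    rw [← E.half]
    exact E.amp₁.mono hτY
  have hsin : 0 < Real.sin (E.f₁ τ) := Real.sin_pos_of_pos_of_lt_pi hf0 (by linarith [Real.pi_pos])
  have h1 := (E.vd.nu_eq _ hβ).1
  have h2 : -(tan (x₀ : ℂ) ^ 2) = -(Real.sinh τ : ℂ) ^ 2 := by
    rw [hsh]
    push_cast
    rfl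
  rw [h2, E.T_vert τ hτ0 (by linarith [E.Y_pos]), hnu] at h1
  have h3 : tan (x₀ : ℂ) ^ 2 = ((Real.sinh τ ^ 2 : ℝ) : ℂ) := by
    rw [hsh]
    push_cast
    rfl
  rw [h3] at h1
  have h4 : (l * cE a b 0 / (a * b)) ^ 2 * (a / cE a b 0 * Real.sinh τ / Real.sin (E.f₁ τ)) ^ 2 =
      Real.sinh τ ^ 2 := by
    exact_mod_cast h1
  have hsh0 : 0 < Real.sinh τ := by rw [hsh]; exact htan
  have h5 : (l / b) ^ 2 = Real.sin (E.f₁ τ) ^ 2 := by
    field_simp at h4 ⊢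
    nlinarith [h4, mul_pos hsh0 hsh0]
  have h6 : l / b = Real.sin (E.f₁ τ) := by
    have := (sq_eq_sq₀ (by positivity) hsin.le).1 h5
    exact this
  have h7 : Real.arcsin (l * Real.sin (Real.pi / 2) / b) = E.f₁ τ := by
    rw [Real.sin_pi_div_two, mul_one, h6, Real.arcsin_sin (by linarith) (by linarith)]
  rw [rotT, h7, E.rotG_f₁, hsh]

theorem rotX_zero {a b l x₀ : ℝ} (hx : 0 < x₀) (hx2 : x₀ < Real.pi / 2) :
    rotX a b l x₀ 0 = x₀ := by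
  rw [rotX, rotT_zero, Real.cosh_zero, mul_one, Real.arccos_cos hx.le (by linarith [Real.pi_pos])]

theorem EllData.rotX_end {a b : ℝ} (hb : 0 < b) (hab : b < a) (E : EllData a b) {l x₀ : ℝ}
    (hl : 0 < l) (hx : 0 < x₀) (hx2 : x₀ < Real.pi / 2)
    (hY : Real.tan x₀ < Real.sinh E.Y) (hβ : ‖tan (x₀ : ℂ) ^ 2‖ < E.vd.β₀)
    (hnu : E.vd.nu (tan (x₀ : ℂ) ^ 2) = ((l * cE a b 0 / (a * b) : ℝ) : ℂ) ^ 2) :
    rotX a b l x₀ (Real.pi / 2) = 0 := by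
  have h1 := E.rotT_end hb hab hl hx hx2 hY hβ hnu
  have hcos : 0 < Real.cos x₀ := Real.cos_pos_of_mem_Ioo ⟨by linarith, hx2⟩
  have h2 : (Real.cos x₀ * Real.cosh (rotT a b l (Real.pi / 2))) ^ 2 = 1 := by
    have h3 : Real.cosh (rotT a b l (Real.pi / 2)) ^ 2 = 1 + Real.tan x₀ ^ 2 := by
      rw [Real.cosh_sq, h1]
      ring
    rw [mul_pow, h3, Real.tan_eq_sin_div_cos]
    have h4 := Real.sin_sq_add_cos_sq x₀
    field_simp
    linarith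
  have h5 : Real.cos x₀ * Real.cosh (rotT a b l (Real.pi / 2)) = 1 := by
    have h6 : 0 < Real.cos x₀ * Real.cosh (rotT a b l (Real.pi / 2)) :=
      mul_pos hcos (Real.cosh_pos _)
    nlinarith
  rw [rotX, h5, Real.arccos_one]

theorem EllData.rotT_pos_lt {a b : ℝ} (hb : 0 < b) (E : EllData a b) {l : ℝ}
    (hl : 0 < l) (hl2 : l ≤ b / 2) {t : ℝ} (ht : 0 < t) (ht2 : t < Real.pi / 2) :
    0 < rotT a b l t ∧ rotT a b l t < rotT a b l (Real.pi / 2) := by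
  obtain ⟨h4, h5⟩ := rot_arg (t := t) hb hl hl2
  obtain ⟨h4', h5'⟩ := rot_arg (t := Real.pi / 2) hb hl hl2
  have hs : 0 < Real.sin t := Real.sin_pos_of_pos_of_lt_pi ht (by linarith [Real.pi_pos])
  have hs1 : Real.sin t < Real.sin (Real.pi / 2) :=
    Real.sin_lt_sin_of_lt_of_le_pi_div_two (by linarith [Real.pi_pos]) le_rfl ht2
  constructor
  · rw [← E.amp₁.mono.lt_iff_lt, E.amp₁.zero, rotT, E.f₁_rotG]
    exact Real.arcsin_pos.2 (by positivity)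
  · rw [← E.amp₁.mono.lt_iff_lt, rotT, rotT, E.f₁_rotG, E.f₁_rotG]
    apply Real.strictMonoOn_arcsin ⟨h4.le, h5.le⟩ ⟨h4'.le, h5'.le⟩
    gcongr

/-- The value of the density at the point of parameter `t`. -/
theorem EllData.F_rot {a b : ℝ} (hb : 0 < b) (hab : b < a) (E : EllData a b) {l x₀ : ℝ}
    (hl : 0 < l) (hl2 : l ≤ b / 2) (hx : 0 < x₀) (hx2 : x₀ < Real.pi / 2)
    (hY : Real.tan x₀ < Real.sinh E.Y) (hβ : ‖tan (x₀ : ℂ) ^ 2‖ < E.vd.β₀)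
    (hnu : E.vd.nu (tan (x₀ : ℂ) ^ 2) = ((l * cE a b 0 / (a * b) : ℝ) : ℂ) ^ 2)
    {t : ℝ} (ht : 0 < t) (ht2 : t < Real.pi / 2) :
    Real.cos x₀ * Real.cosh (rotT a b l t) < 1 ∧
    E.vd.F (tan (x₀ : ℂ) ^ 2) (rotX a b l x₀ t : ℝ) =
      ((Real.sin t * √(1 - (Real.cos x₀ * Real.cosh (rotT a b l t)) ^ 2) /
        (Real.cos x₀ * Real.sinh (rotT a b l t) * Real.cos t) : ℝ) : ℂ) := by
  have hcos : 0 < Real.cos x₀ := Real.cos_pos_of_mem_Ioo ⟨by linarith, hx2⟩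
  have hc0 : 0 < cE a b 0 := cE_pos hb hab.le le_rfl (by positivity)
  have ha : 0 < a := hb.trans hab
  have htan : 0 < Real.tan x₀ := Real.tan_pos_of_pos_of_lt_pi_div_two hx hx2
  obtain ⟨h4, h5⟩ := rot_arg (t := t) hb hl hl2
  obtain ⟨h1, h2⟩ := E.rotT_pos_lt hb hl hl2 ht ht2
  have hend := E.rotT_end hb hab hl hx hx2 hY hβ hnu
  have hs : 0 < Real.sin t := Real.sin_pos_of_pos_of_lt_pi ht (by linarith [Real.pi_pos])
  have hct : 0 < Real.cos t := Real.cos_pos_of_mem_Ioo ⟨by linarith, ht2⟩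
  set τ := rotT a b l t with hτ
  have hsh : 0 < Real.sinh τ := Real.sinh_pos_iff.2 h1
  have hsh2 : Real.sinh τ < Real.tan x₀ := by
    rw [← hend]
    exact Real.sinh_lt_sinh.2 h2
  have hτY : τ < E.Y := by
    rw [← Real.sinh_lt_sinh]
    linarith
  have hsq := Real.sin_sq_add_cos_sq x₀
  have htc : Real.tan x₀ * Real.cos x₀ = Real.sin x₀ := Real.tan_mul_cos hcos.ne'
  have hch : Real.cosh τ ^ 2 = 1 + Real.sinh τ ^ 2 := by
    rw [Real.cosh_sq]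
    ring
  have hu : (Real.cos x₀ * Real.cosh τ) ^ 2 = 1 - Real.cos x₀ ^ 2 * (Real.tan x₀ ^ 2 - Real.sinh τ ^ 2) := by
    have h6 : Real.cos x₀ ^ 2 * Real.tan x₀ ^ 2 = Real.sin x₀ ^ 2 := by
      rw [← mul_pow, mul_comm, htc]
    rw [mul_pow, hch]
    nlinarith
  have hpos : 0 < Real.cos x₀ ^ 2 * (Real.tan x₀ ^ 2 - Real.sinh τ ^ 2) := by
    apply mul_pos (by positivity)
    nlinarith
  have hu0 : 0 < Real.cos x₀ * Real.cosh τ := mul_pos hcos (Real.cosh_pos _)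
  have hu1 : Real.cos x₀ * Real.cosh τ < 1 := by
    nlinarith
  refine ⟨hu1, ?_⟩
  have hcx : Real.cos (rotX a b l x₀ t) = Real.cos x₀ * Real.cosh τ := by
    rw [rotX, Real.cos_arccos (by linarith) hu1.le]
  have hY0 := E.Y_pos
  have him : |((rotX a b l x₀ t : ℝ) : ℂ).im| < 9 / 5 * E.Y := by
    rw [Complex.ofReal_im, abs_zero]
    positivity
  have hF := E.vd.F_sq _ _ hβ him
  have hF2 := E.vd.F_near' _ _ hβ him
  set φ := E.vd.F (tan (x₀ : ℂ) ^ 2) (rotX a b l x₀ t : ℝ) with hφ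
  have hy : (1 : ℂ) - (1 + tan (x₀ : ℂ) ^ 2) * cos ((rotX a b l x₀ t : ℝ) : ℂ) ^ 2 =
      -(Real.sinh τ : ℂ) ^ 2 := by
    have h7 : (1 + Real.tan x₀ ^ 2) * Real.cos (rotX a b l x₀ t) ^ 2 = 1 + Real.sinh τ ^ 2 := by
      rw [hcx, mul_pow, hch]
      have h8 : (1 + Real.tan x₀ ^ 2) * Real.cos x₀ ^ 2 = 1 := by
        have h6 : Real.tan x₀ ^ 2 * Real.cos x₀ ^ 2 = Real.sin x₀ ^ 2 := by
          rw [← mul_pow, htc]
        rw [add_mul, h6]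
        linarith
      rw [← mul_assoc, h8, one_mul]
    have h9 : ((1 + tan (x₀ : ℂ) ^ 2) * cos ((rotX a b l x₀ t : ℝ) : ℂ) ^ 2) =
        (((1 + Real.tan x₀ ^ 2) * Real.cos (rotX a b l x₀ t) ^ 2 : ℝ) : ℂ) := by
      push_cast
      rfl
    rw [h9, h7]
    push_cast
    ring
  rw [hy, E.T_vert τ h1 (by linarith), hnu] at hF
  have hf₁ : Real.sin (E.f₁ τ) = l * Real.sin t / b := by
    rw [hτ, rotT, E.f₁_rotG, Real.sin_arcsin h4.le h5.le]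
  rw [hf₁] at hF
  have hF3 : φ ^ 2 * ((Real.sinh τ ^ 2 * Real.cos t ^ 2 / Real.sin t ^ 2 : ℝ) : ℂ) =
      ((Real.tan x₀ ^ 2 - Real.sinh τ ^ 2 : ℝ) : ℂ) := by
    have h10 : -(Real.sinh τ : ℂ) ^ 2 + ((l * cE a b 0 / (a * b) : ℝ) : ℂ) ^ 2 *
        ((a / cE a b 0 * Real.sinh τ / (l * Real.sin t / b) : ℝ) : ℂ) ^ 2 =
        ((Real.sinh τ ^ 2 * Real.cos t ^ 2 / Real.sin t ^ 2 : ℝ) : ℂ) := by
      have h11 : -Real.sinh τ ^ 2 + (l * cE a b 0 / (a * b)) ^ 2 *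
          (a / cE a b 0 * Real.sinh τ / (l * Real.sin t / b)) ^ 2 =
          Real.sinh τ ^ 2 * Real.cos t ^ 2 / Real.sin t ^ 2 := by
        rw [Real.cos_sq']
        field_simp
        ring
      rw [← h11]
      push_cast
      ring
    have h12 : -(Real.sinh τ : ℂ) ^ 2 + tan (x₀ : ℂ) ^ 2 =
        ((Real.tan x₀ ^ 2 - Real.sinh τ ^ 2 : ℝ) : ℂ) := by
      push_cast
      ring
    rw [h10, h12] at hF
    exact hF
  set R := Real.sin t * √(1 - (Real.cos x₀ * Real.cosh τ) ^ 2) /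
        (Real.cos x₀ * Real.sinh τ * Real.cos t) with hR
  have hR0 : 0 ≤ R := by positivity
  have hR2 : R ^ 2 * (Real.sinh τ ^ 2 * Real.cos t ^ 2 / Real.sin t ^ 2) =
      Real.tan x₀ ^ 2 - Real.sinh τ ^ 2 := by
    have h13 : √(1 - (Real.cos x₀ * Real.cosh τ) ^ 2) ^ 2 =
        Real.cos x₀ ^ 2 * (Real.tan x₀ ^ 2 - Real.sinh τ ^ 2) := by
      rw [Real.sq_sqrt (by rw [hu]; linarith), hu]
      ring
    rw [hR, div_pow, mul_pow (Real.sin t), h13]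
    field_simp
  have hne : ((Real.sinh τ ^ 2 * Real.cos t ^ 2 / Real.sin t ^ 2 : ℝ) : ℂ) ≠ 0 := by
    rw [Complex.ofReal_ne_zero]
    positivity
  have hφR : φ ^ 2 = (R : ℂ) ^ 2 := by
    apply mul_right_cancel₀ hne
    rw [hF3, ← hR2]
    push_cast
    ring
  rcases sq_eq_sq_iff_eq_or_eq_neg.1 hφR with h | h
  · exact h
  · exfalso
    rw [h] at hF2
    have h14 : ‖(-(R : ℂ) - 1)‖ = R + 1 := by
      have h15 : (-(R : ℂ) - 1) = ((-(R + 1) : ℝ) : ℂ) := by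
        push_cast
        ring
      rw [h15, Complex.norm_real, norm_neg, Real.norm_eq_abs, abs_of_nonneg (by linarith)]
    rw [h14] at hF2
    linarith

theorem EllData.rot {a b : ℝ} (hb : 0 < b) (hab : b < a) (E : EllData a b) :
    ∃ ε₁ > 0, ∀ l x₀ : ℝ, 0 < l → l ≤ b / 2 → 0 < x₀ → x₀ < ε₁ →
      E.vd.nu (tan (x₀ : ℂ) ^ 2) = ((l * cE a b 0 / (a * b) : ℝ) : ℂ) ^ 2 →
      E.vd.ga (tan (x₀ : ℂ) ^ 2) = ((cE a b l / cE a b 0 : ℝ) : ℂ) →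
      E.vd.Gh (tan (x₀ : ℂ) ^ 2) x₀ = ((Real.pi * omE a b l : ℝ) : ℂ) := by
  have hsY : 0 < Real.sinh E.Y := Real.sinh_pos_iff.2 E.Y_pos
  refine ⟨min E.vd.x₁ (Real.arctan (Real.sinh E.Y)),
    lt_min E.vd.x₁_pos (by simpa using hsY), ?_⟩
  intro l x₀ hl hl2 hx hxε hnu hga
  have hx1 : x₀ < E.vd.x₁ := lt_of_lt_of_le hxε (min_le_left _ _)
  have hxY : x₀ < Real.arctan (Real.sinh E.Y) := lt_of_lt_of_le hxε (min_le_right _ _)
  have hx2 : x₀ < Real.pi / 2 := hxY.trans (Real.arctan_lt_pi_div_two _)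
  have hY : Real.tan x₀ < Real.sinh E.Y := by
    rw [← Real.tan_arctan (Real.sinh E.Y)]
    exact Real.tan_lt_tan_of_lt_of_lt_pi_div_two (by linarith [Real.pi_pos])
      (Real.arctan_lt_pi_div_two _) hxY
  have hβ1 : ‖tan (x₀ : ℂ) ^ 2‖ < E.vd.β₁ := by
    refine (E.vd.V_W (x₀ : ℂ) ?_).1
    rw [Complex.norm_real, Real.norm_eq_abs, abs_of_pos hx]
    exact hx1
  have hβ : ‖tan (x₀ : ℂ) ^ 2‖ < E.vd.β₀ := lt_of_lt_of_le hβ1 E.vd.β₁_le
  have hc0 : 0 < cE a b 0 := cE_pos hb hab.le le_rfl (by positivity)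
  have ha : 0 < a := hb.trans hab
  have hcos : 0 < Real.cos x₀ := Real.cos_pos_of_mem_Ioo ⟨by linarith, hx2⟩
  have hY0 := E.Y_pos
  have him : ∀ y : ℝ, |((y : ℝ) : ℂ).im| < 9 / 5 * E.Y := by
    intro y
    rw [Complex.ofReal_im, abs_zero]
    positivity
  have hA : ∀ t : ℝ, 0 < a ^ 2 - l ^ 2 * Real.sin t ^ 2 := by
    intro t
    nlinarith [Real.sin_sq_le_one t, sq_nonneg (Real.sin t), mul_pos hl hl]
  have hB : ∀ t : ℝ, 0 < b ^ 2 - l ^ 2 * Real.sin t ^ 2 := by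
    intro t
    nlinarith [Real.sin_sq_le_one t, sq_nonneg (Real.sin t), mul_pos hl hl]
  set g : ℝ → ℝ := fun t => l * Real.sin t /
    √((a ^ 2 - l ^ 2 * Real.sin t ^ 2) * (b ^ 2 - l ^ 2 * Real.sin t ^ 2)) with hg
  have hgc : Continuous g := by
    apply Continuous.div (by fun_prop) (by fun_prop)
    intro t
    exact (Real.sqrt_pos.2 (mul_pos (hA t) (hB t))).ne'
  set Φ : ℝ → ℂ := fun t => E.vd.Gh (tan (x₀ : ℂ) ^ 2) ((rotX a b l x₀ t : ℝ) : ℂ) with hΦ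
  have hΦc : Continuous Φ := by
    rw [continuous_iff_continuousAt]
    intro t
    have h1 : ContinuousAt (E.vd.Gh (tan (x₀ : ℂ) ^ 2)) ((rotX a b l x₀ t : ℝ) : ℂ) :=
      (E.vd.Gh_deriv _ _ hβ1 (him _)).continuousAt
    have h2 : ContinuousAt (fun t => ((rotX a b l x₀ t : ℝ) : ℂ)) t :=
      (Complex.continuous_ofReal.comp (continuous_rotX hb hab hl hl2 x₀)).continuousAt
    exact ContinuousAt.comp (f := fun t => ((rotX a b l x₀ t : ℝ) : ℂ)) h1 h2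
  have hderiv : ∀ t ∈ Set.Ioo (0 : ℝ) (Real.pi / 2),
      HasDerivAt Φ (-(((cE a b l * g t : ℝ)) : ℂ)) t := by
    rintro t ⟨ht, ht2⟩
    obtain ⟨hu1, hF⟩ := E.F_rot hb hab hl hl2 hx hx2 hY hβ hnu ht ht2
    obtain ⟨hτ1, -⟩ := E.rotT_pos_lt hb hl hl2 ht ht2
    have hs : 0 < Real.sin t := Real.sin_pos_of_pos_of_lt_pi ht (by linarith [Real.pi_pos])
    have hct : 0 < Real.cos t := Real.cos_pos_of_mem_Ioo ⟨by linarith, ht2⟩
    have hsh : 0 < Real.sinh (rotT a b l t) := Real.sinh_pos_iff.2 hτ1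
    have hu0 : 0 < Real.cos x₀ * Real.cosh (rotT a b l t) := mul_pos hcos (Real.cosh_pos _)
    have hq : 0 < √(1 - (Real.cos x₀ * Real.cosh (rotT a b l t)) ^ 2) := by
      apply Real.sqrt_pos.2
      nlinarith
    have h1 : HasDerivAt (fun t => Real.cos x₀ * Real.cosh (rotT a b l t))
        (Real.cos x₀ * (Real.sinh (rotT a b l t) * (cE a b 0 * (l * Real.cos t) /
          (√(a ^ 2 - l ^ 2 * Real.sin t ^ 2) * √(b ^ 2 - l ^ 2 * Real.sin t ^ 2))))) t :=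
      ((rotT_hasDerivAt hb hab hl hl2 t).cosh).const_mul (Real.cos x₀)
    have h2 : HasDerivAt (rotX a b l x₀) _ t :=
      HasDerivAt.comp t (Real.hasDerivAt_arccos (by linarith) hu1.ne) h1
    have h3 := HasDerivAt.scomp t (E.vd.Gh_deriv _ _ hβ1 (him (rotX a b l x₀ t)))
      h2.ofReal_comp
    have h4 : √((a ^ 2 - l ^ 2 * Real.sin t ^ 2) * (b ^ 2 - l ^ 2 * Real.sin t ^ 2)) =
        √(a ^ 2 - l ^ 2 * Real.sin t ^ 2) * √(b ^ 2 - l ^ 2 * Real.sin t ^ 2) :=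
      Real.sqrt_mul (hA t).le _
    have h5 : 0 < √(a ^ 2 - l ^ 2 * Real.sin t ^ 2) := Real.sqrt_pos.2 (hA t)
    have h6 : 0 < √(b ^ 2 - l ^ 2 * Real.sin t ^ 2) := Real.sqrt_pos.2 (hB t)
    refine h3.congr_deriv ?_
    rw [hF, hga, smul_eq_mul, ← Complex.ofReal_mul, ← Complex.ofReal_mul, ← Complex.ofReal_neg]
    congr 1
    simp only [hg]
    rw [h4]
    clear h3 h2 hF h1
    generalize √(1 - (Real.cos x₀ * Real.cosh (rotT a b l t)) ^ 2) = q at hq ⊢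
    field_simp
  have hint : IntervalIntegrable (fun t => (-(((cE a b l * g t : ℝ)) : ℂ)))
      MeasureTheory.volume 0 (Real.pi / 2) := by
    apply Continuous.intervalIntegrable
    fun_prop
  have hFTC := intervalIntegral.integral_eq_sub_of_hasDerivAt_of_le
    (by positivity : (0 : ℝ) ≤ Real.pi / 2) hΦc.continuousOn hderiv hint
  have h0 : Φ 0 = E.vd.Gh (tan (x₀ : ℂ) ^ 2) x₀ := by
    simp only [hΦ]
    rw [rotX_zero hx hx2]
  have h1 : Φ (Real.pi / 2) = 0 := by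
    simp only [hΦ]
    rw [E.rotX_end hb hab hl hx hx2 hY hβ hnu]
    have h2 := E.vd.Gh_odd (tan (x₀ : ℂ) ^ 2) ((0 : ℝ) : ℂ) hβ1 (him 0)
    rw [Complex.ofReal_zero, neg_zero] at h2
    rw [Complex.ofReal_zero]
    have h3 : (2 : ℂ) * E.vd.Gh (tan (x₀ : ℂ) ^ 2) 0 = 0 := by
      linear_combination h2
    simpa using h3
  rw [h0, h1, intervalIntegral.integral_neg, intervalIntegral.integral_ofReal,
    intervalIntegral.integral_const_mul] at hFTC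
  have h2 : E.vd.Gh (tan (x₀ : ℂ) ^ 2) x₀ =
      ((cE a b l * ∫ t in (0 : ℝ)..(Real.pi / 2), g t : ℝ) : ℂ) := by
    linear_combination hFTC
  rw [h2, omE]
  congr 1
  have hpi := Real.pi_ne_zero
  simp only [hg]
  field_simp

end LSB
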