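import Pool.Agent.LSB.FCont

/-!
# Part F, module FOm: the rotation number

For `0 ≤ l ≤ b/2`: `(3/4) a b ≤ √((a²-l²sin²)(b²-l²sin²)) ≤ a b`, so `∫_0^{π/2}` is between `l/(ab)` and `(4/3) l/(ab)`;
`cE` is between `b/2` and `a`.  `exists_omE_eq`: `omE a b` is continuous on `[0,b/2]` (by sequences from `tendsto_omE`,
or directly), `omE a b 0 = 0`, `omE a b (b/2) ≥ c b₁/2`; intermediate value theorem.
-/

namespace LSB

open Real Complex MeasureTheory Filter Topology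

private lemma fom_sqrt {a b l : ℝ} (hb : 0 < b) (hab : b ≤ a) (hl : 0 ≤ l) (hl2 : l ≤ b / 2)
    (t : ℝ) : 3 / 4 * (a * b) ≤
      √((a ^ 2 - l ^ 2 * Real.sin t ^ 2) * (b ^ 2 - l ^ 2 * Real.sin t ^ 2)) ∧
    √((a ^ 2 - l ^ 2 * Real.sin t ^ 2) * (b ^ 2 - l ^ 2 * Real.sin t ^ 2)) ≤ a * b := by
  have ha : 0 < a := hb.trans_le hab
  have h0 : 0 ≤ l ^ 2 * Real.sin t ^ 2 := by positivity
  have h1 : l ^ 2 * Real.sin t ^ 2 ≤ b ^ 2 / 4 := by
    have h2 : Real.sin t ^ 2 ≤ 1 := Real.sin_sq_le_one t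
    calc l ^ 2 * Real.sin t ^ 2 ≤ (b / 2) ^ 2 * 1 := by gcongr
      _ = b ^ 2 / 4 := by ring
  have h3 : b ^ 2 ≤ a ^ 2 := by gcongr
  set u := l ^ 2 * Real.sin t ^ 2
  constructor
  · apply Real.le_sqrt_of_sq_le
    calc (3 / 4 * (a * b)) ^ 2 = (3 / 4 * a ^ 2) * (3 / 4 * b ^ 2) := by ring
      _ ≤ (a ^ 2 - u) * (b ^ 2 - u) := by
        apply mul_le_mul (by linarith) (by linarith) (by positivity) (by nlinarith)
  · apply Real.sqrt_le_iff.2
    refine ⟨by positivity, ?_⟩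
    calc (a ^ 2 - u) * (b ^ 2 - u) ≤ a ^ 2 * b ^ 2 := by
          apply mul_le_mul (by linarith) (by linarith) (by nlinarith) (by positivity)
      _ = (a * b) ^ 2 := by ring

private lemma fom_int {a b l : ℝ} (hb : 0 < b) (hab : b ≤ a) (hl : 0 ≤ l) (hl2 : l ≤ b / 2) :
    l / (a * b) ≤ (∫ t in (0 : ℝ)..(π / 2), l * Real.sin t /
      √((a ^ 2 - l ^ 2 * Real.sin t ^ 2) * (b ^ 2 - l ^ 2 * Real.sin t ^ 2))) ∧
    (∫ t in (0 : ℝ)..(π / 2), l * Real.sin t /
      √((a ^ 2 - l ^ 2 * Real.sin t ^ 2) * (b ^ 2 - l ^ 2 * Real.sin t ^ 2)))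
      ≤ 4 / 3 * (l / (a * b)) := by
  have ha : 0 < a := hb.trans_le hab
  have hab0 : 0 < a * b := by positivity
  have hpi : (0 : ℝ) ≤ π / 2 := by positivity
  have hs0 : ∀ t ∈ Set.Icc (0 : ℝ) (π / 2), 0 ≤ Real.sin t := by
    intro t ht
    exact Real.sin_nonneg_of_nonneg_of_le_pi ht.1 (by linarith [ht.2, Real.pi_pos])
  have hcont : Continuous (fun t : ℝ => l * Real.sin t /
      √((a ^ 2 - l ^ 2 * Real.sin t ^ 2) * (b ^ 2 - l ^ 2 * Real.sin t ^ 2))) := by
    apply Continuous.div (by fun_prop) (by fun_prop)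
    intro t
    have := (fom_sqrt hb hab hl hl2 t).1
    have h2 : 0 < 3 / 4 * (a * b) := by positivity
    exact (h2.trans_le this).ne'
  have hsin : ∫ t in (0 : ℝ)..(π / 2), Real.sin t = 1 := by
    rw [integral_sin]
    simp
  constructor
  · have h1 : l / (a * b) = ∫ t in (0 : ℝ)..(π / 2), l / (a * b) * Real.sin t := by
      rw [intervalIntegral.integral_const_mul, hsin, mul_one]
    rw [h1]
    apply intervalIntegral.integral_mono_on hpi
      ((Real.continuous_sin.const_mul _).intervalIntegrable _ _) (hcont.intervalIntegrable _ _)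
    intro t ht
    have h2 := fom_sqrt hb hab hl hl2 t
    have h3 : 0 < √((a ^ 2 - l ^ 2 * Real.sin t ^ 2) * (b ^ 2 - l ^ 2 * Real.sin t ^ 2)) := by
      have : 0 < 3 / 4 * (a * b) := by positivity
      linarith [h2.1]
    have h4 : 0 ≤ l * Real.sin t := mul_nonneg hl (hs0 t ht)
    calc l / (a * b) * Real.sin t = l * Real.sin t / (a * b) := by ring
      _ ≤ _ := by
        apply div_le_div_of_nonneg_left h4 h3 h2.2
  · have h1 : 4 / 3 * (l / (a * b)) = ∫ t in (0 : ℝ)..(π / 2), 4 / 3 * (l / (a * b)) * Real.sin t := by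
      rw [intervalIntegral.integral_const_mul, hsin, mul_one]
    rw [h1]
    apply intervalIntegral.integral_mono_on hpi (hcont.intervalIntegrable _ _)
      ((Real.continuous_sin.const_mul _).intervalIntegrable _ _)
    intro t ht
    have h2 := fom_sqrt hb hab hl hl2 t
    have h3 : 0 < 3 / 4 * (a * b) := by positivity
    have h4 : 0 ≤ l * Real.sin t := mul_nonneg hl (hs0 t ht)
    calc l * Real.sin t / √((a ^ 2 - l ^ 2 * Real.sin t ^ 2) * (b ^ 2 - l ^ 2 * Real.sin t ^ 2))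
        ≤ l * Real.sin t / (3 / 4 * (a * b)) := by
          apply div_le_div_of_nonneg_left h4 h3 h2.1
      _ = 4 / 3 * (l / (a * b)) * Real.sin t := by
          field_simp

theorem omE_zero (a b : ℝ) : omE a b 0 = 0 := by
  unfold omE
  simp

theorem omE_bounds {b₁ a₁ : ℝ} (hb₁ : 0 < b₁) : ∃ c > 0, ∃ C > 0, ∀ a b, Box b₁ a₁ a b →
    ∀ l, 0 ≤ l → l ≤ b / 2 → c * l ≤ omE a b l ∧ omE a b l ≤ C * l := by
  have hpi := Real.pi_pos
  refine ⟨1 / (2 * π * (|a₁| + 1)), by positivity, 4 / (3 * π * b₁), by positivity, ?_⟩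
  intro a b hB l hl hl2
  have hb : 0 < b := hb₁.trans_le hB.hb
  have hab : b ≤ a := hB.hab.le
  have ha : 0 < a := hb.trans_le hab
  obtain ⟨h1, h2⟩ := fom_int hb hab hl hl2
  have h3 := cE_ge hb hab hl hl2
  have h4 := cE_le hb hab hl hl2
  have h0 : 0 ≤ l / (a * b) := by positivity
  unfold omE
  set J := ∫ t in (0 : ℝ)..(π / 2), l * Real.sin t /
      √((a ^ 2 - l ^ 2 * Real.sin t ^ 2) * (b ^ 2 - l ^ 2 * Real.sin t ^ 2))
  have hJ0 : 0 ≤ J := h0.trans h1
  have hc0 : 0 ≤ cE a b l := by linarith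
  constructor
  · have h5 : a ≤ |a₁| + 1 := by
      have := le_abs_self a₁
      have := hB.ha
      linarith
    calc 1 / (2 * π * (|a₁| + 1)) * l ≤ 1 / (2 * π * a) * l := by gcongr
      _ = (b / 2) / π * (l / (a * b)) := by field_simp
      _ ≤ cE a b l / π * J := by gcongr
  · calc cE a b l / π * J ≤ a / π * (4 / 3 * (l / (a * b))) := by gcongr
      _ = 4 / (3 * π * b) * l := by field_simp
      _ ≤ 4 / (3 * π * b₁) * l := by
        have := hB.hb
        gcongr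

theorem exists_omE_eq {b₁ a₁ : ℝ} (hb₁ : 0 < b₁) : ∃ η > 0, ∀ a b, Box b₁ a₁ a b →
    ∀ r, 0 < r → r ≤ η → ∃ l, 0 < l ∧ l ≤ b / 2 ∧ omE a b l = r := by
  obtain ⟨c, hc, C, hC, h⟩ := omE_bounds (a₁ := a₁) hb₁
  refine ⟨c * (b₁ / 2), by positivity, ?_⟩
  intro a b hB r hr hrη
  have hb : 0 < b := hb₁.trans_le hB.hb
  have hab : b ≤ a := hB.hab.le
  have hcont : ContinuousOn (omE a b) (Set.Icc 0 (b / 2)) := by
    rw [continuousOn_iff_continuous_domRestrict, continuous_iff_seqContinuous]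
    intro x p hx
    have hx' : Tendsto (fun j => ((x j : Set.Icc (0 : ℝ) (b / 2)) : ℝ)) atTop (𝓝 (p : ℝ)) :=
      (continuous_subtype_val.tendsto p).comp hx
    exact tendsto_omE (aj := fun _ => a) (bj := fun _ => b) (fun _ => ⟨hb, hab⟩)
      (fun j => (x j).2) hb tendsto_const_nhds tendsto_const_nhds hx'
  have h1 := (h a b hB (b / 2) (by positivity) le_rfl).1
  have h2 : r ≤ omE a b (b / 2) := by
    refine hrη.trans (le_trans ?_ h1)
    have := hB.hb
    gcongr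
  obtain ⟨l, hl, hlr⟩ := intermediate_value_Icc (by positivity : (0 : ℝ) ≤ b / 2) hcont
    ⟨by rw [omE_zero]; exact hr.le, h2⟩
  refine ⟨l, ?_, hl.2, hlr⟩
  rcases hl.1.lt_or_eq with h3 | h3
  · exact h3
  · rw [← h3, omE_zero] at hlr
    linarith

end LSB
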