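import Pool.Agent.LSB.EInt
import Pool.Agent.LSB.ERot
import Pool.Agent.LSB.FOm
import Pool.Agent.LSB.CX

/-!
# Part E, module ETop: `CData` of an ellipse

Paper proof.  `E` from `exists_EllData`, `P` from `exists_preData`, `D` from `PreData.exists_cdata`.  Let `ε=D.Y₁-D.Y` (and `≤Y/2`).  By `EllData.exists_x₀`,
`curve`, `rot`: there is `l₁` such that for `0<l≤l₁` there is `x₀` with `ϖ:=Gh β x₀=π·omE a b l`, `cfun ϖ(BE a b l(f s)+iYl)=cos(s+iY)`, `0<Yl<D.Y₁`; decrease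
`l₁` so that `π·omE a b l<D.r₀` (`omE_bounds`).  Take `η<c·l₁` (`omE_bounds` with the box `b₁=b`, `a₁=a`): if `omE a b l=p/n≤η` then `l≤l₁`.
Computation: `chi a b l n m=(1/2π)∫_0^{2π}e^{im BE a b 0 ψ}e^{-in BE a b l ψ}d(BE a b l ψ)`; substitute `x=BE a b l ψ` (increasing bijection
`[0,2π]→[0,2π]`), `ψ=f s`, `BE a b 0(f s)=s`: `e^{ims}=e^{mY}(e^{i(s+iY)})^m=e^{mY}Jou(cos(s+iY))^m=e^{mY}Jou(D.c ϖ(x+iYl))^m`, `e^{-inx}=e^{-nYl}·e^{-in(x+iYl)}`.
So `chi=e^{mY}e^{-nYl}X n m ϖ Yl=e^{mY}e^{-nYl}X n m ϖ Y` (`X_eq_line`, `ϖ` real); `κ=e^{-nYl}`.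
-/

set_option linter.all false

namespace LSB

open Complex

/-- The substitution `x = BE a b l ψ`. -/
theorem chi_eq_of_curve {a b : ℝ} (hb : 0 < b) (hab : b < a) (D : CData) {f : ℝ → ℝ}
    (hf : IsAmp a b (cE a b 0) f) {l : ℝ} (hl : 0 ≤ l) (hl2 : l ≤ b / 2) {ϖ : ℂ} {Yl : ℝ}
    (hϖ : ‖ϖ‖ < D.r₀) (hϖi : ϖ.im = 0) (hYl : 0 < Yl) (hYl' : Yl < D.Y₁)
    (h : ∀ s : ℝ, D.c ϖ (BE a b l (f s) + Yl * I) = cos (s + D.Y * I)) (n m : ℤ) :
    chi a b l n m = (Real.exp (-(n * Yl)) : ℝ) * (Real.exp (m * D.Y) : ℝ) * D.X n m ϖ D.Y := by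
  have him : ∀ x : ℝ, ((x : ℂ) + Yl * I).im = Yl := by
    intro x
    simp
  have hnot : ∀ x : ℝ, D.c ϖ (x + Yl * I) ∉ segm 1 := by
    intro x
    refine D.c_notMem hϖ ?_ ?_
    · rw [him, hϖi, abs_zero, mul_zero]
      exact hYl
    · rw [him]
      exact hYl'
  rw [D.X_eq_line n m hϖ (y := D.Y) (y' := Yl)
    ⟨by rw [hϖi, abs_zero, mul_zero]; exact D.Y_pos, D.Y_lt⟩
    ⟨by rw [hϖi, abs_zero, mul_zero]; exact hYl, hYl'⟩]
  -- continuity
  have hopen : IsOpen {p : ℂ × ℂ | ‖p.1‖ < D.r₀ ∧ |p.2.im| < D.Y₁} := by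
    have h1 : IsOpen {p : ℂ × ℂ | ‖p.1‖ < D.r₀} := isOpen_lt continuous_fst.norm continuous_const
    have h2 : IsOpen {p : ℂ × ℂ | |p.2.im| < D.Y₁} :=
      isOpen_lt (Complex.continuous_im.comp continuous_snd).abs continuous_const
    exact h1.inter h2
  have hcont : Continuous fun x : ℝ => D.c ϖ (x + Yl * I) := by
    rw [continuous_iff_continuousAt]
    intro x
    have hmem : ((ϖ, (x : ℂ) + Yl * I) : ℂ × ℂ) ∈ {p : ℂ × ℂ | ‖p.1‖ < D.r₀ ∧ |p.2.im| < D.Y₁} := by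
      refine ⟨hϖ, ?_⟩
      change |((x : ℂ) + Yl * I).im| < D.Y₁
      rw [him, abs_of_pos hYl]
      exact hYl'
    have h1 : ContinuousAt (fun p : ℂ × ℂ => D.c p.1 p.2) (ϖ, (x : ℂ) + Yl * I) :=
      (D.diff.differentiableAt (hopen.mem_nhds hmem)).continuousAt
    have h2 : ContinuousAt (fun x : ℝ => ((ϖ, (x : ℂ) + Yl * I) : ℂ × ℂ)) x := by
      fun_prop
    exact ContinuousAt.comp (f := fun x : ℝ => ((ϖ, (x : ℂ) + Yl * I) : ℂ × ℂ)) h1 h2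
  have hJ : Continuous fun x : ℝ => Jou (D.c ϖ (x + Yl * I)) := by
    rw [continuous_iff_continuousAt]
    intro x
    have h1 : ContinuousAt Jou (D.c ϖ (x + Yl * I)) :=
      (differentiableOn_Jou.differentiableAt
        ((isClosed_segm 1).isOpen_compl.mem_nhds (hnot x))).continuousAt
    exact ContinuousAt.comp (f := fun x : ℝ => D.c ϖ (x + Yl * I)) h1 hcont.continuousAt
  have hJm : Continuous fun x : ℝ => Jou (D.c ϖ (x + Yl * I)) ^ m :=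
    hJ.zpow₀ m fun x => Or.inl (Jou_ne_zero (hnot x))
  set g : ℝ → ℂ := fun x => Jou (D.c ϖ (x + Yl * I)) ^ m * exp (-(n * I * (x + Yl * I))) with hg
  have hgc : Continuous g := hJm.mul (by fun_prop)
  have hsub := intervalIntegral.integral_comp_smul_deriv (a := (0 : ℝ)) (b := 2 * Real.pi)
    (f := BE a b l) (f' := fun ψ => cE a b l * wE a b l ψ) (g := g)
    (fun ψ _ => hasDerivAt_BE hb hab.le hl hl2 ψ)
    ((continuous_const.mul (continuous_wE hb hab.le hl hl2)).continuousOn) hgc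
  have hB0 := BE_zero a b l
  have hB2 : BE a b l (2 * Real.pi) = 2 * Real.pi := by
    have := BE_add_two_pi hb hab.le hl hl2 0
    rwa [zero_add, hB0, zero_add] at this
  rw [hB0, hB2] at hsub
  have hX : D.X n m ϖ Yl = (1 / (2 * Real.pi) : ℂ) * ∫ x in (0 : ℝ)..(2 * Real.pi), g x := rfl
  rw [hX, ← hsub]
  have hchi : chi a b l n m = (1 / (2 * Real.pi) : ℂ) * ∫ ψ in (0 : ℝ)..(2 * Real.pi),
    exp ((m * BE a b 0 ψ : ℝ) * I) * (cE a b l * wE a b l ψ : ℝ) *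
      exp (-(n * BE a b l ψ : ℝ) * I) := rfl
  rw [hchi]
  have hint : (∫ ψ in (0 : ℝ)..(2 * Real.pi),
    exp ((m * BE a b 0 ψ : ℝ) * I) * (cE a b l * wE a b l ψ : ℝ) *
      exp (-(n * BE a b l ψ : ℝ) * I)) =
      ((Real.exp (-(n * Yl)) : ℝ) : ℂ) * ((Real.exp (m * D.Y) : ℝ) : ℂ) *
        ∫ ψ in (0 : ℝ)..(2 * Real.pi), (cE a b l * wE a b l ψ) • (g ∘ BE a b l) ψ := by
    rw [← intervalIntegral.integral_const_mul]
    refine intervalIntegral.integral_congr fun ψ _ => ?_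
    obtain ⟨s, rfl⟩ := hf.surj ψ
    have hs : BE a b 0 (f s) = s := by
      rw [BE_zero_eq]
      exact hf.integral s
    have hpos : 0 < ((s : ℂ) + D.Y * I).im := by
      have : ((s : ℂ) + D.Y * I).im = D.Y := by simp
      rw [this]
      exact D.Y_pos
    simp only [hg, Function.comp, Complex.real_smul]
    rw [h s, Jou_cos hpos, hs, ← Complex.exp_int_mul]
    have e1 : exp ((m * s : ℝ) * I) = ((Real.exp (m * D.Y) : ℝ) : ℂ) *
        exp (m * (I * (s + D.Y * I))) := by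
      rw [Complex.ofReal_exp, ← Complex.exp_add]
      congr 1
      push_cast
      linear_combination (-(m : ℂ) * D.Y) * Complex.I_sq
    have e2 : exp (-(n * BE a b l (f s) : ℝ) * I) = ((Real.exp (-(n * Yl)) : ℝ) : ℂ) *
        exp (-(n * I * (BE a b l (f s) + Yl * I))) := by
      rw [Complex.ofReal_exp, ← Complex.exp_add]
      congr 1
      push_cast
      linear_combination ((n : ℂ) * Yl) * Complex.I_sq
    rw [e1, e2]
    ring
  rw [hint]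
  ring

theorem exists_cdata_ellipse {a b : ℝ} (hb : 0 < b) (hab : b < a) : ∃ D : CData, ∃ η > 0,
    ∀ n p : ℕ, 0 < p → (p : ℝ) ≤ η * n → ∀ l : ℝ, 0 < l → l ≤ b / 2 → omE a b l = p / n →
      ∃ κ : ℝ, 0 < κ ∧ ∀ m : ℤ, chi a b l n m =
        κ * Real.exp (m * D.Y) * D.X n m (Real.pi * p / n) D.Y := by
  obtain ⟨E⟩ := exists_EllData hb hab
  obtain ⟨P, hPc, hPY, hPr, hPY'⟩ := E.vd.exists_preData E.Y_pos
  obtain ⟨D, hDc, hDY, hDr, hDY₁⟩ := P.exists_cdata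
  have hDY' : D.Y = E.Y := hDY.trans hPY
  have hDc' : D.c = E.vd.cfun := hDc.trans hPc
  have hε : 0 < D.Y₁ - D.Y := sub_pos.2 D.Y_lt
  obtain ⟨ε₁, hε₁, hcurve⟩ := E.curve hb hab hε
  obtain ⟨ε₂, hε₂, hrot⟩ := E.rot hb hab
  obtain ⟨l₁, hl₁, hl₁b, hx₀⟩ := E.exists_x₀ hb hab (lt_min hε₁ hε₂)
  obtain ⟨c, hc, C, hC, hom⟩ := omE_bounds (b₁ := b) (a₁ := a) hb
  have hbox : Box b a a b := ⟨hb, le_rfl, hab, le_rfl⟩
  have hpi := Real.pi_pos
  have hr₀ := D.r₀_pos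
  refine ⟨D, min (c * l₁ / 2) (D.r₀ / (2 * Real.pi)), by positivity, ?_⟩
  intro n p hp hpn l hl hl2 hom_eq
  have hp' : (0 : ℝ) < p := by exact_mod_cast hp
  have hη : 0 < min (c * l₁ / 2) (D.r₀ / (2 * Real.pi)) := by positivity
  have hn : (0 : ℝ) < n := by
    by_contra hcon
    have h0 : (n : ℝ) ≤ 0 := not_lt.1 hcon
    have := mul_nonpos_of_nonneg_of_nonpos hη.le h0
    linarith
  have hpn' : (p : ℝ) / n ≤ min (c * l₁ / 2) (D.r₀ / (2 * Real.pi)) := by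
    rw [div_le_iff₀ hn]
    exact hpn
  have hll : l ≤ l₁ := by
    have h1 := (hom a b hbox l hl.le hl2).1
    rw [hom_eq] at h1
    have h2 : c * l ≤ c * l₁ / 2 := h1.trans (hpn'.trans (min_le_left _ _))
    have h3 : c * l ≤ c * l₁ := by
      have : 0 < c * l₁ := by positivity
      linarith
    exact le_of_mul_le_mul_left h3 hc
  obtain ⟨x₀, hx0, hxε, hx1, hnu⟩ := hx₀ l hl hll
  have hxε₁ := hxε.trans_le (min_le_left _ _)
  have hxε₂ := hxε.trans_le (min_le_right _ _)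
  obtain ⟨hga, Yl, hYl, hYlε, hcs⟩ := hcurve l x₀ hl hl2 hx0 hxε₁ hnu
  have hGh := hrot l x₀ hl hl2 hx0 hxε₂ hnu hga
  rw [hGh] at hcs
  have hϖ : (Real.pi * p / n : ℂ) = ((Real.pi * omE a b l : ℝ) : ℂ) := by
    rw [hom_eq]
    push_cast
    ring
  have hϖn : ‖((Real.pi * omE a b l : ℝ) : ℂ)‖ < D.r₀ := by
    rw [hom_eq, Complex.norm_real, Real.norm_eq_abs, abs_of_pos (by positivity)]
    have h1 : (p : ℝ) / n ≤ D.r₀ / (2 * Real.pi) := hpn'.trans (min_le_right _ _)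
    have h2 : Real.pi * ((p : ℝ) / n) ≤ Real.pi * (D.r₀ / (2 * Real.pi)) :=
      mul_le_mul_of_nonneg_left h1 hpi.le
    have h3 : Real.pi * (D.r₀ / (2 * Real.pi)) = D.r₀ / 2 := by
      field_simp
    linarith
  have hYl' : Yl < D.Y₁ := by
    rw [abs_lt] at hYlε
    linarith [hYlε.2]
  refine ⟨Real.exp (-(n * Yl)), Real.exp_pos _, fun m => ?_⟩
  rw [hϖ]
  have hcs' : ∀ s : ℝ, D.c ((Real.pi * omE a b l : ℝ) : ℂ) (BE a b l (E.f s) + Yl * I) =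
      cos (s + D.Y * I) := by
    intro s
    rw [hDc', hcs s, hDY']
  have := chi_eq_of_curve hb hab D E.amp hl.le hl2 hϖn (Complex.ofReal_im _) hYl hYl' hcs' n m
  rw [this]
  simp only [Int.cast_natCast]

end LSB
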