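import Pool.Agent.LSB.EG

/-!
# Part E, module EV: the parameter `ϖ`

Paper proof.  `W(x)=Gh(tan²x, x)` is differentiable near `0`, odd, real on reals, `W'(0)=1` (`Gh 0 x=x` as `‖Gh-x‖≤C₁‖β‖`;
`∂_βGh(0,0)=0` since `Gh β 0=0`).  Local inverse `V` on a ball: differentiable, odd, real, `V(0)=0`, `V'(0)=1`; so
`‖V ϖ-ϖ‖≤C₂‖ϖ‖³` (odd with derivative `1`: Taylor/Schwarz), `V(W x)=x` for small `x`.  `Gi β ϖ=V ϖ` for `β=tan²(V ϖ)` by `Gi_Gh`.
-/

namespace LSB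

open Complex

structure VData (Y : ℝ) (T : ℂ → ℂ) extends GData Y T where
  r₁ : ℝ
  x₁ : ℝ
  C₂ : ℝ
  V : ℂ → ℂ
  r₁_pos : 0 < r₁
  r₁_le : r₁ ≤ 1 / 8
  r₁_le' : r₁ ≤ Y / 8
  x₁_pos : 0 < x₁
  x₁_le : x₁ ≤ 1 / 8
  V_diff : DifferentiableOn ℂ V (Metric.ball 0 r₁)
  V_near : ∀ ϖ : ℂ, ‖ϖ‖ < r₁ → ‖V ϖ - ϖ‖ ≤ C₂ * ‖ϖ‖ ^ 3
  V_norm : ∀ ϖ : ℂ, ‖ϖ‖ < r₁ → ‖V ϖ‖ ≤ 2 * ‖ϖ‖ ∧ ‖V ϖ‖ < 1 / 4 ∧ ‖V ϖ‖ < Y / 4
  V_odd : ∀ ϖ : ℂ, ‖ϖ‖ < r₁ → V (-ϖ) = -V ϖ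
  V_conj : ∀ ϖ : ℂ, ‖ϖ‖ < r₁ → V (starRingEnd ℂ ϖ) = starRingEnd ℂ (V ϖ)
  tan_lt : ∀ ϖ : ℂ, ‖ϖ‖ < r₁ → ‖tan (V ϖ) ^ 2‖ < β₁
  Gh_V : ∀ ϖ : ℂ, ‖ϖ‖ < r₁ → Gh (tan (V ϖ) ^ 2) (V ϖ) = ϖ
  V_W : ∀ x : ℂ, ‖x‖ < x₁ → ‖tan x ^ 2‖ < β₁ ∧ ‖Gh (tan x ^ 2) x‖ < r₁ ∧
    V (Gh (tan x ^ 2) x) = x

open Filter Topology in
theorem ev_cubic {g : ℂ → ℂ} {r M : ℝ} (hr : 0 < r) (hg : DifferentiableOn ℂ g (Metric.ball 0 r))
    (hodd : ∀ z, ‖z‖ < r → g (-z) = -g z) (hM : ∀ z, ‖z‖ < r → ‖g z‖ ≤ M * ‖z‖ ^ 2) :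
    ∃ C : ℝ, ∃ r' > 0, ∀ z, ‖z‖ < r' → ‖g z‖ ≤ C * ‖z‖ ^ 3 := by
  have h0 : g 0 = 0 := by
    have := hM 0 (by simpa using hr)
    simpa using this
  have hball : Metric.ball (0 : ℂ) r ∈ 𝓝 (0 : ℂ) := Metric.ball_mem_nhds _ hr
  have hd0 : HasDerivAt g 0 0 := by
    rw [hasDerivAt_iff_isLittleO]
    have h1 : (fun z : ℂ => g z - g 0 - (z - 0) • (0 : ℂ)) =O[𝓝 0] fun z => z ^ 2 := by
      refine Asymptotics.IsBigO.of_bound M ?_
      filter_upwards [hball] with z hz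
      have := hM z (by simpa using hz)
      simpa [h0] using this
    have h2 : (fun z : ℂ => z ^ 2) =o[𝓝 0] fun z => z - 0 := by
      simp only [sub_zero]
      exact Asymptotics.isLittleO_pow_id (by norm_num)
    exact h1.trans_isLittleO h2
  set g₁ := dslope g 0 with hg₁
  have hg₁d : DifferentiableOn ℂ g₁ (Metric.ball 0 r) :=
    (Complex.differentiableOn_dslope hball).2 hg
  have hg₁0 : g₁ 0 = 0 := by rw [hg₁, dslope_same, hd0.deriv]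
  set g₂ := dslope g₁ 0 with hg₂
  have hg₂d : DifferentiableOn ℂ g₂ (Metric.ball 0 r) :=
    (Complex.differentiableOn_dslope hball).2 hg₁d
  have e1 : ∀ z : ℂ, z ≠ 0 → g₁ z = g z / z := by
    intro z hz
    rw [hg₁, dslope_of_ne _ hz, slope_def_field, h0, sub_zero, sub_zero]
  have e2 : ∀ z : ℂ, z ≠ 0 → g₂ z = g z / z ^ 2 := by
    intro z hz
    rw [hg₂, dslope_of_ne _ hz, slope_def_field, hg₁0, sub_zero, sub_zero, e1 z hz]
    field_simp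
  have hg₂0 : g₂ 0 = 0 := by
    have hc : ContinuousAt g₂ 0 := (hg₂d.differentiableAt hball).continuousAt
    have t1 : Tendsto g₂ (𝓝[≠] 0) (𝓝 (g₂ 0)) := hc.tendsto.mono_left nhdsWithin_le_nhds
    have hneg : Tendsto (fun z : ℂ => -z) (𝓝[≠] 0) (𝓝[≠] 0) := by
      refine tendsto_nhdsWithin_iff.2 ⟨?_, ?_⟩
      · have : Tendsto (fun z : ℂ => -z) (𝓝 0) (𝓝 (-0)) := continuous_neg.tendsto _
        rw [neg_zero] at this
        exact this.mono_left nhdsWithin_le_nhds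
      · filter_upwards [self_mem_nhdsWithin] with z hz
        simpa using hz
    have t2 : Tendsto (fun z => -g₂ z) (𝓝[≠] 0) (𝓝 (g₂ 0)) := by
      refine (t1.comp hneg).congr' ?_
      filter_upwards [self_mem_nhdsWithin, mem_nhdsWithin_of_mem_nhds hball] with z hz hzr
      have hz' : z ≠ 0 := hz
      simp only [Function.comp]
      rw [e2 _ (neg_ne_zero.2 hz'), e2 _ hz', hodd z (by simpa using hzr)]
      ring
    have t3 := t1.neg
    have h := tendsto_nhds_unique t2 t3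
    have h2 : (2 : ℂ) * g₂ 0 = 0 := by linear_combination h
    simpa using h2
  set g₃ := dslope g₂ 0 with hg₃
  have hg₃d : DifferentiableOn ℂ g₃ (Metric.ball 0 r) :=
    (Complex.differentiableOn_dslope hball).2 hg₂d
  have e3 : ∀ z : ℂ, g z = z ^ 3 * g₃ z := by
    intro z
    rcases eq_or_ne z 0 with rfl | hz
    · simp [h0]
    · rw [hg₃, dslope_of_ne _ hz, slope_def_field, hg₂0, sub_zero, sub_zero, e2 z hz]
      field_simp
  have hc3 : ContinuousAt g₃ 0 := (hg₃d.differentiableAt hball).continuousAt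
  have hb3 : ∀ᶠ z in 𝓝 (0 : ℂ), ‖g₃ z‖ < ‖g₃ 0‖ + 1 :=
    hc3.norm.tendsto.eventually_lt_const (lt_add_one _)
  obtain ⟨r', hr', hb⟩ := Metric.eventually_nhds_iff_ball.1 hb3
  refine ⟨‖g₃ 0‖ + 1, r', hr', fun z hz => ?_⟩
  rw [e3 z, norm_mul, norm_pow, mul_comm]
  exact mul_le_mul_of_nonneg_right (hb z (by simpa using hz)).le (by positivity)

open Filter Topology in
theorem ev_inverse {W : ℂ → ℂ} {C ρ : ℝ} (hρ : 0 < ρ)
    (hd : DifferentiableOn ℂ W (Metric.ball 0 ρ))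
    (hW : ∀ x, ‖x‖ < ρ → ‖W x - x‖ ≤ C * ‖x‖ ^ 2)
    (hodd : ∀ x, ‖x‖ < ρ → W (-x) = -W x)
    (hconj : ∀ x, ‖x‖ < ρ → W (starRingEnd ℂ x) = starRingEnd ℂ (W x)) :
    ∃ V : ℂ → ℂ, ∃ C₂ : ℝ, (∀ᶠ w in 𝓝 (0 : ℂ), DifferentiableAt ℂ V w ∧
      ‖V w - w‖ ≤ C₂ * ‖w‖ ^ 3 ∧ ‖V w‖ ≤ 2 * ‖w‖ ∧ V (-w) = -V w ∧
      V (starRingEnd ℂ w) = starRingEnd ℂ (V w) ∧ W (V w) = w) ∧
      (∀ᶠ x in 𝓝 (0 : ℂ), V (W x) = x) ∧ Tendsto W (𝓝 0) (𝓝 0) ∧ Tendsto V (𝓝 0) (𝓝 0) := by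
  have hball : Metric.ball (0 : ℂ) ρ ∈ 𝓝 (0 : ℂ) := Metric.ball_mem_nhds _ hρ
  have h0 : W 0 = 0 := by
    have := hW 0 (by simpa using hρ)
    simpa using this
  have hd0 : HasDerivAt W 1 0 := by
    rw [hasDerivAt_iff_isLittleO]
    have h1 : (fun z : ℂ => W z - W 0 - (z - 0) • (1 : ℂ)) =O[𝓝 0] fun z => z ^ 2 := by
      refine Asymptotics.IsBigO.of_bound C ?_
      filter_upwards [hball] with z hz
      have := hW z (by simpa using hz)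
      simpa [h0] using this
    have h2 : (fun z : ℂ => z ^ 2) =o[𝓝 0] fun z => z - 0 := by
      simp only [sub_zero]
      exact Asymptotics.isLittleO_pow_id (by norm_num)
    exact h1.trans_isLittleO h2
  have han : AnalyticAt ℂ W 0 := hd.analyticAt hball
  have hs : HasStrictDerivAt W 1 0 := by
    have := han.hasStrictDerivAt
    rwa [hd0.deriv] at this
  set e := (hs.hasStrictFDerivAt_equiv one_ne_zero).toOpenPartialHomeomorph W with he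
  have hcoe : (e : ℂ → ℂ) = W := rfl
  have hsrc : (0 : ℂ) ∈ e.source :=
    (hs.hasStrictFDerivAt_equiv one_ne_zero).mem_toOpenPartialHomeomorph_source
  have htgt : (0 : ℂ) ∈ e.target := by
    have := (hs.hasStrictFDerivAt_equiv one_ne_zero).image_mem_toOpenPartialHomeomorph_target
    rwa [h0] at this
  set V : ℂ → ℂ := (e.symm : ℂ → ℂ) with hV
  have hV0 : V 0 = 0 := by
    have := e.left_inv hsrc
    rw [hcoe, h0] at this
    exact this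
  have hVc : ContinuousAt V 0 := e.symm.continuousAt htgt
  have hVt : Tendsto V (𝓝 0) (𝓝 0) := by
    have := hVc.tendsto
    rwa [hV0] at this
  have hWt : Tendsto W (𝓝 0) (𝓝 0) := by
    have := hd0.continuousAt.tendsto
    rwa [h0] at this
  have hsrcN : e.source ∈ 𝓝 (0 : ℂ) := e.open_source.mem_nhds hsrc
  have htgtN : e.target ∈ 𝓝 (0 : ℂ) := e.open_target.mem_nhds htgt
  have hnegt : Tendsto (fun z : ℂ => -z) (𝓝 0) (𝓝 0) := by
    have : Tendsto (fun z : ℂ => -z) (𝓝 0) (𝓝 (-0)) := continuous_neg.tendsto _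
    rwa [neg_zero] at this
  have hconjt : Tendsto (fun z : ℂ => starRingEnd ℂ z) (𝓝 0) (𝓝 0) := by
    have : Tendsto (fun z : ℂ => starRingEnd ℂ z) (𝓝 0) (𝓝 (starRingEnd ℂ 0)) :=
      continuous_conj.tendsto _
    rwa [map_zero] at this
  have hball2 : ∀ᶠ w in 𝓝 (0 : ℂ), ‖V w‖ < ρ := by
    filter_upwards [hVt.eventually hball] with w hw
    simpa using hw
  have hright : ∀ᶠ w in 𝓝 (0 : ℂ), W (V w) = w := by
    filter_upwards [htgtN] with w hw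
    exact e.right_inv hw
  have hleft : ∀ᶠ x in 𝓝 (0 : ℂ), V (W x) = x := by
    filter_upwards [hsrcN] with x hx
    exact e.left_inv hx
  have hderiv : ∀ᶠ x in 𝓝 (0 : ℂ), deriv W x ≠ 0 := by
    have hc : ContinuousAt (deriv W) 0 := han.deriv.continuousAt
    have : deriv W 0 ≠ 0 := by rw [hd0.deriv]; exact one_ne_zero
    exact hc.eventually_ne this
  have hVdiff : ∀ᶠ w in 𝓝 (0 : ℂ), DifferentiableAt ℂ V w := by
    filter_upwards [htgtN, hVt.eventually hderiv, hball2] with w hw hw2 hw3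
    have hWd : HasDerivAt W (deriv W (V w)) (V w) :=
      (hd.differentiableAt (Metric.isOpen_ball.mem_nhds (by simpa using hw3))).hasDerivAt
    exact (e.hasDerivAt_symm hw hw2 hWd).differentiableAt
  have hVodd : ∀ᶠ w in 𝓝 (0 : ℂ), V (-w) = -V w := by
    filter_upwards [htgtN, hnegt.eventually htgtN, hball2, (hnegt.comp hVt).eventually hsrcN,
      (hVt.comp hnegt).eventually hsrcN] with w h1 h2 h3 h4 h5
    refine e.injOn h5 h4 ?_
    simp only [Function.comp, hcoe]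
    rw [hodd _ h3]
    have a1 : W (V (-w)) = -w := e.right_inv h2
    have a2 : W (V w) = w := e.right_inv h1
    rw [a1, a2]
  have hVconj : ∀ᶠ w in 𝓝 (0 : ℂ), V (starRingEnd ℂ w) = starRingEnd ℂ (V w) := by
    filter_upwards [htgtN, hconjt.eventually htgtN, hball2, (hconjt.comp hVt).eventually hsrcN,
      (hVt.comp hconjt).eventually hsrcN] with w h1 h2 h3 h4 h5
    refine e.injOn h5 h4 ?_
    simp only [Function.comp, hcoe]
    rw [hconj _ h3]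
    have a1 : W (V (starRingEnd ℂ w)) = starRingEnd ℂ w := e.right_inv h2
    have a2 : W (V w) = w := e.right_inv h1
    rw [a1, a2]
  have hVd1 : HasDerivAt V 1 0 := by
    have := hs.to_local_left_inverse one_ne_zero hleft
    rw [h0] at this
    simpa using this.hasDerivAt
  have hV2 : ∀ᶠ w in 𝓝 (0 : ℂ), ‖V w‖ ≤ 2 * ‖w‖ := by
    have h1 := (hasDerivAt_iff_isLittleO.1 hVd1).def (c := 1) one_pos
    filter_upwards [h1] with w hw
    have hw' : ‖V w - w‖ ≤ ‖w‖ := by simpa [hV0] using hw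
    calc ‖V w‖ = ‖(V w - w) + w‖ := by ring_nf
      _ ≤ ‖V w - w‖ + ‖w‖ := norm_add_le _ _
      _ ≤ 2 * ‖w‖ := by linarith
  -- cubic bound
  obtain ⟨r, hr, hall⟩ := Metric.eventually_nhds_iff_ball.1
    (hVdiff.and (hVodd.and (hV2.and (hball2.and hright))))
  have hg : DifferentiableOn ℂ (fun w => V w - w) (Metric.ball 0 r) := fun w hw =>
    ((hall w hw).1.sub differentiableAt_id).differentiableWithinAt
  have hgodd : ∀ z : ℂ, ‖z‖ < r → (fun w => V w - w) (-z) = -(fun w => V w - w) z := by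
    intro z hz
    have := (hall z (by simpa using hz)).2.1
    simp only [this]; ring
  have hgM : ∀ z : ℂ, ‖z‖ < r → ‖(fun w => V w - w) z‖ ≤ (4 * |C|) * ‖z‖ ^ 2 := by
    intro z hz
    obtain ⟨_, _, h2, h3, h4⟩ := hall z (by simpa using hz)
    have h5 := hW _ h3
    rw [h4] at h5
    simp only
    rw [norm_sub_rev]
    calc ‖z - V z‖ ≤ C * ‖V z‖ ^ 2 := h5
      _ ≤ |C| * ‖V z‖ ^ 2 := by gcongr; exact le_abs_self C
      _ ≤ |C| * (2 * ‖z‖) ^ 2 := by gcongr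
      _ = _ := by ring
  obtain ⟨C₂, r', hr', hcub⟩ := ev_cubic hr hg hgodd hgM
  refine ⟨V, C₂, ?_, hleft, hWt, hVt⟩
  filter_upwards [hVdiff, hVodd, hV2, hVconj, hright, Metric.ball_mem_nhds (0 : ℂ) hr'] with
    w h1 h2 h3 h4 h5 h6
  exact ⟨h1, hcub w (by simpa using h6), h3, h2, h4, h5⟩

open Filter Topology in
theorem exists_VData {Y : ℝ} (hY : 0 < Y) {T : ℂ → ℂ} (gd : GData Y T) : Nonempty (VData Y T) := by
  have hcos0 : ∀ᶠ x in 𝓝 (0 : ℂ), cos x ≠ 0 :=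
    Complex.continuous_cos.continuousAt.eventually_ne (by simp)
  have htan0 : HasDerivAt tan 1 (0 : ℂ) := by
    have := Complex.hasDerivAt_tan (x := 0) (by simp)
    simpa using this
  have htan2 : ∀ᶠ x in 𝓝 (0 : ℂ), ‖tan x‖ ≤ 2 * ‖x‖ := by
    have h1 := (hasDerivAt_iff_isLittleO.1 htan0).def (c := 1) one_pos
    filter_upwards [h1] with w hw
    have hw' : ‖tan w - w‖ ≤ ‖w‖ := by simpa using hw
    calc ‖tan w‖ = ‖(tan w - w) + w‖ := by ring_nf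
      _ ≤ ‖tan w - w‖ + ‖w‖ := norm_add_le _ _
      _ ≤ 2 * ‖w‖ := by linarith
  have htant : Tendsto (fun x : ℂ => tan x ^ 2) (𝓝 0) (𝓝 0) := by
    have := (htan0.continuousAt.tendsto).pow 2
    simpa using this
  have hβ : ∀ᶠ x in 𝓝 (0 : ℂ), ‖tan x ^ 2‖ < gd.β₁ := by
    have := htant.eventually (Metric.ball_mem_nhds (0 : ℂ) gd.β₁_pos)
    filter_upwards [this] with x hx
    simpa using hx
  have him : ∀ᶠ x in 𝓝 (0 : ℂ), |x.im| < 9 / 5 * Y := by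
    have : Tendsto (fun x : ℂ => |x.im|) (𝓝 0) (𝓝 |(0 : ℂ).im|) :=
      (continuous_abs.comp Complex.continuous_im).tendsto _
    simp only [Complex.zero_im, abs_zero] at this
    exact this.eventually_lt_const (by positivity)
  obtain ⟨ρ, hρ, hall⟩ := Metric.eventually_nhds_iff_ball.1 (hcos0.and (htan2.and (hβ.and him)))
  have hall' : ∀ x : ℂ, ‖x‖ < ρ → cos x ≠ 0 ∧ ‖tan x‖ ≤ 2 * ‖x‖ ∧ ‖tan x ^ 2‖ < gd.β₁ ∧
      |x.im| < 9 / 5 * Y := fun x hx => hall x (by simpa using hx)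
  set W : ℂ → ℂ := fun x => gd.Gh (tan x ^ 2) x with hWdef
  have hopen : IsOpen {p : ℂ × ℂ | ‖p.1‖ < gd.β₁ ∧ |p.2.im| < 9 / 5 * Y} := by
    refine IsOpen.inter ?_ ?_
    · exact isOpen_lt (continuous_fst.norm) continuous_const
    · exact isOpen_lt ((Complex.continuous_im.comp continuous_snd).abs) continuous_const
  have hWd : DifferentiableOn ℂ W (Metric.ball 0 ρ) := by
    intro x hx
    obtain ⟨h1, h2, h3, h4⟩ := hall x hx
    have hG : DifferentiableAt ℂ (fun p : ℂ × ℂ => gd.Gh p.1 p.2) (tan x ^ 2, x) :=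
      gd.Gh_diff.differentiableAt (hopen.mem_nhds ⟨h3, h4⟩)
    have hin : DifferentiableAt ℂ (fun x : ℂ => (tan x ^ 2, x)) x :=
      ((Complex.differentiableAt_tan.2 h1).pow 2).prodMk differentiableAt_id
    exact (DifferentiableAt.comp (f := fun x : ℂ => (tan x ^ 2, x)) x hG hin).differentiableWithinAt
  have hWn : ∀ x : ℂ, ‖x‖ < ρ → ‖W x - x‖ ≤ (4 * |gd.C₁|) * ‖x‖ ^ 2 := by
    intro x hx
    obtain ⟨h1, h2, h3, h4⟩ := hall' x hx
    calc ‖W x - x‖ ≤ gd.C₁ * ‖tan x ^ 2‖ := gd.Gh_near _ _ h3 h4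
      _ ≤ |gd.C₁| * ‖tan x ^ 2‖ := by gcongr; exact le_abs_self _
      _ = |gd.C₁| * ‖tan x‖ ^ 2 := by rw [norm_pow]
      _ ≤ |gd.C₁| * (2 * ‖x‖) ^ 2 := by gcongr
      _ = _ := by ring
  have hWo : ∀ x : ℂ, ‖x‖ < ρ → W (-x) = -W x := by
    intro x hx
    obtain ⟨h1, h2, h3, h4⟩ := hall' x hx
    simp only [hWdef, Complex.tan_neg, neg_sq]
    exact gd.Gh_odd _ _ h3 h4
  have hWc : ∀ x : ℂ, ‖x‖ < ρ → W (starRingEnd ℂ x) = starRingEnd ℂ (W x) := by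
    intro x hx
    obtain ⟨h1, h2, h3, h4⟩ := hall' x hx
    simp only [hWdef]
    rw [Complex.tan_conj, ← map_pow]
    exact gd.Gh_conj _ _ h3 h4
  obtain ⟨V, C₂, hV, hVW, hWt, hVt⟩ := ev_inverse hρ hWd hWn hWo hWc
  have hVb : ∀ᶠ w in 𝓝 (0 : ℂ), ‖V w‖ < ρ := by
    filter_upwards [hVt.eventually (Metric.ball_mem_nhds (0 : ℂ) hρ)] with w hw
    simpa using hw
  obtain ⟨r, hr, hr'⟩ := Metric.eventually_nhds_iff_ball.1 (hV.and hVb)
  set r₁ : ℝ := min r (min (1 / 8) (Y / 8)) with hr₁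
  have hr₁pos : 0 < r₁ := lt_min hr (lt_min (by norm_num) (by positivity))
  have hr₁a : r₁ ≤ r := min_le_left _ _
  have hr₁b : r₁ ≤ 1 / 8 := (min_le_right _ _).trans (min_le_left _ _)
  have hr₁c : r₁ ≤ Y / 8 := (min_le_right _ _).trans (min_le_right _ _)
  have hr'' : ∀ w : ℂ, ‖w‖ < r₁ → (DifferentiableAt ℂ V w ∧
      ‖V w - w‖ ≤ C₂ * ‖w‖ ^ 3 ∧ ‖V w‖ ≤ 2 * ‖w‖ ∧ V (-w) = -V w ∧
      V (starRingEnd ℂ w) = starRingEnd ℂ (V w) ∧ W (V w) = w) ∧ ‖V w‖ < ρ := by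
    intro w hw
    exact hr' w (by simpa using hw.trans_le hr₁a)
  have hxx : ∀ᶠ x in 𝓝 (0 : ℂ), ‖tan x ^ 2‖ < gd.β₁ ∧ ‖W x‖ < r₁ ∧ V (W x) = x := by
    have hWb : ∀ᶠ x in 𝓝 (0 : ℂ), ‖W x‖ < r₁ := by
      filter_upwards [hWt.eventually (Metric.ball_mem_nhds (0 : ℂ) hr₁pos)] with w hw
      simpa using hw
    exact hβ.and (hWb.and hVW)
  obtain ⟨x₀, hx₀, hx₀'⟩ := Metric.eventually_nhds_iff_ball.1 hxx
  refine ⟨{ toGData := gd, r₁ := r₁, x₁ := min x₀ (1 / 8), C₂ := C₂, V := V,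
            r₁_pos := hr₁pos, r₁_le := hr₁b, r₁_le' := hr₁c,
            x₁_pos := lt_min hx₀ (by norm_num), x₁_le := min_le_right _ _,
            V_diff := ?_, V_near := ?_, V_norm := ?_, V_odd := ?_, V_conj := ?_,
            tan_lt := ?_, Gh_V := ?_, V_W := ?_ }⟩
  · intro w hw
    exact (hr'' w (by simpa using hw)).1.1.differentiableWithinAt
  · exact fun w hw => (hr'' w hw).1.2.1
  · intro w hw
    have h := (hr'' w hw).1.2.2.1
    exact ⟨h, by linarith, by linarith⟩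
  · exact fun w hw => (hr'' w hw).1.2.2.2.1
  · exact fun w hw => (hr'' w hw).1.2.2.2.2.1
  · exact fun w hw => (hall' _ (hr'' w hw).2).2.2.1
  · exact fun w hw => (hr'' w hw).1.2.2.2.2.2
  · intro x hx
    exact hx₀' x (by simpa using hx.trans_le (min_le_left _ _))

end LSB
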