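import Pool.Agent.LSB.Defs

/-!
# Ellipse facts (step A2 of the header of `TopA.lean`)
-/

namespace LSB.El

open Real MeasureTheory intervalIntegral

/-- The standing hypotheses. -/
structure EH (a b l : ℝ) : Prop where
  hb : 0 < b
  hab : b < a
  hl : 0 < l
  hlb : l < b

/-- The derivative of `hE`. -/
noncomputable def hE' (a b ψ : ℝ) : ℝ :=
  -((a ^ 2 - b ^ 2) * Real.sin ψ * Real.cos ψ) / hE a b ψ

/-- Half of the turning angle at the bounce point with normal angle `ψ`. -/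
noncomputable def DE (a b l ψ : ℝ) : ℝ := Real.arcsin (l * hE a b ψ / (a * b))

/-- The derivative of `DE`. -/
noncomputable def DE' (a b l ψ : ℝ) : ℝ :=
  hE' a b ψ * Real.sin (DE a b l ψ) / (hE a b ψ * Real.cos (DE a b l ψ))

/-- Support function of the confocal caustic. -/
noncomputable def PE (a b l x : ℝ) : ℝ := √(hE a b x ^ 2 - l ^ 2)

/-- The angle coordinate on the normal angles of the lines. -/
noncomputable def TE (a b l x : ℝ) : ℝ := cE a b l * ∫ t in (0 : ℝ)..x, 1 / PE a b l t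

theorem hE_sq (a b ψ : ℝ) :
    hE a b ψ ^ 2 = a ^ 2 * Real.cos ψ ^ 2 + b ^ 2 * Real.sin ψ ^ 2 :=
  Real.sq_sqrt (by positivity)

theorem hE_add_two_pi (a b ψ : ℝ) : hE a b (ψ + 2 * π) = hE a b ψ := by
  rw [hE, hE, Real.cos_add_two_pi, Real.sin_add_two_pi]

theorem hE_neg (a b ψ : ℝ) : hE a b (-ψ) = hE a b ψ := by
  rw [hE, hE, Real.cos_neg, Real.sin_neg, neg_sq]

theorem hE'_add_two_pi (a b ψ : ℝ) : hE' a b (ψ + 2 * π) = hE' a b ψ := by
  rw [hE', hE', hE_add_two_pi, Real.cos_add_two_pi, Real.sin_add_two_pi]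

theorem DE_add_two_pi (a b l ψ : ℝ) : DE a b l (ψ + 2 * π) = DE a b l ψ := by
  rw [DE, DE, hE_add_two_pi]

theorem DE_neg (a b l ψ : ℝ) : DE a b l (-ψ) = DE a b l ψ := by
  rw [DE, DE, hE_neg]

theorem PE_add_two_pi (a b l ψ : ℝ) : PE a b l (ψ + 2 * π) = PE a b l ψ := by
  rw [PE, PE, hE_add_two_pi]

theorem PE_neg (a b l ψ : ℝ) : PE a b l (-ψ) = PE a b l ψ := by
  rw [PE, PE, hE_neg]

theorem wE_add_two_pi (a b l ψ : ℝ) : wE a b l (ψ + 2 * π) = wE a b l ψ := by
  rw [wE, wE, hE_add_two_pi]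

section

variable {a b l : ℝ}

theorem EH.ha (H : EH a b l) : 0 < a := H.hb.trans H.hab

theorem EH.hla (H : EH a b l) : l < a := H.hlb.trans H.hab

theorem hE_ge (hb : 0 < b) (hab : b < a) (ψ : ℝ) : b ≤ hE a b ψ := by
  rw [hE]
  apply Real.le_sqrt_of_sq_le
  have h1 := Real.sin_sq_add_cos_sq ψ
  have h2 : 0 ≤ (a ^ 2 - b ^ 2) * Real.cos ψ ^ 2 :=
    mul_nonneg (by nlinarith) (sq_nonneg _)
  nlinarith

theorem hE_le (hb : 0 < b) (hab : b < a) (ψ : ℝ) : hE a b ψ ≤ a := by
  rw [hE]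
  apply Real.sqrt_le_iff.mpr
  have h1 := Real.sin_sq_add_cos_sq ψ
  have h2 : 0 ≤ (a ^ 2 - b ^ 2) * Real.sin ψ ^ 2 :=
    mul_nonneg (by nlinarith) (sq_nonneg _)
  constructor
  · linarith
  · nlinarith

theorem hE_pos (hb : 0 < b) (hab : b < a) (ψ : ℝ) : 0 < hE a b ψ :=
  lt_of_lt_of_le hb (hE_ge hb hab ψ)

theorem hasDerivAt_hE (hb : 0 < b) (hab : b < a) (ψ : ℝ) :
    HasDerivAt (hE a b) (hE' a b ψ) ψ := by
  have hpos : 0 < a ^ 2 * Real.cos ψ ^ 2 + b ^ 2 * Real.sin ψ ^ 2 := by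
    rw [← hE_sq]
    exact pow_pos (hE_pos hb hab ψ) 2
  have h1 : HasDerivAt (fun ψ : ℝ => a ^ 2 * Real.cos ψ ^ 2 + b ^ 2 * Real.sin ψ ^ 2)
      (a ^ 2 * (2 * Real.cos ψ * (-Real.sin ψ)) + b ^ 2 * (2 * Real.sin ψ * Real.cos ψ)) ψ := by
    have hc := ((Real.hasDerivAt_cos ψ).pow 2).const_mul (a ^ 2)
    have hs := ((Real.hasDerivAt_sin ψ).pow 2).const_mul (b ^ 2)
    have := hc.add hs
    refine this.congr_deriv ?_
    norm_num
  have h2 := h1.sqrt hpos.ne'
  refine h2.congr_deriv ?_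
  rw [hE', hE]
  have h3 : √(a ^ 2 * Real.cos ψ ^ 2 + b ^ 2 * Real.sin ψ ^ 2) ≠ 0 :=
    (Real.sqrt_pos.mpr hpos).ne'
  field_simp
  ring

theorem deriv_hE (hb : 0 < b) (hab : b < a) (ψ : ℝ) : deriv (hE a b) ψ = hE' a b ψ :=
  (hasDerivAt_hE hb hab ψ).deriv

theorem continuous_hE (a b : ℝ) : Continuous (hE a b) := by
  unfold hE
  fun_prop

theorem arg_pos (H : EH a b l) (ψ : ℝ) : 0 < l * hE a b ψ / (a * b) :=
  div_pos (mul_pos H.hl (hE_pos H.hb H.hab ψ)) (mul_pos H.ha H.hb)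

theorem arg_lt_one (H : EH a b l) (ψ : ℝ) : l * hE a b ψ / (a * b) < 1 := by
  rw [div_lt_one (mul_pos H.ha H.hb)]
  have h1 := hE_le H.hb H.hab ψ
  calc l * hE a b ψ ≤ l * a := by
        have := H.hl
        gcongr
    _ < b * a := by
        have := H.hlb
        have := H.ha
        gcongr
    _ = a * b := mul_comm _ _

theorem sin_DE (H : EH a b l) (ψ : ℝ) : Real.sin (DE a b l ψ) = l * hE a b ψ / (a * b) :=
  Real.sin_arcsin (by linarith [arg_pos H ψ]) (arg_lt_one H ψ).le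

theorem DE_pos (H : EH a b l) (ψ : ℝ) : 0 < DE a b l ψ :=
  Real.arcsin_pos.mpr (arg_pos H ψ)

theorem DE_lt (H : EH a b l) (ψ : ℝ) : DE a b l ψ < π / 2 :=
  Real.arcsin_lt_pi_div_two.mpr (arg_lt_one H ψ)

theorem cos_DE_pos (H : EH a b l) (ψ : ℝ) : 0 < Real.cos (DE a b l ψ) :=
  Real.cos_pos_of_mem_Ioo ⟨by linarith [DE_pos H ψ, Real.pi_pos], DE_lt H ψ⟩

theorem sin_DE_pos (H : EH a b l) (ψ : ℝ) : 0 < Real.sin (DE a b l ψ) := by
  rw [sin_DE H]; exact arg_pos H ψ

theorem wE_eq (a b l : ℝ) (ψ : ℝ) :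
    wE a b l ψ = 1 / (hE a b ψ * Real.cos (DE a b l ψ)) := by
  rw [wE, DE, Real.cos_arcsin]
  congr 4
  rw [div_pow, mul_pow, mul_pow]

theorem wE_pos (H : EH a b l) (ψ : ℝ) : 0 < wE a b l ψ := by
  rw [wE_eq]
  exact one_div_pos.mpr (mul_pos (hE_pos H.hb H.hab ψ) (cos_DE_pos H ψ))

theorem hasDerivAt_DE (H : EH a b l) (ψ : ℝ) :
    HasDerivAt (DE a b l) (DE' a b l ψ) ψ := by
  have h1 : HasDerivAt (fun ψ => l * hE a b ψ / (a * b)) (l * hE' a b ψ / (a * b)) ψ :=
    ((hasDerivAt_hE H.hb H.hab ψ).const_mul l).div_const (a * b)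
  have h2 := Real.hasDerivAt_arcsin (x := l * hE a b ψ / (a * b))
    (by linarith [arg_pos H ψ]) (arg_lt_one H ψ).ne
  have h3 := h2.comp ψ h1
  refine h3.congr_deriv ?_
  rw [DE', sin_DE H, ← Real.cos_arcsin]
  have h4 := (cos_DE_pos H ψ).ne'
  have h5 := (hE_pos H.hb H.hab ψ).ne'
  rw [DE] at h4 ⊢
  have ha := H.ha.ne'
  have hb := H.hb.ne'
  field_simp

theorem continuous_DE (H : EH a b l) : Continuous (DE a b l) :=
  continuous_iff_continuousAt.mpr fun ψ => (hasDerivAt_DE H ψ).continuousAt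

theorem continuous_hE' (hb : 0 < b) (hab : b < a) : Continuous (hE' a b) := by
  unfold hE'
  exact Continuous.div (by fun_prop) (continuous_hE a b) fun ψ => (hE_pos hb hab ψ).ne'

theorem continuous_DE' (H : EH a b l) : Continuous (DE' a b l) := by
  unfold DE'
  refine Continuous.div ?_ ?_ ?_
  · exact (continuous_hE' H.hb H.hab).mul (Real.continuous_sin.comp (continuous_DE H))
  · exact (continuous_hE a b).mul (Real.continuous_cos.comp (continuous_DE H))
  · exact fun ψ => (mul_pos (hE_pos H.hb H.hab ψ) (cos_DE_pos H ψ)).ne'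

theorem continuous_wE (H : EH a b l) : Continuous (wE a b l) := by
  have : wE a b l = fun ψ => 1 / (hE a b ψ * Real.cos (DE a b l ψ)) := funext (wE_eq a b l)
  rw [this]
  refine Continuous.div continuous_const ?_ ?_
  · exact (continuous_hE a b).mul (Real.continuous_cos.comp (continuous_DE H))
  · exact fun ψ => (mul_pos (hE_pos H.hb H.hab ψ) (cos_DE_pos H ψ)).ne'

/-- The addition formula. -/
theorem line_sq (hb : 0 < b) (hab : b < a) (ψ δ : ℝ) :
    (hE a b ψ * Real.cos δ + hE' a b ψ * Real.sin δ) ^ 2 =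
      hE a b (ψ + δ) ^ 2 - a ^ 2 * b ^ 2 * Real.sin δ ^ 2 / hE a b ψ ^ 2 := by
  have h0 := (hE_pos hb hab ψ).ne'
  have h1 := hE_sq a b ψ
  have h2 := hE_sq a b (ψ + δ)
  have h3 := Real.sin_sq_add_cos_sq ψ
  rw [h2, Real.cos_add, Real.sin_add, hE']
  set C := Real.cos ψ
  set S := Real.sin ψ
  set c := Real.cos δ
  set s := Real.sin δ
  set h := hE a b ψ
  have h4 : (h ^ 2 * c - (a ^ 2 - b ^ 2) * S * C * s) ^ 2 =
      h ^ 2 * (a ^ 2 * (C * c - S * s) ^ 2 + b ^ 2 * (S * c + C * s) ^ 2) -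
        a ^ 2 * b ^ 2 * s ^ 2 := by
    have e1 : C * (S * c + C * s) - S * (C * c - S * s) = s := by linear_combination s * h3
    have e2 : (a ^ 2 * C * (C * c - S * s) + b ^ 2 * S * (S * c + C * s)) ^ 2 =
        (a ^ 2 * C ^ 2 + b ^ 2 * S ^ 2) *
          (a ^ 2 * (C * c - S * s) ^ 2 + b ^ 2 * (S * c + C * s) ^ 2) -
        a ^ 2 * b ^ 2 * (C * (S * c + C * s) - S * (C * c - S * s)) ^ 2 := by ring
    rw [e1] at e2
    rw [h1, ← e2]
    ring
  have h5 : h * c + -((a ^ 2 - b ^ 2) * S * C) / h * s =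
      (h ^ 2 * c - (a ^ 2 - b ^ 2) * S * C * s) / h := by
    field_simp
    ring
  rw [h5, div_pow, h4]
  field_simp

theorem line_abs (H : EH a b l) (ψ : ℝ) :
    |hE' a b ψ * Real.sin (DE a b l ψ)| < hE a b ψ * Real.cos (DE a b l ψ) := by
  have h0 := hE_pos H.hb H.hab ψ
  have hc := cos_DE_pos H ψ
  apply abs_lt_of_sq_lt_sq _ (mul_pos h0 hc).le
  have h1 := hE_sq a b ψ
  have h3 := Real.sin_sq_add_cos_sq ψ
  have h4 : Real.cos (DE a b l ψ) ^ 2 = 1 - (l * hE a b ψ / (a * b)) ^ 2 := by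
    rw [← sin_DE H, Real.cos_sq']
  rw [mul_pow, mul_pow, h4, sin_DE H, hE']
  set C := Real.cos ψ
  set S := Real.sin ψ
  set h := hE a b ψ
  have ha := H.ha
  have hb := H.hb
  have hl := H.hl
  have hlb := H.hlb
  have hla := H.hla
  have key : 0 < C ^ 2 * (a ^ 4 * (b ^ 2 - l ^ 2)) + S ^ 2 * (b ^ 4 * (a ^ 2 - l ^ 2)) := by
    have p1 : 0 < a ^ 4 * (b ^ 2 - l ^ 2) := mul_pos (pow_pos ha 4) (by nlinarith)
    have p2 : 0 < b ^ 4 * (a ^ 2 - l ^ 2) := mul_pos (pow_pos hb 4) (by nlinarith)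
    rcases eq_or_ne C 0 with hC | hC
    · have : S ^ 2 = 1 := by rw [hC] at h3; linarith
      rw [hC, this]
      nlinarith
    · have hC2 : 0 < C ^ 2 := by positivity
      have : 0 ≤ S ^ 2 * (b ^ 4 * (a ^ 2 - l ^ 2)) := mul_nonneg (sq_nonneg _) p2.le
      nlinarith [mul_pos hC2 p1]
  have e1 : h ^ 2 * (1 - (l * h / (a * b)) ^ 2) -
      (-((a ^ 2 - b ^ 2) * S * C) / h) ^ 2 * (l * h / (a * b)) ^ 2 =
      (C ^ 2 * (a ^ 4 * (b ^ 2 - l ^ 2)) + S ^ 2 * (b ^ 4 * (a ^ 2 - l ^ 2))) /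
        (a ^ 2 * b ^ 2) := by
    have h0' := h0.ne'
    have ha' := ha.ne'
    have hb' := hb.ne'
    have e2 : h ^ 2 * (1 - (l * h / (a * b)) ^ 2) -
      (-((a ^ 2 - b ^ 2) * S * C) / h) ^ 2 * (l * h / (a * b)) ^ 2 =
      (a ^ 2 * b ^ 2 * h ^ 2 - l ^ 2 * (h ^ 2) ^ 2 - (a ^ 2 - b ^ 2) ^ 2 * S ^ 2 * C ^ 2 * l ^ 2) /
        (a ^ 2 * b ^ 2) := by
      field_simp
    rw [e2, h1]
    congr 1
    have e3 : S ^ 2 = 1 - C ^ 2 := by linarith
    rw [e3]
    ring
  have e4 : 0 < (C ^ 2 * (a ^ 4 * (b ^ 2 - l ^ 2)) + S ^ 2 * (b ^ 4 * (a ^ 2 - l ^ 2))) /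
        (a ^ 2 * b ^ 2) := by positivity
  linarith

theorem PE_add (H : EH a b l) (ψ : ℝ) :
    PE a b l (ψ + DE a b l ψ) =
      hE a b ψ * Real.cos (DE a b l ψ) + hE' a b ψ * Real.sin (DE a b l ψ) := by
  have h0 := (hE_pos H.hb H.hab ψ).ne'
  have h1 := line_sq H.hb H.hab ψ (DE a b l ψ)
  have h2 := (abs_lt.mp (line_abs H ψ)).1
  have h3 : a ^ 2 * b ^ 2 * Real.sin (DE a b l ψ) ^ 2 / hE a b ψ ^ 2 = l ^ 2 := by
    rw [sin_DE H]
    have ha := H.ha.ne'
    have hb := H.hb.ne'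
    field_simp
  rw [h3] at h1
  rw [PE, ← h1, Real.sqrt_sq (by linarith)]

theorem PE_sub (H : EH a b l) (ψ : ℝ) :
    PE a b l (ψ - DE a b l ψ) =
      hE a b ψ * Real.cos (DE a b l ψ) - hE' a b ψ * Real.sin (DE a b l ψ) := by
  have h0 := (hE_pos H.hb H.hab ψ).ne'
  have h1 := line_sq H.hb H.hab ψ (-DE a b l ψ)
  have h2 := (abs_lt.mp (line_abs H ψ)).2
  rw [Real.cos_neg, Real.sin_neg, neg_sq] at h1
  have h3 : a ^ 2 * b ^ 2 * Real.sin (DE a b l ψ) ^ 2 / hE a b ψ ^ 2 = l ^ 2 := by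
    rw [sin_DE H]
    have ha := H.ha.ne'
    have hb := H.hb.ne'
    field_simp
  rw [h3, ← sub_eq_add_neg] at h1
  rw [PE, ← h1, mul_neg, ← sub_eq_add_neg, Real.sqrt_sq (by linarith)]

theorem PE_pos (H : EH a b l) (x : ℝ) : 0 < PE a b l x := by
  apply Real.sqrt_pos.mpr
  have h1 := hE_ge H.hb H.hab x
  have h2 := H.hl
  have h3 := H.hlb
  have h4 := H.hb
  nlinarith

theorem continuous_PE (a b l : ℝ) : Continuous (PE a b l) := by
  unfold PE
  exact ((continuous_hE a b).pow 2 |>.sub continuous_const).sqrt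

theorem one_add_DE' (H : EH a b l) (ψ : ℝ) :
    1 + DE' a b l ψ = PE a b l (ψ + DE a b l ψ) * wE a b l ψ := by
  rw [PE_add H, wE_eq, DE']
  have h0 := (hE_pos H.hb H.hab ψ).ne'
  have h1 := (cos_DE_pos H ψ).ne'
  field_simp

theorem one_sub_DE' (H : EH a b l) (ψ : ℝ) :
    1 - DE' a b l ψ = PE a b l (ψ - DE a b l ψ) * wE a b l ψ := by
  rw [PE_sub H, wE_eq, DE']
  have h0 := (hE_pos H.hb H.hab ψ).ne'
  have h1 := (cos_DE_pos H ψ).ne'
  field_simp

theorem hasDerivAt_add (H : EH a b l) (ψ : ℝ) :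
    HasDerivAt (fun ψ => ψ + DE a b l ψ) (PE a b l (ψ + DE a b l ψ) * wE a b l ψ) ψ := by
  rw [← one_add_DE' H]
  exact (hasDerivAt_id ψ).add (hasDerivAt_DE H ψ)

theorem hasDerivAt_sub (H : EH a b l) (ψ : ℝ) :
    HasDerivAt (fun ψ => ψ - DE a b l ψ) (PE a b l (ψ - DE a b l ψ) * wE a b l ψ) ψ := by
  rw [← one_sub_DE' H]
  exact (hasDerivAt_id ψ).sub (hasDerivAt_DE H ψ)

theorem strictMono_add (H : EH a b l) : StrictMono fun ψ => ψ + DE a b l ψ :=
  strictMono_of_hasDerivAt_pos (fun ψ => hasDerivAt_add H ψ)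
    fun ψ => mul_pos (PE_pos H _) (wE_pos H ψ)

theorem strictMono_sub (H : EH a b l) : StrictMono fun ψ => ψ - DE a b l ψ :=
  strictMono_of_hasDerivAt_pos (fun ψ => hasDerivAt_sub H ψ)
    fun ψ => mul_pos (PE_pos H _) (wE_pos H ψ)

theorem surjective_sub (H : EH a b l) : Function.Surjective fun ψ => ψ - DE a b l ψ := by
  refine Continuous.surjective (continuous_id.sub (continuous_DE H)) ?_ ?_
  · refine Filter.tendsto_atTop_mono (f := fun ψ : ℝ => ψ + (-(π / 2))) (fun ψ => ?_)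
      (Filter.tendsto_atTop_add_const_right _ _ Filter.tendsto_id)
    show ψ + (-(π / 2)) ≤ ψ - DE a b l ψ
    linarith [DE_lt H ψ]
  · refine Filter.tendsto_atBot_mono (f := fun ψ : ℝ => ψ) (fun ψ => ?_) Filter.tendsto_id
    show ψ - DE a b l ψ ≤ ψ
    linarith [DE_pos H ψ]

theorem surjective_add (H : EH a b l) : Function.Surjective fun ψ => ψ + DE a b l ψ := by
  refine Continuous.surjective (continuous_id.add (continuous_DE H)) ?_ ?_
  · refine Filter.tendsto_atTop_mono (f := fun ψ : ℝ => ψ) (fun ψ => ?_) Filter.tendsto_id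
    show ψ ≤ ψ + DE a b l ψ
    linarith [DE_pos H ψ]
  · refine Filter.tendsto_atBot_mono (f := fun ψ : ℝ => ψ + π / 2) (fun ψ => ?_)
      (Filter.tendsto_atBot_add_const_right _ _ Filter.tendsto_id)
    show ψ + DE a b l ψ ≤ ψ + π / 2
    linarith [DE_lt H ψ]

theorem continuous_inv_PE (H : EH a b l) : Continuous fun t => 1 / PE a b l t :=
  continuous_const.div (continuous_PE a b l) fun t => (PE_pos H t).ne'

theorem hasDerivAt_int_PE (H : EH a b l) (x : ℝ) :
    HasDerivAt (fun x => ∫ t in (0 : ℝ)..x, 1 / PE a b l t) (1 / PE a b l x) x :=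
  intervalIntegral.integral_hasDerivAt_right ((continuous_inv_PE H).intervalIntegrable _ _)
    (continuous_inv_PE H).aestronglyMeasurable.stronglyMeasurableAtFilter
    (continuous_inv_PE H).continuousAt

theorem hasDerivAt_int_wE (H : EH a b l) (x : ℝ) :
    HasDerivAt (fun x => ∫ t in (0 : ℝ)..x, wE a b l t) (wE a b l x) x :=
  intervalIntegral.integral_hasDerivAt_right ((continuous_wE H).intervalIntegrable _ _)
    (continuous_wE H).aestronglyMeasurable.stronglyMeasurableAtFilter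
    (continuous_wE H).continuousAt

theorem hasDerivAt_TE (H : EH a b l) (x : ℝ) :
    HasDerivAt (TE a b l) (cE a b l * (1 / PE a b l x)) x :=
  (hasDerivAt_int_PE H x).const_mul _

theorem hasDerivAt_BE (H : EH a b l) (x : ℝ) :
    HasDerivAt (BE a b l) (cE a b l * wE a b l x) x :=
  (hasDerivAt_int_wE H x).const_mul _

theorem int_wE_pos (H : EH a b l) : 0 < ∫ t in (0 : ℝ)..(2 * π), wE a b l t :=
  intervalIntegral.intervalIntegral_pos_of_pos ((continuous_wE H).intervalIntegrable _ _)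
    (fun x => wE_pos H x) (by positivity)

theorem cE_pos (H : EH a b l) : 0 < cE a b l := div_pos (by positivity) (int_wE_pos H)

theorem cE_mul (H : EH a b l) : cE a b l * ∫ t in (0 : ℝ)..(2 * π), wE a b l t = 2 * π := by
  rw [cE]
  exact div_mul_cancel₀ _ (int_wE_pos H).ne'

theorem BE_zero (a b l : ℝ) : BE a b l 0 = 0 := by
  rw [BE, intervalIntegral.integral_same, mul_zero]

theorem BE_two_pi (H : EH a b l) : BE a b l (2 * π) = 2 * π := cE_mul H

/-- `I (ψ + D) = I (D 0) + ∫ w`. -/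
theorem int_add (H : EH a b l) (ψ : ℝ) :
    (∫ t in (0 : ℝ)..(ψ + DE a b l ψ), 1 / PE a b l t) =
      (∫ t in (0 : ℝ)..(DE a b l 0), 1 / PE a b l t) + ∫ t in (0 : ℝ)..ψ, wE a b l t := by
  have hd : ∀ x, HasDerivAt (fun ψ => (∫ t in (0 : ℝ)..(ψ + DE a b l ψ), 1 / PE a b l t) -
      ∫ t in (0 : ℝ)..ψ, wE a b l t) 0 x := by
    intro x
    have h1 := (hasDerivAt_int_PE H (x + DE a b l x)).comp x (hasDerivAt_add H x)
    have h2 := h1.sub (hasDerivAt_int_wE H x)
    refine h2.congr_deriv ?_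
    have := (PE_pos H (x + DE a b l x)).ne'
    field_simp
    ring
  have h1 := is_const_of_deriv_eq_zero (fun x => (hd x).differentiableAt)
    (fun x => (hd x).deriv) ψ 0
  simp only [zero_add, intervalIntegral.integral_same, sub_zero] at h1
  linarith

theorem int_sub (H : EH a b l) (ψ : ℝ) :
    (∫ t in (0 : ℝ)..(ψ - DE a b l ψ), 1 / PE a b l t) =
      (∫ t in (0 : ℝ)..(-DE a b l 0), 1 / PE a b l t) + ∫ t in (0 : ℝ)..ψ, wE a b l t := by
  have hd : ∀ x, HasDerivAt (fun ψ => (∫ t in (0 : ℝ)..(ψ - DE a b l ψ), 1 / PE a b l t) -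
      ∫ t in (0 : ℝ)..ψ, wE a b l t) 0 x := by
    intro x
    have h1 := (hasDerivAt_int_PE H (x - DE a b l x)).comp x (hasDerivAt_sub H x)
    have h2 := h1.sub (hasDerivAt_int_wE H x)
    refine h2.congr_deriv ?_
    have := (PE_pos H (x - DE a b l x)).ne'
    field_simp
    ring
  have h1 := is_const_of_deriv_eq_zero (fun x => (hd x).differentiableAt)
    (fun x => (hd x).deriv) ψ 0
  simp only [zero_sub, intervalIntegral.integral_same, sub_zero] at h1
  linarith

theorem int_PE_neg (a b l x : ℝ) :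
    (∫ t in (0 : ℝ)..(-x), 1 / PE a b l t) = -∫ t in (0 : ℝ)..x, 1 / PE a b l t := by
  have h1 := intervalIntegral.integral_comp_neg (f := fun t => 1 / PE a b l t) (a := 0) (b := x)
  simp only [PE_neg, neg_zero] at h1
  rw [h1, intervalIntegral.integral_symm]

theorem TE_neg (a b l x : ℝ) : TE a b l (-x) = -TE a b l x := by
  rw [TE, TE, int_PE_neg, mul_neg]

theorem TE_add' (H : EH a b l) (ψ : ℝ) :
    TE a b l (ψ + DE a b l ψ) = BE a b l ψ + TE a b l (DE a b l 0) := by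
  rw [TE, int_add H, mul_add, TE, BE, add_comm]

theorem TE_sub' (H : EH a b l) (ψ : ℝ) :
    TE a b l (ψ - DE a b l ψ) = BE a b l ψ - TE a b l (DE a b l 0) := by
  rw [TE, int_sub H, mul_add, int_PE_neg, mul_neg, TE, BE]
  ring

theorem int_PE_period (a b l x : ℝ) :
    (∫ t in x..(x + 2 * π), 1 / PE a b l t) = ∫ t in (0 : ℝ)..(2 * π), 1 / PE a b l t := by
  have hper : Function.Periodic (fun t => 1 / PE a b l t) (2 * π) := by
    intro t
    simp only [PE_add_two_pi]
  have := hper.intervalIntegral_add_eq x 0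
  rwa [zero_add] at this

theorem int_PE_eq (H : EH a b l) :
    (∫ t in (0 : ℝ)..(2 * π), 1 / PE a b l t) = ∫ t in (0 : ℝ)..(2 * π), wE a b l t := by
  have h1 := int_add H (2 * π)
  have h2 : DE a b l (2 * π) = DE a b l 0 := by
    have := DE_add_two_pi a b l 0
    rwa [zero_add] at this
  rw [h2] at h1
  have h3 := intervalIntegral.integral_add_adjacent_intervals
    ((continuous_inv_PE H).intervalIntegrable (μ := volume) 0 (DE a b l 0))
    ((continuous_inv_PE H).intervalIntegrable (μ := volume) (DE a b l 0) (DE a b l 0 + 2 * π))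
  rw [int_PE_period, add_comm (DE a b l 0) (2 * π), h1] at h3
  linarith

theorem TE_two_pi (H : EH a b l) (x : ℝ) : TE a b l (x + 2 * π) = TE a b l x + 2 * π := by
  have h3 := intervalIntegral.integral_add_adjacent_intervals
    ((continuous_inv_PE H).intervalIntegrable (μ := volume) 0 x)
    ((continuous_inv_PE H).intervalIntegrable (μ := volume) x (x + 2 * π))
  rw [TE, ← h3, int_PE_period, int_PE_eq H, mul_add, cE_mul H, TE]

theorem BE_add_two_pi (H : EH a b l) (x : ℝ) : BE a b l (x + 2 * π) = BE a b l x + 2 * π := by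
  have h1 := TE_add' H (x + 2 * π)
  have h2 := TE_add' H x
  rw [DE_add_two_pi, show x + 2 * π + DE a b l x = x + DE a b l x + 2 * π by ring,
    TE_two_pi H, h2] at h1
  linarith

theorem strictMono_TE (H : EH a b l) : StrictMono (TE a b l) :=
  strictMono_of_hasDerivAt_pos (fun x => hasDerivAt_TE H x)
    fun x => mul_pos (cE_pos H) (one_div_pos.mpr (PE_pos H x))

theorem strictMono_BE (H : EH a b l) : StrictMono (BE a b l) :=
  strictMono_of_hasDerivAt_pos (fun x => hasDerivAt_BE H x)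
    fun x => mul_pos (cE_pos H) (wE_pos H x)

theorem TE_zero (a b l : ℝ) : TE a b l 0 = 0 := by
  rw [TE, intervalIntegral.integral_same, mul_zero]

/-- The rotation formula. -/
theorem TE_DE_zero (H : EH a b l) : TE a b l (DE a b l 0) = π * omE a b l := by
  have ha := H.ha
  have hb := H.hb
  have hl := H.hl
  have hlb := H.hlb
  have hla := H.hla
  set k := √(b ^ 2 - l ^ 2) with hk
  have hk2 : k ^ 2 = b ^ 2 - l ^ 2 := Real.sq_sqrt (by nlinarith)
  have hk0 : 0 < k := Real.sqrt_pos.mpr (by nlinarith)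
  -- the substitution
  have hM : ∀ t : ℝ, 0 < b ^ 2 - l ^ 2 * Real.sin t ^ 2 := by
    intro t
    have := Real.sin_sq_le_one t
    nlinarith [sq_nonneg l]
  have hN : ∀ t : ℝ, 0 < a ^ 2 - l ^ 2 * Real.sin t ^ 2 := by
    intro t
    have := Real.sin_sq_le_one t
    nlinarith [sq_nonneg l]
  have hden : ∀ t : ℝ, 1 + (l * Real.cos t / k) ^ 2 = (b ^ 2 - l ^ 2 * Real.sin t ^ 2) / k ^ 2 := by
    intro t
    have h1 := Real.sin_sq_add_cos_sq t
    rw [div_pow]
    field_simp
    rw [hk2]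
    have : Real.cos t ^ 2 = 1 - Real.sin t ^ 2 := by linarith
    rw [this]
    ring
  have hφ : ∀ t : ℝ, HasDerivAt (fun t => Real.arctan (l * Real.cos t / k))
      (-(l * Real.sin t * k) / (b ^ 2 - l ^ 2 * Real.sin t ^ 2)) t := by
    intro t
    have h1 : HasDerivAt (fun t => l * Real.cos t / k) (l * (-Real.sin t) / k) t :=
      ((Real.hasDerivAt_cos t).const_mul l).div_const k
    have h2 := h1.arctan
    refine h2.congr_deriv ?_
    rw [hden t]
    have := (hM t).ne'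
    field_simp
  have hcomp := intervalIntegral.integral_comp_mul_deriv (a := 0) (b := π / 2)
    (f := fun t => Real.arctan (l * Real.cos t / k))
    (f' := fun t => -(l * Real.sin t * k) / (b ^ 2 - l ^ 2 * Real.sin t ^ 2))
    (g := fun x => 1 / PE a b l x) (fun t _ => hφ t)
    (by
      refine Continuous.continuousOn (Continuous.div (by fun_prop) (by fun_prop) fun t => ?_)
      exact (hM t).ne') (continuous_inv_PE H)
  have e0 : Real.arctan (l * Real.cos 0 / k) = DE a b l 0 := by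
    rw [DE, Real.arcsin_eq_arctan]
    · congr 1
      have e1 : l * hE a b 0 / (a * b) = l / b := by
        rw [hE, Real.cos_zero, Real.sin_zero]
        have : √(a ^ 2 * 1 ^ 2 + b ^ 2 * 0 ^ 2) = a := by
          rw [show a ^ 2 * 1 ^ 2 + b ^ 2 * 0 ^ 2 = a ^ 2 by ring, Real.sqrt_sq ha.le]
        rw [this]
        field_simp
      rw [e1, Real.cos_zero, mul_one]
      have e2 : √(1 - (l / b) ^ 2) = k / b := by
        rw [show 1 - (l / b) ^ 2 = (k / b) ^ 2 by
          rw [div_pow, div_pow, hk2]; field_simp, Real.sqrt_sq (by positivity)]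
      rw [e2]
      field_simp
    · exact ⟨by linarith [arg_pos H 0], arg_lt_one H 0⟩
  have e1 : Real.arctan (l * Real.cos (π / 2) / k) = 0 := by
    rw [Real.cos_pi_div_two, mul_zero, zero_div, Real.arctan_zero]
  rw [e0, e1, intervalIntegral.integral_symm 0 (DE a b l 0)] at hcomp
  have hint : ∀ t : ℝ, ((fun x => 1 / PE a b l x) ∘ fun t => Real.arctan (l * Real.cos t / k)) t *
      (-(l * Real.sin t * k) / (b ^ 2 - l ^ 2 * Real.sin t ^ 2)) =
      -(l * Real.sin t / √((a ^ 2 - l ^ 2 * Real.sin t ^ 2) *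
        (b ^ 2 - l ^ 2 * Real.sin t ^ 2))) := by
    intro t
    have hM' := hM t
    have hN' := hN t
    set M := b ^ 2 - l ^ 2 * Real.sin t ^ 2 with hMd
    set N := a ^ 2 - l ^ 2 * Real.sin t ^ 2 with hNd
    have hc : Real.cos (Real.arctan (l * Real.cos t / k)) ^ 2 = k ^ 2 / M := by
      rw [Real.cos_sq_arctan, hden t, one_div, inv_div]
    have hs : Real.sin (Real.arctan (l * Real.cos t / k)) ^ 2 = 1 - k ^ 2 / M := by
      rw [Real.sin_sq, hc]
    have hP : PE a b l (Real.arctan (l * Real.cos t / k)) = k * √N / √M := by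
      rw [PE, hE_sq, hc, hs]
      have h1 : a ^ 2 * (k ^ 2 / M) + b ^ 2 * (1 - k ^ 2 / M) - l ^ 2 = k ^ 2 * N / M := by
        have := hM'.ne'
        field_simp
        rw [hk2, hMd, hNd]
        ring
      rw [h1, Real.sqrt_div' _ hM'.le, Real.sqrt_mul' _ hN'.le, Real.sqrt_sq hk0.le]
    show 1 / PE a b l (Real.arctan (l * Real.cos t / k)) * (-(l * Real.sin t * k) / M) = _
    rw [hP, Real.sqrt_mul' _ hM'.le]
    have hsM : 0 < √M := Real.sqrt_pos.mpr hM'
    have hsN : 0 < √N := Real.sqrt_pos.mpr hN'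
    have hMM : M = √M * √M := (Real.mul_self_sqrt hM'.le).symm
    have e5 : (-(l * Real.sin t * k) / M) = (-(l * Real.sin t * k) / (√M * √M)) := by
      rw [← hMM]
    rw [e5]
    field_simp
  simp only [hint, intervalIntegral.integral_neg] at hcomp
  rw [TE, omE]
  have hcomp' := neg_injective hcomp
  rw [← hcomp']
  have := Real.pi_ne_zero
  field_simp

theorem TE_add (H : EH a b l) (ψ : ℝ) :
    TE a b l (ψ + DE a b l ψ) = BE a b l ψ + π * omE a b l := by
  rw [TE_add' H, TE_DE_zero H]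

theorem TE_sub (H : EH a b l) (ψ : ℝ) :
    TE a b l (ψ - DE a b l ψ) = BE a b l ψ - π * omE a b l := by
  rw [TE_sub' H, TE_DE_zero H]

/-! ### The map of the confocal caustic -/

/-- `ρE x` is the bounce angle `ψ` with `ψ - D(ψ) = x`. -/
noncomputable def rhoE (a b l : ℝ) : ℝ → ℝ := Function.invFun fun ψ => ψ - DE a b l ψ

/-- The map on the normal angles of the tangent lines. -/
noncomputable def fE (a b l x : ℝ) : ℝ := rhoE a b l x + DE a b l (rhoE a b l x)

theorem rhoE_sub (H : EH a b l) (x : ℝ) : rhoE a b l x - DE a b l (rhoE a b l x) = x :=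
  Function.invFun_eq (f := fun ψ => ψ - DE a b l ψ) (surjective_sub H x)

theorem rhoE_unique (H : EH a b l) {x ψ : ℝ} (h : ψ - DE a b l ψ = x) : rhoE a b l x = ψ :=
  (strictMono_sub H).injective (by
    show rhoE a b l x - DE a b l (rhoE a b l x) = ψ - DE a b l ψ
    rw [rhoE_sub H, h])

theorem TE_fE (H : EH a b l) (x : ℝ) :
    TE a b l (fE a b l x) = TE a b l x + 2 * π * omE a b l := by
  have h1 := TE_add H (rhoE a b l x)
  have h2 := TE_sub H (rhoE a b l x)
  rw [rhoE_sub H] at h2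
  rw [fE, h1, h2]
  ring

theorem lt_fE (H : EH a b l) (x : ℝ) : x < fE a b l x := by
  have h1 := rhoE_sub H x
  have h2 := DE_pos H (rhoE a b l x)
  rw [fE]
  linarith

theorem fE_lt (H : EH a b l) (x : ℝ) : fE a b l x < x + π := by
  have h1 := rhoE_sub H x
  have h2 := DE_lt H (rhoE a b l x)
  rw [fE]
  linarith

theorem fE_lt' (H : EH a b l) (x : ℝ) : fE a b l x < x + 2 * π := by
  have := fE_lt H x
  have := Real.pi_pos
  linarith

theorem omE_pos (H : EH a b l) : 0 < omE a b l := by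
  have h1 := strictMono_TE H (lt_fE H 0)
  rw [TE_fE H] at h1
  have := Real.pi_pos
  by_contra hcon
  push Not at hcon
  nlinarith

theorem omE_lt_half (H : EH a b l) : omE a b l < 1 / 2 := by
  have h1 : TE a b l (DE a b l 0) < TE a b l (π / 2) := strictMono_TE H (DE_lt H 0)
  rw [TE_DE_zero H] at h1
  have h2 : TE a b l (π / 2) = π / 2 := by
    have hper : Function.Periodic (fun t => 1 / PE a b l t) π := by
      intro t
      have : hE a b (t + π) = hE a b t := by
        rw [hE, hE, Real.cos_add_pi, Real.sin_add_pi, neg_sq, neg_sq]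
      simp only [PE, this]
    have e1 := hper.intervalIntegral_add_eq (-(π / 2)) (-π)
    have e2 := hper.intervalIntegral_add_eq (-(π / 2)) 0
    have e3 := intervalIntegral.integral_add_adjacent_intervals
      ((continuous_inv_PE H).intervalIntegrable (μ := volume) (-π) 0)
      ((continuous_inv_PE H).intervalIntegrable (μ := volume) 0 π)
    have e4 := intervalIntegral.integral_add_adjacent_intervals
      ((continuous_inv_PE H).intervalIntegrable (μ := volume) (-(π / 2)) 0)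
      ((continuous_inv_PE H).intervalIntegrable (μ := volume) 0 (π / 2))
    have e5 := int_PE_period a b l (-π)
    have e6 : (∫ t in (-(π / 2))..0, 1 / PE a b l t) = ∫ t in (0 : ℝ)..(π / 2), 1 / PE a b l t := by
      have := int_PE_neg a b l (π / 2)
      rw [intervalIntegral.integral_symm] at this
      linarith
    rw [show -(π / 2) + π = π / 2 by ring, show -π + π = 0 by ring] at e1
    rw [show -(π / 2) + π = π / 2 by ring, zero_add] at e2
    rw [show -π + 2 * π = π by ring, int_PE_eq H] at e5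
    have e7 : (∫ t in (0 : ℝ)..(2 * π), wE a b l t) =
        4 * ∫ t in (0 : ℝ)..(π / 2), 1 / PE a b l t := by
      rw [← e5, ← e3, ← e1, ← e2, ← e4, e6]
      ring
    have e8 := cE_mul H
    rw [e7] at e8
    rw [TE]
    linarith
  rw [h2] at h1
  have := Real.pi_pos
  nlinarith

theorem strictMono_fE (H : EH a b l) : StrictMono (fE a b l) := by
  intro x y hxy
  have h1 := strictMono_TE H hxy
  apply (strictMono_TE H).lt_iff_lt.mp
  rw [TE_fE H, TE_fE H]
  linarith

theorem rhoE_two_pi (H : EH a b l) (x : ℝ) : rhoE a b l (x + 2 * π) = rhoE a b l x + 2 * π := by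
  apply rhoE_unique H
  rw [DE_add_two_pi]
  have := rhoE_sub H x
  linarith

theorem fE_two_pi (H : EH a b l) (x : ℝ) : fE a b l (x + 2 * π) = fE a b l x + 2 * π := by
  rw [fE, rhoE_two_pi H, DE_add_two_pi, fE]
  ring

theorem strictMono_rhoE (H : EH a b l) : StrictMono (rhoE a b l) := by
  intro x y hxy
  apply (strictMono_sub H).lt_iff_lt.mp
  show rhoE a b l x - DE a b l (rhoE a b l x) < rhoE a b l y - DE a b l (rhoE a b l y)
  rw [rhoE_sub H, rhoE_sub H]
  exact hxy

theorem surjective_rhoE (H : EH a b l) : Function.Surjective (rhoE a b l) :=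
  fun ψ => ⟨ψ - DE a b l ψ, rhoE_unique H rfl⟩

theorem continuous_rhoE (H : EH a b l) : Continuous (rhoE a b l) :=
  (strictMono_rhoE H).monotone.continuous_of_surjective (surjective_rhoE H)

theorem continuous_fE (H : EH a b l) : Continuous (fE a b l) :=
  (continuous_rhoE H).add ((continuous_DE H).comp (continuous_rhoE H))

theorem surjective_fE (H : EH a b l) : Function.Surjective (fE a b l) := by
  intro y
  obtain ⟨ψ, hψ⟩ := surjective_add H y
  refine ⟨ψ - DE a b l ψ, ?_⟩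
  rw [fE, rhoE_unique H rfl]
  exact hψ

theorem TE_iterate (H : EH a b l) (j : ℕ) (x : ℝ) :
    TE a b l ((fE a b l)^[j] x) = TE a b l x + 2 * π * j * omE a b l := by
  induction j with
  | zero => simp
  | succ j ih =>
    rw [Function.iterate_succ_apply', TE_fE H, ih]
    push_cast
    ring

theorem lineIn_fE (H : EH a b l) (x : ℝ) : lineIn (hE a b) x (fE a b l x) = PE a b l x := by
  have h1 := rhoE_sub H x
  have h2 : (x + fE a b l x) / 2 = rhoE a b l x := by rw [fE]; linarith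
  have h3 : (fE a b l x - x) / 2 = DE a b l (rhoE a b l x) := by rw [fE]; linarith
  rw [lineIn, h2, h3, deriv_hE H.hb H.hab, ← PE_sub H, h1]

theorem lineOut_fE (H : EH a b l) (x : ℝ) :
    lineOut (hE a b) x (fE a b l x) = PE a b l (fE a b l x) := by
  have h1 := rhoE_sub H x
  have h2 : (x + fE a b l x) / 2 = rhoE a b l x := by rw [fE]; linarith
  have h3 : (fE a b l x - x) / 2 = DE a b l (rhoE a b l x) := by rw [fE]; linarith
  rw [lineOut, h2, h3, deriv_hE H.hb H.hab, ← PE_add H, fE]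

/-- Every confocal caustic with rational rotation number is integrable. -/
theorem pCaustic (H : EH a b l) {p q : ℕ} (hq : 0 < q) (hom : omE a b l = p / q) :
    PCaustic (hE a b) (PE a b l) (fE a b l) p q where
  cont := continuous_PE a b l
  periodic := PE_add_two_pi a b l
  lt_map := lt_fE H
  map_lt := fE_lt' H
  lineIn_eq := lineIn_fE H
  lineOut_eq := lineOut_fE H
  iter x := by
    apply (strictMono_TE H).injective
    have h1 : ∀ n : ℕ, TE a b l (x + 2 * π * n) = TE a b l x + 2 * π * n := by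
      intro n
      induction n with
      | zero => simp
      | succ n ih =>
        push_cast
        rw [show x + 2 * π * (n + 1 : ℝ) = x + 2 * π * n + 2 * π by ring, TE_two_pi H, ih]
        ring
    rw [TE_iterate H, h1, hom]
    have : (q : ℝ) ≠ 0 := by exact_mod_cast hq.ne'
    field_simp

theorem wE_ge (H : EH a b l) (ψ : ℝ) : 1 / a ≤ wE a b l ψ := by
  rw [wE_eq]
  have h1 := hE_le H.hb H.hab ψ
  have h2 := hE_pos H.hb H.hab ψ
  have h3 := cos_DE_pos H ψ
  have h4 := Real.cos_le_one (DE a b l ψ)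
  apply one_div_le_one_div_of_le (mul_pos h2 h3)
  nlinarith

theorem cos_DE_ge (H : EH a b l) (hl : l ≤ b / 2) (ψ : ℝ) :
    √3 / 2 ≤ Real.cos (DE a b l ψ) := by
  have h1 := hE_le H.hb H.hab ψ
  have h2 := hE_pos H.hb H.hab ψ
  have ha := H.ha
  have hb := H.hb
  have h0 := H.hl
  have h3 : Real.sin (DE a b l ψ) ≤ 1 / 2 := by
    rw [sin_DE H, div_le_iff₀ (by positivity)]
    nlinarith
  have h4 := sin_DE_pos H ψ
  have h5 := Real.sin_sq_add_cos_sq (DE a b l ψ)
  have h6 := cos_DE_pos H ψ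
  apply le_of_sq_le_sq' _ h6.le
  rw [div_pow, Real.sq_sqrt (by norm_num)]
  nlinarith
where
  le_of_sq_le_sq' {x y : ℝ} (h : x ^ 2 ≤ y ^ 2) (hy : 0 ≤ y) : x ≤ y := abs_le_of_sq_le_sq' h hy |>.2

theorem wE_le (H : EH a b l) (hl : l ≤ b / 2) (ψ : ℝ) : wE a b l ψ ≤ 2 / (√3 * b) := by
  rw [wE_eq]
  have h1 := hE_ge H.hb H.hab ψ
  have h1' := (hE_pos H.hb H.hab ψ).le
  have h2 := cos_DE_ge H hl ψ
  have hb := H.hb
  have h3 : (0 : ℝ) < √3 := by positivity
  have h4 : √3 * b / 2 ≤ hE a b ψ * Real.cos (DE a b l ψ) := by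
    calc √3 * b / 2 = b * (√3 / 2) := by ring
      _ ≤ hE a b ψ * Real.cos (DE a b l ψ) := by gcongr
  calc 1 / (hE a b ψ * Real.cos (DE a b l ψ)) ≤ 1 / (√3 * b / 2) :=
        one_div_le_one_div_of_le (by positivity) h4
    _ = 2 / (√3 * b) := by field_simp

theorem cE_le (H : EH a b l) : cE a b l ≤ a := by
  have h1 : 2 * π * (1 / a) ≤ ∫ t in (0 : ℝ)..(2 * π), wE a b l t := by
    have h2 : ∫ t in (0 : ℝ)..(2 * π), (1 / a : ℝ) = 2 * π * (1 / a) := by
      rw [intervalIntegral.integral_const, sub_zero, smul_eq_mul]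
    rw [← h2]
    exact intervalIntegral.integral_mono_on (by positivity) (by simp)
      ((continuous_wE H).intervalIntegrable _ _) fun x _ => wE_ge H x
  have h2 := cE_mul H
  have h3 := cE_pos H
  have h4 := H.ha
  have h5 : cE a b l * (2 * π * (1 / a)) ≤ 2 * π := by
    calc _ ≤ cE a b l * ∫ t in (0 : ℝ)..(2 * π), wE a b l t := by gcongr
      _ = 2 * π := h2
  have h6 : cE a b l * (2 * π * (1 / a)) = cE a b l / a * (2 * π) := by ring
  rw [h6] at h5
  have h7 : cE a b l / a ≤ 1 := by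
    by_contra hcon
    push Not at hcon
    have := Real.pi_pos
    nlinarith
  rwa [div_le_one h4] at h7

theorem cE_ge (H : EH a b l) (hl : l ≤ b / 2) : √3 / 2 * b ≤ cE a b l := by
  have h1 : (∫ t in (0 : ℝ)..(2 * π), wE a b l t) ≤ 2 * π * (2 / (√3 * b)) := by
    have h2 : ∫ t in (0 : ℝ)..(2 * π), (2 / (√3 * b) : ℝ) = 2 * π * (2 / (√3 * b)) := by
      rw [intervalIntegral.integral_const, sub_zero, smul_eq_mul]
    rw [← h2]
    exact intervalIntegral.integral_mono_on (by positivity)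
      ((continuous_wE H).intervalIntegrable _ _) (by simp) fun x _ => wE_le H hl x
  have h2 := cE_mul H
  have h3 := cE_pos H
  have h4 := H.hb
  have h5 : (2 * π) ≤ cE a b l * (2 * π * (2 / (√3 * b))) := by
    calc 2 * π = cE a b l * ∫ t in (0 : ℝ)..(2 * π), wE a b l t := h2.symm
      _ ≤ _ := by gcongr
  have h6 : (0 : ℝ) < √3 := by positivity
  have h7 : cE a b l * (2 * π * (2 / (√3 * b))) = cE a b l / (√3 / 2 * b) * (2 * π) := by
    field_simp
  rw [h7] at h5
  have h8 : 1 ≤ cE a b l / (√3 / 2 * b) := by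
    by_contra hcon
    push Not at hcon
    have := Real.pi_pos
    nlinarith
  rwa [one_le_div (by positivity)] at h8

end

end LSB.El
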