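import Pool.Agent.LSB.FLaz

/-!
# Part F, module FClosest: the closest ellipse

Family `h_w ψ = hE a' b' (ψ - τ) + v cos ψ + w sin ψ`, parameter `(a',b',τ,v,w)` in the closed box `W` of
radius `δ` about `(a,b,0,0,0)`; we may decrease `δ` and assume `δ < b/4`, `δ < (a-b)/4`, `δ < 1/4`.

(1) Injectivity: if `h_w = hE a b` everywhere, then (`hE` is `π`-periodic, compare `ψ` and `ψ+π`) `v=w=0`, and squaring
`(a'²+b'²)/2+(a'²-b'²)/2·cos(2ψ-2τ)=(a²+b²)/2+(a²-b²)/2·cos 2ψ`, so `a'²+b'²=a²+b²`,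
`(a'²-b'²)cos 2τ=a²-b²`, `(a'²-b'²) sin 2τ=0`, thus `τ=0`, `a'=a`, `b'=b`.

(2) `J_h(w)=∫_0^{2π}(h-h_w)²` is continuous on the compact box `W`; on the boundary of `W` (compact) `J_{hE a b}` is positive, so
`≥ μ > 0`.  If `|h-hE a b| ≤ ε` then (triangle inequality in `L²`, or `(x+y)² ≤ 2x²+2y²`: `J_{hE}(w) ≤ 2 J_h(w)+4πε²`)
`J_h ≥ μ/2-2πε²` on the boundary and `J_h ≤ 2πε²` at `(a,b,0,0,0)`; for `8πε²<μ` a minimiser of `J_h` over `W` is in
the interior of `W`.

(3) At an interior minimiser the partial derivatives vanish (differentiate under the integral sign, or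
`h_{w+te}=h_w+t g+O(t²)` uniformly and `J_h(w+te) ≥ J_h(w)` for small `t` of both signs):
`∫(h-h_w)g=0` for `g(ψ)=a'cos²(ψ-τ)/hE(ψ-τ)`, `b'sin²(ψ-τ)/hE(ψ-τ)`, `hE'(ψ-τ)=(b'²-a'²)sin cos/hE`, `cos ψ`, `sin ψ`.
Shift `ψ→ψ+τ` (periodicity) and take linear combinations: `F/hE a' b'` for the five functions `F`.
-/

namespace LSB

open Real Complex MeasureTheory Filter

private noncomputable def Hp (p : Fin 5 → ℝ) (ψ : ℝ) : ℝ :=
  hE (p 0) (p 1) (ψ - p 2) + p 3 * Real.cos ψ + p 4 * Real.sin ψ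

private noncomputable def Dp (p d : Fin 5 → ℝ) (ψ : ℝ) : ℝ :=
  (p 0 * d 0 * Real.cos (ψ - p 2) ^ 2 + p 1 * d 1 * Real.sin (ψ - p 2) ^ 2 +
    d 2 * (p 0 ^ 2 - p 1 ^ 2) * Real.sin (ψ - p 2) * Real.cos (ψ - p 2)) /
    hE (p 0) (p 1) (ψ - p 2) + d 3 * Real.cos ψ + d 4 * Real.sin ψ

private lemma continuous_Hp : Continuous (fun x : (Fin 5 → ℝ) × ℝ => Hp x.1 x.2) := by
  unfold Hp hE
  fun_prop

private lemma continuous_Hp_right (p : Fin 5 → ℝ) : Continuous (Hp p) :=
  continuous_Hp.comp (by fun_prop : Continuous (fun ψ : ℝ => (p, ψ)))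

private lemma hE_pos' {a b : ℝ} (hb : 0 < b) (hab : b ≤ a) (ψ : ℝ) : 0 < hE a b ψ :=
  hb.trans_le (hE_ge hb hab ψ)

private lemma hasDerivAt_Hp (p d : Fin 5 → ℝ) (ψ t : ℝ) (h1 : 0 < (p + t • d) 1)
    (h2 : (p + t • d) 1 ≤ (p + t • d) 0) :
    HasDerivAt (fun s : ℝ => Hp (p + s • d) ψ) (Dp (p + t • d) d ψ) t := by
  have hpos := hE_pos' h1 h2 (ψ - (p + t • d) 2)
  have hsq := hE_sq ((p + t • d) 0) ((p + t • d) 1) (ψ - (p + t • d) 2)
  simp only [Pi.add_apply, Pi.smul_apply, smul_eq_mul] at hpos hsq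
  have hA : HasDerivAt (fun s : ℝ => p 0 + s * d 0) (d 0) t := by
    simpa using ((hasDerivAt_id t).mul_const (d 0)).const_add (p 0)
  have hB : HasDerivAt (fun s : ℝ => p 1 + s * d 1) (d 1) t := by
    simpa using ((hasDerivAt_id t).mul_const (d 1)).const_add (p 1)
  have hx : HasDerivAt (fun s : ℝ => ψ - (p 2 + s * d 2)) (-d 2) t := by
    simpa using (((hasDerivAt_id t).mul_const (d 2)).const_add (p 2)).const_sub ψ
  have h3 : HasDerivAt (fun s : ℝ => (p 3 + s * d 3) * Real.cos ψ) (d 3 * Real.cos ψ) t := by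
    simpa using (((hasDerivAt_id t).mul_const (d 3)).const_add (p 3)).mul_const (Real.cos ψ)
  have h4 : HasDerivAt (fun s : ℝ => (p 4 + s * d 4) * Real.sin ψ) (d 4 * Real.sin ψ) t := by
    simpa using (((hasDerivAt_id t).mul_const (d 4)).const_add (p 4)).mul_const (Real.sin ψ)
  have hP : HasDerivAt (fun s : ℝ => (p 0 + s * d 0) ^ 2 * Real.cos (ψ - (p 2 + s * d 2)) ^ 2 +
      (p 1 + s * d 1) ^ 2 * Real.sin (ψ - (p 2 + s * d 2)) ^ 2)
      (2 * ((p 0 + t * d 0) * d 0 * Real.cos (ψ - (p 2 + t * d 2)) ^ 2 +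
        (p 1 + t * d 1) * d 1 * Real.sin (ψ - (p 2 + t * d 2)) ^ 2 +
        d 2 * ((p 0 + t * d 0) ^ 2 - (p 1 + t * d 1) ^ 2) * Real.sin (ψ - (p 2 + t * d 2)) *
          Real.cos (ψ - (p 2 + t * d 2)))) t := by
    have := ((hA.pow 2).mul (hx.cos.pow 2)).add ((hB.pow 2).mul (hx.sin.pow 2))
    refine this.congr_deriv ?_
    simp only [Pi.pow_apply]
    ring
  have hne : (p 0 + t * d 0) ^ 2 * Real.cos (ψ - (p 2 + t * d 2)) ^ 2 +
      (p 1 + t * d 1) ^ 2 * Real.sin (ψ - (p 2 + t * d 2)) ^ 2 ≠ 0 := by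
    rw [← hsq]
    positivity
  have := ((hP.sqrt hne).add h3).add h4
  unfold Hp Dp
  simp only [Pi.add_apply, Pi.smul_apply, smul_eq_mul]
  refine this.congr_deriv ?_
  have hh : √((p 0 + t * d 0) ^ 2 * Real.cos (ψ - (p 2 + t * d 2)) ^ 2 +
      (p 1 + t * d 1) ^ 2 * Real.sin (ψ - (p 2 + t * d 2)) ^ 2) =
      hE (p 0 + t * d 0) (p 1 + t * d 1) (ψ - (p 2 + t * d 2)) := rfl
  rw [hh, mul_div_mul_left _ _ (two_ne_zero)]

private lemma inj_Hp {a b : ℝ} (hb : 0 < b) (hab : b < a) {p : Fin 5 → ℝ} (h1 : 0 < p 1)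
    (h0 : p 1 < p 0) (h2 : |p 2| < 1)
    (h : ∀ ψ ∈ Set.Icc 0 (2 * π), hE a b ψ = Hp p ψ) : p = ![a, b, 0, 0, 0] := by
  have hpi := Real.pi_pos
  have e0 := h 0 ⟨le_rfl, by positivity⟩
  have e1 := h π ⟨hpi.le, by linarith⟩
  have e2 := h (π / 2) ⟨by positivity, by linarith⟩
  have e3 := h (π / 2 + π) ⟨by positivity, by linarith⟩
  have e4 := h (π / 4) ⟨by positivity, by linarith⟩
  unfold Hp at e0 e1 e2 e3 e4
  have s1 : hE a b π = hE a b 0 := by
    have := hE_add_pi a b 0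
    rwa [zero_add] at this
  have s2 : hE (p 0) (p 1) (π - p 2) = hE (p 0) (p 1) (0 - p 2) := by
    have := hE_add_pi (p 0) (p 1) (0 - p 2)
    rwa [show 0 - p 2 + π = π - p 2 by ring] at this
  have s3 : hE a b (π / 2 + π) = hE a b (π / 2) := hE_add_pi a b _
  have s4 : hE (p 0) (p 1) (π / 2 + π - p 2) = hE (p 0) (p 1) (π / 2 - p 2) := by
    have := hE_add_pi (p 0) (p 1) (π / 2 - p 2)
    rwa [show π / 2 - p 2 + π = π / 2 + π - p 2 by ring] at this
  have c3 : Real.cos (π / 2 + π) = 0 := by rw [Real.cos_add_pi, Real.cos_pi_div_two, neg_zero]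
  have c4 : Real.sin (π / 2 + π) = -1 := by rw [Real.sin_add_pi, Real.sin_pi_div_two]
  rw [Real.cos_zero, Real.sin_zero] at e0
  rw [s1, s2, Real.cos_pi, Real.sin_pi] at e1
  rw [Real.cos_pi_div_two, Real.sin_pi_div_two] at e2
  rw [s3, s4, c3, c4] at e3
  have hp3 : p 3 = 0 := by linarith
  have hp4 : p 4 = 0 := by linarith
  rw [hp3, hp4] at e0 e2 e4
  have f0 : hE a b 0 = hE (p 0) (p 1) (0 - p 2) := by linarith
  have f2 : hE a b (π / 2) = hE (p 0) (p 1) (π / 2 - p 2) := by linarith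
  have f4 : hE a b (π / 4) = hE (p 0) (p 1) (π / 4 - p 2) := by linarith
  have g0 := congrArg (fun x => x ^ 2) f0
  have g2 := congrArg (fun x => x ^ 2) f2
  have g4 := congrArg (fun x => x ^ 2) f4
  simp only [hE_sq] at g0 g2 g4
  rw [Real.cos_zero, Real.sin_zero, zero_sub, Real.cos_neg, Real.sin_neg] at g0
  rw [Real.cos_pi_div_two, Real.sin_pi_div_two, Real.cos_pi_div_two_sub,
    Real.sin_pi_div_two_sub] at g2
  rw [Real.cos_sub, Real.sin_sub, Real.cos_pi_div_four, Real.sin_pi_div_four] at g4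
  have hs2 : (√2 / 2 : ℝ) ^ 2 = 1 / 2 := by
    rw [div_pow, Real.sq_sqrt (by norm_num)]
    norm_num
  have hcs := Real.sin_sq_add_cos_sq (p 2)
  set C := Real.cos (p 2) with hC
  set S := Real.sin (p 2) with hS
  have g4' : a ^ 2 + b ^ 2 = p 0 ^ 2 * (C + S) ^ 2 + p 1 ^ 2 * (C - S) ^ 2 := by
    have e5 : (√2 / 2 * C + √2 / 2 * S) ^ 2 = (√2 / 2 : ℝ) ^ 2 * (C + S) ^ 2 := by ring
    have e6 : (√2 / 2 * C - √2 / 2 * S) ^ 2 = (√2 / 2 : ℝ) ^ 2 * (C - S) ^ 2 := by ring
    rw [e5, e6, hs2] at g4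
    linarith
  have hSC : (p 0 ^ 2 - p 1 ^ 2) * (2 * (S * C)) = 0 := by
    linear_combination g0 + g2 - g4'
  have hC0 : 0 < C := by
    apply Real.cos_pos_of_mem_Ioo
    rw [abs_lt] at h2
    have := Real.pi_gt_three
    constructor <;> linarith
  have hdiff : 0 < p 0 ^ 2 - p 1 ^ 2 := by nlinarith
  have hS0 : S = 0 := by
    rcases mul_eq_zero.1 hSC with h' | h'
    · exact absurd h' hdiff.ne'
    · rcases mul_eq_zero.1 h' with h'' | h''
      · norm_num at h''
      · rcases mul_eq_zero.1 h'' with h''' | h'''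
        · exact h'''
        · exact absurd h''' hC0.ne'
  have hp2 : p 2 = 0 := by
    rw [abs_lt] at h2
    have hpi3 := Real.pi_gt_three
    exact (Real.sin_eq_zero_iff_of_lt_of_lt (by linarith) (by linarith)).1 hS0
  have hC1 : C = 1 := by rw [hC, hp2, Real.cos_zero]
  rw [hS0, hC1] at g0 g2
  have ha0 : p 0 = a := by
    have h3 : p 0 ^ 2 = a ^ 2 := by linear_combination (-1) * g0
    nlinarith
  have hb0 : p 1 = b := by
    have h3 : p 1 ^ 2 = b ^ 2 := by linear_combination (-1) * g2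
    nlinarith
  ext i
  fin_cases i
  · exact ha0
  · exact hb0
  · exact hp2
  · exact hp3
  · exact hp4

private noncomputable def J (h : ℝ → ℝ) (p : Fin 5 → ℝ) : ℝ :=
  ∫ ψ in (0 : ℝ)..(2 * π), (h ψ - Hp p ψ) ^ 2

private lemma continuous_J {h : ℝ → ℝ} (hh : Continuous h) : Continuous (J h) := by
  unfold J
  apply intervalIntegral.continuous_parametric_intervalIntegral_of_continuous'
  have := continuous_Hp
  change Continuous (fun x : (Fin 5 → ℝ) × ℝ => (h x.2 - Hp x.1 x.2) ^ 2)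
  exact ((hh.comp continuous_snd).sub this).pow 2

private lemma J_deriv {h : ℝ → ℝ} (hh : Continuous h) (p d : Fin 5 → ℝ) {r : ℝ} (hr : 0 < r)
    (hpos : ∀ t ∈ Metric.closedBall (0 : ℝ) r, 0 < (p + t • d) 1 ∧
      (p + t • d) 1 ≤ (p + t • d) 0) :
    HasDerivAt (fun t : ℝ => J h (p + t • d))
      (∫ ψ in (0 : ℝ)..(2 * π), -2 * ((h ψ - Hp p ψ) * Dp p d ψ)) 0 := by
  have hcont : ContinuousOn (fun x : ℝ × ℝ => -2 * ((h x.2 - Hp (p + x.1 • d) x.2) *
      Dp (p + x.1 • d) d x.2)) (Metric.closedBall (0 : ℝ) r ×ˢ Set.Icc 0 (2 * π)) := by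
    apply ContinuousOn.mul continuousOn_const
    apply ContinuousOn.mul
    · apply Continuous.continuousOn
      have h1 : Continuous (fun x : ℝ × ℝ => (p + x.1 • d, x.2)) := by fun_prop
      exact (hh.comp continuous_snd).sub (continuous_Hp.comp h1)
    · unfold Dp
      apply ContinuousOn.add
      · apply ContinuousOn.add
        · apply ContinuousOn.div
          · apply Continuous.continuousOn
            fun_prop
          · apply Continuous.continuousOn
            unfold hE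
            fun_prop
          · rintro ⟨t, ψ⟩ ⟨ht, _⟩
            exact (hE_pos' (hpos t ht).1 (hpos t ht).2 _).ne'
        · apply Continuous.continuousOn
          fun_prop
      · apply Continuous.continuousOn
        fun_prop
  obtain ⟨C, hC⟩ := ((isCompact_closedBall (0 : ℝ) r).prod
    (isCompact_Icc (a := (0 : ℝ)) (b := 2 * π))).exists_bound_of_continuousOn hcont
  have hpi := Real.pi_pos
  have hFc : ∀ t : ℝ, Continuous (fun ψ => (h ψ - Hp (p + t • d) ψ) ^ 2) := fun t =>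
    (hh.sub (continuous_Hp_right _)).pow 2
  have key := intervalIntegral.hasDerivAt_integral_of_dominated_loc_of_deriv_le
    (F := fun t ψ => (h ψ - Hp (p + t • d) ψ) ^ 2)
    (F' := fun t ψ => -2 * ((h ψ - Hp (p + t • d) ψ) * Dp (p + t • d) d ψ))
    (μ := volume) (a := 0) (b := 2 * π) (x₀ := (0 : ℝ)) (s := Metric.closedBall (0 : ℝ) r)
    (bound := fun _ => C) (Metric.closedBall_mem_nhds 0 hr)
    (Filter.Eventually.of_forall fun t => (hFc t).aestronglyMeasurable)
    ((hFc 0).intervalIntegrable _ _) ?_ ?_ ?_ ?_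
  · have h2 := key.2
    simp only [zero_smul, add_zero] at h2
    exact h2
  · apply ContinuousOn.aestronglyMeasurable _ measurableSet_uIoc
    have h1 : ContinuousOn (fun ψ : ℝ => ((0 : ℝ), ψ)) (Set.uIoc 0 (2 * π)) := by fun_prop
    refine hcont.comp h1 ?_
    intro ψ hψ
    rw [Set.uIoc_of_le (by positivity)] at hψ
    exact ⟨Metric.mem_closedBall_self hr.le, hψ.1.le, hψ.2⟩
  · apply Filter.Eventually.of_forall
    intro ψ hψ t ht
    rw [Set.uIoc_of_le (by positivity)] at hψ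
    exact hC (t, ψ) ⟨ht, hψ.1.le, hψ.2⟩
  · exact intervalIntegrable_const
  · apply Filter.Eventually.of_forall
    intro ψ _ t ht
    have h1 := hasDerivAt_Hp p d ψ t (hpos t ht).1 (hpos t ht).2
    have h2 := (h1.const_sub (h ψ)).pow 2
    refine h2.congr_deriv ?_
    simp
    ring

theorem closest_ellipse {a b : ℝ} (hb : 0 < b) (hab : b < a) {δ : ℝ} (hδ : 0 < δ) :
    ∃ ε > 0, ∀ h : ℝ → ℝ, Continuous h → (∀ ψ, h (ψ + 2 * π) = h ψ) →
      (∀ ψ, |h ψ - hE a b ψ| ≤ ε) → ∃ a' b' τ v w : ℝ, |a' - a| ≤ δ ∧ |b' - b| ≤ δ ∧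
        |τ| ≤ δ ∧ |v| ≤ δ ∧ |w| ≤ δ ∧ ∀ i : Fin 5,
          ∫ ψ in (0 : ℝ)..(2 * π), (h (ψ + τ) - v * Real.cos (ψ + τ) - w * Real.sin (ψ + τ) -
            hE a' b' ψ) * (five a' b' i ψ / hE a' b' ψ) = 0 := by
  set δ' : ℝ := min δ (min (b / 8) (min ((a - b) / 8) (1 / 4))) with hδ'
  have hδ'0 : 0 < δ' := by
    rw [hδ']
    have : 0 < a - b := by linarith
    positivity
  have hδ1 : δ' ≤ δ := min_le_left _ _
  have hδ2 : δ' ≤ b / 8 := (min_le_right _ _).trans (min_le_left _ _)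
  have hδ3 : δ' ≤ (a - b) / 8 :=
    ((min_le_right _ _).trans (min_le_right _ _)).trans (min_le_left _ _)
  have hδ4 : δ' ≤ 1 / 4 := ((min_le_right _ _).trans (min_le_right _ _)).trans (min_le_right _ _)
  set p₀ : Fin 5 → ℝ := ![a, b, 0, 0, 0] with hp₀
  have hcoord : ∀ p : Fin 5 → ℝ, p ∈ Metric.closedBall p₀ δ' →
      |p 0 - a| ≤ δ' ∧ |p 1 - b| ≤ δ' ∧ |p 2| ≤ δ' ∧ |p 3| ≤ δ' ∧ |p 4| ≤ δ' := by
    intro p hp
    have h1 : ∀ i, |p i - p₀ i| ≤ δ' := by
      intro i
      rw [← Real.dist_eq]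
      exact (dist_le_pi_dist p p₀ i).trans (Metric.mem_closedBall.1 hp)
    have h2 := h1 2
    have h3 := h1 3
    have h4 := h1 4
    have e2 : p₀ 2 = 0 := rfl
    have e3 : p₀ 3 = 0 := rfl
    have e4 : p₀ 4 = 0 := rfl
    rw [e2, sub_zero] at h2
    rw [e3, sub_zero] at h3
    rw [e4, sub_zero] at h4
    exact ⟨h1 0, h1 1, h2, h3, h4⟩
  have hgood : ∀ p : Fin 5 → ℝ, p ∈ Metric.closedBall p₀ δ' → 0 < p 1 ∧ p 1 < p 0 ∧ |p 2| < 1 := by
    intro p hp
    obtain ⟨h1, h2, h3, _, _⟩ := hcoord p hp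
    rw [abs_le] at h1 h2
    refine ⟨by linarith, by linarith, by linarith⟩
  have hpi := Real.pi_pos
  have hhE : Continuous (hE a b) := by
    unfold hE
    fun_prop
  have hJpos : ∀ p ∈ Metric.sphere p₀ δ', 0 < J (hE a b) p := by
    intro p hp
    have hp' : p ∈ Metric.closedBall p₀ δ' := Metric.sphere_subset_closedBall hp
    obtain ⟨g1, g2, g3⟩ := hgood p hp'
    apply intervalIntegral.integral_pos (by positivity)
    · exact ((hhE.sub (continuous_Hp_right p)).pow 2).continuousOn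
    · intro x _
      positivity
    · by_contra hcon
      push Not at hcon
      have : p = p₀ := inj_Hp hb hab g1 g2 g3 (fun ψ hψ => by
        have h1 := hcon ψ hψ
        have h2 : (hE a b ψ - Hp p ψ) ^ 2 = 0 := le_antisymm h1 (sq_nonneg _)
        have h3 := pow_eq_zero_iff (two_ne_zero) |>.1 h2
        linarith)
      rw [this, mem_sphere_iff_norm, sub_self, norm_zero] at hp
      exact hδ'0.ne hp
  obtain ⟨q, hq, hqmin⟩ := (isCompact_sphere p₀ δ').exists_isMinOn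
    (NormedSpace.sphere_nonempty.2 hδ'0.le) (continuous_J hhE).continuousOn
  set μ := J (hE a b) q with hμ
  have hμ0 : 0 < μ := hJpos q hq
  have hsph : ∀ p ∈ Metric.sphere p₀ δ', μ ≤ J (hE a b) p := fun p hp => hqmin hp
  refine ⟨min 1 (μ / (16 * π)), by positivity, ?_⟩
  intro h hh hper hclose
  set ε := min 1 (μ / (16 * π)) with hε
  have hε0 : 0 < ε := by positivity
  have hε1 : ε ≤ 1 := min_le_left _ _
  have hε2 : ε * (16 * π) ≤ μ := by
    rw [← le_div_iff₀ (by positivity)]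
    exact min_le_right _ _
  have hε3 : 8 * π * ε ^ 2 < μ := by nlinarith
  have hclose2 : ∀ ψ, (h ψ - hE a b ψ) ^ 2 ≤ ε ^ 2 := by
    intro ψ
    rw [← sq_abs]
    have := hclose ψ
    gcongr
  have hHp0 : ∀ ψ, Hp p₀ ψ = hE a b ψ := by
    intro ψ
    unfold Hp
    have e0 : p₀ 0 = a := rfl
    have e1 : p₀ 1 = b := rfl
    have e2 : p₀ 2 = 0 := rfl
    have e3 : p₀ 3 = 0 := rfl
    have e4 : p₀ 4 = 0 := rfl
    rw [e0, e1, e2, e3, e4]
    simp
  have hJ0 : J h p₀ ≤ 2 * π * ε ^ 2 := by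
    unfold J
    simp only [hHp0]
    calc ∫ ψ in (0 : ℝ)..(2 * π), (h ψ - hE a b ψ) ^ 2
        ≤ ∫ _ψ in (0 : ℝ)..(2 * π), ε ^ 2 := by
          apply intervalIntegral.integral_mono_on (by positivity)
          · exact ((hh.sub hhE).pow 2).intervalIntegrable _ _
          · exact intervalIntegrable_const
          · intro x _
            exact hclose2 x
      _ = 2 * π * ε ^ 2 := by
          rw [intervalIntegral.integral_const, sub_zero, smul_eq_mul]
  have hJs : ∀ p ∈ Metric.sphere p₀ δ', μ / 2 - 2 * π * ε ^ 2 ≤ J h p := by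
    intro p hp
    have h1 := hsph p hp
    have h2 : J (hE a b) p ≤ 2 * J h p + 4 * π * ε ^ 2 := by
      unfold J
      calc ∫ ψ in (0 : ℝ)..(2 * π), (hE a b ψ - Hp p ψ) ^ 2
          ≤ ∫ ψ in (0 : ℝ)..(2 * π), (2 * (h ψ - Hp p ψ) ^ 2 + 2 * ε ^ 2) := by
            apply intervalIntegral.integral_mono_on (by positivity)
            · exact ((hhE.sub (continuous_Hp_right p)).pow 2).intervalIntegrable _ _
            · exact ((((hh.sub (continuous_Hp_right p)).pow 2).const_mul 2).add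
                continuous_const).intervalIntegrable _ _
            · intro x _
              have h3 := hclose2 x
              nlinarith [sq_nonneg ((h x - Hp p x) + (h x - hE a b x))]
        _ = 2 * (∫ ψ in (0 : ℝ)..(2 * π), (h ψ - Hp p ψ) ^ 2) + 4 * π * ε ^ 2 := by
            have hi1 : IntervalIntegrable (fun ψ => 2 * (h ψ - Hp p ψ) ^ 2) volume 0 (2 * π) :=
              (((hh.sub (continuous_Hp_right p)).pow 2).const_mul 2).intervalIntegrable _ _
            rw [intervalIntegral.integral_add hi1 intervalIntegrable_const,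
              intervalIntegral.integral_const_mul,
              intervalIntegral.integral_const, sub_zero, smul_eq_mul]
            ring
    linarith
  obtain ⟨p, hp, hpmin⟩ := (isCompact_closedBall p₀ δ').exists_isMinOn
    ⟨p₀, Metric.mem_closedBall_self hδ'0.le⟩ (continuous_J hh).continuousOn
  have hpball : p ∈ Metric.ball p₀ δ' := by
    rw [Metric.mem_ball]
    rcases (Metric.mem_closedBall.1 hp).lt_or_eq with h1 | h1
    · exact h1
    · exfalso
      have h2 := hJs p h1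
      have h3 : J h p ≤ J h p₀ := hpmin (Metric.mem_closedBall_self hδ'0.le)
      linarith
  obtain ⟨k0, k1, k2, k3, k4⟩ := hcoord p hp
  obtain ⟨g1, g2, g3⟩ := hgood p hp
  have hfirst : ∀ d : Fin 5 → ℝ,
      ∫ ψ in (0 : ℝ)..(2 * π), (h ψ - Hp p ψ) * Dp p d ψ = 0 := by
    intro d
    have hct : Continuous (fun t : ℝ => p + t • d) := by fun_prop
    have hnh : ∀ᶠ t in nhds (0 : ℝ), p + t • d ∈ Metric.ball p₀ δ' := by
      apply hct.continuousAt.eventually_mem
      rw [zero_smul, add_zero]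
      exact Metric.isOpen_ball.mem_nhds hpball
    obtain ⟨r, hr, hrb⟩ := Metric.nhds_basis_closedBall.eventually_iff.1 hnh
    have hpos : ∀ t ∈ Metric.closedBall (0 : ℝ) r, 0 < (p + t • d) 1 ∧
        (p + t • d) 1 ≤ (p + t • d) 0 := by
      intro t ht
      obtain ⟨u1, u2, _⟩ := hgood _ (Metric.ball_subset_closedBall (hrb ht))
      exact ⟨u1, u2.le⟩
    have hd := J_deriv hh p d hr hpos
    have hmin : IsLocalMin (fun t : ℝ => J h (p + t • d)) 0 := by
      filter_upwards [hnh] with t ht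
      simp only [zero_smul, add_zero]
      exact hpmin (Metric.ball_subset_closedBall ht)
    have h0 := hmin.hasDerivAt_eq_zero hd
    rw [intervalIntegral.integral_const_mul] at h0
    linarith
  refine ⟨p 0, p 1, p 2, p 3, p 4, k0.trans hδ1, k1.trans hδ1, k2.trans hδ1, k3.trans hδ1,
    k4.trans hδ1, ?_⟩
  have hfinal : ∀ (F : ℝ → ℝ) (d : Fin 5 → ℝ),
      (∀ ψ, Dp p d (ψ + p 2) = F ψ / hE (p 0) (p 1) ψ) →
      ∫ ψ in (0 : ℝ)..(2 * π), (h (ψ + p 2) - p 3 * Real.cos (ψ + p 2) -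
        p 4 * Real.sin (ψ + p 2) - hE (p 0) (p 1) ψ) * (F ψ / hE (p 0) (p 1) ψ) = 0 := by
    intro F d hF
    have hperiod : Function.Periodic (fun ψ => (h ψ - Hp p ψ) * Dp p d ψ) (2 * π) := by
      intro ψ
      have e1 : Hp p (ψ + 2 * π) = Hp p ψ := by
        unfold Hp
        rw [show ψ + 2 * π - p 2 = (ψ - p 2) + 2 * π by ring, hE_add_two_pi,
          Real.cos_add_two_pi, Real.sin_add_two_pi]
      have e2 : Dp p d (ψ + 2 * π) = Dp p d ψ := by
        unfold Dp
        rw [show ψ + 2 * π - p 2 = (ψ - p 2) + 2 * π by ring, hE_add_two_pi,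
          Real.cos_add_two_pi, Real.sin_add_two_pi, Real.cos_add_two_pi, Real.sin_add_two_pi]
      simp only [e1, e2, hper]
    have h1 := hfirst d
    have h2 := hperiod.intervalIntegral_add_eq 0 (p 2)
    rw [zero_add] at h2
    rw [h2] at h1
    have h3 : ∫ ψ in (0 : ℝ)..(2 * π), (fun ψ => (h ψ - Hp p ψ) * Dp p d ψ) (ψ + p 2) =
        ∫ ψ in (p 2)..(p 2 + 2 * π), (h ψ - Hp p ψ) * Dp p d ψ := by
      rw [intervalIntegral.integral_comp_add_right (fun ψ => (h ψ - Hp p ψ) * Dp p d ψ), zero_add,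
        add_comm (2 * π)]
    rw [← h3] at h1
    refine Eq.trans ?_ h1
    apply intervalIntegral.integral_congr
    intro ψ _
    simp only
    rw [hF ψ]
    unfold Hp
    rw [add_sub_cancel_right]
    ring
  have hp0 : 0 < p 0 := g1.trans g2
  have hdiff : p 0 ^ 2 - p 1 ^ 2 ≠ 0 := by
    have : 0 < p 0 ^ 2 - p 1 ^ 2 := by nlinarith
    exact this.ne'
  intro i
  fin_cases i
  · apply hfinal _ ![1 / p 0, 1 / p 1, 0, 0, 0]
    intro ψ
    unfold Dp
    rw [add_sub_cancel_right]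
    simp only [five, Matrix.cons_val]
    have := Real.sin_sq_add_cos_sq ψ
    have e1 : p 0 * (1 / p 0) = 1 := by field_simp
    have e2 : p 1 * (1 / p 1) = 1 := by field_simp
    rw [e1, e2]
    simp only [zero_mul, add_zero, one_mul]
    congr 1
    linarith
  · apply hfinal _ ![1 / p 0, -(1 / p 1), 0, 0, 0]
    intro ψ
    unfold Dp
    rw [add_sub_cancel_right]
    simp only [five, Matrix.cons_val]
    have e1 : p 0 * (1 / p 0) = 1 := by field_simp
    have e2 : p 1 * -(1 / p 1) = -1 := by field_simp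
    rw [e1, e2, Real.cos_two_mul']
    simp only [zero_mul, add_zero, one_mul]
    congr 1
    ring
  · apply hfinal _ ![0, 0, 2 / (p 0 ^ 2 - p 1 ^ 2), 0, 0]
    intro ψ
    unfold Dp
    rw [add_sub_cancel_right]
    simp only [five, Matrix.cons_val]
    have e1 : 2 / (p 0 ^ 2 - p 1 ^ 2) * (p 0 ^ 2 - p 1 ^ 2) = 2 := by field_simp
    rw [e1, Real.sin_two_mul]
    simp only [zero_mul, mul_zero, add_zero, zero_add]
  · apply hfinal _ ![0, 0, 0, Real.cos (p 2), Real.sin (p 2)]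
    intro ψ
    unfold Dp
    rw [add_sub_cancel_right]
    simp only [five, Matrix.cons_val]
    have hpos := hE_pos' g1 g2.le ψ
    have e1 : Real.cos (p 2) * Real.cos (ψ + p 2) + Real.sin (p 2) * Real.sin (ψ + p 2) =
        Real.cos ψ := by
      have := Real.cos_sub (ψ + p 2) (p 2)
      rw [add_sub_cancel_right] at this
      linarith
    simp only [zero_mul, mul_zero, add_zero, zero_div, zero_add]
    rw [e1]
    field_simp
  · apply hfinal _ ![0, 0, 0, -Real.sin (p 2), Real.cos (p 2)]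
    intro ψ
    unfold Dp
    rw [add_sub_cancel_right]
    simp only [five, Matrix.cons_val]
    have hpos := hE_pos' g1 g2.le ψ
    have e1 : -Real.sin (p 2) * Real.cos (ψ + p 2) + Real.cos (p 2) * Real.sin (ψ + p 2) =
        Real.sin ψ := by
      have := Real.sin_sub (ψ + p 2) (p 2)
      rw [add_sub_cancel_right] at this
      linarith
    simp only [zero_mul, mul_zero, add_zero, zero_div, zero_add]
    rw [e1]
    field_simp

end LSB
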