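import Pool.Agent.LSB.FLaz

/-!
# Part F, module FCont: continuity in the parameters (by sequences)

All integrands converge pointwise and are uniformly bounded (`wE ≤ 2/b_j`, `|sin t/√(…)| ≤ (4/3)/(a_j b_j)`, as
`a²-l²sin² ≥ 3a²/4`, `b²-l²sin² ≥ 3b²/4`), so use dominated convergence on bounded intervals:
`wE`, then `cE`, then `BE`, then `Efun`, `chi`, `omE`.
-/

namespace LSB

open Real Complex MeasureTheory Filter Topology

variable {aj bj lj : ℕ → ℝ} {a b l : ℝ}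

private theorem lim_le (hab : ∀ j, 0 < bj j ∧ bj j ≤ aj j) (ha : Tendsto aj atTop (𝓝 a))
    (hb : Tendsto bj atTop (𝓝 b)) : b ≤ a :=
  le_of_tendsto_of_tendsto' hb ha fun j => (hab j).2

private theorem lim_l0 (hl : ∀ j, 0 ≤ lj j ∧ lj j ≤ bj j / 2)
    (hlt : Tendsto lj atTop (𝓝 l)) : 0 ≤ l :=
  ge_of_tendsto' hlt fun j => (hl j).1

private theorem lim_lb (hl : ∀ j, 0 ≤ lj j ∧ lj j ≤ bj j / 2) (hb : Tendsto bj atTop (𝓝 b))
    (hlt : Tendsto lj atTop (𝓝 l)) : l ≤ b / 2 :=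
  le_of_tendsto_of_tendsto' hlt (hb.div_const 2) fun j => (hl j).2

private theorem ev_b (hb0 : 0 < b) (hb : Tendsto bj atTop (𝓝 b)) : ∀ᶠ j in atTop, b / 2 ≤ bj j :=
  (hb.eventually (lt_mem_nhds (by linarith : b / 2 < b))).mono fun _ h => h.le

private theorem ev_a (ha : Tendsto aj atTop (𝓝 a)) : ∀ᶠ j in atTop, aj j ≤ a + 1 :=
  (ha.eventually (gt_mem_nhds (by linarith : a < a + 1))).mono fun _ h => h.le

private theorem tendsto_hE (ha : Tendsto aj atTop (𝓝 a)) (hb : Tendsto bj atTop (𝓝 b)) (t : ℝ) :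
    Tendsto (fun j => hE (aj j) (bj j) t) atTop (𝓝 (hE a b t)) := by
  unfold hE
  exact (((ha.pow 2).mul_const _).add ((hb.pow 2).mul_const _)).sqrt

private theorem rad_pos (hb0 : 0 < b) (hba : b ≤ a) (hl0 : 0 ≤ l) (hlb : l ≤ b / 2) (t : ℝ) :
    3 / 4 ≤ 1 - l ^ 2 * hE a b t ^ 2 / (a ^ 2 * b ^ 2) := by
  have h1 := hE_le hb0 hba t
  have h2 := hE_ge hb0 hba t
  have ha0 : 0 < a := hb0.trans_le hba
  have h3 : l ^ 2 * hE a b t ^ 2 / (a ^ 2 * b ^ 2) ≤ 1 / 4 := by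
    rw [div_le_iff₀ (by positivity)]
    have h4 : l ^ 2 ≤ (b / 2) ^ 2 := pow_le_pow_left₀ hl0 hlb 2
    have h5 : hE a b t ^ 2 ≤ a ^ 2 := pow_le_pow_left₀ (hb0.le.trans h2) h1 2
    calc l ^ 2 * hE a b t ^ 2 ≤ (b / 2) ^ 2 * a ^ 2 :=
          mul_le_mul h4 h5 (by positivity) (by positivity)
      _ = 1 / 4 * (a ^ 2 * b ^ 2) := by ring
  linarith

private theorem tendsto_wE (hab : ∀ j, 0 < bj j ∧ bj j ≤ aj j)
    (hl : ∀ j, 0 ≤ lj j ∧ lj j ≤ bj j / 2)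
    (hb0 : 0 < b) (ha : Tendsto aj atTop (𝓝 a)) (hb : Tendsto bj atTop (𝓝 b))
    (hlt : Tendsto lj atTop (𝓝 l)) (t : ℝ) :
    Tendsto (fun j => wE (aj j) (bj j) (lj j) t) atTop (𝓝 (wE a b l t)) := by
  have hba := lim_le hab ha hb
  have hl0 := lim_l0 hl hlt
  have hlb := lim_lb hl hb hlt
  have ha0 : 0 < a := hb0.trans_le hba
  have h1 := tendsto_hE ha hb t
  have h2 := hE_ge hb0 hba t
  have h3 := rad_pos hb0 hba hl0 hlb t
  unfold wE
  refine Tendsto.div tendsto_const_nhds (h1.mul (Tendsto.sqrt ?_)) ?_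
  · refine Tendsto.sub tendsto_const_nhds (Tendsto.div ((hlt.pow 2).mul (h1.pow 2))
      ((ha.pow 2).mul (hb.pow 2)) ?_)
    positivity
  · have h4 : 0 < √(1 - l ^ 2 * hE a b t ^ 2 / (a ^ 2 * b ^ 2)) :=
      Real.sqrt_pos.mpr (by linarith)
    have h5 : 0 < hE a b t := hb0.trans_le h2
    positivity

private theorem ev_wE (hab : ∀ j, 0 < bj j ∧ bj j ≤ aj j)
    (hl : ∀ j, 0 ≤ lj j ∧ lj j ≤ bj j / 2)
    (hb0 : 0 < b) (hb : Tendsto bj atTop (𝓝 b)) :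
    ∀ᶠ j in atTop, ∀ t, ‖wE (aj j) (bj j) (lj j) t‖ ≤ 4 / b := by
  filter_upwards [ev_b hb0 hb] with j hj t
  have h1 := wE_ge (hab j).1 (hab j).2 (hl j).1 (hl j).2 t
  have h2 := wE_le (hab j).1 (hab j).2 (hl j).1 (hl j).2 t
  have ha0 : 0 < aj j := (hab j).1.trans_le (hab j).2
  have h3 : 0 ≤ wE (aj j) (bj j) (lj j) t := le_trans (by positivity) h1
  rw [Real.norm_of_nonneg h3]
  refine h2.trans ?_
  rw [div_le_div_iff₀ (hab j).1 hb0]
  linarith

private theorem tendsto_int_wE (hab : ∀ j, 0 < bj j ∧ bj j ≤ aj j)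
    (hl : ∀ j, 0 ≤ lj j ∧ lj j ≤ bj j / 2)
    (hb0 : 0 < b) (ha : Tendsto aj atTop (𝓝 a)) (hb : Tendsto bj atTop (𝓝 b))
    (hlt : Tendsto lj atTop (𝓝 l)) (x : ℝ) :
    Tendsto (fun j => ∫ t in (0 : ℝ)..x, wE (aj j) (bj j) (lj j) t) atTop
      (𝓝 (∫ t in (0 : ℝ)..x, wE a b l t)) := by
  refine intervalIntegral.tendsto_integral_filter_of_dominated_convergence (fun _ => 4 / b) ?_ ?_
    ?_ ?_
  · filter_upwards with j
    exact (contDiff_wE (hab j).1 (hab j).2 (hl j).1 (hl j).2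
      (n := 0) (by simp)).continuous.aestronglyMeasurable
  · filter_upwards [ev_wE hab hl hb0 hb] with j hj
    filter_upwards with t _
    exact hj t
  · exact intervalIntegrable_const
  · filter_upwards with t _
    exact tendsto_wE hab hl hb0 ha hb hlt t

theorem tendsto_cE (hab : ∀ j, 0 < bj j ∧ bj j ≤ aj j) (hl : ∀ j, 0 ≤ lj j ∧ lj j ≤ bj j / 2)
    (hb0 : 0 < b) (ha : Tendsto aj atTop (𝓝 a)) (hb : Tendsto bj atTop (𝓝 b))
    (hlt : Tendsto lj atTop (𝓝 l)) :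
    Tendsto (fun j => cE (aj j) (bj j) (lj j)) atTop (𝓝 (cE a b l)) := by
  have hba := lim_le hab ha hb
  have hl0 := lim_l0 hl hlt
  have hlb := lim_lb hl hb hlt
  have h1 := cE_ge hb0 hba hl0 hlb
  refine Tendsto.div tendsto_const_nhds (tendsto_int_wE hab hl hb0 ha hb hlt (2 * π)) ?_
  intro h2
  unfold cE at h1
  rw [h2, div_zero] at h1
  linarith

theorem tendsto_BE (hab : ∀ j, 0 < bj j ∧ bj j ≤ aj j) (hl : ∀ j, 0 ≤ lj j ∧ lj j ≤ bj j / 2)
    (hb0 : 0 < b) (ha : Tendsto aj atTop (𝓝 a)) (hb : Tendsto bj atTop (𝓝 b))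
    (hlt : Tendsto lj atTop (𝓝 l)) (ψ : ℝ) :
    Tendsto (fun j => BE (aj j) (bj j) (lj j) ψ) atTop (𝓝 (BE a b l ψ)) :=
  (tendsto_cE hab hl hb0 ha hb hlt).mul (tendsto_int_wE hab hl hb0 ha hb hlt ψ)

theorem tendsto_Efun (hab : ∀ j, 0 < bj j ∧ bj j ≤ aj j) (hl : ∀ j, 0 ≤ lj j ∧ lj j ≤ bj j / 2)
    (hb0 : 0 < b) (ha : Tendsto aj atTop (𝓝 a)) (hb : Tendsto bj atTop (𝓝 b))
    (hlt : Tendsto lj atTop (𝓝 l)) (m : ℤ) {uj : ℕ → ℝ → ℂ} {u : ℝ → ℂ}
    (hc : ∀ j, Continuous (uj j)) {C : ℝ} (hC : ∀ j ψ, ‖uj j ψ‖ ≤ C)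
    (hu : ∀ ψ, Tendsto (fun j => uj j ψ) atTop (𝓝 (u ψ))) :
    Tendsto (fun j => Efun (aj j) (bj j) (lj j) m (uj j)) atTop (𝓝 (Efun a b l m u)) := by
  have hC0 : 0 ≤ C := (norm_nonneg _).trans (hC 0 0)
  refine Tendsto.const_mul _ ?_
  refine intervalIntegral.tendsto_integral_filter_of_dominated_convergence
    (fun _ => C * ((a + 1) * (4 / b))) ?_ ?_ ?_ ?_
  · filter_upwards with j
    have h1 : Continuous (wE (aj j) (bj j) (lj j)) :=
      (contDiff_wE (hab j).1 (hab j).2 (hl j).1 (hl j).2 (n := 0) (by simp)).continuous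
    have h2 : Continuous (BE (aj j) (bj j) (lj j)) :=
      continuous_iff_continuousAt.mpr fun ψ =>
        (hasDerivAt_BE (hab j).1 (hab j).2 (hl j).1 (hl j).2 ψ).continuousAt
    have h3 : Continuous fun ψ : ℝ => uj j ψ *
        ((cE (aj j) (bj j) (lj j) * wE (aj j) (bj j) (lj j) ψ : ℝ) : ℂ) *
        Complex.exp (-((m * BE (aj j) (bj j) (lj j) ψ : ℝ) : ℂ) * I) := by
      have := hc j
      fun_prop
    exact h3.aestronglyMeasurable
  · filter_upwards [ev_wE hab hl hb0 hb, ev_a ha] with j hj hja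
    filter_upwards with t _
    have h4 : ‖Complex.exp (-((m * BE (aj j) (bj j) (lj j) t : ℝ) : ℂ) * I)‖ = 1 := by
      rw [← Complex.ofReal_neg]
      exact Complex.norm_exp_ofReal_mul_I _
    rw [norm_mul, norm_mul, h4, mul_one, Complex.norm_real, norm_mul]
    have h5 := cE_ge (hab j).1 (hab j).2 (hl j).1 (hl j).2
    have h6 := cE_le (hab j).1 (hab j).2 (hl j).1 (hl j).2
    have h7 := (hab j).1
    rw [Real.norm_of_nonneg (show 0 ≤ cE (aj j) (bj j) (lj j) by linarith)]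
    exact mul_le_mul (hC j t) (mul_le_mul (by linarith) (hj t) (norm_nonneg _) (by linarith))
      (mul_nonneg (by linarith) (norm_nonneg _)) hC0
  · exact intervalIntegrable_const
  · filter_upwards with t _
    refine Tendsto.mul (Tendsto.mul (hu t) ?_) ?_
    · exact (Complex.continuous_ofReal.tendsto _).comp
        ((tendsto_cE hab hl hb0 ha hb hlt).mul (tendsto_wE hab hl hb0 ha hb hlt t))
    · refine (Complex.continuous_exp.tendsto _).comp (Tendsto.mul_const _ (Tendsto.neg ?_))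
      exact (Complex.continuous_ofReal.tendsto _).comp
        ((tendsto_BE hab hl hb0 ha hb hlt t).const_mul _)

theorem tendsto_chi (hab : ∀ j, 0 < bj j ∧ bj j ≤ aj j) (hl : ∀ j, 0 ≤ lj j ∧ lj j ≤ bj j / 2)
    (hb0 : 0 < b) (ha : Tendsto aj atTop (𝓝 a)) (hb : Tendsto bj atTop (𝓝 b))
    (hlt : Tendsto lj atTop (𝓝 l)) (n m : ℤ) :
    Tendsto (fun j => chi (aj j) (bj j) (lj j) n m) atTop (𝓝 (chi a b l n m)) := by
  have hz : ∀ j, 0 ≤ (fun _ : ℕ => (0 : ℝ)) j ∧ (fun _ : ℕ => (0 : ℝ)) j ≤ bj j / 2 :=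
    fun j => ⟨le_rfl, by have := (hab j).1; simp only; linarith⟩
  refine tendsto_Efun hab hl hb0 ha hb hlt n (C := 1) ?_ ?_ ?_
  · intro j
    have h2 : Continuous (BE (aj j) (bj j) 0) :=
      continuous_iff_continuousAt.mpr fun ψ =>
        (hasDerivAt_BE (hab j).1 (hab j).2 (hz j).1 (hz j).2 ψ).continuousAt
    fun_prop
  · intro j ψ
    exact (Complex.norm_exp_ofReal_mul_I _).le
  · intro ψ
    refine (Complex.continuous_exp.tendsto _).comp (Tendsto.mul_const _ ?_)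
    exact (Complex.continuous_ofReal.tendsto _).comp
      ((tendsto_BE hab hz hb0 ha hb tendsto_const_nhds ψ).const_mul _)

private theorem om_bound (hb0 : 0 < b) (hba : b ≤ a) (hl0 : 0 ≤ l) (hlb : l ≤ b / 2) (t : ℝ) :
    (3 / 4 * (a * b)) ^ 2 ≤ (a ^ 2 - l ^ 2 * Real.sin t ^ 2) * (b ^ 2 - l ^ 2 * Real.sin t ^ 2) := by
  have h1 : l ^ 2 * Real.sin t ^ 2 ≤ b ^ 2 / 4 := by
    have h2 : l ^ 2 ≤ (b / 2) ^ 2 := pow_le_pow_left₀ hl0 hlb 2
    have h3 := Real.sin_sq_le_one t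
    nlinarith [sq_nonneg (Real.sin t)]
  have h4 : b ^ 2 ≤ a ^ 2 := pow_le_pow_left₀ hb0.le hba 2
  have h5 : 3 / 4 * a ^ 2 ≤ a ^ 2 - l ^ 2 * Real.sin t ^ 2 := by linarith
  have h6 : 3 / 4 * b ^ 2 ≤ b ^ 2 - l ^ 2 * Real.sin t ^ 2 := by linarith
  calc (3 / 4 * (a * b)) ^ 2 = (3 / 4 * a ^ 2) * (3 / 4 * b ^ 2) := by ring
    _ ≤ _ := mul_le_mul h5 h6 (by positivity) (le_trans (by positivity) h5)

theorem tendsto_omE (hab : ∀ j, 0 < bj j ∧ bj j ≤ aj j) (hl : ∀ j, 0 ≤ lj j ∧ lj j ≤ bj j / 2)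
    (hb0 : 0 < b) (ha : Tendsto aj atTop (𝓝 a)) (hb : Tendsto bj atTop (𝓝 b))
    (hlt : Tendsto lj atTop (𝓝 l)) :
    Tendsto (fun j => omE (aj j) (bj j) (lj j)) atTop (𝓝 (omE a b l)) := by
  have hba := lim_le hab ha hb
  have hl0 := lim_l0 hl hlt
  have hlb := lim_lb hl hb hlt
  have ha0 : 0 < a := hb0.trans_le hba
  refine ((tendsto_cE hab hl hb0 ha hb hlt).div_const π).mul ?_
  refine intervalIntegral.tendsto_integral_filter_of_dominated_convergence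
    (fun _ => 2 / b) ?_ ?_ ?_ ?_
  · filter_upwards with j
    have hp : ∀ t, 0 < √((aj j ^ 2 - lj j ^ 2 * Real.sin t ^ 2) *
        (bj j ^ 2 - lj j ^ 2 * Real.sin t ^ 2)) := by
      intro t
      have h1 := om_bound (hab j).1 (hab j).2 (hl j).1 (hl j).2 t
      have h2 := (hab j).1
      have h3 : 0 < aj j := h2.trans_le (hab j).2
      exact Real.sqrt_pos.mpr (lt_of_lt_of_le (by positivity) h1)
    have h3 : Continuous fun t : ℝ => lj j * Real.sin t /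
        √((aj j ^ 2 - lj j ^ 2 * Real.sin t ^ 2) * (bj j ^ 2 - lj j ^ 2 * Real.sin t ^ 2)) :=
      Continuous.div (by fun_prop) (by fun_prop) fun t => (hp t).ne'
    exact h3.aestronglyMeasurable
  · filter_upwards [ev_b hb0 hb] with j hj
    filter_upwards with t _
    have h1 := om_bound (hab j).1 (hab j).2 (hl j).1 (hl j).2 t
    have h2 := (hab j).1
    have h3 : 0 < aj j := h2.trans_le (hab j).2
    have h4 : 3 / 4 * (aj j * bj j) ≤ √((aj j ^ 2 - lj j ^ 2 * Real.sin t ^ 2) *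
        (bj j ^ 2 - lj j ^ 2 * Real.sin t ^ 2)) := Real.le_sqrt_of_sq_le h1
    have h5 : 0 < 3 / 4 * (aj j * bj j) := by positivity
    rw [Real.norm_eq_abs, abs_div, abs_of_pos (h5.trans_le h4), div_le_div_iff₀ (h5.trans_le h4) hb0,
      abs_mul, abs_of_nonneg (hl j).1]
    have h6 := Real.abs_sin_le_one t
    have h7 := (hl j).2
    have h8 := (hl j).1
    calc lj j * |Real.sin t| * b ≤ (bj j / 2) * 1 * b := by
          gcongr
      _ ≤ 2 * (3 / 4 * (aj j * bj j)) := by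
          have := (hab j).2
          nlinarith
      _ ≤ _ := by linarith
  · exact intervalIntegrable_const
  · filter_upwards with t _
    have h1 := om_bound hb0 hba hl0 hlb t
    refine Tendsto.div (hlt.mul_const _) (Tendsto.sqrt ?_) ?_
    · exact ((ha.pow 2).sub ((hlt.pow 2).mul_const _)).mul ((hb.pow 2).sub ((hlt.pow 2).mul_const _))
    · exact (Real.sqrt_pos.mpr (lt_of_lt_of_le (by positivity) h1)).ne'

end LSB
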