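import Pool.Agent.LSB.Defs

/-!
# Part F: definitions for the final argument

Parameter boxes, uniformly bounded families, admissible data.
-/

namespace LSB

open Real Complex MeasureTheory Filter

/-- Parameters of ellipses in a compact box. -/
structure Box (b₁ a₁ a b : ℝ) : Prop where
  pos : 0 < b₁
  hb : b₁ ≤ b
  hab : b < a
  ha : a ≤ a₁

/-- Uniformly bounded families of class `C^n`. -/
def UB {ι : Type*} : ℕ → (ι → ℝ → ℝ) → Prop
  | 0, F => (∀ i, Continuous (F i)) ∧ ∃ C, ∀ i x, |F i x| ≤ C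
  | n + 1, F => (∀ i, Differentiable ℝ (F i)) ∧ (∃ C, ∀ i x, |F i x| ≤ C) ∧
      UB n (fun i => deriv (F i))

/-- Admissible data: an ellipse in the box and a support function with `C^30` norm at most `K` and
all caustics of rotation number `< 1/q₀`. -/
structure Adm (b₁ a₁ K : ℝ) (q₀ : ℕ) (a b : ℝ) (h : ℝ → ℝ) : Prop where
  box : Box b₁ a₁ a b
  supp : IsSupp h
  smooth : ContDiff ℝ 30 h
  bound : ∀ k ≤ 30, ∀ ψ, |iteratedDeriv k h ψ| ≤ K
  caustic : ∀ p q : ℕ, 0 < p → Nat.Coprime p q → q₀ * p < q → ∃ P f, PCaustic h P f p q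

/-- `L²`-distance to the ellipse. -/
noncomputable def eta (a b : ℝ) (h : ℝ → ℝ) : ℝ :=
  √(∫ ψ in (0 : ℝ)..(2 * π), (h ψ - hE a b ψ) ^ 2)

/-- The deviation `u = hE (h - hE)`. -/
noncomputable def dev (a b : ℝ) (h : ℝ → ℝ) (ψ : ℝ) : ℝ := hE a b ψ * (h ψ - hE a b ψ)

end LSB
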