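import Pool.Agent.LSB.FLaz

/-!
# Part F, module FDiff: dependence on `l` near `l = 0`

Uniformly for parameters in the box and `0 ≤ l ≤ b/2`.  With `t = l² hE²/(a²b²) ≤ 1/4`,
`0 ≤ 1/√(1-t) - 1 ≤ 2 t`, so `0 ≤ wE a b l - wE a b 0 ≤ 2 l² hE/(a²b²) ≤ C l²`.  The integrals `I_l` over `[0,2π]`
satisfy `0 ≤ I_l - I_0 ≤ C l²` and `I_l ≥ 2π/a`, so `|cE a b l - cE a b 0| ≤ C l²`, hence for `ψ ∈ [0,2π]`
`|BE a b l ψ - BE a b 0 ψ| ≤ C l²` and `|cE wE(l) - cE wE(0)| ≤ C l²`.  With `|e^{-imx} - e^{-imy}| ≤ |m||x-y|` one gets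
`|Efun a b l m u - Efun a b 0 m u| ≤ C (1+|m|) l² ∫|u|`.
-/

namespace LSB

open Real Complex MeasureTheory Filter

namespace FDiffAux

variable {a b l : ℝ}

theorem inv_sqrt_bounds {t : ℝ} (h0 : 0 ≤ t) (h1 : t ≤ 1 / 4) :
    1 ≤ 1 / √(1 - t) ∧ 1 / √(1 - t) ≤ 1 + 2 * t := by
  have hpos : 0 < 1 - t := by linarith
  have hs : 0 < √(1 - t) := Real.sqrt_pos.2 hpos
  have hsq : √(1 - t) ^ 2 = 1 - t := Real.sq_sqrt hpos.le
  have hle : √(1 - t) ≤ 1 := by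
    have h2 : √(1 - t) ≤ √1 := Real.sqrt_le_sqrt (by linarith)
    rwa [Real.sqrt_one] at h2
  constructor
  · rw [le_div_iff₀ hs]
    linarith
  · rw [div_le_iff₀ hs]
    have h2 : 1 - t ≤ √(1 - t) := by nlinarith
    have h3 : (1 + 2 * t) * (1 - t) ≤ (1 + 2 * t) * √(1 - t) :=
      mul_le_mul_of_nonneg_left h2 (by linarith)
    nlinarith

theorem wE_diff (hb : 0 < b) (hab : b ≤ a) (hl : 0 ≤ l) (hl2 : l ≤ b / 2) (ψ : ℝ) :
    0 ≤ wE a b l ψ - wE a b 0 ψ ∧ wE a b l ψ - wE a b 0 ψ ≤ 2 / b ^ 3 * l ^ 2 := by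
  have ha : 0 < a := lt_of_lt_of_le hb hab
  have hge := hE_ge hb hab ψ
  have hle := hE_le hb hab ψ
  have hpos : 0 < hE a b ψ := lt_of_lt_of_le hb hge
  set t : ℝ := l ^ 2 * hE a b ψ ^ 2 / (a ^ 2 * b ^ 2) with ht
  have ht0 : 0 ≤ t := by positivity
  have ht1 : t ≤ 1 / 4 := by
    rw [ht, div_le_iff₀ (by positivity)]
    have h1 : l ^ 2 ≤ (b / 2) ^ 2 := pow_le_pow_left₀ hl hl2 2
    have h2 : hE a b ψ ^ 2 ≤ a ^ 2 := pow_le_pow_left₀ hpos.le hle 2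
    calc l ^ 2 * hE a b ψ ^ 2 ≤ (b / 2) ^ 2 * a ^ 2 :=
          mul_le_mul h1 h2 (by positivity) (by positivity)
      _ = 1 / 4 * (a ^ 2 * b ^ 2) := by ring
  obtain ⟨h1, h2⟩ := inv_sqrt_bounds ht0 ht1
  have e1 : wE a b l ψ = 1 / hE a b ψ * (1 / √(1 - t)) := by
    unfold wE
    rw [← ht, one_div_mul_one_div]
  rw [e1, wE_zero]
  have e2 : 1 / hE a b ψ * (1 / √(1 - t)) - 1 / hE a b ψ =
      1 / hE a b ψ * (1 / √(1 - t) - 1) := by ring
  rw [e2]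
  constructor
  · exact mul_nonneg (by positivity) (by linarith)
  · have h3 : 1 / hE a b ψ * (1 / √(1 - t) - 1) ≤ 1 / hE a b ψ * (2 * t) :=
      mul_le_mul_of_nonneg_left (by linarith) (by positivity)
    refine h3.trans ?_
    have e3 : 1 / hE a b ψ * (2 * t) = 2 * l ^ 2 * (hE a b ψ / (a ^ 2 * b ^ 2)) := by
      rw [ht]
      field_simp
    rw [e3]
    have h4 : hE a b ψ / (a ^ 2 * b ^ 2) ≤ 1 / b ^ 3 := by
      rw [div_le_div_iff₀ (by positivity) (by positivity), one_mul]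
      calc hE a b ψ * b ^ 3 ≤ a * b ^ 3 := mul_le_mul_of_nonneg_right hle (by positivity)
        _ = (a * b ^ 2) * b := by ring
        _ ≤ (a * b ^ 2) * a := mul_le_mul_of_nonneg_left hab (by positivity)
        _ = a ^ 2 * b ^ 2 := by ring
    calc 2 * l ^ 2 * (hE a b ψ / (a ^ 2 * b ^ 2)) ≤ 2 * l ^ 2 * (1 / b ^ 3) :=
          mul_le_mul_of_nonneg_left h4 (by positivity)
      _ = 2 / b ^ 3 * l ^ 2 := by ring

theorem wE_cont (hb : 0 < b) (hab : b ≤ a) (hl : 0 ≤ l) (hl2 : l ≤ b / 2) :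
    Continuous (wE a b l) :=
  (contDiff_wE hb hab hl hl2 (n := 0) (by simp)).continuous

theorem cE_diff (hb : 0 < b) (hab : b ≤ a) (hl : 0 ≤ l) (hl2 : l ≤ b / 2) :
    |cE a b l - cE a b 0| ≤ 2 * a ^ 2 / b ^ 3 * l ^ 2 := by
  have ha : 0 < a := lt_of_lt_of_le hb hab
  have hb2 : (0 : ℝ) ≤ b / 2 := by positivity
  have hpi := Real.pi_pos
  have hc := wE_cont hb hab hl hl2
  have hc0 := wE_cont hb hab le_rfl hb2
  set Il := ∫ t in (0 : ℝ)..(2 * π), wE a b l t with hIl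
  set I0 := ∫ t in (0 : ℝ)..(2 * π), wE a b 0 t with hI0
  have hlow : ∀ l', 0 ≤ l' → l' ≤ b / 2 → 2 * π / a ≤ ∫ t in (0 : ℝ)..(2 * π), wE a b l' t := by
    intro l' h1 h2
    have h3 : ∫ t in (0 : ℝ)..(2 * π), (1 / a : ℝ) ≤ ∫ t in (0 : ℝ)..(2 * π), wE a b l' t :=
      intervalIntegral.integral_mono_on (by positivity) intervalIntegrable_const
        ((wE_cont hb hab h1 h2).intervalIntegrable _ _) (fun t _ => wE_ge hb hab h1 h2 t)
    rw [intervalIntegral.integral_const, smul_eq_mul] at h3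
    calc 2 * π / a = (2 * π - 0) * (1 / a) := by ring
      _ ≤ _ := h3
  have hl1 := hlow l hl hl2
  have hl0 := hlow 0 le_rfl hb2
  rw [← hIl] at hl1
  rw [← hI0] at hl0
  have hp : 0 < 2 * π / a := by positivity
  have hIlp : 0 < Il := lt_of_lt_of_le hp hl1
  have hI0p : 0 < I0 := lt_of_lt_of_le hp hl0
  have hsub : Il - I0 = ∫ t in (0 : ℝ)..(2 * π), (wE a b l t - wE a b 0 t) := by
    rw [intervalIntegral.integral_sub (hc.intervalIntegrable _ _) (hc0.intervalIntegrable _ _)]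
  have hd0 : 0 ≤ Il - I0 := by
    rw [hsub]
    exact intervalIntegral.integral_nonneg (by positivity) (fun t _ => (wE_diff hb hab hl hl2 t).1)
  have hd1 : Il - I0 ≤ 2 * π * (2 / b ^ 3 * l ^ 2) := by
    rw [hsub]
    have h3 : ∫ t in (0 : ℝ)..(2 * π), (wE a b l t - wE a b 0 t) ≤
        ∫ t in (0 : ℝ)..(2 * π), (2 / b ^ 3 * l ^ 2 : ℝ) :=
      intervalIntegral.integral_mono_on (by positivity)
        ((hc.sub hc0).intervalIntegrable _ _) intervalIntegrable_const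
        (fun t _ => (wE_diff hb hab hl hl2 t).2)
    rw [intervalIntegral.integral_const, smul_eq_mul, sub_zero] at h3
    exact h3
  have e1 : cE a b l - cE a b 0 = -(2 * π * (Il - I0) / (Il * I0)) := by
    unfold cE
    rw [← hIl, ← hI0]
    field_simp
    ring
  rw [e1, abs_neg, abs_of_nonneg (by positivity)]
  have h4 : 2 * π * (Il - I0) / (Il * I0) ≤
      2 * π * (2 * π * (2 / b ^ 3 * l ^ 2)) / ((2 * π / a) * (2 * π / a)) := by
    apply div_le_div₀ (by positivity)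
    · exact mul_le_mul_of_nonneg_left hd1 (by positivity)
    · positivity
    · exact mul_le_mul hl1 hl0 hp.le hIlp.le
  refine h4.trans (le_of_eq ?_)
  field_simp

/-- the constant of `density_diff` -/
noncomputable def C1 (b₁ a₁ : ℝ) : ℝ := 4 * a₁ ^ 2 / b₁ ^ 4 + 2 * a₁ / b₁ ^ 3

theorem dens {b₁ a₁ : ℝ} (hB : Box b₁ a₁ a b) (hl : 0 ≤ l) (hl2 : l ≤ b / 2) (ψ : ℝ) :
    |cE a b l * wE a b l ψ - cE a b 0 * wE a b 0 ψ| ≤ C1 b₁ a₁ * l ^ 2 := by
  have hb1 := hB.pos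
  have hbb := hB.hb
  have hb : 0 < b := lt_of_lt_of_le hb1 hbb
  have hab : b ≤ a := hB.hab.le
  have haa := hB.ha
  have ha : 0 < a := lt_of_lt_of_le hb hab
  have hb2 : (0 : ℝ) ≤ b / 2 := by positivity
  have h1 := cE_diff hb hab hl hl2
  obtain ⟨h2, h3⟩ := wE_diff hb hab hl hl2 ψ
  have h4 := wE_le hb hab hl hl2 ψ
  have h4' : 0 ≤ wE a b l ψ := le_trans (by positivity) (wE_ge hb hab hl hl2 ψ)
  have h5 := cE_le hb hab le_rfl hb2
  have h5' : 0 ≤ cE a b 0 := le_trans (by positivity) (cE_ge hb hab le_rfl hb2)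
  have e1 : cE a b l * wE a b l ψ - cE a b 0 * wE a b 0 ψ =
      (cE a b l - cE a b 0) * wE a b l ψ + cE a b 0 * (wE a b l ψ - wE a b 0 ψ) := by ring
  rw [e1]
  have hl2' : 0 ≤ l ^ 2 := sq_nonneg l
  have hbp3 : b₁ ^ 3 ≤ b ^ 3 := pow_le_pow_left₀ hb1.le hbb 3
  have hap2 : a ^ 2 ≤ a₁ ^ 2 := pow_le_pow_left₀ ha.le haa 2
  have h6 : |(cE a b l - cE a b 0) * wE a b l ψ| ≤ 4 * a₁ ^ 2 / b₁ ^ 4 * l ^ 2 := by
    rw [abs_mul, abs_of_nonneg h4']
    calc |cE a b l - cE a b 0| * wE a b l ψ ≤ (2 * a ^ 2 / b ^ 3 * l ^ 2) * (2 / b) :=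
          mul_le_mul h1 h4 h4' (by positivity)
      _ ≤ (2 * a₁ ^ 2 / b₁ ^ 3 * l ^ 2) * (2 / b₁) := by
          apply mul_le_mul _ _ (by positivity) (by positivity)
          · apply mul_le_mul_of_nonneg_right _ hl2'
            apply div_le_div₀ (by positivity) _ (by positivity) hbp3
            linarith
          · exact div_le_div_of_nonneg_left (by norm_num) hb1 hbb
      _ = 4 * a₁ ^ 2 / b₁ ^ 4 * l ^ 2 := by
          field_simp
          ring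
  have h7 : |cE a b 0 * (wE a b l ψ - wE a b 0 ψ)| ≤ 2 * a₁ / b₁ ^ 3 * l ^ 2 := by
    rw [abs_mul, abs_of_nonneg h5', abs_of_nonneg h2]
    calc cE a b 0 * (wE a b l ψ - wE a b 0 ψ) ≤ a * (2 / b ^ 3 * l ^ 2) :=
          mul_le_mul h5 h3 h2 ha.le
      _ ≤ a₁ * (2 / b₁ ^ 3 * l ^ 2) := by
          apply mul_le_mul haa _ (by positivity) (by linarith)
          apply mul_le_mul_of_nonneg_right _ hl2'
          exact div_le_div_of_nonneg_left (by norm_num) (by positivity) hbp3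
      _ = 2 * a₁ / b₁ ^ 3 * l ^ 2 := by ring
  calc |(cE a b l - cE a b 0) * wE a b l ψ + cE a b 0 * (wE a b l ψ - wE a b 0 ψ)|
      ≤ |(cE a b l - cE a b 0) * wE a b l ψ| + |cE a b 0 * (wE a b l ψ - wE a b 0 ψ)| :=
        abs_add_le _ _
    _ ≤ 4 * a₁ ^ 2 / b₁ ^ 4 * l ^ 2 + 2 * a₁ / b₁ ^ 3 * l ^ 2 := add_le_add h6 h7
    _ = C1 b₁ a₁ * l ^ 2 := by
        unfold C1
        ring

theorem C1_pos {b₁ a₁ : ℝ} (h : 0 < b₁ ∧ 0 < a₁) : 0 < C1 b₁ a₁ := by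
  unfold C1
  have h1 := h.1
  have h2 := h.2
  positivity

theorem box_pos {b₁ a₁ : ℝ} (hB : Box b₁ a₁ a b) : 0 < b₁ ∧ 0 < a₁ := by
  have h1 := hB.pos
  have h2 := hB.hb
  have h3 := hB.hab
  have h4 := hB.ha
  exact ⟨h1, by linarith⟩

theorem BEd {b₁ a₁ : ℝ} (hB : Box b₁ a₁ a b) (hl : 0 ≤ l) (hl2 : l ≤ b / 2) {ψ : ℝ}
    (hψ : ψ ∈ Set.Icc 0 (2 * π)) :
    |BE a b l ψ - BE a b 0 ψ| ≤ 2 * π * C1 b₁ a₁ * l ^ 2 := by
  have hb : 0 < b := lt_of_lt_of_le hB.pos hB.hb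
  have hab : b ≤ a := hB.hab.le
  have hb2 : (0 : ℝ) ≤ b / 2 := by positivity
  have hc := wE_cont hb hab hl hl2
  have hc0 := wE_cont hb hab le_rfl hb2
  have e1 : BE a b l ψ - BE a b 0 ψ =
      ∫ t in (0 : ℝ)..ψ, (cE a b l * wE a b l t - cE a b 0 * wE a b 0 t) := by
    have c1 : IntervalIntegrable (fun t => cE a b l * wE a b l t) volume 0 ψ :=
      (continuous_const.mul hc).intervalIntegrable _ _
    have c0 : IntervalIntegrable (fun t => cE a b 0 * wE a b 0 t) volume 0 ψ :=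
      (continuous_const.mul hc0).intervalIntegrable _ _
    unfold BE
    rw [intervalIntegral.integral_sub c1 c0,
      intervalIntegral.integral_const_mul, intervalIntegral.integral_const_mul]
  rw [e1, ← Real.norm_eq_abs]
  have h1 : ‖∫ t in (0 : ℝ)..ψ, (cE a b l * wE a b l t - cE a b 0 * wE a b 0 t)‖ ≤
      C1 b₁ a₁ * l ^ 2 * |ψ - 0| := by
    apply intervalIntegral.norm_integral_le_of_norm_le_const
    intro t _
    rw [Real.norm_eq_abs]
    exact dens hB hl hl2 t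
  refine h1.trans ?_
  rw [sub_zero, abs_of_nonneg hψ.1]
  have h2 : 0 ≤ C1 b₁ a₁ * l ^ 2 := by
    have := C1_pos (box_pos hB)
    positivity
  calc C1 b₁ a₁ * l ^ 2 * ψ ≤ C1 b₁ a₁ * l ^ 2 * (2 * π) := mul_le_mul_of_nonneg_left hψ.2 h2
    _ = 2 * π * C1 b₁ a₁ * l ^ 2 := by ring

theorem expSub (x y : ℝ) :
    ‖Complex.exp (-(x : ℂ) * I) - Complex.exp (-(y : ℂ) * I)‖ ≤ |x - y| := by
  have e1 : Complex.exp (-(x : ℂ) * I) - Complex.exp (-(y : ℂ) * I) =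
      Complex.exp (-(y : ℂ) * I) * (Complex.exp (I * ((y - x : ℝ) : ℂ)) - 1) := by
    rw [mul_sub, mul_one, ← Complex.exp_add]
    congr 2
    push_cast
    ring
  rw [e1, norm_mul]
  have e2 : ‖Complex.exp (-(y : ℂ) * I)‖ = 1 := by
    have : -(y : ℂ) * I = ((-y : ℝ) : ℂ) * I := by push_cast; ring
    rw [this, Complex.norm_exp_ofReal_mul_I]
  rw [e2, one_mul, abs_sub_comm]
  exact Real.norm_exp_I_mul_ofReal_sub_one_le

end FDiffAux

open FDiffAux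

theorem density_diff {b₁ a₁ : ℝ} : ∃ C > 0, ∀ a b, Box b₁ a₁ a b → ∀ l, 0 ≤ l → l ≤ b / 2 →
    ∀ ψ, |cE a b l * wE a b l ψ - cE a b 0 * wE a b 0 ψ| ≤ C * l ^ 2 := by
  by_cases h : 0 < b₁ ∧ 0 < a₁
  · exact ⟨C1 b₁ a₁, C1_pos h, fun a b hB l hl hl2 ψ => dens hB hl hl2 ψ⟩
  · exact ⟨1, one_pos, fun a b hB => absurd (box_pos hB) h⟩

theorem BE_diff {b₁ a₁ : ℝ} : ∃ C > 0, ∀ a b, Box b₁ a₁ a b → ∀ l, 0 ≤ l → l ≤ b / 2 →
    ∀ ψ ∈ Set.Icc 0 (2 * π), |BE a b l ψ - BE a b 0 ψ| ≤ C * l ^ 2 := by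
  by_cases h : 0 < b₁ ∧ 0 < a₁
  · refine ⟨2 * π * C1 b₁ a₁, ?_, fun a b hB l hl hl2 ψ hψ => BEd hB hl hl2 hψ⟩
    have := C1_pos h
    have := Real.pi_pos
    positivity
  · exact ⟨1, one_pos, fun a b hB => absurd (box_pos hB) h⟩

theorem Efun_diff {b₁ a₁ : ℝ} : ∃ C > 0, ∀ a b, Box b₁ a₁ a b → ∀ l, 0 ≤ l → l ≤ b / 2 →
    ∀ (m : ℤ) (u : ℝ → ℂ), Continuous u →
      ‖Efun a b l m u - Efun a b 0 m u‖ ≤
        C * (1 + |(m : ℝ)|) * l ^ 2 * ∫ ψ in (0 : ℝ)..(2 * π), ‖u ψ‖ := by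
  by_cases h : 0 < b₁ ∧ 0 < a₁
  · have hpi := Real.pi_pos
    have hC1 := C1_pos h
    have hq : 0 < 1 + 4 * π * a₁ / b₁ := by
      have h1 := h.1
      have h2 := h.2
      positivity
    refine ⟨C1 b₁ a₁ * (1 + 4 * π * a₁ / b₁), by positivity, ?_⟩
    intro a b hB l hl hl2 m u hu
    have hb : 0 < b := lt_of_lt_of_le hB.pos hB.hb
    have hab : b ≤ a := hB.hab.le
    have ha : 0 < a := lt_of_lt_of_le hb hab
    have hb2 : (0 : ℝ) ≤ b / 2 := by positivity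
    have hBc : ∀ l', 0 ≤ l' → l' ≤ b / 2 → Continuous (BE a b l') := fun l' h1 h2 =>
      continuous_iff_continuousAt.2 fun ψ => (hasDerivAt_BE hb hab h1 h2 ψ).continuousAt
    have hcont : ∀ l', 0 ≤ l' → l' ≤ b / 2 → Continuous fun ψ =>
        u ψ * (cE a b l' * wE a b l' ψ : ℝ) * Complex.exp (-(m * BE a b l' ψ : ℝ) * I) := by
      intro l' h1 h2
      have c1 := wE_cont hb hab h1 h2
      have c2 := hBc l' h1 h2
      have c3 : Continuous fun ψ => ((cE a b l' * wE a b l' ψ : ℝ) : ℂ) :=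
        Complex.continuous_ofReal.comp (continuous_const.mul c1)
      have c4 : Continuous fun ψ => ((m * BE a b l' ψ : ℝ) : ℂ) :=
        Complex.continuous_ofReal.comp (continuous_const.mul c2)
      exact (hu.mul c3).mul (Complex.continuous_exp.comp (c4.neg.mul continuous_const))
    have k1 := hcont l hl hl2
    have k0 := hcont 0 le_rfl hb2
    unfold Efun
    rw [← mul_sub, ← intervalIntegral.integral_sub (k1.intervalIntegrable _ _)
      (k0.intervalIntegrable _ _), norm_mul]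
    have hn : ‖(1 / (2 * π) : ℂ)‖ ≤ 1 := by
      rw [norm_div, norm_one, norm_mul, Complex.norm_ofNat, Complex.norm_real, Real.norm_eq_abs,
        abs_of_pos hpi, div_le_one (by positivity)]
      have := Real.pi_gt_three
      linarith
    have hpt : ∀ ψ ∈ Set.Icc (0 : ℝ) (2 * π),
        ‖u ψ * (cE a b l * wE a b l ψ : ℝ) * Complex.exp (-(m * BE a b l ψ : ℝ) * I) -
          u ψ * (cE a b 0 * wE a b 0 ψ : ℝ) * Complex.exp (-(m * BE a b 0 ψ : ℝ) * I)‖ ≤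
        C1 b₁ a₁ * (1 + 4 * π * a₁ / b₁) * (1 + |(m : ℝ)|) * l ^ 2 * ‖u ψ‖ := by
      intro ψ hψ
      set ρl : ℝ := cE a b l * wE a b l ψ with hρl
      set ρ0 : ℝ := cE a b 0 * wE a b 0 ψ with hρ0
      set el := Complex.exp (-(m * BE a b l ψ : ℝ) * I) with hel
      set e0 := Complex.exp (-(m * BE a b 0 ψ : ℝ) * I) with he0
      have d1 : |ρl - ρ0| ≤ C1 b₁ a₁ * l ^ 2 := dens hB hl hl2 ψ
      have d2 : ‖el - e0‖ ≤ |(m : ℝ)| * (2 * π * C1 b₁ a₁ * l ^ 2) := by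
        refine (expSub _ _).trans ?_
        rw [← mul_sub, abs_mul]
        exact mul_le_mul_of_nonneg_left (BEd hB hl hl2 hψ) (abs_nonneg _)
      have d3 : ‖el‖ = 1 := by
        rw [hel]
        have : -((m * BE a b l ψ : ℝ) : ℂ) * I = ((-(m * BE a b l ψ) : ℝ) : ℂ) * I := by
          push_cast
          ring
        rw [this, Complex.norm_exp_ofReal_mul_I]
      have d4 : 0 ≤ ρ0 := by
        have h1 := cE_ge hb hab le_rfl hb2
        have h2 := wE_ge hb hab le_rfl hb2 ψ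
        have h3 : 0 ≤ cE a b 0 := le_trans hb2 h1
        have h4 : 0 ≤ wE a b 0 ψ := le_trans (by positivity) h2
        positivity
      have d5 : ρ0 ≤ 2 * a₁ / b₁ := by
        have h1 := cE_le hb hab le_rfl hb2
        have h2 := wE_le hb hab le_rfl hb2 ψ
        have h4 : 0 ≤ wE a b 0 ψ := le_trans (by positivity) (wE_ge hb hab le_rfl hb2 ψ)
        calc ρ0 ≤ a * (2 / b) := mul_le_mul h1 h2 h4 ha.le
          _ ≤ a₁ * (2 / b₁) := by
              apply mul_le_mul hB.ha _ (by positivity) h.2.le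
              exact div_le_div_of_nonneg_left (by norm_num) h.1 hB.hb
          _ = 2 * a₁ / b₁ := by ring
      have e1 : u ψ * (ρl : ℂ) * el - u ψ * (ρ0 : ℂ) * e0 =
          u ψ * (((ρl - ρ0 : ℝ) : ℂ) * el + (ρ0 : ℂ) * (el - e0)) := by
        push_cast
        ring
      rw [e1, norm_mul]
      have d6 : ‖((ρl - ρ0 : ℝ) : ℂ) * el + (ρ0 : ℂ) * (el - e0)‖ ≤
          C1 b₁ a₁ * l ^ 2 + 2 * a₁ / b₁ * (|(m : ℝ)| * (2 * π * C1 b₁ a₁ * l ^ 2)) := by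
        refine (norm_add_le _ _).trans (add_le_add ?_ ?_)
        · rw [norm_mul, d3, mul_one, Complex.norm_real, Real.norm_eq_abs]
          exact d1
        · rw [norm_mul, Complex.norm_real, Real.norm_eq_abs, abs_of_nonneg d4]
          exact mul_le_mul d5 d2 (norm_nonneg _) (by have := h.1; have := h.2; positivity)
      have d7 : C1 b₁ a₁ * l ^ 2 + 2 * a₁ / b₁ * (|(m : ℝ)| * (2 * π * C1 b₁ a₁ * l ^ 2)) ≤
          C1 b₁ a₁ * (1 + 4 * π * a₁ / b₁) * (1 + |(m : ℝ)|) * l ^ 2 := by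
        have g1 : 0 ≤ 4 * π * a₁ / b₁ := by have := h.1; have := h.2; positivity
        have g2 : 0 ≤ |(m : ℝ)| := abs_nonneg _
        have g3 : 0 ≤ C1 b₁ a₁ * l ^ 2 := by positivity
        have e2 : C1 b₁ a₁ * (1 + 4 * π * a₁ / b₁) * (1 + |(m : ℝ)|) * l ^ 2 -
            (C1 b₁ a₁ * l ^ 2 + 2 * a₁ / b₁ * (|(m : ℝ)| * (2 * π * C1 b₁ a₁ * l ^ 2))) =
            C1 b₁ a₁ * l ^ 2 * (|(m : ℝ)| + 4 * π * a₁ / b₁) := by ring
        have g4 : 0 ≤ C1 b₁ a₁ * l ^ 2 * (|(m : ℝ)| + 4 * π * a₁ / b₁) :=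
          mul_nonneg g3 (by linarith)
        linarith
      calc ‖u ψ‖ * ‖((ρl - ρ0 : ℝ) : ℂ) * el + (ρ0 : ℂ) * (el - e0)‖
          ≤ ‖u ψ‖ * (C1 b₁ a₁ * (1 + 4 * π * a₁ / b₁) * (1 + |(m : ℝ)|) * l ^ 2) :=
            mul_le_mul_of_nonneg_left (d6.trans d7) (norm_nonneg _)
        _ = _ := by ring
    have hint : ‖∫ ψ in (0 : ℝ)..(2 * π),
        (u ψ * (cE a b l * wE a b l ψ : ℝ) * Complex.exp (-(m * BE a b l ψ : ℝ) * I) -
          u ψ * (cE a b 0 * wE a b 0 ψ : ℝ) * Complex.exp (-(m * BE a b 0 ψ : ℝ) * I))‖ ≤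
        C1 b₁ a₁ * (1 + 4 * π * a₁ / b₁) * (1 + |(m : ℝ)|) * l ^ 2 *
          ∫ ψ in (0 : ℝ)..(2 * π), ‖u ψ‖ := by
      rw [← intervalIntegral.integral_const_mul]
      refine (intervalIntegral.norm_integral_le_integral_norm (by positivity)).trans ?_
      exact intervalIntegral.integral_mono_on (by positivity)
        ((k1.sub k0).norm.intervalIntegrable _ _)
        ((continuous_const.mul hu.norm).intervalIntegrable _ _) hpt
    calc ‖(1 / (2 * π) : ℂ)‖ * _ ≤ 1 * _ :=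
          mul_le_mul_of_nonneg_right hn (norm_nonneg _)
      _ ≤ _ := by
          rw [one_mul]
          exact hint
  · exact ⟨1, one_pos, fun a b hB => absurd (box_pos hB) h⟩

end LSB
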