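import Pool.Agent.LSB.Defs
import Pool.Agent.LSB.AMain

/-!
# Part A (top): the basic estimate, and the five trivial deformations

## Paper proof (real analysis only)

Notation: `ψ=(x+y)/2`, `δ=(y-x)/2`, `a(x,y)=lineIn h x y`, `b(x,y)=lineOut h x y`, `S=genS h`,
`ρ=h+h''>0`.  One computes `∂_x S=-a`, `∂_y S=b`, `∂_y a=-½ρ(ψ) sin δ`, `∂_x b=½ρ(ψ) sin δ`.
A `(p,q)`-sequence is `x_0,...,x_q` with `0<x_{j+1}-x_j<2π`, `x_q=x_0+2πp`; `F_h(x)=∑_{j<q}S(x_j,x_{j+1})`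
is linear in `h`.

A1 (calibration).  Let `PCaustic h P f p q`.  `f` is continuous (`f x` is the unique solution
`y∈(x,x+2π)` of `a(x,y)=P x`, `a` jointly continuous and strictly decreasing in `y`), injective and
surjective (`f^[q]` is a translation), `f x>x`, hence strictly increasing (continuous injective on ℝ).
`f(x+2π)=f x+2π` (uniqueness).  Let `U'=P`, `G(x,y)=U y-U x-S(x,y)` for `x<y<x+2π`.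
`∂_y G=P y-b(x,y)=b(f⁻¹y,y)-b(x,y)`, which has the sign of `y-f x` (`b` increasing in its first variable);
so `G(x,·)` is minimal exactly at `y=f x`.  `m(x)=G(x,f x)` is constant: `∂_xG(x,f x)=a(x,f x)-P x=0`, and
`m(x')-m(x) ≤ G(x',f x)-G(x,f x)=o(x'-x)`, `m(x)-m(x') ≤ G(x,f x')-G(x',f x')=o(x'-x)`, so `m'=0`.  Hence
with `L_h:=p∫_0^{2π}P-q m`: `F_h(x) ≤ L_h` for every `(p,q)`-sequence and `F_h(x)=L_h` for `x_j=f^[j] x_0`.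

A2 (ellipse).  `h=hE a b`, `0<l<b`, `D(ψ)=arcsin(l h(ψ)/(ab))∈(0,π/2)`, `P_l=√(h²-l²)>0`.  Direct computation
(`h²(ψ±δ)=…`): `P_l(ψ±D)=h cos D±h' sin D`.  `D'=h' tan D/h`, `1±D'=P_l(ψ±D)/(h cos D)>0`.  So
`ψ↦ψ±D(ψ)` are increasing bijections of ℝ and `f_E:ψ-D↦ψ+D`.  `Θ(φ)=c∫_0^φ1/P_l`, `c=2π/∫_0^{2π}1/P_l`:
`d/dψ[Θ(ψ+D)-Θ(ψ-D)]=0` and `d/dψ[Θ(ψ+D)+Θ(ψ-D)]/2=c/(h cos D)=c·wE a b l`; (integrating over a period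
`c=cE a b l`, and `Θ(ψ±D(ψ))=BE a b l ψ±πω` with `ω=Θ(D(0))/π`).  Rotation formula `ω=omE a b l`:
`πω=c∫_0^{D(0)}dφ/√(h²-l²)`, `D(0)=arcsin(l/b)`, substitute `tan φ=l cos t/√(b²-l²)`, `t∈[0,π/2]`:
`h²-l²=(b²-l²)(a²-l²sin²t)/(b²-l²sin²t)`, `dφ=-l sin t √(b²-l²)/(b²-l²sin²t) dt`.
So `f_E(x)=Θ⁻¹(Θ(x)+2πω)`; if `ω=p/q` then `PCaustic (hE a b) P_l f_E p q`.

A3 (quadratic growth).  For `l≤b/2`: `G_E(x,y)-m_E ≥ c l³ (y-f_E x)²` for `x<y<x+2π`: for `|y-f_E x|≤l/a`,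
`G_E(x,y)-m_E=∫_{f x}^y (b(f⁻¹t,t)-b(x,t))dt`, `|b(f⁻¹t,t)-b(x,t)|=|∫_x^{f⁻¹t}½ρ sin((t-x')/2)dx'|≥ c l |f x-t|` since
`t-x'∈[l/a,π+1]`, `ρ=a²b²/h³≥b²/a`, Lipschitz constant of `f_E` at most `2a/b`; beyond `l/a` use monotonicity of `G(x,·)`.

A4 (sandwich).  `d=h-hE`, `ℓ_x(d)=F_d(x)`.  For E-orbits `x^E` and h-orbits `x^h`:
`ℓ_{x^E}(d) ≤ L_h-L_E ≤ ℓ_{x^h}(d)`.  For the h-orbit `x` from `x_0`: `∑(G_E(x_j,x_{j+1})-m_E)=L_E-F_{hE}(x)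
=L_E-L_h+ℓ_x(d) ≤ 4qM`, so `|x_{j+1}-f_E(x_j)|≤C(qM/l³)^{1/2}`, and in the coordinate `Θ` (bi-Lipschitz)
`|x_j-x^E_j|≤Cq(qM/l³)^{1/2}≤C q³ M^{1/2}` for the E-orbit starting at the same `x_0` (`l≥c/q` as `ω≥1/q`, `ω≤C l`).
Hence `0≤(L_h-L_E)-ℓ_{x^E}(d) ≤ C q⁴ M^{3/2}` for EVERY E-orbit.

A5 (Fourier).  `ℓ_{x^E}(d)=(2l/(ab))∑_{j<q}u(ψ_j)`, `u=hE·d` (because `sin D=l h/(ab)`), and `B(ψ_j)=θ+2πωj`, `B=BE a b l`.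
So `Φ(θ)=∑_{j<q}u(B⁻¹(θ+2πωj))` is constant up to `C q⁵M^{3/2}`; its Fourier coefficient of order `kq`, `k≠0`,
is `q·Efun a b l (k q) u`.  This gives the estimate.

A6 (five_vanish).  With the same notation `Φ_u` is constant for the five functions: `u=1` trivially;
`u=hE²` because `2∑h sin D=L_E`; `u=hE cosψ`: `2cosψ_j sinδ_j=sin x_{j+1}-sin x_j` telescopes; same for `hE sinψ`;
`u=hE·hE'` (a multiple of `sin 2ψ`): `2hE'(ψ_j)sinδ_j=P_l(x_{j+1})-P_l(x_j)` telescopes.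
-/

namespace LSB

open Real

/-- The basic estimate, uniform for `b₁ ≤ b < a ≤ a₁`. -/
theorem main_estimate {b₁ a₁ : ℝ} (hb₁ : 0 < b₁) : ∃ C > 0, ∀ a b : ℝ, b₁ ≤ b → b < a → a ≤ a₁ →
    ∀ l : ℝ, 0 < l → l ≤ b / 2 → ∀ p q : ℕ, 0 < p → 0 < q → omE a b l = p / q →
    ∀ h P f : ℝ → ℝ, IsSupp h → PCaustic h P f p q → ∀ M : ℝ, 0 ≤ M → M ≤ 1 →
    (∀ ψ, |h ψ - hE a b ψ| ≤ M) → (∀ ψ, |deriv h ψ - deriv (hE a b) ψ| ≤ M) →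
    ∀ k : ℤ, k ≠ 0 →
      ‖Efun a b l (k * q) (fun ψ => ((hE a b ψ * (h ψ - hE a b ψ) : ℝ) : ℂ))‖ ≤
        C * (q : ℝ) ^ 5 * M ^ (3 / 2 : ℝ) :=
  main_estimate_aux hb₁

end LSB
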