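import Pool.Agent.LSB.FSup
import Pool.Agent.LSB.FDiff
import Pool.Agent.LSB.FOm
import Pool.Agent.LSB.TopA

/-!
# Part F, module FEst: the estimates of the Fourier coefficients (F5, F6)
-/

namespace LSB

open Real Complex MeasureTheory Filter

variable {b₁ a₁ K : ℝ} {q₀ : ℕ}

theorem est_caustic (hb₁ : 0 < b₁) : ∃ C > 0, ∃ η₀ > 0, η₀ ≤ 1 ∧
    ∀ a b h, Adm b₁ a₁ K q₀ a b h → 0 < eta a b h → eta a b h ≤ η₀ →
    ∀ l, 0 < l → l ≤ b / 2 → ∀ p q : ℕ, 0 < p → Nat.Coprime p q → q₀ * p < q →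
      omE a b l = p / q → ∀ k : ℤ, k ≠ 0 →
      ‖Efun a b l (k * q) (fun ψ => ((dev a b h ψ : ℝ) : ℂ))‖ ≤
        C * (q : ℝ) ^ 5 * eta a b h ^ (13 / 10 : ℝ) := by
  obtain ⟨C, hC, hmain⟩ := main_estimate (b₁ := b₁) (a₁ := a₁) hb₁
  obtain ⟨C₁, hC₁, hsup⟩ := sup_bounds (b₁ := b₁) (a₁ := a₁) (K := K) (q₀ := q₀)
  refine ⟨C * C₁ ^ (3 / 2 : ℝ), by positivity, min 1 (C₁⁻¹ ^ (15 / 13 : ℝ)), by positivity,
    min_le_left _ _, ?_⟩
  intro a b h H hη hη0 l hl hl2 p q hp hpq hq hom k hk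
  obtain ⟨-, h1, h2⟩ := hsup a b h H hη (hη0.trans (min_le_left _ _))
  obtain ⟨P, f, hPf⟩ := H.caustic p q hp hpq hq
  have hM1 : C₁ * eta a b h ^ (13 / 15 : ℝ) ≤ 1 := by
    have e1 : eta a b h ^ (13 / 15 : ℝ) ≤ (C₁⁻¹ ^ (15 / 13 : ℝ)) ^ (13 / 15 : ℝ) :=
      Real.rpow_le_rpow hη.le (hη0.trans (min_le_right _ _)) (by norm_num)
    rw [← Real.rpow_mul (by positivity)] at e1
    norm_num at e1
    calc C₁ * eta a b h ^ (13 / 15 : ℝ) ≤ C₁ * C₁⁻¹ := mul_le_mul_of_nonneg_left e1 hC₁.le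
      _ = 1 := mul_inv_cancel₀ hC₁.ne'
  have e := hmain a b H.box.hb H.box.hab H.box.ha l hl hl2 p q hp (by omega) hom h P f H.supp hPf
    (C₁ * eta a b h ^ (13 / 15 : ℝ)) (by positivity) hM1 h1 h2 k hk
  refine e.trans (le_of_eq ?_)
  rw [Real.mul_rpow hC₁.le (by positivity), ← Real.rpow_mul hη.le]
  norm_num
  ring

lemma dev_L1 : ∃ C > 0, ∀ a b h, Adm b₁ a₁ K q₀ a b h →
    (∫ ψ in (0 : ℝ)..(2 * π), ‖((dev a b h ψ : ℝ) : ℂ)‖) ≤ C * eta a b h := by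
  refine ⟨√(2 * π) * (|a₁| + 1), by positivity, ?_⟩
  intro a b h H
  have e1 := cs_interval H.continuous_dev
  have e2 := dev_L2 H
  have e3 : 0 ≤ eta a b h := Real.sqrt_nonneg _
  simp_rw [Complex.norm_real, Real.norm_eq_abs]
  calc _ ≤ _ := e1
    _ ≤ √(2 * π) * (|a₁| * eta a b h) := mul_le_mul_of_nonneg_left e2 (by positivity)
    _ ≤ √(2 * π) * ((|a₁| + 1) * eta a b h) :=
        mul_le_mul_of_nonneg_left (by nlinarith) (by positivity)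
    _ = _ := by ring

theorem est_all (hb₁ : 0 < b₁) : ∃ C > 0, ∃ η₀ > 0, η₀ ≤ 1 ∧
    ∀ a b h, Adm b₁ a₁ K q₀ a b h → 0 < eta a b h → eta a b h ≤ η₀ → ∀ m : ℤ,
      (1 + |(m : ℝ)|) * ‖Efun a b 0 m (fun ψ => ((dev a b h ψ : ℝ) : ℂ))‖ ≤ C * eta a b h := by
  obtain ⟨C₁, hC₁, η₀, hη₀, hη₀1, hcau⟩ := est_caustic (a₁ := a₁) (K := K) (q₀ := q₀) hb₁
  obtain ⟨C₂, hC₂, hdiff⟩ := Efun_diff (b₁ := b₁) (a₁ := a₁)
  obtain ⟨C₃, hC₃, hL1⟩ := dev_L1 (b₁ := b₁) (a₁ := a₁) (K := K) (q₀ := q₀)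
  obtain ⟨c₄, hc₄, C₄, hC₄, hom⟩ := omE_bounds (b₁ := b₁) (a₁ := a₁) hb₁
  obtain ⟨η₅, hη₅, hex⟩ := exists_omE_eq (b₁ := b₁) (a₁ := a₁) hb₁
  obtain ⟨C₆, hC₆, hcoef⟩ := dev_coeff (b₁ := b₁) (a₁ := a₁) (K := K) (q₀ := q₀)
  obtain ⟨C₇, hdec⟩ := dev_decay (b₁ := b₁) (a₁ := a₁) (K := K) (q₀ := q₀)
  -- threshold for q
  obtain ⟨q₁, hq₁⟩ := exists_nat_gt (max (q₀ : ℝ) (1 / η₅))
  refine ⟨(1 + q₁) * C₆ + 2 * |C₇| + (2 * C₁ + 4 * C₂ * (1 / c₄) ^ 2 * C₃) + 1, by positivity,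
    η₀, hη₀, hη₀1, ?_⟩
  intro a b h H hη hη0 m
  have hη1 : eta a b h ≤ 1 := hη0.trans hη₀1
  set η := eta a b h with hηdef
  have hb : 0 < b := H.box.pos.trans_le H.box.hb
  set q : ℕ := m.natAbs with hqdef
  have hmq : |(m : ℝ)| = q := by
    rw [hqdef, Nat.cast_natAbs]
    push_cast
    rfl
  set X := ‖Efun a b 0 m (fun ψ => ((dev a b h ψ : ℝ) : ℂ))‖ with hX
  have hX0 : 0 ≤ X := norm_nonneg _
  rw [hmq]
  have hpos1 : 0 ≤ (1 + (q₁ : ℝ)) * C₆ := by positivity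
  have hpos2 : 0 ≤ 2 * |C₇| := by positivity
  have hpos3 : 0 ≤ 2 * C₁ + 4 * C₂ * (1 / c₄) ^ 2 * C₃ := by positivity
  by_cases hqq : q ≤ q₁
  · -- small m
    have e1 := hcoef a b h H 0 le_rfl (by positivity) m
    have e2 : (q : ℝ) ≤ q₁ := by exact_mod_cast hqq
    calc (1 + (q : ℝ)) * X ≤ (1 + q₁) * (C₆ * η) :=
          mul_le_mul (by linarith) e1 hX0 (by positivity)
      _ ≤ _ := by nlinarith
  push Not at hqq
  have hq1 : (1 : ℝ) ≤ q := by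
    have : 1 ≤ q := by omega
    exact_mod_cast this
  have hq0 : (0 : ℝ) < q := by linarith
  by_cases hrange : η ^ (-(1 / 20) : ℝ) ≤ q
  · -- large m : use decay
    have e1 := hdec a b h H m
    rw [hmq] at e1
    have e2 : (q : ℝ) ^ 30 * X ≤ |C₇| := e1.trans (le_abs_self _)
    have e3 : 1 ≤ η * (q : ℝ) ^ 29 := by
      have f1 : (η ^ (-(1 / 20) : ℝ)) ^ 29 ≤ (q : ℝ) ^ 29 :=
        pow_le_pow_left₀ (by positivity) hrange 29
      have f2 : (η ^ (-(1 / 20) : ℝ)) ^ 29 = η ^ (-(29 / 20) : ℝ) := by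
        rw [← Real.rpow_natCast, ← Real.rpow_mul hη.le]
        norm_num
      rw [f2] at f1
      have f3 : 1 ≤ η * η ^ (-(29 / 20) : ℝ) := by
        nth_rewrite 1 [← Real.rpow_one η]
        rw [← Real.rpow_add hη]
        exact Real.one_le_rpow_of_pos_of_le_one_of_nonpos hη hη1 (by norm_num)
      exact f3.trans (mul_le_mul_of_nonneg_left f1 hη.le)
    have e4 : (1 + (q : ℝ)) * X ≤ 2 * |C₇| * η := by
      have g1 : (1 + (q : ℝ)) * X ≤ 2 * (q * X) := by nlinarith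
      have g2 : (q : ℝ) * X ≤ η * (q : ℝ) ^ 29 * (q * X) := by
        have : 0 ≤ (q : ℝ) * X := by positivity
        nlinarith
      have g3 : η * (q : ℝ) ^ 29 * (q * X) = η * ((q : ℝ) ^ 30 * X) := by ring
      have g4 : η * ((q : ℝ) ^ 30 * X) ≤ η * |C₇| := mul_le_mul_of_nonneg_left e2 hη.le
      linarith
    nlinarith
  · -- middle range : use the caustic
    push Not at hrange
    have hqη : 1 / (q : ℝ) ≤ η₅ := by
      have f1 : 1 / η₅ < q := by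
        calc 1 / η₅ ≤ max (q₀ : ℝ) (1 / η₅) := le_max_right _ _
          _ < q₁ := hq₁
          _ ≤ q := by exact_mod_cast hqq.le
      rw [div_le_iff₀ hq0]
      rw [div_lt_iff₀ hη₅] at f1
      linarith
    obtain ⟨l, hl, hl2, hlom⟩ := hex a b H.box (1 / q) (by positivity) hqη
    have hq₀q : q₀ * 1 < q := by
      have f1 : (q₀ : ℝ) < q := by
        calc (q₀ : ℝ) ≤ max (q₀ : ℝ) (1 / η₅) := le_max_left _ _
          _ < q₁ := hq₁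
          _ ≤ q := by exact_mod_cast hqq.le
      have : q₀ < q := by exact_mod_cast f1
      omega
    obtain ⟨k, hk, hkm⟩ : ∃ k : ℤ, k ≠ 0 ∧ k * q = m := by
      rcases Int.natAbs_eq m with h5 | h5
      · exact ⟨1, one_ne_zero, by rw [hqdef]; omega⟩
      · exact ⟨-1, by norm_num, by rw [hqdef]; omega⟩
    have e1 := hcau a b h H hη hη0 l hl hl2 1 q one_pos (Nat.coprime_one_left q) hq₀q
      (by rw [hlom]; norm_num) k hk
    rw [hkm] at e1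
    have e2 := hdiff a b H.box l hl.le hl2 m (fun ψ => ((dev a b h ψ : ℝ) : ℂ))
      (Complex.continuous_ofReal.comp H.continuous_dev)
    have e3 := hL1 a b h H
    have e4 : l ≤ (1 / c₄) * (1 / q) := by
      have f1 := (hom a b H.box l hl.le hl2).1
      rw [hlom] at f1
      rw [one_div_mul_eq_div, le_div_iff₀ hc₄]
      linarith
    have e5 : X ≤ C₁ * (q : ℝ) ^ 5 * η ^ (13 / 10 : ℝ) +
        C₂ * (1 + q) * l ^ 2 * (C₃ * η) := by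
      have f1 : X ≤ ‖Efun a b l m (fun ψ => ((dev a b h ψ : ℝ) : ℂ))‖ +
          ‖Efun a b l m (fun ψ => ((dev a b h ψ : ℝ) : ℂ)) -
            Efun a b 0 m (fun ψ => ((dev a b h ψ : ℝ) : ℂ))‖ := by
        rw [hX]
        have := norm_sub_norm_le (Efun a b 0 m (fun ψ => ((dev a b h ψ : ℝ) : ℂ)))
          (Efun a b l m (fun ψ => ((dev a b h ψ : ℝ) : ℂ)))
        rw [norm_sub_rev] at this
        linarith
      rw [hmq] at e2
      have f2 : C₂ * (1 + (q : ℝ)) * l ^ 2 *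
          (∫ ψ in (0 : ℝ)..(2 * π), ‖((dev a b h ψ : ℝ) : ℂ)‖) ≤
          C₂ * (1 + q) * l ^ 2 * (C₃ * η) := mul_le_mul_of_nonneg_left e3 (by positivity)
      linarith
    have e6 : (q : ℝ) ^ 6 * η ^ (13 / 10 : ℝ) ≤ η := by
      have f1 : (q : ℝ) ^ 6 ≤ (η ^ (-(1 / 20) : ℝ)) ^ 6 :=
        pow_le_pow_left₀ hq0.le hrange.le 6
      have f2 : (η ^ (-(1 / 20) : ℝ)) ^ 6 = η ^ (-(3 / 10) : ℝ) := by
        rw [← Real.rpow_natCast, ← Real.rpow_mul hη.le]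
        norm_num
      rw [f2] at f1
      calc (q : ℝ) ^ 6 * η ^ (13 / 10 : ℝ) ≤ η ^ (-(3 / 10) : ℝ) * η ^ (13 / 10 : ℝ) :=
            mul_le_mul_of_nonneg_right f1 (by positivity)
        _ = η := by
            rw [← Real.rpow_add hη]
            norm_num
    have e7 : l ^ 2 ≤ (1 / c₄) ^ 2 * (1 / q) ^ 2 := by
      rw [← mul_pow]
      exact pow_le_pow_left₀ hl.le e4 2
    have e8 : (1 + (q : ℝ)) * (C₁ * (q : ℝ) ^ 5 * η ^ (13 / 10 : ℝ)) ≤ 2 * C₁ * η := by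
      have f1 : (1 + (q : ℝ)) * (C₁ * (q : ℝ) ^ 5 * η ^ (13 / 10 : ℝ)) ≤
          (2 * q) * (C₁ * (q : ℝ) ^ 5 * η ^ (13 / 10 : ℝ)) :=
        mul_le_mul_of_nonneg_right (by linarith) (by positivity)
      have f2 : (2 * (q : ℝ)) * (C₁ * (q : ℝ) ^ 5 * η ^ (13 / 10 : ℝ)) =
          2 * C₁ * ((q : ℝ) ^ 6 * η ^ (13 / 10 : ℝ)) := by ring
      have f3 := mul_le_mul_of_nonneg_left e6 (show 0 ≤ 2 * C₁ by positivity)
      linarith
    have e9 : (1 + (q : ℝ)) * (C₂ * (1 + q) * l ^ 2 * (C₃ * η)) ≤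
        4 * C₂ * (1 / c₄) ^ 2 * C₃ * η := by
      have f1 : (1 + (q : ℝ)) ^ 2 * l ^ 2 ≤ 4 * (1 / c₄) ^ 2 := by
        have g1 : (1 + (q : ℝ)) ^ 2 ≤ (2 * q) ^ 2 := pow_le_pow_left₀ (by linarith) (by linarith) 2
        calc (1 + (q : ℝ)) ^ 2 * l ^ 2 ≤ (2 * q) ^ 2 * ((1 / c₄) ^ 2 * (1 / q) ^ 2) :=
              mul_le_mul g1 e7 (by positivity) (by positivity)
          _ = 4 * (1 / c₄) ^ 2 := by field_simp; ring
      calc (1 + (q : ℝ)) * (C₂ * (1 + q) * l ^ 2 * (C₃ * η)) =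
          (C₂ * C₃ * η) * ((1 + (q : ℝ)) ^ 2 * l ^ 2) := by ring
        _ ≤ (C₂ * C₃ * η) * (4 * (1 / c₄) ^ 2) := mul_le_mul_of_nonneg_left f1 (by positivity)
        _ = _ := by ring
    have e10 : (1 + (q : ℝ)) * X ≤ 2 * C₁ * η + 4 * C₂ * (1 / c₄) ^ 2 * C₃ * η := by
      calc (1 + (q : ℝ)) * X ≤ (1 + (q : ℝ)) * (C₁ * (q : ℝ) ^ 5 * η ^ (13 / 10 : ℝ) +
          C₂ * (1 + q) * l ^ 2 * (C₃ * η)) := mul_le_mul_of_nonneg_left e5 (by positivity)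
        _ ≤ _ := by rw [mul_add]; exact add_le_add e8 e9
    nlinarith

end LSB
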