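import Pool.Agent.LSB.FLaz

/-!
# Part F, module FExp: Fourier expansions in the bounce angle

`hasSum_Efun`: `B = BE a b l` is a `C¹` increasing bijection of `ℝ` with `B(ψ+2π)=B ψ+2π`; `A = B⁻¹` is
continuous and `A(s+2π)=A s+2π`.  `U = u ∘ A` is continuous and `2π`-periodic, it gives a continuous function
on `AddCircle (2π)` whose `fourierCoeff` is `(1/2π)∫_0^{2π} U(s) e^{-ims} ds = Efun a b l m u` (substitution
`s = B ψ`; `fourierCoeff_eq_intervalIntegral`, `intervalIntegral.integral_comp_mul_deriv'''`).  Now use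
`hasSum_fourier_series_apply_of_summable` at the point `B ψ`.

`pairing`: multiply by `g` and integrate termwise (`intervalIntegral.hasSum_integral_of_summable_norm` or
dominated convergence: `‖Efun m u‖·sup|g|` is summable).
-/

namespace LSB

open Real Complex MeasureTheory Filter

namespace FExpAux

section

variable {a b l : ℝ}

theorem deriv_pos (hb : 0 < b) (hab : b ≤ a) (hl : 0 ≤ l) (hl2 : l ≤ b / 2) (ψ : ℝ) :
    b / (2 * a) ≤ cE a b l * wE a b l ψ := by
  have h1 := cE_ge hb hab hl hl2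
  have h2 := wE_ge hb hab hl hl2 ψ
  have ha : 0 < a := by linarith
  have h3 : b / (2 * a) = b / 2 * (1 / a) := by field_simp
  rw [h3]
  exact mul_le_mul h1 h2 (by positivity) (by linarith)

theorem continuous_BE (hb : 0 < b) (hab : b ≤ a) (hl : 0 ≤ l) (hl2 : l ≤ b / 2) :
    Continuous (BE a b l) :=
  continuous_iff_continuousAt.2 fun ψ => (hasDerivAt_BE hb hab hl hl2 ψ).continuousAt

theorem strictMono_BE (hb : 0 < b) (hab : b ≤ a) (hl : 0 ≤ l) (hl2 : l ≤ b / 2) :
    StrictMono (BE a b l) := by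
  apply strictMono_of_deriv_pos
  intro ψ
  rw [(hasDerivAt_BE hb hab hl hl2 ψ).deriv]
  have ha : 0 < a := by linarith
  exact lt_of_lt_of_le (by positivity) (deriv_pos hb hab hl hl2 ψ)

theorem mono_sub (hb : 0 < b) (hab : b ≤ a) (hl : 0 ≤ l) (hl2 : l ≤ b / 2) :
    Monotone (fun ψ => BE a b l ψ - b / (2 * a) * ψ) := by
  have hd : ∀ ψ, HasDerivAt (fun ψ => BE a b l ψ - b / (2 * a) * ψ)
      (cE a b l * wE a b l ψ - b / (2 * a)) ψ := by
    intro ψ
    have h1 := (hasDerivAt_id ψ).const_mul (b / (2 * a))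
    have h2 : HasDerivAt (fun ψ => BE a b l ψ - b / (2 * a) * ψ)
        (cE a b l * wE a b l ψ - b / (2 * a) * 1) ψ := (hasDerivAt_BE hb hab hl hl2 ψ).sub h1
    rw [mul_one] at h2
    exact h2
  apply monotone_of_deriv_nonneg
  · exact fun ψ => (hd ψ).differentiableAt
  · intro ψ
    rw [(hd ψ).deriv]
    have := deriv_pos hb hab hl hl2 ψ
    linarith

theorem surjective_BE (hb : 0 < b) (hab : b ≤ a) (hl : 0 ≤ l) (hl2 : l ≤ b / 2) :
    Function.Surjective (BE a b l) := by
  have ha : 0 < a := by linarith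
  have hc : 0 < b / (2 * a) := by positivity
  have hm := mono_sub hb hab hl hl2
  apply (continuous_BE hb hab hl hl2).surjective
  · refine tendsto_atTop_mono' atTop ?_ (tendsto_id.const_mul_atTop hc)
    filter_upwards [eventually_ge_atTop 0] with ψ hψ
    have := hm hψ
    simp only [BE_zero] at this
    simp only [id]
    linarith
  · refine tendsto_atBot_mono' atBot ?_ (tendsto_id.const_mul_atBot hc)
    filter_upwards [eventually_le_atBot 0] with ψ hψ
    have := hm hψ
    simp only [BE_zero] at this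
    simp only [id]
    linarith

end

end FExpAux

open FExpAux

theorem hasSum_Efun {a b l : ℝ} (hb : 0 < b) (hab : b ≤ a) (hl : 0 ≤ l) (hl2 : l ≤ b / 2)
    {u : ℝ → ℂ} (hu : Continuous u) (hper : ∀ ψ, u (ψ + 2 * π) = u ψ)
    (hs : Summable fun m : ℤ => ‖Efun a b l m u‖) (ψ : ℝ) :
    HasSum (fun m : ℤ => Efun a b l m u * Complex.exp ((m * BE a b l ψ : ℝ) * I)) (u ψ) := by
  have hmono := strictMono_BE hb hab hl hl2
  have hsurj := surjective_BE hb hab hl hl2
  set e : ℝ ≃o ℝ := StrictMono.orderIsoOfSurjective _ hmono hsurj with he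
  have heB : ∀ x, e x = BE a b l x := fun x => rfl
  have hAc : Continuous e.symm := e.symm.continuous
  have hBA : ∀ x, BE a b l (e.symm x) = x := fun x => by rw [← heB, e.apply_symm_apply]
  have hAB : ∀ x, e.symm (BE a b l x) = x := fun x => by rw [← heB, e.symm_apply_apply]
  have hU : Function.Periodic (fun x => u (e.symm x)) (2 * π) := by
    intro x
    have h1 : e.symm (x + 2 * π) = e.symm x + 2 * π := by
      apply hmono.injective
      rw [hBA, BE_add_two_pi hb hab hl hl2, hBA]
    simp only [h1]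
    exact hper _
  have hUc : Continuous (fun x => u (e.symm x)) := hu.comp hAc
  have hfact : Fact (0 < 2 * π) := ⟨Real.two_pi_pos⟩
  have hgc : Continuous (hU.lift : AddCircle (2 * π) → ℂ) := by
    have hq : Topology.IsQuotientMap
        ((↑) : ℝ → ℝ ⧸ (AddSubgroup.zmultiples (2 * π))) :=
      QuotientAddGroup.isQuotientMap_mk _
    exact hq.continuous_iff.2 hUc
  set g : C(AddCircle (2 * π), ℂ) := ⟨hU.lift, hgc⟩ with hg
  have hgx : ∀ x : ℝ, g (x : AddCircle (2 * π)) = u (e.symm x) := fun x => rfl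
  have hfour : ∀ (m : ℤ) (x : ℝ), (fourier m (x : AddCircle (2 * π)) : ℂ) =
      Complex.exp ((m * x : ℝ) * I) := by
    intro m x
    rw [fourier_coe_apply]
    congr 1
    push_cast
    have : (π : ℂ) ≠ 0 := Complex.ofReal_ne_zero.2 Real.pi_ne_zero
    field_simp
  have hcoef : ∀ m : ℤ, fourierCoeff (g : AddCircle (2 * π) → ℂ) m = Efun a b l m u := by
    intro m
    rw [fourierCoeff_eq_intervalIntegral _ _ 0, zero_add]
    have h2π : BE a b l (2 * π) = 2 * π := by
      have h := BE_add_two_pi hb hab hl hl2 0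
      rw [BE_zero, zero_add] at h
      simpa using h
    have hsub := intervalIntegral.integral_deriv_smul_comp'' (a := 0) (b := 2 * π)
      (f := BE a b l) (f' := fun ψ => cE a b l * wE a b l ψ)
      (g := fun s : ℝ => Complex.exp (-(m * s : ℝ) * I) * u (e.symm s))
      (continuous_BE hb hab hl hl2).continuousOn
      (fun ψ _ => (hasDerivAt_BE hb hab hl hl2 ψ).hasDerivWithinAt)
      (((contDiff_wE hb hab hl hl2 (n := 0) (by simp)).continuous).const_mul _).continuousOn
      (Continuous.continuousOn (by fun_prop))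
    rw [BE_zero, h2π] at hsub
    unfold Efun
    have e1 : (fun x : ℝ => (fourier (-m) (x : AddCircle (2 * π)) : ℂ) •
        g (x : AddCircle (2 * π))) =
        fun s : ℝ => Complex.exp (-(m * s : ℝ) * I) * u (e.symm s) := by
      funext s
      rw [hfour, hgx, smul_eq_mul]
      congr 2
      push_cast
      ring
    rw [e1, ← hsub]
    have e2 : (fun x : ℝ => (cE a b l * wE a b l x) •
        ((fun s : ℝ => Complex.exp (-(m * s : ℝ) * I) * u (e.symm s)) ∘ BE a b l) x) =
        fun ψ => u ψ * (cE a b l * wE a b l ψ : ℝ) * Complex.exp (-(m * BE a b l ψ : ℝ) * I) := by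
      funext ψ
      simp only [Function.comp_apply]
      rw [hAB, Complex.real_smul]
      ring
    rw [e2, Complex.real_smul]
    push_cast
    rfl
  have hsum : Summable (fourierCoeff (g : AddCircle (2 * π) → ℂ)) := by
    have e3 : fourierCoeff (g : AddCircle (2 * π) → ℂ) = fun m => Efun a b l m u := funext hcoef
    rw [e3]
    exact hs.of_norm
  have h := has_pointwise_sum_fourier_series_of_summable hsum (BE a b l ψ : AddCircle (2 * π))
  rw [hgx, hAB] at h
  have e4 : (fun m : ℤ => Efun a b l m u * Complex.exp ((m * BE a b l ψ : ℝ) * I)) =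
      fun i : ℤ => fourierCoeff (g : AddCircle (2 * π) → ℂ) i •
        (fourier i (BE a b l ψ : AddCircle (2 * π)) : ℂ) := by
    funext m
    rw [hcoef, hfour, smul_eq_mul]
  rw [e4]
  exact h

theorem pairing {a b : ℝ} (hb : 0 < b) (hab : b ≤ a)
    {u : ℝ → ℂ} (hu : Continuous u) (hper : ∀ ψ, u (ψ + 2 * π) = u ψ)
    (hs : Summable fun m : ℤ => ‖Efun a b 0 m u‖) {g : ℝ → ℂ} (hg : Continuous g) :
    HasSum (fun m : ℤ => Efun a b 0 m u * ((1 / (2 * π) : ℂ) *
        ∫ ψ in (0 : ℝ)..(2 * π), g ψ * Complex.exp ((m * BE a b 0 ψ : ℝ) * I)))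
      ((1 / (2 * π) : ℂ) * ∫ ψ in (0 : ℝ)..(2 * π), u ψ * g ψ) := by
  have hl2 : (0 : ℝ) ≤ b / 2 := by linarith
  have hBc := continuous_BE hb hab le_rfl hl2
  obtain ⟨C, hC⟩ := (isCompact_uIcc (a := (0 : ℝ)) (b := 2 * π)).exists_bound_of_continuousOn
    hg.continuousOn
  have hmain := intervalIntegral.hasSum_integral_of_dominated_convergence
    (μ := volume) (a := (0 : ℝ)) (b := 2 * π)
    (F := fun (m : ℤ) (ψ : ℝ) =>
      Efun a b 0 m u * Complex.exp ((m * BE a b 0 ψ : ℝ) * I) * g ψ)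
    (f := fun ψ => u ψ * g ψ) (fun m _ => ‖Efun a b 0 m u‖ * C)
    (fun m => Continuous.aestronglyMeasurable (by fun_prop))
    (fun m => Eventually.of_forall fun ψ hψ => by
      rw [norm_mul, norm_mul, Complex.norm_exp_ofReal_mul_I, mul_one]
      exact mul_le_mul_of_nonneg_left (hC ψ (Set.uIoc_subset_uIcc hψ)) (norm_nonneg _))
    (Eventually.of_forall fun ψ _ => hs.mul_right C)
    intervalIntegrable_const
    (Eventually.of_forall fun ψ _ =>
      (hasSum_Efun hb hab le_rfl hl2 hu hper hs ψ).mul_right (g ψ))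
  have h2 := hmain.mul_left (1 / (2 * π) : ℂ)
  have e1 : (fun m : ℤ => Efun a b 0 m u * ((1 / (2 * π) : ℂ) *
      ∫ ψ in (0 : ℝ)..(2 * π), g ψ * Complex.exp ((m * BE a b 0 ψ : ℝ) * I))) =
      fun m : ℤ => (1 / (2 * π) : ℂ) * ∫ ψ in (0 : ℝ)..(2 * π),
        Efun a b 0 m u * Complex.exp ((m * BE a b 0 ψ : ℝ) * I) * g ψ := by
    funext m
    have e2 : (fun ψ : ℝ => Efun a b 0 m u * Complex.exp ((m * BE a b 0 ψ : ℝ) * I) * g ψ) =
        fun ψ : ℝ => Efun a b 0 m u * (g ψ * Complex.exp ((m * BE a b 0 ψ : ℝ) * I)) := by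
      funext ψ
      ring
    rw [e2, intervalIntegral.integral_const_mul]
    ring
  rw [e1]
  exact h2

end LSB
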