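import Pool.Agent.LSB.FDefs

/-!
# Part F, module FLaz: elementary facts on `hE`, `wE`, `cE`, `BE`

Everything for `0 < b ≤ a` and `0 ≤ l ≤ b/2`.  `hE² = a² cos² + b² sin²` is between `b²` and `a²`, so
`l² hE²/(a² b²) ≤ l²/b² ≤ 1/4` and `wE = 1/(hE √(1 - l² hE²/(a²b²)))` is between `1/a` and
`(1/b)(4/3)^{1/2} ≤ 2/b`.  So `∫_0^{2π} wE` is between `2π/a` and `4π/b`, and `b/2 ≤ cE ≤ a`.
`BE` is the primitive of `cE·wE` with `BE 0 = 0`; `BE (ψ+2π) = BE ψ + 2π` by periodicity of `wE`.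
-/

namespace LSB

open Real Complex MeasureTheory Filter

variable {a b l : ℝ}

theorem hE_sq (a b ψ : ℝ) : hE a b ψ ^ 2 = a ^ 2 * Real.cos ψ ^ 2 + b ^ 2 * Real.sin ψ ^ 2 :=
  Real.sq_sqrt (by positivity)

theorem hE_ge (hb : 0 < b) (hab : b ≤ a) (ψ : ℝ) : b ≤ hE a b ψ := by
  rw [hE]
  refine Real.le_sqrt_of_sq_le ?_
  have h1 := Real.sin_sq_add_cos_sq ψ
  have h2 : b ^ 2 ≤ a ^ 2 := pow_le_pow_left₀ hb.le hab 2
  nlinarith [mul_le_mul_of_nonneg_right h2 (sq_nonneg (Real.cos ψ))]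

theorem hE_le (hb : 0 < b) (hab : b ≤ a) (ψ : ℝ) : hE a b ψ ≤ a := by
  rw [hE]
  refine Real.sqrt_le_iff.2 ⟨hb.le.trans hab, ?_⟩
  have h1 := Real.sin_sq_add_cos_sq ψ
  have h2 : b ^ 2 ≤ a ^ 2 := pow_le_pow_left₀ hb.le hab 2
  nlinarith [mul_le_mul_of_nonneg_right h2 (sq_nonneg (Real.sin ψ))]

theorem hE_pos (hb : 0 < b) (hab : b ≤ a) (ψ : ℝ) : 0 < hE a b ψ :=
  hb.trans_le (hE_ge hb hab ψ)

theorem hE_add_pi (a b ψ : ℝ) : hE a b (ψ + π) = hE a b ψ := by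
  rw [hE, hE, Real.cos_add_pi, Real.sin_add_pi, neg_sq, neg_sq]

theorem hE_add_two_pi (a b ψ : ℝ) : hE a b (ψ + 2 * π) = hE a b ψ := by
  rw [hE, hE, Real.cos_add_two_pi, Real.sin_add_two_pi]

theorem contDiff_hE (hb : 0 < b) (hab : b ≤ a) {n : WithTop ℕ∞} (hn : n ≤ (⊤ : ℕ∞)) :
    ContDiff ℝ n (hE a b) := by
  have h1 : ContDiff ℝ (⊤ : ℕ∞) (fun ψ : ℝ => a ^ 2 * Real.cos ψ ^ 2 + b ^ 2 * Real.sin ψ ^ 2) := by
    fun_prop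
  have h2 : ∀ ψ : ℝ, a ^ 2 * Real.cos ψ ^ 2 + b ^ 2 * Real.sin ψ ^ 2 ≠ 0 := by
    intro ψ
    rw [← hE_sq]
    exact pow_ne_zero 2 (hE_pos hb hab ψ).ne'
  exact (h1.sqrt h2).of_le hn

theorem hasDerivAt_hE (hb : 0 < b) (hab : b ≤ a) (ψ : ℝ) :
    HasDerivAt (hE a b) ((b ^ 2 - a ^ 2) * Real.sin ψ * Real.cos ψ / hE a b ψ) ψ := by
  have h0 : a ^ 2 * Real.cos ψ ^ 2 + b ^ 2 * Real.sin ψ ^ 2 ≠ 0 := by
    rw [← hE_sq]
    exact pow_ne_zero 2 (hE_pos hb hab ψ).ne'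
  have h1 : HasDerivAt (fun ψ : ℝ => a ^ 2 * Real.cos ψ ^ 2 + b ^ 2 * Real.sin ψ ^ 2)
      (a ^ 2 * (2 * Real.cos ψ ^ 1 * -Real.sin ψ) + b ^ 2 * (2 * Real.sin ψ ^ 1 * Real.cos ψ)) ψ := by
    have h2 := ((Real.hasDerivAt_cos ψ).pow 2).const_mul (a ^ 2)
    have h3 := ((Real.hasDerivAt_sin ψ).pow 2).const_mul (b ^ 2)
    exact_mod_cast h2.add h3
  have h4 := h1.sqrt h0
  have h5 := (hE_pos hb hab ψ).ne'
  have h6 : √(a ^ 2 * Real.cos ψ ^ 2 + b ^ 2 * Real.sin ψ ^ 2) = hE a b ψ := rfl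
  rw [h6] at h4
  have h7 : (b ^ 2 - a ^ 2) * Real.sin ψ * Real.cos ψ / hE a b ψ =
      (a ^ 2 * (2 * Real.cos ψ ^ 1 * -Real.sin ψ) + b ^ 2 * (2 * Real.sin ψ ^ 1 * Real.cos ψ)) /
        (2 * hE a b ψ) := by
    field_simp
    ring
  rw [h7]
  exact h4

theorem wE_zero (a b ψ : ℝ) : wE a b 0 ψ = 1 / hE a b ψ := by
  rw [wE]
  norm_num

/-- the radicand -/
theorem rad_bound (hb : 0 < b) (hab : b ≤ a) (hl : 0 ≤ l) (hl2 : l ≤ b / 2) (ψ : ℝ) :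
    3 / 4 ≤ 1 - l ^ 2 * hE a b ψ ^ 2 / (a ^ 2 * b ^ 2) ∧
      1 - l ^ 2 * hE a b ψ ^ 2 / (a ^ 2 * b ^ 2) ≤ 1 := by
  have ha : 0 < a := hb.trans_le hab
  have h1 := hE_pos hb hab ψ
  have h2 := hE_le hb hab ψ
  have h3 : hE a b ψ ^ 2 ≤ a ^ 2 := pow_le_pow_left₀ h1.le h2 2
  have h4 : l ^ 2 ≤ (b / 2) ^ 2 := pow_le_pow_left₀ hl hl2 2
  have h5 : l ^ 2 * hE a b ψ ^ 2 ≤ (b / 2) ^ 2 * a ^ 2 :=
    mul_le_mul h4 h3 (by positivity) (by positivity)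
  have h6 : l ^ 2 * hE a b ψ ^ 2 / (a ^ 2 * b ^ 2) ≤ 1 / 4 := by
    rw [div_le_iff₀ (by positivity)]
    nlinarith
  have h7 : 0 ≤ l ^ 2 * hE a b ψ ^ 2 / (a ^ 2 * b ^ 2) := by positivity
  constructor <;> linarith

theorem wE_ge (hb : 0 < b) (hab : b ≤ a) (hl : 0 ≤ l) (hl2 : l ≤ b / 2) (ψ : ℝ) :
    1 / a ≤ wE a b l ψ := by
  obtain ⟨h1, h2⟩ := rad_bound hb hab hl hl2 ψ
  have h3 := hE_pos hb hab ψ
  have h4 := hE_le hb hab ψ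
  have h5 : √(1 - l ^ 2 * hE a b ψ ^ 2 / (a ^ 2 * b ^ 2)) ≤ 1 := by
    exact Real.sqrt_le_one.2 h2
  have h6 : 0 < √(1 - l ^ 2 * hE a b ψ ^ 2 / (a ^ 2 * b ^ 2)) := Real.sqrt_pos.2 (by linarith)
  rw [wE]
  apply one_div_le_one_div_of_le (mul_pos h3 h6)
  calc hE a b ψ * √(1 - l ^ 2 * hE a b ψ ^ 2 / (a ^ 2 * b ^ 2)) ≤ a * 1 :=
        mul_le_mul h4 h5 h6.le (hb.le.trans hab)
    _ = a := mul_one a

theorem wE_pos (hb : 0 < b) (hab : b ≤ a) (hl : 0 ≤ l) (hl2 : l ≤ b / 2) (ψ : ℝ) :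
    0 < wE a b l ψ :=
  (one_div_pos.2 (hb.trans_le hab)).trans_le (wE_ge hb hab hl hl2 ψ)

theorem wE_le (hb : 0 < b) (hab : b ≤ a) (hl : 0 ≤ l) (hl2 : l ≤ b / 2) (ψ : ℝ) :
    wE a b l ψ ≤ 2 / b := by
  obtain ⟨h1, h2⟩ := rad_bound hb hab hl hl2 ψ
  have h3 := hE_pos hb hab ψ
  have h4 := hE_ge hb hab ψ
  have h5 : 1 / 2 ≤ √(1 - l ^ 2 * hE a b ψ ^ 2 / (a ^ 2 * b ^ 2)) := by
    refine Real.le_sqrt_of_sq_le ?_
    linarith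
  have h6 : b * (1 / 2) ≤ hE a b ψ * √(1 - l ^ 2 * hE a b ψ ^ 2 / (a ^ 2 * b ^ 2)) :=
    mul_le_mul h4 h5 (by norm_num) h3.le
  rw [wE]
  calc 1 / (hE a b ψ * √(1 - l ^ 2 * hE a b ψ ^ 2 / (a ^ 2 * b ^ 2))) ≤ 1 / (b * (1 / 2)) :=
        one_div_le_one_div_of_le (by positivity) h6
    _ = 2 / b := by field_simp

theorem wE_add_two_pi (a b l ψ : ℝ) : wE a b l (ψ + 2 * π) = wE a b l ψ := by
  rw [wE, wE, hE_add_two_pi]

theorem contDiff_wE (hb : 0 < b) (hab : b ≤ a) (hl : 0 ≤ l) (hl2 : l ≤ b / 2)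
    {n : WithTop ℕ∞} (hn : n ≤ (⊤ : ℕ∞)) : ContDiff ℝ n (wE a b l) := by
  have h1 := contDiff_hE hb hab hn
  have h2 : ContDiff ℝ n (fun ψ => 1 - l ^ 2 * hE a b ψ ^ 2 / (a ^ 2 * b ^ 2)) :=
    contDiff_const.sub ((contDiff_const.mul (h1.pow 2)).div_const _)
  have h3 : ∀ ψ, 1 - l ^ 2 * hE a b ψ ^ 2 / (a ^ 2 * b ^ 2) ≠ 0 := fun ψ => by
    have := (rad_bound hb hab hl hl2 ψ).1
    linarith
  refine contDiff_const.div (h1.mul (h2.sqrt h3)) fun ψ => ?_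
  refine mul_ne_zero (hE_pos hb hab ψ).ne' (Real.sqrt_pos.2 ?_).ne'
  have := (rad_bound hb hab hl hl2 ψ).1
  linarith

theorem continuous_wE (hb : 0 < b) (hab : b ≤ a) (hl : 0 ≤ l) (hl2 : l ≤ b / 2) :
    Continuous (wE a b l) :=
  (contDiff_wE hb hab hl hl2 (n := 0) (by exact_mod_cast le_top)).continuous

theorem int_wE_le (hb : 0 < b) (hab : b ≤ a) (hl : 0 ≤ l) (hl2 : l ≤ b / 2) :
    ∫ t in (0 : ℝ)..(2 * π), wE a b l t ≤ 4 * π / b := by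
  have h1 : ∫ t in (0 : ℝ)..(2 * π), wE a b l t ≤ ∫ _ in (0 : ℝ)..(2 * π), 2 / b :=
    intervalIntegral.integral_mono_on (by positivity)
      ((continuous_wE hb hab hl hl2).intervalIntegrable _ _)
      (continuous_const.intervalIntegrable _ _) fun ψ _ => wE_le hb hab hl hl2 ψ
  rw [intervalIntegral.integral_const, sub_zero, smul_eq_mul] at h1
  refine h1.trans_eq ?_
  ring

theorem int_wE_ge (hb : 0 < b) (hab : b ≤ a) (hl : 0 ≤ l) (hl2 : l ≤ b / 2) :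
    2 * π / a ≤ ∫ t in (0 : ℝ)..(2 * π), wE a b l t := by
  have h1 : ∫ _ in (0 : ℝ)..(2 * π), 1 / a ≤ ∫ t in (0 : ℝ)..(2 * π), wE a b l t :=
    intervalIntegral.integral_mono_on (by positivity)
      (continuous_const.intervalIntegrable _ _)
      ((continuous_wE hb hab hl hl2).intervalIntegrable _ _) fun ψ _ => wE_ge hb hab hl hl2 ψ
  rw [intervalIntegral.integral_const, sub_zero, smul_eq_mul] at h1
  refine le_trans (le_of_eq ?_) h1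
  ring

theorem int_wE_pos (hb : 0 < b) (hab : b ≤ a) (hl : 0 ≤ l) (hl2 : l ≤ b / 2) :
    0 < ∫ t in (0 : ℝ)..(2 * π), wE a b l t :=
  (div_pos (by positivity) (hb.trans_le hab)).trans_le (int_wE_ge hb hab hl hl2)

theorem cE_ge (hb : 0 < b) (hab : b ≤ a) (hl : 0 ≤ l) (hl2 : l ≤ b / 2) : b / 2 ≤ cE a b l := by
  rw [cE, le_div_iff₀ (int_wE_pos hb hab hl hl2)]
  calc b / 2 * ∫ t in (0 : ℝ)..(2 * π), wE a b l t ≤ b / 2 * (4 * π / b) :=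
        mul_le_mul_of_nonneg_left (int_wE_le hb hab hl hl2) (by positivity)
    _ = 2 * π := by
        field_simp
        ring

theorem cE_le (hb : 0 < b) (hab : b ≤ a) (hl : 0 ≤ l) (hl2 : l ≤ b / 2) : cE a b l ≤ a := by
  have ha : 0 < a := hb.trans_le hab
  rw [cE, div_le_iff₀ (int_wE_pos hb hab hl hl2)]
  calc 2 * π = a * (2 * π / a) := by field_simp
    _ ≤ _ := mul_le_mul_of_nonneg_left (int_wE_ge hb hab hl hl2) ha.le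

theorem cE_pos (hb : 0 < b) (hab : b ≤ a) (hl : 0 ≤ l) (hl2 : l ≤ b / 2) : 0 < cE a b l :=
  (half_pos hb).trans_le (cE_ge hb hab hl hl2)

theorem BE_zero (a b l : ℝ) : BE a b l 0 = 0 := by
  rw [BE, intervalIntegral.integral_same, mul_zero]

theorem hasDerivAt_BE (hb : 0 < b) (hab : b ≤ a) (hl : 0 ≤ l) (hl2 : l ≤ b / 2) (ψ : ℝ) :
    HasDerivAt (BE a b l) (cE a b l * wE a b l ψ) ψ :=
  ((continuous_wE hb hab hl hl2).integral_hasStrictDerivAt 0 ψ).hasDerivAt.const_mul _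

theorem BE_add_two_pi (hb : 0 < b) (hab : b ≤ a) (hl : 0 ≤ l) (hl2 : l ≤ b / 2) (ψ : ℝ) :
    BE a b l (ψ + 2 * π) = BE a b l ψ + 2 * π := by
  have hper : Function.Periodic (wE a b l) (2 * π) := fun ψ => wE_add_two_pi a b l ψ
  have h1 := hper.intervalIntegral_add_eq_add 0 ψ fun t₁ t₂ =>
    (continuous_wE hb hab hl hl2).intervalIntegrable t₁ t₂
  rw [zero_add] at h1
  rw [BE, BE, h1, mul_add]
  congr 1
  rw [cE]
  exact div_mul_cancel₀ _ (int_wE_pos hb hab hl hl2).ne'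

end LSB
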