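import Pool.Agent.LSB.FUB
import Pool.Agent.LSB.FLaz

/-!
# Part F, module FIbp: integration by parts in the bounce angle

`Efun_deriv`: `B' = cE a b 0 / hE`, so `(hE/c)·u'·B' = u'` and `∫ u' e^{-imB} = im ∫ u B' e^{-imB}` (the boundary
terms cancel by periodicity).

`norm_Efun_le`: `‖Efun‖ ≤ sup‖u‖` since the density `cE·wE` has integral `2π`.

`Efun_decay`: by induction on `N` with `D u = (hE/c) u'`, which maps `UB (N+1)` to `UB N` (module FUB: products,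
`UB_hE`; `c i = cE (a i) (b i) 0` is bounded above and below) and preserves periodicity.

`chi_bound`: `chi a b l n m = (1/2π)∫ e^{imB₀} B₀' g`, `g = (c_l wE_l/(c₀ wE₀)) e^{-inB_l}`, i.e. `Efun a b 0 (-m) g`; one
integration by parts, `|g'|` is bounded uniformly (`wE_l'` is bounded uniformly: `wE` is `1/(hE √(1-t))`), and for `m=0`
`|chi| ≤ 1`.
-/

namespace LSB

open Real Complex MeasureTheory Filter

lemma fibp_norm_exp (x : ℝ) : ‖Complex.exp (-(x : ℂ) * I)‖ = 1 := by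
  have := Complex.norm_exp_ofReal_mul_I (-x)
  simpa using this

lemma fibp_total {a b l : ℝ} (hb : 0 < b) (hab : b ≤ a) (hl : 0 ≤ l) (hl2 : l ≤ b / 2) :
    ∫ ψ in (0 : ℝ)..(2 * π), cE a b l * wE a b l ψ = 2 * π := by
  have h1 := BE_add_two_pi hb hab hl hl2 0
  rw [BE_zero] at h1
  simp only [zero_add] at h1
  rw [intervalIntegral.integral_const_mul]
  exact h1

lemma fibp_dens_pos {a b l : ℝ} (hb : 0 < b) (hab : b ≤ a) (hl : 0 ≤ l) (hl2 : l ≤ b / 2) (ψ : ℝ) :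
    0 < cE a b l * wE a b l ψ := by
  have ha : 0 < a := hb.trans_le hab
  have h1 : 0 < cE a b l := (half_pos hb).trans_le (cE_ge hb hab hl hl2)
  have h2 : 0 < wE a b l ψ := (one_div_pos.2 ha).trans_le (wE_ge hb hab hl hl2 ψ)
  exact mul_pos h1 h2

lemma fibp_cont_wE {a b l : ℝ} (hb : 0 < b) (hab : b ≤ a) (hl : 0 ≤ l) (hl2 : l ≤ b / 2) :
    Continuous (wE a b l) :=
  (contDiff_wE hb hab hl hl2 (n := 1) (by exact_mod_cast le_top)).continuous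

theorem norm_Efun_le {a b l : ℝ} (hb : 0 < b) (hab : b ≤ a) (hl : 0 ≤ l) (hl2 : l ≤ b / 2)
    (m : ℤ) {u : ℝ → ℂ} {C : ℝ} (hC : ∀ ψ, ‖u ψ‖ ≤ C) : ‖Efun a b l m u‖ ≤ C := by
  unfold Efun
  rw [norm_mul]
  have hpi := Real.pi_pos
  have h1 : ‖∫ ψ in (0 : ℝ)..(2 * π), u ψ * (cE a b l * wE a b l ψ : ℝ) *
      Complex.exp (-(m * BE a b l ψ : ℝ) * I)‖ ≤ ∫ ψ in (0 : ℝ)..(2 * π),
        C * (cE a b l * wE a b l ψ) := by
    apply intervalIntegral.norm_integral_le_of_norm_le (by positivity)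
    · refine Filter.Eventually.of_forall fun ψ _ => ?_
      rw [norm_mul, norm_mul, fibp_norm_exp, mul_one, Complex.norm_real, Real.norm_eq_abs,
        abs_of_pos (fibp_dens_pos hb hab hl hl2 ψ)]
      exact mul_le_mul_of_nonneg_right (hC ψ) (fibp_dens_pos hb hab hl hl2 ψ).le
    · exact (continuous_const.mul (continuous_const.mul
        (fibp_cont_wE hb hab hl hl2))).intervalIntegrable _ _
  rw [intervalIntegral.integral_const_mul, fibp_total hb hab hl hl2] at h1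
  have h2 : ‖(1 / (2 * π) : ℂ)‖ = 1 / (2 * π) := by
    rw [norm_div, norm_one, norm_mul, Complex.norm_real, Real.norm_eq_abs, abs_of_pos hpi]
    simp
  rw [h2]
  calc 1 / (2 * π) * _ ≤ 1 / (2 * π) * (C * (2 * π)) := by
        apply mul_le_mul_of_nonneg_left h1 (by positivity)
    _ = C := by field_simp

lemma fibp_hasDerivAt_exp {a b l : ℝ} (hb : 0 < b) (hab : b ≤ a) (hl : 0 ≤ l) (hl2 : l ≤ b / 2)
    (m : ℤ) (ψ : ℝ) : HasDerivAt (fun ψ : ℝ => Complex.exp (-(m * BE a b l ψ : ℝ) * I))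
      (Complex.exp (-(m * BE a b l ψ : ℝ) * I) *
        (-(m * (cE a b l * wE a b l ψ) : ℝ) * I)) ψ := by
  have h1 := hasDerivAt_BE hb hab hl hl2 ψ
  have h2 : HasDerivAt (fun ψ : ℝ => (-((m * BE a b l ψ : ℝ) : ℂ)))
      (-((m * (cE a b l * wE a b l ψ) : ℝ) : ℂ)) ψ :=
    ((h1.const_mul (m : ℝ)).ofReal_comp).neg
  exact (h2.mul_const I).cexp

theorem Efun_deriv {a b : ℝ} (hb : 0 < b) (hab : b ≤ a) {u : ℝ → ℂ} (hu : ContDiff ℝ 1 u)
    (hper : ∀ ψ, u (ψ + 2 * π) = u ψ) (m : ℤ) :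
    Efun a b 0 m (fun ψ => ((hE a b ψ / cE a b 0 : ℝ) : ℂ) * deriv u ψ) =
      (m : ℂ) * I * Efun a b 0 m u := by
  have hl : (0 : ℝ) ≤ 0 := le_rfl
  have hl2 : (0 : ℝ) ≤ b / 2 := (half_pos hb).le
  have hc : cE a b 0 ≠ 0 := ((half_pos hb).trans_le (cE_ge hb hab hl hl2)).ne'
  have hcont := hu.continuous
  have hcd : Continuous (deriv u) := hu.continuous_deriv le_rfl
  have hcB : Continuous (BE a b 0) :=
    continuous_iff_continuousAt.2 fun ψ => (hasDerivAt_BE hb hab hl hl2 ψ).continuousAt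
  have hce : Continuous (fun ψ : ℝ => Complex.exp (-(m * BE a b 0 ψ : ℝ) * I)) := by
    continuity
  have hcw := fibp_cont_wE hb hab hl hl2
  have hF : ∀ ψ : ℝ, HasDerivAt (fun ψ => u ψ * Complex.exp (-(m * BE a b 0 ψ : ℝ) * I))
      (deriv u ψ * Complex.exp (-(m * BE a b 0 ψ : ℝ) * I) + u ψ *
        (Complex.exp (-(m * BE a b 0 ψ : ℝ) * I) *
        (-(m * (cE a b 0 * wE a b 0 ψ) : ℝ) * I))) ψ := fun ψ =>
    ((hu.differentiable one_ne_zero) ψ).hasDerivAt.mul (fibp_hasDerivAt_exp hb hab hl hl2 m ψ)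
  have hi1 : Continuous fun ψ => deriv u ψ * Complex.exp (-(m * BE a b 0 ψ : ℝ) * I) :=
    hcd.mul hce
  have hi2 : Continuous fun ψ => u ψ *
        (Complex.exp (-(m * BE a b 0 ψ : ℝ) * I) *
        (-(m * (cE a b 0 * wE a b 0 ψ) : ℝ) * I)) := by
    apply hcont.mul (hce.mul _)
    apply Continuous.mul _ continuous_const
    apply Continuous.neg
    exact Complex.continuous_ofReal.comp (continuous_const.mul (continuous_const.mul hcw))
  have h0 := intervalIntegral.integral_eq_sub_of_hasDerivAt (a := 0) (b := 2 * π)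
    (fun ψ _ => hF ψ) ((hi1.add hi2).intervalIntegrable _ _)
  rw [intervalIntegral.integral_add (hi1.intervalIntegrable _ _) (hi2.intervalIntegrable _ _)] at h0
  have h3 : u (2 * π) * Complex.exp (-(m * BE a b 0 (2 * π) : ℝ) * I) -
      u 0 * Complex.exp (-(m * BE a b 0 0 : ℝ) * I) = 0 := by
    have e1 := hper 0
    have e2 := BE_add_two_pi hb hab hl hl2 0
    rw [zero_add] at e1 e2
    rw [e1, e2, BE_zero, zero_add]
    have e3 : Complex.exp (-(m * (2 * π) : ℝ) * I) = 1 := by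
      rw [Complex.exp_eq_one_iff]
      refine ⟨-m, ?_⟩
      push_cast
      ring
    rw [e3]
    simp
  rw [h3] at h0
  unfold Efun
  have h4 : (∫ ψ in (0 : ℝ)..(2 * π), ((hE a b ψ / cE a b 0 : ℝ) : ℂ) * deriv u ψ *
      (cE a b 0 * wE a b 0 ψ : ℝ) * Complex.exp (-(m * BE a b 0 ψ : ℝ) * I)) =
      ∫ ψ in (0 : ℝ)..(2 * π), deriv u ψ * Complex.exp (-(m * BE a b 0 ψ : ℝ) * I) := by
    congr 1
    funext ψ
    have hh : hE a b ψ ≠ 0 := (hb.trans_le (hE_ge hb hab ψ)).ne'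
    have e1 : ((hE a b ψ / cE a b 0 : ℝ) : ℂ) * ((cE a b 0 * wE a b 0 ψ : ℝ) : ℂ) = 1 := by
      rw [← Complex.ofReal_mul, wE_zero]
      rw [show hE a b ψ / cE a b 0 * (cE a b 0 * (1 / hE a b ψ)) = 1 by field_simp]
      simp
    calc _ = (((hE a b ψ / cE a b 0 : ℝ) : ℂ) * ((cE a b 0 * wE a b 0 ψ : ℝ) : ℂ)) *
          (deriv u ψ * Complex.exp (-(m * BE a b 0 ψ : ℝ) * I)) := by ring
      _ = _ := by rw [e1, one_mul]
  have h5 : (∫ ψ in (0 : ℝ)..(2 * π), u ψ *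
        (Complex.exp (-(m * BE a b 0 ψ : ℝ) * I) *
        (-(m * (cE a b 0 * wE a b 0 ψ) : ℝ) * I))) = -((m : ℂ) * I) *
      ∫ ψ in (0 : ℝ)..(2 * π), u ψ * (cE a b 0 * wE a b 0 ψ : ℝ) *
        Complex.exp (-(m * BE a b 0 ψ : ℝ) * I) := by
    rw [← intervalIntegral.integral_const_mul]
    congr 1
    funext ψ
    push_cast
    ring
  rw [h4]
  rw [h5] at h0
  have h6 : ∫ ψ in (0 : ℝ)..(2 * π), deriv u ψ * Complex.exp (-(m * BE a b 0 ψ : ℝ) * I) =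
      ((m : ℂ) * I) * ∫ ψ in (0 : ℝ)..(2 * π), u ψ * (cE a b 0 * wE a b 0 ψ : ℝ) *
        Complex.exp (-(m * BE a b 0 ψ : ℝ) * I) := by
    linear_combination h0
  rw [h6]
  ring

theorem Efun_decay {ι : Type*} {b₁ a₁ : ℝ} {a b : ι → ℝ} (hB : ∀ i, Box b₁ a₁ (a i) (b i))
    (N : ℕ) {u : ι → ℝ → ℝ} (hu : UB N u) (hper : ∀ i ψ, u i (ψ + 2 * π) = u i ψ) :
    ∃ C, ∀ i (m : ℤ), |(m : ℝ)| ^ N * ‖Efun (a i) (b i) 0 m (fun ψ => ((u i ψ : ℝ) : ℂ))‖ ≤ C := by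
  have hb : ∀ i, 0 < b i := fun i => (hB i).pos.trans_le (hB i).hb
  have hl2 : ∀ i, (0 : ℝ) ≤ b i / 2 := fun i => (half_pos (hb i)).le
  induction N generalizing u with
  | zero =>
    obtain ⟨C, hC⟩ := hu.2
    refine ⟨C, fun i m => ?_⟩
    rw [pow_zero, one_mul]
    apply norm_Efun_le (hb i) (hB i).hab.le le_rfl (hl2 i)
    intro ψ
    rw [Complex.norm_real]
    exact hC i ψ
  | succ N ih =>
    have h1 : UB N (fun i ψ => (cE (a i) (b i) 0)⁻¹ * (hE (a i) (b i) ψ * deriv (u i) ψ)) := by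
      apply ((UB_hE N hB).mul hu.2.2).const_mul
      refine ⟨(b₁ / 2)⁻¹, fun i => ?_⟩
      have h2 := cE_ge (hb i) (hB i).hab.le le_rfl (hl2 i)
      have h3 : b₁ / 2 ≤ cE (a i) (b i) 0 := by linarith [(hB i).hb]
      have h4 : 0 < b₁ / 2 := half_pos (hB i).pos
      rw [abs_of_pos (inv_pos.2 (h4.trans_le h3))]
      exact inv_anti₀ h4 h3
    have hdp : ∀ i ψ, deriv (u i) (ψ + 2 * π) = deriv (u i) ψ := by
      intro i ψ
      have e : (fun x => u i (x + 2 * π)) = u i := funext (hper i)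
      have := deriv_comp_add_const (f := u i) (2 * π) ψ
      rw [← this, e]
    obtain ⟨C, hC⟩ := ih h1 (fun i ψ => by rw [hE_add_two_pi, hdp])
    refine ⟨C, fun i m => ?_⟩
    have hcd : Continuous (deriv (u i)) := UB.cont hu.2.2 i
    have hcu : ContDiff ℝ 1 (u i) := contDiff_one_iff_deriv.2 ⟨hu.1 i, hcd⟩
    have hcu' : ContDiff ℝ 1 (fun ψ => ((u i ψ : ℝ) : ℂ)) := Complex.ofRealCLM.contDiff.comp hcu
    have h5 := Efun_deriv (hb i) (hB i).hab.le hcu' (fun ψ => by rw [hper]) m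
    have h6 : (fun ψ => ((hE (a i) (b i) ψ / cE (a i) (b i) 0 : ℝ) : ℂ) *
        deriv (fun ψ => ((u i ψ : ℝ) : ℂ)) ψ) = fun ψ =>
        (((cE (a i) (b i) 0)⁻¹ * (hE (a i) (b i) ψ * deriv (u i) ψ) : ℝ) : ℂ) := by
      funext ψ
      have := ((hu.1 i ψ).hasDerivAt.ofReal_comp).deriv
      rw [this]
      push_cast
      ring
    rw [h6] at h5
    have h7 := hC i m
    rw [h5, norm_mul, norm_mul, Complex.norm_I, mul_one, Complex.norm_intCast] at h7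
    calc _ = |(m : ℝ)| ^ N * (|(m : ℝ)| * ‖Efun (a i) (b i) 0 m (fun ψ => ((u i ψ : ℝ) : ℂ))‖) := by
          ring
      _ ≤ C := h7

lemma fibp_rho {a b l : ℝ} (hb : 0 < b) (hab : b ≤ a) (hl : 0 ≤ l) (hl2 : l ≤ b / 2) (ψ : ℝ) :
    3 / 4 ≤ 1 - l ^ 2 * hE a b ψ ^ 2 / (a ^ 2 * b ^ 2) ∧
      1 - l ^ 2 * hE a b ψ ^ 2 / (a ^ 2 * b ^ 2) ≤ 1 := by
  have ha : 0 < a := hb.trans_le hab
  have h1 := hE_le hb hab ψ
  have h0 := hE_ge hb hab ψ
  have h2 : hE a b ψ ^ 2 ≤ a ^ 2 := pow_le_pow_left₀ (hb.le.trans h0) h1 2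
  have h3 : l ^ 2 ≤ (b / 2) ^ 2 := pow_le_pow_left₀ hl hl2 2
  have h4 : l ^ 2 * hE a b ψ ^ 2 / (a ^ 2 * b ^ 2) ≤ 1 / 4 := by
    rw [div_le_iff₀ (by positivity)]
    calc l ^ 2 * hE a b ψ ^ 2 ≤ (b / 2) ^ 2 * a ^ 2 :=
          mul_le_mul h3 h2 (sq_nonneg _) (sq_nonneg _)
      _ = _ := by ring
  have h5 : 0 ≤ l ^ 2 * hE a b ψ ^ 2 / (a ^ 2 * b ^ 2) := by positivity
  constructor <;> linarith

lemma fibp_hasDerivAt_rho {a b l : ℝ} (hb : 0 < b) (hab : b ≤ a) (hl : 0 ≤ l) (hl2 : l ≤ b / 2)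
    (ψ : ℝ) : ∃ d : ℝ, HasDerivAt
      (fun ψ => 1 / √(1 - l ^ 2 * hE a b ψ ^ 2 / (a ^ 2 * b ^ 2))) d ψ ∧ |d| ≤ 1 ∧
      0 ≤ 1 / √(1 - l ^ 2 * hE a b ψ ^ 2 / (a ^ 2 * b ^ 2)) ∧
      1 / √(1 - l ^ 2 * hE a b ψ ^ 2 / (a ^ 2 * b ^ 2)) ≤ 2 := by
  have ha : 0 < a := hb.trans_le hab
  obtain ⟨h1, h2⟩ := fibp_rho hb hab hl hl2 ψ
  have hh : hE a b ψ ≠ 0 := (hb.trans_le (hE_ge hb hab ψ)).ne'
  have hd := hasDerivAt_hE hb hab ψ
  set T : ℝ := 1 - l ^ 2 * hE a b ψ ^ 2 / (a ^ 2 * b ^ 2) with hT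
  have hTpos : 0 < T := by linarith
  have hs : 1 / 2 ≤ √T := by
    apply Real.le_sqrt_of_sq_le
    norm_num
    linarith
  have hs0 : 0 < √T := by linarith
  have e1 : HasDerivAt (fun ψ => 1 - l ^ 2 * hE a b ψ ^ 2 / (a ^ 2 * b ^ 2))
      (-(l ^ 2 * (2 * ((b ^ 2 - a ^ 2) * Real.sin ψ * Real.cos ψ)) / (a ^ 2 * b ^ 2))) ψ := by
    have e2 := (((hd.pow 2).const_mul (l ^ 2)).div_const (a ^ 2 * b ^ 2)).const_sub 1
    have e5 : ((2 : ℕ) : ℝ) * hE a b ψ ^ (2 - 1) *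
        ((b ^ 2 - a ^ 2) * Real.sin ψ * Real.cos ψ / hE a b ψ) =
        2 * ((b ^ 2 - a ^ 2) * Real.sin ψ * Real.cos ψ) := by
      norm_num
      field_simp
    rw [e5] at e2
    exact e2
  have e3 : HasDerivAt (fun ψ => √(1 - l ^ 2 * hE a b ψ ^ 2 / (a ^ 2 * b ^ 2))) _ ψ :=
    e1.sqrt hTpos.ne'
  have e4 := e3.inv hs0.ne'
  simp only [one_div]
  refine ⟨_, e4, ?_, inv_nonneg.2 hs0.le, ?_⟩
  · rw [← hT]
    rw [Real.sq_sqrt hTpos.le]
    rw [abs_div, abs_neg, abs_div, abs_neg, abs_div]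
    rw [abs_of_pos hTpos, abs_of_pos (show 0 < 2 * √T by positivity),
      abs_of_pos (show 0 < a ^ 2 * b ^ 2 by positivity)]
    have h3 : |l ^ 2 * (2 * ((b ^ 2 - a ^ 2) * Real.sin ψ * Real.cos ψ))| ≤
        (a ^ 2 * b ^ 2) / 2 := by
      rw [abs_mul, abs_mul, abs_mul, abs_mul]
      have q1 : |l ^ 2| ≤ b ^ 2 / 4 := by
        rw [abs_of_nonneg (sq_nonneg _)]
        have := pow_le_pow_left₀ hl hl2 2
        linarith
      have q2 : |b ^ 2 - a ^ 2| ≤ a ^ 2 := by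
        rw [abs_le]
        constructor <;> nlinarith
      have q3 := Real.abs_sin_le_one ψ
      have q4 := Real.abs_cos_le_one ψ
      have q5 : |b ^ 2 - a ^ 2| * |Real.sin ψ| * |Real.cos ψ| ≤ a ^ 2 * 1 * 1 := by gcongr
      calc |l ^ 2| * (|2| * (|b ^ 2 - a ^ 2| * |Real.sin ψ| * |Real.cos ψ|)) ≤
          b ^ 2 / 4 * (2 * (a ^ 2 * 1 * 1)) := by
            rw [abs_of_pos (two_pos : (0 : ℝ) < 2)]
            gcongr
        _ = _ := by ring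
    have h4 : |l ^ 2 * (2 * ((b ^ 2 - a ^ 2) * Real.sin ψ * Real.cos ψ))| / (a ^ 2 * b ^ 2) ≤
        1 / 2 := by
      rw [div_le_iff₀ (by positivity)]
      linarith
    rw [div_div, div_le_one (by positivity)]
    refine h4.trans ?_
    have : 1 / 2 * (3 / 4) ≤ √T * T := mul_le_mul hs h1 (by norm_num) hs0.le
    nlinarith
  · rw [inv_le_comm₀ hs0 (by norm_num)]
    linarith

theorem chi_bound {b₁ a₁ : ℝ} (n : ℤ) : ∃ C, ∀ a b, Box b₁ a₁ a b → ∀ l, 0 ≤ l → l ≤ b / 2 →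
    ∀ m : ℤ, (1 + |(m : ℝ)|) * ‖chi a b l n m‖ ≤ C := by
  refine ⟨1 + a₁ / (b₁ / 2) * (a₁ / (b₁ / 2) * (1 + 2 * (|(n : ℝ)| * (a₁ * (2 / b₁))))), ?_⟩
  intro a b hB l hl hl2 m
  have hb : 0 < b := hB.pos.trans_le hB.hb
  have hab : b ≤ a := hB.hab.le
  have ha : 0 < a := hb.trans_le hab
  have hb₁ := hB.pos
  have ha₁ : 0 < a₁ := ha.trans_le hB.ha
  have hl0 : (0 : ℝ) ≤ b / 2 := (half_pos hb).le
  have hc0 := cE_ge hb hab le_rfl hl0
  have hc0' : 0 < cE a b 0 := (half_pos hb).trans_le hc0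
  have hcl := cE_le hb hab hl hl2
  have hcl' : 0 < cE a b l := (half_pos hb).trans_le (cE_ge hb hab hl hl2)
  have hn1 : ‖chi a b l n m‖ ≤ 1 := by
    unfold chi
    apply norm_Efun_le hb hab hl hl2
    intro ψ
    exact (Complex.norm_exp_ofReal_mul_I _).le
  -- the function `g`
  set ρ : ℝ → ℝ := fun ψ => 1 / √(1 - l ^ 2 * hE a b ψ ^ 2 / (a ^ 2 * b ^ 2)) with hρ
  have hw : ∀ ψ, wE a b l ψ * hE a b ψ = ρ ψ := by
    intro ψ
    have hh : hE a b ψ ≠ 0 := (hb.trans_le (hE_ge hb hab ψ)).ne'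
    have hs0 : √(1 - l ^ 2 * hE a b ψ ^ 2 / (a ^ 2 * b ^ 2)) ≠ 0 := by
      have := (fibp_rho hb hab hl hl2 ψ).1
      exact (Real.sqrt_pos.2 (by linarith)).ne'
    simp only [hρ, wE]
    field_simp
  choose d hd using fun ψ => fibp_hasDerivAt_rho hb hab hl hl2 ψ
  set g : ℝ → ℂ := fun ψ => ((cE a b l / cE a b 0 : ℝ) : ℂ) *
    (((ρ ψ : ℝ) : ℂ) * Complex.exp (-(n * BE a b l ψ : ℝ) * I)) with hg
  have hgd : ∀ ψ, HasDerivAt g (((cE a b l / cE a b 0 : ℝ) : ℂ) *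
      (((d ψ : ℝ) : ℂ) * Complex.exp (-(n * BE a b l ψ : ℝ) * I) +
      ((ρ ψ : ℝ) : ℂ) * (Complex.exp (-(n * BE a b l ψ : ℝ) * I) *
        (-(n * (cE a b l * wE a b l ψ) : ℝ) * I)))) ψ := by
    intro ψ
    exact (((hd ψ).1.ofReal_comp).mul (fibp_hasDerivAt_exp hb hab hl hl2 n ψ)).const_mul _
  have hgn : ∀ ψ, ‖deriv g ψ‖ ≤ a₁ / (b₁ / 2) * (1 + 2 * (|(n : ℝ)| * (a₁ * (2 / b₁)))) := by
    intro ψ
    rw [(hgd ψ).deriv, norm_mul]
    have q1 : ‖((cE a b l / cE a b 0 : ℝ) : ℂ)‖ ≤ a₁ / (b₁ / 2) := by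
      rw [Complex.norm_real, Real.norm_eq_abs, abs_of_pos (div_pos hcl' hc0')]
      apply div_le_div₀ ha₁.le (hcl.trans hB.ha) (half_pos hb₁)
      linarith [hB.hb]
    have q2 : ‖((d ψ : ℝ) : ℂ) * Complex.exp (-(n * BE a b l ψ : ℝ) * I)‖ ≤ 1 := by
      rw [norm_mul, fibp_norm_exp, mul_one, Complex.norm_real]
      exact (hd ψ).2.1
    have q3 : ‖((ρ ψ : ℝ) : ℂ) * (Complex.exp (-(n * BE a b l ψ : ℝ) * I) *
        (-(n * (cE a b l * wE a b l ψ) : ℝ) * I))‖ ≤ 2 * (|(n : ℝ)| * (a₁ * (2 / b₁))) := by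
      rw [norm_mul, norm_mul, fibp_norm_exp, one_mul, norm_mul, Complex.norm_I, mul_one, norm_neg,
        Complex.norm_real, Complex.norm_real, Real.norm_eq_abs, Real.norm_eq_abs, abs_mul,
        abs_of_nonneg (hd ψ).2.2.1, abs_of_pos (fibp_dens_pos hb hab hl hl2 ψ)]
      have r1 : wE a b l ψ ≤ 2 / b₁ := (wE_le hb hab hl hl2 ψ).trans
        (div_le_div_of_nonneg_left (by norm_num) hb₁ hB.hb)
      have r2 : 0 ≤ wE a b l ψ := (one_div_pos.2 ha).le.trans (wE_ge hb hab hl hl2 ψ)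
      have r3 : cE a b l * wE a b l ψ ≤ a₁ * (2 / b₁) :=
        mul_le_mul (hcl.trans hB.ha) r1 r2 ha₁.le
      exact mul_le_mul (hd ψ).2.2.2 (mul_le_mul_of_nonneg_left r3 (abs_nonneg _))
        (mul_nonneg (abs_nonneg _) (fibp_dens_pos hb hab hl hl2 ψ).le) (by norm_num)
    apply mul_le_mul q1 ((norm_add_le _ _).trans (add_le_add q2 q3)) (norm_nonneg _) (by positivity)
  have hgc : ContDiff ℝ 1 g := by
    have c1 : ContDiff ℝ 1 ρ := by
      have c2 : ContDiff ℝ 1 (fun ψ => wE a b l ψ * hE a b ψ) :=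
        (contDiff_wE hb hab hl hl2 (n := 1) (by exact_mod_cast le_top)).mul
          (contDiff_hE hb hab (n := 1) (by exact_mod_cast le_top))
      have : (fun ψ => wE a b l ψ * hE a b ψ) = ρ := funext hw
      rwa [this] at c2
    have c3 : ContDiff ℝ 1 (BE a b l) := by
      apply contDiff_one_iff_deriv.2
      refine ⟨fun ψ => (hasDerivAt_BE hb hab hl hl2 ψ).differentiableAt, ?_⟩
      have : deriv (BE a b l) = fun ψ => cE a b l * wE a b l ψ :=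
        funext fun ψ => (hasDerivAt_BE hb hab hl hl2 ψ).deriv
      rw [this]
      exact continuous_const.mul (fibp_cont_wE hb hab hl hl2)
    have c4 : ContDiff ℝ 1 (fun ψ : ℝ => (-((n * BE a b l ψ : ℝ) : ℂ) * I)) :=
      ((Complex.ofRealCLM.contDiff.comp (contDiff_const.mul c3)).neg).mul contDiff_const
    exact contDiff_const.mul ((Complex.ofRealCLM.contDiff.comp c1).mul c4.cexp)
  have hgp : ∀ ψ, g (ψ + 2 * π) = g ψ := by
    intro ψ
    simp only [hg, hρ]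
    rw [hE_add_two_pi, BE_add_two_pi hb hab hl hl2]
    congr 2
    have : (-((n * (BE a b l ψ + 2 * π) : ℝ) : ℂ) * I) = (-((n * BE a b l ψ : ℝ) : ℂ) * I) +
        ((-n : ℤ) : ℂ) * (2 * π * I) := by
      push_cast
      ring
    rw [this, Complex.exp_add, Complex.exp_int_mul_two_pi_mul_I, mul_one]
  have hchi : chi a b l n m = Efun a b 0 (-m) g := by
    unfold chi Efun
    congr 2
    funext ψ
    have hh : hE a b ψ ≠ 0 := (hb.trans_le (hE_ge hb hab ψ)).ne'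
    have e1 : ((cE a b l / cE a b 0 : ℝ) : ℂ) * ((ρ ψ : ℝ) : ℂ) *
        ((cE a b 0 * wE a b 0 ψ : ℝ) : ℂ) = ((cE a b l * wE a b l ψ : ℝ) : ℂ) := by
      rw [← Complex.ofReal_mul, ← Complex.ofReal_mul, ← hw, wE_zero]
      congr 1
      field_simp
    have e2 : (-(((-m : ℤ) : ℝ) * BE a b 0 ψ : ℝ) : ℂ) = ((m * BE a b 0 ψ : ℝ) : ℂ) := by
      push_cast
      ring
    simp only [hg]
    rw [e2, ← e1]
    ring
  have hdc := Efun_deriv hb hab hgc hgp (-m)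
  have hbd : ‖Efun a b 0 (-m) (fun ψ => ((hE a b ψ / cE a b 0 : ℝ) : ℂ) * deriv g ψ)‖ ≤
      a₁ / (b₁ / 2) * (a₁ / (b₁ / 2) * (1 + 2 * (|(n : ℝ)| * (a₁ * (2 / b₁))))) := by
    apply norm_Efun_le hb hab le_rfl hl0
    intro ψ
    rw [norm_mul]
    apply mul_le_mul _ (hgn ψ) (norm_nonneg _) (by positivity)
    have h0 := hE_ge hb hab ψ
    rw [Complex.norm_real, Real.norm_eq_abs, abs_of_pos (div_pos (hb.trans_le h0) hc0')]
    apply div_le_div₀ ha₁.le ((hE_le hb hab ψ).trans hB.ha) (half_pos hb₁)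
    linarith [hB.hb]
  rw [hdc, norm_mul, norm_mul, Complex.norm_I, mul_one, Complex.norm_intCast, ← hchi] at hbd
  have : |((-m : ℤ) : ℝ)| = |(m : ℝ)| := by
    push_cast
    exact abs_neg _
  rw [this] at hbd
  rw [add_mul, one_mul]
  exact add_le_add hn1 hbd

end LSB
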