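import Pool.Agent.LSB.FDefs

/-!
# Part F, module FInterp: summability and interpolation lemmas
-/

namespace LSB

open Real Complex MeasureTheory Filter

lemma summable_inv_sq : Summable (fun m : ℤ => 1 / (1 + |(m : ℝ)|) ^ 2) := by
  have h1 : Summable (fun m : ℤ => 1 / (m : ℝ) ^ 2) :=
    Real.summable_one_div_int_pow.2 one_lt_two
  have h2 : Summable (fun m : ℤ => if m = 0 then (1 : ℝ) else 0) :=
    (hasSum_ite_eq (0 : ℤ) (1 : ℝ)).summable
  refine Summable.of_nonneg_of_le (fun m => by positivity) (fun m => ?_) (h1.add h2)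
  by_cases hm : m = 0
  · subst hm
    simp
  · simp only [hm, if_false, add_zero]
    have h3 : (0 : ℝ) < (m : ℝ) ^ 2 := by positivity
    apply one_div_le_one_div_of_le h3
    rw [← sq_abs (m : ℝ)]
    exact pow_le_pow_left₀ (abs_nonneg _) (by linarith) 2

lemma interp_point {K : ℝ} (hK : 0 ≤ K) {c η x : ℝ} (hη : 0 < η) (hx : 1 ≤ x) (hc : 0 ≤ c)
    (h1 : c ≤ K * η) (h2 : x ^ 30 * c ≤ K) : c ≤ K * η ^ (13 / 15 : ℝ) * (x ^ 4)⁻¹ := by
  have hx0 : 0 < x := by linarith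
  have h2' : c ≤ K * (x ^ 30)⁻¹ := by
    rw [← div_eq_mul_inv, le_div_iff₀ (by positivity)]
    linarith
  rcases hc.eq_or_lt with h0 | h0
  · rw [← h0]; positivity
  have e1 : c = c ^ (13 / 15 : ℝ) * c ^ (2 / 15 : ℝ) := by
    rw [← Real.rpow_add h0]
    norm_num
  have e2 : c ^ (13 / 15 : ℝ) ≤ (K * η) ^ (13 / 15 : ℝ) :=
    Real.rpow_le_rpow hc h1 (by norm_num)
  have e3 : c ^ (2 / 15 : ℝ) ≤ (K * (x ^ 30)⁻¹) ^ (2 / 15 : ℝ) :=
    Real.rpow_le_rpow hc h2' (by norm_num)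
  have e4 : ((x ^ 30)⁻¹) ^ (2 / 15 : ℝ) = (x ^ 4)⁻¹ := by
    rw [Real.inv_rpow (by positivity), ← Real.rpow_natCast x 30, ← Real.rpow_mul hx0.le,
      ← Real.rpow_natCast x 4]
    norm_num
  have e5 : K ^ (13 / 15 : ℝ) * K ^ (2 / 15 : ℝ) = K := by
    rcases hK.eq_or_lt with h | h
    · rw [← h, Real.zero_rpow (by norm_num)]; simp
    · rw [← Real.rpow_add h]; norm_num
  calc c = c ^ (13 / 15 : ℝ) * c ^ (2 / 15 : ℝ) := e1
    _ ≤ (K * η) ^ (13 / 15 : ℝ) * (K * (x ^ 30)⁻¹) ^ (2 / 15 : ℝ) :=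
        mul_le_mul e2 e3 (by positivity) (by positivity)
    _ = (K ^ (13 / 15 : ℝ) * K ^ (2 / 15 : ℝ)) * η ^ (13 / 15 : ℝ) * (x ^ 4)⁻¹ := by
        rw [Real.mul_rpow hK hη.le, Real.mul_rpow hK (by positivity), e4]
        ring
    _ = K * η ^ (13 / 15 : ℝ) * (x ^ 4)⁻¹ := by rw [e5]

theorem interp_numeric {K : ℝ} (hK : 0 ≤ K) : ∃ C > 0, ∀ (c : ℤ → ℝ) (η : ℝ), 0 < η → η ≤ 1 →
    (∀ m, 0 ≤ c m) → (∀ m, c m ≤ K * η) → (∀ m : ℤ, |(m : ℝ)| ^ 30 * c m ≤ K) →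
    Summable (fun m : ℤ => (1 + |(m : ℝ)|) * c m) ∧
      ∑' m : ℤ, (1 + |(m : ℝ)|) * c m ≤ C * η ^ (13 / 15 : ℝ) := by
  set S : ℝ := ∑' m : ℤ, 1 / (1 + |(m : ℝ)|) ^ 2 with hS
  have hS0 : 0 ≤ S := tsum_nonneg (fun m => by positivity)
  refine ⟨16 * K * S + 1, by positivity, ?_⟩
  intro c η hη hη1 hc h1 h2
  have key : ∀ m : ℤ, (1 + |(m : ℝ)|) * c m ≤
      16 * K * η ^ (13 / 15 : ℝ) * (1 / (1 + |(m : ℝ)|) ^ 2) := by
    intro m
    by_cases hm : m = 0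
    · subst hm
      simp only [Int.cast_zero, abs_zero, add_zero, one_mul, one_pow, div_one, mul_one]
      have e1 : η ≤ η ^ (13 / 15 : ℝ) := by
        conv_lhs => rw [← Real.rpow_one η]
        exact Real.rpow_le_rpow_of_exponent_ge hη hη1 (by norm_num)
      have e2 : c 0 ≤ K * η ^ (13 / 15 : ℝ) := (h1 0).trans (mul_le_mul_of_nonneg_left e1 hK)
      have e3 : 0 ≤ K * η ^ (13 / 15 : ℝ) := by positivity
      nlinarith
    · have hx : (1 : ℝ) ≤ |(m : ℝ)| := by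
        have : (1 : ℤ) ≤ |m| := Int.one_le_abs hm
        exact_mod_cast this
      have e1 := interp_point hK hη hx (hc m) (h1 m) (h2 m)
      set x := |(m : ℝ)| with hxdef
      have e2 : (x ^ 4)⁻¹ ≤ 16 * (1 / (1 + x) ^ 4) := by
        rw [mul_one_div, ← one_div, div_le_div_iff₀ (by positivity) (by positivity)]
        have : (1 + x) ^ 4 ≤ (2 * x) ^ 4 := pow_le_pow_left₀ (by positivity) (by linarith) 4
        nlinarith
      have e3 : 0 ≤ K * η ^ (13 / 15 : ℝ) := by positivity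
      have e4 : (1 + x) * (1 / (1 + x) ^ 4) ≤ 1 / (1 + x) ^ 2 := by
        rw [mul_one_div, div_le_div_iff₀ (by positivity) (by positivity)]
        have : (1 + x) * (1 + x) ^ 2 ≤ 1 * (1 + x) ^ 4 := by
          have h5 : (1 : ℝ) ≤ 1 + x := by linarith
          nlinarith [pow_pos (show (0 : ℝ) < 1 + x by linarith) 3]
        linarith
      calc (1 + x) * c m ≤ (1 + x) * (K * η ^ (13 / 15 : ℝ) * (16 * (1 / (1 + x) ^ 4))) := by
            apply mul_le_mul_of_nonneg_left _ (by linarith)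
            exact e1.trans (mul_le_mul_of_nonneg_left e2 e3)
        _ = 16 * K * η ^ (13 / 15 : ℝ) * ((1 + x) * (1 / (1 + x) ^ 4)) := by ring
        _ ≤ 16 * K * η ^ (13 / 15 : ℝ) * (1 / (1 + x) ^ 2) := by
            apply mul_le_mul_of_nonneg_left e4 (by positivity)
  have hs := summable_inv_sq.mul_left (16 * K * η ^ (13 / 15 : ℝ))
  have hs' : Summable (fun m : ℤ => (1 + |(m : ℝ)|) * c m) :=
    Summable.of_nonneg_of_le (fun m => mul_nonneg (by positivity) (hc m)) key hs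
  refine ⟨hs', ?_⟩
  calc ∑' m : ℤ, (1 + |(m : ℝ)|) * c m ≤
      ∑' m : ℤ, 16 * K * η ^ (13 / 15 : ℝ) * (1 / (1 + |(m : ℝ)|) ^ 2) :=
        hs'.tsum_le_tsum key hs
    _ = 16 * K * η ^ (13 / 15 : ℝ) * S := tsum_mul_left
    _ ≤ (16 * K * S + 1) * η ^ (13 / 15 : ℝ) := by
        have : 0 ≤ η ^ (13 / 15 : ℝ) := by positivity
        nlinarith

/-- Cauchy–Schwarz on a period. -/
theorem cs_interval {u : ℝ → ℝ} (hu : Continuous u) :
    (∫ ψ in (0 : ℝ)..(2 * π), |u ψ|) ≤ √(2 * π) * √(∫ ψ in (0 : ℝ)..(2 * π), u ψ ^ 2) := by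
  set A := ∫ ψ in (0 : ℝ)..(2 * π), |u ψ| with hA
  set Q := ∫ ψ in (0 : ℝ)..(2 * π), u ψ ^ 2 with hQ
  have hpi : 0 < 2 * π := by positivity
  set t := A / (2 * π) with ht
  have h1 : 0 ≤ ∫ ψ in (0 : ℝ)..(2 * π), (|u ψ| - t) ^ 2 :=
    intervalIntegral.integral_nonneg hpi.le (fun x _ => sq_nonneg _)
  have h2 : ∫ ψ in (0 : ℝ)..(2 * π), (|u ψ| - t) ^ 2 = Q - 2 * t * A + t ^ 2 * (2 * π) := by
    have e : ∀ ψ, (|u ψ| - t) ^ 2 = u ψ ^ 2 - 2 * t * |u ψ| + t ^ 2 := fun ψ => by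
      have := sq_abs (u ψ)
      nlinarith
    simp_rw [e]
    rw [intervalIntegral.integral_add, intervalIntegral.integral_sub,
      intervalIntegral.integral_const_mul, intervalIntegral.integral_const]
    · simp only [smul_eq_mul, sub_zero]
      ring
    · exact (hu.pow 2).intervalIntegrable _ _
    · exact (continuous_const.mul hu.abs).intervalIntegrable _ _
    · exact ((hu.pow 2).sub (continuous_const.mul hu.abs)).intervalIntegrable _ _
    · exact continuous_const.intervalIntegrable _ _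
  have hA0 : 0 ≤ A := intervalIntegral.integral_nonneg hpi.le (fun x _ => abs_nonneg _)
  have h3 : A ^ 2 ≤ 2 * π * Q := by
    rw [h2] at h1
    have e1 : t * (2 * π) = A := by rw [ht]; field_simp
    have e2 : 0 ≤ Q - 2 * t * A + t * A := by
      have : t ^ 2 * (2 * π) = t * A := by rw [pow_two, mul_assoc, e1]
      linarith
    have e3 : t * A ≤ Q := by linarith
    have e4 : (t * (2 * π)) * A ≤ 2 * π * Q := by nlinarith
    rw [e1] at e4
    nlinarith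
  rw [← Real.sqrt_mul hpi.le]
  exact Real.le_sqrt_of_sq_le h3

end LSB
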