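import Pool.Agent.LSB.FIbp
import Pool.Agent.LSB.FExp
import Pool.Agent.LSB.FInterp

/-!
# Part F, module FPair: pairings of Fourier coefficients
-/

namespace LSB

open Real Complex MeasureTheory Filter

lemma Efun_conj (a b l : ℝ) (m : ℤ) (u : ℝ → ℝ) :
    Efun a b l (-m) (fun ψ => ((u ψ : ℝ) : ℂ)) =
      starRingEnd ℂ (Efun a b l m (fun ψ => ((u ψ : ℝ) : ℂ))) := by
  unfold Efun
  rw [map_mul]
  congr 1
  · have : (1 / (2 * π) : ℂ) = ((1 / (2 * π) : ℝ) : ℂ) := by push_cast; rfl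
    rw [this, Complex.conj_ofReal]
  · have hpi : (0 : ℝ) ≤ 2 * π := by positivity
    rw [intervalIntegral.integral_of_le hpi, intervalIntegral.integral_of_le hpi, ← integral_conj]
    congr 1
    funext ψ
    rw [map_mul, map_mul, Complex.conj_ofReal, Complex.conj_ofReal, ← Complex.exp_conj]
    congr 2
    simp

lemma continuous_BE' {a b l : ℝ} (hb : 0 < b) (hab : b ≤ a) (hl : 0 ≤ l) (hl2 : l ≤ b / 2) :
    Continuous (BE a b l) :=
  continuous_iff_continuousAt.2 fun ψ => (hasDerivAt_BE hb hab hl hl2 ψ).continuousAt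

lemma continuous_hE {a b : ℝ} (hb : 0 < b) (hab : b ≤ a) : Continuous (hE a b) :=
  (contDiff_hE hb hab (n := 0) (by simp)).continuous

/-- `∑ Efun m u · chi n m = Efun_l n u` -/
theorem pairing_chi {a b l : ℝ} (hb : 0 < b) (hab : b ≤ a) (hl : 0 ≤ l) (hl2 : l ≤ b / 2)
    {u : ℝ → ℂ} (hu : Continuous u) (hper : ∀ ψ, u (ψ + 2 * π) = u ψ)
    (hs : Summable fun m : ℤ => ‖Efun a b 0 m u‖) (n : ℤ) :
    HasSum (fun m : ℤ => Efun a b 0 m u * chi a b l n m) (Efun a b l n u) := by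
  set g : ℝ → ℂ := fun ψ => (cE a b l * wE a b l ψ : ℝ) *
    Complex.exp (-(n * BE a b l ψ : ℝ) * I) with hg
  have hgc : Continuous g := by
    apply Continuous.mul
    · exact Complex.continuous_ofReal.comp
        (continuous_const.mul (continuous_wE hb hab hl hl2))
    · apply Complex.continuous_exp.comp
      apply Continuous.mul _ continuous_const
      exact (Complex.continuous_ofReal.comp
        (continuous_const.mul (continuous_BE' hb hab hl hl2))).neg
  have h := pairing hb hab hu hper hs hgc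
  have e1 : (1 / (2 * π) : ℂ) * ∫ ψ in (0 : ℝ)..(2 * π), u ψ * g ψ = Efun a b l n u := by
    unfold Efun
    congr 1
    apply intervalIntegral.integral_congr
    intro ψ _
    simp only [hg]
    ring
  have e2 : ∀ m : ℤ, (1 / (2 * π) : ℂ) *
      ∫ ψ in (0 : ℝ)..(2 * π), g ψ * Complex.exp ((m * BE a b 0 ψ : ℝ) * I) =
      chi a b l n m := by
    intro m
    unfold chi Efun
    congr 1
    apply intervalIntegral.integral_congr
    intro ψ _
    simp only [hg]
    ring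
  rw [e1] at h
  simp_rw [e2] at h
  exact h

/-- pairing of two functions -/
theorem pairing_Efun {a b : ℝ} (hb : 0 < b) (hab : b ≤ a)
    {u : ℝ → ℝ} (hu : Continuous u) (hper : ∀ ψ, u (ψ + 2 * π) = u ψ)
    (hs : Summable fun m : ℤ => ‖Efun a b 0 m (fun ψ => ((u ψ : ℝ) : ℂ))‖) {G : ℝ → ℝ}
    (hG : Continuous G) :
    HasSum (fun m : ℤ => Efun a b 0 m (fun ψ => ((u ψ : ℝ) : ℂ)) *
        Efun a b 0 (-m) (fun ψ => ((G ψ : ℝ) : ℂ)))
      ((cE a b 0 / (2 * π) * ∫ ψ in (0 : ℝ)..(2 * π), u ψ * (G ψ / hE a b ψ) : ℝ) : ℂ) := by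
  have hEc := continuous_hE hb hab
  have hE0 : ∀ ψ, hE a b ψ ≠ 0 := fun ψ => (hb.trans_le (hE_ge hb hab ψ)).ne'
  set g : ℝ → ℂ := fun ψ => ((cE a b 0 * (G ψ / hE a b ψ) : ℝ) : ℂ) with hg
  have hgc : Continuous g :=
    Complex.continuous_ofReal.comp (continuous_const.mul (hG.div hEc hE0))
  have h := pairing hb hab (Complex.continuous_ofReal.comp hu)
    (fun ψ => by simp only [Function.comp]; rw [hper]) hs hgc
  have e1 : (1 / (2 * π) : ℂ) * ∫ ψ in (0 : ℝ)..(2 * π), ((u ψ : ℝ) : ℂ) * g ψ =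
      ((cE a b 0 / (2 * π) * ∫ ψ in (0 : ℝ)..(2 * π), u ψ * (G ψ / hE a b ψ) : ℝ) : ℂ) := by
    have f1 : ∀ ψ, ((u ψ : ℝ) : ℂ) * g ψ =
        ((cE a b 0 * (u ψ * (G ψ / hE a b ψ)) : ℝ) : ℂ) := by
      intro ψ
      simp only [hg]
      push_cast
      ring
    simp_rw [f1]
    rw [intervalIntegral.integral_ofReal, intervalIntegral.integral_const_mul]
    push_cast
    ring
  have e2 : ∀ m : ℤ, (1 / (2 * π) : ℂ) *
      ∫ ψ in (0 : ℝ)..(2 * π), g ψ * Complex.exp ((m * BE a b 0 ψ : ℝ) * I) =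
      Efun a b 0 (-m) (fun ψ => ((G ψ : ℝ) : ℂ)) := by
    intro m
    unfold Efun
    congr 1
    apply intervalIntegral.integral_congr
    intro ψ _
    simp only [hg]
    rw [wE_zero]
    push_cast
    rw [show -(-(m : ℂ) * (BE a b 0 ψ : ℂ)) * I = (m : ℂ) * (BE a b 0 ψ : ℂ) * I by ring]
    ring
  simp only [Function.comp_def] at h
  rw [e1] at h
  simp_rw [e2] at h
  exact h

/-- the five functions are uniformly bounded families -/
lemma UB_five {ι : Type*} (N : ℕ) {b₁ a₁ : ℝ} {a b : ι → ℝ} (hB : ∀ i, Box b₁ a₁ (a i) (b i))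
    (k : Fin 5) : UB N (fun i => five (a i) (b i) k) := by
  have hc := (UB_cos_sin (ι := ι) N).1
  have hs := (UB_cos_sin (ι := ι) N).2
  have hh := UB_hE N hB
  have h1 : UB N (fun (_ : ι) (_ : ℝ) => (1 : ℝ)) :=
    UB.const (c := fun _ => 1) ⟨1, fun _ => by simp⟩
  fin_cases k
  · exact h1
  · have h2 : UB N (fun (_ : ι) (x : ℝ) => Real.cos x * Real.cos x - Real.sin x * Real.sin x) :=
      (hc.mul hc).sub (hs.mul hs)
    have : (fun i => five (a i) (b i) 1) =
        fun (_ : ι) (x : ℝ) => Real.cos x * Real.cos x - Real.sin x * Real.sin x := by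
      funext i x
      change Real.cos (2 * x) = _
      rw [Real.cos_two_mul, ← sub_eq_zero]
      have := Real.sin_sq_add_cos_sq x
      nlinarith
    change UB N (fun i => five (a i) (b i) 1)
    rw [this]
    exact h2
  · have h2 : UB N (fun (_ : ι) (x : ℝ) => Real.sin x * Real.cos x + Real.sin x * Real.cos x) :=
      (hs.mul hc).add (hs.mul hc)
    have : (fun i => five (a i) (b i) 2) =
        fun (_ : ι) (x : ℝ) => Real.sin x * Real.cos x + Real.sin x * Real.cos x := by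
      funext i x
      change Real.sin (2 * x) = _
      rw [Real.sin_two_mul]
      ring
    change UB N (fun i => five (a i) (b i) 2)
    rw [this]
    exact h2
  · exact hh.mul hc
  · exact hh.mul hs

lemma five_periodic (a b : ℝ) (k : Fin 5) (ψ : ℝ) : five a b k (ψ + 2 * π) = five a b k ψ := by
  fin_cases k
  · rfl
  · change Real.cos (2 * (ψ + 2 * π)) = Real.cos (2 * ψ)
    rw [show 2 * (ψ + 2 * π) = 2 * ψ + 2 * π + 2 * π by ring, Real.cos_add_two_pi,
      Real.cos_add_two_pi]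
  · change Real.sin (2 * (ψ + 2 * π)) = Real.sin (2 * ψ)
    rw [show 2 * (ψ + 2 * π) = 2 * ψ + 2 * π + 2 * π by ring, Real.sin_add_two_pi,
      Real.sin_add_two_pi]
  · change hE a b (ψ + 2 * π) * Real.cos (ψ + 2 * π) = hE a b ψ * Real.cos ψ
    rw [hE_add_two_pi, Real.cos_add_two_pi]
  · change hE a b (ψ + 2 * π) * Real.sin (ψ + 2 * π) = hE a b ψ * Real.sin ψ
    rw [hE_add_two_pi, Real.sin_add_two_pi]

/-- coefficient bound for `five/hE` -/
theorem five_coeff {ι : Type*} {b₁ a₁ : ℝ} {a b : ι → ℝ} (hB : ∀ i, Box b₁ a₁ (a i) (b i))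
    (k : Fin 5) : ∃ C, ∀ i (m : ℤ), (1 + |(m : ℝ)|) *
      ‖Efun (a i) (b i) 0 m (fun ψ => ((five (a i) (b i) k ψ / hE (a i) (b i) ψ : ℝ) : ℂ))‖ ≤ C := by
  by_cases hι : Nonempty ι
  · obtain ⟨i₀⟩ := hι
    have hb₁ := (hB i₀).pos
    have h1 : ∀ N, UB N (fun i ψ => five (a i) (b i) k ψ / hE (a i) (b i) ψ) := by
      intro N
      have h2 := (UB_hE N hB).inv hb₁ (fun i ψ =>
        (hB i).hb.trans (hE_ge ((hB i).pos.trans_le (hB i).hb) (hB i).hab.le ψ))
      have h3 := (UB_five N hB k).mul h2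
      simpa only [div_eq_mul_inv] using h3
    have hper : ∀ i ψ, five (a i) (b i) k (ψ + 2 * π) / hE (a i) (b i) (ψ + 2 * π) =
        five (a i) (b i) k ψ / hE (a i) (b i) ψ := fun i ψ => by
      rw [five_periodic, hE_add_two_pi]
    obtain ⟨C, hC⟩ := Efun_decay hB 0 (h1 0) hper
    obtain ⟨D, hD⟩ := Efun_decay hB 1 (h1 1) hper
    refine ⟨C + D, fun i m => ?_⟩
    have e1 := hC i m
    have e2 := hD i m
    rw [pow_zero, one_mul] at e1
    rw [pow_one] at e2
    rw [add_mul, one_mul]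
    exact add_le_add e1 e2
  · exact ⟨0, fun i => (hι ⟨i⟩).elim⟩

end LSB
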