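import Pool.Agent.LSB.FExp
import Pool.Agent.LSB.FIbp
import Pool.Agent.LSB.FPair

/-!
# Part K, module KSer: Fourier expansion of the bounce functionals

Paper proof.  `efun_hasSum`: `Efun a b 0 m u` is absolutely summable for `u` of class `C²` (two integrations by parts: `FIbp.Efun_deriv`/`Efun_decay`), so
`pairing` (module FExp) with `g ψ=cE a b l·wE a b l ψ·exp(-i n BE a b l ψ)` gives the claim: `chi a b l n m` is by definition
`(1/2π)∫ exp(i m BE a b 0 ψ) g ψ`.  `eq_zero_of_efun_zero`: `hasSum_Efun` (module FExp) with all coefficients zero.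
-/

namespace LSB

open Real

lemma bounded_of_periodic {v : ℝ → ℂ} (hv : Continuous v) (hper : ∀ ψ, v (ψ + 2 * π) = v ψ) :
    ∃ C, ∀ ψ, ‖v ψ‖ ≤ C := by
  obtain ⟨C, hC⟩ := isCompact_Icc.exists_bound_of_continuousOn
    (s := Set.Icc (0 : ℝ) (2 * π)) hv.continuousOn
  refine ⟨C, fun ψ => ?_⟩
  have hp : Function.Periodic v (2 * π) := hper
  obtain ⟨y, hy, hyeq⟩ := hp.exists_mem_Ico₀ (by positivity) ψ
  rw [hyeq]
  exact hC y ⟨hy.1, hy.2.le⟩

lemma deriv_periodic' {v : ℝ → ℂ} (hper : ∀ ψ, v (ψ + 2 * π) = v ψ) (ψ : ℝ) :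
    deriv v (ψ + 2 * π) = deriv v ψ := by
  have h5 := deriv_comp_add_const v (2 * π) ψ
  rw [← h5]
  congr 1
  exact funext hper

lemma summable_Efun_of_contDiff {a b : ℝ} (hb : 0 < b) (hab : b ≤ a)
    {u : ℝ → ℂ} (hu : ContDiff ℝ 2 u) (hper : ∀ ψ, u (ψ + 2 * π) = u ψ) :
    Summable fun m : ℤ => ‖Efun a b 0 m u‖ := by
  set D : (ℝ → ℂ) → ℝ → ℂ := fun v ψ => ((hE a b ψ / cE a b 0 : ℝ) : ℂ) * deriv v ψ with hD
  have hh : ContDiff ℝ 1 (fun ψ => ((hE a b ψ / cE a b 0 : ℝ) : ℂ)) :=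
    Complex.ofRealCLM.contDiff.comp ((contDiff_hE hb hab ENat.LEInfty.out).div_const _)
  have hu1 : ContDiff ℝ 1 (deriv u) := by
    have : ContDiff ℝ (1 + 1) u := by
      have h2 : (1 + 1 : WithTop ℕ∞) = 2 := by norm_num
      rw [h2]; exact hu
    exact (contDiff_succ_iff_deriv.1 this).2.2
  have hDu : ContDiff ℝ 1 (D u) := hh.mul hu1
  have hDper : ∀ v : ℝ → ℂ, (∀ ψ, v (ψ + 2 * π) = v ψ) → ∀ ψ, D v (ψ + 2 * π) = D v ψ := by
    intro v hv ψ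
    simp only [hD]
    rw [hE_add_two_pi, deriv_periodic' hv]
  have hDDu : Continuous (D (D u)) :=
    hh.continuous.mul (hDu.continuous_deriv le_rfl)
  obtain ⟨C₀, hC₀⟩ := bounded_of_periodic hu.continuous hper
  obtain ⟨C₂, hC₂⟩ := bounded_of_periodic hDDu (hDper _ (hDper _ hper))
  have hl0 : (0 : ℝ) ≤ b / 2 := by positivity
  have e0 : ∀ m : ℤ, ‖Efun a b 0 m u‖ ≤ C₀ := fun m => norm_Efun_le hb hab le_rfl hl0 m hC₀
  have e2 : ∀ m : ℤ, |(m : ℝ)| ^ 2 * ‖Efun a b 0 m u‖ ≤ C₂ := by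
    intro m
    have h1 := Efun_deriv hb hab (hu.of_le (by norm_num)) hper m
    have h2 := Efun_deriv hb hab hDu (hDper _ hper) m
    have h3 := norm_Efun_le hb hab le_rfl hl0 m hC₂
    have h4 : Efun a b 0 m (D (D u)) = (m : ℂ) * Complex.I * ((m : ℂ) * Complex.I * Efun a b 0 m u) := by
      rw [← h1]
      exact h2
    rw [h4] at h3
    rw [norm_mul, norm_mul, norm_mul, norm_mul, Complex.norm_I, mul_one,
      Complex.norm_intCast] at h3
    calc |(m : ℝ)| ^ 2 * ‖Efun a b 0 m u‖ = |(m : ℝ)| * (|(m : ℝ)| * ‖Efun a b 0 m u‖) := by ring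
      _ ≤ C₂ := h3
  refine Summable.of_nonneg_of_le (fun m => norm_nonneg _) (fun m => ?_)
    (summable_inv_sq.mul_left (2 * (C₀ + C₂)))
  rw [mul_one_div, le_div_iff₀ (by positivity)]
  have e3 : (1 + |(m : ℝ)|) ^ 2 ≤ 2 * (1 + |(m : ℝ)| ^ 2) := by
    nlinarith [sq_nonneg (1 - |(m : ℝ)|)]
  calc ‖Efun a b 0 m u‖ * (1 + |(m : ℝ)|) ^ 2 ≤ ‖Efun a b 0 m u‖ * (2 * (1 + |(m : ℝ)| ^ 2)) :=
        mul_le_mul_of_nonneg_left e3 (norm_nonneg _)
    _ = 2 * (‖Efun a b 0 m u‖ + |(m : ℝ)| ^ 2 * ‖Efun a b 0 m u‖) := by ring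
    _ ≤ 2 * (C₀ + C₂) := by
        apply mul_le_mul_of_nonneg_left _ (by norm_num)
        exact add_le_add (e0 m) (e2 m)

theorem efun_hasSum {a b l : ℝ} (hb : 0 < b) (hab : b ≤ a) (hl : 0 ≤ l) (hlb : l ≤ b / 2)
    {u : ℝ → ℂ} (hu : ContDiff ℝ 2 u) (hper : ∀ ψ, u (ψ + 2 * π) = u ψ) (n : ℤ) :
    HasSum (fun m : ℤ => Efun a b 0 m u * chi a b l n m) (Efun a b l n u) :=
  pairing_chi hb hab hl hlb hu.continuous hper (summable_Efun_of_contDiff hb hab hu hper) n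

/-- Uniqueness of Fourier coefficients in the Lazutkin coordinate. -/
theorem eq_zero_of_efun_zero {a b : ℝ} (hb : 0 < b) (hab : b ≤ a) {u : ℝ → ℂ} (hu : Continuous u)
    (hper : ∀ ψ, u (ψ + 2 * π) = u ψ) (h : ∀ m : ℤ, Efun a b 0 m u = 0) : u = 0 := by
  funext ψ
  have h1 := hasSum_Efun hb hab le_rfl (by positivity) hu hper
    (by simp_rw [h, norm_zero]; exact summable_zero) ψ
  simp_rw [h, zero_mul] at h1
  exact h1.unique hasSum_zero

end LSB
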