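import Pool.Agent.LSB.Ell

/-!
# Part A6: the five trivial deformations (see the header of `TopA.lean`, steps A2, A5, A6, for the paper proof)

Here the proof is a direct change of variables: if `u(ψ) = α + β (g(ψ + D) - g(ψ - D))` with a
continuous `2π`-periodic function `g`, then the bounce coefficient of order `m` of `u` vanishes as
soon as `m ≠ 0` and `m ω` is an integer, since `Θ(ψ ± D) = B(ψ) ± π ω`.
-/

namespace LSB

open Real MeasureTheory

namespace A2

open El

variable {a b l : ℝ}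

theorem continuous_BE (H : EH a b l) : Continuous (BE a b l) :=
  continuous_iff_continuousAt.mpr fun ψ => (hasDerivAt_BE H ψ).continuousAt

theorem continuous_TE (H : EH a b l) : Continuous (TE a b l) :=
  continuous_iff_continuousAt.mpr fun ψ => (hasDerivAt_TE H ψ).continuousAt

theorem continuous_exp_BE (H : EH a b l) (m : ℤ) :
    Continuous fun ψ => Complex.exp (-(m * BE a b l ψ : ℝ) * Complex.I) := by
  have := continuous_BE H
  fun_prop

/-- The constant function. -/
theorem int_one (H : EH a b l) {m : ℤ} (hm : m ≠ 0) :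
    ∫ ψ in (0 : ℝ)..(2 * π), ((cE a b l * wE a b l ψ : ℝ) : ℂ) *
      Complex.exp (-(m * BE a b l ψ : ℝ) * Complex.I) = 0 := by
  have hm' : (m : ℂ) ≠ 0 := by exact_mod_cast hm
  have hd : ∀ ψ : ℝ, HasDerivAt (fun ψ : ℝ =>
      Complex.exp (-(m * BE a b l ψ : ℝ) * Complex.I) / (-(m : ℂ) * Complex.I))
      (((cE a b l * wE a b l ψ : ℝ) : ℂ) *
        Complex.exp (-(m * BE a b l ψ : ℝ) * Complex.I)) ψ := by
    intro ψ
    have h1 : HasDerivAt (fun ψ : ℝ => ((m * BE a b l ψ : ℝ) : ℂ))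
        ((m * (cE a b l * wE a b l ψ) : ℝ) : ℂ) ψ :=
      ((hasDerivAt_BE H ψ).const_mul (m : ℝ)).ofReal_comp
    have h1' : HasDerivAt (fun ψ : ℝ => -((m * BE a b l ψ : ℝ) : ℂ))
        (-((m * (cE a b l * wE a b l ψ) : ℝ) : ℂ)) ψ := h1.neg
    have h2 := ((h1'.mul_const Complex.I).cexp).div_const (-(m : ℂ) * Complex.I)
    refine h2.congr_deriv ?_
    have hI := Complex.I_ne_zero
    push_cast
    field_simp
  have h3 := intervalIntegral.integral_eq_sub_of_hasDerivAt (a := 0) (b := 2 * π)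
    (fun ψ _ => hd ψ)
    ((Continuous.mul (Complex.continuous_ofReal.comp (continuous_const.mul (continuous_wE H)))
      (continuous_exp_BE H m)).intervalIntegrable _ _)
  rw [h3, BE_two_pi H, BE_zero]
  have e1 : Complex.exp (-((m * (2 * π) : ℝ) : ℂ) * Complex.I) = 1 := by
    rw [show -((m * (2 * π) : ℝ) : ℂ) * Complex.I = ((-m : ℤ) : ℂ) * (2 * π * Complex.I) by
      push_cast; ring]
    exact Complex.exp_int_mul_two_pi_mul_I (-m)
  rw [e1]
  simp

/-- The function on the other side of the change of variables. -/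
noncomputable def Phi (a b l : ℝ) (m : ℤ) (g : ℝ → ℂ) (x : ℝ) : ℂ :=
  g x * ((cE a b l * (1 / PE a b l x) : ℝ) : ℂ) *
    Complex.exp (-(m * TE a b l x : ℝ) * Complex.I)

theorem continuous_Phi (H : EH a b l) (m : ℤ) {g : ℝ → ℂ} (hg : Continuous g) :
    Continuous (Phi a b l m g) := by
  unfold Phi
  have h1 := continuous_TE H
  have h2 := continuous_inv_PE H
  exact (hg.mul (Complex.continuous_ofReal.comp (continuous_const.mul h2))).mul (by fun_prop)

theorem periodic_Phi (H : EH a b l) (m : ℤ) {g : ℝ → ℂ} (hg : ∀ x, g (x + 2 * π) = g x) :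
    Function.Periodic (Phi a b l m g) (2 * π) := by
  intro x
  rw [Phi, Phi, hg, PE_add_two_pi, TE_two_pi H]
  congr 1
  rw [show -((m * (TE a b l x + 2 * π) : ℝ) : ℂ) * Complex.I =
    -((m * TE a b l x : ℝ) : ℂ) * Complex.I + ((-m : ℤ) : ℂ) * (2 * π * Complex.I) by
      push_cast; ring, Complex.exp_add, Complex.exp_int_mul_two_pi_mul_I, mul_one]

theorem int_Phi_add (H : EH a b l) (m : ℤ) {g : ℝ → ℂ} (hg : Continuous g)
    (hper : ∀ x, g (x + 2 * π) = g x) :
    ∫ x in (0 : ℝ)..(2 * π), Phi a b l m g x =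
      Complex.exp (-((m * (π * omE a b l) : ℝ) : ℂ) * Complex.I) *
        ∫ ψ in (0 : ℝ)..(2 * π), g (ψ + DE a b l ψ) * ((cE a b l * wE a b l ψ : ℝ) : ℂ) *
          Complex.exp (-(m * BE a b l ψ : ℝ) * Complex.I) := by
  have h1 := intervalIntegral.integral_deriv_smul_comp (a := 0) (b := 2 * π)
    (f := fun ψ => ψ + DE a b l ψ)
    (f' := fun ψ => PE a b l (ψ + DE a b l ψ) * wE a b l ψ)
    (g := Phi a b l m g) (fun ψ _ => hasDerivAt_add H ψ)
    (((continuous_PE a b l).comp (continuous_id.add (continuous_DE H))).mul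
      (continuous_wE H)).continuousOn (continuous_Phi H m hg)
  have h2 : DE a b l (2 * π) = DE a b l 0 := by
    have := DE_add_two_pi a b l 0
    rwa [zero_add] at this
  rw [h2, zero_add, add_comm (2 * π) (DE a b l 0),
    (periodic_Phi H m hper).intervalIntegral_add_eq (DE a b l 0) 0, zero_add] at h1
  rw [← h1, ← intervalIntegral.integral_const_mul]
  refine intervalIntegral.integral_congr fun ψ _ => ?_
  show (PE a b l (ψ + DE a b l ψ) * wE a b l ψ) • Phi a b l m g (ψ + DE a b l ψ) = _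
  rw [Phi, TE_add H, Complex.real_smul,
    show -((m * (BE a b l ψ + π * omE a b l) : ℝ) : ℂ) * Complex.I =
      -((m * (π * omE a b l) : ℝ) : ℂ) * Complex.I +
        -((m * BE a b l ψ : ℝ) : ℂ) * Complex.I by push_cast; ring, Complex.exp_add]
  have h3 : ((PE a b l (ψ + DE a b l ψ) : ℝ) : ℂ) ≠ 0 := by
    exact_mod_cast (PE_pos H _).ne'
  push_cast
  field_simp

theorem int_Phi_sub (H : EH a b l) (m : ℤ) {g : ℝ → ℂ} (hg : Continuous g)
    (hper : ∀ x, g (x + 2 * π) = g x) :
    ∫ x in (0 : ℝ)..(2 * π), Phi a b l m g x =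
      Complex.exp (((m * (π * omE a b l) : ℝ) : ℂ) * Complex.I) *
        ∫ ψ in (0 : ℝ)..(2 * π), g (ψ - DE a b l ψ) * ((cE a b l * wE a b l ψ : ℝ) : ℂ) *
          Complex.exp (-(m * BE a b l ψ : ℝ) * Complex.I) := by
  have h1 := intervalIntegral.integral_deriv_smul_comp (a := 0) (b := 2 * π)
    (f := fun ψ => ψ - DE a b l ψ)
    (f' := fun ψ => PE a b l (ψ - DE a b l ψ) * wE a b l ψ)
    (g := Phi a b l m g) (fun ψ _ => hasDerivAt_sub H ψ)
    (((continuous_PE a b l).comp (continuous_id.sub (continuous_DE H))).mul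
      (continuous_wE H)).continuousOn (continuous_Phi H m hg)
  have h2 : DE a b l (2 * π) = DE a b l 0 := by
    have := DE_add_two_pi a b l 0
    rwa [zero_add] at this
  rw [h2, zero_sub, show 2 * π - DE a b l 0 = -DE a b l 0 + 2 * π by ring,
    (periodic_Phi H m hper).intervalIntegral_add_eq (-DE a b l 0) 0, zero_add] at h1
  rw [← h1, ← intervalIntegral.integral_const_mul]
  refine intervalIntegral.integral_congr fun ψ _ => ?_
  show (PE a b l (ψ - DE a b l ψ) * wE a b l ψ) • Phi a b l m g (ψ - DE a b l ψ) = _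
  rw [Phi, TE_sub H, Complex.real_smul,
    show -((m * (BE a b l ψ - π * omE a b l) : ℝ) : ℂ) * Complex.I =
      ((m * (π * omE a b l) : ℝ) : ℂ) * Complex.I +
        -((m * BE a b l ψ : ℝ) : ℂ) * Complex.I by push_cast; ring, Complex.exp_add]
  have h3 : ((PE a b l (ψ - DE a b l ψ) : ℝ) : ℂ) ≠ 0 := by
    exact_mod_cast (PE_pos H _).ne'
  push_cast
  field_simp

/-- The two shifted integrals agree when `m ω` is an integer. -/
theorem int_add_eq_sub (H : EH a b l) {m j : ℤ} (hmj : m * omE a b l = j) {g : ℝ → ℂ}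
    (hg : Continuous g) (hper : ∀ x, g (x + 2 * π) = g x) :
    ∫ ψ in (0 : ℝ)..(2 * π), g (ψ + DE a b l ψ) * ((cE a b l * wE a b l ψ : ℝ) : ℂ) *
          Complex.exp (-(m * BE a b l ψ : ℝ) * Complex.I) =
    ∫ ψ in (0 : ℝ)..(2 * π), g (ψ - DE a b l ψ) * ((cE a b l * wE a b l ψ : ℝ) : ℂ) *
          Complex.exp (-(m * BE a b l ψ : ℝ) * Complex.I) := by
  have h1 := int_Phi_add H m hg hper
  have h2 := int_Phi_sub H m hg hper
  rw [h1] at h2
  have e1 : ((m * (π * omE a b l) : ℝ) : ℂ) = j * π := by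
    have : m * (π * omE a b l) = j * π := by rw [← hmj]; ring
    rw [this]; push_cast; ring
  rw [e1] at h2
  have e2 : Complex.exp ((j * π : ℂ) * Complex.I) =
      Complex.exp (-(j * π : ℂ) * Complex.I) := by
    rw [show (j * π : ℂ) * Complex.I = -(j * π : ℂ) * Complex.I +
      (j : ℂ) * (2 * π * Complex.I) by ring, Complex.exp_add,
      Complex.exp_int_mul_two_pi_mul_I, mul_one]
  rw [e2] at h2
  exact mul_left_cancel₀ (Complex.exp_ne_zero _) h2

/-- Functions of the form `α + β (g(ψ + D) - g(ψ - D))` are annihilated. -/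
theorem Efun_eq_zero (H : EH a b l) {m j : ℤ} (hm : m ≠ 0) (hmj : m * omE a b l = j)
    {g : ℝ → ℝ} (hg : Continuous g) (hper : ∀ x, g (x + 2 * π) = g x) (α β : ℝ)
    {u : ℝ → ℝ} (hu : ∀ ψ, u ψ = α + β * (g (ψ + DE a b l ψ) - g (ψ - DE a b l ψ))) :
    Efun a b l m (fun ψ => ((u ψ : ℝ) : ℂ)) = 0 := by
  have hg' : Continuous fun x => (g x : ℂ) := Complex.continuous_ofReal.comp hg
  have hper' : ∀ x, (g (x + 2 * π) : ℂ) = g x := fun x => by rw [hper]
  have h1 := int_add_eq_sub H hmj hg' hper'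
  have h2 := int_one H hm
  have hE := continuous_exp_BE H m
  have hw : Continuous fun ψ => ((cE a b l * wE a b l ψ : ℝ) : ℂ) :=
    Complex.continuous_ofReal.comp (continuous_const.mul (continuous_wE H))
  have hD := continuous_DE H
  have c0 : Continuous fun ψ => ((cE a b l * wE a b l ψ : ℝ) : ℂ) *
      Complex.exp (-(m * BE a b l ψ : ℝ) * Complex.I) := hw.mul hE
  have c1 : Continuous fun ψ => (g (ψ + DE a b l ψ) : ℂ) *
      ((cE a b l * wE a b l ψ : ℝ) : ℂ) * Complex.exp (-(m * BE a b l ψ : ℝ) * Complex.I) :=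
    ((hg'.comp (continuous_id.add hD)).mul hw).mul hE
  have c2 : Continuous fun ψ => (g (ψ - DE a b l ψ) : ℂ) *
      ((cE a b l * wE a b l ψ : ℝ) : ℂ) * Complex.exp (-(m * BE a b l ψ : ℝ) * Complex.I) :=
    ((hg'.comp (continuous_id.sub hD)).mul hw).mul hE
  have h3 : ∫ ψ in (0 : ℝ)..(2 * π), ((u ψ : ℝ) : ℂ) * ((cE a b l * wE a b l ψ : ℝ) : ℂ) *
      Complex.exp (-(m * BE a b l ψ : ℝ) * Complex.I) =
      ∫ ψ in (0 : ℝ)..(2 * π), ((α : ℂ) * (((cE a b l * wE a b l ψ : ℝ) : ℂ) *
        Complex.exp (-(m * BE a b l ψ : ℝ) * Complex.I)) +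
        ((β : ℂ) * ((g (ψ + DE a b l ψ) : ℂ) *
          ((cE a b l * wE a b l ψ : ℝ) : ℂ) *
            Complex.exp (-(m * BE a b l ψ : ℝ) * Complex.I)) -
        (β : ℂ) * ((g (ψ - DE a b l ψ) : ℂ) *
          ((cE a b l * wE a b l ψ : ℝ) : ℂ) *
            Complex.exp (-(m * BE a b l ψ : ℝ) * Complex.I)))) := by
    refine intervalIntegral.integral_congr fun ψ _ => ?_
    simp only [hu ψ]
    push_cast
    ring
  rw [Efun, h3, intervalIntegral.integral_add, intervalIntegral.integral_sub,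
    intervalIntegral.integral_const_mul, intervalIntegral.integral_const_mul,
    intervalIntegral.integral_const_mul, h1, h2]
  · simp
  · exact (continuous_const.mul c1).intervalIntegrable _ _
  · exact (continuous_const.mul c2).intervalIntegrable _ _
  · exact (continuous_const.mul c0).intervalIntegrable _ _
  · exact ((continuous_const.mul c1).sub (continuous_const.mul c2)).intervalIntegrable _ _

theorem hasDerivAt_U (a b l x : ℝ) :
    HasDerivAt (fun x => ∫ t in (0 : ℝ)..x, PE a b l t) (PE a b l x) x :=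
  intervalIntegral.integral_hasDerivAt_right ((continuous_PE a b l).intervalIntegrable _ _)
    (continuous_PE a b l).aestronglyMeasurable.stronglyMeasurableAtFilter
    (continuous_PE a b l).continuousAt

theorem U_two_pi (a b l x : ℝ) : (∫ t in (0 : ℝ)..(x + 2 * π), PE a b l t) =
    (∫ t in (0 : ℝ)..x, PE a b l t) + ∫ t in (0 : ℝ)..(2 * π), PE a b l t := by
  have h3 := intervalIntegral.integral_add_adjacent_intervals
    ((continuous_PE a b l).intervalIntegrable (μ := volume) 0 x)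
    ((continuous_PE a b l).intervalIntegrable (μ := volume) x (x + 2 * π))
  have hper : Function.Periodic (PE a b l) (2 * π) := PE_add_two_pi a b l
  have := hper.intervalIntegral_add_eq x 0
  rw [zero_add] at this
  rw [← h3, this]

/-- The length function: `2 (l / (a b)) h² = U(ψ + D) - U(ψ - D) + const`. -/
theorem length_identity (H : EH a b l) : ∃ m₀ : ℝ, ∀ ψ,
    2 * l / (a * b) * hE a b ψ ^ 2 = (∫ t in (0 : ℝ)..(ψ + DE a b l ψ), PE a b l t) -
      (∫ t in (0 : ℝ)..(ψ - DE a b l ψ), PE a b l t) + m₀ := by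
  have hd : ∀ x, HasDerivAt (fun ψ => 2 * l / (a * b) * hE a b ψ ^ 2 -
      ((∫ t in (0 : ℝ)..(ψ + DE a b l ψ), PE a b l t) -
        (∫ t in (0 : ℝ)..(ψ - DE a b l ψ), PE a b l t))) 0 x := by
    intro x
    have h1 := (hasDerivAt_U a b l (x + DE a b l x)).comp x (hasDerivAt_add H x)
    have h2 := (hasDerivAt_U a b l (x - DE a b l x)).comp x (hasDerivAt_sub H x)
    have h3 := ((hasDerivAt_hE H.hb H.hab x).pow 2).const_mul (2 * l / (a * b))
    have h4 := h3.sub (h1.sub h2)
    refine h4.congr_deriv ?_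
    rw [PE_add H, PE_sub H, wE_eq, sin_DE H]
    have e1 := (hE_pos H.hb H.hab x).ne'
    have e2 := (cos_DE_pos H x).ne'
    have e3 := H.ha.ne'
    have e4 := H.hb.ne'
    field_simp
    ring
  refine ⟨2 * l / (a * b) * hE a b 0 ^ 2 - ((∫ t in (0 : ℝ)..(0 + DE a b l 0), PE a b l t) -
      (∫ t in (0 : ℝ)..(0 - DE a b l 0), PE a b l t)), fun ψ => ?_⟩
  have h1 := is_const_of_deriv_eq_zero (fun x => (hd x).differentiableAt)
    (fun x => (hd x).deriv) ψ 0
  linarith

/-- The five deformations have the right form. -/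
theorem five_form (H : EH a b l) (i : Fin 5) : ∃ (g : ℝ → ℝ) (α β : ℝ), Continuous g ∧
    (∀ x, g (x + 2 * π) = g x) ∧
    ∀ ψ, five a b i ψ = α + β * (g (ψ + DE a b l ψ) - g (ψ - DE a b l ψ)) := by
  have ha := H.ha
  have hb := H.hb
  have hl := H.hl
  have hab : a ^ 2 - b ^ 2 ≠ 0 := by
    have : 0 < a ^ 2 - b ^ 2 := by nlinarith [H.hab]
    exact this.ne'
  fin_cases i
  · exact ⟨fun _ => 0, 1, 0, continuous_const, fun _ => rfl, fun ψ => by simp [five]⟩
  · obtain ⟨m₀, hm₀⟩ := length_identity H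
    set α₀ := (∫ t in (0 : ℝ)..(2 * π), PE a b l t) / (2 * π) with hα₀
    have hα₀' : (∫ t in (0 : ℝ)..(2 * π), PE a b l t) = α₀ * (2 * π) := by
      rw [hα₀]
      have := Real.pi_ne_zero
      field_simp
    refine ⟨fun x => (∫ t in (0 : ℝ)..x, PE a b l t) - α₀ * TE a b l x,
      (2 * ((α₀ * (2 * (π * omE a b l)) + m₀) * (a * b / (2 * l))) - (a ^ 2 + b ^ 2)) /
        (a ^ 2 - b ^ 2), 2 * (a * b / (2 * l)) / (a ^ 2 - b ^ 2), ?_, ?_, ?_⟩
    · refine Continuous.sub ?_ (continuous_const.mul (continuous_TE H))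
      exact continuous_iff_continuousAt.mpr fun x => (hasDerivAt_U a b l x).continuousAt
    · intro x
      simp only
      rw [U_two_pi, TE_two_pi H, hα₀']
      ring
    · intro ψ
      simp only
      have h1 := hm₀ ψ
      have h2 : five a b 1 ψ = (2 * hE a b ψ ^ 2 - (a ^ 2 + b ^ 2)) / (a ^ 2 - b ^ 2) := by
        rw [hE_sq]
        show Real.cos (2 * ψ) = _
        rw [Real.cos_two_mul]
        have := Real.sin_sq_add_cos_sq ψ
        have h3 : Real.sin ψ ^ 2 = 1 - Real.cos ψ ^ 2 := by linarith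
        rw [h3]
        field_simp
        ring
      have h4 : hE a b ψ ^ 2 = ((∫ t in (0 : ℝ)..(ψ + DE a b l ψ), PE a b l t) -
          (∫ t in (0 : ℝ)..(ψ - DE a b l ψ), PE a b l t) + m₀) * (a * b / (2 * l)) := by
        rw [← h1]
        field_simp
      show five a b 1 ψ = _
      rw [h2, h4, TE_add H, TE_sub H]
      field_simp
      ring
  · refine ⟨PE a b l, 0, -(a * b / (l * (a ^ 2 - b ^ 2))), continuous_PE a b l,
      PE_add_two_pi a b l, fun ψ => ?_⟩
    rw [PE_add H, PE_sub H, sin_DE H, hE']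
    show Real.sin (2 * ψ) = _
    rw [Real.sin_two_mul]
    have e1 := (hE_pos H.hb H.hab ψ).ne'
    field_simp
    ring
  · refine ⟨Real.sin, 0, a * b / (2 * l), Real.continuous_sin, Real.sin_add_two_pi, fun ψ => ?_⟩
    show hE a b ψ * Real.cos ψ = _
    rw [Real.sin_add, Real.sin_sub, sin_DE H]
    field_simp
    ring
  · refine ⟨fun x => -Real.cos x, 0, a * b / (2 * l), Real.continuous_cos.neg,
      fun x => by simp only [Real.cos_add_two_pi], fun ψ => ?_⟩
    show hE a b ψ * Real.sin ψ = 0 + a * b / (2 * l) *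
      (-Real.cos (ψ + DE a b l ψ) - -Real.cos (ψ - DE a b l ψ))
    rw [Real.cos_add, Real.cos_sub, sin_DE H]
    field_simp
    ring

end A2

/-- The five trivial deformations are annihilated. -/
theorem five_vanish {a b l : ℝ} (hb : 0 < b) (hab : b < a) (hl : 0 < l) (hlb : l < b)
    {p q : ℕ} (hp : 0 < p) (hq : 0 < q) (hom : omE a b l = p / q) {k : ℤ} (hk : k ≠ 0)
    (i : Fin 5) : Efun a b l (k * q) (fun ψ => ((five a b i ψ : ℝ) : ℂ)) = 0 := by
  have H : El.EH a b l := ⟨hb, hab, hl, hlb⟩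
  obtain ⟨g, α, β, hg, hper, hu⟩ := A2.five_form H i
  refine A2.Efun_eq_zero H (m := k * q) (j := k * p) ?_ ?_ hg hper α β hu
  · exact mul_ne_zero hk (by exact_mod_cast hq.ne')
  · have : (q : ℝ) ≠ 0 := by exact_mod_cast hq.ne'
    rw [hom]
    push_cast
    field_simp

end LSB
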