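import Pool.Agent.LSB.ETop
import Pool.Agent.LSB.CTop
import Pool.Agent.LSB.TopA2
import Pool.Agent.LSB.KSer
import Pool.Agent.LSB.FPair

/-!
# Part K (top): the kernel theorem for every ellipse

Paper proof.  `D,η'` from `exists_cdata_ellipse`.  Let `c i m=Efun a b 0 m (five a b i)` for `i<5` and `c 5=c`.  All are bounded
(`FIbp.norm_Efun_le`) and real (`Efun a b 0 (-m) u=conj` for real `u`).  For `η''=min(η,η')` and `1≤p≤η''n` take `l` from `hv`:
`0=∑'c m chi a b l n m=κ∑'c m e^{mY}X n m(πp/n)Y`, so `D.Vanish η'' (c m e^{mY})`; and for the five functions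
`∑'Efun a b 0 m (five i)·chi a b l n m=Efun a b l n (five i)` (`efun_hasSum`, the functions are smooth) `=0` by `five_vanish` (write `p/n=p'/q` in lowest
terms, `n=k q`).  `abstract_kernel`: `t≠0` with `∑t_i c_i=0`.  If `t 5=0` then the function `∑t_i five_i` has zero coefficients, is `0`
(`eq_zero_of_efun_zero`), and `1, cos 2ψ, sin 2ψ, hE cosψ, hE sinψ` are linearly independent for `a>b` (the last two are odd under `ψ→ψ+π`, the first three
even; evaluate at `0,π/4,π/2,…`), contradiction.  So divide by `-t 5`.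
-/

namespace LSB

open Real

namespace TopKAux

variable {a b : ℝ}

theorem contDiff_five (hb : 0 < b) (hab : b < a) (i : Fin 5) : ContDiff ℝ 2 (five a b i) := by
  have h1 : ContDiff ℝ 2 (hE a b) := contDiff_hE hb hab.le (WithTop.coe_le_coe.2 (le_top : (2 : ℕ∞) ≤ ⊤))
  fin_cases i
  · exact contDiff_const
  · change ContDiff ℝ 2 fun ψ : ℝ => Real.cos (2 * ψ)
    fun_prop
  · change ContDiff ℝ 2 fun ψ : ℝ => Real.sin (2 * ψ)
    fun_prop
  · change ContDiff ℝ 2 fun ψ : ℝ => hE a b ψ * Real.cos ψ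
    exact h1.mul Real.contDiff_cos
  · change ContDiff ℝ 2 fun ψ : ℝ => hE a b ψ * Real.sin ψ
    exact h1.mul Real.contDiff_sin

theorem five_per2 (i : Fin 5) (ψ : ℝ) : five a b i (ψ + 2 * π) = five a b i ψ := by
  fin_cases i
  · rfl
  · change Real.cos (2 * (ψ + 2 * π)) = Real.cos (2 * ψ)
    rw [show 2 * (ψ + 2 * π) = 2 * ψ + 2 * π + 2 * π by ring, Real.cos_add_two_pi,
      Real.cos_add_two_pi]
  · change Real.sin (2 * (ψ + 2 * π)) = Real.sin (2 * ψ)
    rw [show 2 * (ψ + 2 * π) = 2 * ψ + 2 * π + 2 * π by ring, Real.sin_add_two_pi,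
      Real.sin_add_two_pi]
  · change hE a b (ψ + 2 * π) * Real.cos (ψ + 2 * π) = hE a b ψ * Real.cos ψ
    rw [hE_add_two_pi, Real.cos_add_two_pi]
  · change hE a b (ψ + 2 * π) * Real.sin (ψ + 2 * π) = hE a b ψ * Real.sin ψ
    rw [hE_add_two_pi, Real.sin_add_two_pi]

/-- linear independence of the five functions -/
theorem five_linInd (hb : 0 < b) (hab : b < a) (t : Fin 5 → ℝ)
    (h : ∀ ψ, ∑ i, t i * five a b i ψ = 0) : t = 0 := by
  have h' : ∀ ψ : ℝ, t 0 + t 1 * Real.cos (2 * ψ) + t 2 * Real.sin (2 * ψ) +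
      t 3 * (hE a b ψ * Real.cos ψ) + t 4 * (hE a b ψ * Real.sin ψ) = 0 := by
    intro ψ
    have := h ψ
    rw [Fin.sum_univ_five] at this
    have e0 : five a b 0 ψ = 1 := rfl
    have e1 : five a b 1 ψ = Real.cos (2 * ψ) := rfl
    have e2 : five a b 2 ψ = Real.sin (2 * ψ) := rfl
    have e3 : five a b 3 ψ = hE a b ψ * Real.cos ψ := rfl
    have e4 : five a b 4 ψ = hE a b ψ * Real.sin ψ := rfl
    rw [e0, e1, e2, e3, e4, mul_one] at this
    exact this
  have hev : ∀ ψ : ℝ, t 0 + t 1 * Real.cos (2 * ψ) + t 2 * Real.sin (2 * ψ) = 0 ∧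
      hE a b ψ * (t 3 * Real.cos ψ + t 4 * Real.sin ψ) = 0 := by
    intro ψ
    have h1 := h' ψ
    have h2 := h' (ψ + π)
    rw [show 2 * (ψ + π) = 2 * ψ + 2 * π by ring, Real.cos_add_two_pi, Real.sin_add_two_pi,
      Real.cos_add_pi, Real.sin_add_pi, hE_add_pi] at h2
    constructor
    · linarith
    · linarith
  have hod : ∀ ψ : ℝ, t 3 * Real.cos ψ + t 4 * Real.sin ψ = 0 := fun ψ =>
    (mul_eq_zero.1 (hev ψ).2).resolve_left (hE_pos hb hab.le ψ).ne'
  have a0 := (hev 0).1
  have a1 := (hev (π / 2)).1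
  have a2 := (hev (π / 4)).1
  have b0 := hod 0
  have b1 := hod (π / 2)
  rw [mul_zero, Real.cos_zero, Real.sin_zero] at a0
  rw [show 2 * (π / 2) = π by ring, Real.cos_pi, Real.sin_pi] at a1
  rw [show 2 * (π / 4) = π / 2 by ring, Real.cos_pi_div_two, Real.sin_pi_div_two] at a2
  rw [Real.cos_zero, Real.sin_zero] at b0
  rw [Real.cos_pi_div_two, Real.sin_pi_div_two] at b1
  funext i
  fin_cases i
  · change t 0 = 0
    linarith
  · change t 1 = 0
    linarith
  · change t 2 = 0
    linarith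
  · change t 3 = 0
    linarith
  · change t 4 = 0
    linarith

/-- linearity of the coefficients -/
theorem Efun_five (hb : 0 < b) (hab : b < a) (t : Fin 5 → ℝ) (m : ℤ) :
    Efun a b 0 m (fun ψ => ((∑ i, t i * five a b i ψ : ℝ) : ℂ)) =
      ∑ i, (t i : ℂ) * Efun a b 0 m (fun ψ => ((five a b i ψ : ℝ) : ℂ)) := by
  have hb2 : (0 : ℝ) ≤ b / 2 := by positivity
  have hw : Continuous fun ψ => ((cE a b 0 * wE a b 0 ψ : ℝ) : ℂ) :=
    Complex.continuous_ofReal.comp (continuous_const.mul (continuous_wE hb hab.le le_rfl hb2))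
  have hE : Continuous fun ψ => Complex.exp (-(m * BE a b 0 ψ : ℝ) * Complex.I) := by
    apply Complex.continuous_exp.comp
    apply Continuous.mul _ continuous_const
    exact (Complex.continuous_ofReal.comp
      (continuous_const.mul (continuous_BE' hb hab.le le_rfl hb2))).neg
  have hf : ∀ i, Continuous fun ψ => ((five a b i ψ : ℝ) : ℂ) := fun i =>
    Complex.continuous_ofReal.comp (contDiff_five hb hab i).continuous
  unfold Efun
  have h1 : ∫ ψ in (0 : ℝ)..(2 * π), ((∑ i, t i * five a b i ψ : ℝ) : ℂ) *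
      (cE a b 0 * wE a b 0 ψ : ℝ) * Complex.exp (-(m * BE a b 0 ψ : ℝ) * Complex.I) =
      ∑ i, (t i : ℂ) * ∫ ψ in (0 : ℝ)..(2 * π), ((five a b i ψ : ℝ) : ℂ) *
        (cE a b 0 * wE a b 0 ψ : ℝ) * Complex.exp (-(m * BE a b 0 ψ : ℝ) * Complex.I) := by
    simp only [← intervalIntegral.integral_const_mul]
    rw [← intervalIntegral.integral_finsetSum]
    · refine intervalIntegral.integral_congr fun ψ _ => ?_
      push_cast
      rw [Finset.sum_mul, Finset.sum_mul]
      exact Finset.sum_congr rfl fun i _ => by ring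
    · intro i _
      exact (continuous_const.mul (((hf i).mul hw).mul hE)).intervalIntegrable _ _
  rw [h1, Finset.mul_sum]
  exact Finset.sum_congr rfl fun i _ => by ring

end TopKAux

open TopKAux

/-- Kernel theorem: a bounded real sequence of Lazutkin-Fourier coefficients annihilated by all
bounce functionals of small rotation number is that of one of the five trivial deformations. -/
theorem kernel_eq_five {a b : ℝ} (hb : 0 < b) (hab : b < a) {η : ℝ} (hη : 0 < η) (c : ℤ → ℂ)
    (hc : ∃ C, ∀ m, ‖c m‖ ≤ C) (hreal : ∀ m, c (-m) = starRingEnd ℂ (c m))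
    (hv : ∀ n p : ℕ, 0 < p → (p : ℝ) ≤ η * n →
      ∃ l, 0 < l ∧ l ≤ b / 2 ∧ omE a b l = p / n ∧ ∑' m : ℤ, c m * chi a b l n m = 0) :
    ∃ t : Fin 5 → ℝ, ∀ m : ℤ,
      c m = Efun a b 0 m (fun ψ => ((∑ i, t i * five a b i ψ : ℝ) : ℂ)) := by
  have hb2 : (0 : ℝ) ≤ b / 2 := by positivity
  obtain ⟨D, η', hη', hD⟩ := exists_cdata_ellipse hb hab
  set η₂ := min η η' with hη₂
  have hη₂0 : 0 < η₂ := lt_min hη hη'
  let cf : Fin 5 → ℤ → ℂ := fun i m => Efun a b 0 m (fun ψ => ((five a b i ψ : ℝ) : ℂ))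
  let cc : Fin 6 → ℤ → ℂ := Fin.snoc (α := fun _ => ℤ → ℂ) cf c
  have hcl : ∀ i : Fin 5, cc i.castSucc = cf i := fun i => by simp [cc]
  have hcr : cc (Fin.last 5) = c := Fin.snoc_last (α := fun _ => ℤ → ℂ) c cf
  -- the vanishing property for a sequence
  have key : ∀ s : ℤ → ℂ, (∀ n p : ℕ, 0 < p → (p : ℝ) ≤ η₂ * n → ∀ l, 0 < l → l ≤ b / 2 →
      omE a b l = p / n → ∑' m : ℤ, c m * chi a b l n m = 0 →
        ∑' m : ℤ, s m * chi a b l n m = 0) →
      D.Vanish η₂ (fun m => s m * Real.exp (m * D.Y)) := by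
    intro s hs n p hp hpn
    have hn0 : (0 : ℝ) ≤ n := Nat.cast_nonneg n
    obtain ⟨l, hl, hlb, hom, h0⟩ := hv n p hp
      (hpn.trans (mul_le_mul_of_nonneg_right (min_le_left _ _) hn0))
    have h1 := hs n p hp hpn l hl hlb hom h0
    obtain ⟨κ, hκ, hchi⟩ := hD n p hp
      (hpn.trans (mul_le_mul_of_nonneg_right (min_le_right _ _) hn0)) l hl hlb hom
    have h2 : ∑' m : ℤ, s m * chi a b l n m = (κ : ℂ) * ∑' m : ℤ,
        s m * Real.exp (m * D.Y) * D.X n m (Real.pi * p / n) D.Y := by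
      rw [← tsum_mul_left]
      refine tsum_congr fun m => ?_
      rw [hchi m]
      ring
    rw [h2] at h1
    exact (mul_eq_zero.1 h1).resolve_left (by exact_mod_cast hκ.ne')
  have hvan : ∀ i, D.Vanish η₂ (fun m => cc i m * Real.exp (m * D.Y)) := by
    intro i
    refine Fin.lastCases ?_ (fun j => ?_) i
    · rw [hcr]
      exact key c fun _ _ _ _ _ _ _ _ h => h
    · rw [hcl]
      refine key (cf j) fun n p hp hpn l hl hlb hom _ => ?_
      have h1 := efun_hasSum (l := l) hb hab.le hl.le hlb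
        (u := fun ψ => ((five a b j ψ : ℝ) : ℂ))
        (Complex.ofRealCLM.contDiff.comp (contDiff_five hb hab j))
        (fun ψ => by rw [five_per2]) (n : ℤ)
      have hn : 0 < n := by
        rcases Nat.eq_zero_or_pos n with h | h
        · exfalso
          subst h
          have : (0 : ℝ) < p := by exact_mod_cast hp
          simp only [Nat.cast_zero, mul_zero] at hpn
          linarith
        · exact h
      have h2 := five_vanish hb hab hl (by linarith) hp hn hom (k := 1) one_ne_zero j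
      rw [one_mul] at h2
      rw [h2] at h1
      exact h1.tsum_eq
  have hbd : ∀ i, ∃ C, ∀ m, ‖cc i m‖ ≤ C := by
    intro i
    refine Fin.lastCases ?_ (fun j => ?_) i
    · rw [hcr]
      exact hc
    · rw [hcl]
      have hcont := (contDiff_five hb hab j).continuous
      obtain ⟨C, hC⟩ := (isCompact_Icc (a := (0 : ℝ)) (b := 2 * π)).exists_bound_of_continuousOn
        (f := five a b j) hcont.continuousOn
      refine ⟨C, fun m => norm_Efun_le hb hab.le le_rfl hb2 m fun ψ => ?_⟩
      rw [Complex.norm_real]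
      have hper : Function.Periodic (five a b j) (2 * π) := five_per2 j
      obtain ⟨y, hy, hyψ⟩ := hper.exists_mem_Ico₀ Real.two_pi_pos ψ
      rw [hyψ]
      exact hC y ⟨hy.1, hy.2.le⟩
  have hre : ∀ i m, cc i (-m) = starRingEnd ℂ (cc i m) := by
    intro i
    refine Fin.lastCases ?_ (fun j => ?_) i
    · rw [hcr]
      exact hreal
    · rw [hcl]
      exact fun m => Efun_conj a b 0 m (five a b j)
  obtain ⟨t, ht0, ht⟩ := abstract_kernel D hη₂0 cc hbd hre hvan
  have ht' : ∀ m : ℤ, ∑ i : Fin 5, (t i.castSucc : ℂ) * cf i m +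
      (t (Fin.last 5) : ℂ) * c m = 0 := by
    intro m
    have := ht m
    rw [Fin.sum_univ_castSucc, hcr] at this
    simp only [hcl] at this
    exact this
  have ht5 : t (Fin.last 5) ≠ 0 := by
    intro h5
    have h1 : ∀ m : ℤ, Efun a b 0 m
        (fun ψ => ((∑ i : Fin 5, t i.castSucc * five a b i ψ : ℝ) : ℂ)) = 0 := by
      intro m
      rw [Efun_five hb hab (fun i => t i.castSucc)]
      have := ht' m
      rw [h5, Complex.ofReal_zero, zero_mul, add_zero] at this
      exact this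
    have hcont : Continuous fun ψ : ℝ => ((∑ i : Fin 5, t i.castSucc * five a b i ψ : ℝ) : ℂ) := by
      refine Complex.continuous_ofReal.comp (continuous_finsetSum _ fun i _ => ?_)
      exact continuous_const.mul (contDiff_five hb hab i).continuous
    have h2 := eq_zero_of_efun_zero hb hab.le hcont (fun ψ => by simp only [five_per2]) h1
    have h3 := five_linInd hb hab (fun i => t i.castSucc) (fun ψ => by
      have := congrFun h2 ψ
      simp only [Pi.zero_apply] at this
      exact_mod_cast this)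
    apply ht0
    funext i
    refine Fin.lastCases ?_ (fun j => ?_) i
    · exact h5
    · exact congrFun h3 j
  refine ⟨fun i => -(t i.castSucc) / t (Fin.last 5), fun m => ?_⟩
  rw [Efun_five hb hab]
  have h5C : (t (Fin.last 5) : ℂ) ≠ 0 := by exact_mod_cast ht5
  have h1 : ∑ i : Fin 5, ((-(t i.castSucc) / t (Fin.last 5) : ℝ) : ℂ) *
      Efun a b 0 m (fun ψ => ((five a b i ψ : ℝ) : ℂ)) =
      -(∑ i : Fin 5, (t i.castSucc : ℂ) * cf i m) / t (Fin.last 5) := by
    rw [← Finset.sum_neg_distrib, Finset.sum_div]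
    refine Finset.sum_congr rfl fun i _ => ?_
    push_cast
    change _ * cf i m = _
    ring
  rw [h1, eq_div_iff h5C]
  linear_combination ht' m

end LSB
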