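import Pool.Agent.LSB.FPair
import Pool.Agent.LSB.FOm
import Pool.Agent.LSB.TopK

/-!
# Part F, module FLimit: the limit argument (F7, F8)
-/

namespace LSB

open Real Complex MeasureTheory Filter Topology

/-- the sequences of the final argument -/
structure Seq (b₁ a₁ C η : ℝ) (aj bj ηj : ℕ → ℝ) (uj : ℕ → ℝ → ℝ) : Prop where
  box : ∀ j, Box b₁ a₁ (aj j) (bj j)
  cont : ∀ j, Continuous (uj j)
  per : ∀ j ψ, uj j (ψ + 2 * π) = uj j ψ
  summ : ∀ j, Summable (fun m : ℤ => ‖Efun (aj j) (bj j) 0 m (fun ψ => ((uj j ψ : ℝ) : ℂ))‖)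
  pos : ∀ j, 0 < ηj j
  h1 : ∀ j (m : ℤ), (1 + |(m : ℝ)|) *
    ‖Efun (aj j) (bj j) 0 m (fun ψ => ((uj j ψ : ℝ) : ℂ))‖ ≤ C * ηj j
  h2 : ∀ n p : ℕ, 0 < p → (p : ℝ) ≤ η * n → ∃ C', ∀ j l, 0 < l → l ≤ bj j / 2 →
    omE (aj j) (bj j) l = p / n →
      ‖Efun (aj j) (bj j) l n (fun ψ => ((uj j ψ : ℝ) : ℂ))‖ ≤ C' * ηj j ^ (13 / 10 : ℝ)
  h3 : ∀ j (i : Fin 5), ∫ ψ in (0 : ℝ)..(2 * π),
    uj j ψ * (five (aj j) (bj j) i ψ / hE (aj j) (bj j) ψ / hE (aj j) (bj j) ψ) = 0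
  h4 : ∀ j, ∫ ψ in (0 : ℝ)..(2 * π), (uj j ψ / hE (aj j) (bj j) ψ) ^ 2 = ηj j ^ 2

lemma Seq.comp {b₁ a₁ C η : ℝ} {aj bj ηj : ℕ → ℝ} {uj : ℕ → ℝ → ℝ}
    (S : Seq b₁ a₁ C η aj bj ηj uj) (φ : ℕ → ℕ) :
    Seq b₁ a₁ C η (aj ∘ φ) (bj ∘ φ) (ηj ∘ φ) (fun j => uj (φ j)) where
  box j := S.box (φ j)
  cont j := S.cont (φ j)
  per j := S.per (φ j)
  summ j := S.summ (φ j)
  pos j := S.pos (φ j)
  h1 j := S.h1 (φ j)
  h2 n p hp hpn := by
    obtain ⟨C', hC'⟩ := S.h2 n p hp hpn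
    exact ⟨C', fun j => hC' (φ j)⟩
  h3 j := S.h3 (φ j)
  h4 j := S.h4 (φ j)

lemma tendsto_pair {V W : ℕ → ℤ → ℂ} {v w : ℤ → ℂ} {C D : ℝ}
    (hV : ∀ j (m : ℤ), (1 + |(m : ℝ)|) * ‖V j m‖ ≤ C)
    (hW : ∀ j (m : ℤ), (1 + |(m : ℝ)|) * ‖W j m‖ ≤ D)
    (hv : ∀ m, Tendsto (fun j => V j m) atTop (𝓝 (v m)))
    (hw : ∀ m, Tendsto (fun j => W j m) atTop (𝓝 (w m))) :
    Tendsto (fun j => ∑' m, V j m * W j m) atTop (𝓝 (∑' m, v m * w m)) := by
  apply tendsto_tsum_of_dominated_convergence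
    (bound := fun m : ℤ => C * D * (1 / (1 + |(m : ℝ)|) ^ 2))
  · exact summable_inv_sq.mul_left _
  · intro m
    exact (hv m).mul (hw m)
  · apply Eventually.of_forall
    intro j m
    rw [norm_mul, mul_one_div, le_div_iff₀ (by positivity)]
    have e1 := hV j m
    have e2 := hW j m
    have e3 : 0 ≤ (1 + |(m : ℝ)|) * ‖W j m‖ := by positivity
    have e4 : 0 ≤ (1 + |(m : ℝ)|) * ‖V j m‖ := by positivity
    calc ‖V j m‖ * ‖W j m‖ * (1 + |(m : ℝ)|) ^ 2 =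
        ((1 + |(m : ℝ)|) * ‖V j m‖) * ((1 + |(m : ℝ)|) * ‖W j m‖) := by ring
      _ ≤ C * D := mul_le_mul e1 e2 e3 (e4.trans e1)

section

variable {b₁ a₁ C η a b : ℝ} {aj bj ηj : ℕ → ℝ} {uj : ℕ → ℝ → ℝ}

/-- normalised coefficients -/
noncomputable def Vc (aj bj ηj : ℕ → ℝ) (uj : ℕ → ℝ → ℝ) (j : ℕ) (m : ℤ) : ℂ :=
  Efun (aj j) (bj j) 0 m (fun ψ => ((uj j ψ : ℝ) : ℂ)) / ((ηj j : ℝ) : ℂ)

lemma Seq.bV (S : Seq b₁ a₁ C η aj bj ηj uj) (j : ℕ) (m : ℤ) :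
    (1 + |(m : ℝ)|) * ‖Vc aj bj ηj uj j m‖ ≤ C := by
  unfold Vc
  rw [norm_div, Complex.norm_real, Real.norm_eq_abs, abs_of_pos (S.pos j), ← mul_div_assoc,
    div_le_iff₀ (S.pos j)]
  exact S.h1 j m

lemma Seq.bab (S : Seq b₁ a₁ C η aj bj ηj uj) (j : ℕ) : 0 < bj j ∧ bj j ≤ aj j :=
  ⟨(S.box j).pos.trans_le (S.box j).hb, (S.box j).hab.le⟩

lemma Seq.kernel (S : Seq b₁ a₁ C η aj bj ηj uj) (hb : 0 < b)
    (ha : Tendsto aj atTop (𝓝 a)) (hbt : Tendsto bj atTop (𝓝 b))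
    (hη : Tendsto ηj atTop (𝓝 0)) {c : ℤ → ℂ}
    (hc : ∀ m, Tendsto (fun j => Vc aj bj ηj uj j m) atTop (𝓝 (c m))) {η₅ : ℝ}
    (hη₅ : ∀ a b, Box b₁ a₁ a b → ∀ r, 0 < r → r ≤ η₅ → ∃ l, 0 < l ∧ l ≤ b / 2 ∧ omE a b l = r)
    {n p : ℕ} (hp : 0 < p) (hpn : (p : ℝ) ≤ η * n) (hpn5 : (p : ℝ) ≤ η₅ * n) :
    ∃ l, 0 < l ∧ l ≤ b / 2 ∧ omE a b l = p / n ∧ ∑' m : ℤ, c m * chi a b l n m = 0 := by
  have hp' : (0 : ℝ) < p := by exact_mod_cast hp
  have hn : (0 : ℝ) < n := by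
    rcases Nat.eq_zero_or_pos n with h | h
    · subst h
      simp at hpn
      omega
    · exact_mod_cast h
  have hr : (p : ℝ) / n ≤ η₅ := by
    rw [div_le_iff₀ hn]
    exact hpn5
  choose l hl hl2 hom using fun j => hη₅ (aj j) (bj j) (S.box j) (p / n) (by positivity) hr
  have hlmem : ∀ j, l j ∈ Set.Icc (0 : ℝ) a₁ := fun j => ⟨(hl j).le, by
    have := (S.box j).ha
    have := (S.box j).hab
    have := (S.bab j).1
    linarith [hl2 j]⟩
  obtain ⟨l₀, hl₀, θ, hθ, hlθ⟩ := isCompact_Icc.tendsto_subseq hlmem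
  have S' := S.comp θ
  have ha' : Tendsto (aj ∘ θ) atTop (𝓝 a) := ha.comp hθ.tendsto_atTop
  have hb' : Tendsto (bj ∘ θ) atTop (𝓝 b) := hbt.comp hθ.tendsto_atTop
  have hη' : Tendsto (ηj ∘ θ) atTop (𝓝 0) := hη.comp hθ.tendsto_atTop
  have hll : ∀ j, 0 ≤ (l ∘ θ) j ∧ (l ∘ θ) j ≤ (bj ∘ θ) j / 2 := fun j =>
    ⟨(hl _).le, hl2 _⟩
  have hom0 : omE a b l₀ = p / n := by
    have h1 := tendsto_omE S'.bab hll hb ha' hb' hlθ
    have h2 : (fun j => omE ((aj ∘ θ) j) ((bj ∘ θ) j) ((l ∘ θ) j)) = fun _ => (p : ℝ) / n :=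
      funext fun j => hom (θ j)
    rw [h2] at h1
    exact tendsto_nhds_unique h1 tendsto_const_nhds
  have hl0pos : 0 < l₀ := by
    rcases hl₀.1.eq_or_lt with h | h
    · exfalso
      rw [← h, omE_zero] at hom0
      have : (0 : ℝ) < p / n := by positivity
      linarith
    · exact h
  have hl0le : l₀ ≤ b / 2 :=
    le_of_tendsto_of_tendsto' hlθ (hb'.div_const 2) (fun j => (hll j).2)
  refine ⟨l₀, hl0pos, hl0le, hom0, ?_⟩
  obtain ⟨D, hD⟩ := chi_bound (b₁ := b₁) (a₁ := a₁) (n : ℤ)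
  have ht := tendsto_pair (V := Vc (aj ∘ θ) (bj ∘ θ) (ηj ∘ θ) (fun j => uj (θ j)))
    (W := fun j m => chi ((aj ∘ θ) j) ((bj ∘ θ) j) ((l ∘ θ) j) n m)
    (v := c) (w := fun m => chi a b l₀ n m) S'.bV
    (fun j m => hD _ _ (S'.box j) _ (hll j).1 (hll j).2 m)
    (fun m => (hc m).comp hθ.tendsto_atTop)
    (fun m => tendsto_chi S'.bab hll hb ha' hb' hlθ n m)
  obtain ⟨C', hC'⟩ := S'.h2 n p hp hpn
  have hsum : ∀ j, ∑' m, Vc (aj ∘ θ) (bj ∘ θ) (ηj ∘ θ) (fun j => uj (θ j)) j m *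
      chi ((aj ∘ θ) j) ((bj ∘ θ) j) ((l ∘ θ) j) n m =
      Efun ((aj ∘ θ) j) ((bj ∘ θ) j) ((l ∘ θ) j) n (fun ψ => ((uj (θ j) ψ : ℝ) : ℂ)) /
        (((ηj ∘ θ) j : ℝ) : ℂ) := by
    intro j
    have h3 := pairing_chi (S'.bab j).1 (S'.bab j).2 (hll j).1 (hll j).2
      (Complex.continuous_ofReal.comp (S'.cont j))
      (fun ψ => by simp only [Function.comp]; rw [S.per (θ j)]) (S'.summ j) n
    have h4 := (h3.div_const (((ηj ∘ θ) j : ℝ) : ℂ)).tsum_eq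
    simp only [Function.comp_def] at h4 ⊢
    rw [← h4]
    congr 1
    funext m
    simp only [Vc]
    ring
  have hz : Tendsto (fun j => ∑' m, Vc (aj ∘ θ) (bj ∘ θ) (ηj ∘ θ) (fun j => uj (θ j)) j m *
      chi ((aj ∘ θ) j) ((bj ∘ θ) j) ((l ∘ θ) j) n m) atTop (𝓝 0) := by
    simp_rw [hsum]
    apply squeeze_zero_norm (a := fun j => C' * (ηj ∘ θ) j ^ (3 / 10 : ℝ))
    · intro j
      have hpos := S'.pos j
      rw [norm_div, Complex.norm_real, Real.norm_eq_abs, abs_of_pos hpos, div_le_iff₀ hpos]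
      refine (hC' j _ (hl _) (hll j).2 (hom _)).trans (le_of_eq ?_)
      rw [mul_assoc]
      congr 1
      nth_rewrite 3 [← Real.rpow_one ((ηj ∘ θ) j)]
      rw [← Real.rpow_add hpos]
      norm_num
    · have h5 : Tendsto (fun j => (ηj ∘ θ) j ^ (3 / 10 : ℝ)) atTop (𝓝 ((0 : ℝ) ^ (3 / 10 : ℝ))) :=
        (Real.continuousAt_rpow_const 0 _ (Or.inr (by norm_num))).tendsto.comp hη'
      rw [Real.zero_rpow (by norm_num)] at h5
      simpa using h5.const_mul C'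
  exact tendsto_nhds_unique ht hz

lemma tendsto_hE (ha : Tendsto aj atTop (𝓝 a)) (hbt : Tendsto bj atTop (𝓝 b)) (ψ : ℝ) :
    Tendsto (fun j => hE (aj j) (bj j) ψ) atTop (𝓝 (hE a b ψ)) := by
  unfold hE
  exact (((ha.pow 2).mul_const _).add ((hbt.pow 2).mul_const _)).sqrt

lemma tendsto_five (ha : Tendsto aj atTop (𝓝 a)) (hbt : Tendsto bj atTop (𝓝 b)) (k : Fin 5)
    (ψ : ℝ) : Tendsto (fun j => five (aj j) (bj j) k ψ) atTop (𝓝 (five a b k ψ)) := by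
  fin_cases k
  · exact tendsto_const_nhds
  · exact tendsto_const_nhds
  · exact tendsto_const_nhds
  · exact (tendsto_hE ha hbt ψ).mul_const _
  · exact (tendsto_hE ha hbt ψ).mul_const _

lemma Seq.orth (S : Seq b₁ a₁ C η aj bj ηj uj) (hb : 0 < b) (hab : b ≤ a)
    (ha : Tendsto aj atTop (𝓝 a)) (hbt : Tendsto bj atTop (𝓝 b)) {c : ℤ → ℂ}
    (hc : ∀ m, Tendsto (fun j => Vc aj bj ηj uj j m) atTop (𝓝 (c m))) (k : Fin 5) :
    ∑' m : ℤ, c m * Efun a b 0 (-m) (fun ψ => ((five a b k ψ / hE a b ψ : ℝ) : ℂ)) = 0 := by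
  obtain ⟨D, hD⟩ := five_coeff S.box k
  have hub : UB 0 (fun j ψ => five (aj j) (bj j) k ψ / hE (aj j) (bj j) ψ) := by
    have h2 := (UB_hE 0 S.box).inv (S.box 0).pos (fun i ψ =>
      (S.box i).hb.trans (hE_ge (S.bab i).1 (S.bab i).2 ψ))
    have h3 := (UB_five 0 S.box k).mul h2
    simpa only [div_eq_mul_inv] using h3
  obtain ⟨B, hB⟩ := hub.bdd
  have hcont := hub.cont
  have hE0 : ∀ ψ, hE a b ψ ≠ 0 := fun ψ => (hb.trans_le (hE_ge hb hab ψ)).ne'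
  have hW : ∀ m : ℤ, Tendsto (fun j => Efun (aj j) (bj j) 0 (-m)
      (fun ψ => ((five (aj j) (bj j) k ψ / hE (aj j) (bj j) ψ : ℝ) : ℂ))) atTop
      (𝓝 (Efun a b 0 (-m) (fun ψ => ((five a b k ψ / hE a b ψ : ℝ) : ℂ)))) := by
    intro m
    apply tendsto_Efun (lj := fun _ => 0) (l := 0) S.bab
      (fun j => ⟨le_rfl, by have := (S.bab j).1; positivity⟩) hb ha hbt tendsto_const_nhds (-m)
      (C := B)
    · intro j
      exact Complex.continuous_ofReal.comp (hcont j)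
    · intro j ψ
      rw [Complex.norm_real, Real.norm_eq_abs]
      exact hB j ψ
    · intro ψ
      exact (Complex.continuous_ofReal.tendsto _).comp
        ((tendsto_five ha hbt k ψ).div (tendsto_hE ha hbt ψ) (hE0 ψ))
  have ht := tendsto_pair (V := Vc aj bj ηj uj) (v := c) (C := C) (D := D)
    (W := fun j m => Efun (aj j) (bj j) 0 (-m)
      (fun ψ => ((five (aj j) (bj j) k ψ / hE (aj j) (bj j) ψ : ℝ) : ℂ)))
    S.bV (fun j m => by
      have := hD j (-m)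
      simpa using this) hc hW
  have hz : ∀ j, ∑' m, Vc aj bj ηj uj j m * Efun (aj j) (bj j) 0 (-m)
      (fun ψ => ((five (aj j) (bj j) k ψ / hE (aj j) (bj j) ψ : ℝ) : ℂ)) = 0 := by
    intro j
    have h3 := pairing_Efun (S.bab j).1 (S.bab j).2 (S.cont j) (S.per j) (S.summ j) (hcont j)
    rw [S.h3 j k, mul_zero] at h3
    have h4 := (h3.div_const ((ηj j : ℝ) : ℂ)).tsum_eq
    rw [Complex.ofReal_zero, zero_div] at h4
    rw [← h4]
    congr 1
    funext m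
    simp only [Vc]
    ring
  simp_rw [hz] at ht
  exact tendsto_nhds_unique ht tendsto_const_nhds

lemma Seq.parseval (S : Seq b₁ a₁ C η aj bj ηj uj) (j : ℕ) :
    b₁ ^ 2 / (4 * π) ≤ ∑' m, ‖Vc aj bj ηj uj j m * Vc aj bj ηj uj j (-m)‖ := by
  have hb := (S.bab j).1
  have hab := (S.bab j).2
  have hEc := continuous_hE hb hab
  have hE0 : ∀ ψ, hE (aj j) (bj j) ψ ≠ 0 := fun ψ => (hb.trans_le (hE_ge hb hab ψ)).ne'
  have hpos := S.pos j
  have h3 := pairing_Efun hb hab (S.cont j) (S.per j) (S.summ j) (S.cont j)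
  have h4 := (h3.div_const (((ηj j) ^ 2 : ℝ) : ℂ)).tsum_eq
  have h5 : ∀ m, Efun (aj j) (bj j) 0 m (fun ψ => ((uj j ψ : ℝ) : ℂ)) *
      Efun (aj j) (bj j) 0 (-m) (fun ψ => ((uj j ψ : ℝ) : ℂ)) / (((ηj j) ^ 2 : ℝ) : ℂ) =
      Vc aj bj ηj uj j m * Vc aj bj ηj uj j (-m) := by
    intro m
    simp only [Vc]
    push_cast
    have : ((ηj j : ℝ) : ℂ) ≠ 0 := by exact_mod_cast hpos.ne'
    field_simp
  simp_rw [h5] at h4
  have hsumm : Summable (fun m => ‖Vc aj bj ηj uj j m * Vc aj bj ηj uj j (-m)‖) := by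
    refine Summable.of_nonneg_of_le (fun m => norm_nonneg _) (fun m => ?_)
      (summable_inv_sq.mul_left (C * C))
    have e1 := S.bV j m
    have e2 := S.bV j (-m)
    push_cast at e2
    rw [abs_neg] at e2
    rw [norm_mul, mul_one_div, le_div_iff₀ (by positivity)]
    calc _ = ((1 + |(m : ℝ)|) * ‖Vc aj bj ηj uj j m‖) *
          ((1 + |(m : ℝ)|) * ‖Vc aj bj ηj uj j (-m)‖) := by ring
      _ ≤ C * C := mul_le_mul e1 e2 (by positivity) (le_trans (by positivity) e1)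
  have h6 := norm_tsum_le_tsum_norm hsumm
  rw [h4] at h6
  refine le_trans ?_ h6
  rw [norm_div, Complex.norm_real, Complex.norm_real, Real.norm_eq_abs, Real.norm_eq_abs,
    abs_of_pos (pow_pos hpos 2), le_div_iff₀ (pow_pos hpos 2)]
  refine le_trans ?_ (le_abs_self _)
  have h7 : b₁ * ηj j ^ 2 ≤ ∫ ψ in (0 : ℝ)..(2 * π), uj j ψ * (uj j ψ / hE (aj j) (bj j) ψ) := by
    rw [← S.h4 j, ← intervalIntegral.integral_const_mul]
    apply intervalIntegral.integral_mono_on (by positivity)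
    · exact (continuous_const.mul (((S.cont j).div hEc hE0).pow 2)).intervalIntegrable _ _
    · exact ((S.cont j).mul ((S.cont j).div hEc hE0)).intervalIntegrable _ _
    · intro ψ _
      have e1 := hE_ge hb hab ψ
      have e2 : 0 < hE (aj j) (bj j) ψ := hb.trans_le e1
      have e3 : uj j ψ * (uj j ψ / hE (aj j) (bj j) ψ) =
          hE (aj j) (bj j) ψ * (uj j ψ / hE (aj j) (bj j) ψ) ^ 2 := by
        field_simp
      rw [e3]
      exact mul_le_mul_of_nonneg_right ((S.box j).hb.trans e1) (sq_nonneg _)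
  have h8 : b₁ / (4 * π) ≤ cE (aj j) (bj j) 0 / (2 * π) := by
    have e1 := cE_ge hb hab le_rfl (by positivity : (0 : ℝ) ≤ bj j / 2)
    rw [div_le_div_iff₀ (by positivity) (by positivity)]
    have := (S.box j).hb
    nlinarith [Real.pi_pos]
  have hb₁ := (S.box j).pos
  calc b₁ ^ 2 / (4 * π) * ηj j ^ 2 = b₁ / (4 * π) * (b₁ * ηj j ^ 2) := by ring
    _ ≤ cE (aj j) (bj j) 0 / (2 * π) *
        ∫ ψ in (0 : ℝ)..(2 * π), uj j ψ * (uj j ψ / hE (aj j) (bj j) ψ) :=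
        mul_le_mul h8 h7 (by positivity) (le_trans (by positivity) h8)

lemma Seq.lower (S : Seq b₁ a₁ C η aj bj ηj uj) {c : ℤ → ℂ}
    (hc : ∀ m, Tendsto (fun j => Vc aj bj ηj uj j m) atTop (𝓝 (c m))) :
    ∃ m, c m ≠ 0 := by
  by_contra hcon
  push Not at hcon
  have ht : Tendsto (fun j => ∑' m, ‖Vc aj bj ηj uj j m * Vc aj bj ηj uj j (-m)‖) atTop
      (𝓝 (∑' m : ℤ, (0 : ℝ))) := by
    apply tendsto_tsum_of_dominated_convergence
      (bound := fun m : ℤ => C * C * (1 / (1 + |(m : ℝ)|) ^ 2))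
    · exact summable_inv_sq.mul_left _
    · intro m
      have := ((hc m).mul (hc (-m))).norm
      rw [hcon m, zero_mul, norm_zero] at this
      exact this
    · apply Eventually.of_forall
      intro j m
      have e1 := S.bV j m
      have e2 := S.bV j (-m)
      push_cast at e2
      rw [abs_neg] at e2
      rw [norm_norm, norm_mul, mul_one_div, le_div_iff₀ (by positivity)]
      calc _ = ((1 + |(m : ℝ)|) * ‖Vc aj bj ηj uj j m‖) *
            ((1 + |(m : ℝ)|) * ‖Vc aj bj ηj uj j (-m)‖) := by ring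
        _ ≤ C * C := mul_le_mul e1 e2 (by positivity) (le_trans (by positivity) e1)
  rw [tsum_zero] at ht
  have h1 := ge_of_tendsto' ht (fun j => S.parseval j)
  have hb₁ := (S.box 0).pos
  have : 0 < b₁ ^ 2 / (4 * π) := by positivity
  linarith

lemma Seq.absurd_of_tendsto (S : Seq b₁ a₁ C η aj bj ηj uj) (hb : 0 < b) (hab : b < a)
    (ha : Tendsto aj atTop (𝓝 a)) (hbt : Tendsto bj atTop (𝓝 b))
    (hη : Tendsto ηj atTop (𝓝 0)) (hη0 : 0 < η) {c : ℤ → ℂ}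
    (hc : ∀ m, Tendsto (fun j => Vc aj bj ηj uj j m) atTop (𝓝 (c m))) : False := by
  have hb₁ := (S.box 0).pos
  obtain ⟨η₅, hη₅, hex⟩ := exists_omE_eq (b₁ := b₁) (a₁ := a₁) hb₁
  have hcb : ∀ m : ℤ, (1 + |(m : ℝ)|) * ‖c m‖ ≤ C := by
    intro m
    have h1 : Tendsto (fun j => (1 + |(m : ℝ)|) * ‖Vc aj bj ηj uj j m‖) atTop
      (𝓝 ((1 + |(m : ℝ)|) * ‖c m‖)) := ((hc m).norm).const_mul _
    exact le_of_tendsto' h1 (fun j => S.bV j m)
  have hreal : ∀ m, c (-m) = starRingEnd ℂ (c m) := by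
    intro m
    have h1 : Tendsto (fun j => starRingEnd ℂ (Vc aj bj ηj uj j m)) atTop
        (𝓝 (starRingEnd ℂ (c m))) := (Complex.continuous_conj.tendsto _).comp (hc m)
    have h2 : (fun j => starRingEnd ℂ (Vc aj bj ηj uj j m)) =
        fun j => Vc aj bj ηj uj j (-m) := by
      funext j
      simp only [Vc]
      rw [map_div₀, Complex.conj_ofReal, Efun_conj]
    rw [h2] at h1
    exact tendsto_nhds_unique (hc (-m)) h1
  obtain ⟨t, ht⟩ := kernel_eq_five hb hab (η := min η η₅) (lt_min hη0 hη₅) c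
    ⟨C, fun m => by
      have := hcb m
      nlinarith [abs_nonneg (m : ℝ), norm_nonneg (c m)]⟩ hreal
    (fun n p hp hpn => S.kernel hb ha hbt hη hc hex hp
      (hpn.trans (mul_le_mul_of_nonneg_right (min_le_left _ _) (Nat.cast_nonneg n)))
      (hpn.trans (mul_le_mul_of_nonneg_right (min_le_right _ _) (Nat.cast_nonneg n))))
  -- the limit function
  set F : ℝ → ℝ := fun ψ => ∑ i, t i * five a b i ψ with hF
  have hbox : ∀ _ : Unit, Box b a a b := fun _ => ⟨hb, le_rfl, hab, le_rfl⟩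
  have hUB : ∀ N, UB N (fun _ : Unit => F) := by
    intro N
    have h1 : ∀ i, UB N (fun _ : Unit => fun ψ => t i * five a b i ψ) := fun i =>
      (UB_five N hbox i).const_mul (c := fun _ => t i) ⟨|t i|, fun _ => le_rfl⟩
    have h2 : (fun _ : Unit => F) = fun _ : Unit => fun ψ => t 0 * five a b 0 ψ +
        t 1 * five a b 1 ψ + t 2 * five a b 2 ψ + t 3 * five a b 3 ψ + t 4 * five a b 4 ψ := by
      funext _ ψ
      simp only [hF]
      rw [Fin.sum_univ_five]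
    rw [h2]
    exact ((((h1 0).add (h1 1)).add (h1 2)).add (h1 3)).add (h1 4)
  have hFc : Continuous F := (hUB 0).cont ()
  have hFp : ∀ ψ, F (ψ + 2 * π) = F ψ := by
    intro ψ
    simp only [hF]
    apply Finset.sum_congr rfl
    intro i _
    rw [five_periodic]
  have hEc := continuous_hE hb hab.le
  have hE0 : ∀ ψ, hE a b ψ ≠ 0 := fun ψ => (hb.trans_le (hE_ge hb hab.le ψ)).ne'
  have hsF : Summable (fun m : ℤ => ‖Efun a b 0 m (fun ψ => ((F ψ : ℝ) : ℂ))‖) := by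
    obtain ⟨D₀, hD₀⟩ := Efun_decay hbox 0 (hUB 0) (fun _ => hFp)
    obtain ⟨D₂, hD₂⟩ := Efun_decay hbox 2 (hUB 2) (fun _ => hFp)
    refine Summable.of_nonneg_of_le (fun m => norm_nonneg _) (fun m => ?_)
      (summable_inv_sq.mul_left (2 * (D₀ + D₂)))
    have e1 := hD₀ () m
    have e2 := hD₂ () m
    rw [pow_zero, one_mul] at e1
    rw [mul_one_div, le_div_iff₀ (by positivity)]
    set X := ‖Efun a b 0 m (fun ψ => ((F ψ : ℝ) : ℂ))‖ with hX
    have hX0 : 0 ≤ X := norm_nonneg _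
    have e3 : (1 + |(m : ℝ)|) ^ 2 ≤ 2 * (1 + |(m : ℝ)| ^ 2) := by
      nlinarith [sq_nonneg (1 - |(m : ℝ)|)]
    calc X * (1 + |(m : ℝ)|) ^ 2 ≤ X * (2 * (1 + |(m : ℝ)| ^ 2)) :=
          mul_le_mul_of_nonneg_left e3 hX0
      _ = 2 * (X + |(m : ℝ)| ^ 2 * X) := by ring
      _ ≤ 2 * (D₀ + D₂) := by
          apply mul_le_mul_of_nonneg_left _ (by norm_num)
          exact add_le_add e1 e2
  have hcF : ∀ m, c m = Efun a b 0 m (fun ψ => ((F ψ : ℝ) : ℂ)) := ht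
  -- orthogonality
  have horth : ∀ k : Fin 5, ∫ ψ in (0 : ℝ)..(2 * π), F ψ * (five a b k ψ / hE a b ψ / hE a b ψ) = 0 := by
    intro k
    have h1 := S.orth hb hab.le ha hbt hc k
    have hfc : Continuous (five a b k) := (UB_five 0 hbox k).cont ()
    have h2 := (pairing_Efun hb hab.le hFc hFp hsF (hfc.div hEc hE0)).tsum_eq
    simp_rw [hcF] at h1
    simp only [Pi.div_apply] at h2
    rw [h1] at h2
    have h3 : cE a b 0 / (2 * π) *
        ∫ ψ in (0 : ℝ)..(2 * π), F ψ * (five a b k ψ / hE a b ψ / hE a b ψ) = 0 := by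
      have := h2.symm
      exact_mod_cast this
    have h4 : 0 < cE a b 0 / (2 * π) := by
      have := cE_ge hb hab.le le_rfl (by positivity : (0 : ℝ) ≤ b / 2)
      have : 0 < cE a b 0 := lt_of_lt_of_le (by positivity) this
      positivity
    rcases mul_eq_zero.1 h3 with h5 | h5
    · exact absurd h5 h4.ne'
    · exact h5
  have hFF : ∫ ψ in (0 : ℝ)..(2 * π), (F ψ / hE a b ψ) ^ 2 = 0 := by
    have h1 : ∀ ψ, (F ψ / hE a b ψ) ^ 2 =
        ∑ k : Fin 5, t k * (F ψ * (five a b k ψ / hE a b ψ / hE a b ψ)) := by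
      intro ψ
      have : (F ψ / hE a b ψ) ^ 2 = F ψ * (F ψ) / hE a b ψ / hE a b ψ := by
        field_simp
      rw [this]
      nth_rewrite 2 [hF]
      simp only
      rw [Finset.mul_sum, Finset.sum_div, Finset.sum_div]
      apply Finset.sum_congr rfl
      intro k _
      ring
    simp_rw [h1]
    rw [intervalIntegral.integral_finset_sum]
    · apply Finset.sum_eq_zero
      intro k _
      rw [intervalIntegral.integral_const_mul, horth k, mul_zero]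
    · intro k _
      have hfc : Continuous (five a b k) := (UB_five 0 hbox k).cont ()
      exact (continuous_const.mul
        (hFc.mul ((hfc.div hEc hE0).div hEc hE0))).intervalIntegrable _ _
  have hF0 : ∀ ψ ∈ Set.Icc (0 : ℝ) (2 * π), F ψ = 0 := by
    have hcont : Continuous (fun ψ => (F ψ / hE a b ψ) ^ 2) := (hFc.div hEc hE0).pow 2
    have hpi : (0 : ℝ) < 2 * π := by positivity
    by_contra hcon
    push Not at hcon
    obtain ⟨ψ, hψ, hne⟩ := hcon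
    have h1 : 0 < ∫ ψ in (0 : ℝ)..(2 * π), (F ψ / hE a b ψ) ^ 2 := by
      apply intervalIntegral.integral_pos hpi hcont.continuousOn
      · intro x _
        positivity
      · refine ⟨ψ, hψ, ?_⟩
        have : F ψ / hE a b ψ ≠ 0 := div_ne_zero hne (hE0 ψ)
        positivity
    linarith
  obtain ⟨m, hm⟩ := S.lower hc
  apply hm
  rw [hcF m]
  unfold Efun
  have : ∫ ψ in (0 : ℝ)..(2 * π), ((F ψ : ℝ) : ℂ) * (cE a b 0 * wE a b 0 ψ : ℝ) *
      Complex.exp (-(m * BE a b 0 ψ : ℝ) * I) = 0 := by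
    rw [intervalIntegral.integral_congr (g := fun _ => (0 : ℂ))]
    · simp
    · intro ψ hψ
      rw [Set.uIcc_of_le (by positivity)] at hψ
      simp only
      rw [hF0 ψ hψ]
      simp
  rw [this, mul_zero]

theorem Seq.absurd (S : Seq b₁ a₁ C η aj bj ηj uj) (hb : 0 < b) (hab : b < a)
    (ha : Tendsto aj atTop (𝓝 a)) (hbt : Tendsto bj atTop (𝓝 b))
    (hη : Tendsto ηj atTop (𝓝 0)) (hη0 : 0 < η) : False := by
  have hmem : ∀ j, Vc aj bj ηj uj j ∈ Set.univ.pi (fun _ : ℤ => Metric.closedBall (0 : ℂ) C) := by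
    intro j m _
    rw [mem_closedBall_zero_iff]
    have := S.bV j m
    nlinarith [abs_nonneg (m : ℝ), norm_nonneg (Vc aj bj ηj uj j m)]
  have hcomp : IsCompact (Set.univ.pi (fun _ : ℤ => Metric.closedBall (0 : ℂ) C)) :=
    isCompact_univ_pi (fun _ => isCompact_closedBall _ _)
  obtain ⟨c, -, φ, hφ, hc⟩ := hcomp.tendsto_subseq hmem
  have hc' : ∀ m, Tendsto (fun j => Vc (aj ∘ φ) (bj ∘ φ) (ηj ∘ φ) (fun j => uj (φ j)) j m)
      atTop (𝓝 (c m)) := fun m => (tendsto_pi_nhds.1 hc m)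
  exact (S.comp φ).absurd_of_tendsto hb hab (ha.comp hφ.tendsto_atTop)
    (hbt.comp hφ.tendsto_atTop) (hη.comp hφ.tendsto_atTop) hη0 hc'

end

end LSB
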