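import Pool.Agent.LSB.FDefs

/-!
# Part F, module FRigid: rigid motions

`h̃ ψ = h(ψ+τ) - v cos(ψ+τ) - w sin(ψ+τ)`.  `h̃+h̃'' = (h+h'')(ψ+τ)`.  With
`P̃ φ = P(φ+τ) - v cos(φ+τ) - w sin(φ+τ)` and `f̃ x = f(x+τ) - τ`: for `g(ψ)=v cos ψ+w sin ψ`,
`lineIn g x y = g x`, `lineOut g x y = g y`, and `lineIn`, `lineOut` are linear in `h` (for differentiable `h`) and
equivariant under shifts; `f̃^[n] x = f^[n](x+τ) - τ`.
-/

namespace LSB

open Real Complex MeasureTheory Filter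

/-- The rigidly moved support function. -/
noncomputable def moved (h : ℝ → ℝ) (τ v w ψ : ℝ) : ℝ :=
  h (ψ + τ) - v * Real.cos (ψ + τ) - w * Real.sin (ψ + τ)

lemma frg_deriv {h : ℝ → ℝ} (hh : Differentiable ℝ h) (τ v w ψ : ℝ) :
    HasDerivAt (moved h τ v w)
      (deriv h (ψ + τ) + v * Real.sin (ψ + τ) - w * Real.cos (ψ + τ)) ψ := by
  have h1 : HasDerivAt (fun ψ : ℝ => h (ψ + τ)) (deriv h (ψ + τ)) ψ :=
    (hh (ψ + τ)).hasDerivAt.comp_add_const ψ τ
  have h2 : HasDerivAt (fun ψ : ℝ => Real.cos (ψ + τ)) (-Real.sin (ψ + τ)) ψ :=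
    (Real.hasDerivAt_cos (ψ + τ)).comp_add_const ψ τ
  have h3 : HasDerivAt (fun ψ : ℝ => Real.sin (ψ + τ)) (Real.cos (ψ + τ)) ψ :=
    (Real.hasDerivAt_sin (ψ + τ)).comp_add_const ψ τ
  have h4 := (h1.sub (h2.const_mul v)).sub (h3.const_mul w)
  have e : deriv h (ψ + τ) + v * Real.sin (ψ + τ) - w * Real.cos (ψ + τ) =
      deriv h (ψ + τ) - v * -Real.sin (ψ + τ) - w * Real.cos (ψ + τ) := by ring
  rw [e]
  exact h4

lemma frg_deriv_eq {h : ℝ → ℝ} (hh : Differentiable ℝ h) (τ v w : ℝ) :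
    deriv (moved h τ v w) =
      fun ψ => deriv h (ψ + τ) + v * Real.sin (ψ + τ) - w * Real.cos (ψ + τ) :=
  funext fun ψ => (frg_deriv hh τ v w ψ).deriv

lemma frg_deriv2 {h : ℝ → ℝ} (hh : ContDiff ℝ 2 h) (τ v w ψ : ℝ) :
    deriv (deriv (moved h τ v w)) ψ =
      deriv (deriv h) (ψ + τ) + v * Real.cos (ψ + τ) + w * Real.sin (ψ + τ) := by
  have hd : Differentiable ℝ h := hh.differentiable (by norm_num)
  have hh2 : ContDiff ℝ (1 + 1) h := by
    rw [one_add_one_eq_two]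
    exact hh
  have hd1 : Differentiable ℝ (deriv h) :=
    ((contDiff_succ_iff_deriv (n := 1)).1 hh2).2.2.differentiable (by norm_num)
  rw [frg_deriv_eq hd]
  have h1 : HasDerivAt (fun ψ : ℝ => deriv h (ψ + τ)) (deriv (deriv h) (ψ + τ)) ψ :=
    (hd1 (ψ + τ)).hasDerivAt.comp_add_const ψ τ
  have h2 : HasDerivAt (fun ψ : ℝ => Real.cos (ψ + τ)) (-Real.sin (ψ + τ)) ψ :=
    (Real.hasDerivAt_cos (ψ + τ)).comp_add_const ψ τ
  have h3 : HasDerivAt (fun ψ : ℝ => Real.sin (ψ + τ)) (Real.cos (ψ + τ)) ψ :=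
    (Real.hasDerivAt_sin (ψ + τ)).comp_add_const ψ τ
  have h4 := ((h1.add (h3.const_mul v)).sub (h2.const_mul w)).deriv
  refine Eq.trans ?_ (h4.trans ?_)
  · rfl
  · ring

theorem moved_contDiff {h : ℝ → ℝ} {n : ℕ} (hh : ContDiff ℝ n h) (τ v w : ℝ) :
    ContDiff ℝ n (moved h τ v w) := by
  have h0 : ContDiff ℝ n fun ψ : ℝ => ψ + τ := contDiff_id.add contDiff_const
  exact ((hh.comp h0).sub (contDiff_const.mul (Real.contDiff_cos.comp h0))).sub
    (contDiff_const.mul (Real.contDiff_sin.comp h0))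

lemma frg_periodic {h : ℝ → ℝ} (hp : ∀ ψ, h (ψ + 2 * π) = h ψ) (τ v w ψ : ℝ) :
    moved h τ v w (ψ + 2 * π) = moved h τ v w ψ := by
  have e : ψ + 2 * π + τ = ψ + τ + 2 * π := by ring
  rw [moved, moved, e, hp, Real.cos_add_two_pi, Real.sin_add_two_pi]

theorem moved_supp {h : ℝ → ℝ} (hh : IsSupp h) (τ v w : ℝ) : IsSupp (moved h τ v w) := by
  refine ⟨?_, frg_periodic hh.periodic τ v w, ?_⟩
  · exact moved_contDiff (n := 2) hh.smooth τ v w
  · intro ψ
    rw [frg_deriv2 hh.smooth]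
    have := hh.pos (ψ + τ)
    rw [moved]
    linarith

lemma frg_lineIn {h : ℝ → ℝ} (hh : Differentiable ℝ h) (τ v w x y : ℝ) :
    lineIn (moved h τ v w) x (y - τ) =
      lineIn h (x + τ) y - v * Real.cos (x + τ) - w * Real.sin (x + τ) := by
  have e1 : (x + (y - τ)) / 2 + τ = (x + τ + y) / 2 := by ring
  have e2 : (y - τ - x) / 2 = (y - (x + τ)) / 2 := by ring
  have e3 : x + τ = (x + τ + y) / 2 - (y - (x + τ)) / 2 := by ring
  rw [lineIn, lineIn, (frg_deriv hh τ v w _).deriv, moved, e1, e2]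
  conv_rhs => rw [show Real.cos (x + τ) = Real.cos ((x + τ + y) / 2 - (y - (x + τ)) / 2) by
    rw [← e3], show Real.sin (x + τ) = Real.sin ((x + τ + y) / 2 - (y - (x + τ)) / 2) by
    rw [← e3], Real.cos_sub, Real.sin_sub]
  ring

lemma frg_lineOut {h : ℝ → ℝ} (hh : Differentiable ℝ h) (τ v w x y : ℝ) :
    lineOut (moved h τ v w) x (y - τ) =
      lineOut h (x + τ) y - v * Real.cos y - w * Real.sin y := by
  have e1 : (x + (y - τ)) / 2 + τ = (x + τ + y) / 2 := by ring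
  have e2 : (y - τ - x) / 2 = (y - (x + τ)) / 2 := by ring
  have e3 : y = (x + τ + y) / 2 + (y - (x + τ)) / 2 := by ring
  rw [lineOut, lineOut, (frg_deriv hh τ v w _).deriv, moved, e1, e2]
  conv_rhs => rw [show Real.cos y = Real.cos ((x + τ + y) / 2 + (y - (x + τ)) / 2) by
    rw [← e3], show Real.sin y = Real.sin ((x + τ + y) / 2 + (y - (x + τ)) / 2) by
    rw [← e3], Real.cos_add, Real.sin_add]
  ring

lemma frg_iter (f : ℝ → ℝ) (τ : ℝ) (n : ℕ) (x : ℝ) :
    (fun x => f (x + τ) - τ)^[n] x = f^[n] (x + τ) - τ := by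
  induction n generalizing x with
  | zero => simp
  | succ n ih =>
    rw [Function.iterate_succ_apply, ih, Function.iterate_succ_apply]
    congr 2
    ring

theorem moved_caustic {h P f : ℝ → ℝ} {p q : ℕ} (hh : IsSupp h) (hP : PCaustic h P f p q)
    (τ v w : ℝ) : ∃ P' f', PCaustic (moved h τ v w) P' f' p q := by
  have hd : Differentiable ℝ h := hh.smooth.differentiable (by norm_num)
  refine ⟨moved P τ v w, fun x => f (x + τ) - τ, ?_, ?_, ?_, ?_, ?_, ?_, ?_⟩
  · have h0 : Continuous fun ψ : ℝ => ψ + τ := continuous_id.add continuous_const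
    exact ((hP.cont.comp h0).sub (continuous_const.mul (Real.continuous_cos.comp h0))).sub
      (continuous_const.mul (Real.continuous_sin.comp h0))
  · exact frg_periodic hP.periodic τ v w
  · intro x
    have := hP.lt_map (x + τ)
    linarith
  · intro x
    have := hP.map_lt (x + τ)
    linarith
  · intro x
    show lineIn (moved h τ v w) x (f (x + τ) - τ) = _
    rw [frg_lineIn hd, hP.lineIn_eq, moved]
  · intro x
    show lineOut (moved h τ v w) x (f (x + τ) - τ) = moved P τ v w (f (x + τ) - τ)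
    rw [frg_lineOut hd, hP.lineOut_eq, moved, sub_add_cancel]
  · intro x
    rw [frg_iter, hP.iter]
    ring

theorem moved_bound {h : ℝ → ℝ} {n : ℕ} {K : ℝ} (hh : ContDiff ℝ n h)
    (hK : ∀ k ≤ n, ∀ ψ, |iteratedDeriv k h ψ| ≤ K) (τ v w : ℝ) :
    ∀ k ≤ n, ∀ ψ, |iteratedDeriv k (moved h τ v w) ψ| ≤ K + |v| + |w| := by
  intro k hk ψ
  have e1 : iteratedDeriv k (moved h τ v w) ψ =
      iteratedDeriv k (fun y => (h y - v * Real.cos y) - w * Real.sin y) (ψ + τ) :=
    congrFun (iteratedDeriv_comp_add_const k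
      (fun y => (h y - v * Real.cos y) - w * Real.sin y) τ) ψ
  have hk' : (k : WithTop ℕ∞) ≤ n := by exact_mod_cast hk
  have hc : ContDiffAt ℝ k (fun y => v * Real.cos y) (ψ + τ) :=
    (contDiff_const.mul Real.contDiff_cos).contDiffAt
  have hs : ContDiffAt ℝ k (fun y => w * Real.sin y) (ψ + τ) :=
    (contDiff_const.mul Real.contDiff_sin).contDiffAt
  have hh' : ContDiffAt ℝ k h (ψ + τ) := (hh.of_le hk').contDiffAt
  rw [e1, iteratedDeriv_fun_sub (hh'.sub hc) hs, iteratedDeriv_fun_sub hh' hc,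
    iteratedDeriv_const_mul_field, iteratedDeriv_const_mul_field]
  have h1 := hK k hk (ψ + τ)
  have h2 := Real.abs_iteratedDeriv_cos_le_one k (ψ + τ)
  have h3 := Real.abs_iteratedDeriv_sin_le_one k (ψ + τ)
  calc |iteratedDeriv k h (ψ + τ) - v * iteratedDeriv k Real.cos (ψ + τ) -
        w * iteratedDeriv k Real.sin (ψ + τ)|
      ≤ |iteratedDeriv k h (ψ + τ)| + |v * iteratedDeriv k Real.cos (ψ + τ)| +
        |w * iteratedDeriv k Real.sin (ψ + τ)| :=
        (abs_sub _ _).trans (add_le_add_left (abs_sub _ _) _)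
    _ ≤ K + |v| + |w| := by
        rw [abs_mul, abs_mul]
        have h4 := mul_le_mul_of_nonneg_left h2 (abs_nonneg v)
        have h5 := mul_le_mul_of_nonneg_left h3 (abs_nonneg w)
        rw [mul_one] at h4 h5
        linarith

end LSB
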