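import Pool.Agent.LSB.FInterp
import Pool.Agent.LSB.FIbp
import Pool.Agent.LSB.FExp

/-!
# Part F, module FSup: sup bounds of the deviation by interpolation
-/

namespace LSB

open Real Complex MeasureTheory Filter

variable {b₁ a₁ K : ℝ} {q₀ : ℕ}

lemma dev_periodic {a b : ℝ} {h : ℝ → ℝ} (hh : ∀ ψ, h (ψ + 2 * π) = h ψ) (ψ : ℝ) :
    dev a b h (ψ + 2 * π) = dev a b h ψ := by
  unfold dev
  rw [hh, hE_add_two_pi]

lemma Adm.contDiff_dev {a b : ℝ} {h : ℝ → ℝ} (H : Adm b₁ a₁ K q₀ a b h) :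
    ContDiff ℝ 30 (dev a b h) := by
  have hb : 0 < b := H.box.pos.trans_le H.box.hb
  have h1 : ContDiff ℝ 30 (hE a b) := contDiff_hE hb H.box.hab.le ENat.LEInfty.out
  exact h1.mul (H.smooth.sub h1)

lemma Adm.continuous_dev {a b : ℝ} {h : ℝ → ℝ} (H : Adm b₁ a₁ K q₀ a b h) :
    Continuous (dev a b h) := H.contDiff_dev.continuous

/-- the index type of admissible data -/
def AdmIdx (b₁ a₁ K : ℝ) (q₀ : ℕ) : Type :=
  {x : ℝ × ℝ × (ℝ → ℝ) // Adm b₁ a₁ K q₀ x.1 x.2.1 x.2.2}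

lemma UB_dev : UB 30 (fun i : AdmIdx b₁ a₁ K q₀ => dev i.1.1 i.1.2.1 i.1.2.2) := by
  have h1 : UB 30 (fun i : AdmIdx b₁ a₁ K q₀ => hE i.1.1 i.1.2.1) :=
    UB_hE 30 (fun i => i.2.box)
  have h2 : UB 30 (fun i : AdmIdx b₁ a₁ K q₀ => i.1.2.2) :=
    UB_of_iteratedDeriv (fun i => i.2.smooth) (fun i => i.2.bound)
  exact h1.mul (h2.sub h1)

/-- decay of the coefficients of the deviation -/
theorem dev_decay : ∃ C, ∀ a b h, Adm b₁ a₁ K q₀ a b h → ∀ m : ℤ,
    |(m : ℝ)| ^ 30 * ‖Efun a b 0 m (fun ψ => ((dev a b h ψ : ℝ) : ℂ))‖ ≤ C := by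
  obtain ⟨C, hC⟩ := Efun_decay (ι := AdmIdx b₁ a₁ K q₀) (b₁ := b₁) (a₁ := a₁)
    (a := fun i => i.1.1) (b := fun i => i.1.2.1) (fun i => i.2.box) 30 UB_dev
    (fun i ψ => dev_periodic i.2.supp.periodic ψ)
  exact ⟨C, fun a b h H m => hC ⟨(a, b, h), H⟩ m⟩

/-- `L²` bound of the coefficients -/
theorem norm_Efun_le_L2 : ∃ C > 0, ∀ a b, Box b₁ a₁ a b → ∀ l, 0 ≤ l → l ≤ b / 2 →
    ∀ (m : ℤ) (u : ℝ → ℝ), Continuous u →
    ‖Efun a b l m (fun ψ => ((u ψ : ℝ) : ℂ))‖ ≤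
      C * √(∫ ψ in (0 : ℝ)..(2 * π), u ψ ^ 2) := by
  refine ⟨(|a₁| * (2 / |b₁|) + 1) * √(2 * π), by positivity, ?_⟩
  intro a b H l hl hl2 m u hu
  have hb : 0 < b := H.pos.trans_le H.hb
  have ha : 0 < a := hb.trans H.hab
  have hpi : (0 : ℝ) < 2 * π := by positivity
  have h1 : ∀ ψ, ‖(u ψ : ℂ) * (cE a b l * wE a b l ψ : ℝ) *
      Complex.exp (-(m * BE a b l ψ : ℝ) * I)‖ ≤ (|a₁| * (2 / |b₁|)) * |u ψ| := by
    intro ψ
    have e1 : ‖Complex.exp (-(m * BE a b l ψ : ℝ) * I)‖ = 1 := by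
      rw [show (-(m * BE a b l ψ : ℝ) : ℂ) * I = ((-(m * BE a b l ψ) : ℝ) : ℂ) * I by push_cast; ring]
      exact Complex.norm_exp_ofReal_mul_I _
    rw [norm_mul, norm_mul, e1, mul_one, Complex.norm_real, Complex.norm_real, Real.norm_eq_abs,
      Real.norm_eq_abs, mul_comm]
    apply mul_le_mul_of_nonneg_right _ (abs_nonneg _)
    have e2 := cE_le hb H.hab.le hl hl2
    have e3 := cE_ge hb H.hab.le hl hl2
    have e4 := wE_le hb H.hab.le hl hl2 ψ
    have e5 := wE_ge hb H.hab.le hl hl2 ψ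
    have e6 : 0 < wE a b l ψ := lt_of_lt_of_le (by positivity) e5
    have e7 : 0 < cE a b l := lt_of_lt_of_le (by positivity) e3
    rw [abs_of_pos (mul_pos e7 e6)]
    apply mul_le_mul _ _ e6.le (abs_nonneg _)
    · exact e2.trans (H.ha.trans (le_abs_self _))
    · refine e4.trans ?_
      rw [abs_of_pos H.pos]
      exact div_le_div_of_nonneg_left (by norm_num) H.pos H.hb
  have h2 : ‖∫ ψ in (0 : ℝ)..(2 * π), (u ψ : ℂ) * (cE a b l * wE a b l ψ : ℝ) *
      Complex.exp (-(m * BE a b l ψ : ℝ) * I)‖ ≤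
      ∫ ψ in (0 : ℝ)..(2 * π), (|a₁| * (2 / |b₁|)) * |u ψ| := by
    apply intervalIntegral.norm_integral_le_of_norm_le hpi.le
    · exact Filter.Eventually.of_forall (fun ψ _ => h1 ψ)
    · exact (continuous_const.mul hu.abs).intervalIntegrable _ _
  rw [intervalIntegral.integral_const_mul] at h2
  have h3 := cs_interval hu
  unfold Efun
  rw [norm_mul]
  have h4 : ‖(1 / (2 * π) : ℂ)‖ ≤ 1 := by
    have : (1 / (2 * π) : ℂ) = ((1 / (2 * π) : ℝ) : ℂ) := by push_cast; rfl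
    rw [this, Complex.norm_real, Real.norm_eq_abs, abs_of_pos (by positivity)]
    rw [div_le_one hpi]
    linarith [Real.pi_gt_three]
  have h5 : 0 ≤ |a₁| * (2 / |b₁|) := by positivity
  calc _ ≤ 1 * ((|a₁| * (2 / |b₁|)) * ∫ ψ in (0 : ℝ)..(2 * π), |u ψ|) :=
        mul_le_mul h4 h2 (norm_nonneg _) (by norm_num)
    _ ≤ 1 * ((|a₁| * (2 / |b₁|)) * (√(2 * π) * √(∫ ψ in (0 : ℝ)..(2 * π), u ψ ^ 2))) := by
        rw [one_mul, one_mul]
        exact mul_le_mul_of_nonneg_left h3 h5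
    _ ≤ _ := by
        have : 0 ≤ √(2 * π) * √(∫ ψ in (0 : ℝ)..(2 * π), u ψ ^ 2) := by positivity
        nlinarith

/-- `∫ dev² ≤ a² η²` -/
lemma dev_L2 {a b : ℝ} {h : ℝ → ℝ} (H : Adm b₁ a₁ K q₀ a b h) :
    √(∫ ψ in (0 : ℝ)..(2 * π), dev a b h ψ ^ 2) ≤ |a₁| * eta a b h := by
  have hb : 0 < b := H.box.pos.trans_le H.box.hb
  have ha : 0 < a := hb.trans H.box.hab
  have hcE : Continuous (hE a b) := (contDiff_hE hb H.box.hab.le (n := 0) (by simp)).continuous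
  have hch : Continuous h := H.smooth.continuous
  unfold eta
  rw [← Real.sqrt_sq (abs_nonneg a₁), ← Real.sqrt_mul (sq_nonneg _)]
  apply Real.sqrt_le_sqrt
  rw [← intervalIntegral.integral_const_mul]
  apply intervalIntegral.integral_mono_on (by positivity)
  · exact ((hcE.mul (hch.sub hcE)).pow 2).intervalIntegrable _ _
  · exact (continuous_const.mul ((hch.sub hcE).pow 2)).intervalIntegrable _ _
  · intro ψ _
    unfold dev
    rw [mul_pow]
    apply mul_le_mul_of_nonneg_right _ (sq_nonneg _)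
    apply pow_le_pow_left₀ (hb.le.trans (hE_ge hb H.box.hab.le ψ))
    exact (hE_le hb H.box.hab.le ψ).trans (H.box.ha.trans (le_abs_self _))

theorem dev_coeff : ∃ C > 0, ∀ a b h, Adm b₁ a₁ K q₀ a b h → ∀ l, 0 ≤ l → l ≤ b / 2 → ∀ m : ℤ,
    ‖Efun a b l m (fun ψ => ((dev a b h ψ : ℝ) : ℂ))‖ ≤ C * eta a b h := by
  obtain ⟨C, hC, h1⟩ := norm_Efun_le_L2 (b₁ := b₁) (a₁ := a₁)
  refine ⟨C * |a₁| + 1, by positivity, ?_⟩
  intro a b h H l hl hl2 m
  have e1 := h1 a b H.box l hl hl2 m (dev a b h) H.continuous_dev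
  have e2 := dev_L2 H
  have e3 : 0 ≤ eta a b h := Real.sqrt_nonneg _
  calc _ ≤ _ := e1
    _ ≤ C * (|a₁| * eta a b h) := mul_le_mul_of_nonneg_left e2 hC.le
    _ ≤ _ := by nlinarith

/-- sup bounds -/
theorem sup_bounds : ∃ C > 0, ∀ a b h, Adm b₁ a₁ K q₀ a b h → 0 < eta a b h → eta a b h ≤ 1 →
    Summable (fun m : ℤ => (1 + |(m : ℝ)|) * ‖Efun a b 0 m (fun ψ => ((dev a b h ψ : ℝ) : ℂ))‖) ∧
    (∀ ψ, |h ψ - hE a b ψ| ≤ C * eta a b h ^ (13 / 15 : ℝ)) ∧
    (∀ ψ, |deriv h ψ - deriv (hE a b) ψ| ≤ C * eta a b h ^ (13 / 15 : ℝ)) := by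
  obtain ⟨C₁, hC₁⟩ := dev_decay (b₁ := b₁) (a₁ := a₁) (K := K) (q₀ := q₀)
  obtain ⟨C₂, hC₂, h2⟩ := dev_coeff (b₁ := b₁) (a₁ := a₁) (K := K) (q₀ := q₀)
  set K' : ℝ := |C₁| + C₂ with hK'
  have hK0 : 0 ≤ K' := by positivity
  obtain ⟨C₃, hC₃, h3⟩ := interp_numeric hK0
  -- constants
  set b₀ := |b₁| with hb₀
  set A := |a₁| with hA
  refine ⟨C₃ / b₀ + (A / b₀ * C₃ + A ^ 2 / b₀ * (C₃ / b₀)) / b₀ + 1, by positivity, ?_⟩
  intro a b h H hη hη1
  have hb : 0 < b := H.box.pos.trans_le H.box.hb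
  have ha : 0 < a := hb.trans H.box.hab
  have hb₀pos : 0 < b₀ := abs_pos.2 H.box.pos.ne'
  have hb₀b : b₀ ≤ b := by rw [hb₀, abs_of_pos H.box.pos]; exact H.box.hb
  have haA : a ≤ A := H.box.ha.trans (le_abs_self _)
  set c : ℤ → ℝ := fun m => ‖Efun a b 0 m (fun ψ => ((dev a b h ψ : ℝ) : ℂ))‖ with hc
  have h1 : ∀ m, c m ≤ K' * eta a b h := fun m =>
    (h2 a b h H 0 le_rfl (by positivity) m).trans (mul_le_mul_of_nonneg_right (by
      rw [hK']; linarith [abs_nonneg C₁]) hη.le)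
  have h1' : ∀ m : ℤ, |(m : ℝ)| ^ 30 * c m ≤ K' := fun m =>
    (hC₁ a b h H m).trans (by rw [hK']; linarith [le_abs_self C₁])
  obtain ⟨hs, hle⟩ := h3 c (eta a b h) hη hη1 (fun m => norm_nonneg _) h1 h1'
  set E := eta a b h ^ (13 / 15 : ℝ) with hE'
  have hE0 : 0 ≤ E := by positivity
  refine ⟨hs, ?_⟩
  have hs0 : Summable c := Summable.of_nonneg_of_le (fun m => norm_nonneg _)
    (fun m => by nlinarith [abs_nonneg (m : ℝ), norm_nonneg (Efun a b 0 m (fun ψ => ((dev a b h ψ : ℝ) : ℂ)))]) hs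
  have hs1 : Summable (fun m : ℤ => |(m : ℝ)| * c m) := Summable.of_nonneg_of_le
    (fun m => by positivity)
    (fun m => by nlinarith [abs_nonneg (m : ℝ), norm_nonneg (Efun a b 0 m (fun ψ => ((dev a b h ψ : ℝ) : ℂ)))]) hs
  have hexp : ∀ (m : ℤ) ψ, ‖Complex.exp ((m * BE a b 0 ψ : ℝ) * I)‖ = 1 := fun m ψ =>
    Complex.norm_exp_ofReal_mul_I _
  -- bound of dev
  have hdev : ∀ ψ, |dev a b h ψ| ≤ C₃ * E := by
    intro ψ
    have e1 := hasSum_Efun hb H.box.hab.le le_rfl (by positivity)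
      (Complex.continuous_ofReal.comp H.continuous_dev)
      (fun ψ => by simp only [Function.comp]; rw [dev_periodic H.supp.periodic]) hs0 ψ
    have e2 : ‖((dev a b h ψ : ℝ) : ℂ)‖ ≤ ∑' m, c m := by
      have e3 := e1.tsum_eq
      simp only [Function.comp] at e3
      rw [← e3]
      have hn : Summable (fun m : ℤ => ‖Efun a b 0 m (fun ψ => ((dev a b h ψ : ℝ) : ℂ)) *
          Complex.exp ((m * BE a b 0 ψ : ℝ) * I)‖) := by
        simp_rw [norm_mul, hexp, mul_one]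
        exact hs0
      refine (norm_tsum_le_tsum_norm hn).trans (le_of_eq ?_)
      simp_rw [norm_mul, hexp, mul_one]
      rfl
    rw [Complex.norm_real, Real.norm_eq_abs] at e2
    refine e2.trans ((hs0.tsum_le_tsum (fun m => ?_) hs).trans hle)
    nlinarith [abs_nonneg (m : ℝ), norm_nonneg (Efun a b 0 m (fun ψ => ((dev a b h ψ : ℝ) : ℂ)))]
  -- derivative
  have hdiff : Differentiable ℝ (dev a b h) := H.contDiff_dev.differentiable (by norm_num)
  have hcd : ContDiff ℝ 1 (fun ψ => ((dev a b h ψ : ℝ) : ℂ)) :=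
    Complex.ofRealCLM.contDiff.comp (H.contDiff_dev.of_le (by norm_num))
  have hder : ∀ ψ, deriv (fun ψ => ((dev a b h ψ : ℝ) : ℂ)) ψ = ((deriv (dev a b h) ψ : ℝ) : ℂ) :=
    fun ψ => ((hdiff ψ).hasDerivAt.ofReal_comp).deriv
  have hcontd : Continuous (deriv (dev a b h)) :=
    (H.contDiff_dev.of_le (m := 1) (by norm_num)).continuous_deriv le_rfl
  have hcE : Continuous (hE a b) := (contDiff_hE hb H.box.hab.le (n := 0) (by simp)).continuous
  have hcpos : 0 < cE a b 0 := lt_of_lt_of_le (by positivity)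
    (cE_ge hb H.box.hab.le le_rfl (by positivity))
  have hcle : cE a b 0 ≤ A := (cE_le hb H.box.hab.le le_rfl (by positivity)).trans haA
  have hdev' : ∀ ψ, |hE a b ψ / cE a b 0 * deriv (dev a b h) ψ| ≤ C₃ * E := by
    intro ψ
    have hD := Efun_deriv hb H.box.hab.le hcd
      (fun ψ => by rw [dev_periodic H.supp.periodic])
    set Du : ℝ → ℂ := fun ψ => ((hE a b ψ / cE a b 0 : ℝ) : ℂ) *
      deriv (fun ψ => ((dev a b h ψ : ℝ) : ℂ)) ψ with hDu
    have hDn : ∀ m : ℤ, ‖Efun a b 0 m Du‖ = |(m : ℝ)| * c m := by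
      intro m
      rw [hD m, norm_mul, norm_mul, Complex.norm_I, mul_one]
      congr 1
      rw [show ((m : ℤ) : ℂ) = (((m : ℝ)) : ℂ) by push_cast; rfl, Complex.norm_real,
        Real.norm_eq_abs]
    have hDs : Summable (fun m : ℤ => ‖Efun a b 0 m Du‖) := by
      simp_rw [hDn]
      exact hs1
    have hDc : Continuous Du := by
      have : Du = fun ψ => ((hE a b ψ / cE a b 0 : ℝ) : ℂ) * ((deriv (dev a b h) ψ : ℝ) : ℂ) := by
        funext ψ
        rw [hDu]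
        simp only
        rw [hder]
      rw [this]
      exact (Complex.continuous_ofReal.comp (hcE.div_const _)).mul
        (Complex.continuous_ofReal.comp hcontd)
    have hDp : ∀ ψ, Du (ψ + 2 * π) = Du ψ := by
      intro ψ
      simp only [hDu]
      rw [hE_add_two_pi, hder, hder]
      congr 2
      have : (fun x => dev a b h (x + 2 * π)) = dev a b h :=
        funext (dev_periodic H.supp.periodic)
      have h5 := deriv_comp_add_const (dev a b h) (2 * π) ψ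
      rw [← h5, this]
    have e1 := hasSum_Efun hb H.box.hab.le le_rfl (by positivity) hDc hDp hDs ψ
    have e2 : ‖Du ψ‖ ≤ ∑' m : ℤ, |(m : ℝ)| * c m := by
      rw [← e1.tsum_eq]
      have hn : Summable (fun m : ℤ => ‖Efun a b 0 m Du *
          Complex.exp ((m * BE a b 0 ψ : ℝ) * I)‖) := by
        simp_rw [norm_mul, hexp, mul_one]
        exact hDs
      refine (norm_tsum_le_tsum_norm hn).trans (le_of_eq ?_)
      simp_rw [norm_mul, hexp, mul_one, hDn]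
    have e3 : ‖Du ψ‖ = |hE a b ψ / cE a b 0 * deriv (dev a b h) ψ| := by
      simp only [hDu]
      rw [hder, ← Complex.ofReal_mul, Complex.norm_real, Real.norm_eq_abs]
    rw [← e3]
    refine e2.trans ((hs1.tsum_le_tsum (fun m => ?_) hs).trans hle)
    nlinarith [abs_nonneg (m : ℝ), norm_nonneg (Efun a b 0 m (fun ψ => ((dev a b h ψ : ℝ) : ℂ)))]
  -- final bounds
  have hd : ∀ ψ, |h ψ - hE a b ψ| ≤ C₃ / b₀ * E := by
    intro ψ
    have e1 := hdev ψ
    unfold dev at e1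
    rw [abs_mul] at e1
    have e2 := hE_ge hb H.box.hab.le ψ
    have e3 : b₀ * |h ψ - hE a b ψ| ≤ C₃ * E := by
      refine le_trans ?_ e1
      apply mul_le_mul_of_nonneg_right _ (abs_nonneg _)
      exact hb₀b.trans (e2.trans (le_abs_self _))
    rw [div_mul_eq_mul_div, le_div_iff₀ hb₀pos]
    linarith
  have hd' : ∀ ψ, |deriv h ψ - deriv (hE a b) ψ| ≤
      (A / b₀ * C₃ + A ^ 2 / b₀ * (C₃ / b₀)) / b₀ * E := by
    intro ψ
    have e0 := hE_ge hb H.box.hab.le ψ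
    have e0' := hE_le hb H.box.hab.le ψ
    have hhd : Differentiable ℝ h := H.smooth.differentiable (by norm_num)
    have hEd := hasDerivAt_hE hb H.box.hab.le ψ
    have e1 : deriv (dev a b h) ψ = deriv (hE a b) ψ * (h ψ - hE a b ψ) +
        hE a b ψ * (deriv h ψ - deriv (hE a b) ψ) := by
      have h6 := (hEd.differentiableAt.hasDerivAt.mul
        ((hhd ψ).hasDerivAt.sub hEd.differentiableAt.hasDerivAt)).deriv
      exact h6
    have e2 : |deriv (hE a b) ψ| ≤ A ^ 2 / b₀ := by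
      rw [hEd.deriv, abs_div, abs_of_pos (hb.trans_le e0)]
      apply div_le_div₀ (by positivity) _ hb₀pos (hb₀b.trans e0)
      rw [abs_mul, abs_mul]
      have f1 : |b ^ 2 - a ^ 2| ≤ A ^ 2 := by
        rw [abs_le]
        have : a ^ 2 ≤ A ^ 2 := pow_le_pow_left₀ ha.le haA 2
        have : b ^ 2 ≤ a ^ 2 := pow_le_pow_left₀ hb.le H.box.hab.le 2
        constructor <;> nlinarith [sq_nonneg b, sq_nonneg A]
      have f2 := Real.abs_sin_le_one ψ
      have f3 := Real.abs_cos_le_one ψ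
      calc |b ^ 2 - a ^ 2| * |Real.sin ψ| * |Real.cos ψ| ≤ A ^ 2 * 1 * 1 := by
            apply mul_le_mul (mul_le_mul f1 f2 (abs_nonneg _) (by positivity)) f3 (abs_nonneg _)
              (by positivity)
        _ = A ^ 2 := by ring
    have e3 : |deriv (dev a b h) ψ| ≤ A / b₀ * C₃ * E := by
      have f1 := hdev' ψ
      rw [abs_mul, abs_of_pos (div_pos (hb.trans_le e0) hcpos)] at f1
      have f2 : b₀ / A ≤ hE a b ψ / cE a b 0 :=
        div_le_div₀ (by linarith) (hb₀b.trans e0) hcpos hcle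
      have f3 : b₀ / A * |deriv (dev a b h) ψ| ≤ C₃ * E :=
        (mul_le_mul_of_nonneg_right f2 (abs_nonneg _)).trans f1
      have hA0 : 0 < A := ha.trans_le haA
      rw [div_mul_eq_mul_div, div_le_iff₀ hA0] at f3
      rw [div_mul_eq_mul_div, div_mul_eq_mul_div, le_div_iff₀ hb₀pos]
      linarith
    have e4 : hE a b ψ * (deriv h ψ - deriv (hE a b) ψ) =
        deriv (dev a b h) ψ - deriv (hE a b) ψ * (h ψ - hE a b ψ) := by rw [e1]; ring
    have e5 : b₀ * |deriv h ψ - deriv (hE a b) ψ| ≤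
        A / b₀ * C₃ * E + A ^ 2 / b₀ * (C₃ / b₀ * E) := by
      have f1 : |hE a b ψ * (deriv h ψ - deriv (hE a b) ψ)| ≤
          A / b₀ * C₃ * E + A ^ 2 / b₀ * (C₃ / b₀ * E) := by
        rw [e4]
        refine (abs_sub _ _).trans (add_le_add e3 ?_)
        rw [abs_mul]
        exact mul_le_mul e2 (hd ψ) (abs_nonneg _) (by positivity)
      rw [abs_mul] at f1
      refine le_trans ?_ f1
      apply mul_le_mul_of_nonneg_right _ (abs_nonneg _)
      exact hb₀b.trans (e0.trans (le_abs_self _))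
    rw [div_mul_eq_mul_div, le_div_iff₀ hb₀pos]
    linarith
  have hp1 : 0 ≤ C₃ / b₀ := by positivity
  have hp2 : 0 ≤ (A / b₀ * C₃ + A ^ 2 / b₀ * (C₃ / b₀)) / b₀ := by positivity
  refine ⟨fun ψ => (hd ψ).trans ?_, fun ψ => (hd' ψ).trans ?_⟩
  · apply mul_le_mul_of_nonneg_right _ hE0
    linarith
  · apply mul_le_mul_of_nonneg_right _ hE0
    linarith

end LSB
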