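import Pool.Agent.LSB.FDefs

/-!
# Part F, module FUB: calculus of uniformly bounded families
-/

namespace LSB

open Real Complex MeasureTheory Filter

variable {ι : Type*}

lemma UB.diff {n : ℕ} {F : ι → ℝ → ℝ} (h : UB (n + 1) F) (i : ι) : Differentiable ℝ (F i) := h.1 i

lemma UB.der {n : ℕ} {F : ι → ℝ → ℝ} (h : UB (n + 1) F) : UB n (fun i => deriv (F i)) := h.2.2

lemma UB.bdd {n : ℕ} {F : ι → ℝ → ℝ} (h : UB n F) : ∃ C, ∀ i x, |F i x| ≤ C := by
  cases n with
  | zero => exact h.2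
  | succ n => exact h.2.1

lemma UB.cont {n : ℕ} {F : ι → ℝ → ℝ} (h : UB n F) (i : ι) : Continuous (F i) := by
  cases n with
  | zero => exact h.1 i
  | succ n => exact (h.1 i).continuous

lemma UB.pred {n : ℕ} {F : ι → ℝ → ℝ} (h : UB (n + 1) F) : UB n F := by
  induction n generalizing F with
  | zero => exact ⟨fun i => (h.1 i).continuous, h.2.1⟩
  | succ n ih => exact ⟨h.1, h.2.1, ih h.2.2⟩

lemma UB.mono {n m : ℕ} {F : ι → ℝ → ℝ} (h : UB n F) (hm : m ≤ n) : UB m F := by
  induction n with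
  | zero => rwa [Nat.le_zero.1 hm]
  | succ n ih =>
    rcases Nat.lt_or_ge n m with h1 | h1
    · rwa [show m = n + 1 by omega]
    · exact ih h.pred h1

lemma UB.const {n : ℕ} {c : ι → ℝ} (h : ∃ C, ∀ i, |c i| ≤ C) : UB n (fun i _ => c i) := by
  obtain ⟨C, hC⟩ := h
  induction n generalizing c C with
  | zero => exact ⟨fun i => continuous_const, C, fun i _ => hC i⟩
  | succ n ih =>
    refine ⟨fun i => differentiable_const _, ⟨C, fun i _ => hC i⟩, ?_⟩
    have : (fun i => deriv (fun _ : ℝ => c i)) = fun (i : ι) (_ : ℝ) => (0 : ℝ) := by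
      funext i x
      simp
    rw [this]
    exact ih 0 (fun i => by simp)

lemma UB.add {n : ℕ} {F G : ι → ℝ → ℝ} (hF : UB n F) (hG : UB n G) :
    UB n (fun i x => F i x + G i x) := by
  induction n generalizing F G with
  | zero =>
    obtain ⟨C, hC⟩ := hF.2
    obtain ⟨D, hD⟩ := hG.2
    exact ⟨fun i => (hF.1 i).add (hG.1 i), C + D, fun i x =>
      (abs_add_le _ _).trans (add_le_add (hC i x) (hD i x))⟩
  | succ n ih =>
    obtain ⟨C, hC⟩ := hF.2.1
    obtain ⟨D, hD⟩ := hG.2.1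
    refine ⟨fun i => (hF.1 i).add (hG.1 i), ⟨C + D, fun i x =>
      (abs_add_le _ _).trans (add_le_add (hC i x) (hD i x))⟩, ?_⟩
    have : (fun i => deriv (fun x => F i x + G i x)) =
        fun i x => deriv (F i) x + deriv (G i) x := by
      funext i x
      exact deriv_fun_add (hF.1 i x) (hG.1 i x)
    rw [this]
    exact ih hF.2.2 hG.2.2

lemma UB.mul {n : ℕ} {F G : ι → ℝ → ℝ} (hF : UB n F) (hG : UB n G) :
    UB n (fun i x => F i x * G i x) := by
  induction n generalizing F G with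
  | zero =>
    obtain ⟨C, hC⟩ := hF.2
    obtain ⟨D, hD⟩ := hG.2
    refine ⟨fun i => (hF.1 i).mul (hG.1 i), C * D, fun i x => ?_⟩
    rw [abs_mul]
    exact mul_le_mul (hC i x) (hD i x) (abs_nonneg _) ((abs_nonneg _).trans (hC i x))
  | succ n ih =>
    obtain ⟨C, hC⟩ := hF.2.1
    obtain ⟨D, hD⟩ := hG.2.1
    refine ⟨fun i => (hF.1 i).mul (hG.1 i), ⟨C * D, fun i x => ?_⟩, ?_⟩
    · rw [abs_mul]
      exact mul_le_mul (hC i x) (hD i x) (abs_nonneg _) ((abs_nonneg _).trans (hC i x))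
    have : (fun i => deriv (fun x => F i x * G i x)) =
        fun i x => deriv (F i) x * G i x + F i x * deriv (G i) x := by
      funext i x
      exact deriv_fun_mul (hF.1 i x) (hG.1 i x)
    rw [this]
    exact (ih hF.2.2 hG.pred).add (ih hF.pred hG.2.2)

lemma UB.const_mul {n : ℕ} {F : ι → ℝ → ℝ} (hF : UB n F) {c : ι → ℝ} (h : ∃ C, ∀ i, |c i| ≤ C) :
    UB n (fun i x => c i * F i x) := (UB.const h).mul hF

lemma UB.neg {n : ℕ} {F : ι → ℝ → ℝ} (hF : UB n F) : UB n (fun i x => -F i x) := by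
  have := hF.const_mul (c := fun _ => (-1 : ℝ)) ⟨1, fun i => by simp⟩
  simpa using this

lemma UB.sub {n : ℕ} {F G : ι → ℝ → ℝ} (hF : UB n F) (hG : UB n G) :
    UB n (fun i x => F i x - G i x) := by
  simpa [sub_eq_add_neg] using hF.add hG.neg

lemma UB.inv {n : ℕ} {F : ι → ℝ → ℝ} (hF : UB n F) {c : ℝ} (hc : 0 < c) (hF' : ∀ i x, c ≤ F i x) :
    UB n (fun i x => (F i x)⁻¹) := by
  have hb : ∀ i x, |(F i x)⁻¹| ≤ c⁻¹ := fun i x => by
    rw [abs_of_pos (inv_pos.2 (hc.trans_le (hF' i x)))]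
    exact inv_anti₀ hc (hF' i x)
  induction n with
  | zero =>
    exact ⟨fun i => (hF.1 i).inv₀ (fun x => (hc.trans_le (hF' i x)).ne'), c⁻¹, hb⟩
  | succ n ih =>
    refine ⟨fun i => (hF.1 i).inv (fun x => (hc.trans_le (hF' i x)).ne'), ⟨c⁻¹, hb⟩, ?_⟩
    have : (fun i => deriv (fun x => (F i x)⁻¹)) =
        fun i x => -(deriv (F i) x * ((F i x)⁻¹ * (F i x)⁻¹)) := by
      funext i x
      have h1 := ((hF.1 i x).hasDerivAt.inv (hc.trans_le (hF' i x)).ne').deriv
      have h2 : deriv (fun x => (F i x)⁻¹) x = -deriv (F i) x / F i x ^ 2 := h1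
      rw [h2, pow_two, neg_div, div_eq_mul_inv, mul_inv]
    rw [this]
    have h3 := ih hF.pred
    exact (hF.2.2.mul (h3.mul h3)).neg

lemma UB.sqrt {n : ℕ} {F : ι → ℝ → ℝ} (hF : UB n F) {c : ℝ} (hc : 0 < c) (hF' : ∀ i x, c ≤ F i x) :
    UB n (fun i x => √(F i x)) := by
  obtain ⟨C, hC⟩ := hF.bdd
  have hb : ∀ i x, |√(F i x)| ≤ √C := fun i x => by
    rw [abs_of_nonneg (Real.sqrt_nonneg _)]
    exact Real.sqrt_le_sqrt ((le_abs_self _).trans (hC i x))
  induction n with
  | zero => exact ⟨fun i => (hF.1 i).sqrt, √C, hb⟩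
  | succ n ih =>
    refine ⟨fun i => (hF.1 i).sqrt (fun x => (hc.trans_le (hF' i x)).ne'), ⟨√C, hb⟩, ?_⟩
    have : (fun i => deriv (fun x => √(F i x))) =
        fun i x => deriv (F i) x * ((1 / 2) * (√(F i x))⁻¹) := by
      funext i x
      have h1 := ((hF.1 i x).hasDerivAt.sqrt (hc.trans_le (hF' i x)).ne').deriv
      rw [h1]
      field_simp
    rw [this]
    have h3 := ih hF.pred
    have h4 : UB n (fun i x => (√(F i x))⁻¹) :=
      h3.inv (c := √c) (Real.sqrt_pos.2 hc) (fun i x => Real.sqrt_le_sqrt (hF' i x))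
    exact hF.2.2.mul (h4.const_mul (c := fun _ => (1 / 2 : ℝ)) ⟨|1 / 2|, fun i => le_rfl⟩)

lemma UB_cos_sin (n : ℕ) : UB n (fun (_ : ι) => Real.cos) ∧ UB n (fun (_ : ι) => Real.sin) := by
  induction n with
  | zero =>
    exact ⟨⟨fun _ => Real.continuous_cos, 1, fun _ x => Real.abs_cos_le_one x⟩,
      ⟨fun _ => Real.continuous_sin, 1, fun _ x => Real.abs_sin_le_one x⟩⟩
  | succ n ih =>
    refine ⟨⟨fun _ => Real.differentiable_cos, ⟨1, fun _ x => Real.abs_cos_le_one x⟩, ?_⟩,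
      ⟨fun _ => Real.differentiable_sin, ⟨1, fun _ x => Real.abs_sin_le_one x⟩, ?_⟩⟩
    · have : (fun (_ : ι) => deriv Real.cos) = fun (_ : ι) x => -Real.sin x := by
        funext i x
        simp
      rw [this]
      exact ih.2.neg
    · have : (fun (_ : ι) => deriv Real.sin) = fun (_ : ι) => Real.cos := by
        funext i x
        simp
      rw [this]
      exact ih.1

lemma UB_of_iteratedDeriv {n : ℕ} {F : ι → ℝ → ℝ} (hF : ∀ i, ContDiff ℝ n (F i)) {K : ℝ}
    (hK : ∀ i, ∀ k ≤ n, ∀ x, |iteratedDeriv k (F i) x| ≤ K) : UB n F := by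
  induction n generalizing F with
  | zero =>
    exact ⟨fun i => (hF i).continuous, K, fun i x => by simpa using hK i 0 le_rfl x⟩
  | succ n ih =>
    refine ⟨fun i => (hF i).differentiable (by simp), ⟨K, fun i x => by
      simpa using hK i 0 (Nat.zero_le _) x⟩, ?_⟩
    apply ih
    · intro i
      have := hF i
      rw [show ((n + 1 : ℕ) : WithTop ℕ∞) = (n : WithTop ℕ∞) + 1 by push_cast; rfl] at this
      exact (contDiff_succ_iff_deriv.1 this).2.2
    · intro i k hk x
      have := hK i (k + 1) (by omega) x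
      rwa [iteratedDeriv_succ'] at this

lemma UB_hE (n : ℕ) {b₁ a₁ : ℝ} {a b : ι → ℝ} (hB : ∀ i, Box b₁ a₁ (a i) (b i)) :
    UB n (fun i => hE (a i) (b i)) := by
  by_cases hι : Nonempty ι
  · obtain ⟨i₀⟩ := hι
    have hb₁ := (hB i₀).pos
    have h1 : UB n (fun i x => (a i) ^ 2 * (Real.cos x * Real.cos x) +
        (b i) ^ 2 * (Real.sin x * Real.sin x)) := by
      apply UB.add
      · apply ((UB_cos_sin n).1.mul (UB_cos_sin n).1).const_mul
        refine ⟨a₁ ^ 2, fun i => ?_⟩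
        have := hB i
        rw [abs_of_nonneg (sq_nonneg _)]
        exact pow_le_pow_left₀ (by linarith [this.pos, this.hb, this.hab]) this.ha 2
      · apply ((UB_cos_sin n).2.mul (UB_cos_sin n).2).const_mul
        refine ⟨a₁ ^ 2, fun i => ?_⟩
        have := hB i
        rw [abs_of_nonneg (sq_nonneg _)]
        exact pow_le_pow_left₀ (by linarith [this.pos, this.hb, this.hab])
          (by linarith [this.hab, this.ha]) 2
    have h2 := h1.sqrt (c := b₁ ^ 2) (by positivity) (fun i x => by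
      have := hB i
      have e1 : b₁ ^ 2 ≤ (a i) ^ 2 :=
        pow_le_pow_left₀ hb₁.le (by linarith [this.hb, this.hab]) 2
      have e2 : b₁ ^ 2 ≤ (b i) ^ 2 := pow_le_pow_left₀ hb₁.le this.hb 2
      have e3 := Real.sin_sq_add_cos_sq x
      nlinarith [sq_nonneg (Real.sin x), sq_nonneg (Real.cos x)])
    have : (fun i => hE (a i) (b i)) = fun i x => √((a i) ^ 2 * (Real.cos x * Real.cos x) +
        (b i) ^ 2 * (Real.sin x * Real.sin x)) := by
      funext i x
      unfold hE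
      congr 1
      ring
    rw [this]
    exact h2
  · have hi : IsEmpty ι := not_nonempty_iff.1 hι
    clear hB
    suffices H : ∀ (n : ℕ) (F : ι → ℝ → ℝ), UB n F from H n _
    intro n
    induction n with
    | zero => intro F; exact ⟨fun i => hi.elim i, 0, fun i => hi.elim i⟩
    | succ n ih => intro F; exact ⟨fun i => hi.elim i, ⟨0, fun i => hi.elim i⟩, ih _⟩

end LSB
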