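import Pool.Agent.LSB.Defs

/-!
# The tangent angle of a curve near an ellipse and its inverse function
-/

set_option linter.all false

namespace LSB
namespace G1

open Real

lemma exists_tau {x1 y1 x2 y2 : ℝ → ℝ} (hx : ∀ t, HasDerivAt x1 (x2 t) t)
    (hy : ∀ t, HasDerivAt y1 (y2 t) t) (hpx : ∀ t, x1 (t + 2 * π) = x1 t)
    (hpy : ∀ t, y1 (t + 2 * π) = y1 t) (hP : ∀ t, 0 < y1 t * cos t - x1 t * sin t) :
    ∃ τ : ℝ → ℝ, (∀ t, HasDerivAt τ ((x1 t * y2 t - x2 t * y1 t) / (x1 t ^ 2 + y1 t ^ 2)) t) ∧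
      (∀ t, τ (t + 2 * π) = τ t + 2 * π) ∧
      ∀ t, x1 t = -(√(x1 t ^ 2 + y1 t ^ 2) * sin (τ t)) ∧
        y1 t = √(x1 t ^ 2 + y1 t ^ 2) * cos (τ t) := by
  refine ⟨fun t => t + arctan (-(x1 t * cos t + y1 t * sin t) / (y1 t * cos t - x1 t * sin t)),
    fun t => ?_, fun t => ?_, fun t => ?_⟩
  · have hPt := hP t
    have hcs := sin_sq_add_cos_sq t
    have hQ : HasDerivAt (fun t => -(x1 t * cos t + y1 t * sin t))
        (-((x2 t * cos t + x1 t * (-sin t)) + (y2 t * sin t + y1 t * cos t))) t :=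
      (((hx t).mul (hasDerivAt_cos t)).add ((hy t).mul (hasDerivAt_sin t))).neg
    have hPd : HasDerivAt (fun t => y1 t * cos t - x1 t * sin t)
        ((y2 t * cos t + y1 t * (-sin t)) - (x2 t * sin t + x1 t * cos t)) t :=
      ((hy t).mul (hasDerivAt_cos t)).sub ((hx t).mul (hasDerivAt_sin t))
    have hd := ((hasDerivAt_id t).add ((hQ.div hPd hPt.ne').arctan))
    refine hd.congr_deriv ?_
    have hR : x1 t ^ 2 + y1 t ^ 2 = (y1 t * cos t - x1 t * sin t) ^ 2 +
        (x1 t * cos t + y1 t * sin t) ^ 2 := by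
      linear_combination (-(x1 t ^ 2 + y1 t ^ 2)) * hcs
    have hRp : 0 < x1 t ^ 2 + y1 t ^ 2 := by rw [hR]; positivity
    have hRne := hRp.ne'
    set P := y1 t * cos t - x1 t * sin t with hPdef
    have h1 : (1 : ℝ) + (-(x1 t * cos t + y1 t * sin t) / P) ^ 2 =
        (x1 t ^ 2 + y1 t ^ 2) / P ^ 2 := by
      rw [hR]
      field_simp
    simp only [Pi.div_apply]
    rw [h1, eq_div_iff hRne]
    have hPne := hPt.ne'
    field_simp
    rw [hPdef]
    have hcos : cos t ^ 2 = 1 - sin t ^ 2 := by linarith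
    have : sin t ^ 2 + cos t ^ 2 - 1 = 0 := by linarith
    linear_combination (norm := ring_nf) ((x1 t * y2 t - x2 t * y1 t) - (x1 t ^ 2 + y1 t ^ 2)) * this
  · have h1 : cos (t + 2 * π) = cos t := cos_add_two_pi t
    have h2 : sin (t + 2 * π) = sin t := sin_add_two_pi t
    simp only [hpx, hpy, h1, h2]
    ring
  · have hPt := hP t
    have hcs := sin_sq_add_cos_sq t
    have hR : x1 t ^ 2 + y1 t ^ 2 = (y1 t * cos t - x1 t * sin t) ^ 2 +
        (x1 t * cos t + y1 t * sin t) ^ 2 := by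
      linear_combination (-(x1 t ^ 2 + y1 t ^ 2)) * hcs
    have hRp : 0 < x1 t ^ 2 + y1 t ^ 2 := by rw [hR]; positivity
    have h1 : (1 : ℝ) + (-(x1 t * cos t + y1 t * sin t) / (y1 t * cos t - x1 t * sin t)) ^ 2 =
        (x1 t ^ 2 + y1 t ^ 2) / (y1 t * cos t - x1 t * sin t) ^ 2 := by
      rw [hR]
      generalize y1 t * cos t - x1 t * sin t = P at hPt
      have := hPt.ne'
      field_simp
    have hs : √((1 : ℝ) + (-(x1 t * cos t + y1 t * sin t) / (y1 t * cos t - x1 t * sin t)) ^ 2) =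
        √(x1 t ^ 2 + y1 t ^ 2) / (y1 t * cos t - x1 t * sin t) := by
      rw [h1, Real.sqrt_div' _ (by positivity), Real.sqrt_sq hPt.le]
    have hRs : 0 < √(x1 t ^ 2 + y1 t ^ 2) := Real.sqrt_pos.2 hRp
    have hsq := Real.sq_sqrt hRp.le
    rw [sin_add, cos_add, sin_arctan, cos_arctan, hs]
    set R := √(x1 t ^ 2 + y1 t ^ 2) with hRdef
    set P := y1 t * cos t - x1 t * sin t with hPdef
    have hPne := hPt.ne'
    constructor
    · field_simp
      rw [hPdef]
      linear_combination (-x1 t) * hcs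
    · field_simp
      rw [hPdef]
      linear_combination (-y1 t) * hcs

lemma add_int_mul {τ : ℝ → ℝ} (hp : ∀ t, τ (t + 2 * π) = τ t + 2 * π) (t : ℝ) (k : ℤ) :
    τ (t + k * (2 * π)) = τ t + k * (2 * π) := by
  have h : Function.Periodic (fun t => τ t - t) (2 * π) := by
    intro t
    simp only [hp]
    ring
  have h2 : τ (t + k * (2 * π)) - (t + k * (2 * π)) = τ t - t := h.int_mul k t
  linarith

lemma exists_inv {τ w : ℝ → ℝ} (h : ∀ t, HasDerivAt τ (w t) t) (hw : ∀ t, 0 < w t)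
    (hp : ∀ t, τ (t + 2 * π) = τ t + 2 * π) :
    ∃ σ : ℝ → ℝ, (∀ t, σ (τ t) = t) ∧ (∀ ψ, τ (σ ψ) = ψ) ∧
      (∀ ψ, σ (ψ + 2 * π) = σ ψ + 2 * π) ∧ (∀ ψ, HasDerivAt σ (w (σ ψ))⁻¹ ψ) := by
  have hmono : StrictMono τ := strictMono_of_deriv_pos fun t => by
    rw [(h t).deriv]
    exact hw t
  have hcont : Continuous τ := continuous_iff_continuousAt.2 fun t => (h t).continuousAt
  have hpi : 0 < 2 * π := by positivity
  have hsurj : Function.Surjective τ := by
    refine hcont.surjective ?_ ?_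
    · refine Filter.tendsto_atTop_atTop_of_monotone hmono.monotone fun b => ?_
      obtain ⟨k, hk⟩ := exists_int_gt ((b - τ 0) / (2 * π))
      refine ⟨0 + k * (2 * π), ?_⟩
      rw [add_int_mul hp]
      rw [div_lt_iff₀ hpi] at hk
      linarith
    · refine Filter.tendsto_atBot_atBot_of_monotone hmono.monotone fun b => ?_
      obtain ⟨k, hk⟩ := exists_int_lt ((b - τ 0) / (2 * π))
      refine ⟨0 + k * (2 * π), ?_⟩
      rw [add_int_mul hp]
      rw [lt_div_iff₀ hpi] at hk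
      linarith
  let e := hmono.orderIsoOfSurjective τ hsurj
  have he : ∀ t, e t = τ t := fun t => rfl
  have h1 : ∀ t, e.symm (τ t) = t := fun t => by
    rw [← he]
    exact e.symm_apply_apply t
  have h2 : ∀ ψ, τ (e.symm ψ) = ψ := fun ψ => by
    rw [← he]
    exact e.apply_symm_apply ψ
  refine ⟨fun ψ => e.symm ψ, h1, h2, fun ψ => ?_, fun ψ => ?_⟩
  · apply hmono.injective
    rw [hp]
    rw [h2, h2]
  · exact HasDerivAt.of_local_left_inverse e.symm.continuous.continuousAt (h _) (hw _).ne'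
      (Filter.Eventually.of_forall h2)

/-- The support function property. -/
lemma le_max {x y x1 y1 τ R σ : ℝ → ℝ} (hx : ∀ t, HasDerivAt x (x1 t) t)
    (hy : ∀ t, HasDerivAt y (y1 t) t) (hpx : ∀ t, x (t + 2 * π) = x t)
    (hpy : ∀ t, y (t + 2 * π) = y t) (hR : ∀ t, 0 ≤ R t)
    (hx1 : ∀ t, x1 t = -(R t * sin (τ t))) (hy1 : ∀ t, y1 t = R t * cos (τ t))
    (hmono : StrictMono τ) (hp : ∀ t, τ (t + 2 * π) = τ t + 2 * π)
    (hτσ : ∀ ψ, τ (σ ψ) = ψ) (ψ s : ℝ) :
    x s * cos ψ + y s * sin ψ ≤ x (σ ψ) * cos ψ + y (σ ψ) * sin ψ := by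
  have hg : ∀ s, HasDerivAt (fun s => x s * cos ψ + y s * sin ψ) (-(R s * sin (τ s - ψ))) s := by
    intro s
    refine (((hx s).mul_const (cos ψ)).add ((hy s).mul_const (sin ψ))).congr_deriv ?_
    rw [hx1, hy1, sin_sub]
    ring
  have hgc : Continuous (fun s => x s * cos ψ + y s * sin ψ) :=
    continuous_iff_continuousAt.2 fun t => (hg t).continuousAt
  have key : ∀ s, |τ s - ψ| ≤ π → x s * cos ψ + y s * sin ψ ≤
      x (σ ψ) * cos ψ + y (σ ψ) * sin ψ := by
    intro s hs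
    rw [abs_le] at hs
    rcases le_total (σ ψ) s with hle | hle
    · have hanti : AntitoneOn (fun s => x s * cos ψ + y s * sin ψ) (Set.Icc (σ ψ) s) := by
        refine antitoneOn_of_deriv_nonpos (convex_Icc _ _) hgc.continuousOn
          (fun u _ => (hg u).differentiableAt.differentiableWithinAt) fun u hu => ?_
        rw [interior_Icc] at hu
        rw [(hg u).deriv]
        have h1 : ψ < τ u := by
          rw [← hτσ ψ]
          exact hmono hu.1
        have h2 : τ u < τ s := hmono hu.2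
        have : 0 ≤ sin (τ u - ψ) := sin_nonneg_of_nonneg_of_le_pi (by linarith) (by linarith)
        have := mul_nonneg (hR u) this
        linarith
      exact hanti (Set.left_mem_Icc.2 hle) (Set.right_mem_Icc.2 hle) hle
    · have hm : MonotoneOn (fun s => x s * cos ψ + y s * sin ψ) (Set.Icc s (σ ψ)) := by
        refine monotoneOn_of_deriv_nonneg (convex_Icc _ _) hgc.continuousOn
          (fun u _ => (hg u).differentiableAt.differentiableWithinAt) fun u hu => ?_
        rw [interior_Icc] at hu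
        rw [(hg u).deriv]
        have h1 : τ u < ψ := by
          rw [← hτσ ψ]
          exact hmono hu.2
        have h2 : τ s < τ u := hmono hu.1
        have : sin (τ u - ψ) ≤ 0 := sin_nonpos_of_nonpos_of_neg_pi_le (by linarith) (by linarith)
        have := mul_nonpos_of_nonneg_of_nonpos (hR u) this
        linarith
      exact hm (Set.left_mem_Icc.2 hle) (Set.right_mem_Icc.2 hle) hle
  have hpi : 0 < 2 * π := by positivity
  set k : ℤ := -round ((τ s - ψ) / (2 * π)) with hk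
  have h1 := abs_sub_round ((τ s - ψ) / (2 * π))
  have h2 : |τ (s + k * (2 * π)) - ψ| ≤ π := by
    rw [add_int_mul hp, hk]
    push_cast
    have : τ s + -(round ((τ s - ψ) / (2 * π)) : ℝ) * (2 * π) - ψ =
        ((τ s - ψ) / (2 * π) - round ((τ s - ψ) / (2 * π))) * (2 * π) := by
      field_simp
      ring
    rw [this, abs_mul, abs_of_pos hpi]
    nlinarith
  have h3 := key _ h2
  have hx' : Function.Periodic x (2 * π) := hpx
  have hy' : Function.Periodic y (2 * π) := hpy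
  have h4 := hx'.int_mul k s
  have h5 := hy'.int_mul k s
  rw [h4, h5] at h3
  exact h3

lemma ellipse_le (a b ψ s : ℝ) : a * cos s * cos ψ + b * sin s * sin ψ ≤ hE a b ψ := by
  unfold hE
  refine (le_abs_self _).trans (Real.abs_le_sqrt ?_)
  have hcs := sin_sq_add_cos_sq s
  have : a ^ 2 * cos ψ ^ 2 + b ^ 2 * sin ψ ^ 2 - (a * cos s * cos ψ + b * sin s * sin ψ) ^ 2 =
      (a * cos ψ * sin s - b * sin ψ * cos s) ^ 2 := by
    linear_combination (-(a ^ 2 * cos ψ ^ 2 + b ^ 2 * sin ψ ^ 2)) * hcs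
  nlinarith [sq_nonneg (a * cos ψ * sin s - b * sin ψ * cos s)]

lemma ellipse_eq (a b ψ : ℝ) : ∃ s, a * cos s * cos ψ + b * sin s * sin ψ = hE a b ψ := by
  set z : ℂ := ⟨a * cos ψ, b * sin ψ⟩ with hz
  have h1 : ‖z‖ = hE a b ψ := by
    rw [Complex.norm_eq_sqrt_sq_add_sq]
    unfold hE
    simp only [hz]
    congr 1
    ring
  have h2 := Complex.norm_mul_cos_arg z
  have h3 := Complex.norm_mul_sin_arg z
  have h4 : z.re = a * cos ψ := rfl
  have h5 : z.im = b * sin ψ := rfl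
  rw [h1, h4] at h2
  rw [h1, h5] at h3
  refine ⟨Complex.arg z, ?_⟩
  have hcs := sin_sq_add_cos_sq (Complex.arg z)
  linear_combination (-(cos (Complex.arg z))) * h2 - (sin (Complex.arg z)) * h3 + (hE a b ψ) * hcs

lemma abs_le_norm (z : ℂ) (ψ : ℝ) : |z.re * cos ψ + z.im * sin ψ| ≤ ‖z‖ := by
  rw [Complex.norm_eq_sqrt_sq_add_sq]
  refine Real.abs_le_sqrt ?_
  have hcs := sin_sq_add_cos_sq ψ
  have : z.re ^ 2 + z.im ^ 2 - (z.re * cos ψ + z.im * sin ψ) ^ 2 =
      (z.re * sin ψ - z.im * cos ψ) ^ 2 := by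
    linear_combination (-(z.re ^ 2 + z.im ^ 2)) * hcs
  nlinarith [sq_nonneg (z.re * sin ψ - z.im * cos ψ)]

end G1
end LSB
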