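import Pool.Agent.LSB.Defs

/-!
# Calculus of uniformly bounded families of functions of class `C^n`
-/

set_option linter.all false

namespace LSB
namespace G1

variable {ι : Type*}

/-- Families of real functions whose derivatives up to order `n` are uniformly bounded. -/
def Bd {ι : Type*} : ℕ → (ι → ℝ → ℝ) → Prop
  | 0, f => (∀ i, Continuous (f i)) ∧ ∃ C, ∀ i t, |f i t| ≤ C
  | (n + 1), f => (∀ i, Differentiable ℝ (f i)) ∧ (∃ C, ∀ i t, |f i t| ≤ C) ∧
      Bd n (fun i => deriv (f i))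

lemma Bd.bound {n : ℕ} {f : ι → ℝ → ℝ} (h : Bd n f) : ∃ C, ∀ i t, |f i t| ≤ C := by
  cases n with
  | zero => exact h.2
  | succ n => exact h.2.1

lemma Bd.cont {n : ℕ} {f : ι → ℝ → ℝ} (h : Bd n f) (i : ι) : Continuous (f i) := by
  cases n with
  | zero => exact h.1 i
  | succ n => exact (h.1 i).continuous

lemma Bd.of_succ : ∀ {n : ℕ} {f : ι → ℝ → ℝ}, Bd (n + 1) f → Bd n f
  | 0, f, h => ⟨h.cont, h.bound⟩
  | (n + 1), f, h => ⟨h.1, h.2.1, Bd.of_succ h.2.2⟩

lemma Bd.mono {m n : ℕ} (hmn : m ≤ n) {f : ι → ℝ → ℝ} (h : Bd n f) : Bd m f := by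
  induction hmn with
  | refl => exact h
  | step _ ih => exact ih h.of_succ

lemma Bd.add : ∀ {n : ℕ} {f g : ι → ℝ → ℝ}, Bd n f → Bd n g → Bd n (fun i t => f i t + g i t)
  | 0, f, g, hf, hg => by
      obtain ⟨C, hC⟩ := hf.2
      obtain ⟨D, hD⟩ := hg.2
      exact ⟨fun i => (hf.1 i).add (hg.1 i), C + D, fun i t =>
        (abs_add_le _ _).trans (add_le_add (hC i t) (hD i t))⟩
  | (n + 1), f, g, hf, hg => by
      obtain ⟨C, hC⟩ := hf.2.1
      obtain ⟨D, hD⟩ := hg.2.1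
      refine ⟨fun i => (hf.1 i).add (hg.1 i), ⟨C + D, fun i t =>
        (abs_add_le _ _).trans (add_le_add (hC i t) (hD i t))⟩, ?_⟩
      have h := Bd.add hf.2.2 hg.2.2
      have he : (fun i => deriv (fun t => f i t + g i t)) =
          fun i t => deriv (f i) t + deriv (g i) t := by
        funext i t
        exact deriv_fun_add ((hf.1 i) t) ((hg.1 i) t)
      rw [he]
      exact h

lemma Bd.mul : ∀ {n : ℕ} {f g : ι → ℝ → ℝ}, Bd n f → Bd n g → Bd n (fun i t => f i t * g i t)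
  | 0, f, g, hf, hg => by
      obtain ⟨C, hC⟩ := hf.2
      obtain ⟨D, hD⟩ := hg.2
      refine ⟨fun i => (hf.1 i).mul (hg.1 i), C * D, fun i t => ?_⟩
      rw [abs_mul]
      exact mul_le_mul (hC i t) (hD i t) (abs_nonneg _) ((abs_nonneg _).trans (hC i t))
  | (n + 1), f, g, hf, hg => by
      obtain ⟨C, hC⟩ := hf.2.1
      obtain ⟨D, hD⟩ := hg.2.1
      refine ⟨fun i => (hf.1 i).mul (hg.1 i), ⟨C * D, fun i t => ?_⟩, ?_⟩
      · rw [abs_mul]
        exact mul_le_mul (hC i t) (hD i t) (abs_nonneg _) ((abs_nonneg _).trans (hC i t))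
      have h := Bd.add (Bd.mul hf.2.2 hg.of_succ) (Bd.mul hf.of_succ hg.2.2)
      have he : (fun i => deriv (fun t => f i t * g i t)) =
          fun i t => deriv (f i) t * g i t + f i t * deriv (g i) t := by
        funext i t
        exact deriv_fun_mul ((hf.1 i) t) ((hg.1 i) t)
      rw [he]
      exact h

lemma Bd.const (c : ℝ) : ∀ n : ℕ, Bd n (fun (_ : ι) (_ : ℝ) => c)
  | 0 => ⟨fun _ => continuous_const, |c|, fun _ _ => le_rfl⟩
  | (n + 1) => by
      refine ⟨fun _ => differentiable_const _, ⟨|c|, fun _ _ => le_rfl⟩, ?_⟩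
      have he : (fun (_ : ι) => deriv (fun (_ : ℝ) => c)) = fun _ _ => (0 : ℝ) := by
        funext i t
        simp
      rw [he]
      exact Bd.const 0 n
termination_by n => n

lemma Bd.congr {n : ℕ} {f g : ι → ℝ → ℝ} (h : Bd n f) (hfg : ∀ i t, g i t = f i t) : Bd n g := by
  have : g = f := by
    funext i t
    exact hfg i t
  rw [this]
  exact h

lemma Bd.neg {n : ℕ} {f : ι → ℝ → ℝ} (h : Bd n f) : Bd n (fun i t => -(f i t)) :=
  ((Bd.const (-1) n).mul h).congr fun i t => by ring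

lemma Bd.sub {n : ℕ} {f g : ι → ℝ → ℝ} (hf : Bd n f) (hg : Bd n g) :
    Bd n (fun i t => f i t - g i t) :=
  (hf.add hg.neg).congr fun i t => by ring

lemma Bd.inv {c : ℝ} (hc : 0 < c) : ∀ {n : ℕ} {f : ι → ℝ → ℝ}, Bd n f →
    (∀ i t, c ≤ f i t) → Bd n (fun i t => (f i t)⁻¹)
  | 0, f, hf, h => by
      refine ⟨fun i => (hf.1 i).inv₀ fun t => (hc.trans_le (h i t)).ne', c⁻¹, fun i t => ?_⟩
      rw [abs_of_pos (inv_pos.2 (hc.trans_le (h i t)))]
      exact inv_anti₀ hc (h i t)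
  | (n + 1), f, hf, h => by
      refine ⟨fun i => (hf.1 i).fun_inv fun t => (hc.trans_le (h i t)).ne',
        ⟨c⁻¹, fun i t => ?_⟩, ?_⟩
      · rw [abs_of_pos (inv_pos.2 (hc.trans_le (h i t)))]
        exact inv_anti₀ hc (h i t)
      have h1 := Bd.inv hc hf.of_succ h
      have h2 := (hf.2.2.mul (h1.mul h1)).neg
      refine h2.congr fun i t => ?_
      rw [deriv_fun_inv'' ((hf.1 i) t) (hc.trans_le (h i t)).ne']
      have := (hc.trans_le (h i t)).ne'
      field_simp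

lemma Bd.comp : ∀ {n : ℕ} {f u : ι → ℝ → ℝ}, Bd n f → (∀ i, Differentiable ℝ (u i)) →
    (∀ m < n, Bd m (fun i => deriv (u i))) → Bd n (fun i t => f i (u i t))
  | 0, f, u, hf, hu, _ => by
      obtain ⟨C, hC⟩ := hf.2
      exact ⟨fun i => (hf.1 i).comp (hu i).continuous, C, fun i t => hC i _⟩
  | (n + 1), f, u, hf, hu, h => by
      obtain ⟨C, hC⟩ := hf.2.1
      refine ⟨fun i => (hf.1 i).comp (hu i), ⟨C, fun i t => hC i _⟩, ?_⟩
      have h1 := Bd.comp hf.2.2 hu (fun m hm => h m (by omega))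
      refine (h1.mul (h n (by omega))).congr fun i t => ?_
      exact (((hf.1 i) (u i t)).hasDerivAt.comp t ((hu i) t).hasDerivAt).deriv

lemma Bd.contDiff : ∀ {n : ℕ} {f : ι → ℝ → ℝ}, Bd n f → ∀ i,
    ContDiff ℝ ((n : ℕ) : WithTop ℕ∞) (f i)
  | 0, f, h, i => by
      have h1 : ContDiff ℝ 0 (f i) := contDiff_zero.2 (h.1 i)
      simpa using h1
  | (n + 1), f, h, i => by
      have h1 := Bd.contDiff h.2.2 i
      have : (((n + 1 : ℕ) : ℕ) : WithTop ℕ∞) = (n : WithTop ℕ∞) + 1 := by push_cast; rfl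
      rw [this, contDiff_succ_iff_deriv]
      exact ⟨h.1 i, by simp, h1⟩

lemma Bd.iter : ∀ {n : ℕ} {f : ι → ℝ → ℝ}, Bd n f → ∃ C, ∀ i, ∀ k ≤ n, ∀ t,
    |iteratedDeriv k (f i) t| ≤ C
  | 0, f, h => by
      obtain ⟨C, hC⟩ := h.2
      refine ⟨C, fun i k hk t => ?_⟩
      obtain rfl : k = 0 := by omega
      rw [iteratedDeriv_zero]
      exact hC i t
  | (n + 1), f, h => by
      obtain ⟨C, hC⟩ := h.2.1
      obtain ⟨D, hD⟩ := Bd.iter h.2.2
      refine ⟨max C D, fun i k hk t => ?_⟩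
      cases k with
      | zero =>
        rw [iteratedDeriv_zero]
        exact (hC i t).trans (le_max_left _ _)
      | succ k =>
        rw [iteratedDeriv_succ']
        exact (hD i k (by omega) t).trans (le_max_right _ _)

lemma Bd.of_contDiff : ∀ {n : ℕ} {f : ι → ℝ → ℝ},
    (∀ i, ContDiff ℝ ((n : ℕ) : WithTop ℕ∞) (f i)) →
    (∃ C, ∀ i, ∀ k ≤ n, ∀ t, |iteratedDeriv k (f i) t| ≤ C) → Bd n f
  | 0, f, h, hC => by
      obtain ⟨C, hC⟩ := hC
      refine ⟨fun i => (h i).continuous, C, fun i t => ?_⟩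
      have := hC i 0 le_rfl t
      rwa [iteratedDeriv_zero] at this
  | (n + 1), f, h, hC => by
      obtain ⟨C, hC⟩ := hC
      have h' : ∀ i, Differentiable ℝ (f i) ∧ ContDiff ℝ ((n : ℕ) : WithTop ℕ∞) (deriv (f i)) := by
        intro i
        have h1 := h i
        have : (((n + 1 : ℕ) : ℕ) : WithTop ℕ∞) = (n : WithTop ℕ∞) + 1 := by push_cast; rfl
        rw [this, contDiff_succ_iff_deriv] at h1
        exact ⟨h1.1, h1.2.2⟩
      refine ⟨fun i => (h' i).1, ⟨C, fun i t => ?_⟩, ?_⟩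
      · have := hC i 0 (by omega) t
        rwa [iteratedDeriv_zero] at this
      · refine Bd.of_contDiff (fun i => (h' i).2) ⟨C, fun i k hk t => ?_⟩
        have := hC i (k + 1) (by omega) t
        rwa [iteratedDeriv_succ'] at this

lemma Bd.cos_sin : ∀ n : ℕ, Bd n (fun (_ : ι) (t : ℝ) => Real.cos t) ∧
    Bd n (fun (_ : ι) (t : ℝ) => Real.sin t)
  | 0 => ⟨⟨fun _ => Real.continuous_cos, 1, fun _ t => Real.abs_cos_le_one t⟩,
      ⟨fun _ => Real.continuous_sin, 1, fun _ t => Real.abs_sin_le_one t⟩⟩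
  | (n + 1) => by
      obtain ⟨h1, h2⟩ := Bd.cos_sin n
      refine ⟨⟨fun _ => Real.differentiable_cos, ⟨1, fun _ t => Real.abs_cos_le_one t⟩, ?_⟩,
        ⟨fun _ => Real.differentiable_sin, ⟨1, fun _ t => Real.abs_sin_le_one t⟩, ?_⟩⟩
      · exact h2.neg.congr fun i t => by
          change deriv Real.cos t = _
          rw [Real.deriv_cos]
      · exact h1.congr fun i t => by
          change deriv Real.sin t = _
          rw [Real.deriv_sin]

/-- The inverse function. -/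
lemma Bd.invFun {n : ℕ} {w σ : ι → ℝ → ℝ} (hw : Bd n w)
    (hσ : ∀ i ψ, HasDerivAt (σ i) (w i (σ i ψ)) ψ) : ∀ m ≤ n, Bd m (fun i => deriv (σ i)) := by
  have hd : (fun i => deriv (σ i)) = fun i ψ => w i (σ i ψ) := by
    funext i ψ
    exact (hσ i ψ).deriv
  have hu : ∀ i, Differentiable ℝ (σ i) := fun i ψ => (hσ i ψ).differentiableAt
  intro m
  induction m with
  | zero =>
    intro _
    rw [hd]
    exact (hw.mono (Nat.zero_le _)).comp hu (fun m hm => by omega)
  | succ m ih =>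
    intro hm
    have h1 := ih (by omega)
    have h2 := (hw.mono hm).comp hu (fun k hk => h1.mono (by omega))
    rw [hd]
    exact h2

end G1
end LSB
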