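import Pool.Agent.LSB.PSq

/-!
# Part P, module PLoc: the local estimates near the origin

Both from `c ϖ α=1+(A-B)h(B,A)`, `A=α²`, `B=ϖ²`, `‖h+½‖≤1/8`, `|Im h|≤C(|Im B|+|Im A|)` (the conclusion of `exists_sq`).

`loc_near`.  `Im(A-B)=-2m`, `m=-Re α Im α+Re ϖ Im ϖ`.  If `Re ϖ≥0`: `m≥|Re α Im α|`, `m≥|Re ϖ Im ϖ|`.  If `Re ϖ<0`:
`|Re ϖ Im ϖ|≤2/3|Re α Im α|`, so `m≥1/3|Re α Im α|≥½|Re ϖ Im ϖ|`.  In all cases `m>0` and `|Im A|+|Im B|≤10m`.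
`Im(c)=Im(A-B)Re h+Re(A-B)Im h`, `|Im(A-B)Re h|≥2m·3/8`, `|Re(A-B)Im h|≤2ρ²·C·10m<m/2` for `ρ` small: `Im c≠0`.

`im_near`.  `c=1-v`, `v∈[0,2]` real.  `A-B=v q`, `q=-1/h`, `Re q>0`, `|Im q|=|Im h|/|h|²≤8C(|Im B|+|Im A|)`, `v=|A-B||h|≤ρ²·2`.  So
`|Im A-Im B|≤C'ρ²(|Im A|+|Im B|)`, hence `|Im A|≤(1+ε)|Im B|` with `ε=1/64` for `ρ` small, and `Re A≥Re B`.  With `α=x+iy`, `ϖ=p+iw`:
`x²-y²≥p²-w²`, `x²y²≤(1+ε)²p²w²`.  So `(y²+p²-w²)y²≤(1+ε)²p²w²`; the quadratic `t²+(p²-w²)t-Kp²w²` (`K=(1+ε)²≥1`) is positive for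
`t>Kw²`: at `t=Kw²(1+s)`, or: if `y²>Kw²` then `y²(y²+p²-w²)>Kw²(Kw²+p²-w²)≥Kw²p²` (when `w≠0`; if `w=0` then `y²(y²+p²)≤0` gives `y=0`), a
contradiction.  So `y²≤(1+ε)²w²`.
-/

namespace LSB

open Complex

/-- the radius used below -/
theorem radius_pos (C : ℝ) : 0 < 1 / (20 * (|C| + 1)) := by positivity

theorem near_bounds {h : ℂ → ℂ → ℂ} {ρ C : ℝ}
    (hh : ∀ B A : ℂ, ‖B‖ < ρ ^ 2 → ‖A‖ < ρ ^ 2 →
        ‖h B A + 1 / 2‖ ≤ 1 / 8 ∧ |(h B A).im| ≤ C * (|B.im| + |A.im|))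
    {ϖ α : ℂ} (h1 : ‖ϖ‖ < min ρ (1 / (20 * (|C| + 1)))) (h2 : ‖α‖ < min ρ (1 / (20 * (|C| + 1)))) :
    (h (ϖ ^ 2) (α ^ 2)).re ≤ -3 / 8 ∧
      |(α ^ 2 - ϖ ^ 2).re| * |(h (ϖ ^ 2) (α ^ 2)).im| ≤
        1 / 200 * (|(ϖ ^ 2).im| + |(α ^ 2).im|) := by
  have hϖ : ‖ϖ ^ 2‖ < ρ ^ 2 := by
    rw [norm_pow]
    exact pow_lt_pow_left₀ (lt_of_lt_of_le h1 (min_le_left _ _)) (norm_nonneg _) two_ne_zero
  have hα : ‖α ^ 2‖ < ρ ^ 2 := by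
    rw [norm_pow]
    exact pow_lt_pow_left₀ (lt_of_lt_of_le h2 (min_le_left _ _)) (norm_nonneg _) two_ne_zero
  obtain ⟨h3, h4⟩ := hh _ _ hϖ hα
  constructor
  · have h5 := (Complex.abs_re_le_norm _).trans h3
    rw [Complex.add_re] at h5
    have h6 := (abs_le.mp h5).2
    have h7 : ((1 / 2 : ℂ)).re = 1 / 2 := by norm_num
    rw [h7] at h6
    linarith
  · set S := |(ϖ ^ 2).im| + |(α ^ 2).im| with hS
    have hS0 : 0 ≤ S := by positivity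
    have h5 : |(h (ϖ ^ 2) (α ^ 2)).im| ≤ |C| * S :=
      h4.trans (mul_le_mul_of_nonneg_right (le_abs_self C) hS0)
    set t := 1 / (20 * (|C| + 1)) with ht
    have ht0 : 0 < t := radius_pos C
    have h6 : |(α ^ 2 - ϖ ^ 2).re| ≤ 2 * t ^ 2 := by
      calc |(α ^ 2 - ϖ ^ 2).re| ≤ ‖α ^ 2 - ϖ ^ 2‖ := Complex.abs_re_le_norm _
        _ ≤ ‖α ^ 2‖ + ‖ϖ ^ 2‖ := norm_sub_le _ _
        _ = ‖α‖ ^ 2 + ‖ϖ‖ ^ 2 := by rw [norm_pow, norm_pow]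
        _ ≤ t ^ 2 + t ^ 2 := by
            have a1 := (lt_of_lt_of_le h1 (min_le_right _ _)).le
            have a2 := (lt_of_lt_of_le h2 (min_le_right _ _)).le
            gcongr
        _ = 2 * t ^ 2 := by ring
    have h7 : 2 * t ^ 2 * |C| ≤ 1 / 200 := by
      have hC : 0 ≤ |C| := abs_nonneg C
      have h8 : t * (20 * (|C| + 1)) = 1 := by
        rw [ht]; field_simp
      have h9 : t * (|C| + 1) = 1 / 20 := by linarith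
      have h10 : t ≤ 1 / 20 := by
        have : t * 1 ≤ t * (|C| + 1) := by gcongr; linarith
        linarith
      have h11 : t * |C| ≤ 1 / 20 := by
        have : t * |C| ≤ t * (|C| + 1) := by gcongr; linarith
        linarith
      calc 2 * t ^ 2 * |C| = 2 * (t * (t * |C|)) := by ring
        _ ≤ 2 * (1 / 20 * (1 / 20)) := by gcongr
        _ = 1 / 200 := by norm_num
    calc |(α ^ 2 - ϖ ^ 2).re| * |(h (ϖ ^ 2) (α ^ 2)).im| ≤ (2 * t ^ 2) * (|C| * S) := by gcongr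
      _ = (2 * t ^ 2 * |C|) * S := by ring
      _ ≤ 1 / 200 * S := by gcongr

theorem sq_im (z : ℂ) : (z ^ 2).im = 2 * (z.re * z.im) := by
  rw [sq, Complex.mul_im]; ring

theorem sq_re (z : ℂ) : (z ^ 2).re = z.re ^ 2 - z.im ^ 2 := by
  rw [sq, Complex.mul_re]; ring

theorem loc_near {c h : ℂ → ℂ → ℂ} {ρ C : ℝ} (hρ : 0 < ρ)
    (hh : ∀ B A : ℂ, ‖B‖ < ρ ^ 2 → ‖A‖ < ρ ^ 2 →
        ‖h B A + 1 / 2‖ ≤ 1 / 8 ∧ |(h B A).im| ≤ C * (|B.im| + |A.im|))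
    (hc : ∀ ϖ α : ℂ, ‖ϖ‖ < ρ → ‖α‖ < ρ → c ϖ α = 1 + (α ^ 2 - ϖ ^ 2) * h (ϖ ^ 2) (α ^ 2)) :
    ∃ r > 0, r ≤ ρ ∧ ∀ ϖ α : ℂ, ‖ϖ‖ < r → ‖α‖ < r → 0 < ϖ.im → 0 < α.im → α.re < 0 →
      3 / 2 * (-ϖ.re * ϖ.im) ≤ -α.re * α.im → c ϖ α ∉ segm 1 := by
  refine ⟨min ρ (1 / (20 * (|C| + 1))), lt_min hρ (radius_pos C), min_le_left _ _, ?_⟩
  intro ϖ α h1 h2 h3 h4 h5 h6 hseg
  obtain ⟨h7, h8⟩ := near_bounds hh h1 h2
  have hcc := hc ϖ α (lt_of_lt_of_le h1 (min_le_left _ _)) (lt_of_lt_of_le h2 (min_le_left _ _))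
  have him : ((α ^ 2 - ϖ ^ 2) * h (ϖ ^ 2) (α ^ 2)).im = 0 := by
    have := hseg.1
    rw [hcc, Complex.add_im, Complex.one_im, zero_add] at this
    exact this
  rw [Complex.mul_im] at him
  set k := h (ϖ ^ 2) (α ^ 2) with hk
  have e1 : (α ^ 2 - ϖ ^ 2).im = 2 * (α.re * α.im) - 2 * (ϖ.re * ϖ.im) := by
    rw [Complex.sub_im, sq_im, sq_im]
  set X := -α.re * α.im with hX
  set W := -ϖ.re * ϖ.im with hW
  have hX0 : 0 < X := by rw [hX]; exact mul_pos (by linarith) h4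
  have e2 : (α ^ 2 - ϖ ^ 2).im = -2 * (X - W) := by rw [e1, hX, hW]; ring
  have e3 : |(ϖ ^ 2).im| = 2 * |W| := by
    rw [sq_im, abs_mul, abs_of_pos (by norm_num : (0:ℝ) < 2), hW, neg_mul, abs_neg]
  have e4 : |(α ^ 2).im| = 2 * X := by
    rw [sq_im, abs_mul, abs_of_pos (by norm_num : (0:ℝ) < 2), ← abs_of_pos hX0, hX, neg_mul, abs_neg]
  rw [e3, e4] at h8
  have h9 : 2 * |W| + 2 * X ≤ 10 * (X - W) := by
    rcases abs_cases W with ⟨hw, hw'⟩ | ⟨hw, hw'⟩ <;> rw [hw] <;> linarith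
  have h10 : 0 < X - W := by
    have : 0 ≤ |W| := abs_nonneg W
    linarith
  rw [e2] at him
  have h11 : 3 / 4 * (X - W) ≤ -2 * (X - W) * k.re := by nlinarith
  have h12 : -((α ^ 2 - ϖ ^ 2).re * k.im) ≤ |(α ^ 2 - ϖ ^ 2).re| * |k.im| := by
    rw [← abs_mul]; exact neg_le_abs _
  nlinarith

theorem im_near {c h : ℂ → ℂ → ℂ} {ρ C : ℝ} (hρ : 0 < ρ)
    (hh : ∀ B A : ℂ, ‖B‖ < ρ ^ 2 → ‖A‖ < ρ ^ 2 →
        ‖h B A + 1 / 2‖ ≤ 1 / 8 ∧ |(h B A).im| ≤ C * (|B.im| + |A.im|))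
    (hc : ∀ ϖ α : ℂ, ‖ϖ‖ < ρ → ‖α‖ < ρ → c ϖ α = 1 + (α ^ 2 - ϖ ^ 2) * h (ϖ ^ 2) (α ^ 2)) :
    ∃ r > 0, r ≤ ρ ∧ ∀ ϖ α : ℂ, ‖ϖ‖ < r → ‖α‖ < r → c ϖ α ∈ segm 1 →
      |α.im| ≤ 9 / 8 * |ϖ.im| := by
  refine ⟨min ρ (1 / (20 * (|C| + 1))), lt_min hρ (radius_pos C), min_le_left _ _, ?_⟩
  intro ϖ α h1 h2 hseg
  obtain ⟨h7, h8⟩ := near_bounds hh h1 h2
  have hcc := hc ϖ α (lt_of_lt_of_le h1 (min_le_left _ _)) (lt_of_lt_of_le h2 (min_le_left _ _))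
  set k := h (ϖ ^ 2) (α ^ 2) with hk
  set D := α ^ 2 - ϖ ^ 2 with hD
  have him : D.re * k.im + D.im * k.re = 0 := by
    have := hseg.1
    rw [hcc, Complex.add_im, Complex.one_im, zero_add, Complex.mul_im] at this
    exact this
  have hre : D.re * k.re - D.im * k.im ≤ 0 := by
    have h9 := (abs_le.mp hseg.2).2
    rw [hcc, Complex.add_re, Complex.one_re, Complex.mul_re] at h9
    linarith
  have hDre : 0 ≤ D.re := by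
    by_contra hneg
    push Not at hneg
    have e1 : (D.re * k.re - D.im * k.im) * k.re = D.re * (k.re ^ 2 + k.im ^ 2) := by
      have : D.im * k.re = -(D.re * k.im) := by linarith
      calc (D.re * k.re - D.im * k.im) * k.re = D.re * k.re ^ 2 - (D.im * k.re) * k.im := by ring
        _ = D.re * (k.re ^ 2 + k.im ^ 2) := by rw [this]; ring
    have e2 : 0 ≤ (D.re * k.re - D.im * k.im) * k.re :=
      mul_nonneg_of_nonpos_of_nonpos hre (by linarith)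
    rw [e1] at e2
    have e3 : 0 < k.re ^ 2 + k.im ^ 2 := by nlinarith [sq_nonneg k.im]
    nlinarith
  have hDim : 3 / 8 * |D.im| ≤ 1 / 200 * (|(ϖ ^ 2).im| + |(α ^ 2).im|) := by
    have e1 : |D.im| * |k.re| = |D.re| * |k.im| := by
      rw [← abs_mul, ← abs_mul, ← abs_neg (D.re * k.im)]
      congr 1
      linarith
    have e2 : 3 / 8 ≤ |k.re| := by
      rw [abs_of_nonpos (by linarith)]; linarith
    calc 3 / 8 * |D.im| ≤ |k.re| * |D.im| := by gcongr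
      _ = |D.re| * |k.im| := by rw [mul_comm, e1]
      _ ≤ _ := h8
  set a := (α ^ 2).im with ha
  set b := (ϖ ^ 2).im with hb
  have hab : D.im = a - b := by rw [hD, Complex.sub_im]
  have hA : |a| ≤ 9 / 8 * |b| := by
    have e1 : |a| - |b| ≤ |a - b| := abs_sub_abs_le_abs_sub a b
    rw [hab] at hDim
    linarith [abs_nonneg a, abs_nonneg b]
  have hX : (2 * (α.re * α.im)) ^ 2 ≤ (9 / 8) ^ 2 * (2 * (ϖ.re * ϖ.im)) ^ 2 := by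
    rw [← sq_im, ← sq_im, ← ha, ← hb, ← sq_abs a, ← sq_abs b, ← mul_pow]
    exact pow_le_pow_left₀ (abs_nonneg _) hA 2
  have hR : ϖ.re ^ 2 - ϖ.im ^ 2 ≤ α.re ^ 2 - α.im ^ 2 := by
    rw [← sq_re, ← sq_re]
    rw [hD, Complex.sub_re] at hDre
    linarith
  have hfin : α.im ^ 2 ≤ (9 / 8 * ϖ.im) ^ 2 := by
    by_contra hcon
    push Not at hcon
    have y0 : 0 < α.im ^ 2 := lt_of_le_of_lt (sq_nonneg _) hcon
    have e1 : ϖ.re ^ 2 < α.re ^ 2 := by nlinarith [sq_nonneg ϖ.im]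
    have e2 : ϖ.re ^ 2 * (9 / 8 * ϖ.im) ^ 2 < α.re ^ 2 * α.im ^ 2 := by
      calc ϖ.re ^ 2 * (9 / 8 * ϖ.im) ^ 2 ≤ ϖ.re ^ 2 * α.im ^ 2 := by gcongr
        _ < α.re ^ 2 * α.im ^ 2 := by gcongr
    nlinarith
  have := sq_le_sq.mp hfin
  rwa [abs_mul, abs_of_pos (by norm_num : (0:ℝ) < 9 / 8)] at this

end LSB
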