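import Pool.Agent.LSB.CData
import Pool.Agent.LSB.COsgood

/-!
# Part P, module PSq: functions of the squares near the origin

Paper proof.  `f(B,A)=c(√B,√A)` is continuous (local continuous branches of the root, evenness) and separately
differentiable (removable singularity at `0`), hence differentiable by `osgood`.
`F(B,T)=f(B,B+T)-1`, `G(B,T)=F(B,T)/T` (`dslope`) is differentiable by `osgood` again, and `h(B,A)=G(B,A-B)`.
`h(0,0)=-½` because `cos α=1+α²h(0,α²)`.  Near `(0,0)`: `‖h+½‖≤1/8` by continuity, and `|Im h(B,A)|=|Im(h(B,A)-h(Re B,Re A))|≤C(|Im B|+|Im A|)`.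
-/

namespace LSB

open Complex

namespace PSq

open Filter Topology

/-- a square root -/
noncomputable def rt (z : ℂ) : ℂ := z ^ ((2 : ℕ) : ℂ)⁻¹

lemma rt_sq (z : ℂ) : rt z ^ 2 = z := by
  unfold rt
  exact Complex.cpow_nat_inv_pow z two_ne_zero

lemma norm_rt_lt {z : ℂ} {s : ℂ} {r : ℝ} (hr : 0 < r) (h : s ^ 2 = z) (hz : ‖z‖ < r ^ 2) :
    ‖s‖ < r := by
  rw [← h, norm_pow] at hz
  exact lt_of_pow_lt_pow_left₀ 2 hr.le hz

lemma continuousAt_rt {z : ℂ} (hz : z ∈ slitPlane) : ContinuousAt rt z := by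
  unfold rt
  exact continuousAt_cpow_const hz

lemma differentiableAt_rt {z : ℂ} (hz : z ∈ slitPlane) : DifferentiableAt ℂ rt z := by
  unfold rt
  exact (differentiableAt_id).cpow_const hz

lemma continuousAt_zero_of_sq {s : ℂ → ℂ} (hs : ∀ z, s z ^ 2 = z) : ContinuousAt s 0 := by
  have h0 : s 0 = 0 := by
    have := hs 0
    exact pow_eq_zero_iff (two_ne_zero) |>.1 this
  rw [ContinuousAt, h0, Metric.tendsto_nhds]
  intro ε hε
  filter_upwards [Metric.ball_mem_nhds (0 : ℂ) (show 0 < ε ^ 2 by positivity)] with z hz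
  rw [dist_zero_right]
  rw [Metric.mem_ball, dist_zero_right] at hz
  exact norm_rt_lt hε (hs z) hz

/-- local branches of the square root -/
lemma exists_branch (z₀ : ℂ) : ∃ s : ℂ → ℂ, (∀ z, s z ^ 2 = z) ∧ ContinuousAt s z₀ ∧
    (z₀ ≠ 0 → DifferentiableAt ℂ s z₀) := by
  by_cases h0 : z₀ = 0
  · refine ⟨rt, rt_sq, ?_, fun h => absurd h0 h⟩
    rw [h0]
    exact continuousAt_zero_of_sq rt_sq
  by_cases h1 : z₀ ∈ slitPlane
  · exact ⟨rt, rt_sq, continuousAt_rt h1, fun _ => differentiableAt_rt h1⟩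
  · have h2 : -z₀ ∈ slitPlane := by
      rw [mem_slitPlane_iff] at h1 ⊢
      push Not at h1
      left
      have h3 : z₀.re ≠ 0 := fun h => h0 (Complex.ext h h1.2)
      have h4 : z₀.re < 0 := lt_of_le_of_ne h1.1 h3
      simpa using h4
    refine ⟨fun z => I * rt (-z), fun z => ?_, ?_, fun _ => ?_⟩
    · rw [mul_pow, rt_sq, I_sq]
      ring
    · have h3 : ContinuousAt (fun z : ℂ => -z) z₀ := continuous_neg.continuousAt
      have h4 : ContinuousAt (fun z : ℂ => rt (-z)) z₀ :=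
        ContinuousAt.comp (g := rt) (f := fun z : ℂ => -z) (continuousAt_rt h2) h3
      exact continuousAt_const.mul h4
    · have h3 : DifferentiableAt ℂ (fun z : ℂ => -z) z₀ := differentiableAt_id.neg
      have h4 : DifferentiableAt ℂ (fun z : ℂ => rt (-z)) z₀ :=
        DifferentiableAt.comp (g := rt) (f := fun z : ℂ => -z) z₀ (differentiableAt_rt h2) h3
      exact h4.const_mul I

/-- one-variable removable singularity -/
lemma differentiableAt_even {g f : ℂ → ℂ} {r : ℝ} (hr : 0 < r)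
    (hg : DifferentiableOn ℂ g (Metric.ball 0 r))
    (hf : ∀ s : ℂ, ‖s‖ < r → f (s ^ 2) = g s) {z : ℂ} (hz : ‖z‖ < r ^ 2) :
    DifferentiableAt ℂ f z := by
  -- away from zero
  have key : ∀ z : ℂ, ‖z‖ < r ^ 2 → z ≠ 0 → DifferentiableAt ℂ f z := by
    intro z hz hz0
    obtain ⟨s, hs, hc, hd⟩ := exists_branch z
    have hsd := hd hz0
    have hsz : ‖s z‖ < r := norm_rt_lt hr (hs z) hz
    have h1 : DifferentiableAt ℂ g (s z) :=
      hg.differentiableAt (Metric.isOpen_ball.mem_nhds (by simpa using hsz))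
    have h2 : DifferentiableAt ℂ (fun w => g (s w)) z :=
      DifferentiableAt.comp (g := g) (f := s) z h1 hsd
    refine h2.congr_of_eventuallyEq ?_
    have h3 : ∀ᶠ w in 𝓝 z, ‖w‖ < r ^ 2 :=
      (continuous_norm.continuousAt (x := z)).eventually_lt continuousAt_const hz
    filter_upwards [h3] with w hw
    have := hf (s w) (norm_rt_lt hr (hs w) hw)
    rw [hs w] at this
    exact this
  by_cases hz0 : z = 0
  · subst hz0
    have h1 : ∀ᶠ w in 𝓝[≠] (0 : ℂ), DifferentiableAt ℂ f w := by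
      have h3 : ∀ᶠ w in 𝓝 (0 : ℂ), ‖w‖ < r ^ 2 :=
        (continuous_norm.continuousAt (x := (0 : ℂ))).eventually_lt continuousAt_const hz
      filter_upwards [h3.filter_mono nhdsWithin_le_nhds, self_mem_nhdsWithin] with w hw hw0
      exact key w hw hw0
    have h2 : ContinuousAt f 0 := by
      have h4 : ContinuousAt (fun w => g (rt w)) 0 := by
        have h5 : rt 0 = 0 := by
          have := rt_sq 0
          exact pow_eq_zero_iff (two_ne_zero) |>.1 this
        have h6 : ContinuousAt g (rt 0) := by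
          rw [h5]
          exact (hg.differentiableAt (Metric.ball_mem_nhds 0 hr)).continuousAt
        exact ContinuousAt.comp (g := g) (f := rt) h6 (continuousAt_zero_of_sq rt_sq)
      refine h4.congr ?_
      have h3 : ∀ᶠ w in 𝓝 (0 : ℂ), ‖w‖ < r ^ 2 :=
        (continuous_norm.continuousAt (x := (0 : ℂ))).eventually_lt continuousAt_const hz
      filter_upwards [h3] with w hw
      have := hf (rt w) (norm_rt_lt hr (rt_sq w) hw)
      rw [rt_sq w] at this
      exact this.symm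
    exact (Complex.analyticAt_of_differentiable_on_punctured_nhds_of_continuousAt h1
      h2).differentiableAt
  · exact key z hz hz0

/-- the open bidisc -/
def Bd (r : ℝ) : Set (ℂ × ℂ) := {p : ℂ × ℂ | ‖p.1‖ < r ∧ ‖p.2‖ < r}

lemma isOpen_Bd (r : ℝ) : IsOpen (Bd r) := by
  have h1 : Continuous (fun p : ℂ × ℂ => ‖p.1‖) := by fun_prop
  have h2 : Continuous (fun p : ℂ × ℂ => ‖p.2‖) := by fun_prop
  exact (isOpen_lt h1 continuous_const).inter (isOpen_lt h2 continuous_const)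

/-- `f(ϖ²,α²)=c(ϖ,α)` with `f` differentiable. -/
lemma exists_f {c : ℂ → ℂ → ℂ} {r : ℝ} (hr : 0 < r)
    (hd : DifferentiableOn ℂ (fun p : ℂ × ℂ => c p.1 p.2) (Bd r))
    (even₁ : ∀ ϖ α : ℂ, ‖ϖ‖ < r → ‖α‖ < r → c (-ϖ) α = c ϖ α)
    (even₂ : ∀ ϖ α : ℂ, ‖ϖ‖ < r → ‖α‖ < r → c ϖ (-α) = c ϖ α) :
    ∃ f : ℂ → ℂ → ℂ, DifferentiableOn ℂ (fun p : ℂ × ℂ => f p.1 p.2) (Bd (r ^ 2)) ∧
      ∀ ϖ α : ℂ, ‖ϖ‖ < r → ‖α‖ < r → f (ϖ ^ 2) (α ^ 2) = c ϖ α := by
  set f : ℂ → ℂ → ℂ := fun B A => c (rt B) (rt A) with hf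
  have hfc : ∀ ϖ α : ℂ, ‖ϖ‖ < r → ‖α‖ < r → f (ϖ ^ 2) (α ^ 2) = c ϖ α := by
    intro ϖ α h1 h2
    have e1 : rt (ϖ ^ 2) = ϖ ∨ rt (ϖ ^ 2) = -ϖ := by
      have := rt_sq (ϖ ^ 2)
      exact sq_eq_sq_iff_eq_or_eq_neg.1 this
    have e2 : rt (α ^ 2) = α ∨ rt (α ^ 2) = -α := by
      have := rt_sq (α ^ 2)
      exact sq_eq_sq_iff_eq_or_eq_neg.1 this
    have h1' : ‖-ϖ‖ < r := by rwa [norm_neg]
    have h2' : ‖-α‖ < r := by rwa [norm_neg]
    simp only [hf]
    rcases e1 with e1 | e1 <;> rcases e2 with e2 | e2 <;> rw [e1, e2]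
    · exact even₂ ϖ α h1 h2
    · exact even₁ ϖ α h1 h2
    · rw [even₂ (-ϖ) α h1' h2, even₁ ϖ α h1 h2]
  have hr2 : 0 < r ^ 2 := by positivity
  refine ⟨f, ?_, hfc⟩
  apply osgood (isOpen_Bd _)
  · intro p hp
    obtain ⟨s, hs, hsc, -⟩ := exists_branch p.1
    obtain ⟨t, ht, htc, -⟩ := exists_branch p.2
    have h1 : ‖s p.1‖ < r := norm_rt_lt hr (hs _) hp.1
    have h2 : ‖t p.2‖ < r := norm_rt_lt hr (ht _) hp.2
    have h3 : ContinuousAt (fun q : ℂ × ℂ => c q.1 q.2) (s p.1, t p.2) :=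
      hd.continuousOn.continuousAt ((isOpen_Bd r).mem_nhds ⟨h1, h2⟩)
    have h4 : ContinuousAt (fun q : ℂ × ℂ => (s q.1, t q.2)) p := by
      have a1 : ContinuousAt (fun q : ℂ × ℂ => s q.1) p :=
        ContinuousAt.comp (g := s) (f := Prod.fst) hsc continuousAt_fst
      have a2 : ContinuousAt (fun q : ℂ × ℂ => t q.2) p :=
        ContinuousAt.comp (g := t) (f := Prod.snd) htc continuousAt_snd
      exact a1.prodMk a2
    have h5 : ContinuousAt (fun q : ℂ × ℂ => c (s q.1) (t q.2)) p :=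
      ContinuousAt.comp (g := fun q : ℂ × ℂ => c q.1 q.2) (f := fun q : ℂ × ℂ => (s q.1, t q.2))
        h3 h4
    refine (h5.congr ?_).continuousWithinAt
    filter_upwards [(isOpen_Bd (r ^ 2)).mem_nhds hp] with q hq
    have := hfc (s q.1) (t q.2) (norm_rt_lt hr (hs _) hq.1) (norm_rt_lt hr (ht _) hq.2)
    rw [hs, ht] at this
    exact this.symm
  · intro p hp
    have h2 : ‖rt p.2‖ < r := norm_rt_lt hr (rt_sq _) hp.2
    refine differentiableAt_even (g := fun z => c z (rt p.2)) hr ?_ ?_ hp.1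
    · intro z hz
      have hz' : ‖z‖ < r := by simpa using hz
      have h3 : DifferentiableAt ℂ (fun q : ℂ × ℂ => c q.1 q.2) (z, rt p.2) :=
        hd.differentiableAt ((isOpen_Bd r).mem_nhds ⟨hz', h2⟩)
      exact (DifferentiableAt.comp (g := fun q : ℂ × ℂ => c q.1 q.2)
        (f := fun z : ℂ => (z, rt p.2)) z h3 (differentiableAt_id.prodMk
        (differentiableAt_const _))).differentiableWithinAt
    · intro s hs
      have := hfc s (rt p.2) hs h2
      rw [rt_sq] at this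
      exact this
  · intro p hp
    have h2 : ‖rt p.1‖ < r := norm_rt_lt hr (rt_sq _) hp.1
    refine differentiableAt_even (g := fun z => c (rt p.1) z) hr ?_ ?_ hp.2
    · intro z hz
      have hz' : ‖z‖ < r := by simpa using hz
      have h3 : DifferentiableAt ℂ (fun q : ℂ × ℂ => c q.1 q.2) (rt p.1, z) :=
        hd.differentiableAt ((isOpen_Bd r).mem_nhds ⟨h2, hz'⟩)
      exact (DifferentiableAt.comp (g := fun q : ℂ × ℂ => c q.1 q.2)
        (f := fun z : ℂ => (rt p.1, z)) z h3 ((differentiableAt_const _).prodMk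
        differentiableAt_id)).differentiableWithinAt
    · intro s hs
      have := hfc (rt p.1) s h2 hs
      rw [rt_sq] at this
      exact this

/-- division by the second variable -/
lemma exists_div {F : ℂ × ℂ → ℂ} {r : ℝ} (hF : DifferentiableOn ℂ F (Bd r))
    (h0 : ∀ B : ℂ, ‖B‖ < r → F (B, 0) = 0) :
    ∃ G : ℂ × ℂ → ℂ, DifferentiableOn ℂ G (Bd r) ∧
      ∀ p ∈ Bd r, F p = p.2 * G p := by
  set G : ℂ × ℂ → ℂ := fun p => if p.2 = 0 then deriv (fun w => F (p.1, w)) 0 else F p / p.2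
    with hG
  have hU := isOpen_Bd r
  have hc := hF.continuousOn
  have h₁ := COsg.part₁ hU hF
  have h₂ := COsg.part₂ hU hF
  have hdslope : ∀ B : ℂ, ‖B‖ < r → (fun w => G (B, w)) = dslope (fun w => F (B, w)) 0 := by
    intro B hB
    funext w
    by_cases hw : w = 0
    · subst hw
      simp [hG]
    · rw [dslope_of_ne _ hw, slope_def_field]
      simp [hG, hw, h0 B hB]
  refine ⟨G, ?_, ?_⟩
  · apply osgood hU
    · intro p hp
      by_cases hp2 : p.2 = 0
      · obtain ⟨B₀, T₀⟩ := p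
        simp only at hp2
        subst hp2
        have hG0 : G (B₀, 0) = deriv (fun w => F (B₀, w)) 0 := by simp [hG]
        have hst := (COsg.strict hU hc h₁ h₂ hp).isLittleO
        have hcp := COsg.cont_partial' hU hc h₂ hp
        have goal : ContinuousAt G (B₀, 0) := by
          rw [ContinuousAt, hG0, Metric.tendsto_nhds]
          intro ε hε
          have e2 : Tendsto (fun y : ℂ × ℂ => (y, (y.1, (0 : ℂ)))) (𝓝 (B₀, 0))
              (𝓝 ((B₀, 0), (B₀, 0))) := by
            have h1 : Continuous (fun y : ℂ × ℂ => (y, (y.1, (0 : ℂ)))) := by fun_prop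
            exact h1.tendsto (B₀, 0)
          have h3 := hst.comp_tendsto e2
          rw [Asymptotics.isLittleO_iff] at h3
          have e4 : Tendsto (fun y : ℂ × ℂ => (y.1, (0 : ℂ))) (𝓝 (B₀, 0)) (𝓝 (B₀, 0)) := by
            have h1 : Continuous (fun y : ℂ × ℂ => (y.1, (0 : ℂ))) := by fun_prop
            exact h1.tendsto (B₀, 0)
          have h5 := (hcp.tendsto.comp e4)
          rw [Metric.tendsto_nhds] at h5
          filter_upwards [h3 (half_pos hε), h5 ε hε, hU.mem_nhds hp] with y hy hy5 hyU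
          obtain ⟨B, T⟩ := y
          by_cases hT : T = 0
          · subst hT
            simp only [Function.comp] at hy5
            simpa [hG] using hy5
          · simp only [Function.comp, Prod.mk_sub_mk, sub_self, sub_zero,
              ContinuousLinearMap.coprod_apply, ContinuousLinearMap.toSpanSingleton_apply,
              smul_eq_mul, zero_mul, zero_add, h0 B hyU.1] at hy
            have hn : ‖((0, T) : ℂ × ℂ)‖ = ‖T‖ := by
              rw [Prod.norm_def]
              simp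
            rw [hn] at hy
            have hpos : 0 < ‖T‖ := norm_pos_iff.2 hT
            have h6 : G (B, T) - deriv (fun w => F (B₀, w)) 0 =
                (F (B, T) - T * deriv (fun w => F (B₀, w)) 0) / T := by
              simp only [hG, hT, if_false]
              field_simp
            rw [dist_eq_norm, h6, norm_div, div_lt_iff₀ hpos]
            have : ε / 2 * ‖T‖ < ε * ‖T‖ := by
              apply mul_lt_mul_of_pos_right _ hpos
              linarith
            exact lt_of_le_of_lt hy this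
        exact goal.continuousWithinAt
      · have h1 : ContinuousAt (fun q : ℂ × ℂ => F q / q.2) p :=
          (hc.continuousAt (hU.mem_nhds hp)).div continuousAt_snd hp2
        refine (h1.congr ?_).continuousWithinAt
        have h2 : ∀ᶠ q : ℂ × ℂ in 𝓝 p, q.2 ≠ 0 := continuousAt_snd.eventually_ne hp2
        filter_upwards [h2] with q hq
        simp [hG, hq]
    · intro p hp
      by_cases hp2 : p.2 = 0
      · have h1 := differentiableOn_partial_snd hU hF
        have h2 : DifferentiableAt ℂ (fun q : ℂ × ℂ => deriv (fun w => F (q.1, w)) q.2)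
            (p.1, p.2) := h1.differentiableAt (hU.mem_nhds hp)
        have h3 : DifferentiableAt ℂ (fun z : ℂ => deriv (fun w => F (z, w)) p.2) p.1 :=
          DifferentiableAt.comp (g := fun q : ℂ × ℂ => deriv (fun w => F (q.1, w)) q.2)
            (f := fun z : ℂ => (z, p.2)) p.1 h2
            (differentiableAt_id.prodMk (differentiableAt_const _))
        have h4 : (fun z => G (z, p.2)) = fun z : ℂ => deriv (fun w => F (z, w)) p.2 := by
          funext z
          simp [hG, hp2]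
        rw [h4]
        exact h3
      · have h4 : (fun z => G (z, p.2)) = fun z : ℂ => F (z, p.2) / p.2 := by
          funext z
          simp [hG, hp2]
        rw [h4]
        exact (h₁ p hp).div_const _
    · intro p hp
      rw [hdslope p.1 hp.1]
      have hb : Metric.ball (0 : ℂ) r ∈ 𝓝 p.2 :=
        Metric.isOpen_ball.mem_nhds (by simpa using hp.2)
      have hr : 0 < r := lt_of_le_of_lt (norm_nonneg _) hp.1
      have h5 : DifferentiableOn ℂ (fun w => F (p.1, w)) (Metric.ball 0 r) := by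
        intro w hw
        exact (h₂ (p.1, w) ⟨hp.1, by simpa using hw⟩).differentiableWithinAt
      have h6 := (Complex.differentiableOn_dslope (c := (0 : ℂ)) (f := fun w => F (p.1, w))
        (Metric.ball_mem_nhds 0 hr)).2 h5
      exact h6.differentiableAt hb
  · intro p hp
    obtain ⟨B, T⟩ := p
    by_cases hT : T = 0
    · subst hT
      simp [h0 B hp.1]
    · simp only [hG, hT, if_false]
      field_simp

lemma deriv_half : ∀ G : ℂ → ℂ, ContinuousAt G 0 →
    (∀ᶠ s : ℂ in 𝓝 0, cos s = 1 + s ^ 2 * G (s ^ 2)) → G 0 = -1 / 2 := by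
  intro G hG h
  have h1 : Tendsto (fun x : ℝ => G ((x : ℂ) ^ 2)) (𝓝[≠] 0) (𝓝 (G 0)) := by
    have h2 : Continuous (fun x : ℝ => (x : ℂ) ^ 2) := by fun_prop
    have h3 : Tendsto (fun x : ℝ => (x : ℂ) ^ 2) (𝓝 0) (𝓝 0) := by
      have := h2.tendsto 0
      simpa using this
    exact (hG.tendsto.comp h3).mono_left nhdsWithin_le_nhds
  have h4 : Tendsto (fun x : ℝ => (cos (x : ℂ) - 1) / (x : ℂ) ^ 2) (𝓝[≠] 0) (𝓝 (-1 / 2)) := by
    rw [tendsto_iff_norm_sub_tendsto_zero]
    have h5 : Tendsto (fun x : ℝ => |x| ^ 2 * (5 / 96)) (𝓝[≠] 0) (𝓝 0) := by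
      have : Continuous (fun x : ℝ => |x| ^ 2 * (5 / 96)) := by fun_prop
      have h6 := this.tendsto 0
      have h6' : |(0 : ℝ)| ^ 2 * (5 / 96) = 0 := by norm_num
      rw [h6'] at h6
      exact h6.mono_left nhdsWithin_le_nhds
    refine squeeze_zero' (Eventually.of_forall fun _ => norm_nonneg _) ?_ h5
    have h7 : ∀ᶠ x : ℝ in 𝓝 0, |x| ≤ 1 := by
      filter_upwards [Metric.ball_mem_nhds (0 : ℝ) one_pos] with x hx
      rw [Metric.mem_ball, dist_zero_right] at hx
      exact hx.le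
    filter_upwards [h7.filter_mono nhdsWithin_le_nhds, self_mem_nhdsWithin] with x hx hx0
    have hx0' : x ≠ 0 := hx0
    have hxc : (x : ℂ) ≠ 0 := by exact_mod_cast hx0'
    have h8 : (cos (x : ℂ) - 1) / (x : ℂ) ^ 2 - -1 / 2 =
        ((Real.cos x - (1 - x ^ 2 / 2) : ℝ) : ℂ) / (x : ℂ) ^ 2 := by
      push_cast
      field_simp
      ring
    rw [h8, norm_div, Complex.norm_real, norm_pow, Complex.norm_real, Real.norm_eq_abs,
      Real.norm_eq_abs]
    have hpos : 0 < |x| := abs_pos.2 hx0'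
    rw [div_le_iff₀ (by positivity)]
    calc |Real.cos x - (1 - x ^ 2 / 2)| ≤ |x| ^ 4 * (5 / 96) := Real.cos_bound hx
      _ = |x| ^ 2 * (5 / 96) * |x| ^ 2 := by ring
  have h9 : Tendsto (fun x : ℝ => G ((x : ℂ) ^ 2)) (𝓝[≠] 0) (𝓝 (-1 / 2)) := by
    refine h4.congr' ?_
    have h10 : Tendsto (fun x : ℝ => (x : ℂ)) (𝓝 0) (𝓝 0) := by
      have h2 : Continuous (fun x : ℝ => (x : ℂ)) := by fun_prop
      simpa using h2.tendsto 0
    filter_upwards [(h10.eventually h).filter_mono nhdsWithin_le_nhds, self_mem_nhdsWithin]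
      with x hx hx0
    have hx0' : x ≠ 0 := hx0
    have hxc : (x : ℂ) ≠ 0 := by exact_mod_cast hx0'
    rw [hx]
    field_simp
    ring
  exact tendsto_nhds_unique h1 h9

end PSq

open PSq Filter Topology

theorem exists_sq {c : ℂ → ℂ → ℂ} {r : ℝ} (hr : 0 < r)
    (hd : DifferentiableOn ℂ (fun p : ℂ × ℂ => c p.1 p.2) {p : ℂ × ℂ | ‖p.1‖ < r ∧ ‖p.2‖ < r})
    (even₁ : ∀ ϖ α : ℂ, ‖ϖ‖ < r → ‖α‖ < r → c (-ϖ) α = c ϖ α)
    (even₂ : ∀ ϖ α : ℂ, ‖ϖ‖ < r → ‖α‖ < r → c ϖ (-α) = c ϖ α)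
    (conj : ∀ ϖ α : ℂ, ‖ϖ‖ < r → ‖α‖ < r →
      c (starRingEnd ℂ ϖ) (starRingEnd ℂ α) = starRingEnd ℂ (c ϖ α))
    (zero : ∀ α : ℂ, ‖α‖ < r → c 0 α = cos α) (diag : ∀ ϖ : ℂ, ‖ϖ‖ < r → c ϖ ϖ = 1) :
    ∃ ρ > 0, ρ ≤ r ∧ ∃ C : ℝ, ∃ h : ℂ → ℂ → ℂ,
      (∀ B A : ℂ, ‖B‖ < ρ ^ 2 → ‖A‖ < ρ ^ 2 →
        ‖h B A + 1 / 2‖ ≤ 1 / 8 ∧ |(h B A).im| ≤ C * (|B.im| + |A.im|)) ∧
      ∀ ϖ α : ℂ, ‖ϖ‖ < ρ → ‖α‖ < ρ → c ϖ α = 1 + (α ^ 2 - ϖ ^ 2) * h (ϖ ^ 2) (α ^ 2) := by
  obtain ⟨f, hfd, hfc⟩ := exists_f hr hd even₁ even₂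
  have hr2 : 0 < r ^ 2 := by positivity
  -- `F(B,T)=f(B,B+T)-1`
  set R : ℝ := r ^ 2 / 2 with hR
  have hR0 : 0 < R := by positivity
  have hmem : ∀ p ∈ Bd R, ‖p.1‖ < r ^ 2 ∧ ‖p.1 + p.2‖ < r ^ 2 := by
    intro p hp
    have h1 := hp.1
    have h2 := hp.2
    refine ⟨by linarith, ?_⟩
    have := norm_add_le p.1 p.2
    linarith
  set F : ℂ × ℂ → ℂ := fun p => f p.1 (p.1 + p.2) - 1 with hF
  have hFd : DifferentiableOn ℂ F (Bd R) := by
    intro p hp
    have h1 : DifferentiableAt ℂ (fun q : ℂ × ℂ => f q.1 q.2) (p.1, p.1 + p.2) :=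
      hfd.differentiableAt ((isOpen_Bd _).mem_nhds (hmem p hp))
    have h2 : DifferentiableAt ℂ (fun q : ℂ × ℂ => (q.1, q.1 + q.2)) p :=
      differentiableAt_fst.prodMk (differentiableAt_fst.add differentiableAt_snd)
    have h3 : DifferentiableAt ℂ (fun q : ℂ × ℂ => f q.1 (q.1 + q.2)) p :=
      DifferentiableAt.comp (g := fun q : ℂ × ℂ => f q.1 q.2)
        (f := fun q : ℂ × ℂ => (q.1, q.1 + q.2)) p h1 h2
    exact (h3.sub_const 1).differentiableWithinAt
  have hF0 : ∀ B : ℂ, ‖B‖ < R → F (B, 0) = 0 := by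
    intro B hB
    have h1 : ‖rt B‖ < r := norm_rt_lt hr (rt_sq B) (by linarith)
    have h2 := hfc (rt B) (rt B) h1 h1
    rw [rt_sq, diag _ h1] at h2
    simp [hF, h2]
  obtain ⟨G, hGd, hGF⟩ := exists_div hFd hF0
  have h00 : ((0 : ℂ), (0 : ℂ)) ∈ Bd R := by
    constructor <;> simpa using hR0
  -- value at the origin
  have hG0 : G (0, 0) = -1 / 2 := by
    apply deriv_half (fun T => G (0, T))
    · have h1 := (hGd.differentiableAt ((isOpen_Bd R).mem_nhds h00)).continuousAt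
      have h2 : ContinuousAt (fun T : ℂ => ((0 : ℂ), T)) 0 := by fun_prop
      exact ContinuousAt.comp (g := G) (f := fun T : ℂ => ((0 : ℂ), T)) h1 h2
    · have h3 : ∀ᶠ s : ℂ in 𝓝 0, ‖s‖ < r :=
        (continuous_norm.continuousAt (x := (0 : ℂ))).eventually_lt continuousAt_const
          (by simpa using hr)
      have h4 : ∀ᶠ s : ℂ in 𝓝 0, ‖s ^ 2‖ < R := by
        have h5 : Continuous (fun s : ℂ => ‖s ^ 2‖) := by fun_prop
        exact (h5.continuousAt (x := (0 : ℂ))).eventually_lt continuousAt_const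
          (by simpa using hR0)
      filter_upwards [h3, h4] with s hs hs2
      have h6 := hGF (0, s ^ 2) ⟨by simpa using hR0, hs2⟩
      have h7 := hfc 0 s (by simpa using hr) hs
      rw [zero s hs] at h7
      simp only [hF] at h6
      rw [← h6, ← h7]
      simp
  -- symmetry of `G`
  have hFconj : ∀ p ∈ Bd R, F (starRingEnd ℂ p.1, starRingEnd ℂ p.2) = starRingEnd ℂ (F p) := by
    intro p hp
    have h1 := hmem p hp
    have a1 : ‖rt p.1‖ < r := norm_rt_lt hr (rt_sq _) h1.1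
    have a2 : ‖rt (p.1 + p.2)‖ < r := norm_rt_lt hr (rt_sq _) h1.2
    have b1 : ‖starRingEnd ℂ (rt p.1)‖ < r := by rwa [RCLike.norm_conj]
    have b2 : ‖starRingEnd ℂ (rt (p.1 + p.2))‖ < r := by rwa [RCLike.norm_conj]
    have h2 := hfc _ _ a1 a2
    have h3 := hfc _ _ b1 b2
    rw [conj _ _ a1 a2, ← map_pow, ← map_pow, rt_sq, rt_sq] at h3
    rw [rt_sq, rt_sq] at h2
    simp only [hF, map_sub, map_one]
    rw [h2, ← h3, map_add]
  have hGreal : ∀ B T : ℂ, (B, T) ∈ Bd R → B.im = 0 → T.im = 0 → T ≠ 0 → (G (B, T)).im = 0 := by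
    intro B T hp hB hT hT0
    have h1 := hFconj (B, T) hp
    have hB' : starRingEnd ℂ B = B := Complex.conj_eq_iff_im.2 hB
    have hT' : starRingEnd ℂ T = T := Complex.conj_eq_iff_im.2 hT
    simp only [hB', hT'] at h1
    have h2 : (F (B, T)).im = 0 := Complex.conj_eq_iff_im.1 h1.symm
    have h3 := hGF (B, T) hp
    simp only at h3
    have h4 : G (B, T) = F (B, T) / T := by
      rw [h3]
      field_simp
    have hT'' : T = (T.re : ℂ) := Complex.ext (by simp) (by simpa using hT)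
    rw [h4, hT'', Complex.div_ofReal_im, ← hT'', h2, zero_div]
  have hGreal' : ∀ B T : ℂ, (B, T) ∈ Bd R → B.im = 0 → T.im = 0 → (G (B, T)).im = 0 := by
    intro B T hp hB hT
    by_cases hT0 : T = 0
    · subst hT0
      have h1 : ContinuousAt G (B, 0) :=
        (hGd.differentiableAt ((isOpen_Bd R).mem_nhds hp)).continuousAt
      have h2 : Tendsto (fun x : ℝ => (G (B, (x : ℂ))).im) (𝓝[≠] 0) (𝓝 (G (B, 0)).im) := by
        have h3 : Tendsto (fun x : ℝ => (B, (x : ℂ))) (𝓝 0) (𝓝 (B, 0)) := by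
          have h4 : Continuous (fun x : ℝ => (B, (x : ℂ))) := by fun_prop
          simpa using h4.tendsto 0
        exact ((Complex.continuous_im.tendsto _).comp (h1.tendsto.comp h3)).mono_left
          nhdsWithin_le_nhds
      have h5 : Tendsto (fun x : ℝ => (G (B, (x : ℂ))).im) (𝓝[≠] 0) (𝓝 0) := by
        refine tendsto_const_nhds.congr' ?_
        have h6 : ∀ᶠ x : ℝ in 𝓝 0, ‖(x : ℂ)‖ < R := by
          have h7 : Continuous (fun x : ℝ => ‖(x : ℂ)‖) := by fun_prop
          exact (h7.continuousAt (x := (0 : ℝ))).eventually_lt continuousAt_const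
            (by simpa using hR0)
        filter_upwards [h6.filter_mono nhdsWithin_le_nhds, self_mem_nhdsWithin] with x hx hx0
        have hx0' : x ≠ 0 := hx0
        exact (hGreal B x ⟨hp.1, hx⟩ hB (by simp) (by exact_mod_cast hx0')).symm
      exact tendsto_nhds_unique h2 h5
    · exact hGreal B T hp hB hT hT0
  -- Lipschitz bound
  have hst := COsg.strict (isOpen_Bd R) hGd.continuousOn (COsg.part₁ (isOpen_Bd R) hGd)
    (COsg.part₂ (isOpen_Bd R) hGd) h00
  obtain ⟨K, s, hs, hK⟩ := hst.exists_lipschitzOnWith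
  have hcont : ContinuousAt G (0, 0) :=
    (hGd.differentiableAt ((isOpen_Bd R).mem_nhds h00)).continuousAt
  have hnear : ∀ᶠ p in 𝓝 ((0 : ℂ), (0 : ℂ)), ‖G p + 1 / 2‖ < 1 / 8 := by
    have h1 : ContinuousAt (fun p => ‖G p + 1 / 2‖) ((0 : ℂ), (0 : ℂ)) :=
      (hcont.add continuousAt_const).norm
    refine h1.eventually_lt continuousAt_const ?_
    simp only [hG0]
    norm_num
  obtain ⟨δ, hδ, hδs⟩ := Metric.mem_nhds_iff.1
    (inter_mem (inter_mem hs hnear) ((isOpen_Bd R).mem_nhds h00))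
  set ρ : ℝ := min r (Real.sqrt (δ / 4)) with hρ
  have hρ0 : 0 < ρ := lt_min hr (Real.sqrt_pos.2 (by positivity))
  have hρ2 : ρ ^ 2 ≤ δ / 4 := by
    have h1 : ρ ≤ Real.sqrt (δ / 4) := min_le_right _ _
    calc ρ ^ 2 ≤ (Real.sqrt (δ / 4)) ^ 2 := pow_le_pow_left₀ hρ0.le h1 2
      _ = δ / 4 := Real.sq_sqrt (by positivity)
  have hin : ∀ B A : ℂ, ‖B‖ < ρ ^ 2 → ‖A‖ < ρ ^ 2 →
      (B, A - B) ∈ Metric.ball ((0 : ℂ), (0 : ℂ)) δ := by
    intro B A hB hA
    rw [Metric.mem_ball, dist_eq_norm, Prod.mk_sub_mk, sub_zero, sub_zero, Prod.norm_def]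
    have h1 := norm_sub_le A B
    apply max_lt
    · simp only
      linarith
    · simp only
      linarith
  refine ⟨ρ, hρ0, min_le_left _ _, K, fun B A => G (B, A - B), ?_, ?_⟩
  · intro B A hB hA
    have h1 := hδs (hin B A hB hA)
    have hBr : ‖(B.re : ℂ)‖ ≤ ‖B‖ := by
      rw [Complex.norm_real, Real.norm_eq_abs]
      exact Complex.abs_re_le_norm B
    have hAr : ‖(A.re : ℂ)‖ ≤ ‖A‖ := by
      rw [Complex.norm_real, Real.norm_eq_abs]
      exact Complex.abs_re_le_norm A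
    have h2 := hδs (hin B.re A.re (lt_of_le_of_lt hBr hB) (lt_of_le_of_lt hAr hA))
    refine ⟨(show ‖G (B, A - B) + 1 / 2‖ < 1 / 8 from h1.1.2).le, ?_⟩
    have h3 : (G ((B.re : ℂ), (A.re : ℂ) - (B.re : ℂ))).im = 0 :=
      hGreal' _ _ h2.2 (by simp) (by simp)
    have h4 := hK.dist_le_mul _ h1.1.1 _ h2.1.1
    have h5 : |(G (B, A - B)).im| ≤ dist (G (B, A - B)) (G ((B.re : ℂ), (A.re : ℂ) - (B.re : ℂ))) := by
      rw [dist_eq_norm]
      refine le_trans ?_ (Complex.abs_im_le_norm _)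
      rw [Complex.sub_im, h3, sub_zero]
    refine h5.trans (h4.trans ?_)
    apply mul_le_mul_of_nonneg_left _ K.2
    rw [dist_eq_norm, Prod.mk_sub_mk, Prod.norm_def]
    have e1 : ‖B - (B.re : ℂ)‖ = |B.im| := by
      have : B - (B.re : ℂ) = (B.im : ℂ) * I := by
        apply Complex.ext <;> simp
      rw [this, norm_mul, Complex.norm_I, mul_one, Complex.norm_real, Real.norm_eq_abs]
    have e2 : ‖A - (A.re : ℂ)‖ = |A.im| := by
      have : A - (A.re : ℂ) = (A.im : ℂ) * I := by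
        apply Complex.ext <;> simp
      rw [this, norm_mul, Complex.norm_I, mul_one, Complex.norm_real, Real.norm_eq_abs]
    apply max_le
    · simp only
      rw [e1]
      have := abs_nonneg A.im
      linarith
    · simp only
      have e3 : A - B - ((A.re : ℂ) - (B.re : ℂ)) = (A - (A.re : ℂ)) - (B - (B.re : ℂ)) := by ring
      rw [e3]
      have := norm_sub_le (A - (A.re : ℂ)) (B - (B.re : ℂ))
      rw [e1, e2] at this
      linarith
  · intro ϖ α hϖ hα
    have hϖr : ‖ϖ‖ < r := lt_of_lt_of_le hϖ (min_le_left _ _)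
    have hαr : ‖α‖ < r := lt_of_lt_of_le hα (min_le_left _ _)
    have h1 : ‖ϖ ^ 2‖ < ρ ^ 2 := by
      rw [norm_pow]
      exact pow_lt_pow_left₀ hϖ (norm_nonneg _) two_ne_zero
    have h2 : ‖α ^ 2‖ < ρ ^ 2 := by
      rw [norm_pow]
      exact pow_lt_pow_left₀ hα (norm_nonneg _) two_ne_zero
    have h3 := hδs (hin _ _ h1 h2)
    have h4 := hGF _ h3.2
    have h5 := hfc ϖ α hϖr hαr
    simp only [hF] at h4
    rw [add_sub_cancel, h5] at h4
    simp only
    rw [← h4]
    ring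

end LSB
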