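import Pool.Agent.LSB.Defs
import Pool.Agent.LSB.TopA
import Pool.Agent.LSB.TopK
import Pool.Agent.LSB.TopA2
import Pool.Agent.LSB.FEst
import Pool.Agent.LSB.FLimit
import Pool.Agent.LSB.FClosest
import Pool.Agent.LSB.FRigid

/-!
# Part F (top): the final argument in terms of support functions

## Paper proof (by contradiction, sequences)

Suppose there are `h_j` (`IsSupp`, `C^30` norms `≤K`, `|h_j-hE a b|≤1/j`) with caustics for all coprime `p/q<1/q₀`, none of the
form wanted.

F1 (closest ellipse).  Family `h_w(ψ)=hE a' b'(ψ-τ)+v₁cosψ+v₂sinψ`, `w=(a',b',τ,v₁,v₂)` in a small closed ball about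
`w₀=(a,b,0,0,0)`; `w↦h_w` is injective there.  A minimiser `w_j` of `∫(h_j-h_w)²` exists, tends to `w₀` (compactness), so is interior,
so `∫(h_j-h_{w_j})∂_{w_i}h_{w_j}=0` for `i=1..5`.

F2 (rigid motion).  Replace `h_j` by `h_j(ψ+τ_j)-v·e(ψ+τ_j)` (this preserves `IsSupp`, `PCaustic`, derivative bounds): now
`h_j` has closest ellipse `hE a_j b_j`, `(a_j,b_j)→(a,b)`, and with `d_j=h_j-hE a_j b_j≠0`, `u_j=hE·d_j` one gets
`∫u_j·F/(hE)²dψ=0` for `F∈five a_j b_j` (the tangent vectors times `hE` span the same space, as `0<b_j<a_j`).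

F3 (interpolation).  `η_j=(∫d_j²)^{1/2}→0`, `|d_j^{(30)}|≤K'`.  Then `|d_j|,|d_j'|≤M_j:=Cη_j^{1-2/30}` (Fourier series:
`|d̂(m)|≤min(η,K'|m|^{-30})`, sum `(1+|m|)|d̂(m)|`, split at `|m|=η^{-1/30}`).

F4.  `|Efun a_j b_j 0 m u_j|≤K''|m|^{-30}` (integrate by parts 30 times in the Lazutkin coordinate
`s=BE a b 0`, `ds/dψ=c₀/hE`).

F5.  If `omE a b l=1/q`, `l≤b/2` then `|Efun a b l q u-Efun a b 0 q u|≤(C/q)(∫u²)^{1/2}`: `l≤C/q`, `|BE a b l-BE a b 0|≤Cl²`, and
the densities differ by `Cl²`.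

F6.  With `main_estimate` (existence of `l`: intermediate value theorem, `omE` continuous on `[0,b/2]`, `omE a b 0=0`,
`omE a b (b/2)≥c`, `c l≤omE a b l≤C l`): `|Efun a_j b_j 0 m u_j|≤(C/|m|)η_j` for all `m≠0`.  For `q₁≤q≤Q`: `Cq⁵M_j^{3/2}≤η_j/q` as long as
`q⁶≤c η_j^{-(1/2-3/30)}`, and for larger `q` use F4: `K''q^{-30}≤η_j/q` if `q^{29}≥K''/η_j`; the two ranges overlap
(`29·0.4/6>1`).  Small `m`: trivially.

F7 (limit).  `V_j(m)=Efun a_j b_j 0 m u_j/η_j`; `|V_j(m)|≤C/(1+|m|)`, `V_j(-m)=conj`, `∑|V_j(m)|²≥c>0` (Parseval).  Pass to a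
subsequence with `V_j(m)→c(m)` for all `m`; `∑|c(m)|²≥c>0` (dominated).  For fixed `(n,p)`, `p/n` small, choose
`l_j` with `omE a_j b_j l_j=p/n`, subsequence `l_j→l`; `omE a b l=p/n`; `Efun a_j b_j l_j n u_j=∑_m(Efun a_j b_j 0 m u_j)·chi a_j b_j l_j n m`
(Fourier series of `u_j` in `s`), `|chi a b l n m|≤C_n/(1+|m|)` uniformly (one integration by parts), `chi` continuous in `(a,b,l)`.  By
`main_estimate` (write `p/n=p'/q` in lowest terms, `n=kq`) and `M_j^{3/2}/η_j→0`: `∑c(m)chi a b l n m=0`.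
Orthogonality passes to the limit: `∑_m c(m)·Efun a b 0 (-m) (five a b i/(hE))=0`.

F8.  `kernel_eq_five`: `c(m)=Efun a b 0 m F`, `F=∑t_i five_i`; orthogonality gives `∫F²/hE²=0`, `F=0`, `c=0`: contradiction.
-/

namespace LSB

open Real Complex MeasureTheory Filter Topology

lemma eq_of_eta_eq_zero {a b : ℝ} (hb : 0 < b) (hab : b < a) {h : ℝ → ℝ} (hc : Continuous h)
    (hp : ∀ ψ, h (ψ + 2 * π) = h ψ) (he : eta a b h = 0) : ∀ ψ, h ψ = hE a b ψ := by
  have hEc := continuous_hE hb hab.le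
  have hpi : (0 : ℝ) < 2 * π := by positivity
  have h0 : ∫ ψ in (0 : ℝ)..(2 * π), (h ψ - hE a b ψ) ^ 2 = 0 := by
    have h1 : 0 ≤ ∫ ψ in (0 : ℝ)..(2 * π), (h ψ - hE a b ψ) ^ 2 :=
      intervalIntegral.integral_nonneg hpi.le (fun x _ => sq_nonneg _)
    exact (Real.sqrt_eq_zero h1).1 he
  have hon : ∀ ψ ∈ Set.Icc (0 : ℝ) (2 * π), h ψ = hE a b ψ := by
    by_contra hcon
    push Not at hcon
    obtain ⟨ψ, hψ, hne⟩ := hcon
    have h1 : 0 < ∫ ψ in (0 : ℝ)..(2 * π), (h ψ - hE a b ψ) ^ 2 := by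
      apply intervalIntegral.integral_pos hpi ((hc.sub hEc).pow 2).continuousOn
      · intro x _
        exact sq_nonneg _
      · refine ⟨ψ, hψ, ?_⟩
        have : h ψ - hE a b ψ ≠ 0 := sub_ne_zero.2 hne
        exact lt_of_le_of_ne (sq_nonneg _) (pow_ne_zero 2 this).symm
    linarith
  have hd : Function.Periodic (fun ψ => h ψ - hE a b ψ) (2 * π) := fun ψ => by
    simp only
    rw [hp, hE_add_two_pi]
  intro ψ
  obtain ⟨y, hy, hyeq⟩ := hd.exists_mem_Ico₀ hpi ψ
  have h2 := hon y ⟨hy.1, hy.2.le⟩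
  have h3 : h ψ - hE a b ψ = h y - hE a b y := hyeq
  linarith

/-- Final theorem in terms of support functions. -/
theorem final_supp {a b : ℝ} (hb : 0 < b) (hab : b < a) (q₀ : ℕ) (K : ℝ) :
    ∃ ε > 0, ∀ h : ℝ → ℝ, IsSupp h → ContDiff ℝ 30 h →
      (∀ k ≤ 30, ∀ ψ, |iteratedDeriv k h ψ| ≤ K) → (∀ ψ, |h ψ - hE a b ψ| ≤ ε) →
      (∀ p q : ℕ, 0 < p → Nat.Coprime p q → q₀ * p < q → ∃ P f, PCaustic h P f p q) →
      ∃ a' b' τ v w : ℝ, 0 < b' ∧ b' < a' ∧
        ∀ ψ, h ψ = hE a' b' (ψ - τ) + v * Real.cos ψ + w * Real.sin ψ := by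
  by_contra hcon
  push Not at hcon
  have ha0 : 0 < a := hb.trans hab
  -- small radii
  set δ : ℕ → ℝ := fun j => min (1 / ((j : ℝ) + 1)) (min (b / 2) (min ((a - b) / 4) 1)) with hδ
  have hδpos : ∀ j, 0 < δ j := fun j => by
    have : 0 < (a - b) / 4 := by linarith
    positivity
  choose ε₁ hε₁ hclose using fun j => closest_ellipse hb hab (hδpos j)
  choose h hsupp hsmooth hbound hnear hcau hnot using fun j =>
    hcon (min (ε₁ j) (1 / ((j : ℝ) + 1))) (lt_min (hε₁ j) (by positivity))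
  choose a' b' τ v w ha' hb' hτ hv hw horth using fun j =>
    hclose j (h j) (hsupp j).smooth.continuous (hsupp j).periodic
      (fun ψ => (hnear j ψ).trans (min_le_left _ _))
  have hδ1 : ∀ j, δ j ≤ 1 / ((j : ℝ) + 1) := fun j => min_le_left _ _
  have hδ2 : ∀ j, δ j ≤ b / 2 := fun j => (min_le_right _ _).trans (min_le_left _ _)
  have hδ3 : ∀ j, δ j ≤ (a - b) / 4 := fun j =>
    (min_le_right _ _).trans ((min_le_right _ _).trans (min_le_left _ _))
  have hδ4 : ∀ j, δ j ≤ 1 := fun j =>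
    (min_le_right _ _).trans ((min_le_right _ _).trans (min_le_right _ _))
  have hδt : Tendsto δ atTop (𝓝 0) :=
    squeeze_zero (fun j => (hδpos j).le) hδ1 tendsto_one_div_add_atTop_nhds_zero_nat
  have tend : ∀ {x : ℕ → ℝ} {y : ℝ}, (∀ j, |x j - y| ≤ δ j) → Tendsto x atTop (𝓝 y) := by
    intro x y hxy
    rw [tendsto_iff_norm_sub_tendsto_zero]
    exact squeeze_zero (fun j => norm_nonneg _) (fun j => by
      rw [Real.norm_eq_abs]; exact hxy j) hδt
  have hat : Tendsto a' atTop (𝓝 a) := tend ha'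
  have hbt : Tendsto b' atTop (𝓝 b) := tend hb'
  have hτt : Tendsto τ atTop (𝓝 0) := tend (fun j => by simpa using hτ j)
  have hvt : Tendsto v atTop (𝓝 0) := tend (fun j => by simpa using hv j)
  have hwt : Tendsto w atTop (𝓝 0) := tend (fun j => by simpa using hw j)
  -- moved support functions
  set g : ℕ → ℝ → ℝ := fun j => moved (h j) (τ j) (v j) (w j) with hg
  have hbox : ∀ j, Box (b / 2) (2 * a) (a' j) (b' j) := by
    intro j
    have e1 := abs_le.1 (ha' j)
    have e2 := abs_le.1 (hb' j)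
    have e3 := hδ2 j
    have e4 := hδ3 j
    exact ⟨by positivity, by linarith, by linarith, by linarith⟩
  have hAdm : ∀ j, Adm (b / 2) (2 * a) (K + 2) q₀ (a' j) (b' j) (g j) := by
    intro j
    refine ⟨hbox j, moved_supp (hsupp j) _ _ _, ?_, ?_, ?_⟩
    · exact_mod_cast moved_contDiff (n := 30) (by exact_mod_cast hsmooth j) (τ j) (v j) (w j)
    · intro k hk ψ
      refine (moved_bound (n := 30) (by exact_mod_cast hsmooth j) (hbound j)
        (τ j) (v j) (w j) k hk ψ).trans ?_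
      have e1 := (hv j).trans (hδ4 j)
      have e2 := (hw j).trans (hδ4 j)
      linarith
    · intro p q hp hpq hq
      obtain ⟨P, f, hPf⟩ := hcau j p q hp hpq hq
      exact moved_caustic (hsupp j) hPf _ _ _
  have hgc : ∀ j, Continuous (g j) := fun j => (hAdm j).smooth.continuous
  have hb'pos : ∀ j, 0 < b' j := fun j => (hbox j).pos.trans_le (hbox j).hb
  -- eta is positive
  have hηpos : ∀ j, 0 < eta (a' j) (b' j) (g j) := by
    intro j
    rcases (Real.sqrt_nonneg (∫ ψ in (0 : ℝ)..(2 * π), (g j ψ - hE (a' j) (b' j) ψ) ^ 2)).eq_or_lt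
      with h0 | h0
    · exfalso
      have h1 := eq_of_eta_eq_zero (hb'pos j) (hbox j).hab (hgc j) (hAdm j).supp.periodic h0.symm
      obtain ⟨ψ, hψ⟩ := hnot j (a' j) (b' j) (τ j) (v j) (w j) (hb'pos j) (hbox j).hab
      apply hψ
      have h2 := h1 (ψ - τ j)
      simp only [hg, moved] at h2
      rw [sub_add_cancel] at h2
      linarith
    · exact h0
  -- eta tends to zero
  have hηt : Tendsto (fun j => eta (a' j) (b' j) (g j)) atTop (𝓝 0) := by
    have hEc := continuous_hE hb hab.le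
    have hpt : ∀ ψ, Tendsto (fun j => g j ψ - hE (a' j) (b' j) ψ) atTop (𝓝 0) := by
      intro ψ
      have e1 : Tendsto (fun j => h j (ψ + τ j) - hE a b (ψ + τ j)) atTop (𝓝 0) := by
        apply squeeze_zero_norm (a := fun j : ℕ => 1 / ((j : ℝ) + 1))
        · intro j
          rw [Real.norm_eq_abs]
          exact (hnear j _).trans (min_le_right _ _)
        · exact tendsto_one_div_add_atTop_nhds_zero_nat
      have e2 : Tendsto (fun j => hE a b (ψ + τ j)) atTop (𝓝 (hE a b (ψ + 0))) :=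
        (hEc.tendsto _).comp (hτt.const_add ψ)
      have e3 : Tendsto (fun j => v j * Real.cos (ψ + τ j)) atTop (𝓝 (0 * Real.cos (ψ + 0))) :=
        hvt.mul ((Real.continuous_cos.tendsto _).comp (hτt.const_add ψ))
      have e4 : Tendsto (fun j => w j * Real.sin (ψ + τ j)) atTop (𝓝 (0 * Real.sin (ψ + 0))) :=
        hwt.mul ((Real.continuous_sin.tendsto _).comp (hτt.const_add ψ))
      have e5 := tendsto_hE hat hbt ψ
      have e6 := (((e1.add e2).sub e3).sub e4).sub e5
      have e7 : (0 + hE a b (ψ + 0) - 0 * Real.cos (ψ + 0) - 0 * Real.sin (ψ + 0) -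
          hE a b ψ) = 0 := by
        rw [add_zero]
        ring
      rw [e7] at e6
      refine e6.congr (fun j => ?_)
      simp only [hg, moved]
      ring
    have hbd : ∀ j ψ, |g j ψ - hE (a' j) (b' j) ψ| ≤ K + 2 + 2 * a := by
      intro j ψ
      have e1 := (hAdm j).bound 0 (by norm_num) ψ
      rw [iteratedDeriv_zero] at e1
      have e2 := hE_ge (hb'pos j) (hbox j).hab.le ψ
      have e3 := hE_le (hb'pos j) (hbox j).hab.le ψ
      have e4 := (hbox j).ha
      have e5 := hb'pos j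
      have e6 := abs_le.1 e1
      rw [abs_le]
      constructor <;> linarith
    have hint : Tendsto (fun j => ∫ ψ in (0 : ℝ)..(2 * π), (g j ψ - hE (a' j) (b' j) ψ) ^ 2)
        atTop (𝓝 (∫ ψ in (0 : ℝ)..(2 * π), (0 : ℝ))) := by
      apply intervalIntegral.tendsto_integral_filter_of_dominated_convergence
        (fun _ => (K + 2 + 2 * a) ^ 2)
      · apply Eventually.of_forall
        intro j
        exact (((hgc j).sub (continuous_hE (hb'pos j) (hbox j).hab.le)).pow 2).aestronglyMeasurable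
      · apply Eventually.of_forall
        intro j
        apply Eventually.of_forall
        intro ψ _
        rw [Real.norm_eq_abs, abs_pow]
        exact pow_le_pow_left₀ (abs_nonneg _) (hbd j ψ) 2
      · exact intervalIntegrable_const
      · apply Eventually.of_forall
        intro ψ _
        have := (hpt ψ).pow 2
        simpa using this
    rw [intervalIntegral.integral_zero] at hint
    have := hint.sqrt
    rw [Real.sqrt_zero] at this
    exact this
  -- the estimates
  have hb2 : 0 < b / 2 := by positivity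
  obtain ⟨C₁, hC₁, η₁, hη₁, hη₁1, hest⟩ := est_all (a₁ := 2 * a) (K := K + 2) (q₀ := q₀) hb2
  obtain ⟨C₂, hC₂, η₂, hη₂, hη₂1, hcaus⟩ := est_caustic (a₁ := 2 * a) (K := K + 2) (q₀ := q₀) hb2
  obtain ⟨C₃, hC₃, hsup⟩ := sup_bounds (b₁ := b / 2) (a₁ := 2 * a) (K := K + 2) (q₀ := q₀)
  obtain ⟨J, hJ⟩ := (hηt.eventually (gt_mem_nhds (lt_min hη₁ hη₂))).exists_forall_of_atTop
  set s : ℕ → ℕ := fun j => j + J with hs
  have hsJ : ∀ j, eta (a' (s j)) (b' (s j)) (g (s j)) < min η₁ η₂ := fun j => hJ _ (Nat.le_add_left J j)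
  have hst : Tendsto s atTop atTop := tendsto_add_atTop_nat J
  have S : Seq (b / 2) (2 * a) C₁ (1 / ((q₀ : ℝ) + 1)) (a' ∘ s) (b' ∘ s)
      (fun j => eta (a' (s j)) (b' (s j)) (g (s j)))
      (fun j => dev (a' (s j)) (b' (s j)) (g (s j))) := by
    refine ⟨fun j => hbox _, fun j => (hAdm _).continuous_dev,
      fun j => dev_periodic (hAdm _).supp.periodic, ?_, fun j => hηpos _, ?_, ?_, ?_, ?_⟩
    · intro j
      have h1 := (hsup _ _ _ (hAdm (s j)) (hηpos _)
        ((hsJ j).le.trans ((min_le_left _ _).trans hη₁1))).1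
      refine Summable.of_nonneg_of_le (fun m => norm_nonneg _) (fun m => ?_) h1
      have e1 : 0 ≤ |(m : ℝ)| := abs_nonneg _
      have e2 : 0 ≤ ‖Efun ((a' ∘ s) j) ((b' ∘ s) j) 0 m
        (fun ψ => ((dev (a' (s j)) (b' (s j)) (g (s j)) ψ : ℝ) : ℂ))‖ := norm_nonneg _
      simp only [Function.comp] at e2 ⊢
      nlinarith
    · intro j m
      exact hest _ _ _ (hAdm (s j)) (hηpos _) ((hsJ j).le.trans (min_le_left _ _)) m
    · intro n p hp hpn
      have hp' : (0 : ℝ) < p := by exact_mod_cast hp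
      have hqn : (q₀ + 1) * p ≤ n := by
        have : ((q₀ : ℝ) + 1) * p ≤ n := by
          rw [one_div_mul_eq_div, le_div_iff₀ (by positivity)] at hpn
          linarith
        exact_mod_cast this
      have hn : 0 < n := by nlinarith
      set d := Nat.gcd p n with hd
      have hdpos : 0 < d := Nat.gcd_pos_of_pos_left _ hp
      obtain ⟨p', hp'd⟩ : d ∣ p := Nat.gcd_dvd_left _ _
      obtain ⟨n', hn'd⟩ : d ∣ n := Nat.gcd_dvd_right _ _
      have hcop : Nat.Coprime p' n' := by
        have h1 := Nat.coprime_div_gcd_div_gcd (m := p) (n := n) hdpos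
        have h2 : p / d = p' := by
          conv_lhs => rw [hp'd]
          exact Nat.mul_div_cancel_left _ hdpos
        have h3 : n / d = n' := by
          conv_lhs => rw [hn'd]
          exact Nat.mul_div_cancel_left _ hdpos
        rw [← hd, h2, h3] at h1
        exact h1
      have hp'pos : 0 < p' := by
        rcases Nat.eq_zero_or_pos p' with h0 | h0
        · rw [h0, mul_zero] at hp'd; omega
        · exact h0
      have hn'pos : 0 < n' := by
        rcases Nat.eq_zero_or_pos n' with h0 | h0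
        · rw [h0, mul_zero] at hn'd; omega
        · exact h0
      have hq' : q₀ * p' < n' := by
        have h1 : d * (q₀ * p') < d * n' := by
          rw [← hn'd]
          have : d * (q₀ * p') = q₀ * p := by
            conv_rhs => rw [hp'd]
            ring
          rw [this]
          nlinarith
        exact lt_of_mul_lt_mul_left h1 (Nat.zero_le _)
      refine ⟨C₂ * (n' : ℝ) ^ 5, fun j l hl hl2 hom => ?_⟩
      have hom' : omE (a' (s j)) (b' (s j)) l = p' / n' := by
        have h1 : omE (a' (s j)) (b' (s j)) l = p / n := hom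
        rw [h1, hp'd, hn'd]
        push_cast
        have : (d : ℝ) ≠ 0 := by positivity
        field_simp
      have h2 := hcaus _ _ _ (hAdm (s j)) (hηpos _) ((hsJ j).le.trans (min_le_right _ _)) l hl hl2
        p' n' hp'pos hcop hq' hom' (d : ℤ) (by exact_mod_cast hdpos.ne')
      have h3 : ((d : ℤ) * (n' : ℤ)) = (n : ℤ) := by
        rw [hn'd]
        push_cast
        rfl
      rw [h3] at h2
      exact h2
    · intro j i
      have h1 := horth (s j) i
      refine Eq.trans ?_ h1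
      apply intervalIntegral.integral_congr
      intro ψ _
      have e1 : hE (a' (s j)) (b' (s j)) ψ ≠ 0 :=
        (lt_of_lt_of_le (hb'pos _) (hE_ge (hb'pos _) (hbox _).hab.le ψ)).ne'
      simp only [dev, hg, moved, Function.comp]
      field_simp
    · intro j
      have h1 : 0 ≤ ∫ ψ in (0 : ℝ)..(2 * π), (g (s j) ψ - hE (a' (s j)) (b' (s j)) ψ) ^ 2 :=
        intervalIntegral.integral_nonneg (by positivity) (fun x _ => sq_nonneg _)
      unfold eta
      rw [Real.sq_sqrt h1]
      apply intervalIntegral.integral_congr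
      intro ψ _
      have e1 : hE (a' (s j)) (b' (s j)) ψ ≠ 0 :=
        (lt_of_lt_of_le (hb'pos _) (hE_ge (hb'pos _) (hbox _).hab.le ψ)).ne'
      simp only [dev, Function.comp]
      rw [mul_div_cancel_left₀ _ e1]
  exact S.absurd hb hab (hat.comp hst) (hbt.comp hst) (hηt.comp hst) (by positivity)

end LSB
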