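import Pool.Agent.LSB.Defs
import Pool.Agent.LSB.G1Fam
import Pool.Agent.LSB.G1Curve

/-!
# Part G1: support function of a nearly elliptic curve

G1 (support function).  `ζ(t)=γ'(t)/(i e^{it})` has real part `≥ b-ε>0`; `τ(t)=t+arctan(Im ζ/Re ζ)` satisfies
`γ'=|γ'| i e^{iτ}`, `τ(t+2π)=τ(t)+2π`, `τ'=Im(conj γ'·γ'')/|γ'|²`, which is `≥ab/(4a²)` for small `ε` (for the ellipse
`Im(conj γ'γ'')=ab`).  So `τ` is an increasing bijection, `t=τ⁻¹`; `h(ψ)=Re(γ(t(ψ))e^{-iψ})`,
`h'(ψ)=Im(γ(t(ψ))e^{-iψ})`, `γ(t)=supCurve h (τ t)`, `h+h''=|γ'|/τ'>0`.  Uniform bounds for the derivatives up to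
order `n`: use the calculus of uniformly bounded families (closed under sums, products, compositions, reciprocals of
functions bounded below); `t'=1/τ'(t)`.  Closeness: `h(ψ)=max_s Re(γ(s)e^{-iψ})` because
`d/dψ' Re(supCurve h ψ' e^{-iψ})=-ρ(ψ')sin(ψ'-ψ)`; the same for the ellipse; hence `|h-hE|≤sup|γ-γ_E|≤ε`.
-/

set_option linter.all false

namespace LSB

open Real Complex

namespace G1

lemma ell_re (a b t : ℝ) : (ellipseCurve a b t).re = a * Real.cos t := by
  unfold ellipseCurve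
  rw [Complex.add_re, Complex.re_ofReal_mul, Complex.ofReal_re, Complex.I_re, mul_zero, add_zero]

lemma ell_im (a b t : ℝ) : (ellipseCurve a b t).im = b * Real.sin t := by
  unfold ellipseCurve
  rw [Complex.add_im, Complex.im_ofReal_mul, Complex.ofReal_im, Complex.I_im, mul_one, zero_add]

lemma hasDerivAt_ell (a b t : ℝ) :
    HasDerivAt (ellipseCurve a b) (((-(a * Real.sin t) : ℝ) : ℂ) +
      ((b * Real.cos t : ℝ) : ℂ) * I) t := by
  have h1 : HasDerivAt (fun t : ℝ => a * Real.cos t) (-(a * Real.sin t)) t := by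
    refine ((Real.hasDerivAt_cos t).const_mul a).congr_deriv ?_
    ring
  have h2 : HasDerivAt (fun t : ℝ => b * Real.sin t) (b * Real.cos t) t :=
    (Real.hasDerivAt_sin t).const_mul b
  exact h1.ofReal_comp.add (h2.ofReal_comp.mul_const I)

lemma contDiff_ell (a b : ℝ) (m : WithTop ℕ∞) : ContDiff ℝ m (ellipseCurve a b) := by
  unfold ellipseCurve
  have h1 : ContDiff ℝ m (fun t : ℝ => a * Real.cos t) := contDiff_const.mul Real.contDiff_cos
  have h2 : ContDiff ℝ m (fun t : ℝ => b * Real.sin t) := contDiff_const.mul Real.contDiff_sin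
  exact (Complex.ofRealCLM.contDiff.comp h1).add
    ((Complex.ofRealCLM.contDiff.comp h2).mul contDiff_const)

lemma iter_re : ∀ {n : ℕ} {δ : ℝ → ℂ}, ContDiff ℝ ((n : ℕ) : WithTop ℕ∞) δ → ∀ t,
    iteratedDeriv n (fun s => (δ s).re) t = (iteratedDeriv n δ t).re
  | 0, δ, h, t => by simp
  | (n + 1), δ, h, t => by
      have : (((n + 1 : ℕ) : ℕ) : WithTop ℕ∞) = (n : WithTop ℕ∞) + 1 := by push_cast; rfl
      rw [this, contDiff_succ_iff_deriv] at h
      rw [iteratedDeriv_succ', iteratedDeriv_succ', ← iter_re h.2.2]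
      congr 1
      funext s
      exact (Complex.reCLM.hasFDerivAt.comp_hasDerivAt s (h.1 s).hasDerivAt).deriv

lemma iter_im : ∀ {n : ℕ} {δ : ℝ → ℂ}, ContDiff ℝ ((n : ℕ) : WithTop ℕ∞) δ → ∀ t,
    iteratedDeriv n (fun s => (δ s).im) t = (iteratedDeriv n δ t).im
  | 0, δ, h, t => by simp
  | (n + 1), δ, h, t => by
      have : (((n + 1 : ℕ) : ℕ) : WithTop ℕ∞) = (n : WithTop ℕ∞) + 1 := by push_cast; rfl
      rw [this, contDiff_succ_iff_deriv] at h
      rw [iteratedDeriv_succ', iteratedDeriv_succ', ← iter_im h.2.2]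
      congr 1
      funext s
      exact (Complex.imCLM.hasFDerivAt.comp_hasDerivAt s (h.1 s).hasDerivAt).deriv

/-- The family of nearly elliptic curves. -/
def Fam (a b : ℝ) (n : ℕ) (e : ℝ) : Type :=
  {γ : ℝ → ℂ // ContDiff ℝ ((n + 2 : ℕ) : WithTop ℕ∞) γ ∧ (∀ t, γ (t + 2 * π) = γ t) ∧
      (∀ k ≤ n + 2, ∀ t, ‖iteratedDeriv k (fun s => γ s - ellipseCurve a b s) t‖ ≤ e)}

lemma bd_re (a b : ℝ) (n : ℕ) (e : ℝ) :
    Bd (n + 2) (fun (i : Fam a b n e) t => (i.1 t).re) := by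
  have h1 : Bd (n + 2) (fun (i : Fam a b n e) t => (i.1 t - ellipseCurve a b t).re) := by
    have hc : ∀ i : Fam a b n e, ContDiff ℝ ((n + 2 : ℕ) : WithTop ℕ∞)
        (fun t => i.1 t - ellipseCurve a b t) := fun i => i.2.1.sub (contDiff_ell a b _)
    refine Bd.of_contDiff (fun i => Complex.reCLM.contDiff.comp (hc i)) ⟨e, fun i k hk t => ?_⟩
    rw [iter_re ((hc i).of_le (by exact_mod_cast hk))]
    exact (Complex.abs_re_le_norm _).trans (i.2.2.2 k hk t)
  have h2 : Bd (n + 2) (fun (_ : Fam a b n e) t => a * Real.cos t) :=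
    (Bd.const a _).mul (Bd.cos_sin _).1
  refine (h1.add h2).congr fun i t => ?_
  rw [Complex.sub_re, ell_re]
  ring

lemma bd_im (a b : ℝ) (n : ℕ) (e : ℝ) :
    Bd (n + 2) (fun (i : Fam a b n e) t => (i.1 t).im) := by
  have h1 : Bd (n + 2) (fun (i : Fam a b n e) t => (i.1 t - ellipseCurve a b t).im) := by
    have hc : ∀ i : Fam a b n e, ContDiff ℝ ((n + 2 : ℕ) : WithTop ℕ∞)
        (fun t => i.1 t - ellipseCurve a b t) := fun i => i.2.1.sub (contDiff_ell a b _)
    refine Bd.of_contDiff (fun i => Complex.imCLM.contDiff.comp (hc i)) ⟨e, fun i k hk t => ?_⟩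
    rw [iter_im ((hc i).of_le (by exact_mod_cast hk))]
    exact (Complex.abs_im_le_norm _).trans (i.2.2.2 k hk t)
  have h2 : Bd (n + 2) (fun (_ : Fam a b n e) t => b * Real.sin t) :=
    (Bd.const b _).mul (Bd.cos_sin _).2
  refine (h1.add h2).congr fun i t => ?_
  rw [Complex.sub_im, ell_im]
  ring

/-- Pointwise closeness of the first and second derivatives. -/
lemma close {a b : ℝ} {n : ℕ} {e : ℝ} (i : Fam a b n e) (t : ℝ) :
    (|deriv (fun t => (i.1 t).re) t + a * Real.sin t| ≤ e ∧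
      |deriv (fun t => (i.1 t).im) t - b * Real.cos t| ≤ e) ∧
    (|deriv (deriv (fun t => (i.1 t).re)) t + a * Real.cos t| ≤ e ∧
      |deriv (deriv (fun t => (i.1 t).im)) t + b * Real.sin t| ≤ e) := by
  have hc : ContDiff ℝ ((n + 2 : ℕ) : WithTop ℕ∞)
        (fun t => i.1 t - ellipseCurve a b t) := i.2.1.sub (contDiff_ell a b _)
  have hre := bd_re a b n e
  have him := bd_im a b n e
  have dre : ∀ t, HasDerivAt (fun t => (i.1 t).re) (deriv (fun t => (i.1 t).re) t) t :=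
    fun t => (hre.1 i t).hasDerivAt
  have dim : ∀ t, HasDerivAt (fun t => (i.1 t).im) (deriv (fun t => (i.1 t).im) t) t :=
    fun t => (him.1 i t).hasDerivAt
  have dre2 : ∀ t, HasDerivAt (deriv (fun t => (i.1 t).re))
      (deriv (deriv (fun t => (i.1 t).re)) t) t :=
    fun t => (hre.2.2.1 i t).hasDerivAt
  have dim2 : ∀ t, HasDerivAt (deriv (fun t => (i.1 t).im))
      (deriv (deriv (fun t => (i.1 t).im)) t) t :=
    fun t => (him.2.2.1 i t).hasDerivAt
  have hfre : (fun t => (i.1 t - ellipseCurve a b t).re) =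
      fun t => (i.1 t).re - a * Real.cos t := by
    funext t
    rw [Complex.sub_re, ell_re]
  have hfim : (fun t => (i.1 t - ellipseCurve a b t).im) =
      fun t => (i.1 t).im - b * Real.sin t := by
    funext t
    rw [Complex.sub_im, ell_im]
  have e1 : deriv (fun t => (i.1 t).re - a * Real.cos t) =
      fun t => deriv (fun t => (i.1 t).re) t + a * Real.sin t := by
    funext t
    refine (((dre t).sub ((Real.hasDerivAt_cos t).const_mul a)).congr_deriv ?_).deriv
    ring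
  have e2 : deriv (fun t => (i.1 t).im - b * Real.sin t) =
      fun t => deriv (fun t => (i.1 t).im) t - b * Real.cos t := by
    funext t
    exact ((dim t).sub ((Real.hasDerivAt_sin t).const_mul b)).deriv
  have e3 : deriv (fun t => deriv (fun t => (i.1 t).re) t + a * Real.sin t) =
      fun t => deriv (deriv (fun t => (i.1 t).re)) t + a * Real.cos t := by
    funext t
    exact ((dre2 t).add ((Real.hasDerivAt_sin t).const_mul a)).deriv
  have e4 : deriv (fun t => deriv (fun t => (i.1 t).im) t - b * Real.cos t) =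
      fun t => deriv (deriv (fun t => (i.1 t).im)) t + b * Real.sin t := by
    funext t
    refine (((dim2 t).sub ((Real.hasDerivAt_cos t).const_mul b)).congr_deriv ?_).deriv
    ring
  have k1 : ∀ k ≤ n + 2, ∀ t, |iteratedDeriv k (fun t => (i.1 t).re - a * Real.cos t) t| ≤ e := by
    intro k hk t
    rw [← hfre, iter_re (hc.of_le (by exact_mod_cast hk))]
    exact (Complex.abs_re_le_norm _).trans (i.2.2.2 k hk t)
  have k2 : ∀ k ≤ n + 2, ∀ t, |iteratedDeriv k (fun t => (i.1 t).im - b * Real.sin t) t| ≤ e := by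
    intro k hk t
    rw [← hfim, iter_im (hc.of_le (by exact_mod_cast hk))]
    exact (Complex.abs_im_le_norm _).trans (i.2.2.2 k hk t)
  have a1 := k1 1 (by omega) t
  have a2 := k2 1 (by omega) t
  have a3 := k1 2 (by omega) t
  have a4 := k2 2 (by omega) t
  rw [iteratedDeriv_one, e1] at a1
  rw [iteratedDeriv_one, e2] at a2
  rw [iteratedDeriv_succ', iteratedDeriv_one, e1, e3] at a3
  rw [iteratedDeriv_succ', iteratedDeriv_one, e2, e4] at a4
  exact ⟨⟨a1, a2⟩, a3, a4⟩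

lemma P_pos {a b e x1 y1 t : ℝ} (hb : 0 < b) (hab : b < a) (he : e ≤ b / 12)
    (h1 : |x1 + a * Real.sin t| ≤ e) (h2 : |y1 - b * Real.cos t| ≤ e) :
    b / 2 ≤ y1 * Real.cos t - x1 * Real.sin t := by
  have hcs := Real.sin_sq_add_cos_sq t
  have he0 : 0 ≤ e := (abs_nonneg _).trans h1
  have hs := Real.abs_sin_le_one t
  have hc := Real.abs_cos_le_one t
  set p := x1 + a * Real.sin t with hp
  set q := y1 - b * Real.cos t with hq
  have e1 : y1 * Real.cos t - x1 * Real.sin t =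
      b * Real.cos t ^ 2 + a * Real.sin t ^ 2 + q * Real.cos t - p * Real.sin t := by
    rw [hp, hq]
    ring
  have e2 : |q * Real.cos t| ≤ e := by
    rw [abs_mul]
    calc |q| * |Real.cos t| ≤ e * 1 := mul_le_mul h2 hc (abs_nonneg _) he0
      _ = e := mul_one e
  have e3 : |p * Real.sin t| ≤ e := by
    rw [abs_mul]
    calc |p| * |Real.sin t| ≤ e * 1 := mul_le_mul h1 hs (abs_nonneg _) he0
      _ = e := mul_one e
  rw [abs_le] at e2 e3
  have e4 : b ≤ b * Real.cos t ^ 2 + a * Real.sin t ^ 2 := by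
    nlinarith [mul_nonneg (sub_nonneg.2 hab.le) (sq_nonneg (Real.sin t))]
  rw [e1]
  linarith [e2.1, e3.2]

lemma D_pos {a b e x1 y1 x2 y2 t : ℝ} (hb : 0 < b) (hab : b < a) (he : e ≤ b / 12)
    (h1 : |x1 + a * Real.sin t| ≤ e) (h2 : |y1 - b * Real.cos t| ≤ e)
    (h3 : |x2 + a * Real.cos t| ≤ e) (h4 : |y2 + b * Real.sin t| ≤ e) :
    a * b / 2 ≤ x1 * y2 - x2 * y1 := by
  have hcs := Real.sin_sq_add_cos_sq t
  have he0 : 0 ≤ e := (abs_nonneg _).trans h1
  have hs := Real.abs_sin_le_one t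
  have hc := Real.abs_cos_le_one t
  set p := x1 + a * Real.sin t with hp
  set q := y1 - b * Real.cos t with hq
  set u := x2 + a * Real.cos t with hu
  set v := y2 + b * Real.sin t with hv
  have e1 : x1 * y2 - x2 * y1 = a * b + (-(a * Real.sin t * v) - b * (p * Real.sin t) + p * v
      - b * (u * Real.cos t) + a * Real.cos t * q - u * q) := by
    rw [hp, hq, hu, hv]
    linear_combination (a * b) * hcs
  have ha : 0 < a := hb.trans hab
  have m : ∀ {x y c d : ℝ}, |x| ≤ c → |y| ≤ d → |x * y| ≤ c * d := fun {x y c d} hx hy => by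
    rw [abs_mul]
    exact mul_le_mul hx hy (abs_nonneg _) ((abs_nonneg _).trans hx)
  have ha' : |a| ≤ a := (abs_of_pos ha).le
  have hb' : |b| ≤ b := (abs_of_pos hb).le
  have t1 := m (m ha' hs) h4
  have t2 := m hb' (m h1 hs)
  have t3 := m h1 h4
  have t4 := m hb' (m h3 hc)
  have t5 := m (m ha' hc) h2
  have t6 := m h3 h2
  rw [abs_le] at t1 t2 t3 t4 t5 t6
  have q1 : b * e ≤ a * e := mul_le_mul_of_nonneg_right hab.le he0
  have q2 : e * e ≤ a * e := mul_le_mul_of_nonneg_right (by linarith) he0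
  have q3 : a * e ≤ a * (b / 12) := mul_le_mul_of_nonneg_left he ha.le
  rw [e1]
  have q4 : a * e * 6 ≤ a * b / 2 := by
    calc a * e * 6 ≤ a * (b / 12) * 6 := by linarith
      _ = a * b / 2 := by ring
  linarith [t1.2, t2.2, t3.1, t4.2, t5.1, t6.2]

end G1

open G1 in
/-- G1. -/
theorem exists_supp {a b : ℝ} (hb : 0 < b) (hab : b < a) (n : ℕ) (hn : 2 ≤ n) :
    ∃ ε₀ > 0, ∃ K : ℝ, ∀ ε : ℝ, 0 < ε → ε ≤ ε₀ → ∀ γ : ℝ → ℂ,
      ContDiff ℝ ((n + 2 : ℕ) : WithTop ℕ∞) γ → (∀ t, γ (t + 2 * π) = γ t) →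
      (∀ k ≤ n + 2, ∀ t, ‖iteratedDeriv k (fun s => γ s - ellipseCurve a b s) t‖ ≤ ε) →
      ∃ h τ : ℝ → ℝ, IsSupp h ∧ ContDiff ℝ ((n : ℕ) : WithTop ℕ∞) h ∧
        (∀ k ≤ n, ∀ ψ, |iteratedDeriv k h ψ| ≤ K) ∧ (∀ ψ, |h ψ - hE a b ψ| ≤ ε) ∧
        ContDiff ℝ 1 τ ∧ (∀ t, 0 < deriv τ t) ∧ (∀ t, τ (t + 2 * π) = τ t + 2 * π) ∧
        (∀ t, γ t = supCurve h (τ t)) := by
  have ha : 0 < a := hb.trans hab
  have he : b / 12 ≤ b / 12 := le_rfl
  -- the family
  have bX := bd_re a b n (b / 12)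
  have bY := bd_im a b n (b / 12)
  set X : Fam a b n (b / 12) → ℝ → ℝ := fun i t => (i.1 t).re with hX
  set Y : Fam a b n (b / 12) → ℝ → ℝ := fun i t => (i.1 t).im with hY
  have dX : ∀ i t, HasDerivAt (X i) (deriv (X i) t) t := fun i t => (bX.1 i t).hasDerivAt
  have dY : ∀ i t, HasDerivAt (Y i) (deriv (Y i) t) t := fun i t => (bY.1 i t).hasDerivAt
  have dX2 : ∀ i t, HasDerivAt (deriv (X i)) (deriv (deriv (X i)) t) t :=
    fun i t => (bX.2.2.1 i t).hasDerivAt
  have dY2 : ∀ i t, HasDerivAt (deriv (Y i)) (deriv (deriv (Y i)) t) t :=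
    fun i t => (bY.2.2.1 i t).hasDerivAt
  have pX : ∀ i t, X i (t + 2 * π) = X i t := fun i t => by
    simp only [hX]
    rw [i.2.2.1]
  have pY : ∀ i t, Y i (t + 2 * π) = Y i t := fun i t => by
    simp only [hY]
    rw [i.2.2.1]
  have pX1 : ∀ i t, deriv (X i) (t + 2 * π) = deriv (X i) t := fun i t => by
    rw [← deriv_comp_add_const]
    congr 1
    funext s
    exact pX i s
  have pY1 : ∀ i t, deriv (Y i) (t + 2 * π) = deriv (Y i) t := fun i t => by
    rw [← deriv_comp_add_const]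
    congr 1
    funext s
    exact pY i s
  have hP : ∀ i t, b / 2 ≤ deriv (Y i) t * Real.cos t - deriv (X i) t * Real.sin t :=
    fun i t => P_pos hb hab he (close i t).1.1 (close i t).1.2
  have hD : ∀ i t, a * b / 2 ≤ deriv (X i) t * deriv (deriv (Y i)) t -
      deriv (deriv (X i)) t * deriv (Y i) t :=
    fun i t => D_pos hb hab he (close i t).1.1 (close i t).1.2 (close i t).2.1 (close i t).2.2
  have hb2 : 0 < b / 2 := by positivity
  have hab2 : 0 < a * b / 2 := by positivity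
  have hR : ∀ i t, 0 < deriv (X i) t ^ 2 + deriv (Y i) t ^ 2 := by
    intro i t
    have h1 := hP i t
    have h2 : deriv (X i) t ≠ 0 ∨ deriv (Y i) t ≠ 0 := by
      by_contra hcon
      push Not at hcon
      rw [hcon.1, hcon.2] at h1
      linarith
    rcases h2 with h2 | h2
    · positivity
    · positivity
  have hτ := fun i => exists_tau (dX2 i) (dY2 i) (pX1 i) (pY1 i) (fun t => hb2.trans_le (hP i t))
  choose τ hτd hτp hτxy using hτ
  set w : Fam a b n (b / 12) → ℝ → ℝ := fun i t =>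
    (deriv (X i) t * deriv (X i) t + deriv (Y i) t * deriv (Y i) t) *
      (deriv (X i) t * deriv (deriv (Y i)) t - deriv (deriv (X i)) t * deriv (Y i) t)⁻¹ with hw
  have bX1 : Bd n (fun i => deriv (X i)) := bX.2.2.of_succ
  have bY1 : Bd n (fun i => deriv (Y i)) := bY.2.2.of_succ
  have bX2 : Bd n (fun i => deriv (deriv (X i))) := bX.2.2.2.2
  have bY2 : Bd n (fun i => deriv (deriv (Y i))) := bY.2.2.2.2
  have bw : Bd n w := ((bX1.mul bX1).add (bY1.mul bY1)).mul
    (((bX1.mul bY2).sub (bX2.mul bY1)).inv hab2 hD)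
  have wpos : ∀ i t, 0 < w i t := by
    intro i t
    simp only [hw]
    have h1 := hR i t
    have h2 := hab2.trans_le (hD i t)
    have h3 : deriv (X i) t * deriv (X i) t + deriv (Y i) t * deriv (Y i) t =
      deriv (X i) t ^ 2 + deriv (Y i) t ^ 2 := by ring
    rw [h3]
    exact mul_pos h1 (inv_pos.2 h2)
  have hτd' : ∀ i t, HasDerivAt (τ i) (w i t)⁻¹ t := by
    intro i t
    refine (hτd i t).congr_deriv ?_
    simp only [hw]
    rw [mul_inv, inv_inv, ← sq, ← sq]
    field_simp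
  have hσ := fun i => exists_inv (hτd' i) (fun t => inv_pos.2 (wpos i t)) (hτp i)
  choose σ hστ hτσ hσp hσd using hσ
  have hσd' : ∀ i ψ, HasDerivAt (σ i) (w i (σ i ψ)) ψ := by
    intro i ψ
    have := hσd i ψ
    rwa [inv_inv] at this
  have bσ := Bd.invFun bw hσd'
  have uσ : ∀ i, Differentiable ℝ (σ i) := fun i ψ => (hσd' i ψ).differentiableAt
  set h : Fam a b n (b / 12) → ℝ → ℝ := fun i ψ =>
    X i (σ i ψ) * Real.cos ψ + Y i (σ i ψ) * Real.sin ψ with hh
  have bX0 : Bd n X := bX.of_succ.of_succ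
  have bY0 : Bd n Y := bY.of_succ.of_succ
  have bh : Bd n h := ((bX0.comp uσ (fun m hm => bσ m hm.le)).mul (Bd.cos_sin n).1).add
    ((bY0.comp uσ (fun m hm => bσ m hm.le)).mul (Bd.cos_sin n).2)
  obtain ⟨K, hK⟩ := bh.iter
  have hmono : ∀ i, StrictMono (τ i) := fun i => strictMono_of_deriv_pos fun t => by
    rw [(hτd' i t).deriv]
    exact inv_pos.2 (wpos i t)
  -- derivatives of h
  have hh1 : ∀ i ψ, HasDerivAt (h i) (-(X i (σ i ψ) * Real.sin ψ) + Y i (σ i ψ) * Real.cos ψ) ψ := by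
    intro i ψ
    have hXs : HasDerivAt (fun ψ => X i (σ i ψ)) (deriv (X i) (σ i ψ) * w i (σ i ψ)) ψ :=
      (dX i (σ i ψ)).comp ψ (hσd' i ψ)
    have hYs : HasDerivAt (fun ψ => Y i (σ i ψ)) (deriv (Y i) (σ i ψ) * w i (σ i ψ)) ψ :=
      (dY i (σ i ψ)).comp ψ (hσd' i ψ)
    refine ((hXs.mul (Real.hasDerivAt_cos ψ)).add
      (hYs.mul (Real.hasDerivAt_sin ψ))).congr_deriv ?_
    obtain ⟨e1, e2⟩ := hτxy i (σ i ψ)
    rw [hτσ] at e1 e2
    have e3 : deriv (X i) (σ i ψ) * Real.cos ψ + deriv (Y i) (σ i ψ) * Real.sin ψ = 0 := by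
      generalize √(deriv (X i) (σ i ψ) ^ 2 + deriv (Y i) (σ i ψ) ^ 2) = R at e1 e2
      rw [e1, e2]
      ring
    linear_combination (w i (σ i ψ)) * e3
  have hh1' : ∀ i, deriv (h i) = fun ψ => -(X i (σ i ψ) * Real.sin ψ) + Y i (σ i ψ) * Real.cos ψ :=
    fun i => funext fun ψ => (hh1 i ψ).deriv
  have hh2 : ∀ i ψ, HasDerivAt (deriv (h i))
      (√(deriv (X i) (σ i ψ) ^ 2 + deriv (Y i) (σ i ψ) ^ 2) * w i (σ i ψ) - h i ψ) ψ := by
    intro i ψ
    rw [hh1']
    have hXs : HasDerivAt (fun ψ => X i (σ i ψ)) (deriv (X i) (σ i ψ) * w i (σ i ψ)) ψ :=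
      (dX i (σ i ψ)).comp ψ (hσd' i ψ)
    have hYs : HasDerivAt (fun ψ => Y i (σ i ψ)) (deriv (Y i) (σ i ψ) * w i (σ i ψ)) ψ :=
      (dY i (σ i ψ)).comp ψ (hσd' i ψ)
    refine (((hXs.mul (Real.hasDerivAt_sin ψ)).neg).add
      (hYs.mul (Real.hasDerivAt_cos ψ))).congr_deriv ?_
    obtain ⟨e1, e2⟩ := hτxy i (σ i ψ)
    rw [hτσ] at e1 e2
    have hcs := Real.sin_sq_add_cos_sq ψ
    simp only [hh]
    generalize √(deriv (X i) (σ i ψ) ^ 2 + deriv (Y i) (σ i ψ) ^ 2) = R at e1 e2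
    rw [e1, e2]
    linear_combination (R * w i (σ i ψ)) * hcs
  refine ⟨b / 12, by positivity, K, fun ε hε hle γ hγ hγp hγk => ?_⟩
  let i : Fam a b n (b / 12) := ⟨γ, hγ, hγp, fun k hk t => (hγk k hk t).trans hle⟩
  have hn' : (2 : WithTop ℕ∞) ≤ ((n : ℕ) : WithTop ℕ∞) := by exact_mod_cast hn
  have hγi : ∀ t, i.1 t = γ t := fun t => rfl
  refine ⟨h i, τ i, ⟨(bh.contDiff i).of_le hn', ?_, ?_⟩, bh.contDiff i, hK i, ?_, ?_, ?_, hτp i, ?_⟩
  · intro ψ
    simp only [hh]
    rw [hσp, pX, pY, Real.cos_add_two_pi, Real.sin_add_two_pi]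
  · intro ψ
    rw [(hh2 i ψ).deriv]
    have h1 := Real.sqrt_pos.2 (hR i (σ i ψ))
    have h2 := mul_pos h1 (wpos i (σ i ψ))
    linarith
  · intro ψ
    have hle1 : ∀ s, X i s * Real.cos ψ + Y i s * Real.sin ψ ≤ h i ψ := fun s =>
      le_max (dX i) (dY i) (pX i) (pY i)
        (fun t => Real.sqrt_nonneg (deriv (X i) t ^ 2 + deriv (Y i) t ^ 2))
        (fun t => (hτxy i t).1) (fun t => (hτxy i t).2) (hmono i) (hτp i) (hτσ i) ψ s
    have hcl : ∀ s, |(X i s * Real.cos ψ + Y i s * Real.sin ψ) -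
        (a * Real.cos s * Real.cos ψ + b * Real.sin s * Real.sin ψ)| ≤ ε := by
      intro s
      have h1 := abs_le_norm (γ s - ellipseCurve a b s) ψ
      have h2 := hγk 0 (by omega) s
      rw [iteratedDeriv_zero] at h2
      rw [Complex.sub_re, Complex.sub_im, ell_re, ell_im] at h1
      refine le_trans (le_of_eq ?_) (h1.trans h2)
      congr 1
      simp only [hX, hY, hγi]
      ring
    rw [abs_le]
    constructor
    · obtain ⟨s, hs⟩ := ellipse_eq a b ψ
      have h1 := hle1 s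
      have h2 := hcl s
      rw [abs_le] at h2
      linarith [h2.1]
    · have h1 := ellipse_le a b ψ (σ i ψ)
      have h2 := hcl (σ i ψ)
      rw [abs_le] at h2
      have h3 : h i ψ = X i (σ i ψ) * Real.cos ψ + Y i (σ i ψ) * Real.sin ψ := rfl
      linarith [h2.2]
  · rw [contDiff_one_iff_deriv]
    refine ⟨fun t => (hτd' i t).differentiableAt, ?_⟩
    have : deriv (τ i) = fun t => (w i t)⁻¹ := funext fun t => (hτd' i t).deriv
    rw [this]
    exact (bw.cont i).inv₀ fun t => (wpos i t).ne'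
  · intro t
    rw [(hτd' i t).deriv]
    exact inv_pos.2 (wpos i t)
  · intro t
    unfold supCurve
    rw [hh1']
    simp only [hh]
    rw [hστ]
    have hcs := Real.sin_sq_add_cos_sq (τ i t)
    rw [Complex.exp_mul_I, ← Complex.ofReal_cos, ← Complex.ofReal_sin]
    apply Complex.ext
    · simp only [hX, hY, hγi, Complex.mul_re, Complex.add_re, Complex.add_im, Complex.mul_im,
        Complex.ofReal_re, Complex.ofReal_im, Complex.I_re, Complex.I_im]
      linear_combination (-(γ t).re) * hcs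
    · simp only [hX, hY, hγi, Complex.mul_re, Complex.add_re, Complex.add_im, Complex.mul_im,
        Complex.ofReal_re, Complex.ofReal_im, Complex.I_re, Complex.I_im]
      linear_combination (-(γ t).im) * hcs

end LSB
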