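import Pool.Agent.LSB.Defs

/-!
# Part G2: caustics in terms of support functions

G2 (caustics).  Let `K` be an integrable rational caustic, `P(φ)=sup_{z∈K}Re(z e^{-iφ})` (continuous, 2π-periodic,
`-h(φ+π)<P(φ)<h(φ)` as `K` is in the open convex hull).  For `Γ=supCurve h`: `Re(Γ(φ+δ)e^{-iφ})=h(φ+δ)cosδ-h'(φ+δ)sinδ`
has `δ`-derivative `-ρ(φ+δ)sinδ`, so it decreases from `h(φ)` to `-h(φ+π)` on `[0,π]`, and there is a unique `δ∈(0,π)` with
value `P(φ)`; put `f φ=φ+2δ`, so `lineIn h φ (f φ)=P φ`.  Likewise backwards `δ_-∈(0,π)`.  The chord from `ψ_0=φ-δ_-` to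
`ψ_1=φ+δ` lies on the line `Re(z e^{-iφ})=P φ`, and it has direction `+i e^{iφ}`: `Im((Γψ_1-Γψ_0)e^{-iφ})=∫_{-δ_-}^{δ}ρcos>0`,
because `∫_{-δ_-}^{δ}ρ(φ+t) sin t dt=0`, so it equals `∫(cos t+μ sin t)ρ` for every `μ`; take `cos(t-t_1)/cos t_1`,
`t_1=(δ-δ_-)/2`, if `δ+δ_-≤π`, and the complementary arc (`∫` over a period of `ρe^{it}` is `0`) otherwise.  So it `TouchesLeft`.
The reflected line at `ψ_1` has normal angle `φ+2δ` and support value `lineOut h φ (f φ)`, it leaves through a unique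
`ψ_2=φ+2δ+δ_2`, `δ_2∈(0,π)` (same monotonicity argument, the value `lineOut` is `>-h(·+π)` because it is attained at `ψ_1`).
The reflection law holds for `(ψ_0,ψ_1,ψ_2)` (both angles with the tangent are `δ`).  Extend to an infinite trajectory by iterating,
apply `tangent`: the chord `(ψ_1,ψ_2)` touches left, i.e. `P(f φ)=lineOut h φ (f φ)`.  Then the trajectory is given by
`φ_n=f^[n] φ`, `ψ_n=(φ_n+φ_{n+1})/2`.  `periodic` for it and for its shift: `ψ_q=ψ_0+2πp`, `ψ_{q+1}=ψ_1+2πp`; the chords have the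
same direction, so `φ_q-φ_0∈2πℤ`, and it is within `π` of `2πp`.  The reparametrisation `t↦τ(t)` of `γ` is harmless
(`γ'(t)` is a positive multiple of `Γ'(τ t)`).
-/

namespace LSB

open Real Complex Set

/-! ### Rotated coordinates -/

/-- Coordinate of `z` along `e^{iφ}`. -/
noncomputable def g2E (φ : ℝ) (z : ℂ) : ℝ := z.re * Real.cos φ + z.im * Real.sin φ

/-- Coordinate of `z` along `i e^{iφ}`. -/
noncomputable def g2N (φ : ℝ) (z : ℂ) : ℝ := z.im * Real.cos φ - z.re * Real.sin φ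

theorem g2E_add_pi (φ : ℝ) (z : ℂ) : g2E (φ + π) z = - g2E φ z := by
  unfold g2E; rw [Real.cos_add_pi, Real.sin_add_pi]; ring

theorem g2E_add_two_pi (φ : ℝ) (z : ℂ) : g2E (φ + 2 * π) z = g2E φ z := by
  unfold g2E; rw [Real.cos_add_two_pi, Real.sin_add_two_pi]

theorem g2_re (φ : ℝ) (z : ℂ) : z.re = g2E φ z * Real.cos φ - g2N φ z * Real.sin φ := by
  unfold g2E g2N
  linear_combination (- z.re) * Real.sin_sq_add_cos_sq φ

theorem g2_im (φ : ℝ) (z : ℂ) : z.im = g2E φ z * Real.sin φ + g2N φ z * Real.cos φ := by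
  unfold g2E g2N
  linear_combination (- z.im) * Real.sin_sq_add_cos_sq φ

/-- The support values of the curve. -/
noncomputable def g2g (h : ℝ → ℝ) (φ ψ : ℝ) : ℝ :=
  h ψ * Real.cos (ψ - φ) - deriv h ψ * Real.sin (ψ - φ)

/-- The conjugate coordinate of the curve. -/
noncomputable def g2k (h : ℝ → ℝ) (φ ψ : ℝ) : ℝ :=
  h ψ * Real.sin (ψ - φ) + deriv h ψ * Real.cos (ψ - φ)

theorem g2_supCurve_re (h : ℝ → ℝ) (ψ : ℝ) :
    (supCurve h ψ).re = h ψ * Real.cos ψ - deriv h ψ * Real.sin ψ := by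
  unfold supCurve
  rw [Complex.mul_re, Complex.exp_ofReal_mul_I_re, Complex.exp_ofReal_mul_I_im]
  simp

theorem g2_supCurve_im (h : ℝ → ℝ) (ψ : ℝ) :
    (supCurve h ψ).im = h ψ * Real.sin ψ + deriv h ψ * Real.cos ψ := by
  unfold supCurve
  rw [Complex.mul_im, Complex.exp_ofReal_mul_I_re, Complex.exp_ofReal_mul_I_im]
  simp

theorem g2E_supCurve (h : ℝ → ℝ) (φ ψ : ℝ) : g2E φ (supCurve h ψ) = g2g h φ ψ := by
  unfold g2E g2g
  rw [g2_supCurve_re, g2_supCurve_im, Real.cos_sub, Real.sin_sub]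
  ring

theorem g2N_supCurve (h : ℝ → ℝ) (φ ψ : ℝ) : g2N φ (supCurve h ψ) = g2k h φ ψ := by
  unfold g2N g2k
  rw [g2_supCurve_re, g2_supCurve_im, Real.cos_sub, Real.sin_sub]
  ring

theorem g2g_rot (h : ℝ → ℝ) (φ φ' ψ : ℝ) :
    g2g h φ' ψ = g2g h φ ψ * Real.cos (φ - φ') - g2k h φ ψ * Real.sin (φ - φ') := by
  unfold g2g g2k
  have : ψ - φ' = (ψ - φ) + (φ - φ') := by ring
  rw [this, Real.cos_add, Real.sin_add]
  ring

variable {h : ℝ → ℝ}

theorem g2g_self (h : ℝ → ℝ) (φ : ℝ) : g2g h φ φ = h φ := by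
  unfold g2g; simp

theorem IsSupp.g2_differentiable (hh : IsSupp h) : Differentiable ℝ h :=
  hh.smooth.differentiable (by norm_num)

theorem IsSupp.g2_contDiff_deriv (hh : IsSupp h) : ContDiff ℝ 1 (deriv h) := by
  have h2 : ContDiff ℝ (1 + 1) h := by
    have := hh.smooth
    norm_num
    exact this
  exact (contDiff_succ_iff_deriv.1 h2).2.2

theorem IsSupp.g2_differentiable_deriv (hh : IsSupp h) : Differentiable ℝ (deriv h) :=
  hh.g2_contDiff_deriv.differentiable (by norm_num)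

theorem IsSupp.g2_deriv_periodic (hh : IsSupp h) (ψ : ℝ) : deriv h (ψ + 2 * π) = deriv h ψ := by
  have h1 : deriv (fun x => h (x + 2 * π)) ψ = deriv h (ψ + 2 * π) := deriv_comp_add_const h (2 * π) ψ
  rw [← h1]
  congr 1
  funext x
  exact hh.periodic x

theorem g2g_periodic (hh : IsSupp h) (φ ψ : ℝ) : g2g h φ (ψ + 2 * π) = g2g h φ ψ := by
  unfold g2g
  have : ψ + 2 * π - φ = (ψ - φ) + 2 * π := by ring
  rw [this, Real.cos_add_two_pi, Real.sin_add_two_pi, hh.periodic, hh.g2_deriv_periodic]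

theorem g2g_add_pi (h : ℝ → ℝ) (φ : ℝ) : g2g h φ (φ + π) = - h (φ + π) := by
  unfold g2g
  have : φ + π - φ = π := by ring
  rw [this, Real.cos_pi, Real.sin_pi]
  ring

theorem g2g_sub_pi (hh : IsSupp h) (φ : ℝ) : g2g h φ (φ - π) = - h (φ + π) := by
  have h1 := g2g_periodic hh φ (φ - π)
  have h2 : φ - π + 2 * π = φ + π := by ring
  rw [h2] at h1
  rw [← h1, g2g_add_pi]

theorem g2g_hasDerivAt (hh : IsSupp h) (φ ψ : ℝ) :
    HasDerivAt (g2g h φ) (-(h ψ + deriv (deriv h) ψ) * Real.sin (ψ - φ)) ψ := by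
  have h1 : HasDerivAt h (deriv h ψ) ψ := (hh.g2_differentiable ψ).hasDerivAt
  have h2 : HasDerivAt (deriv h) (deriv (deriv h) ψ) ψ := (hh.g2_differentiable_deriv ψ).hasDerivAt
  have h3 : HasDerivAt (fun x : ℝ => x - φ) 1 ψ := (hasDerivAt_id ψ).sub_const φ
  have h4 := h3.cos
  have h5 := h3.sin
  have h6 := (h1.mul h4).sub (h2.mul h5)
  have h7 : HasDerivAt (g2g h φ) (deriv h ψ * Real.cos (ψ - φ) + h ψ * (-Real.sin (ψ - φ) * 1) -
      (deriv (deriv h) ψ * Real.sin (ψ - φ) + deriv h ψ * (Real.cos (ψ - φ) * 1))) ψ := h6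
  have h8 : -(h ψ + deriv (deriv h) ψ) * Real.sin (ψ - φ) =
      deriv h ψ * Real.cos (ψ - φ) + h ψ * (-Real.sin (ψ - φ) * 1) -
      (deriv (deriv h) ψ * Real.sin (ψ - φ) + deriv h ψ * (Real.cos (ψ - φ) * 1)) := by ring
  rw [h8]
  exact h7

theorem g2g_continuous (hh : IsSupp h) (φ : ℝ) : Continuous (g2g h φ) :=
  continuous_iff_continuousAt.2 fun ψ => (g2g_hasDerivAt hh φ ψ).continuousAt

theorem g2g_strictAnti (hh : IsSupp h) (φ : ℝ) : StrictAntiOn (g2g h φ) (Icc φ (φ + π)) := by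
  refine strictAntiOn_of_deriv_neg (convex_Icc _ _) (g2g_continuous hh φ).continuousOn ?_
  intro x hx
  rw [interior_Icc] at hx
  rw [(g2g_hasDerivAt hh φ x).deriv]
  have h1 : 0 < Real.sin (x - φ) := Real.sin_pos_of_pos_of_lt_pi (by linarith [hx.1]) (by linarith [hx.2])
  have h2 := hh.pos x
  nlinarith [mul_pos h1 h2]

theorem g2g_strictMono (hh : IsSupp h) (φ : ℝ) : StrictMonoOn (g2g h φ) (Icc (φ - π) φ) := by
  refine strictMonoOn_of_deriv_pos (convex_Icc _ _) (g2g_continuous hh φ).continuousOn ?_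
  intro x hx
  rw [interior_Icc] at hx
  rw [(g2g_hasDerivAt hh φ x).deriv]
  have h1 : Real.sin (x - φ) < 0 := Real.sin_neg_of_neg_of_neg_pi_lt (by linarith [hx.2]) (by linarith [hx.1])
  have h2 := hh.pos x
  nlinarith [mul_pos_of_neg_of_neg h1 (neg_neg_of_pos h2)]

/-- Strict support inequality. -/
theorem g2g_lt (hh : IsSupp h) {φ ψ : ℝ} (h1 : φ - 2 * π < ψ) (h2 : ψ < φ) : g2g h φ ψ < h φ := by
  rcases le_or_gt (φ - π) ψ with h3 | h3
  · have := g2g_strictMono hh φ ⟨h3, h2.le⟩ ⟨by linarith [Real.pi_pos], le_rfl⟩ h2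
    rwa [g2g_self] at this
  · have := g2g_strictAnti hh φ (a := φ) (b := ψ + 2 * π) ⟨le_rfl, by linarith [Real.pi_pos]⟩
      ⟨by linarith, by linarith⟩ (by linarith)
    rwa [g2g_self, g2g_periodic hh] at this

/-- Support inequality. -/
theorem g2g_le (hh : IsSupp h) (φ ψ : ℝ) : g2g h φ ψ ≤ h φ := by
  -- move `ψ` into `(φ - 2π, φ]`
  have hper : Function.Periodic (g2g h φ) (2 * π) := fun x => g2g_periodic hh φ x
  obtain ⟨y, hy, hy2⟩ := hper.exists_mem_Ioc (by positivity) ψ (φ - 2 * π)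
  rw [hy2]
  rcases eq_or_lt_of_le hy.2 with h3 | h3
  · rw [h3]
    have : φ - 2 * π + 2 * π = φ := by ring
    rw [this, g2g_self]
  · exact (g2g_lt hh hy.1 (by linarith)).le

theorem g2g_lt_sub (hh : IsSupp h) {φ ε : ℝ} (h1 : 0 < ε) (h2 : ε < π) :
    - h (φ + π) < g2g h φ (φ - ε) ∧ g2g h φ (φ - ε) < h φ := by
  constructor
  · have := g2g_strictMono hh φ (a := φ - π) (b := φ - ε) ⟨le_rfl, by linarith [Real.pi_pos]⟩
      ⟨by linarith, by linarith⟩ (by linarith)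
    rwa [g2g_sub_pi hh] at this
  · exact g2g_lt hh (by linarith [Real.pi_pos]) (by linarith)

theorem g2_exists_delta (hh : IsSupp h) {φ s : ℝ} (h1 : - h (φ + π) < s) (h2 : s < h φ) :
    ∃ δ, 0 < δ ∧ δ < π ∧ g2g h φ (φ + δ) = s := by
  have hc : ContinuousOn (fun δ => g2g h φ (φ + δ)) (Icc 0 π) :=
    ((g2g_continuous hh φ).comp (continuous_const.add continuous_id)).continuousOn
  have := intermediate_value_Ioo' Real.pi_pos.le hc
  have hs : s ∈ Ioo (g2g h φ (φ + π)) (g2g h φ (φ + 0)) := by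
    rw [g2g_add_pi, add_zero, g2g_self]
    exact ⟨h1, h2⟩
  obtain ⟨δ, hδ, hδ2⟩ := this hs
  exact ⟨δ, hδ.1, hδ.2, hδ2⟩

theorem g2_exists_eps (hh : IsSupp h) {φ s : ℝ} (h1 : - h (φ + π) < s) (h2 : s < h φ) :
    ∃ ε, 0 < ε ∧ ε < π ∧ g2g h φ (φ - ε) = s := by
  have hc : ContinuousOn (fun δ => g2g h φ (φ - δ)) (Icc 0 π) :=
    ((g2g_continuous hh φ).comp (continuous_const.sub continuous_id)).continuousOn
  have := intermediate_value_Ioo' Real.pi_pos.le hc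
  have hs : s ∈ Ioo (g2g h φ (φ - π)) (g2g h φ (φ - 0)) := by
    rw [g2g_sub_pi hh, sub_zero, g2g_self]
    exact ⟨h1, h2⟩
  obtain ⟨δ, hδ, hδ2⟩ := this hs
  exact ⟨δ, hδ.1, hδ.2, hδ2⟩

theorem g2_delta_unique (hh : IsSupp h) {φ δ δ' : ℝ} (h1 : 0 < δ) (h2 : δ < π) (h1' : 0 < δ')
    (h2' : δ' < π) (he : g2g h φ (φ + δ) = g2g h φ (φ + δ')) : δ = δ' := by
  have := (g2g_strictAnti hh φ).injOn (x₁ := φ + δ) (x₂ := φ + δ') ⟨by linarith, by linarith⟩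
    ⟨by linarith, by linarith⟩ he
  linarith

/-- The chord has the right direction. -/
theorem g2_chord_pos (hh : IsSupp h) {φ ε δ : ℝ} (hε : 0 < ε) (hε' : ε < π) (hδ : 0 < δ)
    (hδ' : δ < π) (he : g2g h φ (φ + δ) = g2g h φ (φ - ε)) :
    0 < g2k h φ (φ + δ) - g2k h φ (φ - ε) := by
  have h1 : g2g h (φ + δ) (φ - ε) < h (φ + δ) := g2g_lt hh (by linarith) (by linarith)
  have h2 := g2g_rot h φ (φ + δ) (φ - ε)
  have h3 := g2g_rot h φ (φ + δ) (φ + δ)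
  rw [g2g_self] at h3
  have h4 : φ - (φ + δ) = - δ := by ring
  rw [h4, Real.sin_neg, Real.cos_neg] at h2 h3
  rw [he] at h3
  have h5 : 0 < (g2k h φ (φ + δ) - g2k h φ (φ - ε)) * Real.sin δ := by nlinarith
  exact (pos_iff_pos_of_mul_pos h5).2 (Real.sin_pos_of_pos_of_lt_pi hδ hδ')


/-! ### The support function of the caustic -/

/-- Support function of a set. -/
noncomputable def g2P (K : Set ℂ) (φ : ℝ) : ℝ := sSup (g2E φ '' K)

theorem g2E_continuous (φ : ℝ) : Continuous (g2E φ) := by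
  unfold g2E
  exact (Complex.continuous_re.mul continuous_const).add (Complex.continuous_im.mul continuous_const)

theorem g2E_isLinear (φ : ℝ) : IsLinearMap ℝ (g2E φ) where
  map_add z w := by unfold g2E; rw [Complex.add_re, Complex.add_im]; ring
  map_smul c z := by
    unfold g2E
    rw [Complex.real_smul, Complex.re_ofReal_mul, Complex.im_ofReal_mul, smul_eq_mul]
    ring

theorem g2E_sub (φ : ℝ) (z w : ℂ) : g2E φ (z - w) = g2E φ z - g2E φ w := by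
  unfold g2E; rw [Complex.sub_re, Complex.sub_im]; ring

theorem g2N_sub (φ : ℝ) (z w : ℂ) : g2N φ (z - w) = g2N φ z - g2N φ w := by
  unfold g2N; rw [Complex.sub_re, Complex.sub_im]; ring

theorem g2P_spec {K : Set ℂ} (hne : K.Nonempty) (hc : IsCompact K) (φ : ℝ) :
    (∃ z ∈ K, g2E φ z = g2P K φ) ∧ ∀ w ∈ K, g2E φ w ≤ g2P K φ := by
  obtain ⟨z, hz, hz'⟩ := hc.exists_isMaxOn hne (g2E_continuous φ).continuousOn
  have h1 : IsGreatest (g2E φ '' K) (g2E φ z) := by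
    refine ⟨⟨z, hz, rfl⟩, ?_⟩
    rintro _ ⟨w, hw, rfl⟩
    exact hz' hw
  have h2 : g2P K φ = g2E φ z := h1.csSup_eq
  rw [h2]
  exact ⟨⟨z, hz, rfl⟩, fun w hw => hz' hw⟩

theorem g2P_continuous {K : Set ℂ} (hc : IsCompact K) : Continuous (g2P K) := by
  refine hc.continuous_sSup (f := fun φ z => g2E φ z) ?_
  show Continuous fun p : ℝ × ℂ => g2E p.1 p.2
  unfold g2E
  exact ((Complex.continuous_re.comp continuous_snd).mul
    (Real.continuous_cos.comp continuous_fst)).add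
    ((Complex.continuous_im.comp continuous_snd).mul (Real.continuous_sin.comp continuous_fst))

theorem g2P_periodic (K : Set ℂ) (φ : ℝ) : g2P K (φ + 2 * π) = g2P K φ := by
  unfold g2P
  congr 1
  refine Set.image_congr fun z _ => g2E_add_two_pi φ z

theorem g2E_lt {S : Set ℂ} {φ c : ℝ} (hS : ∀ z ∈ S, g2E φ z ≤ c) {z : ℂ}
    (hz : z ∈ interior (convexHull ℝ S)) : g2E φ z < c := by
  have h1 : convexHull ℝ S ⊆ {w | g2E φ w ≤ c} :=
    convexHull_min hS (convex_halfSpace_le (g2E_isLinear φ) c)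
  have h2 : Filter.Tendsto (fun t : ℝ => z + (t : ℂ) * Complex.exp (φ * I)) (nhds 0) (nhds z) := by
    have : Continuous fun t : ℝ => z + (t : ℂ) * Complex.exp (φ * I) := by fun_prop
    have h3 := this.tendsto 0
    simpa using h3
  have h3 := h2.eventually (isOpen_interior.mem_nhds hz)
  obtain ⟨ε, hε, hε'⟩ := Metric.eventually_nhds_iff.1 h3
  have h4 := hε' (y := ε / 2) (by rw [Real.dist_eq, sub_zero, abs_of_pos (half_pos hε)]; linarith)
  have h5 : g2E φ (z + ((ε / 2 : ℝ) : ℂ) * Complex.exp (φ * I)) ≤ c := h1 (interior_subset h4)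
  have h6 : g2E φ (z + ((ε / 2 : ℝ) : ℂ) * Complex.exp (φ * I)) = g2E φ z + ε / 2 := by
    unfold g2E
    rw [Complex.add_re, Complex.add_im, Complex.re_ofReal_mul, Complex.im_ofReal_mul,
      Complex.exp_ofReal_mul_I_re, Complex.exp_ofReal_mul_I_im]
    linear_combination (ε / 2) * Real.sin_sq_add_cos_sq φ
  linarith

/-! ### Derivatives of the curves -/

theorem g2k_hasDerivAt (hh : IsSupp h) (φ ψ : ℝ) :
    HasDerivAt (g2k h φ) ((h ψ + deriv (deriv h) ψ) * Real.cos (ψ - φ)) ψ := by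
  have h1 : HasDerivAt h (deriv h ψ) ψ := (hh.g2_differentiable ψ).hasDerivAt
  have h2 : HasDerivAt (deriv h) (deriv (deriv h) ψ) ψ := (hh.g2_differentiable_deriv ψ).hasDerivAt
  have h3 : HasDerivAt (fun x : ℝ => x - φ) 1 ψ := (hasDerivAt_id ψ).sub_const φ
  have h4 := h3.cos
  have h5 := h3.sin
  have h6 := (h1.mul h5).add (h2.mul h4)
  have h7 : HasDerivAt (g2k h φ) (deriv h ψ * Real.sin (ψ - φ) + h ψ * (Real.cos (ψ - φ) * 1) +
      (deriv (deriv h) ψ * Real.cos (ψ - φ) + deriv h ψ * (-Real.sin (ψ - φ) * 1))) ψ := h6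
  have h8 : (h ψ + deriv (deriv h) ψ) * Real.cos (ψ - φ) =
      deriv h ψ * Real.sin (ψ - φ) + h ψ * (Real.cos (ψ - φ) * 1) +
      (deriv (deriv h) ψ * Real.cos (ψ - φ) + deriv h ψ * (-Real.sin (ψ - φ) * 1)) := by ring
  rw [h8]
  exact h7

theorem g2_reI (A B : ℝ) : ((A : ℂ) + (B : ℂ) * I).re = A := by simp

theorem g2_imI (A B : ℝ) : ((A : ℂ) + (B : ℂ) * I).im = B := by simp

theorem g2_supCurve_eq (h : ℝ → ℝ) :
    supCurve h = fun ψ => ((g2g h 0 ψ : ℝ) : ℂ) + ((g2k h 0 ψ : ℝ) : ℂ) * I := by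
  funext ψ
  refine Complex.ext ?_ ?_
  · rw [g2_supCurve_re, g2_reI, g2g, sub_zero]
  · rw [g2_supCurve_im, g2_imI, g2k, sub_zero]

theorem g2_supCurve_hasDerivAt (hh : IsSupp h) (ψ : ℝ) :
    HasDerivAt (supCurve h) (((-(h ψ + deriv (deriv h) ψ) * Real.sin ψ : ℝ) : ℂ) +
      (((h ψ + deriv (deriv h) ψ) * Real.cos ψ : ℝ) : ℂ) * I) ψ := by
  have h1 := (g2g_hasDerivAt hh 0 ψ).ofReal_comp
  have h2 := (g2k_hasDerivAt hh 0 ψ).ofReal_comp
  rw [g2_supCurve_eq]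
  have h3 := h1.add (h2.mul_const I)
  rw [sub_zero] at h3
  exact h3

theorem g2_deriv_curve {γ : ℝ → ℂ} {τ : ℝ → ℝ} (hh : IsSupp h) (hτ : ContDiff ℝ 1 τ)
    (hγ : ∀ t, γ t = supCurve h (τ t)) (t : ℝ) :
    (deriv γ t).re = deriv τ t * (-(h (τ t) + deriv (deriv h) (τ t)) * Real.sin (τ t)) ∧
    (deriv γ t).im = deriv τ t * ((h (τ t) + deriv (deriv h) (τ t)) * Real.cos (τ t)) := by
  have h1 : HasDerivAt τ (deriv τ t) t := ((hτ.differentiable (by norm_num)) t).hasDerivAt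
  have h2 := HasDerivAt.scomp t (g2_supCurve_hasDerivAt hh (τ t)) h1
  have h3 : γ = supCurve h ∘ τ := funext hγ
  rw [h3, h2.deriv, Complex.real_smul, Complex.re_ofReal_mul, Complex.im_ofReal_mul, g2_reI,
    g2_imI]
  exact ⟨rfl, rfl⟩

/-! ### Chords -/

theorem g2_chord_coord {φ : ℝ} {x y : ℂ} {L : ℝ} (h1 : g2E φ y = g2E φ x) (h2 : g2N φ y - g2N φ x = L) :
    (y - x).re = - L * Real.sin φ ∧ (y - x).im = L * Real.cos φ := by
  constructor
  · rw [g2_re φ (y - x), g2E_sub, g2N_sub, h1, h2]; ring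
  · rw [g2_im φ (y - x), g2E_sub, g2N_sub, h1, h2]; ring

theorem g2_chord_norm {φ : ℝ} {x y : ℂ} {L : ℝ} (hL : 0 < L) (h1 : g2E φ y = g2E φ x)
    (h2 : g2N φ y - g2N φ x = L) : ‖y - x‖ = L := by
  obtain ⟨h3, h4⟩ := g2_chord_coord h1 h2
  have h5 : ‖y - x‖ ^ 2 = L ^ 2 := by
    rw [Complex.sq_norm, Complex.normSq_apply, h3, h4]
    linear_combination L ^ 2 * Real.sin_sq_add_cos_sq φ
  exact (pow_left_inj₀ (norm_nonneg _) hL.le (by norm_num)).1 h5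

theorem g2_chord_crossp {φ : ℝ} {x y : ℂ} {L : ℝ} (h1 : g2E φ y = g2E φ x)
    (h2 : g2N φ y - g2N φ x = L) (z : ℂ) :
    crossp (y - x) (z - x) = L * (g2E φ x - g2E φ z) := by
  obtain ⟨h3, h4⟩ := g2_chord_coord h1 h2
  unfold crossp
  rw [h3, h4, ← neg_sub (g2E φ z), ← g2E_sub]
  unfold g2E
  ring

/-- Touching on the left in terms of the support function. -/
theorem g2_touchesLeft_iff {K : Set ℂ} (hne : K.Nonempty) (hc : IsCompact K) {φ : ℝ} {x y : ℂ} {L : ℝ}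
    (hL : 0 < L) (h1 : g2E φ y = g2E φ x) (h2 : g2N φ y - g2N φ x = L) :
    TouchesLeft K x y ↔ g2E φ x = g2P K φ := by
  obtain ⟨⟨z₀, hz₀, hz₀'⟩, hmax⟩ := g2P_spec hne hc φ
  unfold TouchesLeft
  simp only [g2_chord_crossp h1 h2]
  constructor
  · rintro ⟨h3, z, hz, h4⟩
    have h5 : g2E φ x = g2E φ z := by
      rcases mul_eq_zero.1 h4 with h5 | h5
      · exact absurd h5 hL.ne'
      · linarith
    have h6 := h3 z₀ hz₀
    have h7 := nonneg_of_mul_nonneg_right h6 hL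
    have h8 := hmax z hz
    linarith
  · intro h3
    refine ⟨fun z hz => mul_nonneg hL.le ?_, z₀, hz₀, ?_⟩
    · have := hmax z hz
      linarith
    · rw [hz₀', h3]; ring

/-- The reflection law at `ψ₁ = φ + δ` between the lines with normal angles `φ` and `φ + 2δ`. -/
theorem g2_reflects {γ : ℝ → ℂ} {τ : ℝ → ℝ} (hh : IsSupp h) (hτ : ContDiff ℝ 1 τ)
    (hγ : ∀ t, γ t = supCurve h (τ t)) {t₀ t₁ t₂ φ ε δ δ' : ℝ} (hε : 0 < ε) (hε' : ε < π)
    (hδ : 0 < δ) (hδ' : δ < π) (hd : 0 < δ') (hd' : δ' < π) (h0 : τ t₀ = φ - ε)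
    (h1 : τ t₁ = φ + δ) (h2 : τ t₂ = φ + 2 * δ + δ') (he : g2g h φ (φ + δ) = g2g h φ (φ - ε))
    (he' : g2g h (φ + 2 * δ) (φ + 2 * δ + δ') = g2g h (φ + 2 * δ) (φ + 2 * δ - δ)) :
    ReflectsAt γ t₀ t₁ t₂ := by
  have e1 : φ + 2 * δ - δ = φ + δ := by ring
  have hL := g2_chord_pos hh hε hε' hδ hδ' he
  have hL' := g2_chord_pos hh hδ hδ' hd hd' he'
  rw [e1] at he' hL'
  obtain ⟨d1, d2⟩ := g2_deriv_curve hh hτ hγ t₁
  have a1 : g2E φ (γ t₁) = g2E φ (γ t₀) := by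
    rw [hγ, hγ, h0, h1, g2E_supCurve, g2E_supCurve, he]
  have a2 : g2N φ (γ t₁) - g2N φ (γ t₀) = g2k h φ (φ + δ) - g2k h φ (φ - ε) := by
    rw [hγ, hγ, h0, h1, g2N_supCurve, g2N_supCurve]
  have b1 : g2E (φ + 2 * δ) (γ t₂) = g2E (φ + 2 * δ) (γ t₁) := by
    rw [hγ, hγ, h2, h1, g2E_supCurve, g2E_supCurve, he']
  have b2 : g2N (φ + 2 * δ) (γ t₂) - g2N (φ + 2 * δ) (γ t₁) =
      g2k h (φ + 2 * δ) (φ + 2 * δ + δ') - g2k h (φ + 2 * δ) (φ + δ) := by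
    rw [hγ, hγ, h2, h1, g2N_supCurve, g2N_supCurve]
  obtain ⟨a3, a4⟩ := g2_chord_coord a1 a2
  obtain ⟨b3, b4⟩ := g2_chord_coord b1 b2
  unfold ReflectsAt
  rw [g2_chord_norm hL a1 a2, g2_chord_norm hL' b1 b2]
  unfold dotp
  rw [a3, a4, b3, b4, d1, d2, h1]
  rw [div_eq_div_iff hL.ne' hL'.ne']
  have c1 : Real.sin φ * Real.sin (φ + δ) + Real.cos φ * Real.cos (φ + δ) = Real.cos δ := by
    have := Real.cos_sub (φ + δ) φ
    rw [add_sub_cancel_left] at this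
    rw [this]; ring
  have c2 : Real.sin (φ + 2 * δ) * Real.sin (φ + δ) + Real.cos (φ + 2 * δ) * Real.cos (φ + δ) =
      Real.cos δ := by
    have := Real.cos_sub (φ + 2 * δ) (φ + δ)
    have e2 : φ + 2 * δ - (φ + δ) = δ := by ring
    rw [e2] at this
    rw [this]; ring
  set L := g2k h φ (φ + δ) - g2k h φ (φ - ε)
  set L' := g2k h (φ + 2 * δ) (φ + 2 * δ + δ') - g2k h (φ + 2 * δ) (φ + δ)
  set ρ := h (φ + δ) + deriv (deriv h) (φ + δ)
  have e3 : -L * Real.sin φ * (deriv τ t₁ * (-ρ * Real.sin (φ + δ))) +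
      L * Real.cos φ * (deriv τ t₁ * (ρ * Real.cos (φ + δ))) =
      L * deriv τ t₁ * ρ * (Real.sin φ * Real.sin (φ + δ) + Real.cos φ * Real.cos (φ + δ)) := by ring
  have e4 : -L' * Real.sin (φ + 2 * δ) * (deriv τ t₁ * (-ρ * Real.sin (φ + δ))) +
      L' * Real.cos (φ + 2 * δ) * (deriv τ t₁ * (ρ * Real.cos (φ + δ))) =
      L' * deriv τ t₁ * ρ * (Real.sin (φ + 2 * δ) * Real.sin (φ + δ) +
        Real.cos (φ + 2 * δ) * Real.cos (φ + δ)) := by ring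
  rw [e3, e4, c1, c2]
  ring


/-! ### The trajectory -/

theorem g2_supCurve_periodic (hh : IsSupp h) : Function.Periodic (supCurve h) (2 * π) := by
  intro ψ
  refine Complex.ext ?_ ?_
  · rw [g2_supCurve_re, g2_supCurve_re, hh.periodic, hh.g2_deriv_periodic, Real.cos_add_two_pi,
      Real.sin_add_two_pi]
  · rw [g2_supCurve_im, g2_supCurve_im, hh.periodic, hh.g2_deriv_periodic, Real.cos_add_two_pi,
      Real.sin_add_two_pi]

theorem g2_tau_add_nat {τ : ℝ → ℝ} (hτp : ∀ t, τ (t + 2 * π) = τ t + 2 * π) (p : ℕ) (t : ℝ) :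
    τ (t + 2 * π * p) = τ t + 2 * π * p := by
  induction p with
  | zero => simp
  | succ p ih =>
    have e : t + 2 * π * ((p + 1 : ℕ) : ℝ) = t + 2 * π * p + 2 * π := by push_cast; ring
    rw [e, hτp, ih]; push_cast; ring

theorem g2_tau_surj {τ : ℝ → ℝ} (hc : Continuous τ) (hτp : ∀ t, τ (t + 2 * π) = τ t + 2 * π) (y : ℝ) :
    ∃ t, τ t = y := by
  obtain ⟨n, hn⟩ := exists_nat_gt (|y - τ 0| / (2 * π))
  have hpi := Real.two_pi_pos
  rw [div_lt_iff₀ hpi] at hn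
  have h1 := g2_tau_add_nat hτp n 0
  have h2 := g2_tau_add_nat hτp n (-(2 * π * n))
  rw [neg_add_cancel] at h2
  rw [zero_add] at h1
  have h3 := neg_abs_le (y - τ 0)
  have h4 := le_abs_self (y - τ 0)
  have h5 := intermediate_value_Icc (a := -(2 * π * n)) (b := 2 * π * n) (by
    have : (0:ℝ) ≤ n := Nat.cast_nonneg n
    nlinarith) hc.continuousOn
  obtain ⟨t, -, ht⟩ := h5 (show y ∈ Icc (τ (-(2 * π * n))) (τ (2 * π * n)) from
    ⟨by linarith, by linarith⟩)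
  exact ⟨t, ht⟩

/-- The states of the billiard: normal angle of the line and entry offset. -/
noncomputable def g2st (D : ℝ → ℝ → ℝ) (s₀ : ℝ × ℝ) : ℕ → ℝ × ℝ
  | 0 => s₀
  | n + 1 => ((g2st D s₀ n).1 + 2 * D (g2st D s₀ n).1 (g2st D s₀ n).2,
      D (g2st D s₀ n).1 (g2st D s₀ n).2)

/-- The data used for the construction. -/
structure G2Data (γ : ℝ → ℂ) (h τ ti : ℝ → ℝ) (D : ℝ → ℝ → ℝ) : Prop where
  hh : IsSupp h
  hτ : ContDiff ℝ 1 τ
  hτm : StrictMono τ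
  hτp : ∀ t, τ (t + 2 * π) = τ t + 2 * π
  hγ : ∀ t, γ t = supCurve h (τ t)
  hti : ∀ y, τ (ti y) = y
  hD : ∀ φ ε, 0 < ε → ε < π → 0 < D φ ε ∧ D φ ε < π ∧ g2g h φ (φ + D φ ε) = g2g h φ (φ - ε)

namespace G2Data

variable {γ : ℝ → ℂ} {τ ti : ℝ → ℝ} {D : ℝ → ℝ → ℝ} (W : G2Data γ h τ ti D)
include W

theorem st_bd {s₀ : ℝ × ℝ} (h0 : 0 < s₀.2) (h0' : s₀.2 < π) (n : ℕ) :
    0 < (g2st D s₀ n).2 ∧ (g2st D s₀ n).2 < π := by
  induction n with
  | zero => exact ⟨h0, h0'⟩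
  | succ n ih =>
    obtain ⟨h1, h2, -⟩ := W.hD (g2st D s₀ n).1 (g2st D s₀ n).2 ih.1 ih.2
    exact ⟨h1, h2⟩

/-- The chord of the state `n`. -/
theorem st_chord {s₀ : ℝ × ℝ} (h0 : 0 < s₀.2) (h0' : s₀.2 < π) (n : ℕ) :
    ∃ L : ℝ, 0 < L ∧
      g2E (g2st D s₀ n).1 (γ (ti ((g2st D s₀ (n + 1)).1 - (g2st D s₀ (n + 1)).2))) =
        g2E (g2st D s₀ n).1 (γ (ti ((g2st D s₀ n).1 - (g2st D s₀ n).2))) ∧
      g2N (g2st D s₀ n).1 (γ (ti ((g2st D s₀ (n + 1)).1 - (g2st D s₀ (n + 1)).2))) -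
        g2N (g2st D s₀ n).1 (γ (ti ((g2st D s₀ n).1 - (g2st D s₀ n).2))) = L := by
  obtain ⟨h1, h2⟩ := W.st_bd h0 h0' n
  obtain ⟨h3, h4, h5⟩ := W.hD (g2st D s₀ n).1 (g2st D s₀ n).2 h1 h2
  have e1 : (g2st D s₀ (n + 1)).1 - (g2st D s₀ (n + 1)).2 =
      (g2st D s₀ n).1 + D (g2st D s₀ n).1 (g2st D s₀ n).2 := by
    show (g2st D s₀ n).1 + 2 * D (g2st D s₀ n).1 (g2st D s₀ n).2 -
      D (g2st D s₀ n).1 (g2st D s₀ n).2 = _
    ring
  refine ⟨_, g2_chord_pos W.hh h1 h2 h3 h4 h5, ?_, ?_⟩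
  · rw [e1, W.hγ, W.hγ, W.hti, W.hti, g2E_supCurve, g2E_supCurve, h5]
  · rw [e1, W.hγ, W.hγ, W.hti, W.hti, g2N_supCurve, g2N_supCurve]

theorem st_traj {s₀ : ℝ × ℝ} (h0 : 0 < s₀.2) (h0' : s₀.2 < π) :
    IsTrajectory γ fun n => ti ((g2st D s₀ n).1 - (g2st D s₀ n).2) := by
  have key : ∀ n, (g2st D s₀ (n + 1)).1 - (g2st D s₀ (n + 1)).2 =
      (g2st D s₀ n).1 + D (g2st D s₀ n).1 (g2st D s₀ n).2 := by
    intro n
    show (g2st D s₀ n).1 + 2 * D (g2st D s₀ n).1 (g2st D s₀ n).2 -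
      D (g2st D s₀ n).1 (g2st D s₀ n).2 = _
    ring
  constructor
  · intro n
    obtain ⟨h1, h2⟩ := W.st_bd h0 h0' n
    obtain ⟨h3, h4, h5⟩ := W.hD (g2st D s₀ n).1 (g2st D s₀ n).2 h1 h2
    show ti ((g2st D s₀ n).1 - (g2st D s₀ n).2) <
      ti ((g2st D s₀ (n + 1)).1 - (g2st D s₀ (n + 1)).2) ∧
      ti ((g2st D s₀ (n + 1)).1 - (g2st D s₀ (n + 1)).2) <
      ti ((g2st D s₀ n).1 - (g2st D s₀ n).2) + 2 * π
    constructor
    · refine W.hτm.lt_iff_lt.1 ?_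
      rw [W.hti, W.hti, key]
      linarith
    · refine W.hτm.lt_iff_lt.1 ?_
      rw [W.hτp, W.hti, W.hti, key]
      linarith
  · intro n
    obtain ⟨h1, h2⟩ := W.st_bd h0 h0' n
    obtain ⟨h3, h4, h5⟩ := W.hD (g2st D s₀ n).1 (g2st D s₀ n).2 h1 h2
    obtain ⟨h6, h7, h8⟩ := W.hD (g2st D s₀ (n + 1)).1 (g2st D s₀ (n + 1)).2 h3 h4
    refine g2_reflects W.hh W.hτ W.hγ h1 h2 h3 h4 h6 h7 (W.hti _) ?_ ?_ h5 h8
    · show τ (ti _) = _
      rw [W.hti, key]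
    · show τ (ti _) = _
      rw [W.hti, key]
      rfl

end G2Data

theorem IsTrajectory.g2_shift {γ : ℝ → ℂ} {t : ℕ → ℝ} (ht : IsTrajectory γ t) (m : ℕ) :
    IsTrajectory γ fun n => t (n + m) := by
  constructor
  · intro n
    have := ht.1 (n + m)
    show t (n + m) < t (n + 1 + m) ∧ t (n + 1 + m) < t (n + m) + 2 * π
    rw [Nat.add_right_comm]
    exact this
  · intro n
    have := ht.2 (n + m)
    show ReflectsAt γ (t (n + m)) (t (n + 1 + m)) (t (n + 2 + m))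
    rw [Nat.add_right_comm n 1 m, Nat.add_right_comm n 2 m]
    exact this

/-- G2. -/
theorem pcaustic_of_caustic {γ : ℝ → ℂ} {h τ : ℝ → ℝ} (hh : IsSupp h) (hτ : ContDiff ℝ 1 τ)
    (hτ' : ∀ t, 0 < deriv τ t) (hτp : ∀ t, τ (t + 2 * π) = τ t + 2 * π)
    (hγ : ∀ t, γ t = supCurve h (τ t)) {K : Set ℂ} {p q : ℕ}
    (hK : IsIntegrableRationalCaustic γ K p q) : ∃ P f : ℝ → ℝ, PCaustic h P f p q := by
  have hτm : StrictMono τ := strictMono_of_deriv_pos hτ'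
  -- support inequalities
  have hS : ∀ φ, ∀ z ∈ Set.range γ, g2E φ z ≤ h φ := by
    rintro φ _ ⟨t, rfl⟩
    rw [hγ, g2E_supCurve]
    exact g2g_le hh φ _
  have hKlt : ∀ φ, ∀ z ∈ K, g2E φ z < h φ := fun φ z hz => g2E_lt (hS φ) (hK.inside hz)
  have hP1 : ∀ φ, g2P K φ < h φ := by
    intro φ
    obtain ⟨⟨z, hz, hz'⟩, -⟩ := g2P_spec hK.nonempty hK.compact φ
    rw [← hz']
    exact hKlt φ z hz
  have hP2 : ∀ φ, - h (φ + π) < g2P K φ := by
    intro φ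
    obtain ⟨⟨z, hz, hz'⟩, -⟩ := g2P_spec hK.nonempty hK.compact φ
    have := hKlt (φ + π) z hz
    rw [g2E_add_pi] at this
    rw [← hz']
    linarith
  -- the choices
  choose δ₀ hδ1 hδ2 hδ3 using fun φ => g2_exists_delta hh (hP2 φ) (hP1 φ)
  choose ε₀ hε1 hε2 hε3 using fun φ => g2_exists_eps hh (hP2 φ) (hP1 φ)
  have hDex : ∀ φ ε : ℝ, ∃ δ : ℝ, 0 < ε → ε < π →
      (0 < δ ∧ δ < π ∧ g2g h φ (φ + δ) = g2g h φ (φ - ε)) := by
    intro φ ε
    by_cases h1 : 0 < ε ∧ ε < π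
    · obtain ⟨h2, h3⟩ := g2g_lt_sub hh (φ := φ) h1.1 h1.2
      obtain ⟨δ, hδ⟩ := g2_exists_delta hh h2 h3
      exact ⟨δ, fun _ _ => hδ⟩
    · exact ⟨0, fun h2 h3 => absurd ⟨h2, h3⟩ h1⟩
  choose D hD using hDex
  choose ti hti using g2_tau_surj hτ.continuous hτp
  have W : G2Data γ h τ ti D := ⟨hh, hτ, hτm, hτp, hγ, hti, hD⟩
  -- the states starting from a tangent line
  have main : ∀ φ n, (g2st D (φ, ε₀ φ) n).1 = (fun x => x + 2 * δ₀ x)^[n] φ ∧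
      g2g h (g2st D (φ, ε₀ φ) n).1 ((g2st D (φ, ε₀ φ) n).1 - (g2st D (φ, ε₀ φ) n).2) =
        g2P K (g2st D (φ, ε₀ φ) n).1 ∧
      TouchesLeft K (γ (ti ((g2st D (φ, ε₀ φ) n).1 - (g2st D (φ, ε₀ φ) n).2)))
        (γ (ti ((g2st D (φ, ε₀ φ) (n + 1)).1 - (g2st D (φ, ε₀ φ) (n + 1)).2))) := by
    intro φ n
    have h0 : 0 < (φ, ε₀ φ).2 := hε1 φ
    have h0' : (φ, ε₀ φ).2 < π := hε2 φ
    have htouch : ∀ n, TouchesLeft K (γ (ti ((g2st D (φ, ε₀ φ) n).1 - (g2st D (φ, ε₀ φ) n).2)))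
        (γ (ti ((g2st D (φ, ε₀ φ) (n + 1)).1 - (g2st D (φ, ε₀ φ) (n + 1)).2))) ↔
        g2g h (g2st D (φ, ε₀ φ) n).1 ((g2st D (φ, ε₀ φ) n).1 - (g2st D (φ, ε₀ φ) n).2) =
        g2P K (g2st D (φ, ε₀ φ) n).1 := by
      intro n
      obtain ⟨L, hL, h1, h2⟩ := W.st_chord h0 h0' n
      rw [g2_touchesLeft_iff hK.nonempty hK.compact hL h1 h2]
      nth_rewrite 1 [hγ]
      rw [hti, g2E_supCurve]
    induction n with
    | zero =>
      have h3 : g2g h (g2st D (φ, ε₀ φ) 0).1 ((g2st D (φ, ε₀ φ) 0).1 - (g2st D (φ, ε₀ φ) 0).2) =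
        g2P K (g2st D (φ, ε₀ φ) 0).1 := hε3 φ
      exact ⟨rfl, h3, (htouch 0).2 h3⟩
    | succ n ih =>
      obtain ⟨ih1, ih2, ih3⟩ := ih
      obtain ⟨b1, b2⟩ := W.st_bd h0 h0' n
      obtain ⟨d1, d2, d3⟩ := hD (g2st D (φ, ε₀ φ) n).1 (g2st D (φ, ε₀ φ) n).2 b1 b2
      have h4 : D (g2st D (φ, ε₀ φ) n).1 (g2st D (φ, ε₀ φ) n).2 = δ₀ (g2st D (φ, ε₀ φ) n).1 := by
        refine g2_delta_unique hh (φ := (g2st D (φ, ε₀ φ) n).1) d1 d2 (hδ1 _) (hδ2 _) ?_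
        rw [d3, ih2, hδ3]
      have h5 := ((W.st_traj h0 h0').g2_shift n)
      have h6 := hK.tangent _ h5 (by
        show TouchesLeft K (γ (ti ((g2st D (φ, ε₀ φ) (0 + n)).1 - (g2st D (φ, ε₀ φ) (0 + n)).2)))
          (γ (ti ((g2st D (φ, ε₀ φ) (1 + n)).1 - (g2st D (φ, ε₀ φ) (1 + n)).2)))
        rw [zero_add, add_comm 1 n]
        exact ih3)
      have h7 : TouchesLeft K
          (γ (ti ((g2st D (φ, ε₀ φ) (n + 1)).1 - (g2st D (φ, ε₀ φ) (n + 1)).2)))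
          (γ (ti ((g2st D (φ, ε₀ φ) (n + 1 + 1)).1 - (g2st D (φ, ε₀ φ) (n + 1 + 1)).2))) := by
        have e1 : 1 + n = n + 1 := add_comm 1 n
        have e2 : 2 + n = n + 1 + 1 := by ring
        have h8 : TouchesLeft K
          (γ (ti ((g2st D (φ, ε₀ φ) (1 + n)).1 - (g2st D (φ, ε₀ φ) (1 + n)).2)))
          (γ (ti ((g2st D (φ, ε₀ φ) (2 + n)).1 - (g2st D (φ, ε₀ φ) (2 + n)).2))) := h6
        rw [e1, e2] at h8
        exact h8
      refine ⟨?_, (htouch (n + 1)).1 h7, h7⟩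
      rw [Function.iterate_succ_apply', ← ih1]
      show (g2st D (φ, ε₀ φ) n).1 + 2 * D (g2st D (φ, ε₀ φ) n).1 (g2st D (φ, ε₀ φ) n).2 = _
      rw [h4]
  refine ⟨g2P K, fun x => x + 2 * δ₀ x, ?_⟩
  refine ⟨g2P_continuous hK.compact, g2P_periodic K, fun x => ?_, fun x => ?_, fun x => ?_,
    fun x => ?_, fun x => ?_⟩
  · have := hδ1 x
    show x < x + 2 * δ₀ x
    linarith
  · have := hδ2 x
    show x + 2 * δ₀ x < x + 2 * π
    linarith
  · show lineIn h x (x + 2 * δ₀ x) = g2P K x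
    rw [← hδ3 x]
    unfold lineIn g2g
    have e1 : (x + (x + 2 * δ₀ x)) / 2 = x + δ₀ x := by ring
    have e2 : (x + 2 * δ₀ x - x) / 2 = δ₀ x := by ring
    rw [e1, e2, add_sub_cancel_left]
  · show lineOut h x (x + 2 * δ₀ x) = g2P K (x + 2 * δ₀ x)
    obtain ⟨m1, m2, m3⟩ := main x 1
    obtain ⟨b1, b2⟩ := W.st_bd (s₀ := (x, ε₀ x)) (hε1 x) (hε2 x) 0
    obtain ⟨d1, d2, d3⟩ := hD (g2st D (x, ε₀ x) 0).1 (g2st D (x, ε₀ x) 0).2 b1 b2
    have h4 : D (g2st D (x, ε₀ x) 0).1 (g2st D (x, ε₀ x) 0).2 = δ₀ x := by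
      refine g2_delta_unique hh (φ := x) d1 d2 (hδ1 _) (hδ2 _) ?_
      refine Eq.trans d3 ?_
      rw [hδ3]
      exact hε3 x
    have h5 : (g2st D (x, ε₀ x) 1).1 = x + 2 * δ₀ x := m1
    have h6 : (g2st D (x, ε₀ x) 1).2 = δ₀ x := h4
    rw [h5, h6] at m2
    rw [← m2]
    unfold lineOut g2g
    have e1 : (x + (x + 2 * δ₀ x)) / 2 = x + δ₀ x := by ring
    have e2 : (x + 2 * δ₀ x - x) / 2 = δ₀ x := by ring
    have e3 : x + 2 * δ₀ x - δ₀ x = x + δ₀ x := by ring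
    have e4 : x + δ₀ x - (x + 2 * δ₀ x) = - δ₀ x := by ring
    rw [e1, e2, e3, e4, Real.cos_neg, Real.sin_neg]
    ring
  · have h0 : 0 < (x, ε₀ x).2 := hε1 x
    have h0' : (x, ε₀ x).2 < π := hε2 x
    obtain ⟨m1, m2, m3⟩ := main x q
    rw [← m1]
    have htr := W.st_traj h0 h0'
    have p1 := hK.periodic _ htr (main x 0).2.2
    have p2 := hK.periodic _ (htr.g2_shift 1) (main x 1).2.2
    have p3 : (g2st D (x, ε₀ x) q).1 - (g2st D (x, ε₀ x) q).2 =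
        (g2st D (x, ε₀ x) 0).1 - (g2st D (x, ε₀ x) 0).2 + 2 * π * p := by
      have := congrArg τ p1
      rw [g2_tau_add_nat hτp, hti, hti] at this
      exact this
    have p4 : (g2st D (x, ε₀ x) (q + 1)).1 - (g2st D (x, ε₀ x) (q + 1)).2 =
        (g2st D (x, ε₀ x) 1).1 - (g2st D (x, ε₀ x) 1).2 + 2 * π * p := by
      have := congrArg τ p2
      rw [g2_tau_add_nat hτp, hti, hti] at this
      exact this
    obtain ⟨L, hL, c1, c2⟩ := W.st_chord h0 h0' 0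
    obtain ⟨L', hL', c1', c2'⟩ := W.st_chord h0 h0' q
    have hper : ∀ y : ℝ, supCurve h (y + 2 * π * p) = supCurve h y := by
      intro y
      have := (g2_supCurve_periodic hh).nat_mul p y
      rw [mul_comm (p : ℝ)] at this
      exact this
    have g1 : γ (ti ((g2st D (x, ε₀ x) (q + 1)).1 - (g2st D (x, ε₀ x) (q + 1)).2)) =
        γ (ti ((g2st D (x, ε₀ x) (0 + 1)).1 - (g2st D (x, ε₀ x) (0 + 1)).2)) := by
      rw [hγ, hγ, hti, hti, p4, hper]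
    have g2 : γ (ti ((g2st D (x, ε₀ x) q).1 - (g2st D (x, ε₀ x) q).2)) =
        γ (ti ((g2st D (x, ε₀ x) 0).1 - (g2st D (x, ε₀ x) 0).2)) := by
      rw [hγ, hγ, hti, hti, p3, hper]
    rw [g1, g2] at c1' c2'
    obtain ⟨k1, k2⟩ := g2_chord_coord c1 c2
    obtain ⟨k1', k2'⟩ := g2_chord_coord c1' c2'
    have hLL : L' = L := by rw [← g2_chord_norm hL c1 c2, ← g2_chord_norm hL' c1' c2']
    rw [k1, hLL] at k1'
    rw [k2, hLL] at k2'
    have s1 : Real.sin (g2st D (x, ε₀ x) q).1 = Real.sin x := by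
      have : -L * Real.sin x = -L * Real.sin (g2st D (x, ε₀ x) q).1 := k1'
      exact (mul_left_cancel₀ (neg_ne_zero.2 hL.ne') this).symm
    have s2 : Real.cos (g2st D (x, ε₀ x) q).1 = Real.cos x := by
      have : L * Real.cos x = L * Real.cos (g2st D (x, ε₀ x) q).1 := k2'
      exact (mul_left_cancel₀ hL.ne' this).symm
    obtain ⟨b1, b2⟩ := W.st_bd h0 h0' q
    have p5 : (g2st D (x, ε₀ x) q).1 - x - 2 * π * p = (g2st D (x, ε₀ x) q).2 - ε₀ x := by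
      have : (g2st D (x, ε₀ x) q).1 - (g2st D (x, ε₀ x) q).2 = x - ε₀ x + 2 * π * p := p3
      linarith
    have c3 : Real.cos ((g2st D (x, ε₀ x) q).1 - x - 2 * π * p) = 1 := by
      have e1 : (g2st D (x, ε₀ x) q).1 - x - 2 * π * p =
          (g2st D (x, ε₀ x) q).1 - x - (p : ℝ) * (2 * π) := by ring
      rw [e1, Real.cos_sub_nat_mul_two_pi, Real.cos_sub, s1, s2]
      have := Real.sin_sq_add_cos_sq x
      nlinarith
    have hε1x := hε1 x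
    have hε2x := hε2 x
    have c4 := (Real.cos_eq_one_iff_of_lt_of_lt (x := (g2st D (x, ε₀ x) q).1 - x - 2 * π * p)
      (by rw [p5]; linarith [Real.pi_pos]) (by rw [p5]; linarith [Real.pi_pos])).1 c3
    linarith

end LSB
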