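import Pool.Agent.LSB.Defs

/-!
# Part G3: support functions of ellipses

G3.  For `h(ψ)=hE a b (ψ-τ)+v cosψ+w sinψ`: `supCurve h ψ=(v+iw)+e^{iτ}supCurve (hE a b) (ψ-τ)`, and
`supCurve (hE a b) ψ=(a²cosψ+i b²sinψ)/hE a b ψ=ellipseCurve a b t` with `cos t=a cosψ/hE`, `sin t=b sinψ/hE`
(sum of squares is 1; conversely every `t` occurs: take `ψ` with `(cosψ,sinψ)` proportional to `(cos t/a, sin t/b)`).
-/

namespace LSB

open Real Complex


namespace G3x

/-- The radicand in the support function of an ellipse is positive. -/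
theorem rad_pos {a b : ℝ} (hb : 0 < b) (hab : b < a) (ψ : ℝ) :
    0 < a ^ 2 * Real.cos ψ ^ 2 + b ^ 2 * Real.sin ψ ^ 2 := by
  have h1 := Real.sin_sq_add_cos_sq ψ
  have hb2 : 0 < b ^ 2 := by positivity
  have hab2 : b ^ 2 < a ^ 2 := by nlinarith
  nlinarith [sq_nonneg (Real.cos ψ), sq_nonneg (Real.sin ψ)]

theorem hE_pos {a b : ℝ} (hb : 0 < b) (hab : b < a) (ψ : ℝ) : 0 < hE a b ψ :=
  Real.sqrt_pos.2 (rad_pos hb hab ψ)

theorem hE_sq {a b : ℝ} (hb : 0 < b) (hab : b < a) (ψ : ℝ) :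
    hE a b ψ ^ 2 = a ^ 2 * Real.cos ψ ^ 2 + b ^ 2 * Real.sin ψ ^ 2 :=
  Real.sq_sqrt (rad_pos hb hab ψ).le

theorem hE_hasDerivAt {a b : ℝ} (hb : 0 < b) (hab : b < a) (ψ : ℝ) :
    HasDerivAt (hE a b) ((b ^ 2 - a ^ 2) * Real.sin ψ * Real.cos ψ / hE a b ψ) ψ := by
  have h1 : HasDerivAt (fun x : ℝ => a ^ 2 * Real.cos x ^ 2 + b ^ 2 * Real.sin x ^ 2)
      (a ^ 2 * (2 * Real.cos ψ ^ (2 - 1) * (-Real.sin ψ)) +
        b ^ 2 * (2 * Real.sin ψ ^ (2 - 1) * Real.cos ψ)) ψ := by
    have hc := ((Real.hasDerivAt_cos ψ).pow 2).const_mul (a ^ 2)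
    have hs := ((Real.hasDerivAt_sin ψ).pow 2).const_mul (b ^ 2)
    exact_mod_cast hc.add hs
  have h2 := h1.sqrt (rad_pos hb hab ψ).ne'
  have h3 : (a ^ 2 * (2 * Real.cos ψ ^ (2 - 1) * (-Real.sin ψ)) +
        b ^ 2 * (2 * Real.sin ψ ^ (2 - 1) * Real.cos ψ)) /
        (2 * √(a ^ 2 * Real.cos ψ ^ 2 + b ^ 2 * Real.sin ψ ^ 2)) =
      (b ^ 2 - a ^ 2) * Real.sin ψ * Real.cos ψ / hE a b ψ := by
    have h0 := (hE_pos hb hab ψ).ne'
    unfold hE at h0 ⊢
    field_simp
    ring
  rw [← h3]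
  exact h2

/-- Trigonometric form of the boundary point of an ellipse with given normal. -/
theorem supCurve_hE {a b : ℝ} (hb : 0 < b) (hab : b < a) (ψ : ℝ) :
    supCurve (hE a b) ψ = ((a ^ 2 * Real.cos ψ / hE a b ψ : ℝ) : ℂ) +
      ((b ^ 2 * Real.sin ψ / hE a b ψ : ℝ) : ℂ) * I := by
  have h0 := (hE_pos hb hab ψ).ne'
  have h1 := hE_sq hb hab ψ
  have h2 := Real.sin_sq_add_cos_sq ψ
  unfold supCurve
  rw [(hE_hasDerivAt hb hab ψ).deriv, Complex.exp_mul_I, ← Complex.ofReal_cos,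
    ← Complex.ofReal_sin]
  apply Complex.ext
  · simp only [Complex.add_re, Complex.mul_re, Complex.ofReal_re, Complex.ofReal_im, Complex.I_re,
      Complex.I_im, Complex.add_im, Complex.mul_im]
    field_simp
    rw [h1]
    linear_combination (a ^ 2 * Real.cos ψ) * h2
  · simp only [Complex.add_re, Complex.mul_re, Complex.ofReal_re, Complex.ofReal_im, Complex.I_re,
      Complex.I_im, Complex.add_im, Complex.mul_im]
    field_simp
    rw [h1]
    linear_combination (b ^ 2 * Real.sin ψ) * h2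

/-- The points of the ellipse in terms of the normal angle. -/
theorem range_supCurve_hE {a b : ℝ} (hb : 0 < b) (hab : b < a) :
    Set.range (supCurve (hE a b)) = Set.range (ellipseCurve a b) := by
  have ha : 0 < a := hb.trans hab
  apply Set.Subset.antisymm
  · rintro _ ⟨ψ, rfl⟩
    have h0 := (hE_pos hb hab ψ).ne'
    have h1 := hE_sq hb hab ψ
    set z : ℂ := ⟨a * Real.cos ψ / hE a b ψ, b * Real.sin ψ / hE a b ψ⟩ with hz
    have hzre : z.re = a * Real.cos ψ / hE a b ψ := rfl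
    have hzim : z.im = b * Real.sin ψ / hE a b ψ := rfl
    have hn : ‖z‖ = 1 := by
      rw [Complex.norm_eq_sqrt_sq_add_sq, hzre, hzim]
      have : (a * Real.cos ψ / hE a b ψ) ^ 2 + (b * Real.sin ψ / hE a b ψ) ^ 2 = 1 := by
        field_simp
        rw [h1]
      rw [this, Real.sqrt_one]
    have hz0 : z ≠ 0 := by
      intro h
      rw [h, norm_zero] at hn
      exact zero_ne_one hn
    refine ⟨Complex.arg z, ?_⟩
    have hc : Real.cos (Complex.arg z) = z.re := by
      rw [Complex.cos_arg hz0, hn, div_one]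
    have hs : Real.sin (Complex.arg z) = z.im := by
      rw [Complex.sin_arg, hn, div_one]
    rw [supCurve_hE hb hab]
    unfold ellipseCurve
    rw [hc, hs, hzre, hzim,
      show a * (a * Real.cos ψ / hE a b ψ) = a ^ 2 * Real.cos ψ / hE a b ψ by ring,
      show b * (b * Real.sin ψ / hE a b ψ) = b ^ 2 * Real.sin ψ / hE a b ψ by ring]
  · rintro _ ⟨t, rfl⟩
    set z : ℂ := ⟨Real.cos t / a, Real.sin t / b⟩ with hz
    have hzre : z.re = Real.cos t / a := rfl
    have hzim : z.im = Real.sin t / b := rfl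
    have h2 := Real.sin_sq_add_cos_sq t
    have hz0 : z ≠ 0 := by
      intro h
      have h3 : Real.cos t / a = 0 := by rw [← hzre, h]; rfl
      have h4 : Real.sin t / b = 0 := by rw [← hzim, h]; rfl
      have h5 : Real.cos t = 0 := by
        rcases div_eq_zero_iff.1 h3 with h | h
        · exact h
        · exact absurd h ha.ne'
      have h6 : Real.sin t = 0 := by
        rcases div_eq_zero_iff.1 h4 with h | h
        · exact h
        · exact absurd h hb.ne'
      rw [h5, h6] at h2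
      norm_num at h2
    have hn : 0 < ‖z‖ := norm_pos_iff.2 hz0
    have hc : Real.cos (Complex.arg z) = z.re / ‖z‖ := Complex.cos_arg hz0
    have hs : Real.sin (Complex.arg z) = z.im / ‖z‖ := Complex.sin_arg z
    have hh : hE a b (Complex.arg z) = 1 / ‖z‖ := by
      unfold hE
      rw [hc, hs, hzre, hzim]
      have : a ^ 2 * (Real.cos t / a / ‖z‖) ^ 2 + b ^ 2 * (Real.sin t / b / ‖z‖) ^ 2
          = (1 / ‖z‖) ^ 2 := by
        field_simp
        linear_combination h2
      rw [this, Real.sqrt_sq (by positivity)]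
    refine ⟨Complex.arg z, ?_⟩
    rw [supCurve_hE hb hab, hh, hc, hs, hzre, hzim]
    unfold ellipseCurve
    have e1 : a ^ 2 * (Real.cos t / a / ‖z‖) / (1 / ‖z‖) = a * Real.cos t := by
      field_simp
    have e2 : b ^ 2 * (Real.sin t / b / ‖z‖) / (1 / ‖z‖) = b * Real.sin t := by
      field_simp
    rw [e1, e2]

end G3x

open G3x

/-- G3: the support functions of ellipses give ellipses. -/
theorem isEllipse_of_supp {h : ℝ → ℝ} {a b τ v w : ℝ} (hb : 0 < b) (hab : b < a)
    (hh : ∀ ψ, h ψ = hE a b (ψ - τ) + v * Real.cos ψ + w * Real.sin ψ) :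
    IsEllipse (Set.range (supCurve h)) := by
  have hd : ∀ ψ, deriv h ψ = deriv (hE a b) (ψ - τ) - v * Real.sin ψ + w * Real.cos ψ := by
    intro ψ
    have h1 : HasDerivAt (fun x => hE a b (x - τ)) (deriv (hE a b) (ψ - τ)) ψ := by
      have h2 := (hE_hasDerivAt hb hab (ψ - τ)).comp ψ ((hasDerivAt_id ψ).sub_const τ)
      rw [mul_one] at h2
      rw [(hE_hasDerivAt hb hab (ψ - τ)).deriv]
      exact h2
    have h2 := (h1.add ((Real.hasDerivAt_cos ψ).const_mul v)).add
      ((Real.hasDerivAt_sin ψ).const_mul w)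
    have h3 : h = (fun x => hE a b (x - τ)) + (fun x => v * Real.cos x) +
        (fun x => w * Real.sin x) := by
      funext x
      exact hh x
    rw [h3, h2.deriv]
    ring
  have hcurve : ∀ ψ, supCurve h ψ = ((v : ℂ) + (w : ℂ) * I) +
      Complex.exp (τ * I) * supCurve (hE a b) (ψ - τ) := by
    intro ψ
    have he : Complex.exp (ψ * I) = Complex.exp (τ * I) * Complex.exp (((ψ - τ : ℝ) : ℂ) * I) := by
      rw [← Complex.exp_add]
      congr 1
      push_cast
      ring
    have h1 : (((v * Real.cos ψ + w * Real.sin ψ : ℝ) : ℂ) +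
        ((- v * Real.sin ψ + w * Real.cos ψ : ℝ) : ℂ) * I) * Complex.exp (ψ * I) =
        (v : ℂ) + (w : ℂ) * I := by
      have h2 := Real.sin_sq_add_cos_sq ψ
      rw [Complex.exp_mul_I, ← Complex.ofReal_cos, ← Complex.ofReal_sin]
      apply Complex.ext
      · simp only [Complex.add_re, Complex.mul_re, Complex.ofReal_re, Complex.ofReal_im,
          Complex.I_re, Complex.I_im, Complex.add_im, Complex.mul_im]
        linear_combination v * h2
      · simp only [Complex.add_re, Complex.mul_re, Complex.ofReal_re, Complex.ofReal_im,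
          Complex.I_re, Complex.I_im, Complex.add_im, Complex.mul_im]
        linear_combination w * h2
    unfold supCurve
    rw [hh ψ, hd ψ, ← h1, ← mul_assoc, mul_comm (Complex.exp (τ * I)), mul_assoc, ← he]
    push_cast
    ring
  refine ⟨a, b, τ, (v : ℂ) + (w : ℂ) * I, hb, hab, ?_⟩
  apply Set.Subset.antisymm
  · rintro _ ⟨ψ, rfl⟩
    have h1 : supCurve (hE a b) (ψ - τ) ∈ Set.range (ellipseCurve a b) := by
      rw [← range_supCurve_hE hb hab]
      exact ⟨_, rfl⟩
    obtain ⟨t, ht⟩ := h1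
    refine ⟨t, ?_⟩
    rw [hcurve ψ, ← ht]
  · rintro _ ⟨t, rfl⟩
    have h1 : ellipseCurve a b t ∈ Set.range (supCurve (hE a b)) := by
      rw [range_supCurve_hE hb hab]
      exact ⟨_, rfl⟩
    obtain ⟨ψ, hψ⟩ := h1
    refine ⟨ψ + τ, ?_⟩
    rw [hcurve, add_sub_cancel_right, hψ]

end LSB
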